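import Pool.Agent.Hmk.Fl

/-!
# Hgf (MP_161523_pr, Q2): a crude Poincaré inequality on bounded convex sets
-/

set_option autoImplicit false

open MeasureTheory Set Filter

open scoped ENNReal ContDiff Topology

noncomputable section

namespace Pool.Agent.Hgf

open Pool.Agent.Hmk

variable {ι : Type*} [Fintype ι] [DecidableEq ι]

/- MODULE pa
`g x - g y = ∫_0^1 fderiv g (y + s (x - y)) (x - y) ds`, Cauchy-Schwarz in `s`, and
`|fderiv g z k|^2 ≤ (∑ k_i^2) gr g z ≤ card ι * ‖k‖^2 * gr g z` (`fderiv_le` of Fl.lean). -/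

private theorem pa_cs {α : Type*} [MeasurableSpace α] (μ : Measure α) {f : α → ℝ≥0∞}
    (hf : AEMeasurable f μ) : (∫⁻ a, f a ∂μ) ^ 2 ≤ μ univ * ∫⁻ a, (f a) ^ 2 ∂μ := by
  have h := ENNReal.lintegral_mul_le_Lp_mul_Lq μ Real.HolderConjugate.two_two hf
    (measurable_const (a := (1 : ℝ≥0∞))).aemeasurable
  have e1 : ∫⁻ a, (f * (fun _ => 1 : α → ℝ≥0∞)) a ∂μ = ∫⁻ a, f a ∂μ := by
    refine lintegral_congr fun a => ?_
    simp
  rw [e1] at h
  have h2 : ∫⁻ _ : α, (1 : ℝ≥0∞) ^ (2 : ℝ) ∂μ = μ univ := by simp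
  rw [h2] at h
  have e3 : ∀ x : ℝ≥0∞, (x ^ (1 / 2 : ℝ)) ^ 2 = x := by
    intro x
    rw [← ENNReal.rpow_natCast, ← ENNReal.rpow_mul]
    norm_num
  have e4 : ∫⁻ a, (f a) ^ (2 : ℝ) ∂μ = ∫⁻ a, (f a) ^ 2 ∂μ := by
    refine lintegral_congr fun a => ?_
    rw [← ENNReal.rpow_natCast]
    norm_num
  calc (∫⁻ a, f a ∂μ) ^ 2
      ≤ ((∫⁻ a, (f a) ^ (2 : ℝ) ∂μ) ^ (1 / 2 : ℝ) * (μ univ) ^ (1 / 2 : ℝ)) ^ 2 := by
        gcongr
    _ = μ univ * ∫⁻ a, (f a) ^ 2 ∂μ := by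
        rw [mul_pow, e3, e3, e4, mul_comm]

private theorem pa_gr_cont {g : (ι → ℝ) → ℝ} (hC : ContDiff ℝ 1 g) : Continuous (gr g) := by
  have h1 : Continuous (fderiv ℝ g) := hC.continuous_fderiv (by norm_num)
  unfold gr pd
  exact continuous_finsetSum _ fun x _ => (h1.clm_apply continuous_const).pow 2

private theorem pa_sq (k : ι → ℝ) : ∑ x, (k x) ^ 2 ≤ (Fintype.card ι : ℝ) * ‖k‖ ^ 2 := by
  calc ∑ x, (k x) ^ 2 ≤ ∑ _x : ι, ‖k‖ ^ 2 := by
        refine Finset.sum_le_sum fun x _ => ?_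
        rw [← sq_abs]
        have h := norm_le_pi_norm k x
        rw [Real.norm_eq_abs] at h
        gcongr
    _ = (Fintype.card ι : ℝ) * ‖k‖ ^ 2 := by
        rw [Finset.sum_const, nsmul_eq_mul, Finset.card_univ]

private theorem pa_ofReal_sq (t : ℝ) : ENNReal.ofReal (t ^ 2) = (ENNReal.ofReal |t|) ^ 2 := by
  rw [← ENNReal.ofReal_pow (abs_nonneg t), sq_abs]

theorem poi_seg {g : (ι → ℝ) → ℝ} (hg : ContDiff ℝ 1 g) (x y : ι → ℝ) :
    ENNReal.ofReal ((g x - g y) ^ 2) ≤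
      ENNReal.ofReal ((Fintype.card ι : ℝ) * ‖x - y‖ ^ 2) *
        ∫⁻ s in Icc (0 : ℝ) 1, ENNReal.ofReal (gr g (y + s • (x - y))) := by
  have hcard : (0 : ℝ) ≤ (Fintype.card ι : ℝ) * ‖x - y‖ ^ 2 := by positivity
  have hder : ∀ s : ℝ, HasDerivAt (fun s : ℝ => g (y + s • (x - y)))
      (fderiv ℝ g (y + s • (x - y)) (x - y)) s := by
    intro s
    have h1 : HasFDerivAt g (fderiv ℝ g (y + s • (x - y))) (y + s • (x - y)) :=
      (hg.differentiable (by norm_num)).differentiableAt.hasFDerivAt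
    have h2 : HasDerivAt (fun s : ℝ => y + s • (x - y)) (x - y) s := by
      have h3 : HasDerivAt (fun s : ℝ => s • (x - y)) ((1 : ℝ) • (x - y)) s :=
        (hasDerivAt_id s).smul_const (x - y)
      rw [one_smul] at h3
      exact h3.const_add y
    exact h1.comp_hasDerivAt s h2
  have hcont : Continuous (fun s : ℝ => fderiv ℝ g (y + s • (x - y)) (x - y)) := by
    have h1 : Continuous (fderiv ℝ g) := hg.continuous_fderiv (by norm_num)
    exact (h1.comp (by fun_prop : Continuous fun s : ℝ => y + s • (x - y))).clm_apply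
      continuous_const
  have hFTC : ∫ s in (0 : ℝ)..1, fderiv ℝ g (y + s • (x - y)) (x - y) =
      g (y + (1 : ℝ) • (x - y)) - g (y + (0 : ℝ) • (x - y)) :=
    intervalIntegral.integral_eq_sub_of_hasDerivAt (fun s _ => hder s)
      (hcont.intervalIntegrable _ _)
  have h1 : y + (1 : ℝ) • (x - y) = x := by
    rw [one_smul]
    abel
  have h0 : y + (0 : ℝ) • (x - y) = y := by simp
  rw [h1, h0, intervalIntegral.integral_of_le zero_le_one] at hFTC
  set F : ℝ → ℝ≥0∞ := fun s => ‖fderiv ℝ g (y + s • (x - y)) (x - y)‖ₑ with hF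
  have hFm : Measurable F := hcont.measurable.enorm
  have hb2 : ENNReal.ofReal |g x - g y| ≤ ∫⁻ s in Icc (0 : ℝ) 1, F s := by
    rw [← hFTC, ← Real.enorm_eq_ofReal_abs]
    refine (enorm_integral_le_lintegral_enorm _).trans ?_
    exact lintegral_mono_set Ioc_subset_Icc_self
  rw [pa_ofReal_sq]
  calc (ENNReal.ofReal |g x - g y|) ^ 2 ≤ (∫⁻ s in Icc (0 : ℝ) 1, F s) ^ 2 := by gcongr
    _ ≤ (volume.restrict (Icc (0 : ℝ) 1)) univ * ∫⁻ s in Icc (0 : ℝ) 1, (F s) ^ 2 :=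
        pa_cs _ hFm.aemeasurable
    _ = ∫⁻ s in Icc (0 : ℝ) 1, (F s) ^ 2 := by
        rw [Measure.restrict_apply_univ, Real.volume_Icc]
        norm_num
    _ ≤ ∫⁻ s in Icc (0 : ℝ) 1, ENNReal.ofReal ((Fintype.card ι : ℝ) * ‖x - y‖ ^ 2) *
          ENNReal.ofReal (gr g (y + s • (x - y))) := by
        refine lintegral_mono fun s => ?_
        have hgr : 0 ≤ gr g (y + s • (x - y)) := by
          unfold gr
          exact Finset.sum_nonneg fun _ _ => sq_nonneg _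
        have e1 : (F s) ^ 2 = ENNReal.ofReal
            ((fderiv ℝ g (y + s • (x - y)) (x - y)) ^ 2) := by
          rw [pa_ofReal_sq, hF]
          simp only [Real.enorm_eq_ofReal_abs]
        rw [e1, ← ENNReal.ofReal_mul hcard]
        refine ENNReal.ofReal_le_ofReal ?_
        have e2 := fderiv_le g (y + s • (x - y)) (x - y)
        have e3 : (fderiv ℝ g (y + s • (x - y)) (x - y)) ^ 2 ≤
            (Real.sqrt (∑ z, ((x - y) z) ^ 2) * Real.sqrt (gr g (y + s • (x - y)))) ^ 2 := by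
          rw [← sq_abs]
          gcongr
        rw [mul_pow, Real.sq_sqrt (Finset.sum_nonneg fun _ _ => sq_nonneg _),
          Real.sq_sqrt hgr] at e3
        exact e3.trans (mul_le_mul_of_nonneg_right (pa_sq (x - y)) hgr)
    _ = _ := by
        rw [lintegral_const_mul']
        exact ENNReal.ofReal_ne_top

/- END pa -/

/- MODULE pb
For fixed `y ∈ K` and `1 / 2 ≤ s ≤ 1` the map `x ↦ y + s (x - y)` maps `K` into `K` and scales the
volume by `s ^ card ι ≥ 2 ^ (-card ι)` (`Measure.addHaar_preimage_smul` / `lintegral_comp_smul`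
or `MeasureTheory.Measure.addHaar_image_homothety`). -/

theorem poi_scale {K : Set (ι → ℝ)} (hc : Convex ℝ K) (hm : MeasurableSet K) {G : (ι → ℝ) → ℝ≥0∞}
    (hG : Measurable G) {y : ι → ℝ} (hy : y ∈ K) {s : ℝ} (h0 : 1 / 2 ≤ s) (h1 : s ≤ 1) :
    ∫⁻ x in K, G (y + s • (x - y)) ≤ 2 ^ (Fintype.card ι) * ∫⁻ x in K, G x := by
  have hs : 0 < s := by linarith
  have hmap : ∀ x ∈ K, y + s • (x - y) ∈ K := by
    intro x hx
    have h := hc hy hx (by linarith : (0 : ℝ) ≤ 1 - s) hs.le (by ring)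
    have e : y + s • (x - y) = (1 - s) • y + s • x := by
      rw [smul_sub, sub_smul, one_smul]
      abel
    rw [e]
    exact h
  have hGK : Measurable (K.indicator G) := hG.indicator hm
  have e1 : ∫⁻ x in K, G (y + s • (x - y)) ≤ ∫⁻ x, K.indicator G (y + s • (x - y)) := by
    refine (setLIntegral_mono' (g := fun x => K.indicator G (y + s • (x - y))) hm
      fun x hx => ?_).trans (setLIntegral_le_lintegral _ _)
    rw [indicator_of_mem (hmap x hx)]
  have e2 : ∫⁻ x : ι → ℝ, K.indicator G (y + s • (x - y)) =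
      ∫⁻ x : ι → ℝ, K.indicator G (y + s • x) :=
    lintegral_sub_right_eq_self (fun x => K.indicator G (y + s • x)) y
  have e3 : ∫⁻ x : ι → ℝ, K.indicator G (y + s • x) =
      ENNReal.ofReal |(s ^ Fintype.card ι)⁻¹| * ∫⁻ x, K.indicator G (y + x) := by
    have h1 := Measure.map_addHaar_smul (volume : Measure (ι → ℝ)) hs.ne'
    have h2 : ∫⁻ x : ι → ℝ, K.indicator G (y + s • x) =
        ∫⁻ x, K.indicator G (y + x) ∂(Measure.map (fun x : ι → ℝ => s • x) volume) := by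
      exact (lintegral_map (f := fun x => K.indicator G (y + x))
        (hGK.comp (measurable_const_add y)) (measurable_const_smul s)).symm
    rw [h2]
    have h3 : Measure.map (fun x : ι → ℝ => s • x) volume =
        ENNReal.ofReal |(s ^ Module.finrank ℝ (ι → ℝ))⁻¹| • (volume : Measure (ι → ℝ)) := h1
    rw [h3, lintegral_smul_measure, Module.finrank_fintype_fun_eq_card, smul_eq_mul]
  have e4 : ∫⁻ x : ι → ℝ, K.indicator G (y + x) = ∫⁻ x in K, G x := by
    rw [lintegral_add_left_eq_self (fun x => K.indicator G x) y, lintegral_indicator hm]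
  have e5 : ENNReal.ofReal |(s ^ Fintype.card ι)⁻¹| ≤ 2 ^ (Fintype.card ι) := by
    rw [← inv_pow, abs_of_nonneg (by positivity), ENNReal.ofReal_pow (by positivity)]
    gcongr
    rw [show (2 : ℝ≥0∞) = ENNReal.ofReal 2 by norm_num]
    refine ENNReal.ofReal_le_ofReal ?_
    rw [inv_le_comm₀ hs (by norm_num)]
    linarith
  calc ∫⁻ x in K, G (y + s • (x - y)) ≤ _ := e1
    _ = ENNReal.ofReal |(s ^ Fintype.card ι)⁻¹| * ∫⁻ x in K, G x := by rw [e2, e3, e4]
    _ ≤ _ := by gcongr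

/- END pb -/

/- MODULE pc
Integrate `poi_seg` over `K × K`; the part `s ≤ 1 / 2` is mapped to the part `s ≥ 1 / 2` by
exchanging `x` and `y` (`y + s (x - y) = x + (1 - s) (y - x)`); `poi_scale`, Tonelli. -/

private theorem pc_sym {α : Type*} [MeasurableSpace α] (μ : Measure α) [SFinite μ]
    {I J : α → α → ℝ≥0∞} (hJ : Measurable (fun p : α × α => J p.1 p.2))
    (hIJ : ∀ x y, I x y ≤ J y x + J x y) {B : ℝ≥0∞} (hB : ∫⁻ x, ∫⁻ y, J x y ∂μ ∂μ ≤ B) :
    ∫⁻ x, ∫⁻ y, I x y ∂μ ∂μ ≤ B + B := by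
  have hJs : Measurable (fun p : α × α => J p.2 p.1) := hJ.comp measurable_swap
  calc ∫⁻ x, ∫⁻ y, I x y ∂μ ∂μ ≤ ∫⁻ x, ∫⁻ y, (J y x + J x y) ∂μ ∂μ :=
        lintegral_mono fun x => lintegral_mono fun y => hIJ x y
    _ = ∫⁻ x, ((∫⁻ y, J y x ∂μ) + ∫⁻ y, J x y ∂μ) ∂μ := by
        refine lintegral_congr fun x => ?_
        exact lintegral_add_left (hJs.comp measurable_prodMk_left) _
    _ = (∫⁻ x, ∫⁻ y, J y x ∂μ ∂μ) + ∫⁻ x, ∫⁻ y, J x y ∂μ ∂μ :=
        lintegral_add_left hJs.lintegral_prod_right' _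
    _ = (∫⁻ y, ∫⁻ x, J y x ∂μ ∂μ) + ∫⁻ x, ∫⁻ y, J x y ∂μ ∂μ := by
        rw [lintegral_lintegral_swap (f := fun x y => J y x) hJs.aemeasurable]
    _ ≤ B + B := add_le_add hB hB

theorem poinc {K : Set (ι → ℝ)} (hc : Convex ℝ K) (hm : MeasurableSet K) {R : ℝ}
    (hR : ∀ x ∈ K, ∀ y ∈ K, ‖x - y‖ ≤ R) {g : (ι → ℝ) → ℝ} (hg : ContDiff ℝ 1 g) :
    ∫⁻ x in K, ∫⁻ y in K, ENNReal.ofReal ((g x - g y) ^ 2) ≤
      ENNReal.ofReal ((Fintype.card ι : ℝ) * R ^ 2) * 2 ^ (Fintype.card ι) * volume K *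
        ∫⁻ x in K, ENNReal.ofReal (gr g x) := by
  set G : (ι → ℝ) → ℝ≥0∞ := fun x => ENNReal.ofReal (gr g x) with hG
  have hGm : Measurable G := (pa_gr_cont hg).measurable.ennreal_ofReal
  have hphi : Measurable (fun p : ((ι → ℝ) × (ι → ℝ)) × ℝ => G (p.1.2 + p.2 • (p.1.1 - p.1.2))) :=
    hGm.comp (by fun_prop)
  -- bound by the segment integral
  have step1 : ∫⁻ x in K, ∫⁻ y in K, ENNReal.ofReal ((g x - g y) ^ 2) ≤
      ∫⁻ x in K, ∫⁻ y in K, ENNReal.ofReal ((Fintype.card ι : ℝ) * R ^ 2) *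
        ∫⁻ s in Icc (0 : ℝ) 1, G (y + s • (x - y)) := by
    refine setLIntegral_mono' hm fun x hx => setLIntegral_mono' hm fun y hy => ?_
    refine (poi_seg hg x y).trans ?_
    have h1 : (Fintype.card ι : ℝ) * ‖x - y‖ ^ 2 ≤ (Fintype.card ι : ℝ) * R ^ 2 := by
      have := hR x hx y hy
      gcongr
    exact mul_le_mul' (ENNReal.ofReal_le_ofReal h1) le_rfl
  have hin : ∀ a b : ℝ, Measurable (fun p : (ι → ℝ) × (ι → ℝ) =>
      ∫⁻ s in Icc a b, G (p.2 + s • (p.1 - p.2))) := fun a b => hphi.lintegral_prod_right'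
  have step2 : ∫⁻ x in K, ∫⁻ y in K, ENNReal.ofReal ((Fintype.card ι : ℝ) * R ^ 2) *
        ∫⁻ s in Icc (0 : ℝ) 1, G (y + s • (x - y)) =
      ENNReal.ofReal ((Fintype.card ι : ℝ) * R ^ 2) * ∫⁻ x in K, ∫⁻ y in K,
        ∫⁻ s in Icc (0 : ℝ) 1, G (y + s • (x - y)) := by
    have h1 : ∀ x : ι → ℝ, ∫⁻ y in K, ENNReal.ofReal ((Fintype.card ι : ℝ) * R ^ 2) *
        ∫⁻ s in Icc (0 : ℝ) 1, G (y + s • (x - y)) =
        ENNReal.ofReal ((Fintype.card ι : ℝ) * R ^ 2) * ∫⁻ y in K,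
        ∫⁻ s in Icc (0 : ℝ) 1, G (y + s • (x - y)) := fun x =>
      lintegral_const_mul' _ _ ENNReal.ofReal_ne_top
    simp_rw [h1]
    exact lintegral_const_mul' _ _ ENNReal.ofReal_ne_top
  -- the half s ≥ 1 / 2
  have half : ∫⁻ x in K, ∫⁻ y in K, ∫⁻ s in Icc (1 / 2 : ℝ) 1, G (y + s • (x - y)) ≤
      ENNReal.ofReal (1 / 2) * (2 ^ (Fintype.card ι) * volume K * ∫⁻ x in K, G x) := by
    have h1 : ∫⁻ x in K, ∫⁻ y in K, ∫⁻ s in Icc (1 / 2 : ℝ) 1, G (y + s • (x - y)) =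
        ∫⁻ y in K, ∫⁻ x in K, ∫⁻ s in Icc (1 / 2 : ℝ) 1, G (y + s • (x - y)) := by
      refine lintegral_lintegral_swap ?_
      exact (hin (1 / 2) 1).aemeasurable
    rw [h1]
    have h2 : ∀ y ∈ K, ∫⁻ x in K, ∫⁻ s in Icc (1 / 2 : ℝ) 1, G (y + s • (x - y)) ≤
        ENNReal.ofReal (1 / 2) * (2 ^ (Fintype.card ι) * ∫⁻ x in K, G x) := by
      intro y hy
      have h3 : ∫⁻ x in K, ∫⁻ s in Icc (1 / 2 : ℝ) 1, G (y + s • (x - y)) =
          ∫⁻ s in Icc (1 / 2 : ℝ) 1, ∫⁻ x in K, G (y + s • (x - y)) := by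
        refine lintegral_lintegral_swap ?_
        have : Measurable (fun p : (ι → ℝ) × ℝ => G (y + p.2 • (p.1 - y))) :=
          hGm.comp (by fun_prop)
        exact this.aemeasurable
      rw [h3]
      calc ∫⁻ s in Icc (1 / 2 : ℝ) 1, ∫⁻ x in K, G (y + s • (x - y))
          ≤ ∫⁻ _s in Icc (1 / 2 : ℝ) 1, 2 ^ (Fintype.card ι) * ∫⁻ x in K, G x := by
            refine setLIntegral_mono' measurableSet_Icc fun s hs => ?_
            exact poi_scale hc hm hGm hy hs.1 hs.2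
        _ = ENNReal.ofReal (1 / 2) * (2 ^ (Fintype.card ι) * ∫⁻ x in K, G x) := by
            rw [setLIntegral_const, Real.volume_Icc, mul_comm]
            norm_num
    calc ∫⁻ y in K, ∫⁻ x in K, ∫⁻ s in Icc (1 / 2 : ℝ) 1, G (y + s • (x - y))
        ≤ ∫⁻ _y in K, ENNReal.ofReal (1 / 2) * (2 ^ (Fintype.card ι) * ∫⁻ x in K, G x) :=
          setLIntegral_mono' hm h2
      _ = ENNReal.ofReal (1 / 2) * (2 ^ (Fintype.card ι) * volume K * ∫⁻ x in K, G x) := by
          rw [setLIntegral_const]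
          ring
  -- the half s ≤ 1 / 2
  have refl : ∀ x y : ι → ℝ, ∫⁻ s in Icc (0 : ℝ) (1 / 2), G (y + s • (x - y)) =
      ∫⁻ s in Icc (1 / 2 : ℝ) 1, G (x + s • (y - x)) := by
    intro x y
    have h1 : ∫⁻ s in Icc (1 / 2 : ℝ) 1, G (x + s • (y - x)) =
        ∫⁻ s, (Icc (1 / 2 : ℝ) 1).indicator (fun s => G (x + s • (y - x))) s := by
      rw [lintegral_indicator measurableSet_Icc]
    have h2 : ∫⁻ s in Icc (0 : ℝ) (1 / 2), G (y + s • (x - y)) =
        ∫⁻ s, (Icc (0 : ℝ) (1 / 2)).indicator (fun s => G (y + s • (x - y))) s := by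
      rw [lintegral_indicator measurableSet_Icc]
    rw [h1, h2, ← lintegral_sub_left_eq_self
      (fun s => (Icc (1 / 2 : ℝ) 1).indicator (fun s => G (x + s • (y - x))) s) 1]
    refine lintegral_congr fun s => ?_
    by_cases hs : s ∈ Icc (0 : ℝ) (1 / 2)
    · have hs' : 1 - s ∈ Icc (1 / 2 : ℝ) 1 := ⟨by linarith [hs.2], by linarith [hs.1]⟩
      rw [indicator_of_mem hs, indicator_of_mem hs']
      congr 1
      funext z
      simp only [Pi.add_apply, Pi.smul_apply, Pi.sub_apply, smul_eq_mul]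
      ring
    · have hs' : 1 - s ∉ Icc (1 / 2 : ℝ) 1 := by
        intro h
        exact hs ⟨by linarith [h.2], by linarith [h.1]⟩
      rw [indicator_of_notMem hs, indicator_of_notMem hs']
  have split : ∫⁻ x in K, ∫⁻ y in K, ∫⁻ s in Icc (0 : ℝ) 1, G (y + s • (x - y)) ≤
      2 ^ (Fintype.card ι) * volume K * ∫⁻ x in K, G x := by
    have h1 : ∀ x y : ι → ℝ, ∫⁻ s in Icc (0 : ℝ) 1, G (y + s • (x - y)) ≤
        (∫⁻ s in Icc (1 / 2 : ℝ) 1, G (x + s • (y - x))) +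
        ∫⁻ s in Icc (1 / 2 : ℝ) 1, G (y + s • (x - y)) := by
      intro x y
      rw [← refl x y]
      have h2 : Icc (0 : ℝ) 1 ⊆ Icc (0 : ℝ) (1 / 2) ∪ Icc (1 / 2 : ℝ) 1 := by
        intro s hs
        rcases le_total s (1 / 2) with h | h
        · exact Or.inl ⟨hs.1, h⟩
        · exact Or.inr ⟨h, hs.2⟩
      exact (lintegral_mono_set h2).trans (lintegral_union_le _ _ _)
    refine (pc_sym (volume.restrict K)
      (J := fun x y => ∫⁻ s in Icc (1 / 2 : ℝ) 1, G (y + s • (x - y))) (hin (1 / 2) 1) h1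
      half).trans (le_of_eq ?_)
    rw [← add_mul, ← ENNReal.ofReal_add (by norm_num) (by norm_num)]
    norm_num
  calc ∫⁻ x in K, ∫⁻ y in K, ENNReal.ofReal ((g x - g y) ^ 2) ≤ _ := step1
    _ = _ := step2
    _ ≤ ENNReal.ofReal ((Fintype.card ι : ℝ) * R ^ 2) *
        (2 ^ (Fintype.card ι) * volume K * ∫⁻ x in K, G x) := by gcongr
    _ = _ := by ring

/- END pc -/

/- MODULE pd
`|g x| |K| ≤ ∫_K |g x - g y| dy + ∫_K |g y| dy`, square, Cauchy-Schwarz, integrate over `x`. -/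

private theorem pd_add_sq (a b : ℝ≥0∞) : (a + b) ^ 2 ≤ 2 * a ^ 2 + 2 * b ^ 2 := by
  rcases eq_or_ne a ⊤ with ha | ha
  · subst ha
    simp
  rcases eq_or_ne b ⊤ with hb | hb
  · subst hb
    simp
  lift a to NNReal using ha
  lift b to NNReal using hb
  norm_cast
  rw [← NNReal.coe_le_coe]
  push_cast
  nlinarith [sq_nonneg ((a : ℝ) - b)]

private theorem pd_ofReal_sq (t : ℝ) : ENNReal.ofReal (t ^ 2) = (ENNReal.ofReal |t|) ^ 2 := by
  rw [← ENNReal.ofReal_pow (abs_nonneg t), sq_abs]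

theorem poinc_L2 {K : Set (ι → ℝ)} (hm : MeasurableSet K) {g : (ι → ℝ) → ℝ}
    (hg : Measurable g) (hK : volume K < ⊤) :
    volume K * ∫⁻ x in K, ENNReal.ofReal ((g x) ^ 2) ≤
      2 * (∫⁻ x in K, ∫⁻ y in K, ENNReal.ofReal ((g x - g y) ^ 2)) +
        2 * (∫⁻ x in K, ENNReal.ofReal |g x|) ^ 2 := by
  rcases eq_or_ne (volume K) 0 with h0 | h0
  · rw [h0, zero_mul]
    exact bot_le
  have hgm : Measurable (fun x => ENNReal.ofReal |g x|) := hg.abs.ennreal_ofReal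
  have hfin : volume K ≠ ⊤ := hK.ne
  have hpt : ∀ x : ι → ℝ, volume K ^ 2 * ENNReal.ofReal ((g x) ^ 2) ≤
      2 * (volume K * ∫⁻ y in K, ENNReal.ofReal ((g x - g y) ^ 2)) +
        2 * (∫⁻ y in K, ENNReal.ofReal |g y|) ^ 2 := by
    intro x
    have hxm : Measurable (fun y => ENNReal.ofReal |g x - g y|) :=
      (measurable_const.sub hg).abs.ennreal_ofReal
    have h1 : volume K * ENNReal.ofReal |g x| ≤
        (∫⁻ y in K, ENNReal.ofReal |g x - g y|) + ∫⁻ y in K, ENNReal.ofReal |g y| := by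
      rw [← lintegral_add_left hxm, mul_comm, ← setLIntegral_const]
      refine lintegral_mono fun y => ?_
      rw [← ENNReal.ofReal_add (abs_nonneg _) (abs_nonneg _)]
      refine ENNReal.ofReal_le_ofReal ?_
      have := abs_add_le (g x - g y) (g y)
      rwa [sub_add_cancel] at this
    have h2 : (∫⁻ y in K, ENNReal.ofReal |g x - g y|) ^ 2 ≤
        volume K * ∫⁻ y in K, ENNReal.ofReal ((g x - g y) ^ 2) := by
      have h3 := pa_cs (volume.restrict K) hxm.aemeasurable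
      rw [Measure.restrict_apply_univ] at h3
      simp_rw [pd_ofReal_sq]
      exact h3
    calc volume K ^ 2 * ENNReal.ofReal ((g x) ^ 2)
        = (volume K * ENNReal.ofReal |g x|) ^ 2 := by rw [pd_ofReal_sq, mul_pow]
      _ ≤ ((∫⁻ y in K, ENNReal.ofReal |g x - g y|) + ∫⁻ y in K, ENNReal.ofReal |g y|) ^ 2 := by
          gcongr
      _ ≤ _ := (pd_add_sq _ _).trans (by gcongr)
  have hdm : Measurable (fun p : (ι → ℝ) × (ι → ℝ) => ENNReal.ofReal ((g p.1 - g p.2) ^ 2)) :=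
    (((hg.comp measurable_fst).sub (hg.comp measurable_snd)).pow_const 2).ennreal_ofReal
  have hint : volume K ^ 2 * ∫⁻ x in K, ENNReal.ofReal ((g x) ^ 2) ≤
      volume K * (2 * (∫⁻ x in K, ∫⁻ y in K, ENNReal.ofReal ((g x - g y) ^ 2)) +
        2 * (∫⁻ x in K, ENNReal.ofReal |g x|) ^ 2) := by
    calc volume K ^ 2 * ∫⁻ x in K, ENNReal.ofReal ((g x) ^ 2)
        = ∫⁻ x in K, volume K ^ 2 * ENNReal.ofReal ((g x) ^ 2) := by
          rw [lintegral_const_mul' _ _ (ENNReal.pow_ne_top hfin)]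
      _ ≤ ∫⁻ x in K, (2 * (volume K * ∫⁻ y in K, ENNReal.ofReal ((g x - g y) ^ 2)) +
            2 * (∫⁻ y in K, ENNReal.ofReal |g y|) ^ 2) := lintegral_mono hpt
      _ = (∫⁻ x in K, 2 * (volume K * ∫⁻ y in K, ENNReal.ofReal ((g x - g y) ^ 2))) +
            ∫⁻ _x in K, 2 * (∫⁻ y in K, ENNReal.ofReal |g y|) ^ 2 := by
          refine lintegral_add_left ?_ _
          exact (hdm.lintegral_prod_right'.const_mul _).const_mul _
      _ = _ := by
          rw [lintegral_const_mul' _ _ (by norm_num), lintegral_const_mul' _ _ hfin,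
            setLIntegral_const]
          ring
  rw [pow_two, mul_assoc] at hint
  exact (ENNReal.mul_le_mul_iff_right h0 hfin).1 hint

/- END pd -/

/- MODULE pe
The same with a subset `A ⊆ K` on which `g` is controlled:
`g(x)^2 |A| ≤ 2 ∫_A (g x - g y)^2 dy + 2 ∫_A g(y)^2 dy`. -/

theorem poinc_sub {K A : Set (ι → ℝ)} (hm : MeasurableSet K) (hA : MeasurableSet A)
    (hAK : A ⊆ K) {g : (ι → ℝ) → ℝ} (hg : Measurable g) :
    volume A * ∫⁻ x in K, ENNReal.ofReal ((g x) ^ 2) ≤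
      2 * (∫⁻ x in K, ∫⁻ y in K, ENNReal.ofReal ((g x - g y) ^ 2)) +
        2 * volume K * ∫⁻ x in A, ENNReal.ofReal ((g x) ^ 2) := by
  have hsq : ∀ x y : ι → ℝ, ENNReal.ofReal ((g x) ^ 2) ≤
      2 * ENNReal.ofReal ((g x - g y) ^ 2) + 2 * ENNReal.ofReal ((g y) ^ 2) := by
    intro x y
    rw [show (2 : ℝ≥0∞) = ENNReal.ofReal 2 by norm_num, ← ENNReal.ofReal_mul (by norm_num),
      ← ENNReal.ofReal_mul (by norm_num), ← ENNReal.ofReal_add (by positivity) (by positivity)]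
    refine ENNReal.ofReal_le_ofReal ?_
    nlinarith [sq_nonneg (g x - 2 * g y)]
  have hgm : Measurable (fun x => ENNReal.ofReal ((g x) ^ 2)) := (hg.pow_const 2).ennreal_ofReal
  have hdm : Measurable (fun p : (ι → ℝ) × (ι → ℝ) => ENNReal.ofReal ((g p.1 - g p.2) ^ 2)) :=
    (((hg.comp measurable_fst).sub (hg.comp measurable_snd)).pow_const 2).ennreal_ofReal
  calc volume A * ∫⁻ x in K, ENNReal.ofReal ((g x) ^ 2)
      = ∫⁻ x in K, ENNReal.ofReal ((g x) ^ 2) * volume A := by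
        rw [lintegral_mul_const _ hgm, mul_comm]
    _ = ∫⁻ x in K, ∫⁻ _y in A, ENNReal.ofReal ((g x) ^ 2) := by
        refine lintegral_congr fun x => ?_
        rw [setLIntegral_const]
    _ ≤ ∫⁻ x in K, ∫⁻ y in A, (2 * ENNReal.ofReal ((g x - g y) ^ 2) +
          2 * ENNReal.ofReal ((g y) ^ 2)) :=
        lintegral_mono fun x => lintegral_mono fun y => hsq x y
    _ = ∫⁻ x in K, (2 * (∫⁻ y in A, ENNReal.ofReal ((g x - g y) ^ 2)) +
          2 * ∫⁻ y in A, ENNReal.ofReal ((g y) ^ 2)) := by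
        refine lintegral_congr fun x => ?_
        have hx : Measurable (fun y => 2 * ENNReal.ofReal ((g x - g y) ^ 2)) :=
          ((measurable_const.sub hg).pow_const 2).ennreal_ofReal.const_mul _
        rw [lintegral_add_left hx,
          lintegral_const_mul' _ _ (by norm_num), lintegral_const_mul' _ _ (by norm_num)]
    _ = 2 * (∫⁻ x in K, ∫⁻ y in A, ENNReal.ofReal ((g x - g y) ^ 2)) +
          2 * volume K * ∫⁻ y in A, ENNReal.ofReal ((g y) ^ 2) := by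
        rw [lintegral_add_left (hdm.lintegral_prod_right'.const_mul _),
          lintegral_const_mul' _ _ (by norm_num), setLIntegral_const]
        ring
    _ ≤ _ := by
        gcongr

/- END pe -/

end Pool.Agent.Hgf
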