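import Pool.Agent.Hmk.Us

import Pool.Agent.Hgf.Poi

/-!
# Hgf (MP_161523_pr, Q2): slacks, facets, cut-off functions
-/

set_option autoImplicit false

open MeasureTheory Set Filter

open scoped ENNReal ContDiff Topology

noncomputable section

namespace Pool.Agent.Hgf

open Pool.Agent.Hmk

/-- the sign of a facet -/
def sg (σ : Bool) : ℝ := if σ then 1 else -1

/-- the slack of the facet `f = (x, i, σ)`: `1 - σ (H x - H (x + st i))` -/
def sl (D : Finset (ℤ × ℤ)) (b : ℤ × ℤ → ℝ) (f : (ℤ × ℤ) × Fin 6 × Bool) (h : D → ℝ) : ℝ :=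
  1 - sg f.2.2 * (gl D b h f.1 - gl D b h (f.1 + st f.2.1))

/-- all facets -/
def Fa (D : Finset (ℤ × ℤ)) : Finset ((ℤ × ℤ) × Fin 6 × Bool) :=
  D ×ˢ (Finset.univ ×ˢ Finset.univ)

/-- the free end points of a facet -/
def sp (D : Finset (ℤ × ℤ)) (f : (ℤ × ℤ) × Fin 6 × Bool) : Finset (ℤ × ℤ) :=
  ({f.1, f.1 + st f.2.1} : Finset (ℤ × ℤ)) ∩ D

/- MODULE ca
`θ r = Real.smoothTransition (r - 1)` (its derivative is continuous and has compact support, hence
is bounded); `τ r = ∫ t in 0..r, (1 - Real.smoothTransition (|t| / M - 1))` or any other smooth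
odd nondecreasing function which is the identity on `[-M, M]`, `|τ| ≤ 2 M`, `|τ'| ≤ 1`. -/

/- MODULE ca -/

private theorem ca_bound {θ : ℝ → ℝ} {a b : ℝ} (hθ : ContDiff ℝ ∞ θ) {c d : ℝ}
    (h0 : ∀ r, r < a → θ r = c) (h1 : ∀ r, b < r → θ r = d) :
    ∃ C : ℝ, 0 ≤ C ∧ ∀ r, |deriv θ r| ≤ C := by
  have hc : Continuous (deriv θ) := hθ.continuous_deriv (by simp)
  obtain ⟨C, hC⟩ := (isCompact_Icc (a := a) (b := b)).exists_bound_of_continuousOn
    hc.continuousOn
  refine ⟨max C 0, le_max_right _ _, fun r => ?_⟩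
  rcases lt_or_ge r a with h | h
  · have h2 : θ =ᶠ[𝓝 r] fun _ => c := by
      filter_upwards [Iio_mem_nhds h] with t ht
      exact h0 t ht
    rw [h2.deriv_eq, deriv_const, abs_zero]
    exact le_max_right _ _
  · rcases lt_or_ge b r with h3 | h3
    · have h2 : θ =ᶠ[𝓝 r] fun _ => d := by
        filter_upwards [Ioi_mem_nhds h3] with t ht
        exact h1 t ht
      rw [h2.deriv_eq, deriv_const, abs_zero]
      exact le_max_right _ _
    · have := hC r ⟨h, h3⟩
      rw [Real.norm_eq_abs] at this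
      exact this.trans (le_max_left _ _)

theorem theta_exists : ∃ (θ : ℝ → ℝ) (C : ℝ), 0 ≤ C ∧ ContDiff ℝ ∞ θ ∧ (∀ r, r ≤ 1 → θ r = 0) ∧
    (∀ r, 2 ≤ r → θ r = 1) ∧ (∀ r, 0 ≤ θ r ∧ θ r ≤ 1) ∧ ∀ r, |deriv θ r| ≤ C := by
  have h1 : ContDiff ℝ ∞ (fun r : ℝ => Real.smoothTransition (r - 1)) :=
    Real.smoothTransition.contDiff.comp (contDiff_id.sub contDiff_const)
  have h2 : ∀ r : ℝ, r ≤ 1 → Real.smoothTransition (r - 1) = 0 := fun r hr =>
    Real.smoothTransition.zero_of_nonpos (by linarith)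
  have h3 : ∀ r : ℝ, 2 ≤ r → Real.smoothTransition (r - 1) = 1 := fun r hr =>
    Real.smoothTransition.one_of_one_le (by linarith)
  obtain ⟨C, hC0, hC⟩ := ca_bound (a := 1) (b := 2) (c := 0) (d := 1) h1
    (fun r hr => h2 r hr.le) (fun r hr => h3 r hr.le)
  exact ⟨_, C, hC0, h1, h2, h3, fun r => ⟨Real.smoothTransition.nonneg _,
    Real.smoothTransition.le_one _⟩, hC⟩

theorem trunc_exists {M : ℝ} (hM : 0 < M) : ∃ τ : ℝ → ℝ, ContDiff ℝ ∞ τ ∧
    (∀ r, |r| ≤ M → τ r = r) ∧ (∀ r, |τ r| ≤ 2 * M) ∧ (∀ r, |τ r| ≤ |r|) ∧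
    (∀ r t, |τ r - τ t| ≤ |r - t|) ∧ ∀ r, |deriv τ r| ≤ 1 := by
  set φ : ℝ → ℝ := fun t => 1 - Real.smoothTransition (t ^ 2 / M ^ 2 - 1) with hφ
  have hφs : ContDiff ℝ ∞ φ := contDiff_const.sub
    (Real.smoothTransition.contDiff.comp (((contDiff_id.pow 2).div_const _).sub contDiff_const))
  have hφc : Continuous φ := hφs.continuous
  have hφ1 : ∀ t, |t| ≤ M → φ t = 1 := by
    intro t ht
    have : t ^ 2 / M ^ 2 - 1 ≤ 0 := by
      rw [sub_nonpos, div_le_one (by positivity), ← sq_abs t]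
      exact pow_le_pow_left₀ (abs_nonneg t) ht 2
    simp only [hφ, Real.smoothTransition.zero_of_nonpos this, sub_zero]
  have hφ0 : ∀ t, 2 * M ≤ |t| → φ t = 0 := by
    intro t ht
    have : 1 ≤ t ^ 2 / M ^ 2 - 1 := by
      rw [le_sub_iff_add_le, le_div_iff₀ (by positivity), ← sq_abs t]
      nlinarith [abs_nonneg t]
    simp only [hφ, Real.smoothTransition.one_of_one_le this, sub_self]
  have hφb : ∀ t, |φ t| ≤ 1 := by
    intro t
    have h1 := Real.smoothTransition.nonneg (t ^ 2 / M ^ 2 - 1)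
    have h2 := Real.smoothTransition.le_one (t ^ 2 / M ^ 2 - 1)
    rw [abs_le]
    constructor <;> simp only [hφ] <;> linarith
  set τ : ℝ → ℝ := fun r => ∫ t in (0 : ℝ)..r, φ t with hτ
  have hd : ∀ r, HasDerivAt τ (φ r) r := fun r =>
    intervalIntegral.integral_hasDerivAt_right (hφc.intervalIntegrable _ _)
      (hφc.stronglyMeasurableAtFilter _ _) hφc.continuousAt
  have hde : deriv τ = φ := funext fun r => (hd r).deriv
  have hlip : ∀ r t, |τ r - τ t| ≤ |r - t| := by
    intro r t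
    have h1 : τ r - τ t = ∫ u in t..r, φ u := by
      simp only [hτ]
      rw [intervalIntegral.integral_interval_sub_left (hφc.intervalIntegrable _ _)
        (hφc.intervalIntegrable _ _)]
    rw [h1, ← Real.norm_eq_abs]
    have h2 := intervalIntegral.norm_integral_le_of_norm_le_const (a := t) (b := r) (f := φ)
      (C := 1) (fun u _ => by rw [Real.norm_eq_abs]; exact hφb u)
    rwa [one_mul] at h2
  have h0 : τ 0 = 0 := by simp [hτ]
  have habs : ∀ r, |τ r| ≤ |r| := by
    intro r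
    have := hlip r 0
    rwa [h0, sub_zero, sub_zero] at this
  have hconst : ∀ a r : ℝ, (∀ u ∈ uIcc a r, 2 * M ≤ |u|) → τ r = τ a := by
    intro a r hu
    have h1 : τ r - τ a = ∫ u in a..r, φ u := by
      simp only [hτ]
      rw [intervalIntegral.integral_interval_sub_left (hφc.intervalIntegrable _ _)
        (hφc.intervalIntegrable _ _)]
    have h2 : ∫ u in a..r, φ u = ∫ u in a..r, (0 : ℝ) :=
      intervalIntegral.integral_congr fun u hu' => hφ0 u (hu u hu')
    rw [h2, intervalIntegral.integral_zero] at h1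
    linarith
  refine ⟨τ, ?_, ?_, ?_, habs, hlip, ?_⟩
  · rw [contDiff_infty_iff_deriv]
    exact ⟨fun r => (hd r).differentiableAt, by rw [hde]; exact hφs⟩
  · intro r hr
    simp only [hτ]
    have h2 : ∫ u in (0 : ℝ)..r, φ u = ∫ u in (0 : ℝ)..r, (1 : ℝ) := by
      refine intervalIntegral.integral_congr fun u hu => hφ1 u ?_
      rcases le_total 0 r with h | h
      · rw [uIcc_of_le h] at hu
        rw [abs_of_nonneg hu.1]
        exact hu.2.trans ((le_abs_self r).trans hr)
      · rw [uIcc_of_ge h] at hu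
        rw [abs_of_nonpos hu.2]
        have := neg_abs_le r
        linarith [hu.1]
    rw [h2, intervalIntegral.integral_const, smul_eq_mul, mul_one, sub_zero]
  · intro r
    rcases le_or_gt |r| (2 * M) with h | h
    · exact (habs r).trans h
    · rcases lt_abs.1 h with h1 | h1
      · have h2 : τ r = τ (2 * M) := by
          refine hconst _ _ fun u hu => ?_
          rw [uIcc_of_le h1.le] at hu
          exact hu.1.trans (le_abs_self u)
        rw [h2]
        have := habs (2 * M)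
        rwa [abs_of_pos (a := 2 * M) (by linarith)] at this
      · have h2 : τ r = τ (-(2 * M)) := by
          refine hconst _ _ fun u hu => ?_
          rw [uIcc_of_ge (by linarith)] at hu
          have := neg_le_abs u
          linarith [hu.2]
        rw [h2]
        have := habs (-(2 * M))
        rwa [abs_neg (2 * M), abs_of_pos (a := 2 * M) (by linarith)] at this
  · intro r
    rw [hde]
    exact hφb r

/- END ca -/

/- MODULE cb
`sl` is affine in `h`. -/

private def cb_ev (D : Finset (ℤ × ℤ)) (z : ℤ × ℤ) : (D → ℝ) →L[ℝ] ℝ :=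
  if hz : z ∈ D then ContinuousLinearMap.proj (⟨z, hz⟩ : D) else 0

private theorem cb_gl (D : Finset (ℤ × ℤ)) (b : ℤ × ℤ → ℝ) (h : D → ℝ) (z : ℤ × ℤ) :
    gl D b h z = cb_ev D z h + gl D b 0 z := by
  unfold gl cb_ev
  split_ifs <;> simp

private theorem cb_evs (D : Finset (ℤ × ℤ)) (z : ℤ × ℤ) (y : D) :
    cb_ev D z (Pi.single y 1) = if y.1 = z then 1 else 0 := by
  unfold cb_ev
  by_cases hz : z ∈ D
  · rw [dif_pos hz, ContinuousLinearMap.proj_apply, Pi.single_apply]
    by_cases h : y.1 = z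
    · rw [if_pos h, if_pos (Subtype.ext h.symm)]
    · rw [if_neg h, if_neg (fun e => h (congrArg Subtype.val e).symm)]
  · rw [dif_neg hz, ContinuousLinearMap.zero_apply, if_neg]
    rintro rfl
    exact hz y.2

private theorem cb_sl (D : Finset (ℤ × ℤ)) (b : ℤ × ℤ → ℝ) (f : (ℤ × ℤ) × Fin 6 × Bool) :
    sl D b f = fun h => sl D b f 0 - sg f.2.2 * (cb_ev D f.1 - cb_ev D (f.1 + st f.2.1)) h := by
  funext h
  unfold sl
  rw [cb_gl D b h f.1, cb_gl D b h (f.1 + st f.2.1), ContinuousLinearMap.sub_apply]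
  ring

theorem sl_smooth (D : Finset (ℤ × ℤ)) (b : ℤ × ℤ → ℝ) (f : (ℤ × ℤ) × Fin 6 × Bool) :
    ContDiff ℝ ∞ (sl D b f) := by
  rw [cb_sl D b f]
  exact contDiff_const.sub (contDiff_const.mul (ContinuousLinearMap.contDiff _))

private theorem cb_sg (σ : Bool) : sg σ = 1 ∨ sg σ = -1 := by
  cases σ <;> simp [sg]

theorem sl_nonneg {D : Finset (ℤ × ℤ)} {b : ℤ × ℤ → ℝ} {f : (ℤ × ℤ) × Fin 6 × Bool}
    (hf : f ∈ Fa D) {h : D → ℝ} (hh : h ∈ K D b) : 0 ≤ sl D b f h ∧ sl D b f h ≤ 2 := by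
  have h1 := hh f.1 (Finset.mem_product.1 hf).1 f.2.1
  rw [abs_le] at h1
  unfold sl
  rcases cb_sg f.2.2 with h2 | h2 <;> rw [h2] <;> constructor <;> linarith [h1.1, h1.2]

theorem sl_gr (D : Finset (ℤ × ℤ)) (b : ℤ × ℤ → ℝ) (f : (ℤ × ℤ) × Fin 6 × Bool) (h : D → ℝ) :
    gr (sl D b f) h ≤ 2 := by
  have h1 : ∀ y : D, pd y (sl D b f) h =
      - (sg f.2.2 * ((if y.1 = f.1 then 1 else 0) - (if y.1 = f.1 + st f.2.1 then 1 else 0))) := by
    intro y
    unfold pd
    have h2 : HasFDerivAt (sl D b f) (- (sg f.2.2 • (cb_ev D f.1 - cb_ev D (f.1 + st f.2.1)))) h := by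
      rw [cb_sl D b f]
      have h3 := (((cb_ev D f.1 - cb_ev D (f.1 + st f.2.1)).hasFDerivAt (x := h)).const_mul
        (sg f.2.2)).const_sub (sl D b f 0)
      exact h3
    rw [h2.fderiv, ContinuousLinearMap.neg_apply, ContinuousLinearMap.smul_apply,
      ContinuousLinearMap.sub_apply, cb_evs, cb_evs, smul_eq_mul]
  have hcnt : ∀ z : ℤ × ℤ, ∑ y : D, (if y.1 = z then (1 : ℝ) else 0) ≤ 1 := by
    intro z
    rw [Finset.sum_boole]
    have : (Finset.univ.filter (fun y : D => y.1 = z)).card ≤ 1 := by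
      rw [Finset.card_le_one]
      intro a ha c hc
      rw [Finset.mem_filter] at ha hc
      exact Subtype.ext (ha.2.trans hc.2.symm)
    exact_mod_cast this
  have h4 : gr (sl D b f) h ≤ ∑ y : D, ((if y.1 = f.1 then (1 : ℝ) else 0) +
      (if y.1 = f.1 + st f.2.1 then 1 else 0)) := by
    unfold gr
    refine Finset.sum_le_sum fun y _ => ?_
    rw [h1 y]
    rcases cb_sg f.2.2 with h2 | h2 <;> rw [h2] <;> split_ifs <;> norm_num
  rw [Finset.sum_add_distrib] at h4
  linarith [hcnt f.1, hcnt (f.1 + st f.2.1)]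

theorem sl_lip (D : Finset (ℤ × ℤ)) (b : ℤ × ℤ → ℝ) (f : (ℤ × ℤ) × Fin 6 × Bool) (h k : D → ℝ) :
    |sl D b f h - sl D b f k| ≤ 2 * ‖h - k‖ := by
  have h1 : ∀ z, |gl D b h z - gl D b k z| ≤ ‖h - k‖ := by
    intro z
    by_cases hz : z ∈ D
    · rw [gl_mem hz, gl_mem hz]
      have := norm_le_pi_norm (h - k) ⟨z, hz⟩
      rwa [Pi.sub_apply, Real.norm_eq_abs] at this
    · rw [gl_not_mem hz, gl_not_mem hz, sub_self, abs_zero]
      exact norm_nonneg _
  have h2 := abs_le.1 (h1 f.1)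
  have h3 := abs_le.1 (h1 (f.1 + st f.2.1))
  unfold sl
  rw [abs_le]
  rcases cb_sg f.2.2 with h4 | h4 <;> rw [h4] <;> constructor <;>
    linarith [h2.1, h2.2, h3.1, h3.2]

theorem mem_K_iff_sl {D : Finset (ℤ × ℤ)} {b : ℤ × ℤ → ℝ} {h : D → ℝ} :
    h ∈ K D b ↔ ∀ f ∈ Fa D, 0 ≤ sl D b f h := by
  constructor
  · exact fun hh f hf => (sl_nonneg hf hh).1
  · intro hh x hx i
    have h1 := hh (x, i, true) (by simp [Fa, hx])
    have h2 := hh (x, i, false) (by simp [Fa, hx])
    simp only [sl, sg, if_true, Bool.false_eq_true, if_false] at h1 h2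
    rw [abs_le]
    constructor <;> linarith

/-- `|H x - H y| ≥ 1 - ε` iff one of the two slacks is at most `ε` -/
theorem sl_abs {D : Finset (ℤ × ℤ)} {b : ℤ × ℤ → ℝ} {x : ℤ × ℤ} {i : Fin 6} {h : D → ℝ} {ε : ℝ} :
    1 - ε ≤ |gl D b h x - gl D b h (x + st i)| ↔
      sl D b (x, i, true) h ≤ ε ∨ sl D b (x, i, false) h ≤ ε := by
  simp only [sl, sg, if_true, Bool.false_eq_true, if_false]
  rw [le_abs]
  constructor
  · rintro (h1 | h1)
    · left; linarith
    · right; linarith
  · rintro (h1 | h1)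
    · left; linarith
    · right; linarith

/- END cb -/

/- MODULE cc
The section of `K` in the coordinate `x`: the constraints at `x`, and the other constraints do not
depend on `h x`. -/

private theorem cc_gl {D : Finset (ℤ × ℤ)} {b : ℤ × ℤ → ℝ} (x : D) (h : D → ℝ) (t : ℝ)
    (z : ℤ × ℤ) :
    gl D b (Function.update h x t) z = if z = x.1 then t else gl D b h z := by
  by_cases hz : z = x.1
  · subst hz
    rw [if_pos rfl, gl_mem x.2]
    exact Function.update_self _ _ _
  · rw [if_neg hz]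
    by_cases hD : z ∈ D
    · rw [gl_mem hD, gl_mem hD, Function.update_of_ne]
      exact fun e => hz (congrArg Subtype.val e)
    · rw [gl_not_mem hD, gl_not_mem hD]

private theorem cc_ne (x : ℤ × ℤ) (i : Fin 6) : x + st i ≠ x := by
  intro h
  exact st_ne i (add_eq_left.1 h)

theorem K_upd {D : Finset (ℤ × ℤ)} {b : ℤ × ℤ → ℝ} (x : D) (h : D → ℝ) :
    ∃ P : Prop, ∀ t : ℝ, Function.update h x t ∈ K D b ↔
      P ∧ ∀ i : Fin 6, |t - gl D b h (x.1 + st i)| ≤ 1 := by
  refine ⟨∀ y ∈ D, y ≠ x.1 → ∀ i : Fin 6, y + st i ≠ x.1 →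
    |gl D b h y - gl D b h (y + st i)| ≤ 1, fun t => ⟨fun hK => ⟨fun y hy hyx i hi => ?_,
      fun i => ?_⟩, ?_⟩⟩
  · have := hK y hy i
    rwa [cc_gl, cc_gl, if_neg hyx, if_neg hi] at this
  · have := hK x.1 x.2 i
    rwa [cc_gl, cc_gl, if_pos rfl, if_neg (cc_ne _ _)] at this
  · rintro ⟨hP, hx⟩ y hy i
    rw [cc_gl, cc_gl]
    by_cases hyx : y = x.1
    · rw [if_pos hyx, hyx, if_neg (cc_ne _ _)]
      exact hx i
    · rw [if_neg hyx]
      by_cases hi : y + st i = x.1
      · rw [if_pos hi]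
        have h1 := hx (i + 3)
        rw [st_neg, ← hi, add_neg_cancel_right] at h1
        rwa [abs_sub_comm]
      · rw [if_neg hi]
        exact hP y hy hyx i hi

theorem gl_upd {D : Finset (ℤ × ℤ)} {b : ℤ × ℤ → ℝ} (x : D) (h : D → ℝ) (t : ℝ) (z : ℤ × ℤ) :
    gl D b (Function.update h x t) z = if z = x.1 then t else gl D b h z :=
  cc_gl x h t z

/- END cc -/

/- MODULE cd
Volumes of the layers.  One facet: take a free end point `x` of `f`; for fixed other coordinates
the slack is `±(h x) + const`, so the section has length `≤ r`; the other coordinates are bounded by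
`|D| + 1` (`K_bdd`); use `Hmk.fib_le` with a product function or Tonelli
(`MeasureTheory.volume_preserving_piEquivPiSubtypeProd` for one coordinate, `lmarginal`).  Two
facets with `sp f ≠ sp f'`: after exchanging `f` and `f'` there is `x ∈ sp f`, `x ∉ sp f'`; the
slack of `f'` does not depend on `h x`, so first the section in `h x` gives `r`, then one facet. -/

private theorem cd_aff {D : Finset (ℤ × ℤ)} {b : ℤ × ℤ → ℝ} {f : (ℤ × ℤ) × Fin 6 × Bool} {z : D}
    (hz : z.1 ∈ sp D f) (h : D → ℝ) :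
    ∃ κ c : ℝ, (κ = 1 ∨ κ = -1) ∧ ∀ t, sl D b f (Function.update h z t) = c + κ * t := by
  have hsg : sg f.2.2 = 1 ∨ sg f.2.2 = -1 := by
    cases f.2.2 <;> simp [sg]
  have h1 : z.1 = f.1 ∨ z.1 = f.1 + st f.2.1 := by
    unfold sp at hz
    rw [Finset.mem_inter, Finset.mem_insert, Finset.mem_singleton] at hz
    exact hz.1
  have hne : f.1 + st f.2.1 ≠ f.1 := fun e => st_ne _ (add_eq_left.1 e)
  rcases h1 with h1 | h1
  · refine ⟨- sg f.2.2, 1 + sg f.2.2 * gl D b h (f.1 + st f.2.1), ?_, fun t => ?_⟩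
    · rcases hsg with h2 | h2 <;> rw [h2]
      · right; rfl
      · left; norm_num
    · unfold sl
      rw [gl_upd, gl_upd, if_pos h1.symm, if_neg (by rw [h1]; exact hne)]
      ring
  · refine ⟨sg f.2.2, 1 - sg f.2.2 * gl D b h f.1, hsg, fun t => ?_⟩
    unfold sl
    rw [gl_upd, gl_upd, if_pos h1.symm, if_neg (by rw [h1]; exact hne.symm)]
    ring

private theorem cd_ind {D : Finset (ℤ × ℤ)} {b : ℤ × ℤ → ℝ} {f : (ℤ × ℤ) × Fin 6 × Bool} {z : D}
    (hz : z.1 ∉ sp D f) (h : D → ℝ) (t : ℝ) : sl D b f (Function.update h z t) = sl D b f h := by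
  have h1 : z.1 ≠ f.1 ∧ z.1 ≠ f.1 + st f.2.1 := by
    unfold sp at hz
    rw [Finset.mem_inter, Finset.mem_insert, Finset.mem_singleton] at hz
    constructor
    · exact fun e => hz ⟨Or.inl e, z.2⟩
    · exact fun e => hz ⟨Or.inr e, z.2⟩
  unfold sl
  rw [gl_upd, gl_upd, if_neg h1.1.symm, if_neg h1.2.symm]

private theorem cd_slm {D : Finset (ℤ × ℤ)} {b : ℤ × ℤ → ℝ} (f : (ℤ × ℤ) × Fin 6 × Bool) (r : ℝ) :
    MeasurableSet {h : D → ℝ | 0 ≤ sl D b f h ∧ sl D b f h ≤ r} := by
  have h1 := (sl_smooth D b f).continuous.measurable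
  exact (measurableSet_le measurable_const h1).inter (measurableSet_le h1 measurable_const)

private theorem cd_step {D : Finset (ℤ × ℤ)} {b : ℤ × ℤ → ℝ} {f : (ℤ × ℤ) × Fin 6 × Bool} {z : D}
    (hz : z.1 ∈ sp D f) {S : Set (D → ℝ)} (hS : MeasurableSet S)
    (hind : ∀ h t, Function.update h z t ∈ S ↔ h ∈ S) {N r : ℝ} (hN : 1 ≤ N) (_hr : 0 < r) :
    volume (S ∩ Icc (fun _ => -N) (fun _ => N) ∩ {h | 0 ≤ sl D b f h ∧ sl D b f h ≤ r}) ≤
      ENNReal.ofReal r * volume (S ∩ Icc (fun _ => -N) (fun _ => N)) := by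
  have hB : MeasurableSet (S ∩ Icc (fun _ : D => -N) (fun _ => N)) := hS.inter measurableSet_Icc
  have hA := hB.inter (cd_slm (b := b) f r)
  set B : Set (D → ℝ) := S ∩ Icc (fun _ : D => -N) (fun _ => N) with hBd
  set A : Set (D → ℝ) := B ∩ {h | 0 ≤ sl D b f h ∧ sl D b f h ≤ r} with hAd
  have hint : ∫⁻ h, A.indicator (fun _ => (1 : ℝ≥0∞)) h ≤
      ∫⁻ h, B.indicator (fun _ => ENNReal.ofReal r) h := by
    refine fib_le z (measurable_const.indicator hA) (measurable_const.indicator hB) fun h => ?_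
    set T : Set ℝ := {t | Function.update h z t ∈ A} with hT
    set Q : Set ℝ := {t | Function.update h z t ∈ B} with hQ
    have hTm : MeasurableSet T := measurable_update h hA
    have hQm : MeasurableSet Q := measurable_update h hB
    have e1 : (fun t => A.indicator (fun _ => (1 : ℝ≥0∞)) (Function.update h z t)) =
        T.indicator (fun _ => 1) := by
      funext t
      by_cases ht : t ∈ T
      · rw [indicator_of_mem ht, indicator_of_mem (show Function.update h z t ∈ A from ht)]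
      · rw [indicator_of_notMem ht, indicator_of_notMem (show Function.update h z t ∉ A from ht)]
    have e2 : (fun t => B.indicator (fun _ => ENNReal.ofReal r) (Function.update h z t)) =
        Q.indicator (fun _ => ENNReal.ofReal r) := by
      funext t
      by_cases ht : t ∈ Q
      · rw [indicator_of_mem ht, indicator_of_mem (show Function.update h z t ∈ B from ht)]
      · rw [indicator_of_notMem ht, indicator_of_notMem (show Function.update h z t ∉ B from ht)]
    rw [e1, e2, lintegral_indicator hTm, lintegral_indicator hQm, setLIntegral_const,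
      setLIntegral_const, one_mul]
    rcases T.eq_empty_or_nonempty with hemp | ⟨t0, ht0⟩
    · rw [hemp]
      simp
    · have hTv : volume T ≤ ENNReal.ofReal r := by
        obtain ⟨κ, c, hκ, hc⟩ := cd_aff (b := b) hz h
        have hTs : ∀ t ∈ T, 0 ≤ c + κ * t ∧ c + κ * t ≤ r := by
          intro t ht
          have := ht.2
          rw [mem_setOf_eq, hc t] at this
          exact this
        rcases hκ with rfl | rfl
        · have h1 : T ⊆ Icc (-c) (r - c) := fun t ht => by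
            have := hTs t ht
            constructor <;> linarith [this.1, this.2]
          refine (measure_mono h1).trans ?_
          rw [Real.volume_Icc]
          exact ENNReal.ofReal_le_ofReal (by linarith)
        · have h1 : T ⊆ Icc (c - r) c := fun t ht => by
            have := hTs t ht
            constructor <;> linarith [this.1, this.2]
          refine (measure_mono h1).trans ?_
          rw [Real.volume_Icc]
          exact ENNReal.ofReal_le_ofReal (by linarith)
      have hQs : Icc (-N) N ⊆ Q := by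
        intro t ht
        have h1 : Function.update h z t0 ∈ B := ht0.1
        refine ⟨(hind h t).2 ((hind h t0).1 h1.1), ?_, ?_⟩
        · intro y
          by_cases hy : y = z
          · subst hy
            rw [Function.update_self]
            exact ht.1
          · rw [Function.update_of_ne hy]
            have := h1.2.1 y
            rwa [Function.update_of_ne hy] at this
        · intro y
          by_cases hy : y = z
          · subst hy
            rw [Function.update_self]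
            exact ht.2
          · rw [Function.update_of_ne hy]
            have := h1.2.2 y
            rwa [Function.update_of_ne hy] at this
      have hQv : 1 ≤ volume Q := by
        refine le_trans ?_ (measure_mono hQs)
        rw [Real.volume_Icc, ← ENNReal.ofReal_one]
        exact ENNReal.ofReal_le_ofReal (by linarith)
      calc volume T ≤ ENNReal.ofReal r * 1 := by rw [mul_one]; exact hTv
        _ ≤ ENNReal.ofReal r * volume Q := mul_le_mul_right hQv _
  rw [lintegral_indicator hA, lintegral_indicator hB, setLIntegral_const, setLIntegral_const,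
    one_mul] at hint
  exact hint

private theorem cd_two {D : Finset (ℤ × ℤ)} {b : ℤ × ℤ → ℝ} {f f' : (ℤ × ℤ) × Fin 6 × Bool}
    (hf' : f' ∈ Fa D) {z : ℤ × ℤ} (hz : z ∈ sp D f) (hz' : z ∉ sp D f') {N r : ℝ} (hN : 1 ≤ N)
    (hr : 0 < r) :
    volume ({h | 0 ≤ sl D b f' h ∧ sl D b f' h ≤ r} ∩ Icc (fun _ => -N) (fun _ => N) ∩
        {h | 0 ≤ sl D b f h ∧ sl D b f h ≤ r}) ≤
      ENNReal.ofReal r * (ENNReal.ofReal r * volume (Icc (fun _ : D => -N) (fun _ => N))) := by
  have hzD : z ∈ D := (Finset.mem_inter.1 hz).2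
  refine (cd_step (z := ⟨z, hzD⟩) hz (cd_slm f' r) (fun h t => ?_) hN hr).trans
    (mul_le_mul_right ?_ _)
  · simp only [mem_setOf_eq]
    rw [cd_ind (z := ⟨z, hzD⟩) hz' h t]
  · have hfD : f'.1 ∈ D := (Finset.mem_product.1 hf').1
    have h1 : (⟨f'.1, hfD⟩ : D).1 ∈ sp D f' := by
      unfold sp
      rw [Finset.mem_inter]
      exact ⟨Finset.mem_insert_self _ _, hfD⟩
    have h2 := cd_step (b := b) (z := ⟨f'.1, hfD⟩) h1 (S := univ) MeasurableSet.univ
      (fun h t => by simp) hN hr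
    rw [univ_inter] at h2
    rwa [inter_comm]

theorem layer_vol {D : Finset (ℤ × ℤ)} {b : ℤ × ℤ → ℝ} (hb : ∀ z, |b z| ≤ 1 / 2) :
    ∃ c : ℝ, 0 ≤ c ∧ ∀ r : ℝ, 0 < r → ∀ f ∈ Fa D,
      volume {h | h ∈ K D b ∧ sl D b f h ≤ r} ≤ ENNReal.ofReal (c * r) ∧
      ∀ f' ∈ Fa D, sp D f ≠ sp D f' →
        volume {h | h ∈ K D b ∧ sl D b f h ≤ r ∧ sl D b f' h ≤ r} ≤
          ENNReal.ofReal (c * r ^ 2) := by
  set N : ℝ := (D.card : ℝ) + 1 with hN
  have hN1 : 1 ≤ N := by
    rw [hN]
    have : (0 : ℝ) ≤ D.card := Nat.cast_nonneg _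
    linarith
  set B : Set (D → ℝ) := Icc (fun _ => -N) (fun _ => N) with hB
  have hBv : volume B = ENNReal.ofReal ((2 * N) ^ D.card) := by
    rw [hB, Real.volume_Icc_pi]
    simp only [Finset.prod_const, Finset.card_univ, Fintype.card_coe]
    rw [← ENNReal.ofReal_pow (by linarith)]
    congr 2
    ring
  have hKB : K D b ⊆ B := by
    intro h hh
    have h2 := fun x => abs_le.1 (K_bdd (B := 1 / 2) (by norm_num) (fun z _ _ => hb z) hh x)
    constructor
    · intro x
      have := (h2 x).1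
      simp only [hN]
      linarith
    · intro x
      have := (h2 x).2
      simp only [hN]
      linarith
  have hfree : ∀ f ∈ Fa D, ∃ z : D, z.1 ∈ sp D f := by
    intro f hf
    have hfD : f.1 ∈ D := (Finset.mem_product.1 hf).1
    refine ⟨⟨f.1, hfD⟩, ?_⟩
    unfold sp
    rw [Finset.mem_inter]
    exact ⟨Finset.mem_insert_self _ _, hfD⟩
  refine ⟨(2 * N) ^ D.card, by positivity, fun r hr f hf => ⟨?_, fun f' hf' hne => ?_⟩⟩
  · obtain ⟨z, hz⟩ := hfree f hf
    have h1 := cd_step (b := b) hz (S := univ) MeasurableSet.univ (fun h t => by simp) hN1 hr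
    rw [univ_inter, ← hB, hBv, ← ENNReal.ofReal_mul hr.le, mul_comm] at h1
    refine (measure_mono ?_).trans h1
    rintro h ⟨hh, hh2⟩
    exact ⟨hKB hh, (sl_nonneg hf hh).1, hh2⟩
  · have hval : ENNReal.ofReal r * (ENNReal.ofReal r * volume B) =
        ENNReal.ofReal ((2 * N) ^ D.card * r ^ 2) := by
      rw [hBv, ← ENNReal.ofReal_mul hr.le, ← ENNReal.ofReal_mul hr.le]
      congr 1
      ring
    rw [← hval]
    have hex : (∃ z, z ∈ sp D f ∧ z ∉ sp D f') ∨ (∃ z, z ∈ sp D f' ∧ z ∉ sp D f) := by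
      by_contra hcon
      push Not at hcon
      exact hne (Finset.Subset.antisymm (fun z hz => hcon.1 z hz) (fun z hz => hcon.2 z hz))
    rcases hex with ⟨z, hz, hz'⟩ | ⟨z, hz, hz'⟩
    · refine (measure_mono ?_).trans (cd_two (b := b) hf' hz hz' hN1 hr)
      rintro h ⟨hh, h1, h2⟩
      exact ⟨⟨⟨(sl_nonneg hf' hh).1, h2⟩, hKB hh⟩, (sl_nonneg hf hh).1, h1⟩
    · refine (measure_mono ?_).trans (cd_two (b := b) hf hz hz' hN1 hr)
      rintro h ⟨hh, h1, h2⟩
      exact ⟨⟨⟨(sl_nonneg hf hh).1, h1⟩, hKB hh⟩, (sl_nonneg hf' hh).1, h2⟩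

/- END cd -/

/- MODULE ce
One pair of facets.  With `θ` from `theta_exists`, `ρ = (sl f)^2 + (sl f')^2`, `r_j = 2^(-j) r_0`
(`j < J`) and `χ = (1 / J) ∑_j θ (ρ / r_j^2)`: `χ = 0` if `ρ ≤ r_{J-1}^2`; `χ = 1` unless
`ρ ≤ 2 r_0^2`; `|D (θ (ρ / r_j^2))| ≤ C / r_j` and it vanishes unless `sl f, sl f' ≤ 2 r_j`; so
`gr χ ≤ (1 / J^2) (∑_j C / r_j 1_j)^2 ≤ (4 C^2 / J^2) ∑_j r_j^(-2) 1_j` (for fixed `h` the terms
with `1_j ≠ 0` form an initial segment of the geometric sequence), and `∫_K ≤ C' / J` by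
`layer_vol`. -/

private theorem ce_der {θ : ℝ → ℝ} (h1 : ∀ r, r ≤ 1 → θ r = 0) (h2 : ∀ r, 2 ≤ r → θ r = 1)
    {r : ℝ} (h : r < 1 ∨ 2 < r) : deriv θ r = 0 := by
  rcases h with h | h
  · have : θ =ᶠ[𝓝 r] fun _ => (0 : ℝ) := by
      filter_upwards [Iio_mem_nhds h] with t ht
      exact h1 t (le_of_lt ht)
    rw [this.deriv_eq, deriv_const]
  · have : θ =ᶠ[𝓝 r] fun _ => (1 : ℝ) := by
      filter_upwards [Ioi_mem_nhds h] with t ht
      exact h2 t (le_of_lt ht)
    rw [this.deriv_eq, deriv_const]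

private theorem ce_pd {ι : Type*} [Fintype ι] [DecidableEq ι] {θ : ℝ → ℝ} (hθ : ContDiff ℝ ∞ θ)
    {ρ : (ι → ℝ) → ℝ} (hρ : ContDiff ℝ ∞ ρ) (J : ℕ) (a : ℕ → ℝ) (c : ℝ) (x : ι) (h : ι → ℝ) :
    pd x (fun k => c * ∑ j ∈ Finset.range J, θ (ρ k * a j)) h =
      c * (∑ j ∈ Finset.range J, deriv θ (ρ h * a j) * a j) * pd x ρ h := by
  have hd : HasFDerivAt ρ (fderiv ℝ ρ h) h := (hρ.differentiable (by simp) h).hasFDerivAt
  have h4 : ∀ j ∈ Finset.range J, HasFDerivAt (fun k => θ (ρ k * a j))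
      (deriv θ (ρ h * a j) • (a j • fderiv ℝ ρ h)) h := by
    intro j _
    have h2 : HasFDerivAt (fun k => ρ k * a j) (a j • fderiv ℝ ρ h) h := hd.mul_const (a j)
    have h3 : HasDerivAt θ (deriv θ (ρ h * a j)) (ρ h * a j) :=
      (hθ.differentiable (by simp) _).hasDerivAt
    exact h3.comp_hasFDerivAt h h2
  have h5 := (HasFDerivAt.fun_sum h4).const_mul c
  unfold pd
  rw [h5.fderiv]
  simp only [smul_apply, _root_.sum_apply, smul_eq_mul]
  rw [mul_assoc, Finset.sum_mul]
  congr 1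
  refine Finset.sum_congr rfl fun j _ => ?_
  ring

private theorem ce_rho {ι : Type*} [Fintype ι] [DecidableEq ι] {u v : (ι → ℝ) → ℝ}
    (hu : ContDiff ℝ ∞ u) (hv : ContDiff ℝ ∞ v) (gu : ∀ h, gr u h ≤ 2) (gv : ∀ h, gr v h ≤ 2)
    (h : ι → ℝ) : gr (fun k => u k ^ 2 + v k ^ 2) h ≤ 16 * (u h ^ 2 + v h ^ 2) := by
  have hdu : HasFDerivAt u (fderiv ℝ u h) h := (hu.differentiable (by simp) h).hasFDerivAt
  have hdv : HasFDerivAt v (fderiv ℝ v h) h := (hv.differentiable (by simp) h).hasFDerivAt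
  have e : ∀ x : ι, pd x (fun k => u k ^ 2 + v k ^ 2) h =
      2 * u h * pd x u h + 2 * v h * pd x v h := by
    intro x
    have h1 := (hdu.mul hdu).add (hdv.mul hdv)
    have h2 : (fun k => u k ^ 2 + v k ^ 2) = (u * u + v * v) := by
      funext k
      simp only [Pi.add_apply, Pi.mul_apply]
      ring
    unfold pd
    rw [h2, h1.fderiv]
    simp only [_root_.add_apply, smul_apply, smul_eq_mul]
    ring
  unfold gr
  have h3 : ∀ x : ι, (pd x (fun k => u k ^ 2 + v k ^ 2) h) ^ 2 ≤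
      8 * u h ^ 2 * (pd x u h) ^ 2 + 8 * v h ^ 2 * (pd x v h) ^ 2 := by
    intro x
    rw [e]
    nlinarith [sq_nonneg (2 * u h * pd x u h - 2 * v h * pd x v h)]
  refine (Finset.sum_le_sum fun x _ => h3 x).trans ?_
  rw [Finset.sum_add_distrib, ← Finset.mul_sum, ← Finset.mul_sum]
  have h4 := gu h
  have h5 := gv h
  unfold gr at h4 h5
  have h6 := mul_le_mul_of_nonneg_left h4 (show (0 : ℝ) ≤ 8 * u h ^ 2 by positivity)
  have h7 := mul_le_mul_of_nonneg_left h5 (show (0 : ℝ) ≤ 8 * v h ^ 2 by positivity)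
  linarith

private theorem ce_real {J : ℕ} {a : ℕ → ℝ} (ha : ∀ j, 0 < a j) (h4 : ∀ j, a (j + 1) = 4 * a j)
    {t C : ℝ} (ht : 0 ≤ t) {d : ℕ → ℝ} (hd : ∀ j, |d j| ≤ C)
    (h0 : ∀ j, (t * a j < 1 ∨ 2 < t * a j) → d j = 0) :
    (∑ j ∈ Finset.range J, d j * a j) ^ 2 * (16 * t) ≤
      ∑ j ∈ Finset.range J, if t * a j ≤ 2 then 32 * C ^ 2 * a j else 0 := by
  have hmul : ∀ i j, i < j → d i * d j = 0 := by
    intro i j hij
    have hge : 4 * a i ≤ a j := by
      obtain ⟨k, rfl⟩ := Nat.exists_eq_add_of_lt hij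
      have : ∀ k : ℕ, 4 * a i ≤ a (i + k + 1) := by
        intro k
        induction k with
        | zero => rw [add_zero, h4]
        | succ k ih =>
          have h5 := h4 (i + k + 1)
          have h6 := ha (i + k + 1)
          have h7 : i + (k + 1) + 1 = i + k + 1 + 1 := by ring
          rw [h7, h5]
          linarith
      exact this k
    by_cases h5 : t * a i < 1
    · rw [h0 i (Or.inl h5), zero_mul]
    · have h6 : 2 < t * a j := by
        have := mul_le_mul_of_nonneg_left hge ht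
        linarith
      rw [h0 j (Or.inr h6), mul_zero]
  have hsq : (∑ j ∈ Finset.range J, d j * a j) ^ 2 = ∑ j ∈ Finset.range J, (d j * a j) ^ 2 := by
    rw [sq, Finset.sum_mul_sum]
    refine Finset.sum_congr rfl fun i hi => ?_
    rw [Finset.sum_eq_single i]
    · ring
    · intro j _ hji
      rcases lt_or_gt_of_ne hji with h | h
      · have := hmul j i h
        calc d i * a i * (d j * a j) = (d j * d i) * (a i * a j) := by ring
          _ = 0 := by rw [this, zero_mul]
      · have := hmul i j h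
        calc d i * a i * (d j * a j) = (d i * d j) * (a i * a j) := by ring
          _ = 0 := by rw [this, zero_mul]
    · intro h
      exact absurd hi h
  rw [hsq, Finset.sum_mul]
  refine Finset.sum_le_sum fun j _ => ?_
  by_cases h5 : t * a j ≤ 2
  · rw [if_pos h5]
    have h6 : d j ^ 2 ≤ C ^ 2 := sq_le_sq' (by linarith [(abs_le.1 (hd j)).1]) (abs_le.1 (hd j)).2
    have h7 : (d j * a j) ^ 2 * (16 * t) = 16 * (d j ^ 2 * (a j * (t * a j))) := by ring
    rw [h7]
    have h8 : a j * (t * a j) ≤ a j * 2 := mul_le_mul_of_nonneg_left h5 (ha j).le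
    have h9 : 0 ≤ a j * (t * a j) := mul_nonneg (ha j).le (mul_nonneg ht (ha j).le)
    have h10 : d j ^ 2 * (a j * (t * a j)) ≤ C ^ 2 * (a j * 2) :=
      mul_le_mul h6 h8 h9 (sq_nonneg _)
    linarith
  · rw [if_neg h5, h0 j (Or.inr (not_le.1 h5))]
    simp

theorem pair_cut {D : Finset (ℤ × ℤ)} {b : ℤ × ℤ → ℝ} (hb : ∀ z, |b z| ≤ 1 / 2)
    {f f' : (ℤ × ℤ) × Fin 6 × Bool} (hf : f ∈ Fa D) (hf' : f' ∈ Fa D) (hne : sp D f ≠ sp D f')
    {η : ℝ} (hη : 0 < η) :
    ∃ (χ : (D → ℝ) → ℝ) (r : ℝ), 0 < r ∧ ContDiff ℝ ∞ χ ∧ (∀ h, 0 ≤ χ h ∧ χ h ≤ 1) ∧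
      ∫⁻ h in K D b, ENNReal.ofReal (gr χ h) ≤ ENNReal.ofReal η ∧
      volume {h | h ∈ K D b ∧ χ h ≠ 1} ≤ ENNReal.ofReal η ∧
      ∀ h ∈ K D b, sl D b f h ≤ r → sl D b f' h ≤ r → χ h = 0 := by
  obtain ⟨c, hc0, hc⟩ := layer_vol (D := D) hb
  obtain ⟨θ, C, hC0, hθs, hθ0, hθ1, hθb, hθd⟩ := theta_exists
  -- the parameters
  obtain ⟨J, hJ⟩ := exists_nat_gt (128 * C ^ 2 * c / η)
  have hJ0 : 0 < J := by
    rcases Nat.eq_zero_or_pos J with h | h
    · exfalso
      rw [h, Nat.cast_zero] at hJ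
      have : 0 ≤ 128 * C ^ 2 * c / η := by positivity
      linarith
    · exact h
  have hJR : (0 : ℝ) < J := by exact_mod_cast hJ0
  set r0 : ℝ := min 1 (η / (4 * c + 1)) with hr0
  have hr0p : 0 < r0 := lt_min one_pos (by positivity)
  have hr01 : r0 ≤ 1 := min_le_left _ _
  have hr02 : c * (2 * r0) ^ 2 ≤ η := by
    have h1 : r0 * (4 * c + 1) ≤ η := by
      have : r0 ≤ η / (4 * c + 1) := min_le_right _ _
      rwa [le_div_iff₀ (by positivity)] at this
    have h2 : r0 ^ 2 ≤ r0 := by nlinarith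
    have h3 := mul_le_mul_of_nonneg_left h2 hc0
    nlinarith
  set rj : ℕ → ℝ := fun j => r0 / 2 ^ j with hrj
  have hrjp : ∀ j, 0 < rj j := fun j => by positivity
  set a : ℕ → ℝ := fun j => 1 / rj j ^ 2 with ha
  have hap : ∀ j, 0 < a j := fun j => by
    have := hrjp j
    simp only [ha]
    positivity
  have ha4 : ∀ j, a (j + 1) = 4 * a j := by
    intro j
    simp only [ha, hrj]
    have : r0 ≠ 0 := hr0p.ne'
    field_simp
    ring
  set ρ : (D → ℝ) → ℝ := fun h => sl D b f h ^ 2 + sl D b f' h ^ 2 with hρ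
  have hρs : ContDiff ℝ ∞ ρ := ((sl_smooth D b f).pow 2).add ((sl_smooth D b f').pow 2)
  have hρ0 : ∀ h, 0 ≤ ρ h := fun h => by simp only [hρ]; positivity
  set χ : (D → ℝ) → ℝ := fun h => (1 / J : ℝ) * ∑ j ∈ Finset.range J, θ (ρ h * a j) with hχ
  have hgrχ : ∀ h, gr χ h ≤ ∑ j ∈ Finset.range J,
      if ρ h * a j ≤ 2 then (1 / J : ℝ) ^ 2 * (32 * C ^ 2 * a j) else 0 := by
    intro h
    have e1 : gr χ h = (1 / J : ℝ) ^ 2 *
        ((∑ j ∈ Finset.range J, deriv θ (ρ h * a j) * a j) ^ 2 * gr ρ h) := by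
      unfold gr
      rw [Finset.mul_sum, Finset.mul_sum]
      refine Finset.sum_congr rfl fun x _ => ?_
      rw [hχ, ce_pd hθs hρs J a (1 / J : ℝ) x h]
      ring
    have e2 : gr ρ h ≤ 16 * ρ h :=
      ce_rho (sl_smooth D b f) (sl_smooth D b f') (sl_gr D b f) (sl_gr D b f') h
    have e3 := ce_real (J := J) hap ha4 (hρ0 h) (d := fun j => deriv θ (ρ h * a j))
      (fun j => hθd _) (fun j hj => ce_der hθ0 hθ1 hj)
    rw [e1]
    calc (1 / J : ℝ) ^ 2 * ((∑ j ∈ Finset.range J, deriv θ (ρ h * a j) * a j) ^ 2 * gr ρ h)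
        ≤ (1 / J : ℝ) ^ 2 *
          ((∑ j ∈ Finset.range J, deriv θ (ρ h * a j) * a j) ^ 2 * (16 * ρ h)) := by
          gcongr
      _ ≤ (1 / J : ℝ) ^ 2 *
          ∑ j ∈ Finset.range J, (if ρ h * a j ≤ 2 then 32 * C ^ 2 * a j else 0) := by
          gcongr
      _ = _ := by
          rw [Finset.mul_sum]
          refine Finset.sum_congr rfl fun j _ => ?_
          split_ifs <;> ring
  have hslT : ∀ (j : ℕ) (h : D → ℝ), ρ h * a j ≤ 2 → sl D b f h ≤ 2 * rj j ∧
      sl D b f' h ≤ 2 * rj j := by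
    intro j h hh
    have h1 : ρ h ≤ 2 * rj j ^ 2 := by
      have h2 : ρ h * a j = ρ h / rj j ^ 2 := by simp only [ha]; ring
      rw [h2, div_le_iff₀ (pow_pos (hrjp j) 2)] at hh
      exact hh
    have h3 := hrjp j
    have h5 : sl D b f h ^ 2 + sl D b f' h ^ 2 ≤ 2 * rj j ^ 2 := h1
    constructor
    · refine abs_le_of_sq_le_sq' ?_ (by positivity) |>.2
      nlinarith [sq_nonneg (sl D b f' h), sq_nonneg (rj j)]
    · refine abs_le_of_sq_le_sq' ?_ (by positivity) |>.2
      nlinarith [sq_nonneg (sl D b f h), sq_nonneg (rj j)]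
  set T : ℕ → Set (D → ℝ) := fun j => {h | h ∈ K D b ∧ sl D b f h ≤ 2 * rj j ∧
    sl D b f' h ≤ 2 * rj j} with hT
  have hTm : ∀ j, MeasurableSet (T j) := by
    intro j
    exact (K_meas D b).inter ((measurableSet_le (sl_smooth D b f).continuous.measurable
      measurable_const).inter (measurableSet_le (sl_smooth D b f').continuous.measurable
      measurable_const))
  have hTv : ∀ j, volume (T j) ≤ ENNReal.ofReal (c * (2 * rj j) ^ 2) := fun j =>
    (hc (2 * rj j) (by have := hrjp j; positivity) f hf).2 f' hf' hne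
  refine ⟨χ, r0 / 2 ^ J, by positivity, ?_, ?_, ?_, ?_, ?_⟩
  · refine contDiff_const.mul (ContDiff.sum fun j _ => ?_)
    exact hθs.comp (hρs.mul contDiff_const)
  · intro h
    have h1 : 0 ≤ ∑ j ∈ Finset.range J, θ (ρ h * a j) := Finset.sum_nonneg fun j _ => (hθb _).1
    have h2 : ∑ j ∈ Finset.range J, θ (ρ h * a j) ≤ J := by
      calc ∑ j ∈ Finset.range J, θ (ρ h * a j) ≤ ∑ j ∈ Finset.range J, (1 : ℝ) :=
            Finset.sum_le_sum fun j _ => (hθb _).2
        _ = J := by simp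
    constructor
    · simp only [hχ]; positivity
    · simp only [hχ]
      rw [one_div, inv_mul_le_iff₀ hJR, mul_one]
      exact h2
  · calc ∫⁻ h in K D b, ENNReal.ofReal (gr χ h)
        ≤ ∫⁻ h in K D b, ∑ j ∈ Finset.range J, (T j).indicator
          (fun _ => ENNReal.ofReal ((1 / J : ℝ) ^ 2 * (32 * C ^ 2 * a j))) h := by
          refine setLIntegral_mono' (K_meas D b) fun h hh => ?_
          refine (ENNReal.ofReal_le_ofReal (hgrχ h)).trans ?_
          rw [ENNReal.ofReal_sum_of_nonneg]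
          · refine Finset.sum_le_sum fun j _ => ?_
            by_cases h5 : ρ h * a j ≤ 2
            · have h6 : h ∈ T j := ⟨hh, hslT j h h5⟩
              rw [if_pos h5, Set.indicator_of_mem h6]
            · rw [if_neg h5, ENNReal.ofReal_zero]
              exact zero_le
          · intro j _
            have := hap j
            split_ifs <;> positivity
      _ ≤ ∫⁻ h, ∑ j ∈ Finset.range J, (T j).indicator
          (fun _ => ENNReal.ofReal ((1 / J : ℝ) ^ 2 * (32 * C ^ 2 * a j))) h :=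
          setLIntegral_le_lintegral _ _
      _ = ∑ j ∈ Finset.range J, ENNReal.ofReal ((1 / J : ℝ) ^ 2 * (32 * C ^ 2 * a j)) *
            volume (T j) := by
          rw [lintegral_finsetSum _ fun j _ => measurable_const.indicator (hTm j)]
          refine Finset.sum_congr rfl fun j _ => ?_
          rw [lintegral_indicator_const (hTm j)]
      _ ≤ ∑ j ∈ Finset.range J, ENNReal.ofReal ((1 / J : ℝ) ^ 2 * (128 * C ^ 2 * c)) := by
          refine Finset.sum_le_sum fun j _ => ?_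
          have h1 := hap j
          have h2 := hrjp j
          refine (mul_le_mul' le_rfl (hTv j)).trans ?_
          rw [← ENNReal.ofReal_mul (by positivity)]
          refine ENNReal.ofReal_le_ofReal (le_of_eq ?_)
          simp only [ha]
          field_simp
          ring
      _ = ENNReal.ofReal (J * ((1 / J : ℝ) ^ 2 * (128 * C ^ 2 * c))) := by
          rw [Finset.sum_const, Finset.card_range, nsmul_eq_mul, ENNReal.ofReal_mul hJR.le,
            ENNReal.ofReal_natCast]
      _ ≤ ENNReal.ofReal η := by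
          refine ENNReal.ofReal_le_ofReal ?_
          have h1 : (J : ℝ) * ((1 / J : ℝ) ^ 2 * (128 * C ^ 2 * c)) = 128 * C ^ 2 * c / J := by
            field_simp
          rw [h1, div_le_iff₀ hJR]
          rw [div_lt_iff₀ hη] at hJ
          linarith
  · refine (measure_mono ?_).trans ((hc (2 * r0) (by positivity) f hf).2 f' hf' hne |>.trans
      (ENNReal.ofReal_le_ofReal hr02))
    rintro h ⟨hh, hχh⟩
    refine ⟨hh, ?_⟩
    by_contra hcon
    apply hχh
    have h1 : ∀ j ∈ Finset.range J, θ (ρ h * a j) = 1 := by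
      intro j _
      apply hθ1
      by_contra h2
      apply hcon
      have h3 := hslT j h (not_le.1 h2).le
      have h4 : rj j ≤ r0 := by
        simp only [hrj]
        exact div_le_self hr0p.le (one_le_pow₀ (by norm_num))
      exact ⟨h3.1.trans (by linarith), h3.2.trans (by linarith)⟩
    simp only [hχ]
    rw [Finset.sum_congr rfl h1]
    simp only [Finset.sum_const, Finset.card_range, nsmul_eq_mul, mul_one]
    field_simp
  · intro h hh h1 h2
    simp only [hχ]
    rw [Finset.sum_eq_zero, mul_zero]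
    intro j hj
    apply hθ0
    have h3 : r0 / 2 ^ J ≤ rj j / 2 := by
      simp only [hrj]
      rw [div_div, ← pow_succ]
      exact div_le_div_of_nonneg_left hr0p.le (by positivity)
        (pow_le_pow_right₀ (by norm_num) (Finset.mem_range.1 hj))
    have h4 := (sl_nonneg hf hh).1
    have h5 := (sl_nonneg hf' hh).1
    have h6 := hrjp j
    have h7 : sl D b f h ^ 2 ≤ (rj j / 2) ^ 2 := pow_le_pow_left₀ h4 (h1.trans h3) 2
    have h8 : sl D b f' h ^ 2 ≤ (rj j / 2) ^ 2 := pow_le_pow_left₀ h5 (h2.trans h3) 2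
    have h9 : ρ h * a j = ρ h / rj j ^ 2 := by simp only [ha]; ring
    rw [h9, div_le_one (by positivity)]
    simp only [hρ]
    nlinarith [sq_nonneg (rj j)]

/- END ce -/

/- MODULE cf
Product of the cut-offs of all pairs (`gr (∏ χ_p) ≤ N ∑ gr χ_p` for `N` factors with values in
`[0, 1]`). -/

private theorem cf_mul {D : Finset (ℤ × ℤ)} {f g : (D → ℝ) → ℝ} (hf : ContDiff ℝ ∞ f)
    (hg : ContDiff ℝ ∞ g) (hf1 : ∀ h, 0 ≤ f h ∧ f h ≤ 1) (hg1 : ∀ h, 0 ≤ g h ∧ g h ≤ 1)
    (h : D → ℝ) : gr (fun k => f k * g k) h ≤ 2 * gr f h + 2 * gr g h := by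
  unfold gr
  rw [Finset.mul_sum, Finset.mul_sum, ← Finset.sum_add_distrib]
  refine Finset.sum_le_sum fun x _ => ?_
  rw [pd_mul (hf.differentiable (by simp) h) (hg.differentiable (by simp) h)]
  have h1 := hf1 h
  have h2 := hg1 h
  generalize pd x f h = p
  generalize pd x g h = q
  have h3 : (p * g h + f h * q) ^ 2 ≤ 2 * (p * g h) ^ 2 + 2 * (f h * q) ^ 2 := by
    nlinarith [sq_nonneg (p * g h - f h * q)]
  have h4 : (p * g h) ^ 2 ≤ p ^ 2 := by
    rw [mul_pow]
    have : g h ^ 2 ≤ 1 := by nlinarith [h2.1, h2.2]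
    nlinarith [sq_nonneg p]
  have h5 : (f h * q) ^ 2 ≤ q ^ 2 := by
    rw [mul_pow]
    have : f h ^ 2 ≤ 1 := by nlinarith [h1.1, h1.2]
    nlinarith [sq_nonneg q]
  linarith

private theorem cf_grm {D : Finset (ℤ × ℤ)} {f : (D → ℝ) → ℝ} (hf : ContDiff ℝ ∞ f) :
    Measurable fun h => ENNReal.ofReal (gr f h) := by
  refine Measurable.ennreal_ofReal ?_
  unfold gr
  refine Finset.measurable_sum _ fun x _ => ?_
  have h1 : Continuous (fderiv ℝ f) := hf.continuous_fderiv (by simp)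
  have h2 : Continuous (fun h => pd x f h) := h1.clm_apply continuous_const
  exact (h2.pow 2).measurable

theorem codim_cut {D : Finset (ℤ × ℤ)} {b : ℤ × ℤ → ℝ} (hb : ∀ z, |b z| ≤ 1 / 2) {η : ℝ}
    (hη : 0 < η) :
    ∃ (χ : (D → ℝ) → ℝ) (r : ℝ), 0 < r ∧ ContDiff ℝ ∞ χ ∧ (∀ h, 0 ≤ χ h ∧ χ h ≤ 1) ∧
      ∫⁻ h in K D b, ENNReal.ofReal (gr χ h) ≤ ENNReal.ofReal η ∧
      volume {h | h ∈ K D b ∧ χ h ≠ 1} ≤ ENNReal.ofReal η ∧
      ∀ h ∈ K D b, ∀ f ∈ Fa D, ∀ f' ∈ Fa D, sp D f ≠ sp D f' → sl D b f h ≤ r →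
        sl D b f' h ≤ r → χ h = 0 := by
  classical
  have main : ∀ S : Finset (((ℤ × ℤ) × Fin 6 × Bool) × ((ℤ × ℤ) × Fin 6 × Bool)),
      (∀ p ∈ S, p.1 ∈ Fa D ∧ p.2 ∈ Fa D ∧ sp D p.1 ≠ sp D p.2) → ∀ η : ℝ, 0 < η →
      ∃ (χ : (D → ℝ) → ℝ) (r : ℝ), 0 < r ∧ ContDiff ℝ ∞ χ ∧ (∀ h, 0 ≤ χ h ∧ χ h ≤ 1) ∧
      ∫⁻ h in K D b, ENNReal.ofReal (gr χ h) ≤ ENNReal.ofReal η ∧
      volume {h | h ∈ K D b ∧ χ h ≠ 1} ≤ ENNReal.ofReal η ∧
      ∀ h ∈ K D b, ∀ p ∈ S, sl D b p.1 h ≤ r → sl D b p.2 h ≤ r → χ h = 0 := by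
    intro S
    induction S using Finset.induction_on with
    | empty =>
      intro _ η hη
      refine ⟨fun _ => 1, 1, one_pos, contDiff_const, fun _ => ⟨zero_le_one, le_rfl⟩, ?_, ?_, ?_⟩
      · have : ∀ h : D → ℝ, gr (fun _ : D → ℝ => (1 : ℝ)) h = 0 := by
          intro h
          simp [gr, pd]
        simp only [this, ENNReal.ofReal_zero, lintegral_zero]
        exact zero_le
      · have : {h : D → ℝ | h ∈ K D b ∧ (1 : ℝ) ≠ 1} = ∅ := by
          ext h
          simp
        rw [this, measure_empty]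
        exact zero_le
      · intro h _ p hp
        simp at hp
    | insert p S hpS ih =>
      intro hS η hη
      obtain ⟨χ₁, r₁, hr₁, hs₁, hb₁, hi₁, hv₁, hz₁⟩ :=
        ih (fun q hq => hS q (Finset.mem_insert_of_mem hq)) (η / 4) (by positivity)
      obtain ⟨hp1, hp2, hp3⟩ := hS p (Finset.mem_insert_self _ _)
      obtain ⟨χ₂, r₂, hr₂, hs₂, hb₂, hi₂, hv₂, hz₂⟩ :=
        pair_cut hb hp1 hp2 hp3 (η := η / 4) (by positivity)
      refine ⟨fun h => χ₁ h * χ₂ h, min r₁ r₂, lt_min hr₁ hr₂, hs₁.mul hs₂, fun h =>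
        ⟨mul_nonneg (hb₁ h).1 (hb₂ h).1, mul_le_one₀ (hb₁ h).2 (hb₂ h).1 (hb₂ h).2⟩, ?_, ?_, ?_⟩
      · calc ∫⁻ h in K D b, ENNReal.ofReal (gr (fun k => χ₁ k * χ₂ k) h)
            ≤ ∫⁻ h in K D b, (2 * ENNReal.ofReal (gr χ₁ h) + 2 * ENNReal.ofReal (gr χ₂ h)) := by
              refine lintegral_mono fun h => ?_
              have h0 : ∀ χ : (D → ℝ) → ℝ, 0 ≤ gr χ h := fun χ =>
                Finset.sum_nonneg fun x _ => sq_nonneg _
              calc ENNReal.ofReal (gr (fun k => χ₁ k * χ₂ k) h)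
                  ≤ ENNReal.ofReal (2 * gr χ₁ h + 2 * gr χ₂ h) :=
                    ENNReal.ofReal_le_ofReal (cf_mul hs₁ hs₂ hb₁ hb₂ h)
                _ = 2 * ENNReal.ofReal (gr χ₁ h) + 2 * ENNReal.ofReal (gr χ₂ h) := by
                    rw [ENNReal.ofReal_add (mul_nonneg two_pos.le (h0 _))
                      (mul_nonneg two_pos.le (h0 _)), ENNReal.ofReal_mul (by norm_num),
                      ENNReal.ofReal_mul (by norm_num), ENNReal.ofReal_ofNat]
          _ = 2 * (∫⁻ h in K D b, ENNReal.ofReal (gr χ₁ h)) +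
                2 * ∫⁻ h in K D b, ENNReal.ofReal (gr χ₂ h) := by
              rw [lintegral_add_left ((cf_grm hs₁).const_mul _), lintegral_const_mul _ (cf_grm hs₁),
                lintegral_const_mul _ (cf_grm hs₂)]
          _ ≤ 2 * ENNReal.ofReal (η / 4) + 2 * ENNReal.ofReal (η / 4) := by gcongr
          _ = ENNReal.ofReal η := by
              rw [← ENNReal.ofReal_ofNat, ← ENNReal.ofReal_mul (by norm_num),
                ← ENNReal.ofReal_add (by positivity) (by positivity)]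
              congr 1
              ring
      · have hsub : {h | h ∈ K D b ∧ χ₁ h * χ₂ h ≠ 1} ⊆
            {h | h ∈ K D b ∧ χ₁ h ≠ 1} ∪ {h | h ∈ K D b ∧ χ₂ h ≠ 1} := by
          rintro h ⟨hh, h1⟩
          by_cases h2 : χ₁ h = 1
          · right
            refine ⟨hh, fun h3 => h1 ?_⟩
            rw [h2, h3, one_mul]
          · left
            exact ⟨hh, h2⟩
        calc volume {h | h ∈ K D b ∧ χ₁ h * χ₂ h ≠ 1}
            ≤ volume {h | h ∈ K D b ∧ χ₁ h ≠ 1} + volume {h | h ∈ K D b ∧ χ₂ h ≠ 1} :=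
              (measure_mono hsub).trans (measure_union_le _ _)
          _ ≤ ENNReal.ofReal (η / 4) + ENNReal.ofReal (η / 4) := add_le_add hv₁ hv₂
          _ ≤ ENNReal.ofReal η := by
              rw [← ENNReal.ofReal_add (by positivity) (by positivity)]
              exact ENNReal.ofReal_le_ofReal (by linarith)
      · intro h hh q hq h1 h2
        rcases Finset.mem_insert.1 hq with rfl | hq
        · show χ₁ h * χ₂ h = 0
          rw [hz₂ h hh (h1.trans (min_le_right _ _)) (h2.trans (min_le_right _ _)), mul_zero]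
        · show χ₁ h * χ₂ h = 0
          rw [hz₁ h hh q hq (h1.trans (min_le_left _ _)) (h2.trans (min_le_left _ _)), zero_mul]
  obtain ⟨χ, r, hr, hs, hbd, hi, hv, hz⟩ := main ((Fa D ×ˢ Fa D).filter
    (fun p => sp D p.1 ≠ sp D p.2)) (fun p hp => by
      rw [Finset.mem_filter, Finset.mem_product] at hp
      exact ⟨hp.1.1, hp.1.2, hp.2⟩) η hη
  refine ⟨χ, r, hr, hs, hbd, hi, hv, fun h hh f hf f' hf' hne h1 h2 => ?_⟩
  refine hz h hh (f, f') ?_ h1 h2
  rw [Finset.mem_filter, Finset.mem_product]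
  exact ⟨⟨hf, hf'⟩, hne⟩

/- END cf -/

/- MODULE cg
One variable.  `G` is `C^1` on `[α, β]`, `t` in `[α, β]` with `β - t ≤ 2 δ`, and either `G β = 0`,
or `β - α < ε` and `G α = 0` (then `|t - α| ≤ ε`), or `α ≤ β - ε` (then average over
`τ ∈ [β - ε, β]`: `|t - τ| ≤ 2 δ + ε ≤ 4 δ`): `G(t)^2 ≤ 2 G(τ)^2 + 2 |t - τ| ∫ G'^2`. -/

/- MODULE cg -/

private theorem cg_cs {f : ℝ → ℝ} (hf : Continuous f) {a b : ℝ} (hab : a ≤ b) :
    (∫ u in a..b, f u) ^ 2 ≤ (b - a) * ∫ u in a..b, (f u) ^ 2 := by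
  rcases hab.eq_or_lt with h | h
  · subst h
    simp
  · set m : ℝ := (∫ u in a..b, f u) / (b - a) with hm
    have hpos : 0 < b - a := by linarith
    have h1 : 0 ≤ ∫ u in a..b, (f u - m) ^ 2 :=
      intervalIntegral.integral_nonneg hab fun u _ => sq_nonneg _
    have h2 : ∫ u in a..b, (f u - m) ^ 2 =
        (∫ u in a..b, (f u) ^ 2) - 2 * m * (∫ u in a..b, f u) + m ^ 2 * (b - a) := by
      have e : ∀ u, (f u - m) ^ 2 = (f u) ^ 2 - 2 * m * f u + m ^ 2 := fun u => by ring
      simp only [e]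
      rw [intervalIntegral.integral_add, intervalIntegral.integral_sub,
        intervalIntegral.integral_const_mul, intervalIntegral.integral_const, smul_eq_mul]
      · ring
      · exact (hf.pow 2).intervalIntegrable _ _
      · exact (hf.const_mul _).intervalIntegrable _ _
      · exact ((hf.pow 2).sub (hf.const_mul _)).intervalIntegrable _ _
      · exact continuous_const.intervalIntegrable _ _
    rw [h2] at h1
    have h3 : (∫ u in a..b, f u) = m * (b - a) := by
      rw [hm]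
      field_simp
    rw [h3] at h1 ⊢
    nlinarith

private theorem cg_lin {G : ℝ → ℝ} (hG : ContDiff ℝ 1 G) {a b : ℝ} (hab : a ≤ b) :
    ENNReal.ofReal ((G b - G a) ^ 2) ≤
      ENNReal.ofReal (b - a) * ∫⁻ u in Icc a b, ENNReal.ofReal ((deriv G u) ^ 2) := by
  have hc : Continuous (deriv G) := hG.continuous_deriv le_rfl
  have hd : Differentiable ℝ G := hG.differentiable (by simp)
  have h1 : G b - G a = ∫ u in a..b, deriv G u :=
    (intervalIntegral.integral_deriv_eq_sub (fun u _ => hd u)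
      (hc.intervalIntegrable _ _)).symm
  have h2 : ENNReal.ofReal (∫ u in a..b, (deriv G u) ^ 2) =
      ∫⁻ u in Icc a b, ENNReal.ofReal ((deriv G u) ^ 2) := by
    rw [intervalIntegral.integral_of_le hab, ← integral_Icc_eq_integral_Ioc,
      ofReal_integral_eq_lintegral_ofReal]
    · exact (hc.pow 2).continuousOn.integrableOn_compact isCompact_Icc
    · exact Filter.Eventually.of_forall fun u => sq_nonneg _
  rw [← h2, ← ENNReal.ofReal_mul (by linarith), h1]
  exact ENNReal.ofReal_le_ofReal (cg_cs hc hab)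

private theorem cg_any {G : ℝ → ℝ} (hG : ContDiff ℝ 1 G) {α β a b L : ℝ} (ha : a ∈ Icc α β)
    (hb : b ∈ Icc α β) (hL : |a - b| ≤ L) :
    ENNReal.ofReal ((G a - G b) ^ 2) ≤
      ENNReal.ofReal L * ∫⁻ u in Icc α β, ENNReal.ofReal ((deriv G u) ^ 2) := by
  rcases le_total a b with h | h
  · have e : (G a - G b) ^ 2 = (G b - G a) ^ 2 := by ring
    rw [e]
    refine (cg_lin hG h).trans (mul_le_mul' (ENNReal.ofReal_le_ofReal ?_)
      (lintegral_mono_set (Icc_subset_Icc ha.1 hb.2)))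
    rw [abs_sub_comm, abs_of_nonneg (by linarith)] at hL
    exact hL
  · refine (cg_lin hG h).trans (mul_le_mul' (ENNReal.ofReal_le_ofReal ?_)
      (lintegral_mono_set (Icc_subset_Icc hb.1 ha.2)))
    rw [abs_of_nonneg (by linarith)] at hL
    exact hL

theorem one_var {G : ℝ → ℝ} (hG : ContDiff ℝ 1 G) {α β δ ε t : ℝ} (hε : 0 < ε) (hεδ : ε ≤ δ)
    (hα : α ≤ t) (hβ : t ≤ β) (ht : β - t ≤ 2 * δ)
    (hcase : G β = 0 ∨ (β - α < ε ∧ G α = 0) ∨ α ≤ β - ε) :
    ENNReal.ofReal ((G t) ^ 2) ≤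
      ENNReal.ofReal (8 * δ) * (∫⁻ τ in Icc α β, ENNReal.ofReal ((deriv G τ) ^ 2)) +
        ENNReal.ofReal (2 / ε) * (if G β = 0 ∨ (β - α < ε ∧ G α = 0) then 0 else
          ∫⁻ τ in Icc (β - ε) β, ENNReal.ofReal ((G τ) ^ 2)) := by
  have hδ : 0 < δ := lt_of_lt_of_le hε hεδ
  have htm : t ∈ Icc α β := ⟨hα, hβ⟩
  by_cases h1 : G β = 0 ∨ (β - α < ε ∧ G α = 0)
  · rw [if_pos h1, mul_zero, add_zero]
    rcases h1 with h1 | ⟨h1, h2⟩
    · have h3 := cg_any hG (L := 8 * δ) htm (b := β) ⟨hα.trans hβ, le_rfl⟩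
        (by rw [abs_sub_comm, abs_of_nonneg (by linarith)]; linarith)
      rwa [h1, sub_zero] at h3
    · have h3 := cg_any hG (L := 8 * δ) htm (b := α) ⟨le_rfl, hα.trans hβ⟩
        (by rw [abs_of_nonneg (by linarith)]; linarith)
      rwa [h2, sub_zero] at h3
  · rw [if_neg h1]
    have h2 : α ≤ β - ε := by tauto
    set I : ℝ≥0∞ := ∫⁻ τ in Icc α β, ENNReal.ofReal ((deriv G τ) ^ 2) with hI
    set J : ℝ≥0∞ := ∫⁻ τ in Icc (β - ε) β, ENNReal.ofReal ((G τ) ^ 2) with hJ
    have hpt : ∀ τ ∈ Icc (β - ε) β, ENNReal.ofReal ((G t) ^ 2) ≤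
        2 * ENNReal.ofReal ((G τ) ^ 2) + 2 * (ENNReal.ofReal (2 * δ) * I) := by
      intro τ hτ
      have h3 := cg_any hG (L := 2 * δ) htm (b := τ) ⟨h2.trans hτ.1, hτ.2⟩ (by
        rw [abs_le]
        constructor <;> linarith [hτ.1, hτ.2])
      have h4 : (G t) ^ 2 ≤ 2 * (G τ) ^ 2 + 2 * (G t - G τ) ^ 2 := by
        nlinarith [sq_nonneg (G t - 2 * G τ)]
      calc ENNReal.ofReal ((G t) ^ 2) ≤ ENNReal.ofReal (2 * (G τ) ^ 2 + 2 * (G t - G τ) ^ 2) :=
            ENNReal.ofReal_le_ofReal h4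
        _ = 2 * ENNReal.ofReal ((G τ) ^ 2) + 2 * ENNReal.ofReal ((G t - G τ) ^ 2) := by
            rw [ENNReal.ofReal_add (by positivity) (by positivity),
              ENNReal.ofReal_mul (by norm_num), ENNReal.ofReal_mul (by norm_num),
              ENNReal.ofReal_ofNat]
        _ ≤ _ := by gcongr
    have hint : ENNReal.ofReal ((G t) ^ 2) * ENNReal.ofReal ε ≤
        2 * J + 2 * (ENNReal.ofReal (2 * δ) * I) * ENNReal.ofReal ε := by
      have h5 := setLIntegral_mono' (μ := volume) (measurableSet_Icc (a := β - ε) (b := β)) hpt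
      rw [setLIntegral_const, Real.volume_Icc, lintegral_add_right _ measurable_const,
        setLIntegral_const, Real.volume_Icc, lintegral_const_mul (f := fun a =>
          ENNReal.ofReal (G a ^ 2)) _ ((hG.continuous.pow 2).measurable.ennreal_ofReal)] at h5
      rwa [show β - (β - ε) = ε by ring] at h5
    have hε0 : ENNReal.ofReal ε ≠ 0 := by
      rw [Ne, ENNReal.ofReal_eq_zero, not_le]
      exact hε
    have hεt : ENNReal.ofReal ε ≠ ⊤ := ENNReal.ofReal_ne_top
    have h6 : ENNReal.ofReal (2 / ε) = 2 * (ENNReal.ofReal ε)⁻¹ := by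
      rw [ENNReal.ofReal_div_of_pos hε, ENNReal.ofReal_ofNat, div_eq_mul_inv]
    calc ENNReal.ofReal ((G t) ^ 2)
        = (ENNReal.ofReal ((G t) ^ 2) * ENNReal.ofReal ε) * (ENNReal.ofReal ε)⁻¹ := by
          rw [mul_assoc, ENNReal.mul_inv_cancel hε0 hεt, mul_one]
      _ ≤ (2 * J + 2 * (ENNReal.ofReal (2 * δ) * I) * ENNReal.ofReal ε) *
            (ENNReal.ofReal ε)⁻¹ := mul_le_mul_left hint _
      _ = 2 * (ENNReal.ofReal (2 * δ) * I) + 2 * (ENNReal.ofReal ε)⁻¹ * J := by
          rw [add_mul, mul_assoc (2 * (ENNReal.ofReal (2 * δ) * I)),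
            ENNReal.mul_inv_cancel hε0 hεt, mul_one]
          ring
      _ ≤ ENNReal.ofReal (8 * δ) * I + ENNReal.ofReal (2 / ε) * J := by
          rw [h6]
          refine add_le_add_left ?_ _
          rw [← mul_assoc]
          refine mul_le_mul_left ?_ _
          rw [← ENNReal.ofReal_ofNat, ← ENNReal.ofReal_mul (by norm_num)]
          exact ENNReal.ofReal_le_ofReal (by linarith)

/- END cg -/

/- MODULE ch
Let `f = (x, i, σ)`; by the symmetry `h ↦ -h` it is enough to treat both signs in the same way, say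
`σ = true`, `sl f = H (x + st i) + 1 - h x`.  Fibre in the coordinate `x` (`fib_le` of Fl.lean,
`K_upd`): the section of `K` is empty or `[α, β]`, `α = max_j (H (x + st j) - 1)`,
`β = min_j (H (x + st j) + 1)`.  Let `t ∈ [α, β]` with `sl f ≤ 2 δ`, so `β - t ≤ 2 δ` and the slack
of `f` at `β` is `≤ 2 δ ≤ r`.  Let `j` attain `β`; the slack of `f_j = (x, j, true)` at `β` is `0`.
If `sp f_j ≠ sp f` then `g = 0` at `β` (zero property).  If `sp f_j = sp f` and `α ≤ β - ε`: on
`[β - ε, β]` the slack of `f_j` is `≤ ε`, these points are in the layer of `f_j`.  If `α > β - ε`,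
let `k` attain `α`; the slack of `f_k = (x, k, false)` at `α` is `0`, the slack of `f` at `α` is
`≤ 2 δ + ε ≤ r`, and `sp f_k ≠ sp f` (otherwise `k = i`, or both `x + st k`, `x + st i` are fixed;
then `β - α ≥ 1 - 2 δ`, because the slack of `f` at `β` is `≤ 2 δ` and `|b| ≤ 1 / 2`): `g = 0` at
`α`.  Use `one_var`, integrate over `t` (length `≤ 2 δ`), bound the third case by the sum over
`j`. -/

private theorem ch_one {G : ℝ → ℝ} (hG : ContDiff ℝ 1 G) {α β δ ε : ℝ} (hε : 0 < ε)
    (hεδ : ε ≤ δ) {L : Set ℝ} (hLm : MeasurableSet L)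
    (hL : ∀ t ∈ L, α ≤ t ∧ t ≤ β ∧ β - t ≤ 2 * δ)
    (hcase : G β = 0 ∨ (β - α < ε ∧ G α = 0) ∨ α ≤ β - ε) {S : ℝ≥0∞}
    (hS : (if G β = 0 ∨ (β - α < ε ∧ G α = 0) then 0 else
      ∫⁻ τ in Icc (β - ε) β, ENNReal.ofReal ((G τ) ^ 2)) ≤ S) :
    ∫⁻ t in L, ENNReal.ofReal ((G t) ^ 2) ≤
      ENNReal.ofReal (16 * δ ^ 2) * (∫⁻ τ in Icc α β, ENNReal.ofReal ((deriv G τ) ^ 2)) +
        ENNReal.ofReal (4 * δ / ε) * S := by
  have hδ : 0 < δ := hε.trans_le hεδ
  set A : ℝ≥0∞ := ENNReal.ofReal (8 * δ) *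
    (∫⁻ τ in Icc α β, ENNReal.ofReal ((deriv G τ) ^ 2)) + ENNReal.ofReal (2 / ε) * S with hA
  calc ∫⁻ t in L, ENNReal.ofReal ((G t) ^ 2) ≤ ∫⁻ _ in L, A := by
        refine setLIntegral_mono' hLm fun t ht => ?_
        obtain ⟨h1, h2, h3⟩ := hL t ht
        refine (one_var hG hε hεδ h1 h2 h3 hcase).trans ?_
        exact add_le_add le_rfl (mul_le_mul' le_rfl hS)
    _ ≤ ∫⁻ _ in Icc (β - 2 * δ) β, A := by
        refine lintegral_mono_set fun t ht => ?_
        obtain ⟨h1, h2, h3⟩ := hL t ht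
        exact ⟨by linarith, h2⟩
    _ = A * ENNReal.ofReal (2 * δ) := by
        rw [setLIntegral_const, Real.volume_Icc]
        congr 2
        ring
    _ = _ := by
        have e1 : ENNReal.ofReal (16 * δ ^ 2) = ENNReal.ofReal (8 * δ) * ENNReal.ofReal (2 * δ) := by
          rw [← ENNReal.ofReal_mul (by positivity)]
          congr 1
          ring
        have e2 : ENNReal.ofReal (4 * δ / ε) = ENNReal.ofReal (2 / ε) * ENNReal.ofReal (2 * δ) := by
          rw [← ENNReal.ofReal_mul (by positivity)]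
          congr 1
          ring
        rw [hA, e1, e2, add_mul]
        ring

private theorem ch_neg {s : Set ℝ} (hs : MeasurableSet s) {f : ℝ → ℝ≥0∞} (hf : Measurable f) :
    ∫⁻ t in (fun t : ℝ => -t) ⁻¹' s, f (-t) = ∫⁻ t in s, f t :=
  (Measure.measurePreserving_neg (volume : Measure ℝ)).setLIntegral_comp_preimage hs hf

private theorem ch_mir {G : ℝ → ℝ} (hG : ContDiff ℝ 1 G) {α β δ ε : ℝ} (hε : 0 < ε)
    (hεδ : ε ≤ δ) {L : Set ℝ} (hLm : MeasurableSet L)
    (hL : ∀ t ∈ L, α ≤ t ∧ t ≤ β ∧ t - α ≤ 2 * δ)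
    (hcase : G α = 0 ∨ (β - α < ε ∧ G β = 0) ∨ α + ε ≤ β) {S : ℝ≥0∞}
    (hS : (if G α = 0 ∨ (β - α < ε ∧ G β = 0) then 0 else
      ∫⁻ τ in Icc α (α + ε), ENNReal.ofReal ((G τ) ^ 2)) ≤ S) :
    ∫⁻ t in L, ENNReal.ofReal ((G t) ^ 2) ≤
      ENNReal.ofReal (16 * δ ^ 2) * (∫⁻ τ in Icc α β, ENNReal.ofReal ((deriv G τ) ^ 2)) +
        ENNReal.ofReal (4 * δ / ε) * S := by
  have hGn : ContDiff ℝ 1 (fun t => G (-t)) := hG.comp contDiff_neg
  have hGc : Continuous G := hG.continuous
  have hdc : Continuous (deriv G) := hG.continuous_deriv le_rfl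
  have m1 : Measurable (fun t => ENNReal.ofReal ((G t) ^ 2)) :=
    ((hGc.pow 2).measurable).ennreal_ofReal
  have m2 : Measurable (fun t => ENNReal.ofReal ((deriv G t) ^ 2)) :=
    ((hdc.pow 2).measurable).ennreal_ofReal
  have hiff : (G (- -α) = 0 ∨ (-α - -β < ε ∧ G (- -β) = 0)) ↔
      (G α = 0 ∨ (β - α < ε ∧ G β = 0)) := by
    rw [neg_neg, neg_neg]
    have : -α - -β = β - α := by ring
    rw [this]
  have e3 : ∫⁻ τ in Icc (-α - ε) (-α), ENNReal.ofReal ((G (-τ)) ^ 2) =
      ∫⁻ τ in Icc α (α + ε), ENNReal.ofReal ((G τ) ^ 2) := by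
    rw [← ch_neg measurableSet_Icc m1]
    congr 2
    ext t
    simp only [mem_Icc, mem_preimage]
    constructor
    · rintro ⟨h1, h2⟩
      exact ⟨by linarith, by linarith⟩
    · rintro ⟨h1, h2⟩
      exact ⟨by linarith, by linarith⟩
  have h := ch_one (α := -β) (β := -α) hGn hε hεδ (L := (fun t : ℝ => -t) ⁻¹' L)
    (measurable_neg hLm) (fun t ht => by
      obtain ⟨h1, h2, h3⟩ := hL (-t) ht
      exact ⟨by linarith, by linarith, by linarith⟩)
    (by
      rcases hcase with h | h | h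
      · left
        show G (- -α) = 0
        rw [neg_neg]
        exact h
      · right
        left
        refine ⟨by linarith [h.1], ?_⟩
        show G (- -β) = 0
        rw [neg_neg]
        exact h.2
      · right
        right
        linarith)
    (S := S) (by
      have e4 : (if G (- -α) = 0 ∨ (-α - -β < ε ∧ G (- -β) = 0) then 0 else
          ∫⁻ τ in Icc (-α - ε) (-α), ENNReal.ofReal ((G (-τ)) ^ 2)) =
          (if G α = 0 ∨ (β - α < ε ∧ G β = 0) then 0 else
          ∫⁻ τ in Icc α (α + ε), ENNReal.ofReal ((G τ) ^ 2)) := by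
        rw [e3]
        by_cases hc : G α = 0 ∨ (β - α < ε ∧ G β = 0)
        · rw [if_pos hc, if_pos (hiff.2 hc)]
        · rw [if_neg hc, if_neg (fun h => hc (hiff.1 h))]
      exact e4.le.trans hS)
  have e1 : ∫⁻ t in (fun t : ℝ => -t) ⁻¹' L, ENNReal.ofReal ((G (-t)) ^ 2) =
      ∫⁻ t in L, ENNReal.ofReal ((G t) ^ 2) := ch_neg hLm m1
  have e2 : ∫⁻ τ in Icc (-β) (-α), ENNReal.ofReal ((deriv (fun t => G (-t)) τ) ^ 2) =
      ∫⁻ τ in Icc α β, ENNReal.ofReal ((deriv G τ) ^ 2) := by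
    rw [← ch_neg measurableSet_Icc m2]
    have e5 : (fun t : ℝ => -t) ⁻¹' Icc α β = Icc (-β) (-α) := by
      ext t
      simp only [mem_Icc, mem_preimage]
      constructor
      · rintro ⟨h1, h2⟩
        exact ⟨by linarith, by linarith⟩
      · rintro ⟨h1, h2⟩
        exact ⟨by linarith, by linarith⟩
    rw [e5]
    refine lintegral_congr fun t => ?_
    rw [deriv_comp_neg, neg_sq]
  rw [e1, e2] at h
  exact h

private theorem ch_ne (x : ℤ × ℤ) (j : Fin 6) : x + st j ≠ x := by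
  intro h
  exact st_ne j (add_eq_left.1 h)

private theorem ch_sl {D : Finset (ℤ × ℤ)} {b : ℤ × ℤ → ℝ} (x : D) (h : D → ℝ) (j : Fin 6)
    (s : Bool) (t : ℝ) : sl D b (x.1, j, s) (Function.update h x t) =
      1 - sg s * (t - gl D b h (x.1 + st j)) := by
  unfold sl
  simp only
  rw [gl_upd, gl_upd, if_pos rfl, if_neg (ch_ne x.1 j)]

private theorem ch_sp {D : Finset (ℤ × ℤ)} {x : ℤ × ℤ} (hx : x ∈ D) {i k : Fin 6} {s s' : Bool}
    (h : sp D (x, k, s') = sp D (x, i, s)) :
    x + st i = x + st k ∨ (x + st i ∉ D ∧ x + st k ∉ D) := by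
  unfold sp at h
  simp only at h
  by_cases hi : x + st i ∈ D
  · left
    have h1 : x + st i ∈ ({x, x + st i} : Finset (ℤ × ℤ)) ∩ D := by
      rw [Finset.mem_inter]
      exact ⟨Finset.mem_insert_of_mem (Finset.mem_singleton_self _), hi⟩
    rw [← h, Finset.mem_inter, Finset.mem_insert, Finset.mem_singleton] at h1
    rcases h1.1 with h2 | h2
    · exact absurd h2 (ch_ne x i)
    · exact h2
  · by_cases hk : x + st k ∈ D
    · left
      have h1 : x + st k ∈ ({x, x + st k} : Finset (ℤ × ℤ)) ∩ D := by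
        rw [Finset.mem_inter]
        exact ⟨Finset.mem_insert_of_mem (Finset.mem_singleton_self _), hk⟩
      rw [h, Finset.mem_inter, Finset.mem_insert, Finset.mem_singleton] at h1
      rcases h1.1 with h2 | h2
      · exact absurd h2 (ch_ne x k)
      · exact h2.symm
    · exact Or.inr ⟨hi, hk⟩

private theorem ch_gap {D : Finset (ℤ × ℤ)} {b : ℤ × ℤ → ℝ} (hb : ∀ z, |b z| ≤ 1 / 2)
    {x : ℤ × ℤ} (hx : x ∈ D) {i k : Fin 6} {s s' : Bool}
    (h : sp D (x, k, s') = sp D (x, i, s)) (g : D → ℝ) :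
    |gl D b g (x + st i) - gl D b g (x + st k)| ≤ 1 := by
  rcases ch_sp hx h with h1 | ⟨h1, h2⟩
  · rw [h1, sub_self, abs_zero]
    exact zero_le_one
  · rw [gl_not_mem h1, gl_not_mem h2]
    have h3 := hb (x + st i)
    have h4 := hb (x + st k)
    rw [abs_le] at h3 h4 ⊢
    constructor <;> linarith [h3.1, h3.2, h4.1, h4.2]

private theorem ch_mem {D : Finset (ℤ × ℤ)} {x : ℤ × ℤ} (hx : x ∈ D) (j : Fin 6) (s : Bool) :
    (x, j, s) ∈ Fa D := by
  unfold Fa
  rw [Finset.mem_product]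
  exact ⟨hx, Finset.mem_product.2 ⟨Finset.mem_univ _, Finset.mem_univ _⟩⟩

private theorem ch_pd {ι : Type*} [Fintype ι] [DecidableEq ι] {g : (ι → ℝ) → ℝ}
    (hg : ContDiff ℝ 1 g) (x : ι) (h : ι → ℝ) (t : ℝ) :
    deriv (fun t => g (Function.update h x t)) t = pd x g (Function.update h x t) := by
  have h1 : HasFDerivAt g (fderiv ℝ g (Function.update h x t)) (Function.update h x t) :=
    (hg.differentiable (by norm_num) _).hasFDerivAt
  exact (h1.comp_hasDerivAt t (hasDerivAt_update h x t)).deriv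

private theorem ch_fibre {D : Finset (ℤ × ℤ)} {b : ℤ × ℤ → ℝ} (hb : ∀ z, |b z| ≤ 1 / 2)
    (x : D) (i : Fin 6) (σ : Bool) {g : (D → ℝ) → ℝ} (hg : ContDiff ℝ 1 g)
    {r δ ε : ℝ} (hr : r ≤ 1 / 4) (hε : 0 < ε) (hεδ : ε ≤ δ) (hδ : 3 * δ ≤ r)
    (hz : ∀ h ∈ K D b, ∀ f' ∈ Fa D, sp D f' ≠ sp D (x.1, i, σ) → sl D b (x.1, i, σ) h ≤ r →
      sl D b f' h ≤ r → g h = 0) (h : D → ℝ) :
    ∫⁻ t, {h | h ∈ K D b ∧ sl D b (x.1, i, σ) h ≤ 2 * δ}.indicator
        (fun h => ENNReal.ofReal ((g h) ^ 2)) (Function.update h x t) ≤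
      ∫⁻ t, (ENNReal.ofReal (16 * δ ^ 2) *
        (K D b).indicator (fun h => ENNReal.ofReal (gr g h)) (Function.update h x t) +
        ENNReal.ofReal (4 * δ / ε) * ∑ f' ∈ (Fa D).filter (fun f' => sp D f' = sp D (x.1, i, σ)),
          {h | h ∈ K D b ∧ sl D b f' h ≤ ε}.indicator
            (fun h => ENNReal.ofReal ((g h) ^ 2)) (Function.update h x t)) := by
  classical
  obtain ⟨P, hP⟩ := K_upd (b := b) x h
  set H : Fin 6 → ℝ := fun j => gl D b h (x.1 + st j) with hH
  have hsl : ∀ j s t, sl D b (x.1, j, s) (Function.update h x t) = 1 - sg s * (t - H j) :=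
    fun j s t => ch_sl x h j s t
  by_cases hex : ∃ t0, Function.update h x t0 ∈
      {h | h ∈ K D b ∧ sl D b (x.1, i, σ) h ≤ 2 * δ}
  swap
  · have e0 : ∀ t, {h | h ∈ K D b ∧ sl D b (x.1, i, σ) h ≤ 2 * δ}.indicator
        (fun h => ENNReal.ofReal ((g h) ^ 2)) (Function.update h x t) = 0 := by
      intro t
      exact Set.indicator_of_notMem (fun hc => hex ⟨t, hc⟩) _
    simp only [e0, lintegral_zero]
    exact zero_le
  obtain ⟨t0, ht0K, ht0s⟩ := hex
  have hPP : P := ((hP t0).1 ht0K).1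
  obtain ⟨j, hj⟩ := Finite.exists_min H
  obtain ⟨k, hk⟩ := Finite.exists_max H
  set α : ℝ := H k - 1 with hα
  set β : ℝ := H j + 1 with hβ
  have hKI : ∀ t, Function.update h x t ∈ K D b ↔ α ≤ t ∧ t ≤ β := by
    intro t
    rw [hP]
    constructor
    · rintro ⟨_, h2⟩
      have h3 := (abs_le.1 (h2 k)).1
      have h4 := (abs_le.1 (h2 j)).2
      exact ⟨by simp only [hα, hH]; linarith, by simp only [hβ, hH]; linarith⟩
    · rintro ⟨h1, h2⟩
      refine ⟨hPP, fun l => abs_le.2 ⟨?_, ?_⟩⟩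
      · have := hk l
        simp only [hα, hH] at h1 this
        linarith
      · have := hj l
        simp only [hβ, hH] at h2 this
        linarith
  have hαβ : α ≤ β := ((hKI t0).1 ht0K).1.trans ((hKI t0).1 ht0K).2
  have hαK : Function.update h x α ∈ K D b := (hKI α).2 ⟨le_rfl, hαβ⟩
  have hβK : Function.update h x β ∈ K D b := (hKI β).2 ⟨hαβ, le_rfl⟩
  obtain ⟨ht0α, ht0β⟩ := (hKI t0).1 ht0K
  set G : ℝ → ℝ := fun t => g (Function.update h x t) with hGdef
  have hGs : ContDiff ℝ 1 G := hg.comp (contDiff_update 1 h x)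
  have hupc : Continuous (fun t : ℝ => Function.update h x t) :=
    continuous_const.update x continuous_id
  have hLm : MeasurableSet {t : ℝ | Function.update h x t ∈
      {h | h ∈ K D b ∧ sl D b (x.1, i, σ) h ≤ 2 * δ}} := by
    have h1 : MeasurableSet {h | h ∈ K D b ∧ sl D b (x.1, i, σ) h ≤ 2 * δ} :=
      (K_meas D b).inter (measurableSet_le (sl_smooth D b _).continuous.measurable
        measurable_const)
    exact hupc.measurable h1
  set S : ℝ≥0∞ := ∫⁻ t, ∑ f' ∈ (Fa D).filter (fun f' => sp D f' = sp D (x.1, i, σ)),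
          {h | h ∈ K D b ∧ sl D b f' h ≤ ε}.indicator
            (fun h => ENNReal.ofReal ((g h) ^ 2)) (Function.update h x t) with hSdef
  -- the layer of one facet
  have hlay : ∀ (l : Fin 6) (s : Bool) (p q : ℝ), sp D (x.1, l, s) = sp D (x.1, i, σ) →
      α ≤ p → q ≤ β → (∀ τ ∈ Icc p q, 1 - sg s * (τ - H l) ≤ ε) →
      ∫⁻ τ in Icc p q, ENNReal.ofReal ((G τ) ^ 2) ≤ S := by
    intro l s p q hspl hp hq hlε
    rw [← lintegral_indicator measurableSet_Icc, hSdef]
    refine lintegral_mono fun τ => ?_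
    by_cases hτ : τ ∈ Icc p q
    · rw [Set.indicator_of_mem hτ]
      have hmem : Function.update h x τ ∈ {h | h ∈ K D b ∧ sl D b (x.1, l, s) h ≤ ε} := by
        refine ⟨(hKI τ).2 ⟨hp.trans hτ.1, hτ.2.trans hq⟩, ?_⟩
        rw [hsl]
        exact hlε τ hτ
      have hfm : (x.1, l, s) ∈ (Fa D).filter (fun f' => sp D f' = sp D (x.1, i, σ)) :=
        Finset.mem_filter.2 ⟨ch_mem x.2 l s, hspl⟩
      have h1 := Finset.single_le_sum (f := fun f' =>
        {h | h ∈ K D b ∧ sl D b f' h ≤ ε}.indicator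
            (fun h => ENNReal.ofReal ((g h) ^ 2)) (Function.update h x τ))
        (fun _ _ => zero_le) hfm
      refine le_trans (le_of_eq ?_) h1
      simp only
      rw [Set.indicator_of_mem hmem]
    · rw [Set.indicator_of_notMem hτ]
      exact zero_le
  have main : ∫⁻ t in {t : ℝ | Function.update h x t ∈
      {h | h ∈ K D b ∧ sl D b (x.1, i, σ) h ≤ 2 * δ}}, ENNReal.ofReal ((G t) ^ 2) ≤
      ENNReal.ofReal (16 * δ ^ 2) * (∫⁻ τ in Icc α β, ENNReal.ofReal ((deriv G τ) ^ 2)) +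
        ENNReal.ofReal (4 * δ / ε) * S := by
    cases σ with
    | true =>
      have sgt : sg true = 1 := by simp [sg]
      have ht0s' : 1 - 1 * (t0 - H i) ≤ 2 * δ := by
        have := ht0s
        rw [hsl, sgt] at this
        exact this
      have hji := hj i
      have hki := hk i
      have c1 : sp D (x.1, j, true) ≠ sp D (x.1, i, true) → G β = 0 := by
        intro hne
        refine hz _ hβK (x.1, j, true) (ch_mem x.2 j true) hne ?_ ?_
        · rw [hsl, sgt]
          linarith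
        · rw [hsl, sgt]
          simp only [hβ]
          linarith
      have c2 : β - α < ε → G α = 0 := by
        intro hlt
        have hslr : 1 - 1 * (α - H i) ≤ r := by linarith
        refine hz _ hαK (x.1, k, false) (ch_mem x.2 k false) ?_ ?_ ?_
        · intro heq
          have h5 := (abs_le.1 (ch_gap hb x.2 heq h)).1
          have h6 : H i - H k ≥ -1 := h5
          simp only [hα] at hslr
          linarith
        · rw [hsl, sgt]
          exact hslr
        · rw [hsl]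
          have sgf : sg false = -1 := by simp [sg]
          rw [sgf]
          simp only [hα]
          linarith
      refine ch_one hGs hε hεδ hLm ?_ ?_ ?_
      · intro t ht
        have h1 := (hKI t).1 ht.1
        have h2 := ht.2
        rw [hsl, sgt] at h2
        refine ⟨h1.1, h1.2, ?_⟩
        simp only [hβ]
        linarith
      · by_cases hne : sp D (x.1, j, true) = sp D (x.1, i, true)
        · by_cases hlt : β - α < ε
          · exact Or.inr (Or.inl ⟨hlt, c2 hlt⟩)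
          · exact Or.inr (Or.inr (by linarith))
        · exact Or.inl (c1 hne)
      · split_ifs with hc
        · exact zero_le
        · have hspj : sp D (x.1, j, true) = sp D (x.1, i, true) := by
            by_contra hne
            exact hc (Or.inl (c1 hne))
          have hge : α ≤ β - ε := by
            by_contra hlt
            have hlt' : β - α < ε := by linarith
            exact hc (Or.inr ⟨hlt', c2 hlt'⟩)
          refine hlay j true (β - ε) β hspj hge le_rfl fun τ hτ => ?_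
          rw [sgt]
          have h7 := hτ.1
          simp only [hβ] at h7
          linarith
    | false =>
      have sgf : sg false = -1 := by simp [sg]
      have ht0s' : 1 - (-1) * (t0 - H i) ≤ 2 * δ := by
        have := ht0s
        rw [hsl, sgf] at this
        exact this
      have hji := hj i
      have hki := hk i
      have c1 : sp D (x.1, k, false) ≠ sp D (x.1, i, false) → G α = 0 := by
        intro hne
        refine hz _ hαK (x.1, k, false) (ch_mem x.2 k false) hne ?_ ?_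
        · rw [hsl, sgf]
          linarith
        · rw [hsl, sgf]
          simp only [hα]
          linarith
      have c2 : β - α < ε → G β = 0 := by
        intro hlt
        have hslr : 1 - (-1) * (β - H i) ≤ r := by linarith
        refine hz _ hβK (x.1, j, true) (ch_mem x.2 j true) ?_ ?_ ?_
        · intro heq
          have h5 := (abs_le.1 (ch_gap hb x.2 heq h)).2
          have h6 : H i - H j ≤ 1 := h5
          simp only [hβ] at hslr
          linarith
        · rw [hsl, sgf]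
          exact hslr
        · rw [hsl]
          have sgt : sg true = 1 := by simp [sg]
          rw [sgt]
          simp only [hβ]
          linarith
      refine ch_mir hGs hε hεδ hLm ?_ ?_ ?_
      · intro t ht
        have h1 := (hKI t).1 ht.1
        have h2 := ht.2
        rw [hsl, sgf] at h2
        refine ⟨h1.1, h1.2, ?_⟩
        simp only [hα]
        linarith
      · by_cases hne : sp D (x.1, k, false) = sp D (x.1, i, false)
        · by_cases hlt : β - α < ε
          · exact Or.inr (Or.inl ⟨hlt, c2 hlt⟩)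
          · exact Or.inr (Or.inr (by linarith))
        · exact Or.inl (c1 hne)
      · split_ifs with hc
        · exact zero_le
        · have hspk : sp D (x.1, k, false) = sp D (x.1, i, false) := by
            by_contra hne
            exact hc (Or.inl (c1 hne))
          have hge : α + ε ≤ β := by
            by_contra hlt
            have hlt' : β - α < ε := by linarith
            exact hc (Or.inr ⟨hlt', c2 hlt'⟩)
          refine hlay k false α (α + ε) hspk le_rfl hge fun τ hτ => ?_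
          rw [sgf]
          have h7 := hτ.2
          simp only [hα] at h7
          linarith
  have e1 : ∫⁻ t, {h | h ∈ K D b ∧ sl D b (x.1, i, σ) h ≤ 2 * δ}.indicator
        (fun h => ENNReal.ofReal ((g h) ^ 2)) (Function.update h x t) =
      ∫⁻ t in {t : ℝ | Function.update h x t ∈
      {h | h ∈ K D b ∧ sl D b (x.1, i, σ) h ≤ 2 * δ}}, ENNReal.ofReal ((G t) ^ 2) := by
    rw [← lintegral_indicator hLm]
    rfl
  have e2 : ∫⁻ τ in Icc α β, ENNReal.ofReal ((deriv G τ) ^ 2) ≤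
      ∫⁻ t, (K D b).indicator (fun h => ENNReal.ofReal (gr g h)) (Function.update h x t) := by
    rw [← lintegral_indicator measurableSet_Icc]
    refine lintegral_mono fun τ => ?_
    by_cases hτ : τ ∈ Icc α β
    · rw [Set.indicator_of_mem hτ, Set.indicator_of_mem ((hKI τ).2 hτ)]
      refine ENNReal.ofReal_le_ofReal ?_
      rw [hGdef, ch_pd hg x h τ]
      unfold gr
      exact Finset.single_le_sum (f := fun y => (pd y g (Function.update h x τ)) ^ 2)
        (fun _ _ => sq_nonneg _) (Finset.mem_univ x)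
    · rw [Set.indicator_of_notMem hτ]
      exact zero_le
  rw [e1]
  refine main.trans ?_
  refine le_trans (add_le_add (mul_le_mul' le_rfl e2) le_rfl) ?_
  refine le_trans (add_le_add (lintegral_const_mul_le _ _) (lintegral_const_mul_le _ _)) ?_
  exact le_lintegral_add _ _

theorem layer_ineq {D : Finset (ℤ × ℤ)} {b : ℤ × ℤ → ℝ} (hb : ∀ z, |b z| ≤ 1 / 2)
    {f : (ℤ × ℤ) × Fin 6 × Bool} (hf : f ∈ Fa D) {g : (D → ℝ) → ℝ} (hg : ContDiff ℝ 1 g)
    {r δ ε : ℝ} (hr : r ≤ 1 / 4) (hε : 0 < ε) (hεδ : ε ≤ δ) (hδ : 3 * δ ≤ r)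
    (hz : ∀ h ∈ K D b, ∀ f' ∈ Fa D, sp D f' ≠ sp D f → sl D b f h ≤ r → sl D b f' h ≤ r →
      g h = 0) :
    ∫⁻ h in {h | h ∈ K D b ∧ sl D b f h ≤ 2 * δ}, ENNReal.ofReal ((g h) ^ 2) ≤
      ENNReal.ofReal (16 * δ ^ 2) * (∫⁻ h in K D b, ENNReal.ofReal (gr g h)) +
        ENNReal.ofReal (4 * δ / ε) * ∑ f' ∈ (Fa D).filter (fun f' => sp D f' = sp D f),
          ∫⁻ h in {h | h ∈ K D b ∧ sl D b f' h ≤ ε}, ENNReal.ofReal ((g h) ^ 2) := by
  classical
  obtain ⟨x, i, σ⟩ := f
  have hx : x ∈ D := by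
    unfold Fa at hf
    exact (Finset.mem_product.1 hf).1
  have hlm : ∀ (f' : (ℤ × ℤ) × Fin 6 × Bool) (a : ℝ),
      MeasurableSet {h | h ∈ K D b ∧ sl D b f' h ≤ a} := fun f' a =>
    (K_meas D b).inter (measurableSet_le (sl_smooth D b f').continuous.measurable
      measurable_const)
  have hgm : Measurable (fun h => ENNReal.ofReal ((g h) ^ 2)) :=
    ((hg.continuous.pow 2).measurable).ennreal_ofReal
  have hgrm : Measurable (fun h => ENNReal.ofReal (gr g h)) := by
    have h1 : Continuous (fun h => fderiv ℝ g h) := hg.continuous_fderiv (by norm_num)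
    have h2 : Continuous (gr g) := by
      unfold gr pd
      refine continuous_finsetSum _ fun x _ => ?_
      exact (h1.clm_apply continuous_const).pow 2
    exact h2.measurable.ennreal_ofReal
  have mA : Measurable (fun h => ENNReal.ofReal (16 * δ ^ 2) *
      (K D b).indicator (fun h => ENNReal.ofReal (gr g h)) h) :=
    (hgrm.indicator (K_meas D b)).const_mul _
  have mB : Measurable (fun h => ENNReal.ofReal (4 * δ / ε) *
      ∑ f' ∈ (Fa D).filter (fun f' => sp D f' = sp D (x, i, σ)),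
        {h | h ∈ K D b ∧ sl D b f' h ≤ ε}.indicator (fun h => ENNReal.ofReal ((g h) ^ 2)) h) :=
    (Finset.measurable_fun_sum _ fun f' _ => hgm.indicator (hlm f' ε)).const_mul _
  have key := fib_le (⟨x, hx⟩ : D) (hgm.indicator (hlm (x, i, σ) (2 * δ))) (mA.add mB)
    (fun h => ch_fibre hb ⟨x, hx⟩ i σ hg hr hε hεδ hδ hz h)
  rw [lintegral_indicator (hlm _ _)] at key
  refine key.trans (le_of_eq ?_)
  simp only [Pi.add_apply]
  rw [lintegral_add_left mA, lintegral_const_mul _ (hgrm.indicator (K_meas D b)),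
    lintegral_indicator (K_meas D b),
    lintegral_const_mul _ (Finset.measurable_fun_sum _ fun f' _ => hgm.indicator (hlm f' ε)),
    lintegral_finsetSum _ (fun f' _ => hgm.indicator (hlm f' ε))]
  congr 2
  refine Finset.sum_congr rfl fun f' _ => ?_
  rw [lintegral_indicator (hlm f' ε)]

/- END ch -/

end Pool.Agent.Hgf
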