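import Pool.Agent.Hgf.Sf

import Pool.Agent.Hgf.Cut

/-!
# Hgf (MP_161523_pr, Q2): the nice-field lemma

Smooth fields on `D → ℝ` whose components are EQUAL near the facets of `K` (`Tied`), almost optimal
for the variance.  Proof: soft fields (`soft_field`), truncation, one scalar cut-off near the
codimension two skeleton (`codim_cut`), then the facets one support after the other (`facet_step`).
-/

set_option autoImplicit false

open MeasureTheory Set Filter

open scoped ENNReal SchwartzMap ContDiff Topology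

noncomputable section

namespace Pool.Agent.Hgf

open Pool.Agent.Hmk

/-- the field `w` is tied on `K D b` with margin `ε`: components along an edge agree (components at
fixed sites are `0`) if the edge is nearly saturated -/
def Tied (D : Finset (ℤ × ℤ)) (b : ℤ × ℤ → ℝ) (ε : ℝ) (w : D → (D → ℝ) → ℝ) : Prop :=
  ∀ h ∈ K D b, ∀ x ∈ D, ∀ i : Fin 6, 1 - ε ≤ |gl D b h x - gl D b h (x + st i)| →
    g0 D (fun y => w y h) x = g0 D (fun y => w y h) (x + st i)

/-- smooth tied fields, bounded on `K` -/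
structure Nice (D : Finset (ℤ × ℤ)) (b : ℤ × ℤ → ℝ) (ε M : ℝ) (w : D → (D → ℝ) → ℝ) : Prop where
  pos : 0 < ε
  smooth : ∀ x, ContDiff ℝ ∞ (w x)
  tied : Tied D b ε w
  bdd : ∀ x, ∀ h ∈ K D b, |w x h| ≤ M

/-- the difference of the field along a facet -/
def df (D : Finset (ℤ × ℤ)) (w : D → (D → ℝ) → ℝ) (f : (ℤ × ℤ) × Fin 6 × Bool) (h : D → ℝ) : ℝ :=
  g0 D (fun y => w y h) f.1 - g0 D (fun y => w y h) (f.1 + st f.2.1)

/-- the integral of `(df f)^2` over the layer `sl f ≤ ε` -/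
def lay (D : Finset (ℤ × ℤ)) (b : ℤ × ℤ → ℝ) (ε : ℝ) (w : D → (D → ℝ) → ℝ)
    (f : (ℤ × ℤ) × Fin 6 × Bool) : ℝ≥0∞ :=
  ∫⁻ h in {h | h ∈ K D b ∧ sl D b f h ≤ ε}, ENNReal.ofReal ((df D w f h) ^ 2)

/-- the tied vectors for the support `p`: `0` if `p` is one site, the mean over `p` otherwise -/
def Pj (D : Finset (ℤ × ℤ)) (p : Finset (ℤ × ℤ)) (k : D → ℝ) (x : D) : ℝ :=
  if x.1 ∈ p then (if p.card = 1 then 0 else (∑ y ∈ p, g0 D k y) / (p.card : ℝ)) else k x

/-- zero near the codimension two skeleton -/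
def Zer (D : Finset (ℤ × ℤ)) (b : ℤ × ℤ → ℝ) (r : ℝ) (w : D → (D → ℝ) → ℝ) : Prop :=
  ∀ h ∈ K D b, ∀ f ∈ Fa D, ∀ f' ∈ Fa D, sp D f ≠ sp D f' → sl D b f h ≤ r → sl D b f' h ≤ r →
    ∀ x, w x h = 0

/- MODULE ea
The layer bound from `E2`: on `K` and `sl f ≤ 1 / s^2` the difference of the heights is
`z` with `1 - 1 / s^2 ≤ |z| ≤ 1`, `Us2 s z ≥ s^3 / 6` up to the constant of `Us2_ge` (look it up). -/

private theorem ea_meas (D : Finset (ℤ × ℤ)) (b : ℤ × ℤ → ℝ) (f : (ℤ × ℤ) × Fin 6 × Bool)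
    (r : ℝ) : MeasurableSet {h : D → ℝ | h ∈ K D b ∧ sl D b f h ≤ r} :=
  (K_meas D b).inter
    ((isClosed_le (sl_smooth D b f).continuous continuous_const).measurableSet)

theorem lay_le {D : Finset (ℤ × ℤ)} {b : ℤ × ℤ → ℝ} {s : ℝ} (hs : 1 ≤ s)
    {w : D → (D → ℝ) → ℝ} (hw : ∀ x, ContDiff ℝ 1 (w x)) {f : (ℤ × ℤ) × Fin 6 × Bool}
    (hf : f ∈ Fa D) :
    lay D b (1 / s ^ 2) w f ≤ ENNReal.ofReal (12 / s ^ 3) * E2 D b s w := by
  obtain ⟨x, i, σ⟩ := f
  have hs0 : 0 < s := by linarith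
  have hx : x ∈ D := (Finset.mem_product.1 hf).1
  have hm : MeasurableSet {h : D → ℝ | h ∈ K D b ∧ sl D b (x, i, σ) h ≤ 1 / s ^ 2} :=
    ea_meas D b _ _
  unfold lay
  calc ∫⁻ h in {h | h ∈ K D b ∧ sl D b (x, i, σ) h ≤ 1 / s ^ 2},
        ENNReal.ofReal ((df D w (x, i, σ) h) ^ 2)
      ≤ ∫⁻ h in {h | h ∈ K D b ∧ sl D b (x, i, σ) h ≤ 1 / s ^ 2},
        ENNReal.ofReal (12 / s ^ 3) * ENNReal.ofReal
          (Us2 s (gl D b h x - gl D b h (x + st i)) *
      (g0 D (fun y => w y h) x - g0 D (fun y => w y h) (x + st i)) ^ 2) := by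
        refine setLIntegral_mono' hm ?_
        rintro h ⟨hh, hsl⟩
        rw [← ENNReal.ofReal_mul (by positivity)]
        refine ENNReal.ofReal_le_ofReal ?_
        have h1 : |gl D b h x - gl D b h (x + st i)| ≤ 1 := hh x hx i
        have h2 : 1 - 1 / s ^ 2 ≤ sg σ * (gl D b h x - gl D b h (x + st i)) := by
          have : sl D b (x, i, σ) h = 1 - sg σ * (gl D b h x - gl D b h (x + st i)) := rfl
          linarith
        have h3 : s ^ 3 / 6 ≤ Us2 s (gl D b h x - gl D b h (x + st i)) := by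
          cases σ
          · have h4 : sg false = -1 := rfl
            rw [h4] at h2
            rw [← Us2_even]
            exact Us2_ge hs (by linarith) (by linarith [abs_le.1 h1])
          · have h4 : sg true = 1 := rfl
            rw [h4] at h2
            exact Us2_ge hs (by linarith) (by linarith [abs_le.1 h1])
        have h5 : (1 : ℝ) ≤ 12 / s ^ 3 * Us2 s (gl D b h x - gl D b h (x + st i)) := by
          calc (1 : ℝ) ≤ 12 / s ^ 3 * (s ^ 3 / 6) := by field_simp; norm_num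
            _ ≤ _ := mul_le_mul_of_nonneg_left h3 (by positivity)
        have h6 : df D w (x, i, σ) h =
            g0 D (fun y => w y h) x - g0 D (fun y => w y h) (x + st i) := rfl
        rw [h6, ← mul_assoc]
        exact le_mul_of_one_le_left (sq_nonneg _) h5
    _ = ENNReal.ofReal (12 / s ^ 3) * ∫⁻ h in {h | h ∈ K D b ∧ sl D b (x, i, σ) h ≤ 1 / s ^ 2},
        ENNReal.ofReal (Us2 s (gl D b h x - gl D b h (x + st i)) *
          (g0 D (fun y => w y h) x - g0 D (fun y => w y h) (x + st i)) ^ 2) :=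
        lintegral_const_mul' _ _ ENNReal.ofReal_ne_top
    _ ≤ ENNReal.ofReal (12 / s ^ 3) * ∫⁻ h in K D b,
        ENNReal.ofReal (Us2 s (gl D b h x - gl D b h (x + st i)) *
          (g0 D (fun y => w y h) x - g0 D (fun y => w y h) (x + st i)) ^ 2) :=
        mul_le_mul_right (lintegral_mono_set fun h hh => hh.1) _
    _ ≤ ENNReal.ofReal (12 / s ^ 3) * E2 D b s w := by
        refine mul_le_mul_right ?_ _
        unfold E2
        refine le_trans ?_ (Finset.single_le_sum (f := fun x => ∑ i, ∫⁻ h in K D b,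
          ENNReal.ofReal (Us2 s (gl D b h x - gl D b h (x + st i)) *
          (g0 D (fun y => w y h) x - g0 D (fun y => w y h) (x + st i)) ^ 2))
          (fun _ _ => zero_le) hx)
        exact Finset.single_le_sum (f := fun i => ∫⁻ h in K D b,
          ENNReal.ofReal (Us2 s (gl D b h x - gl D b h (x + st i)) *
          (g0 D (fun y => w y h) x - g0 D (fun y => w y h) (x + st i)) ^ 2))
          (fun _ _ => zero_le) (Finset.mem_univ i)

/- END ea -/

/- MODULE eb
Truncation of all components by `τ` (`trunc_exists`): differences and gradients decrease. -/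

private theorem eb_pd_cont {ι : Type*} [Fintype ι] [DecidableEq ι] {f : (ι → ℝ) → ℝ}
    (hf : ContDiff ℝ 1 f) (x : ι) : Continuous (pd x f) :=
  (hf.continuous_fderiv one_ne_zero).clm_apply continuous_const

private theorem eb_gr_cont {ι : Type*} [Fintype ι] [DecidableEq ι] {f : (ι → ℝ) → ℝ}
    (hf : ContDiff ℝ 1 f) : Continuous (gr f) :=
  continuous_finsetSum _ fun x _ => (eb_pd_cont hf x).pow 2

private theorem eb_gr_nonneg {ι : Type*} [Fintype ι] [DecidableEq ι] (f : (ι → ℝ) → ℝ)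
    (h : ι → ℝ) : 0 ≤ gr f h := Finset.sum_nonneg fun x _ => sq_nonneg _

private theorem eb_pd_comp {ι : Type*} [Fintype ι] [DecidableEq ι] {τ : ℝ → ℝ}
    (hτ : ContDiff ℝ ∞ τ) {f : (ι → ℝ) → ℝ} (hf : ContDiff ℝ ∞ f) (x : ι) (h : ι → ℝ) :
    pd x (fun h => τ (f h)) h = deriv τ (f h) * pd x f h := by
  have h1 : HasDerivAt τ (deriv τ (f h)) (f h) :=
    (hτ.differentiable (by simp) (f h)).hasDerivAt
  have h2 : HasFDerivAt f (fderiv ℝ f h) h := (hf.differentiable (by simp) h).hasFDerivAt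
  have h3 : HasFDerivAt (fun h => τ (f h)) (deriv τ (f h) • fderiv ℝ f h) h :=
    h1.comp_hasFDerivAt h h2
  unfold pd
  rw [h3.fderiv]
  simp

private theorem eb_g0 {D : Finset (ℤ × ℤ)} {τ : ℝ → ℝ} (hτ : τ 0 = 0) {w : D → (D → ℝ) → ℝ}
    (h : D → ℝ) (z : ℤ × ℤ) :
    g0 D (fun y => τ (w y h)) z = τ (g0 D (fun y => w y h) z) := by
  unfold g0 gl
  split_ifs with hz
  · rfl
  · exact hτ.symm

private theorem eb_mono {D : Finset (ℤ × ℤ)} {b : ℤ × ℤ → ℝ} {W f g : (D → ℝ) → ℝ}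
    (hW : Continuous W) (hf : Continuous f) (hg : Continuous g)
    (h : ∀ h ∈ K D b, f h ≤ g h) : EK D b W f ≤ EK D b W g :=
  setIntegral_mono_on (EK_int b hW hf) (EK_int b hW hg) (K_meas D b)
    fun x hx => mul_le_mul_of_nonneg_right (h x hx) (Real.exp_nonneg _)

theorem trunc_field {D : Finset (ℤ × ℤ)} {b : ℤ × ℤ → ℝ} {W : (D → ℝ) → ℝ} (hW : Continuous W)
    {τ : ℝ → ℝ} (hτ : ContDiff ℝ ∞ τ) (h0 : ∀ r, |τ r| ≤ |r|)
    (h1 : ∀ r t, |τ r - τ t| ≤ |r - t|) (h2 : ∀ r, |deriv τ r| ≤ 1) {w : D → (D → ℝ) → ℝ}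
    (hw : ∀ x, ContDiff ℝ ∞ (w x)) :
    (∀ x, ContDiff ℝ ∞ (fun h => τ (w x h))) ∧ (∀ x h, gr (fun h => τ (w x h)) h ≤ gr (w x) h) ∧
      (∀ f h, (df D (fun x h => τ (w x h)) f h) ^ 2 ≤ (df D w f h) ^ 2) ∧
      EK D b W (fun h => ∑ x, gr (fun h => τ (w x h)) h) ≤ EK D b W (fun h => ∑ x, gr (w x) h) := by
  have hτ0 : τ 0 = 0 := by
    have := h0 0
    rw [abs_zero] at this
    exact abs_nonpos_iff.1 this
  have hgr : ∀ x h, gr (fun h => τ (w x h)) h ≤ gr (w x) h := by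
    intro x h
    refine Finset.sum_le_sum fun y _ => ?_
    rw [eb_pd_comp hτ (hw x), mul_pow]
    refine mul_le_of_le_one_left (sq_nonneg _) ?_
    rw [← sq_abs]
    exact pow_le_one₀ (abs_nonneg _) (h2 _)
  refine ⟨fun x => hτ.comp (hw x), hgr, ?_, ?_⟩
  · intro f h
    unfold df
    rw [eb_g0 hτ0, eb_g0 hτ0]
    exact sq_le_sq.2 (h1 _ _)
  · refine eb_mono hW ?_ ?_ fun h _ => Finset.sum_le_sum fun x _ => hgr x h
    · exact continuous_finsetSum _ fun x _ => eb_gr_cont ((hτ.comp (hw x)).of_le (by simp))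
    · exact continuous_finsetSum _ fun x _ => eb_gr_cont ((hw x).of_le (by simp))

/- END eb -/

/- MODULE ec
`|w - τ w| ≤ 2 |w| 1_{|w| > M} ≤ 2 w^2 / M`. -/

private theorem ec_diff {D : Finset (ℤ × ℤ)} {b : ℤ × ℤ → ℝ} {W f g : (D → ℝ) → ℝ}
    (hW : Continuous W) (hW0 : ∀ h, 0 ≤ W h) (hf : Continuous f) (hg : Continuous g) {R : ℝ}
    (hR : 0 ≤ R)
    (h : ∫⁻ h in K D b, ENNReal.ofReal |f h - g h| ≤ ENNReal.ofReal R) :
    |EK D b W f - EK D b W g| ≤ R := by
  have h1 : EK D b W f - EK D b W g = ∫ h in K D b, (f h - g h) * Real.exp (- W h) := by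
    unfold EK
    rw [← integral_sub (EK_int b hW hf) (EK_int b hW hg)]
    refine integral_congr_ae (Filter.Eventually.of_forall fun x => ?_)
    simp only []
    ring
  rw [h1, ← Real.norm_eq_abs]
  refine (norm_integral_le_lintegral_norm _).trans ?_
  refine ENNReal.toReal_le_of_le_ofReal hR (le_trans ?_ h)
  refine lintegral_mono fun x => ENNReal.ofReal_le_ofReal ?_
  rw [norm_mul, Real.norm_eq_abs, Real.norm_eq_abs, abs_of_pos (Real.exp_pos _)]
  exact mul_le_of_le_one_right (abs_nonneg _) (Real.exp_le_one_iff.2 (by linarith [hW0 x]))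

theorem trunc_lin {D : Finset (ℤ × ℤ)} {b : ℤ × ℤ → ℝ} {W F : (D → ℝ) → ℝ} (hW : Wok W) {C : ℝ}
    (hF : Fok F C) {M : ℝ} (hM : 0 < M) {τ : ℝ → ℝ} (hτ : ContDiff ℝ ∞ τ)
    (h0 : ∀ r, |τ r| ≤ |r|) (h1 : ∀ r, |r| ≤ M → τ r = r) {w : D → (D → ℝ) → ℝ}
    (hw : ∀ x, ContDiff ℝ ∞ (w x)) {B : ℝ} (hB : 0 ≤ B)
    (hL : ∀ x, ∫⁻ h in K D b, ENNReal.ofReal ((w x h) ^ 2) ≤ ENNReal.ofReal B) :
    |EK D b W (fun h => ∑ x, pd x F h * w x h) -
        EK D b W (fun h => ∑ x, pd x F h * τ (w x h))| ≤ 2 * C * (D.card : ℝ) * B / M := by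
  rcases isEmpty_or_nonempty D with hD | hD
  · have h2 : (D.card : ℝ) = 0 := by
      have : D = ∅ := Finset.isEmpty_coe_sort.1 hD
      rw [this]; simp
    simp [EK, h2]
  have hC : 0 ≤ C := (abs_nonneg _).trans (hF.grad (Classical.arbitrary D) 0)
  have hdF : ∀ x, Continuous (pd x F) := fun x => eb_pd_cont (hF.temp.1.of_le (by simp)) x
  have hcw : ∀ x, Continuous (w x) := fun x => (hw x).continuous
  refine ec_diff hW.temp.1.continuous hW.nonneg
    (continuous_finsetSum _ fun x _ => (hdF x).mul (hcw x))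
    (continuous_finsetSum _ fun x _ => (hdF x).mul (hτ.continuous.comp (hcw x)))
    (by positivity) ?_
  calc ∫⁻ h in K D b, ENNReal.ofReal |∑ x, pd x F h * w x h - ∑ x, pd x F h * τ (w x h)|
      ≤ ∫⁻ h in K D b, ∑ x, ENNReal.ofReal (C * (2 / M)) * ENNReal.ofReal ((w x h) ^ 2) := by
        refine lintegral_mono fun h => ?_
        have e1 : ∀ x : D, ENNReal.ofReal (C * (2 / M)) * ENNReal.ofReal ((w x h) ^ 2) =
            ENNReal.ofReal (C * (2 / M) * (w x h) ^ 2) := fun x =>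
          (ENNReal.ofReal_mul (by positivity)).symm
        simp only [e1]
        rw [← ENNReal.ofReal_sum_of_nonneg fun x _ => by positivity]
        refine ENNReal.ofReal_le_ofReal ?_
        rw [← Finset.sum_sub_distrib]
        refine (Finset.abs_sum_le_sum_abs _ _).trans (Finset.sum_le_sum fun x _ => ?_)
        rw [← mul_sub, abs_mul, mul_assoc]
        refine mul_le_mul (hF.grad x h) ?_ (abs_nonneg _) hC
        by_cases hle : |w x h| ≤ M
        · rw [h1 _ hle, sub_self, abs_zero]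
          positivity
        · have hlt : M < |w x h| := not_le.1 hle
          calc |w x h - τ (w x h)| ≤ |w x h| + |τ (w x h)| := abs_sub _ _
            _ ≤ 2 * |w x h| := by linarith [h0 (w x h)]
            _ ≤ 2 / M * (w x h) ^ 2 := by
              rw [div_mul_eq_mul_div, le_div_iff₀ hM, ← sq_abs]
              nlinarith [abs_nonneg (w x h)]
    _ = ∑ x, ENNReal.ofReal (C * (2 / M)) * ∫⁻ h in K D b, ENNReal.ofReal ((w x h) ^ 2) := by
        rw [lintegral_finsetSum]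
        · exact Finset.sum_congr rfl fun x _ => lintegral_const_mul' _ _ ENNReal.ofReal_ne_top
        · intro x _
          exact (((hcw x).pow 2).measurable.ennreal_ofReal).const_mul _
    _ ≤ ∑ _x : D, ENNReal.ofReal (C * (2 / M) * B) := by
        refine Finset.sum_le_sum fun x _ => ?_
        rw [ENNReal.ofReal_mul (p := C * (2 / M)) (by positivity)]
        exact mul_le_mul_right (hL x) _
    _ = ENNReal.ofReal (2 * C * (D.card : ℝ) * B / M) := by
        rw [← ENNReal.ofReal_sum_of_nonneg fun x _ => by positivity]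
        rw [Finset.sum_const, Finset.card_univ, Fintype.card_coe, nsmul_eq_mul]
        congr 1
        ring

/- END ec -/

/- MODULE ed
Multiplication by a scalar `χ` with values in `[0, 1]`: `gr (χ w) ≤ (1 + θ) gr w + (1 + 1/θ) w^2 gr χ`,
`df (χ w) = χ df w`, and the linear term changes by at most `C |D| M vol{χ ≠ 1}`. -/

private theorem ed_young {θ : ℝ} (hθ : 0 < θ) (a b : ℝ) :
    (a + b) ^ 2 ≤ (1 + θ) * b ^ 2 + (1 + 1 / θ) * a ^ 2 := by
  have h1 : (1 + θ) * b ^ 2 + (1 + 1 / θ) * a ^ 2 - (a + b) ^ 2 = (θ * b - a) ^ 2 / θ := by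
    field_simp
    ring
  have h2 : 0 ≤ (θ * b - a) ^ 2 / θ := by positivity
  linarith

private theorem ed_g0 {D : Finset (ℤ × ℤ)} (c : ℝ) (k : D → ℝ) (z : ℤ × ℤ) :
    g0 D (fun y => c * k y) z = c * g0 D k z := by
  unfold g0 gl
  split_ifs with hz
  · rfl
  · rw [mul_zero]

private theorem ed_en {D : Finset (ℤ × ℤ)} {b : ℤ × ℤ → ℝ} {W f g q : (D → ℝ) → ℝ}
    (hW : Continuous W) (hW0 : ∀ h, 0 ≤ W h) (hf : Continuous f) (hg : Continuous g)
    (hq : Continuous q) (hq0 : ∀ h, 0 ≤ q h) {R θ : ℝ} (hR : 0 ≤ R)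
    (hle : ∀ h ∈ K D b, f h ≤ (1 + θ) * g h + q h)
    (h : ∫⁻ h in K D b, ENNReal.ofReal (q h) ≤ ENNReal.ofReal R) :
    EK D b W f ≤ (1 + θ) * EK D b W g + R := by
  have h1 : EK D b W f ≤ EK D b W (fun h => (1 + θ) * g h + q h) :=
    eb_mono hW hf ((continuous_const.mul hg).add hq) hle
  have h2 : EK D b W (fun h => (1 + θ) * g h + q h) = (1 + θ) * EK D b W g + EK D b W q := by
    unfold EK
    rw [← integral_const_mul, ← integral_add ((EK_int b hW hg).const_mul _) (EK_int b hW hq)]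
    refine integral_congr_ae (Filter.Eventually.of_forall fun x => ?_)
    simp only []
    ring
  have h3 : |EK D b W q - EK D b W (fun _ => 0)| ≤ R := by
    refine ec_diff hW hW0 hq continuous_const hR (le_trans (lintegral_mono fun x => ?_) h)
    rw [sub_zero, abs_of_nonneg (hq0 x)]
  have h4 : EK D b W (fun _ => 0) = 0 := by simp [EK]
  rw [h4, sub_zero] at h3
  linarith [(abs_le.1 h3).2]

private theorem ed_ind {D : Finset (ℤ × ℤ)} {b : ℤ × ℤ → ℝ} {g : (D → ℝ) → ℝ}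
    {A : Set (D → ℝ)} (hA : MeasurableSet A) {c η : ℝ} (hc : 0 ≤ c) (hη : 0 ≤ η)
    (h3 : volume {h | h ∈ K D b ∧ h ∈ A} ≤ ENNReal.ofReal η)
    (h1 : ∀ h ∈ K D b, |g h| ≤ c) (h2 : ∀ h ∈ K D b, h ∉ A → g h = 0) :
    ∫⁻ h in K D b, ENNReal.ofReal |g h| ≤ ENNReal.ofReal (c * η) := by
  calc ∫⁻ h in K D b, ENNReal.ofReal |g h|
      ≤ ∫⁻ h in K D b, A.indicator (fun _ => ENNReal.ofReal c) h := by
        refine setLIntegral_mono' (K_meas D b) fun h hh => ?_
        by_cases hA' : h ∈ A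
        · rw [indicator_of_mem hA']
          exact ENNReal.ofReal_le_ofReal (h1 h hh)
        · rw [h2 h hh hA', abs_zero, ENNReal.ofReal_zero]
          exact zero_le
    _ = ENNReal.ofReal c * volume (A ∩ K D b) := by
        rw [lintegral_indicator hA, setLIntegral_const, Measure.restrict_apply hA]
    _ ≤ ENNReal.ofReal c * ENNReal.ofReal η := by
        refine mul_le_mul_right (le_trans (measure_mono ?_) h3) _
        rintro h ⟨hh, hk⟩
        exact ⟨hk, hh⟩
    _ = ENNReal.ofReal (c * η) := (ENNReal.ofReal_mul hc).symm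

theorem scal_field {D : Finset (ℤ × ℤ)} {b : ℤ × ℤ → ℝ} {W F : (D → ℝ) → ℝ} (hW : Wok W) {C : ℝ}
    (hF : Fok F C) {χ : (D → ℝ) → ℝ} (hχ : ContDiff ℝ ∞ χ) (h01 : ∀ h, 0 ≤ χ h ∧ χ h ≤ 1)
    {η : ℝ} (hη : 0 ≤ η) (h2 : ∫⁻ h in K D b, ENNReal.ofReal (gr χ h) ≤ ENNReal.ofReal η)
    (h3 : volume {h | h ∈ K D b ∧ χ h ≠ 1} ≤ ENNReal.ofReal η) {w : D → (D → ℝ) → ℝ}
    (hw : ∀ x, ContDiff ℝ ∞ (w x)) {M : ℝ} (hM0 : 0 ≤ M)
    (hM : ∀ x, ∀ h ∈ K D b, |w x h| ≤ M) {θ : ℝ} (hθ : 0 < θ) :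
    EK D b W (fun h => ∑ x, gr (fun h => χ h * w x h) h) ≤
        (1 + θ) * EK D b W (fun h => ∑ x, gr (w x) h) + (1 + 1 / θ) * (D.card : ℝ) * M ^ 2 * η ∧
      |EK D b W (fun h => ∑ x, pd x F h * w x h) -
        EK D b W (fun h => ∑ x, pd x F h * (χ h * w x h))| ≤ C * (D.card : ℝ) * M * η ∧
      ∀ f ε, lay D b ε (fun x h => χ h * w x h) f ≤ lay D b ε w f := by
  have hηM : 0 ≤ (D.card : ℝ) * M ^ 2 * η := by positivity
  have hcχ := hχ.continuous
  have hcw : ∀ x, Continuous (w x) := fun x => (hw x).continuous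
  have hpt : ∀ x h, gr (fun h => χ h * w x h) h ≤
      (1 + θ) * gr (w x) h + (1 + 1 / θ) * ((w x h) ^ 2 * gr χ h) := by
    intro x h
    unfold gr
    rw [Finset.mul_sum, Finset.mul_sum, Finset.mul_sum, ← Finset.sum_add_distrib]
    refine Finset.sum_le_sum fun y _ => ?_
    rw [pd_mul (hχ.differentiable (by simp) h) ((hw x).differentiable (by simp) h)]
    have e1 : (pd y χ h * w x h + χ h * pd y (w x) h) ^ 2 ≤
        (1 + θ) * (χ h * pd y (w x) h) ^ 2 + (1 + 1 / θ) * (pd y χ h * w x h) ^ 2 :=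
      ed_young hθ _ _
    have e2 : (χ h * pd y (w x) h) ^ 2 ≤ (pd y (w x) h) ^ 2 := by
      rw [mul_pow]
      exact mul_le_of_le_one_left (sq_nonneg _) (pow_le_one₀ (h01 h).1 (h01 h).2)
    have e3 : (1 + θ) * (χ h * pd y (w x) h) ^ 2 ≤ (1 + θ) * (pd y (w x) h) ^ 2 :=
      mul_le_mul_of_nonneg_left e2 (by linarith)
    calc _ ≤ _ := e1
      _ ≤ (1 + θ) * (pd y (w x) h) ^ 2 + (1 + 1 / θ) * (pd y χ h * w x h) ^ 2 := by linarith
      _ = _ := by ring
  refine ⟨?_, ?_, ?_⟩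
  · have hc1 : ∀ x, Continuous (gr (fun h => χ h * w x h)) := fun x =>
      eb_gr_cont ((hχ.mul (hw x)).of_le (by simp))
    have hc2 : ∀ x, Continuous (gr (w x)) := fun x => eb_gr_cont ((hw x).of_le (by simp))
    have hc3 : Continuous (gr χ) := eb_gr_cont (hχ.of_le (by simp))
    refine ed_en hW.temp.1.continuous hW.nonneg (continuous_finsetSum _ fun x _ => hc1 x)
      (continuous_finsetSum _ fun x _ => hc2 x)
      (q := fun h => (1 + 1 / θ) * ((D.card : ℝ) * M ^ 2) * gr χ h)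
      (continuous_const.mul hc3) (fun h => mul_nonneg (by positivity) (eb_gr_nonneg _ _))
      (by positivity) ?_ ?_
    · intro h hh
      calc ∑ x, gr (fun h => χ h * w x h) h
          ≤ ∑ x : D, ((1 + θ) * gr (w x) h + (1 + 1 / θ) * (M ^ 2 * gr χ h)) := by
            refine Finset.sum_le_sum fun x _ => (hpt x h).trans ?_
            refine add_le_add le_rfl (mul_le_mul_of_nonneg_left
              (mul_le_mul_of_nonneg_right ?_ (eb_gr_nonneg _ _)) (by positivity))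
            rw [← sq_abs]
            exact pow_le_pow_left₀ (abs_nonneg _) (hM x h hh) 2
        _ = _ := by
            rw [Finset.sum_add_distrib, ← Finset.mul_sum, Finset.sum_const, Finset.card_univ,
              Fintype.card_coe, nsmul_eq_mul]
            ring
    · have e1 : ∀ h, ENNReal.ofReal ((1 + 1 / θ) * ((D.card : ℝ) * M ^ 2) * gr χ h) =
          ENNReal.ofReal ((1 + 1 / θ) * ((D.card : ℝ) * M ^ 2)) * ENNReal.ofReal (gr χ h) :=
        fun h => ENNReal.ofReal_mul (by positivity)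
      simp only [e1]
      rw [lintegral_const_mul' _ _ ENNReal.ofReal_ne_top]
      refine (mul_le_mul_right h2 _).trans ?_
      rw [← ENNReal.ofReal_mul (by positivity)]
      refine ENNReal.ofReal_le_ofReal (le_of_eq ?_)
      ring
  · rcases isEmpty_or_nonempty D with hD | hD
    · have h2 : (D.card : ℝ) = 0 := by
        have : D = ∅ := Finset.isEmpty_coe_sort.1 hD
        rw [this]; simp
      simp [EK, h2]
    have hC : 0 ≤ C := (abs_nonneg _).trans (hF.grad (Classical.arbitrary D) 0)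
    have hdF : ∀ x, Continuous (pd x F) := fun x => eb_pd_cont (hF.temp.1.of_le (by simp)) x
    refine ec_diff hW.temp.1.continuous hW.nonneg
      (continuous_finsetSum _ fun x _ => (hdF x).mul (hcw x))
      (continuous_finsetSum _ fun x _ => (hdF x).mul (hcχ.mul (hcw x)))
      (by positivity) ?_
    refine ed_ind (A := {h | χ h ≠ 1}) (isOpen_ne_fun hcχ continuous_const).measurableSet
      (c := C * (D.card : ℝ) * M) (by positivity) hη h3 ?_ ?_
    · intro h hh
      rw [← Finset.sum_sub_distrib]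
      calc |∑ x, (pd x F h * w x h - pd x F h * (χ h * w x h))|
          ≤ ∑ x : D, C * M := by
            refine (Finset.abs_sum_le_sum_abs _ _).trans (Finset.sum_le_sum fun x _ => ?_)
            have e1 : pd x F h * w x h - pd x F h * (χ h * w x h) =
                pd x F h * ((1 - χ h) * w x h) := by ring
            rw [e1, abs_mul, abs_mul]
            refine mul_le_mul (hF.grad x h) ?_ (by positivity) hC
            calc |1 - χ h| * |w x h| ≤ 1 * M :=
                  mul_le_mul (abs_le.2 ⟨by linarith [(h01 h).2], by linarith [(h01 h).1]⟩)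
                    (hM x h hh) (abs_nonneg _) zero_le_one
              _ = M := one_mul _
        _ = C * (D.card : ℝ) * M := by
            rw [Finset.sum_const, Finset.card_univ, Fintype.card_coe, nsmul_eq_mul]
            ring
    · intro h hh hne
      have e2 : χ h = 1 := by
        by_contra hc
        exact hne hc
      simp [e2]
  · intro f ε
    unfold lay
    refine setLIntegral_mono' (ea_meas D b f ε) fun h _ => ENNReal.ofReal_le_ofReal ?_
    have e1 : df D (fun x h => χ h * w x h) f h = χ h * df D w f h := by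
      unfold df
      rw [ed_g0, ed_g0]
      ring
    rw [e1, mul_pow]
    exact mul_le_of_le_one_left (sq_nonneg _) (pow_le_one₀ (h01 h).1 (h01 h).2)

/- END ed -/

/- MODULE ee
Properties of `Pj` for `p = sp D f`, `f ∈ Fa D` (so `p` has one or two elements, all in `D`): it is
linear, a contraction in `ℓ²`, and the distance of `k` to `Pj k` is at most the difference along
`f`; `Pj k` is tied along `f`. -/

private theorem ee_cases {D : Finset (ℤ × ℤ)} {f : (ℤ × ℤ) × Fin 6 × Bool} (hf : f ∈ Fa D) :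
    f.1 ∈ D ∧ ((f.1 + st f.2.1 ∉ D ∧ sp D f = {f.1}) ∨
      (f.1 + st f.2.1 ∈ D ∧ f.1 ≠ f.1 + st f.2.1 ∧ sp D f = {f.1, f.1 + st f.2.1})) := by
  have hx : f.1 ∈ D := (Finset.mem_product.1 hf).1
  have hne : f.1 ≠ f.1 + st f.2.1 := by
    intro hh
    exact st_ne f.2.1 (left_eq_add.1 hh)
  refine ⟨hx, ?_⟩
  by_cases hy : f.1 + st f.2.1 ∈ D
  · right
    refine ⟨hy, hne, ?_⟩
    unfold sp
    rw [Finset.inter_eq_left]
    intro z hz
    rcases Finset.mem_insert.1 hz with rfl | hz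
    · exact hx
    · rw [Finset.mem_singleton.1 hz]
      exact hy
  · left
    refine ⟨hy, ?_⟩
    unfold sp
    ext z
    simp only [Finset.mem_inter, Finset.mem_insert, Finset.mem_singleton]
    constructor
    · rintro ⟨rfl | rfl, h2⟩
      · rfl
      · exact absurd h2 hy
    · rintro rfl
      exact ⟨Or.inl rfl, hx⟩

private theorem ee_one {D : Finset (ℤ × ℤ)} (x : ℤ × ℤ) (k : D → ℝ) (z : D) :
    Pj D {x} k z = if z.1 = x then 0 else k z := by
  unfold Pj
  simp only [Finset.mem_singleton, Finset.card_singleton, if_true]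

private theorem ee_two {D : Finset (ℤ × ℤ)} {x y : ℤ × ℤ} (hxy : x ≠ y) (hx : x ∈ D) (hy : y ∈ D)
    (k : D → ℝ) (z : D) :
    Pj D {x, y} k z = if z.1 = x ∨ z.1 = y then (k ⟨x, hx⟩ + k ⟨y, hy⟩) / 2 else k z := by
  unfold Pj
  have h1 : ({x, y} : Finset (ℤ × ℤ)).card = 2 := Finset.card_pair hxy
  simp only [Finset.mem_insert, Finset.mem_singleton, h1]
  rw [Finset.sum_pair hxy]
  unfold g0
  rw [gl_mem hx, gl_mem hy]
  norm_num

private theorem ee_sum_one {D : Finset (ℤ × ℤ)} {G : D → ℝ} (X : D)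
    (h : ∀ z, z ≠ X → G z = 0) : ∑ z, G z = G X :=
  Finset.sum_eq_single X (fun z _ hz => h z hz) (fun h => absurd (Finset.mem_univ _) h)

private theorem ee_sum_two {D : Finset (ℤ × ℤ)} {G : D → ℝ} (X Y : D) (hXY : X ≠ Y)
    (h : ∀ z, z ≠ X → z ≠ Y → G z = 0) : ∑ z, G z = G X + G Y := by
  classical
  rw [← Finset.sum_pair hXY]
  refine (Finset.sum_subset (Finset.subset_univ _) fun z _ hz => ?_).symm
  refine h z (fun hh => hz ?_) (fun hh => hz ?_)
  · rw [hh]; exact Finset.mem_insert_self _ _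
  · rw [hh]; exact Finset.mem_insert_of_mem (Finset.mem_singleton_self _)

theorem Pj_props {D : Finset (ℤ × ℤ)} {f : (ℤ × ℤ) × Fin 6 × Bool} (hf : f ∈ Fa D) (k : D → ℝ) :
    ∑ x, (k x - Pj D (sp D f) k x) ^ 2 ≤ (g0 D k f.1 - g0 D k (f.1 + st f.2.1)) ^ 2 ∧
      g0 D (Pj D (sp D f) k) f.1 = g0 D (Pj D (sp D f) k) (f.1 + st f.2.1) := by
  obtain ⟨hx, h1 | ⟨hy, hxy, h1⟩⟩ := ee_cases hf
  · obtain ⟨hy, h1⟩ := h1
    rw [h1]
    constructor
    · rw [ee_sum_one (G := fun x => (k x - Pj D {f.1} k x) ^ 2) ⟨f.1, hx⟩]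
      · rw [ee_one, if_pos rfl]
        unfold g0
        rw [gl_mem hx, gl_not_mem hy]
      · intro z hz
        rw [ee_one, if_neg (fun hh => hz (Subtype.ext hh)), sub_self]
        norm_num
    · unfold g0
      rw [gl_mem hx, gl_not_mem hy, ee_one, if_pos rfl]
  · rw [h1]
    constructor
    · rw [ee_sum_two (G := fun x => (k x - Pj D {f.1, f.1 + st f.2.1} k x) ^ 2) ⟨f.1, hx⟩
        ⟨f.1 + st f.2.1, hy⟩ (fun hh => hxy (congrArg Subtype.val hh))]
      · rw [ee_two hxy hx hy, ee_two hxy hx hy, if_pos (Or.inl rfl), if_pos (Or.inr rfl)]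
        unfold g0
        rw [gl_mem hx, gl_mem hy]
        nlinarith [sq_nonneg (k ⟨f.1, hx⟩ - k ⟨f.1 + st f.2.1, hy⟩)]
      · intro z hz hz'
        rw [ee_two hxy hx hy, if_neg, sub_self]
        · norm_num
        · rintro (hh | hh)
          · exact hz (Subtype.ext hh)
          · exact hz' (Subtype.ext hh)
    · unfold g0
      rw [gl_mem hx, gl_mem hy, ee_two hxy hx hy, ee_two hxy hx hy, if_pos (Or.inl rfl),
        if_pos (Or.inr rfl)]

theorem Pj_contr {D p : Finset (ℤ × ℤ)} {f : (ℤ × ℤ) × Fin 6 × Bool} (hf : f ∈ Fa D) (m : ℝ)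
    (h0 : 0 ≤ m) (h1 : m ≤ 1) (k : D → ℝ) :
    ∑ x, (m * k x + (1 - m) * Pj D (sp D f) k x) ^ 2 ≤ ∑ x, (k x) ^ 2 := by
  rw [← sub_nonneg, ← Finset.sum_sub_distrib]
  obtain ⟨hx, ⟨hy, h2⟩ | ⟨hy, hxy, h2⟩⟩ := ee_cases hf
  · rw [h2, ee_sum_one (G := fun x => (k x) ^ 2 - (m * k x + (1 - m) * Pj D {f.1} k x) ^ 2)
      ⟨f.1, hx⟩]
    · rw [ee_one, if_pos rfl, mul_zero, add_zero, mul_pow]
      have : m ^ 2 ≤ 1 := pow_le_one₀ h0 h1
      nlinarith [sq_nonneg (k ⟨f.1, hx⟩)]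
    · intro z hz
      rw [ee_one, if_neg (fun hh => hz (Subtype.ext hh))]
      ring
  · rw [h2, ee_sum_two (G := fun x => (k x) ^ 2 -
      (m * k x + (1 - m) * Pj D {f.1, f.1 + st f.2.1} k x) ^ 2) ⟨f.1, hx⟩
        ⟨f.1 + st f.2.1, hy⟩ (fun hh => hxy (congrArg Subtype.val hh))]
    · rw [ee_two hxy hx hy, ee_two hxy hx hy, if_pos (Or.inl rfl), if_pos (Or.inr rfl)]
      have h3 : m ^ 2 ≤ 1 := pow_le_one₀ h0 h1
      have h4 := mul_nonneg (sub_nonneg.2 h3)
        (sq_nonneg (k ⟨f.1, hx⟩ - k ⟨f.1 + st f.2.1, hy⟩))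
      nlinarith
    · intro z hz hz'
      rw [ee_two hxy hx hy, if_neg]
      · ring
      · rintro (hh | hh)
        · exact hz (Subtype.ext hh)
        · exact hz' (Subtype.ext hh)

theorem Pj_bdd {D : Finset (ℤ × ℤ)} {f : (ℤ × ℤ) × Fin 6 × Bool} (hf : f ∈ Fa D) {k : D → ℝ}
    {M : ℝ} (hk : ∀ x, |k x| ≤ M) (x : D) : |Pj D (sp D f) k x| ≤ M := by
  have hM : 0 ≤ M := (abs_nonneg _).trans (hk x)
  obtain ⟨hx, ⟨hy, h2⟩ | ⟨hy, hxy, h2⟩⟩ := ee_cases hf
  · rw [h2, ee_one]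
    split_ifs
    · rw [abs_zero]; exact hM
    · exact hk x
  · rw [h2, ee_two hxy hx hy]
    split_ifs
    · have a1 := abs_le.1 (hk ⟨f.1, hx⟩)
      have a2 := abs_le.1 (hk ⟨f.1 + st f.2.1, hy⟩)
      rw [abs_le]
      constructor <;> linarith [a1.1, a1.2, a2.1, a2.2]
    · exact hk x

/- END ee -/

/-- the modified field -/
def stp (D : Finset (ℤ × ℤ)) (p : Finset (ℤ × ℤ)) (m : (D → ℝ) → ℝ) (w : D → (D → ℝ) → ℝ) (x : D)
    (h : D → ℝ) : ℝ := m h * w x h + (1 - m h) * Pj D p (fun y => w y h) x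

/- MODULE ef
`D stp_x = m D w_x + (1 - m) Pj (D w)_x + (D m) (w_x - Pj w_x)`; for every direction `y` use
`Pj_contr` with `k = (pd y (w x))_x` and `Pj_props`. -/

private theorem ef_g0 {D : Finset (ℤ × ℤ)} {w : D → (D → ℝ) → ℝ}
    (hw : ∀ x, ContDiff ℝ ∞ (w x)) (z : ℤ × ℤ) :
    ContDiff ℝ ∞ (fun h => g0 D (fun y => w y h) z) := by
  unfold g0 gl
  split_ifs with hz
  · exact hw _
  · exact contDiff_const

private theorem ef_Pj {D p : Finset (ℤ × ℤ)} {w : D → (D → ℝ) → ℝ}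
    (hw : ∀ x, ContDiff ℝ ∞ (w x)) (x : D) :
    ContDiff ℝ ∞ (fun h => Pj D p (fun y => w y h) x) := by
  unfold Pj
  split_ifs
  · exact contDiff_const
  · exact (ContDiff.sum fun z _ => ef_g0 hw z).div_const _
  · exact hw x

private theorem ef_g0_pd {D : Finset (ℤ × ℤ)} {w : D → (D → ℝ) → ℝ} (y : D) (h : D → ℝ)
    (z : ℤ × ℤ) :
    pd y (fun h => g0 D (fun y => w y h) z) h = g0 D (fun z => pd y (w z) h) z := by
  unfold g0 gl
  split_ifs with hz
  · rfl
  · simp [pd]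

private theorem ef_Pj_pd {D p : Finset (ℤ × ℤ)} {w : D → (D → ℝ) → ℝ}
    (hw : ∀ x, ContDiff ℝ ∞ (w x)) (x y : D) (h : D → ℝ) :
    pd y (fun h => Pj D p (fun z => w z h) x) h = Pj D p (fun z => pd y (w z) h) x := by
  unfold Pj
  split_ifs
  · simp [pd]
  · have h1 : HasFDerivAt (fun h => (∑ z ∈ p, g0 D (fun y => w y h) z) / (p.card : ℝ))
        ((p.card : ℝ)⁻¹ • ∑ z ∈ p, fderiv ℝ (fun h => g0 D (fun y => w y h) z) h) h := by
      have h2 : HasFDerivAt (fun h => ∑ z ∈ p, g0 D (fun y => w y h) z)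
          (∑ z ∈ p, fderiv ℝ (fun h => g0 D (fun y => w y h) z) h) h :=
        HasFDerivAt.fun_sum fun z _ =>
          ((ef_g0 hw z).differentiable (by simp) h).hasFDerivAt
      have h3 := h2.const_smul ((p.card : ℝ)⁻¹)
      refine h3.congr_of_eventuallyEq (Filter.Eventually.of_forall fun k => ?_)
      simp only [Pi.smul_apply, smul_eq_mul]
      rw [div_eq_inv_mul]
    unfold pd
    rw [h1.fderiv]
    simp only [ContinuousLinearMap.smul_apply, ContinuousLinearMap.sum_apply, smul_eq_mul]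
    rw [div_eq_inv_mul]
    congr 1
    exact Finset.sum_congr rfl fun z _ => ef_g0_pd y h z
  · rfl

theorem stp_smooth {D : Finset (ℤ × ℤ)} (p : Finset (ℤ × ℤ)) {m : (D → ℝ) → ℝ}
    (hm : ContDiff ℝ ∞ m) {w : D → (D → ℝ) → ℝ} (hw : ∀ x, ContDiff ℝ ∞ (w x)) (x : D) :
    ContDiff ℝ ∞ (stp D p m w x) := by
  exact (hm.mul (hw x)).add ((contDiff_const.sub hm).mul (ef_Pj hw x))

theorem stp_gr {D : Finset (ℤ × ℤ)} {f : (ℤ × ℤ) × Fin 6 × Bool} (hf : f ∈ Fa D)
    {m : (D → ℝ) → ℝ} (hm : ContDiff ℝ ∞ m) (h01 : ∀ h, 0 ≤ m h ∧ m h ≤ 1)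
    {w : D → (D → ℝ) → ℝ} (hw : ∀ x, ContDiff ℝ ∞ (w x)) {θ : ℝ} (hθ : 0 < θ) (h : D → ℝ) :
    ∑ x, gr (stp D (sp D f) m w x) h ≤
      (1 + θ) * ∑ x, gr (w x) h + (1 + 1 / θ) * gr m h * (df D w f h) ^ 2 := by
  have hpd : ∀ x y : D, pd y (stp D (sp D f) m w x) h =
      pd y m h * (w x h - Pj D (sp D f) (fun z => w z h) x) +
      (m h * pd y (w x) h + (1 - m h) * Pj D (sp D f) (fun z => pd y (w z) h) x) := by
    intro x y
    have h1 : HasFDerivAt (stp D (sp D f) m w x)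
        ((m h • fderiv ℝ (w x) h + w x h • fderiv ℝ m h) +
          ((1 - m h) • fderiv ℝ (fun h => Pj D (sp D f) (fun y => w y h) x) h +
            Pj D (sp D f) (fun y => w y h) x • (- fderiv ℝ m h))) h := by
      have e1 := (hm.differentiable (by simp) h).hasFDerivAt
      have e2 := ((hw x).differentiable (by simp) h).hasFDerivAt
      have e3 := ((ef_Pj (p := sp D f) hw x).differentiable (by simp) h).hasFDerivAt
      exact (e1.mul e2).add ((e1.const_sub 1).mul e3)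
    have h2 := ef_Pj_pd (p := sp D f) hw x y h
    rw [← h2]
    unfold pd
    rw [h1.fderiv]
    simp only [ContinuousLinearMap.add_apply, ContinuousLinearMap.smul_apply,
      ContinuousLinearMap.neg_apply, smul_eq_mul]
    ring
  have hy : ∀ y : D, ∑ x, (pd y (stp D (sp D f) m w x) h) ^ 2 ≤
      (1 + θ) * ∑ x, (pd y (w x) h) ^ 2 +
        (1 + 1 / θ) * ((pd y m h) ^ 2 * (df D w f h) ^ 2) := by
    intro y
    calc ∑ x, (pd y (stp D (sp D f) m w x) h) ^ 2
        ≤ ∑ x, ((1 + θ) * (m h * pd y (w x) h +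
            (1 - m h) * Pj D (sp D f) (fun z => pd y (w z) h) x) ^ 2 +
            (1 + 1 / θ) * ((pd y m h) ^ 2 *
              (w x h - Pj D (sp D f) (fun z => w z h) x) ^ 2)) := by
          refine Finset.sum_le_sum fun x _ => ?_
          rw [hpd, ← mul_pow (pd y m h)]
          exact ed_young hθ _ _
      _ = (1 + θ) * ∑ x, (m h * pd y (w x) h +
            (1 - m h) * Pj D (sp D f) (fun z => pd y (w z) h) x) ^ 2 +
            (1 + 1 / θ) * ((pd y m h) ^ 2 *
              ∑ x, (w x h - Pj D (sp D f) (fun z => w z h) x) ^ 2) := by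
          rw [Finset.sum_add_distrib, ← Finset.mul_sum, ← Finset.mul_sum, ← Finset.mul_sum]
      _ ≤ _ := by
          have e1 := Pj_contr (p := sp D f) hf (m h) (h01 h).1 (h01 h).2
            (fun z => pd y (w z) h)
          have e2 := (Pj_props hf (fun z => w z h)).1
          have e3 : (df D w f h) ^ 2 = (g0 D (fun z => w z h) f.1 -
            g0 D (fun z => w z h) (f.1 + st f.2.1)) ^ 2 := rfl
          rw [e3]
          have hθ1 : 0 ≤ 1 + θ := by linarith
          have hθ2 : 0 ≤ 1 + 1 / θ := by positivity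
          gcongr
  have hsum : ∀ v : D → (D → ℝ) → ℝ, ∑ x, gr (v x) h = ∑ y, ∑ x, (pd y (v x) h) ^ 2 := by
    intro v
    unfold gr
    exact Finset.sum_comm
  rw [hsum, hsum]
  calc ∑ y, ∑ x, (pd y (stp D (sp D f) m w x) h) ^ 2
      ≤ ∑ y, ((1 + θ) * ∑ x, (pd y (w x) h) ^ 2 +
        (1 + 1 / θ) * ((pd y m h) ^ 2 * (df D w f h) ^ 2)) :=
        Finset.sum_le_sum fun y _ => hy y
    _ = _ := by
        rw [Finset.sum_add_distrib, ← Finset.mul_sum, ← Finset.mul_sum, ← Finset.sum_mul]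
        unfold gr
        ring

/- END ef -/

/- MODULE eg
The cut-off of the facets with support `p = sp D f₀`.  `μ (t) = (1 / J) ∑_{j<J} θ (t / δ_j)`,
`δ_j = 2^(-j) δ_0`, `m = ∏_{f ∈ Fa D, sp D f = p} μ (sl D b f)`.  `μ = 0` for `t ≤ δ_{J-1}`,
`μ = 1` for `t ≥ 2 δ_0`, `|μ'(t)|^2 ≤ (4 C^2 / J^2) ∑_j δ_j^(-2) 1_{t ≤ 2 δ_j}`.  Hence, with
`layer_ineq` for `g = df w f` (for facets with the same support `(df f)^2` is the same on `K`):
`∫_K gr m (df)^2 ≤ C_D / J^2 ∑_j (16 ∫_K gr (df) + (4 / (δ_j ε)) ∑ lay)`. -/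

private theorem eg_mu {θ : ℝ → ℝ} {C : ℝ} (hθs : ContDiff ℝ ∞ θ) (hθ0 : ∀ r, r ≤ 1 → θ r = 0)
    (hθ1 : ∀ r, 2 ≤ r → θ r = 1) (hθ01 : ∀ r, 0 ≤ θ r ∧ θ r ≤ 1) (hθd : ∀ r, |deriv θ r| ≤ C)
    {δ : ℝ} (hδ : 0 < δ) {J : ℕ} (hJ : 0 < J) :
    ∃ μ : ℝ → ℝ, ContDiff ℝ ∞ μ ∧ (∀ t, 0 ≤ μ t ∧ μ t ≤ 1) ∧ (∀ t, t ≤ δ / 2 ^ J → μ t = 0) ∧
      (∀ t, 2 * δ ≤ t → μ t = 1) ∧ ∀ t, (deriv μ t) ^ 2 ≤ C ^ 2 / (J : ℝ) ^ 2 *
        ∑ j ∈ Finset.range J, if t ≤ 2 * (δ / 2 ^ j) then 1 / (δ / 2 ^ j) ^ 2 else 0 := by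
  have hJ0 : (0 : ℝ) < J := Nat.cast_pos.2 hJ
  have hδj : ∀ j : ℕ, 0 < δ / 2 ^ j := fun j => by positivity
  have hd1 : ∀ u, u ≤ 1 → deriv θ u = 0 := by
    intro u hu
    refine IsLocalMin.deriv_eq_zero (Filter.Eventually.of_forall fun v => ?_)
    rw [hθ0 u hu]
    exact (hθ01 v).1
  have hd2 : ∀ u, 2 ≤ u → deriv θ u = 0 := by
    intro u hu
    refine IsLocalMax.deriv_eq_zero (Filter.Eventually.of_forall fun v => ?_)
    rw [hθ1 u hu]
    exact (hθ01 v).2
  refine ⟨fun t => (∑ j ∈ Finset.range J, θ (t / (δ / 2 ^ j))) / J, ?_, ?_, ?_, ?_, ?_⟩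
  · exact (ContDiff.sum fun j _ => hθs.comp (contDiff_id.div_const _)).div_const _
  · intro t
    refine ⟨div_nonneg (Finset.sum_nonneg fun j _ => (hθ01 _).1) hJ0.le, ?_⟩
    rw [div_le_one hJ0]
    calc ∑ j ∈ Finset.range J, θ (t / (δ / 2 ^ j)) ≤ ∑ _j ∈ Finset.range J, (1 : ℝ) :=
          Finset.sum_le_sum fun j _ => (hθ01 _).2
      _ = J := by simp
  · intro t ht
    have : ∑ j ∈ Finset.range J, θ (t / (δ / 2 ^ j)) = 0 := by
      refine Finset.sum_eq_zero fun j hj => hθ0 _ ?_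
      rw [div_le_one (hδj j)]
      exact ht.trans (div_le_div_of_nonneg_left hδ.le (by positivity)
        (pow_le_pow_right₀ (by norm_num) (Finset.mem_range.1 hj).le))
    simp only [this, zero_div]
  · intro t ht
    have : ∑ j ∈ Finset.range J, θ (t / (δ / 2 ^ j)) = J := by
      have h1 : ∀ j ∈ Finset.range J, θ (t / (δ / 2 ^ j)) = 1 := by
        intro j _
        refine hθ1 _ ?_
        rw [le_div_iff₀ (hδj j)]
        have : δ / 2 ^ j ≤ δ := div_le_self hδ.le (one_le_pow₀ (by norm_num))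
        linarith
      rw [Finset.sum_congr rfl h1]
      simp
    simp only [this]
    exact div_self hJ0.ne'
  · intro t
    have hder : deriv (fun t => (∑ j ∈ Finset.range J, θ (t / (δ / 2 ^ j))) / J) t =
        (∑ j ∈ Finset.range J, deriv θ (t / (δ / 2 ^ j)) / (δ / 2 ^ j)) / J := by
      refine HasDerivAt.deriv ?_
      refine HasDerivAt.div_const ?_ _
      refine HasDerivAt.fun_sum fun j _ => ?_
      have e1 : HasDerivAt θ (deriv θ (t / (δ / 2 ^ j))) (t / (δ / 2 ^ j)) :=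
        (hθs.differentiable (by simp) _).hasDerivAt
      have e2 : HasDerivAt (fun t : ℝ => t / (δ / 2 ^ j)) (1 / (δ / 2 ^ j)) t :=
        (hasDerivAt_id t).div_const _
      have e3 := e1.comp t e2
      rw [mul_one_div] at e3
      exact e3
    rw [hder, div_pow]
    have hkey : (∑ j ∈ Finset.range J, deriv θ (t / (δ / 2 ^ j)) / (δ / 2 ^ j)) ^ 2 ≤
        ∑ j ∈ Finset.range J, (deriv θ (t / (δ / 2 ^ j)) / (δ / 2 ^ j)) ^ 2 := by
      by_cases hex : ∃ j ∈ Finset.range J, deriv θ (t / (δ / 2 ^ j)) ≠ 0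
      · obtain ⟨j₀, hj₀, hne⟩ := hex
        have hb1 : 1 < t / (δ / 2 ^ j₀) := by
          by_contra hcon
          exact hne (hd1 _ (not_lt.1 hcon))
        have hb2 : t / (δ / 2 ^ j₀) < 2 := by
          by_contra hcon
          exact hne (hd2 _ (not_lt.1 hcon))
        rw [lt_div_iff₀ (hδj j₀)] at hb1
        rw [div_lt_iff₀ (hδj j₀)] at hb2
        have hz : ∀ j ∈ Finset.range J, j ≠ j₀ →
            deriv θ (t / (δ / 2 ^ j)) / (δ / 2 ^ j) = 0 := by
          intro j _ hj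
          rcases lt_or_gt_of_ne hj with hlt | hlt
          · rw [hd1, zero_div]
            rw [div_le_one (hδj j)]
            have e1 : 2 * (δ / 2 ^ j₀) ≤ δ / 2 ^ j := by
              have e2 : (2 : ℝ) ^ (j + 1) ≤ 2 ^ j₀ := pow_le_pow_right₀ (by norm_num) hlt
              calc 2 * (δ / 2 ^ j₀) ≤ 2 * (δ / 2 ^ (j + 1)) := by
                    refine mul_le_mul_of_nonneg_left ?_ (by norm_num)
                    exact div_le_div_of_nonneg_left hδ.le (by positivity) e2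
                _ = δ / 2 ^ j := by rw [pow_succ]; field_simp
            linarith
          · rw [hd2, zero_div]
            rw [le_div_iff₀ (hδj j)]
            have e1 : 2 * (δ / 2 ^ j) ≤ δ / 2 ^ j₀ := by
              have e2 : (2 : ℝ) ^ (j₀ + 1) ≤ 2 ^ j := pow_le_pow_right₀ (by norm_num) hlt
              calc 2 * (δ / 2 ^ j) ≤ 2 * (δ / 2 ^ (j₀ + 1)) := by
                    refine mul_le_mul_of_nonneg_left ?_ (by norm_num)
                    exact div_le_div_of_nonneg_left hδ.le (by positivity) e2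
                _ = δ / 2 ^ j₀ := by rw [pow_succ]; field_simp
            linarith
        rw [Finset.sum_eq_single j₀ (fun j hj hne' => hz j hj hne')
          (fun hcon => absurd hj₀ hcon)]
        exact Finset.single_le_sum (f := fun j =>
          (deriv θ (t / (δ / 2 ^ j)) / (δ / 2 ^ j)) ^ 2) (fun _ _ => sq_nonneg _) hj₀
      · push Not at hex
        have : ∑ j ∈ Finset.range J, deriv θ (t / (δ / 2 ^ j)) / (δ / 2 ^ j) = 0 :=
          Finset.sum_eq_zero fun j hj => by rw [hex j hj, zero_div]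
        rw [this]
        norm_num
        exact Finset.sum_nonneg fun _ _ => sq_nonneg _
    calc (∑ j ∈ Finset.range J, deriv θ (t / (δ / 2 ^ j)) / (δ / 2 ^ j)) ^ 2 / (J : ℝ) ^ 2
        ≤ (∑ j ∈ Finset.range J, C ^ 2 * if t ≤ 2 * (δ / 2 ^ j) then 1 / (δ / 2 ^ j) ^ 2
            else 0) / (J : ℝ) ^ 2 := by
          refine div_le_div_of_nonneg_right (hkey.trans (Finset.sum_le_sum fun j _ => ?_))
            (by positivity)
          split_ifs with hle
          · rw [div_pow, mul_one_div]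
            refine div_le_div_of_nonneg_right ?_ (by positivity)
            rw [← sq_abs]
            exact pow_le_pow_left₀ (abs_nonneg _) (hθd _) 2
          · rw [hd2, zero_div]
            · norm_num
            · rw [le_div_iff₀ (hδj j)]
              exact (not_le.1 hle).le
      _ = _ := by
          rw [← Finset.mul_sum]
          ring

private theorem eg_prod_pd {ι κ : Type*} [Fintype ι] [DecidableEq ι] [DecidableEq κ]
    (S : Finset κ) {g : κ → (ι → ℝ) → ℝ} (hg : ∀ i, ContDiff ℝ ∞ (g i))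
    (h01 : ∀ i h, 0 ≤ g i h ∧ g i h ≤ 1) (y : ι) (h : ι → ℝ) :
    |pd y (fun h => ∏ i ∈ S, g i h) h| ≤ ∑ i ∈ S, |pd y (g i) h| := by
  induction S using Finset.induction_on with
  | empty => simp [pd]
  | insert a S ha ih =>
    have e1 : (fun h => ∏ i ∈ insert a S, g i h) = fun h => g a h * ∏ i ∈ S, g i h := by
      funext h
      rw [Finset.prod_insert ha]
    rw [e1, Finset.sum_insert ha, pd_mul ((hg a).differentiable (by simp) h)
      ((contDiff_prod fun i _ => hg i).differentiable (by simp) h)]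
    have e2 : |∏ i ∈ S, g i h| ≤ 1 := by
      rw [abs_of_nonneg (Finset.prod_nonneg fun i _ => (h01 i h).1)]
      exact Finset.prod_le_one (fun i _ => (h01 i h).1) fun i _ => (h01 i h).2
    have e3 : |g a h| ≤ 1 := by
      rw [abs_of_nonneg (h01 a h).1]
      exact (h01 a h).2
    calc |pd y (g a) h * ∏ i ∈ S, g i h + g a h * pd y (fun h => ∏ i ∈ S, g i h) h|
        ≤ |pd y (g a) h| * |∏ i ∈ S, g i h| + |g a h| * |pd y (fun h => ∏ i ∈ S, g i h) h| := by
          rw [← abs_mul, ← abs_mul]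
          exact abs_add_le _ _
      _ ≤ |pd y (g a) h| * 1 + 1 * ∑ i ∈ S, |pd y (g i) h| := by
          refine add_le_add (mul_le_mul_of_nonneg_left e2 (abs_nonneg _)) ?_
          exact mul_le_mul e3 ih (abs_nonneg _) zero_le_one
      _ = _ := by ring

private theorem eg_prod {ι κ : Type*} [Fintype ι] [DecidableEq ι] [DecidableEq κ]
    (S : Finset κ) {g : κ → (ι → ℝ) → ℝ} (hg : ∀ i, ContDiff ℝ ∞ (g i))
    (h01 : ∀ i h, 0 ≤ g i h ∧ g i h ≤ 1) (h : ι → ℝ) :
    gr (fun h => ∏ i ∈ S, g i h) h ≤ (S.card : ℝ) * ∑ i ∈ S, gr (g i) h := by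
  calc gr (fun h => ∏ i ∈ S, g i h) h
      ≤ ∑ y, (S.card : ℝ) * ∑ i ∈ S, (pd y (g i) h) ^ 2 := by
        refine Finset.sum_le_sum fun y _ => ?_
        rw [← sq_abs]
        calc |pd y (fun h => ∏ i ∈ S, g i h) h| ^ 2
            ≤ (∑ i ∈ S, |pd y (g i) h|) ^ 2 :=
              pow_le_pow_left₀ (abs_nonneg _) (eg_prod_pd S hg h01 y h) 2
          _ ≤ (S.card : ℝ) * ∑ i ∈ S, |pd y (g i) h| ^ 2 := sq_sum_le_card_mul_sum_sq
          _ = _ := by simp only [sq_abs]
    _ = _ := by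
        rw [← Finset.mul_sum, Finset.sum_comm]
        rfl

private theorem eg_df_zero {D : Finset (ℤ × ℤ)} {w : D → (D → ℝ) → ℝ} {h : D → ℝ}
    (hz : ∀ x, w x h = 0) (f : (ℤ × ℤ) × Fin 6 × Bool) : df D w f h = 0 := by
  have h1 : ∀ z, g0 D (fun y => w y h) z = 0 := by
    intro z
    unfold g0 gl
    split_ifs
    · exact hz _
    · rfl
  unfold df
  rw [h1, h1, sub_zero]

private theorem eg_df_sq {D : Finset (ℤ × ℤ)} {f f' : (ℤ × ℤ) × Fin 6 × Bool} (hf : f ∈ Fa D)
    (hf' : f' ∈ Fa D) (hs : sp D f' = sp D f) (w : D → (D → ℝ) → ℝ) (h : D → ℝ) :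
    (df D w f h) ^ 2 = (df D w f' h) ^ 2 := by
  have key : ∀ {f : (ℤ × ℤ) × Fin 6 × Bool}, f ∈ Fa D →
      (df D w f h) ^ 2 = if (sp D f).card = 1 then ∑ y ∈ sp D f, (g0 D (fun y => w y h) y) ^ 2
        else 2 * (∑ y ∈ sp D f, (g0 D (fun y => w y h) y) ^ 2) -
          (∑ y ∈ sp D f, g0 D (fun y => w y h) y) ^ 2 := by
    intro f hf
    obtain ⟨hx, ⟨hy, h2⟩ | ⟨hy, hxy, h2⟩⟩ := ee_cases hf
    · rw [h2, Finset.card_singleton, if_pos rfl, Finset.sum_singleton]
      have e1 : g0 D (fun y => w y h) (f.1 + st f.2.1) = 0 := by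
        unfold g0
        rw [gl_not_mem hy]
      unfold df
      rw [e1, sub_zero]
    · rw [h2, Finset.card_pair hxy, if_neg (by norm_num), Finset.sum_pair hxy,
        Finset.sum_pair hxy]
      unfold df
      ring
  rw [key hf, key hf', hs]

private theorem eg_gr_df {D : Finset (ℤ × ℤ)} {b : ℤ × ℤ → ℝ} {w : D → (D → ℝ) → ℝ}
    (hw : ∀ x, ContDiff ℝ ∞ (w x)) {f : (ℤ × ℤ) × Fin 6 × Bool} (hf : f ∈ Fa D) :
    ∫⁻ h in K D b, ENNReal.ofReal (gr (df D w f) h) ≤ 2 * ET D b w := by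
  have h1 : ∀ h, gr (df D w f) h ≤ 2 * ∑ x, gr (w x) h := by
    intro h
    have e1 : ∀ y, (pd y (df D w f) h) ^ 2 ≤ 2 * ∑ x, (pd y (w x) h) ^ 2 := by
      intro y
      have e2 : pd y (df D w f) h = g0 D (fun z => pd y (w z) h) f.1 -
          g0 D (fun z => pd y (w z) h) (f.1 + st f.2.1) := by
        rw [← ef_g0_pd (w := w) y h, ← ef_g0_pd (w := w) y h]
        unfold pd
        have e3 := ((ef_g0 hw f.1).differentiable (by simp) h).hasFDerivAt
        have e4 := ((ef_g0 hw (f.1 + st f.2.1)).differentiable (by simp) h).hasFDerivAt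
        have e5 : HasFDerivAt (df D w f) _ h := e3.sub e4
        rw [e5.fderiv]
        rfl
      rw [e2]
      obtain ⟨hx, ⟨hy, h2⟩ | ⟨hy, hxy, h2⟩⟩ := ee_cases hf
      · unfold g0
        rw [gl_mem hx, gl_not_mem hy, sub_zero]
        have e6 := Finset.single_le_sum (f := fun x => (pd y (w x) h) ^ 2)
          (fun _ _ => sq_nonneg _) (Finset.mem_univ (⟨f.1, hx⟩ : D))
        have e7 : 0 ≤ ∑ x, (pd y (w x) h) ^ 2 := Finset.sum_nonneg fun _ _ => sq_nonneg _
        linarith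
      · unfold g0
        rw [gl_mem hx, gl_mem hy]
        have e6 : (pd y (w ⟨f.1, hx⟩) h) ^ 2 + (pd y (w ⟨f.1 + st f.2.1, hy⟩) h) ^ 2 ≤
            ∑ x, (pd y (w x) h) ^ 2 := by
          classical
          rw [← Finset.sum_pair (f := fun x => (pd y (w x) h) ^ 2)
            (fun hh : (⟨f.1, hx⟩ : D) = ⟨f.1 + st f.2.1, hy⟩ => hxy (congrArg Subtype.val hh))]
          exact Finset.sum_le_sum_of_subset_of_nonneg (Finset.subset_univ _)
            fun _ _ _ => sq_nonneg _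
        nlinarith [sq_nonneg (pd y (w ⟨f.1, hx⟩) h + pd y (w ⟨f.1 + st f.2.1, hy⟩) h)]
    calc gr (df D w f) h ≤ ∑ y, 2 * ∑ x, (pd y (w x) h) ^ 2 := Finset.sum_le_sum fun y _ => e1 y
      _ = 2 * ∑ x, gr (w x) h := by
          rw [← Finset.mul_sum, Finset.sum_comm]
          rfl
  calc ∫⁻ h in K D b, ENNReal.ofReal (gr (df D w f) h)
      ≤ ∫⁻ h in K D b, 2 * ∑ x, ENNReal.ofReal (gr (w x) h) := by
        refine lintegral_mono fun h => ?_
        rw [← ENNReal.ofReal_sum_of_nonneg fun x _ => eb_gr_nonneg _ _]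
        have e4 : (2 : ℝ≥0∞) = ENNReal.ofReal 2 := by simp
        rw [e4, ← ENNReal.ofReal_mul (by norm_num)]
        exact ENNReal.ofReal_le_ofReal (h1 h)
    _ = 2 * ET D b w := by
        rw [lintegral_const_mul' _ _ (by simp), lintegral_finsetSum]
        · rfl
        · intro x _
          exact (eb_gr_cont ((hw x).of_le (by simp))).measurable.ennreal_ofReal

theorem facet_cut {D : Finset (ℤ × ℤ)} {b : ℤ × ℤ → ℝ} (hb : ∀ z, |b z| ≤ 1 / 2)
    {f₀ : (ℤ × ℤ) × Fin 6 × Bool} (hf₀ : f₀ ∈ Fa D) {r : ℝ} (hr : 0 < r) {κ : ℝ} (hκ : 0 < κ) :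
    ∃ (m : (D → ℝ) → ℝ) (ε₀ A : ℝ), 0 < ε₀ ∧ 0 ≤ A ∧ ContDiff ℝ ∞ m ∧
      (∀ h, 0 ≤ m h ∧ m h ≤ 1) ∧
      (∀ h ∈ K D b, ∀ f ∈ Fa D, sp D f = sp D f₀ → sl D b f h ≤ ε₀ → m h = 0) ∧
      (∀ h ∈ K D b, (∀ f ∈ Fa D, sp D f = sp D f₀ → r ≤ sl D b f h) → m h = 1) ∧
      volume {h | h ∈ K D b ∧ m h ≠ 1} ≤ ENNReal.ofReal κ ∧
      ∀ w : D → (D → ℝ) → ℝ, (∀ x, ContDiff ℝ ∞ (w x)) → Zer D b r w → ∀ ε : ℝ, 0 < ε → ε ≤ ε₀ →
        ∫⁻ h in K D b, ENNReal.ofReal (gr m h * (df D w f₀ h) ^ 2) ≤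
          ENNReal.ofReal κ * ET D b w + ENNReal.ofReal (A / ε) *
            ∑ f ∈ (Fa D).filter (fun f => sp D f = sp D f₀), lay D b ε w f := by
  classical
  obtain ⟨θ, Cθ, hC0, hθs, hθ0, hθ1, hθ01, hθd⟩ := theta_exists
  obtain ⟨c, hc0, hc⟩ := layer_vol (D := D) hb
  set S : Finset ((ℤ × ℤ) × Fin 6 × Bool) :=
    (Fa D).filter (fun f => sp D f = sp D f₀) with hS
  set N : ℝ := (S.card : ℝ) with hN
  have hN0 : 0 ≤ N := Nat.cast_nonneg _
  have hSF : ∀ f ∈ S, f ∈ Fa D ∧ sp D f = sp D f₀ := fun f hf => Finset.mem_filter.1 hf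
  obtain ⟨r', hr', hr'r, hr'4⟩ : ∃ r' : ℝ, 0 < r' ∧ r' ≤ r ∧ r' ≤ 1 / 4 :=
    ⟨min r (1 / 4), lt_min hr (by norm_num), min_le_left _ _, min_le_right _ _⟩
  obtain ⟨δ₀, hδ₀, hδr, hδκ⟩ : ∃ δ₀ : ℝ, 0 < δ₀ ∧ 3 * δ₀ ≤ r' ∧ N * (c * (2 * δ₀)) ≤ κ := by
    refine ⟨min (r' / 3) (κ / (2 * N * c + 1)), lt_min (by positivity) (by positivity), ?_, ?_⟩
    · linarith [min_le_left (r' / 3) (κ / (2 * N * c + 1))]
    · have h1 : min (r' / 3) (κ / (2 * N * c + 1)) ≤ κ / (2 * N * c + 1) := min_le_right _ _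
      have h2 : 0 ≤ 2 * N * c := by positivity
      calc N * (c * (2 * min (r' / 3) (κ / (2 * N * c + 1))))
          = 2 * N * c * min (r' / 3) (κ / (2 * N * c + 1)) := by ring
        _ ≤ 2 * N * c * (κ / (2 * N * c + 1)) := mul_le_mul_of_nonneg_left h1 h2
        _ ≤ (2 * N * c + 1) * (κ / (2 * N * c + 1)) := by
            refine mul_le_mul_of_nonneg_right (by linarith) (by positivity)
        _ = κ := by field_simp
  obtain ⟨J, hJ⟩ := exists_nat_gt (64 * N ^ 2 * Cθ ^ 2 / κ)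
  have hJ0 : (0 : ℝ) < J := lt_of_le_of_lt (by positivity) hJ
  have hJ1 : 0 < J := Nat.cast_pos.1 hJ0
  have hδj : ∀ j : ℕ, 0 < δ₀ / 2 ^ j := fun j => by positivity
  have hδle : ∀ j : ℕ, δ₀ / 2 ^ j ≤ δ₀ := fun j =>
    div_le_self hδ₀.le (one_le_pow₀ (by norm_num))
  obtain ⟨μ, hμs, hμ01, hμ0, hμ1, hμd⟩ := eg_mu hθs hθ0 hθ1 hθ01 hθd hδ₀ hJ1
  have hgs : ∀ f : (ℤ × ℤ) × Fin 6 × Bool, ContDiff ℝ ∞ (fun h => μ (sl D b f h)) :=
    fun f => hμs.comp (sl_smooth D b f)
  refine ⟨fun h => ∏ f ∈ S, μ (sl D b f h), δ₀ / 2 ^ J,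
    N * ∑ j ∈ Finset.range J, 8 * N * Cθ ^ 2 / ((J : ℝ) ^ 2 * (δ₀ / 2 ^ j)), by positivity,
    by positivity, ?_, ?_, ?_, ?_, ?_, ?_⟩
  · exact contDiff_prod fun f _ => hgs f
  · exact fun h => ⟨Finset.prod_nonneg fun f _ => (hμ01 _).1,
      Finset.prod_le_one (fun f _ => (hμ01 _).1) fun f _ => (hμ01 _).2⟩
  · intro h hh f hf hsp hle
    exact Finset.prod_eq_zero (Finset.mem_filter.2 ⟨hf, hsp⟩) (hμ0 _ hle)
  · intro h hh hall
    refine Finset.prod_eq_one fun f hf => hμ1 _ ?_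
    have := hall f (hSF f hf).1 (hSF f hf).2
    linarith
  · calc volume {h | h ∈ K D b ∧ ∏ f ∈ S, μ (sl D b f h) ≠ 1}
        ≤ volume (⋃ f ∈ S, {h | h ∈ K D b ∧ sl D b f h ≤ 2 * δ₀}) := by
          refine measure_mono ?_
          rintro h ⟨hh, hne⟩
          by_contra hcon
          refine hne (Finset.prod_eq_one fun f hf => hμ1 _ ?_)
          by_contra hlt
          refine hcon ?_
          rw [mem_iUnion₂]
          exact ⟨f, hf, hh, (not_le.1 hlt).le⟩
      _ ≤ ∑ f ∈ S, volume {h | h ∈ K D b ∧ sl D b f h ≤ 2 * δ₀} :=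
          measure_biUnion_finset_le _ _
      _ ≤ ∑ f ∈ S, ENNReal.ofReal (c * (2 * δ₀)) :=
          Finset.sum_le_sum fun f hf => (hc (2 * δ₀) (by positivity) f (hSF f hf).1).1
      _ = ENNReal.ofReal (N * (c * (2 * δ₀))) := by
          rw [← ENNReal.ofReal_sum_of_nonneg fun x _ => by positivity]
          rw [Finset.sum_const, nsmul_eq_mul]
      _ ≤ ENNReal.ofReal κ := ENNReal.ofReal_le_ofReal hδκ
  · intro w hw hZ ε hε hεle
    have hgrm : ∀ h, gr (fun h => ∏ f ∈ S, μ (sl D b f h)) h ≤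
        ∑ f ∈ S, ∑ j ∈ Finset.range J, if sl D b f h ≤ 2 * (δ₀ / 2 ^ j) then
          2 * N * Cθ ^ 2 / ((J : ℝ) ^ 2 * (δ₀ / 2 ^ j) ^ 2) else 0 := by
      intro h
      calc gr (fun h => ∏ f ∈ S, μ (sl D b f h)) h
          ≤ N * ∑ f ∈ S, gr (fun h => μ (sl D b f h)) h :=
            eg_prod S hgs (fun f h => hμ01 _) h
        _ ≤ N * ∑ f ∈ S, (2 * (Cθ ^ 2 / (J : ℝ) ^ 2 * ∑ j ∈ Finset.range J,
              if sl D b f h ≤ 2 * (δ₀ / 2 ^ j) then 1 / (δ₀ / 2 ^ j) ^ 2 else 0)) := by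
            refine mul_le_mul_of_nonneg_left (Finset.sum_le_sum fun f _ => ?_) hN0
            have e1 : gr (fun h => μ (sl D b f h)) h =
                (deriv μ (sl D b f h)) ^ 2 * gr (sl D b f) h := by
              unfold gr
              rw [Finset.mul_sum]
              refine Finset.sum_congr rfl fun y _ => ?_
              rw [eb_pd_comp hμs (sl_smooth D b f), mul_pow]
            rw [e1]
            calc (deriv μ (sl D b f h)) ^ 2 * gr (sl D b f) h
                ≤ (deriv μ (sl D b f h)) ^ 2 * 2 :=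
                  mul_le_mul_of_nonneg_left (sl_gr D b f h) (sq_nonneg _)
              _ ≤ _ := by
                rw [mul_comm]
                exact mul_le_mul_of_nonneg_left (hμd _) (by norm_num)
        _ = _ := by
            rw [Finset.mul_sum]
            refine Finset.sum_congr rfl fun f _ => ?_
            rw [Finset.mul_sum, Finset.mul_sum, Finset.mul_sum]
            refine Finset.sum_congr rfl fun j _ => ?_
            split_ifs
            · field_simp
            · ring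
    have hdfc : Continuous (fun h => (df D w f₀ h) ^ 2) :=
      ((ef_g0 hw f₀.1).continuous.sub (ef_g0 hw (f₀.1 + st f₀.2.1)).continuous).pow 2
    have hterm : ∀ f ∈ S, ∀ j ∈ Finset.range J,
        ENNReal.ofReal (2 * N * Cθ ^ 2 / ((J : ℝ) ^ 2 * (δ₀ / 2 ^ j) ^ 2)) *
          ∫⁻ h in {h | h ∈ K D b ∧ sl D b f h ≤ 2 * (δ₀ / 2 ^ j)},
            ENNReal.ofReal ((df D w f₀ h) ^ 2) ≤
        ENNReal.ofReal (64 * N * Cθ ^ 2 / (J : ℝ) ^ 2) * ET D b w +
          ENNReal.ofReal (8 * N * Cθ ^ 2 / ((J : ℝ) ^ 2 * (δ₀ / 2 ^ j)) / ε) *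
            ∑ f ∈ S, lay D b ε w f := by
      intro f hf j hj
      have e0 : (Fa D).filter (fun f' => sp D f' = sp D f) = S := by
        rw [hS, (hSF f hf).2]
      have e1 := layer_ineq hb (hSF f hf).1 (g := df D w f₀)
        (((ef_g0 hw f₀.1).sub (ef_g0 hw (f₀.1 + st f₀.2.1))).of_le (by simp))
        (r := r') (δ := δ₀ / 2 ^ j) (ε := ε) hr'4 hε
        (hεle.trans (div_le_div_of_nonneg_left hδ₀.le (by positivity)
          (pow_le_pow_right₀ (by norm_num) (Finset.mem_range.1 hj).le)))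
        (by linarith [hδle j]) (by
          intro h hh f' hf' hne h1 h2
          have := hZ h hh f (hSF f hf).1 f' hf' hne.symm (h1.trans hr'r) (h2.trans hr'r)
          exact eg_df_zero this f₀)
      rw [e0] at e1
      have e2 : ∫⁻ h in K D b, ENNReal.ofReal (gr (df D w f₀) h) ≤ 2 * ET D b w :=
        eg_gr_df hw hf₀
      have e3 : ∑ f' ∈ S, ∫⁻ h in {h | h ∈ K D b ∧ sl D b f' h ≤ ε},
          ENNReal.ofReal ((df D w f₀ h) ^ 2) = ∑ f' ∈ S, lay D b ε w f' := by
        refine Finset.sum_congr rfl fun f' hf' => ?_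
        unfold lay
        simp only [eg_df_sq hf₀ (hSF f' hf').1 (hSF f' hf').2 w]
      rw [e3] at e1
      have hd := hδj j
      refine (mul_le_mul_right (e1.trans (add_le_add (mul_le_mul_right e2 _) le_rfl)) _).trans
        (le_of_eq ?_)
      rw [mul_add, ← mul_assoc, ← mul_assoc, ← mul_assoc, ← ENNReal.ofReal_mul (by positivity),
        ← ENNReal.ofReal_mul (by positivity)]
      have e4 : (2 : ℝ≥0∞) = ENNReal.ofReal 2 := by simp
      rw [e4, ← ENNReal.ofReal_mul (by positivity)]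
      congr 3
      · field_simp
        ring
      · field_simp
        ring
    calc ∫⁻ h in K D b, ENNReal.ofReal (gr (fun h => ∏ f ∈ S, μ (sl D b f h)) h *
          (df D w f₀ h) ^ 2)
        ≤ ∫⁻ h in K D b, ∑ f ∈ S, ∑ j ∈ Finset.range J,
          ENNReal.ofReal (2 * N * Cθ ^ 2 / ((J : ℝ) ^ 2 * (δ₀ / 2 ^ j) ^ 2)) *
            {h | sl D b f h ≤ 2 * (δ₀ / 2 ^ j)}.indicator
              (fun h => ENNReal.ofReal ((df D w f₀ h) ^ 2)) h := by
          refine lintegral_mono fun h => ?_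
          calc ENNReal.ofReal (gr (fun h => ∏ f ∈ S, μ (sl D b f h)) h * (df D w f₀ h) ^ 2)
              ≤ ENNReal.ofReal (∑ f ∈ S, ∑ j ∈ Finset.range J,
                (if sl D b f h ≤ 2 * (δ₀ / 2 ^ j) then
                2 * N * Cθ ^ 2 / ((J : ℝ) ^ 2 * (δ₀ / 2 ^ j) ^ 2) else 0) *
                  (df D w f₀ h) ^ 2) := by
                refine ENNReal.ofReal_le_ofReal ?_
                simp only [← Finset.sum_mul]
                exact mul_le_mul_of_nonneg_right (hgrm h) (sq_nonneg _)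
            _ = _ := by
                rw [ENNReal.ofReal_sum_of_nonneg]
                · refine Finset.sum_congr rfl fun f _ => ?_
                  rw [ENNReal.ofReal_sum_of_nonneg]
                  · refine Finset.sum_congr rfl fun j _ => ?_
                    by_cases hle : sl D b f h ≤ 2 * (δ₀ / 2 ^ j)
                    · rw [if_pos hle, indicator_of_mem (s := {h | sl D b f h ≤ 2 * (δ₀ / 2 ^ j)})
                        (show h ∈ {h | sl D b f h ≤ 2 * (δ₀ / 2 ^ j)} from hle),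
                        ENNReal.ofReal_mul (by positivity)]
                    · rw [if_neg hle, indicator_of_notMem
                        (s := {h | sl D b f h ≤ 2 * (δ₀ / 2 ^ j)})
                        (show h ∉ {h | sl D b f h ≤ 2 * (δ₀ / 2 ^ j)} from hle), zero_mul,
                        mul_zero, ENNReal.ofReal_zero]
                  · intro j _
                    split_ifs <;> positivity
                · intro f _
                  refine Finset.sum_nonneg fun j _ => ?_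
                  split_ifs <;> positivity
      _ = ∑ f ∈ S, ∑ j ∈ Finset.range J,
          ENNReal.ofReal (2 * N * Cθ ^ 2 / ((J : ℝ) ^ 2 * (δ₀ / 2 ^ j) ^ 2)) *
            ∫⁻ h in {h | h ∈ K D b ∧ sl D b f h ≤ 2 * (δ₀ / 2 ^ j)},
              ENNReal.ofReal ((df D w f₀ h) ^ 2) := by
          have hms : ∀ f j, MeasurableSet {h : D → ℝ | sl D b f h ≤ 2 * (δ₀ / 2 ^ j)} :=
            fun f j => (isClosed_le (sl_smooth D b f).continuous
              continuous_const).measurableSet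
          have hmi : ∀ f j, Measurable (fun h => {h : D → ℝ | sl D b f h ≤
              2 * (δ₀ / 2 ^ j)}.indicator (fun h => ENNReal.ofReal ((df D w f₀ h) ^ 2)) h) :=
            fun f j => hdfc.measurable.ennreal_ofReal.indicator (hms f j)
          rw [lintegral_finsetSum]
          · refine Finset.sum_congr rfl fun f _ => ?_
            rw [lintegral_finsetSum]
            · refine Finset.sum_congr rfl fun j _ => ?_
              rw [lintegral_const_mul' _ _ ENNReal.ofReal_ne_top,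
                lintegral_indicator (hms f j), Measure.restrict_restrict (hms f j)]
              congr 3
              ext h
              exact and_comm
            · exact fun j _ => (hmi f j).const_mul _
          · exact fun f _ => Finset.measurable_sum _ fun j _ => (hmi f j).const_mul _
      _ ≤ ∑ f ∈ S, ∑ j ∈ Finset.range J,
          (ENNReal.ofReal (64 * N * Cθ ^ 2 / (J : ℝ) ^ 2) * ET D b w +
          ENNReal.ofReal (8 * N * Cθ ^ 2 / ((J : ℝ) ^ 2 * (δ₀ / 2 ^ j)) / ε) *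
            ∑ f ∈ S, lay D b ε w f) :=
          Finset.sum_le_sum fun f hf => Finset.sum_le_sum fun j hj => hterm f hf j hj
      _ = ENNReal.ofReal (64 * N ^ 2 * Cθ ^ 2 / J) * ET D b w +
          ENNReal.ofReal ((N * ∑ j ∈ Finset.range J,
            8 * N * Cθ ^ 2 / ((J : ℝ) ^ 2 * (δ₀ / 2 ^ j))) / ε) *
            ∑ f ∈ S, lay D b ε w f := by
          simp only [Finset.sum_add_distrib, ← Finset.sum_mul]
          have e5 : ∑ f ∈ S, ∑ j ∈ Finset.range J,
              ENNReal.ofReal (64 * N * Cθ ^ 2 / (J : ℝ) ^ 2) =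
              ENNReal.ofReal (64 * N ^ 2 * Cθ ^ 2 / J) := by
            have : ∀ f ∈ S, ∑ j ∈ Finset.range J,
                ENNReal.ofReal (64 * N * Cθ ^ 2 / (J : ℝ) ^ 2) =
                ENNReal.ofReal (64 * N * Cθ ^ 2 / J) := by
              intro f _
              rw [← ENNReal.ofReal_sum_of_nonneg fun j _ => by positivity, Finset.sum_const,
                Finset.card_range, nsmul_eq_mul]
              congr 1
              field_simp
            rw [Finset.sum_congr rfl this, ← ENNReal.ofReal_sum_of_nonneg fun j _ => by positivity,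
              Finset.sum_const, nsmul_eq_mul]
            congr 1
            ring
          have e6 : ∑ f ∈ S, ∑ j ∈ Finset.range J,
              ENNReal.ofReal (8 * N * Cθ ^ 2 / ((J : ℝ) ^ 2 * (δ₀ / 2 ^ j)) / ε) =
              ENNReal.ofReal ((N * ∑ j ∈ Finset.range J,
                8 * N * Cθ ^ 2 / ((J : ℝ) ^ 2 * (δ₀ / 2 ^ j))) / ε) := by
            have : ∀ f ∈ S, ∑ j ∈ Finset.range J,
                ENNReal.ofReal (8 * N * Cθ ^ 2 / ((J : ℝ) ^ 2 * (δ₀ / 2 ^ j)) / ε) =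
                ENNReal.ofReal ((∑ j ∈ Finset.range J,
                  8 * N * Cθ ^ 2 / ((J : ℝ) ^ 2 * (δ₀ / 2 ^ j))) / ε) := by
              intro f _
              rw [← ENNReal.ofReal_sum_of_nonneg fun j _ => by positivity, Finset.sum_div]
            rw [Finset.sum_congr rfl this, ← ENNReal.ofReal_sum_of_nonneg fun j _ => by positivity,
              Finset.sum_const, nsmul_eq_mul, mul_div_assoc]
          rw [e5, e6]
      _ ≤ _ := by
          refine add_le_add (mul_le_mul_left (ENNReal.ofReal_le_ofReal ?_) _) le_rfl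
          rw [div_le_iff₀ hJ0]
          rw [div_lt_iff₀ hκ] at hJ
          linarith

/- END eg -/

/- MODULE eh
One support.  `w' = stp D (sp D f₀) m w` with `m` from `facet_cut` (parameter `κ'` small), `ε = 1/s²`.
Energy: integrate `stp_gr` with `e^{-W} ≤ 1`.  Linear term: `|w' - w| ≤ 2 M 1_{m ≠ 1}`.  Zero
property and locality: `w' = w` where `m = 1`, and `w' = 0` where `w = 0`.  Ties of `f` with
`sp f = sp f₀`: `m = 0` and `Pj_props` (`Pj` only depends on the support).  Ties of the other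
supports are preserved: near such a facet (`sl f ≤ min ε' r`) either some facet of the support `p`
has slack `≤ r`, then `w = 0` there, or `w' = w`.  The layers of the other supports do not
increase for the same reason. -/

theorem facet_step {D : Finset (ℤ × ℤ)} {b : ℤ × ℤ → ℝ} (hb : ∀ z, |b z| ≤ 1 / 2)
    {W F : (D → ℝ) → ℝ} (hW : Wok W) {C : ℝ} (hF : Fok F C) {f₀ : (ℤ × ℤ) × Fin 6 × Bool}
    (hf₀ : f₀ ∈ Fa D) {r : ℝ} (hr : 0 < r) {M B : ℝ} (hM : 0 ≤ M) (hB : 0 ≤ B) {κ : ℝ}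
    (hκ : 0 < κ) :
    ∃ s₁ ε₁ : ℝ, 1 ≤ s₁ ∧ 0 < ε₁ ∧ ∀ s, s₁ ≤ s → ∀ w : D → (D → ℝ) → ℝ,
      (∀ x, ContDiff ℝ ∞ (w x)) → (∀ x, ∀ h ∈ K D b, |w x h| ≤ M) → Zer D b r w →
      ET D b w ≤ ENNReal.ofReal B →
      (∀ f ∈ Fa D, sp D f = sp D f₀ → lay D b (1 / s ^ 2) w f ≤ ENNReal.ofReal (B / s ^ 3)) →
      ∃ w' : D → (D → ℝ) → ℝ, (∀ x, ContDiff ℝ ∞ (w' x)) ∧ (∀ x, ∀ h ∈ K D b, |w' x h| ≤ M) ∧
        Zer D b r w' ∧ ET D b w' ≤ ET D b w + ENNReal.ofReal κ ∧
        EK D b W (fun h => ∑ x, gr (w' x) h) ≤ EK D b W (fun h => ∑ x, gr (w x) h) + κ ∧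
        |EK D b W (fun h => ∑ x, pd x F h * w x h) -
          EK D b W (fun h => ∑ x, pd x F h * w' x h)| ≤ κ ∧
        (∀ h ∈ K D b, ∀ f ∈ Fa D, sp D f = sp D f₀ → sl D b f h ≤ ε₁ → df D w' f h = 0) ∧
        (∀ h ∈ K D b, ∀ f ∈ Fa D, sp D f ≠ sp D f₀ → sl D b f h ≤ r → df D w f h = 0 →
          df D w' f h = 0) ∧
        (∀ f ∈ Fa D, sp D f ≠ sp D f₀ → ∀ ε, ε ≤ r → lay D b ε w' f ≤ lay D b ε w f) := by
  classical
  have hx₀ : f₀.1 ∈ D := (Finset.mem_product.1 hf₀).1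
  have hC : 0 ≤ C := (abs_nonneg _).trans (hF.grad ⟨f₀.1, hx₀⟩ 0)
  set S : Finset ((ℤ × ℤ) × Fin 6 × Bool) :=
    (Fa D).filter (fun f => sp D f = sp D f₀) with hS
  set N : ℝ := (S.card : ℝ) with hN
  have hN0 : 0 ≤ N := Nat.cast_nonneg _
  obtain ⟨θ, hθ, hθB⟩ : ∃ θ : ℝ, 0 < θ ∧ θ * B ≤ κ / 2 := by
    refine ⟨κ / (2 * (B + 1)), by positivity, ?_⟩
    rw [div_mul_eq_mul_div, div_le_div_iff₀ (by positivity) (by norm_num)]
    nlinarith
  obtain ⟨L, hL, hLe⟩ : ∃ L : ℝ, 0 < L ∧ L = 1 + 1 / θ := ⟨_, by positivity, rfl⟩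
  obtain ⟨κ', hκ', hk1, hk2⟩ : ∃ κ' : ℝ, 0 < κ' ∧ L * (κ' * B) ≤ κ / 4 ∧
      C * (D.card : ℝ) * (2 * M) * κ' ≤ κ := by
    refine ⟨min (κ / (4 * L * (B + 1))) (κ / (C * (D.card : ℝ) * (2 * M) + 1)),
      lt_min (by positivity) (by positivity), ?_, ?_⟩
    · have h1 := min_le_left (κ / (4 * L * (B + 1))) (κ / (C * (D.card : ℝ) * (2 * M) + 1))
      calc L * (min (κ / (4 * L * (B + 1))) (κ / (C * (D.card : ℝ) * (2 * M) + 1)) * B)
          ≤ L * (κ / (4 * L * (B + 1)) * B) :=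
            mul_le_mul_of_nonneg_left (mul_le_mul_of_nonneg_right h1 hB) hL.le
        _ = κ / 4 * (B / (B + 1)) := by field_simp
        _ ≤ κ / 4 * 1 := by
            refine mul_le_mul_of_nonneg_left ?_ (by positivity)
            rw [div_le_one (by positivity)]
            linarith
        _ = κ / 4 := mul_one _
    · have h1 := min_le_right (κ / (4 * L * (B + 1))) (κ / (C * (D.card : ℝ) * (2 * M) + 1))
      have h2 : 0 ≤ C * (D.card : ℝ) * (2 * M) := by positivity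
      calc C * (D.card : ℝ) * (2 * M) *
            min (κ / (4 * L * (B + 1))) (κ / (C * (D.card : ℝ) * (2 * M) + 1))
          ≤ C * (D.card : ℝ) * (2 * M) * (κ / (C * (D.card : ℝ) * (2 * M) + 1)) :=
            mul_le_mul_of_nonneg_left h1 h2
        _ ≤ (C * (D.card : ℝ) * (2 * M) + 1) * (κ / (C * (D.card : ℝ) * (2 * M) + 1)) :=
            mul_le_mul_of_nonneg_right (by linarith) (by positivity)
        _ = κ := by field_simp
  obtain ⟨m, ε₀, A, hε₀, hA, hms, hm01, hm0, hm1, hmv, hmw⟩ :=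
    facet_cut hb hf₀ hr hκ'
  refine ⟨max 1 (max (1 / ε₀) (4 * L * (A * N * B) / κ)), ε₀, le_max_left _ _, hε₀, ?_⟩
  intro s hs w hw hM' hZ hET hlay
  have hs1 : 1 ≤ s := (le_max_left _ _).trans hs
  have hs2 : 1 / ε₀ ≤ s := ((le_max_left _ _).trans (le_max_right _ _)).trans hs
  have hs3 : 4 * L * (A * N * B) / κ ≤ s := ((le_max_right _ _).trans (le_max_right _ _)).trans hs
  have hs0 : 0 < s := by linarith
  have hsε : 1 / s ^ 2 ≤ ε₀ := by
    rw [div_le_iff₀ (by positivity)]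
    rw [div_le_iff₀ hε₀] at hs2
    nlinarith
  -- the basic bound
  have hR : ∫⁻ h in K D b, ENNReal.ofReal (gr m h * (df D w f₀ h) ^ 2) ≤
      ENNReal.ofReal (κ' * B + A * N * B / s) := by
    refine (hmw w hw hZ (1 / s ^ 2) (by positivity) hsε).trans ?_
    rw [ENNReal.ofReal_add (by positivity) (by positivity)]
    refine add_le_add ?_ ?_
    · rw [ENNReal.ofReal_mul hκ'.le]
      exact mul_le_mul_right hET _
    · calc ENNReal.ofReal (A / (1 / s ^ 2)) * ∑ f ∈ S, lay D b (1 / s ^ 2) w f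
          ≤ ENNReal.ofReal (A / (1 / s ^ 2)) * ∑ f ∈ S, ENNReal.ofReal (B / s ^ 3) := by
            refine mul_le_mul_right (Finset.sum_le_sum fun f hf => ?_) _
            exact hlay f (Finset.mem_filter.1 hf).1 (Finset.mem_filter.1 hf).2
        _ = ENNReal.ofReal (A * N * B / s) := by
            rw [← ENNReal.ofReal_sum_of_nonneg fun _ _ => by positivity, Finset.sum_const,
              nsmul_eq_mul, ← ENNReal.ofReal_mul (by positivity)]
            congr 1
            rw [hN]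
            field_simp
  have hLR : L * (κ' * B + A * N * B / s) ≤ κ / 2 := by
    have h1 : L * (A * N * B / s) ≤ κ / 4 := by
      rw [div_le_iff₀ hκ] at hs3
      rw [← mul_div_assoc, div_le_iff₀ hs0]
      linarith
    linarith [mul_add L (κ' * B) (A * N * B / s)]
  have hR0 : 0 ≤ κ' * B + A * N * B / s := by positivity
  have hdfc : Continuous (fun h => (df D w f₀ h) ^ 2) :=
    ((ef_g0 hw f₀.1).continuous.sub (ef_g0 hw (f₀.1 + st f₀.2.1)).continuous).pow 2
  have hgmc : Continuous (gr m) := eb_gr_cont (hms.of_le (by simp))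
  have hw' : ∀ x, ContDiff ℝ ∞ (stp D (sp D f₀) m w x) := fun x => stp_smooth _ hms hw x
  have hgw : ∀ x, Continuous (gr (w x)) := fun x => eb_gr_cont ((hw x).of_le (by simp))
  have hgw' : ∀ x, Continuous (gr (stp D (sp D f₀) m w x)) :=
    fun x => eb_gr_cont ((hw' x).of_le (by simp))
  have hpt : ∀ h, ∑ x, gr (stp D (sp D f₀) m w x) h ≤
      (1 + θ) * ∑ x, gr (w x) h + L * (gr m h * (df D w f₀ h) ^ 2) := by
    intro h
    have := stp_gr hf₀ hms hm01 hw hθ h
    rw [← hLe, mul_assoc L] at this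
    exact this
  have hF1 : ∀ h, (∀ x, w x h = 0) → ∀ x, stp D (sp D f₀) m w x h = 0 := by
    intro h hz x
    have h1 : |Pj D (sp D f₀) (fun y => w y h) x| ≤ 0 :=
      Pj_bdd hf₀ (fun y => by rw [hz y, abs_zero]) x
    unfold stp
    rw [hz x, abs_nonpos_iff.1 h1]
    ring
  have hF2 : ∀ h, m h = 1 → ∀ x, stp D (sp D f₀) m w x h = w x h := by
    intro h hm x
    unfold stp
    rw [hm]
    ring
  have hF3 : ∀ h ∈ K D b, ∀ f ∈ Fa D, sp D f ≠ sp D f₀ → sl D b f h ≤ r →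
      (∀ x, w x h = 0) ∨ m h = 1 := by
    intro h hh f hf hne hsl
    by_cases hall : ∀ f ∈ Fa D, sp D f = sp D f₀ → r ≤ sl D b f h
    · exact Or.inr (hm1 h hh hall)
    · left
      push Not at hall
      obtain ⟨f', hf', hsp, hlt⟩ := hall
      exact hZ h hh f hf f' hf' (by rw [hsp]; exact hne) hsl hlt.le
  have hF4 : ∀ h, m h = 1 → ∀ f, df D (stp D (sp D f₀) m w) f h = df D w f h := by
    intro h hm f
    unfold df
    simp only [hF2 h hm]
  have hpw : ∀ h ∈ K D b, ∀ x, |stp D (sp D f₀) m w x h| ≤ M := by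
    intro h hh x
    have h1 : |Pj D (sp D f₀) (fun y => w y h) x| ≤ M :=
      Pj_bdd hf₀ (fun y => hM' y h hh) x
    unfold stp
    calc |m h * w x h + (1 - m h) * Pj D (sp D f₀) (fun y => w y h) x|
        ≤ |m h * w x h| + |(1 - m h) * Pj D (sp D f₀) (fun y => w y h) x| := abs_add_le _ _
      _ = m h * |w x h| + (1 - m h) * |Pj D (sp D f₀) (fun y => w y h) x| := by
          rw [abs_mul, abs_mul, abs_of_nonneg (hm01 h).1,
            abs_of_nonneg (sub_nonneg.2 (hm01 h).2)]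
      _ ≤ m h * M + (1 - m h) * M :=
          add_le_add (mul_le_mul_of_nonneg_left (hM' x h hh) (hm01 h).1)
            (mul_le_mul_of_nonneg_left h1 (sub_nonneg.2 (hm01 h).2))
      _ = M := by ring
  have hETs : ∀ v : D → (D → ℝ) → ℝ, (∀ x, Continuous (gr (v x))) →
      ET D b v = ∫⁻ h in K D b, ENNReal.ofReal (∑ x, gr (v x) h) := by
    intro v hv
    have e1 : ∀ h, ENNReal.ofReal (∑ x, gr (v x) h) = ∑ x, ENNReal.ofReal (gr (v x) h) :=
      fun h => ENNReal.ofReal_sum_of_nonneg fun x _ => eb_gr_nonneg _ _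
    simp only [e1]
    rw [lintegral_finsetSum]
    · rfl
    · exact fun x _ => (hv x).measurable.ennreal_ofReal
  refine ⟨stp D (sp D f₀) m w, hw', fun x h hh => hpw h hh x, ?_, ?_, ?_, ?_, ?_, ?_, ?_⟩
  · intro h hh f hf f' hf' hne h1 h2 x
    exact hF1 h (hZ h hh f hf f' hf' hne h1 h2) x
  · rw [hETs _ hgw']
    calc ∫⁻ h in K D b, ENNReal.ofReal (∑ x, gr (stp D (sp D f₀) m w x) h)
        ≤ ∫⁻ h in K D b, (ENNReal.ofReal (1 + θ) * ENNReal.ofReal (∑ x, gr (w x) h) +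
            ENNReal.ofReal L * ENNReal.ofReal (gr m h * (df D w f₀ h) ^ 2)) := by
          refine lintegral_mono fun h => ?_
          rw [← ENNReal.ofReal_mul (by positivity), ← ENNReal.ofReal_mul (by positivity),
            ← ENNReal.ofReal_add]
          · exact ENNReal.ofReal_le_ofReal (hpt h)
          · exact mul_nonneg (by positivity) (Finset.sum_nonneg fun x _ => eb_gr_nonneg _ _)
          · exact mul_nonneg hL.le (mul_nonneg (eb_gr_nonneg _ _) (sq_nonneg _))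
      _ = ENNReal.ofReal (1 + θ) * ET D b w + ENNReal.ofReal L *
            ∫⁻ h in K D b, ENNReal.ofReal (gr m h * (df D w f₀ h) ^ 2) := by
          rw [lintegral_add_left, lintegral_const_mul' _ _ ENNReal.ofReal_ne_top,
            lintegral_const_mul' _ _ ENNReal.ofReal_ne_top, hETs w hgw]
          exact ((continuous_finsetSum _ fun x _ =>
            hgw x).measurable.ennreal_ofReal).const_mul _
      _ ≤ (ET D b w + ENNReal.ofReal (κ / 2)) + ENNReal.ofReal (κ / 2) := by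
          refine add_le_add ?_ ?_
          · rw [ENNReal.ofReal_add zero_le_one hθ.le, ENNReal.ofReal_one, add_mul, one_mul]
            refine add_le_add le_rfl ((mul_le_mul_right hET _).trans ?_)
            rw [← ENNReal.ofReal_mul hθ.le]
            exact ENNReal.ofReal_le_ofReal hθB
          · refine (mul_le_mul_right hR _).trans ?_
            rw [← ENNReal.ofReal_mul hL.le]
            exact ENNReal.ofReal_le_ofReal hLR
      _ = ET D b w + ENNReal.ofReal κ := by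
          rw [add_assoc, ← ENNReal.ofReal_add (by positivity) (by positivity), add_halves]
  · have h1 : EK D b W (fun h => ∑ x, gr (stp D (sp D f₀) m w x) h) ≤
        (1 + θ) * EK D b W (fun h => ∑ x, gr (w x) h) + κ / 2 := by
      refine ed_en hW.temp.1.continuous hW.nonneg (continuous_finsetSum _ fun x _ => hgw' x)
        (continuous_finsetSum _ fun x _ => hgw x)
        (q := fun h => L * (gr m h * (df D w f₀ h) ^ 2))
        (continuous_const.mul (hgmc.mul hdfc))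
        (fun h => mul_nonneg hL.le (mul_nonneg (eb_gr_nonneg _ _) (sq_nonneg _)))
        (by positivity) (fun h _ => hpt h) ?_
      calc ∫⁻ h in K D b, ENNReal.ofReal (L * (gr m h * (df D w f₀ h) ^ 2))
          = ENNReal.ofReal L *
            ∫⁻ h in K D b, ENNReal.ofReal (gr m h * (df D w f₀ h) ^ 2) := by
            rw [← lintegral_const_mul' _ _ ENNReal.ofReal_ne_top]
            refine lintegral_congr fun h => ?_
            rw [← ENNReal.ofReal_mul hL.le]
        _ ≤ ENNReal.ofReal (κ / 2) := by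
            refine (mul_le_mul_right hR _).trans ?_
            rw [← ENNReal.ofReal_mul hL.le]
            exact ENNReal.ofReal_le_ofReal hLR
    have h2 : |EK D b W (fun h => ∑ x, gr (w x) h) - EK D b W (fun _ => 0)| ≤ B := by
      refine ec_diff hW.temp.1.continuous hW.nonneg (continuous_finsetSum _ fun x _ => hgw x)
        continuous_const hB ?_
      refine le_trans (le_of_eq ?_) hET
      rw [hETs w hgw]
      refine lintegral_congr fun h => ?_
      rw [sub_zero, abs_of_nonneg (Finset.sum_nonneg fun x _ => eb_gr_nonneg _ _)]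
    have h4 : EK D b W (fun _ => 0) = 0 := by simp [EK]
    rw [h4, sub_zero] at h2
    have h5 := (abs_le.1 h2).2
    have h6 := mul_le_mul_of_nonneg_left h5 hθ.le
    linarith
  · have hdF : ∀ x, Continuous (pd x F) := fun x => eb_pd_cont (hF.temp.1.of_le (by simp)) x
    refine ec_diff hW.temp.1.continuous hW.nonneg
      (continuous_finsetSum _ fun x _ => (hdF x).mul (hw x).continuous)
      (continuous_finsetSum _ fun x _ => (hdF x).mul (hw' x).continuous) hκ.le ?_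
    refine (ed_ind (A := {h | m h ≠ 1})
      (isOpen_ne_fun hms.continuous continuous_const).measurableSet
      (c := C * (D.card : ℝ) * (2 * M)) (by positivity) hκ'.le hmv ?_ ?_).trans
      (ENNReal.ofReal_le_ofReal hk2)
    · intro h hh
      rw [← Finset.sum_sub_distrib]
      calc |∑ x, (pd x F h * w x h - pd x F h * stp D (sp D f₀) m w x h)|
          ≤ ∑ _x : D, C * (2 * M) := by
            refine (Finset.abs_sum_le_sum_abs _ _).trans (Finset.sum_le_sum fun x _ => ?_)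
            rw [← mul_sub, abs_mul]
            refine mul_le_mul (hF.grad x h) ?_ (abs_nonneg _) hC
            calc |w x h - stp D (sp D f₀) m w x h| ≤ |w x h| + |stp D (sp D f₀) m w x h| :=
                  abs_sub _ _
              _ ≤ 2 * M := by linarith [hM' x h hh, hpw h hh x]
        _ = C * (D.card : ℝ) * (2 * M) := by
            rw [Finset.sum_const, Finset.card_univ, Fintype.card_coe, nsmul_eq_mul]
            ring
    · intro h hh hne
      have e2 : m h = 1 := by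
        by_contra hc
        exact hne hc
      change ∑ x, pd x F h * w x h - ∑ x, pd x F h * stp D (sp D f₀) m w x h = 0
      rw [sub_eq_zero]
      exact Finset.sum_congr rfl fun x _ => by rw [hF2 h e2 x]
  · intro h hh f hf hsp hsl
    have e1 : m h = 0 := hm0 h hh f hf hsp hsl
    have e2 : ∀ x, stp D (sp D f₀) m w x h = Pj D (sp D f) (fun y => w y h) x := by
      intro x
      unfold stp
      rw [e1, hsp]
      ring
    unfold df
    simp only [e2]
    rw [(Pj_props hf (fun y => w y h)).2, sub_self]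
  · intro h hh f hf hne hsl hdf
    rcases hF3 h hh f hf hne hsl with h1 | h1
    · exact eg_df_zero (hF1 h h1) f
    · rw [hF4 h h1, hdf]
  · intro f hf hne ε hε
    unfold lay
    refine setLIntegral_mono' (ea_meas D b f ε) ?_
    rintro h ⟨hh, hsl⟩
    refine ENNReal.ofReal_le_ofReal ?_
    rcases hF3 h hh f hf hne (hsl.trans hε) with h1 | h1
    · rw [eg_df_zero (hF1 h h1) f]
      have : (0 : ℝ) ^ 2 = 0 := by norm_num
      rw [this]
      exact sq_nonneg _
    · rw [hF4 h h1]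

/- END eh -/

/- MODULE ei
Induction over the finite set of supports (`(Fa D).image (sp D)`), with `κ / N` and `B + κ`.  The
number `s₁` is the maximum of the `s₁` of the steps. -/

private theorem ei_ind {D : Finset (ℤ × ℤ)} {b : ℤ × ℤ → ℝ} (hb : ∀ z, |b z| ≤ 1 / 2)
    {W F : (D → ℝ) → ℝ} (hW : Wok W) {C : ℝ} (hF : Fok F C) {r : ℝ} (hr : 0 < r) {M : ℝ}
    (hM : 0 ≤ M) (P : Finset (Finset (ℤ × ℤ))) :
    ∀ B κ : ℝ, 0 ≤ B → 0 < κ →
    ∃ s₁ ε₁ : ℝ, 1 ≤ s₁ ∧ 0 < ε₁ ∧ ε₁ ≤ r ∧ ∀ s, s₁ ≤ s → ∀ w : D → (D → ℝ) → ℝ,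
      (∀ x, ContDiff ℝ ∞ (w x)) → (∀ x, ∀ h ∈ K D b, |w x h| ≤ M) → Zer D b r w →
      ET D b w ≤ ENNReal.ofReal B →
      (∀ f ∈ Fa D, sp D f ∈ P → lay D b (1 / s ^ 2) w f ≤ ENNReal.ofReal (B / s ^ 3)) →
      ∃ w' : D → (D → ℝ) → ℝ, (∀ x, ContDiff ℝ ∞ (w' x)) ∧ (∀ x, ∀ h ∈ K D b, |w' x h| ≤ M) ∧
        Zer D b r w' ∧ ET D b w' ≤ ET D b w + ENNReal.ofReal κ ∧
        EK D b W (fun h => ∑ x, gr (w' x) h) ≤ EK D b W (fun h => ∑ x, gr (w x) h) + κ ∧
        |EK D b W (fun h => ∑ x, pd x F h * w x h) -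
          EK D b W (fun h => ∑ x, pd x F h * w' x h)| ≤ κ ∧
        (∀ h ∈ K D b, ∀ f ∈ Fa D, sp D f ∈ P → sl D b f h ≤ ε₁ → df D w' f h = 0) ∧
        (∀ h ∈ K D b, ∀ f ∈ Fa D, sp D f ∉ P → sl D b f h ≤ r → df D w f h = 0 →
          df D w' f h = 0) ∧
        (∀ f ∈ Fa D, sp D f ∉ P → ∀ ε, ε ≤ r → lay D b ε w' f ≤ lay D b ε w f) := by
  classical
  induction P using Finset.induction_on with
  | empty =>
    intro B κ hB hκ
    refine ⟨1, r, le_rfl, hr, le_rfl, fun s hs w h1 h2 h3 h4 _ => ⟨w, h1, h2, h3, le_self_add,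
      by linarith, ?_, fun h hh f hf hfP => ?_, fun h hh f hf _ _ hd => hd,
      fun f hf _ ε hε => le_rfl⟩⟩
    · rw [sub_self, abs_zero]
      exact hκ.le
    · exact absurd hfP (Finset.notMem_empty _)
  | insert p P' hp ih =>
    intro B κ hB hκ
    by_cases hex : ∃ f₀ ∈ Fa D, sp D f₀ = p
    · obtain ⟨f₀, hf₀, hfp⟩ := hex
      obtain ⟨s', ε', hs', hε', hεr, H1⟩ := ih B (κ / 2) hB (by positivity)
      obtain ⟨s'', ε'', hs'', hε'', H2⟩ := facet_step hb hW hF hf₀ hr hM (B := B + κ)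
        (by positivity) (κ := κ / 2) (by positivity)
      refine ⟨max (max s' s'') (1 / r), min ε' ε'', ?_, lt_min hε' hε'',
        (min_le_left _ _).trans hεr, ?_⟩
      · exact hs'.trans ((le_max_left _ _).trans (le_max_left _ _))
      intro s hs w h1 h2 h3 h4 h5
      have hsa : s' ≤ s := ((le_max_left _ _).trans (le_max_left _ _)).trans hs
      have hsb : s'' ≤ s := ((le_max_right _ _).trans (le_max_left _ _)).trans hs
      have hsc : 1 / r ≤ s := (le_max_right _ _).trans hs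
      have hs1 : 1 ≤ s := hs'.trans hsa
      have hs2 : 1 / s ^ 2 ≤ r := by
        rw [div_le_iff₀ (by positivity)]
        rw [div_le_iff₀ hr] at hsc
        nlinarith
      obtain ⟨w1, a1, a2, a3, a4, a5, a6, a7, a8, a9⟩ := H1 s hsa w h1 h2 h3 h4
        (fun f hf hfP => h5 f hf (Finset.mem_insert_of_mem hfP))
      have e1 : ET D b w1 ≤ ENNReal.ofReal (B + κ) := by
        refine a4.trans ?_
        calc ET D b w + ENNReal.ofReal (κ / 2) ≤ ENNReal.ofReal B + ENNReal.ofReal (κ / 2) := by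
              gcongr
          _ = ENNReal.ofReal (B + κ / 2) := (ENNReal.ofReal_add hB (by positivity)).symm
          _ ≤ ENNReal.ofReal (B + κ) := ENNReal.ofReal_le_ofReal (by linarith)
      have e2 : ∀ f ∈ Fa D, sp D f = sp D f₀ →
          lay D b (1 / s ^ 2) w1 f ≤ ENNReal.ofReal ((B + κ) / s ^ 3) := by
        intro f hf hff
        have hfp' : sp D f = p := hff.trans hfp
        refine (a9 f hf (by rw [hfp']; exact hp) _ hs2).trans ?_
        refine (h5 f hf (by rw [hfp']; exact Finset.mem_insert_self _ _)).trans ?_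
        refine ENNReal.ofReal_le_ofReal ?_
        gcongr
        linarith
      obtain ⟨w2, b1, b2, b3, b4, b5, b6, b7, b8, b9⟩ := H2 s hsb w1 a1 a2 a3 e1 e2
      refine ⟨w2, b1, b2, b3, ?_, by linarith, ?_, ?_, ?_, ?_⟩
      · calc ET D b w2 ≤ ET D b w1 + ENNReal.ofReal (κ / 2) := b4
          _ ≤ ET D b w + ENNReal.ofReal (κ / 2) + ENNReal.ofReal (κ / 2) := by gcongr
          _ = ET D b w + ENNReal.ofReal κ := by
              rw [add_assoc, ← ENNReal.ofReal_add (by positivity) (by positivity), add_halves]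
      · have := abs_sub_le (EK D b W (fun h => ∑ x, pd x F h * w x h))
          (EK D b W (fun h => ∑ x, pd x F h * w1 x h))
          (EK D b W (fun h => ∑ x, pd x F h * w2 x h))
        linarith
      · intro h hh f hf hfP hsl
        by_cases hfp' : sp D f = p
        · exact b7 h hh f hf (hfp'.trans hfp.symm) (hsl.trans (min_le_right _ _))
        · have hfP' : sp D f ∈ P' := (Finset.mem_insert.1 hfP).resolve_left hfp'
          refine b8 h hh f hf (fun he => hfp' (he.trans hfp))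
            ((hsl.trans (min_le_left _ _)).trans hεr) ?_
          exact a7 h hh f hf hfP' (hsl.trans (min_le_left _ _))
      · intro h hh f hf hfP hsl hd
        have hfP' : sp D f ∉ P' := fun he => hfP (Finset.mem_insert_of_mem he)
        have hfp' : sp D f ≠ p := fun he => hfP (by rw [he]; exact Finset.mem_insert_self _ _)
        exact b8 h hh f hf (fun he => hfp' (he.trans hfp)) hsl (a8 h hh f hf hfP' hsl hd)
      · intro f hf hfP ε hε
        have hfP' : sp D f ∉ P' := fun he => hfP (Finset.mem_insert_of_mem he)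
        have hfp' : sp D f ≠ p := fun he => hfP (by rw [he]; exact Finset.mem_insert_self _ _)
        exact (b9 f hf (fun he => hfp' (he.trans hfp)) ε hε).trans (a9 f hf hfP' ε hε)
    · have hex' : ∀ f ∈ Fa D, (sp D f ∈ insert p P' ↔ sp D f ∈ P') := by
        intro f hf
        rw [Finset.mem_insert]
        exact or_iff_right fun he => hex ⟨f, hf, he⟩
      obtain ⟨s', ε', hs', hε', hεr, H1⟩ := ih B κ hB hκ
      refine ⟨s', ε', hs', hε', hεr, fun s hs w h1 h2 h3 h4 h5 => ?_⟩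
      obtain ⟨w1, a1, a2, a3, a4, a5, a6, a7, a8, a9⟩ := H1 s hs w h1 h2 h3 h4
        (fun f hf hfP => h5 f hf (Finset.mem_insert_of_mem hfP))
      exact ⟨w1, a1, a2, a3, a4, a5, a6, fun h hh f hf hfP => a7 h hh f hf ((hex' f hf).1 hfP),
        fun h hh f hf hfP => a8 h hh f hf (fun he => hfP ((hex' f hf).2 he)),
        fun f hf hfP => a9 f hf (fun he => hfP ((hex' f hf).2 he))⟩

theorem facet_all {D : Finset (ℤ × ℤ)} {b : ℤ × ℤ → ℝ} (hb : ∀ z, |b z| ≤ 1 / 2)
    {W F : (D → ℝ) → ℝ} (hW : Wok W) {C : ℝ} (hF : Fok F C) {r : ℝ} (hr : 0 < r) {M B : ℝ}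
    (hM : 0 ≤ M) (hB : 0 ≤ B) {κ : ℝ} (hκ : 0 < κ) :
    ∃ s₁ ε₁ : ℝ, 1 ≤ s₁ ∧ 0 < ε₁ ∧ ∀ s, s₁ ≤ s → ∀ w : D → (D → ℝ) → ℝ,
      (∀ x, ContDiff ℝ ∞ (w x)) → (∀ x, ∀ h ∈ K D b, |w x h| ≤ M) → Zer D b r w →
      ET D b w ≤ ENNReal.ofReal B →
      (∀ f ∈ Fa D, lay D b (1 / s ^ 2) w f ≤ ENNReal.ofReal (B / s ^ 3)) →
      ∃ w' : D → (D → ℝ) → ℝ, Nice D b ε₁ M w' ∧
        EK D b W (fun h => ∑ x, gr (w' x) h) ≤ EK D b W (fun h => ∑ x, gr (w x) h) + κ ∧
        |EK D b W (fun h => ∑ x, pd x F h * w x h) -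
          EK D b W (fun h => ∑ x, pd x F h * w' x h)| ≤ κ := by
  classical
  obtain ⟨s₁, ε₁, hs₁, hε₁, _, H⟩ := ei_ind hb hW hF hr hM ((Fa D).image (sp D)) B κ hB hκ
  refine ⟨s₁, ε₁, hs₁, hε₁, fun s hs w h1 h2 h3 h4 h5 => ?_⟩
  obtain ⟨w', a1, a2, a3, a4, a5, a6, a7, _, _⟩ := H s hs w h1 h2 h3 h4 (fun f hf _ => h5 f hf)
  refine ⟨w', ⟨hε₁, a1, ?_, a2⟩, a5, a6⟩
  intro h hh x hx i hxi
  have key : ∀ σ : Bool, sl D b (x, i, σ) h ≤ ε₁ →
      g0 D (fun y => w' y h) x = g0 D (fun y => w' y h) (x + st i) := by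
    intro σ hσ
    have hf : (x, i, σ) ∈ Fa D := by
      unfold Fa
      simp [hx]
    have := a7 h hh (x, i, σ) hf (Finset.mem_image_of_mem _ hf) hσ
    unfold df at this
    linarith
  rcases sl_abs.1 hxi with h6 | h6
  · exact key true h6
  · exact key false h6

/- END ei -/

/- MODULE ej
THE NICE-FIELD LEMMA.  `soft_field` (constants `B`, `s₀`), `M` large for `trunc_lin`, `η₂` small for
`scal_field` with `χ` from `codim_cut` (gives `r`), `facet_all`; `s` large.  The energies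
`EK (∑ gr)` are at most a constant times `B`. -/

private theorem ej_cgr {D : Finset (ℤ × ℤ)} {f : (D → ℝ) → ℝ} (hf : ContDiff ℝ ∞ f) :
    Continuous (gr f) := by
  unfold gr
  refine continuous_finsetSum _ fun x _ => ?_
  have h1 : Continuous (pd x f) := by
    unfold pd
    exact (hf.continuous_fderiv (by simp)).clm_apply continuous_const
  exact h1.pow 2

private theorem ej_gr0 {D : Finset (ℤ × ℤ)} (f : (D → ℝ) → ℝ) (h : D → ℝ) : 0 ≤ gr f h := by
  unfold gr
  exact Finset.sum_nonneg fun x _ => sq_nonneg _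

private theorem ej_ms {D : Finset (ℤ × ℤ)} {f : (D → ℝ) → ℝ} (hf : ContDiff ℝ ∞ f) :
    Measurable (fun h => ENNReal.ofReal (gr f h)) :=
  (ej_cgr hf).measurable.ennreal_ofReal

private theorem ej_en {D : Finset (ℤ × ℤ)} {b : ℤ × ℤ → ℝ} {W : (D → ℝ) → ℝ} (hW : Wok W)
    {w : D → (D → ℝ) → ℝ} (hw : ∀ x, ContDiff ℝ ∞ (w x)) {B : ℝ} (hB : 0 ≤ B)
    (hE : ET D b w ≤ ENNReal.ofReal B) :
    EK D b W (fun h => ∑ x, gr (w x) h) ≤ B := by
  have hc : Continuous (fun h => ∑ x, gr (w x) h) :=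
    continuous_finsetSum _ fun x _ => ej_cgr (hw x)
  have hcW : Continuous W := hW.temp.1.continuous
  have h0 : ∀ h, 0 ≤ ∑ x, gr (w x) h := fun h => Finset.sum_nonneg fun x _ => ej_gr0 _ _
  have hc2 : Continuous (fun h => (∑ x, gr (w x) h) * Real.exp (- W h)) :=
    hc.mul (Real.continuous_exp.comp hcW.neg)
  have e : EK D b W (fun h => ∑ x, gr (w x) h) =
      (∫⁻ h in K D b, ENNReal.ofReal ((∑ x, gr (w x) h) * Real.exp (- W h))).toReal := by
    unfold EK
    exact integral_eq_lintegral_of_nonneg_ae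
      (Filter.Eventually.of_forall fun h => mul_nonneg (h0 h) (Real.exp_pos _).le)
      hc2.aestronglyMeasurable
  rw [e]
  refine ENNReal.toReal_le_of_le_ofReal hB (le_trans ?_ hE)
  unfold ET Gr
  rw [← lintegral_finsetSum _ fun x _ => ej_ms (hw x)]
  refine lintegral_mono fun h => ?_
  rw [← ENNReal.ofReal_sum_of_nonneg fun x _ => ej_gr0 _ _]
  refine ENNReal.ofReal_le_ofReal ?_
  have h1 : Real.exp (- W h) ≤ 1 := Real.exp_le_one_iff.2 (by linarith [hW.nonneg h])
  exact mul_le_of_le_one_right (h0 h) h1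

private theorem ej_mul {D : Finset (ℤ × ℤ)} {χ f : (D → ℝ) → ℝ} (hχ : ContDiff ℝ ∞ χ)
    (hf : ContDiff ℝ ∞ f) {M : ℝ} {h : D → ℝ} (h01 : 0 ≤ χ h ∧ χ h ≤ 1) (hM : |f h| ≤ M) :
    gr (fun h => χ h * f h) h ≤ 2 * gr f h + 2 * M ^ 2 * gr χ h := by
  unfold gr
  rw [Finset.mul_sum, Finset.mul_sum, ← Finset.sum_add_distrib]
  refine Finset.sum_le_sum fun x _ => ?_
  rw [pd_mul ((hχ.differentiable (by simp)) h) ((hf.differentiable (by simp)) h) x]
  have h1 : (χ h) ^ 2 ≤ 1 := by nlinarith [h01.1, h01.2]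
  have h2 : (f h) ^ 2 ≤ M ^ 2 := by
    rw [← sq_abs]
    exact pow_le_pow_left₀ (abs_nonneg _) hM 2
  have h3 : (χ h * pd x f h) ^ 2 ≤ (pd x f h) ^ 2 := by
    rw [mul_pow]
    exact mul_le_of_le_one_left (sq_nonneg _) h1
  have h4 : (pd x χ h * f h) ^ 2 ≤ M ^ 2 * (pd x χ h) ^ 2 := by
    rw [mul_pow, mul_comm]
    exact mul_le_mul_of_nonneg_right h2 (sq_nonneg _)
  nlinarith [sq_nonneg (pd x χ h * f h - χ h * pd x f h)]

private theorem ej_ET {D : Finset (ℤ × ℤ)} {b : ℤ × ℤ → ℝ} {χ : (D → ℝ) → ℝ}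
    (hχ : ContDiff ℝ ∞ χ) (h01 : ∀ h, 0 ≤ χ h ∧ χ h ≤ 1) {w : D → (D → ℝ) → ℝ}
    (hw : ∀ x, ContDiff ℝ ∞ (w x)) {M B η : ℝ} (hM : ∀ x, ∀ h ∈ K D b, |w x h| ≤ M)
    (hB : 0 ≤ B) (hη : 0 ≤ η) (hE : ET D b w ≤ ENNReal.ofReal B)
    (h2 : ∫⁻ h in K D b, ENNReal.ofReal (gr χ h) ≤ ENNReal.ofReal η) :
    ET D b (fun x h => χ h * w x h) ≤
      ENNReal.ofReal (2 * B + (D.card : ℝ) * (2 * M ^ 2 * η)) := by
  have h3 : ∀ x, Gr D b (fun h => χ h * w x h) ≤
      ENNReal.ofReal 2 * Gr D b (w x) + ENNReal.ofReal (2 * M ^ 2 * η) := by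
    intro x
    unfold Gr
    calc ∫⁻ h in K D b, ENNReal.ofReal (gr (fun h => χ h * w x h) h)
        ≤ ∫⁻ h in K D b, (ENNReal.ofReal 2 * ENNReal.ofReal (gr (w x) h) +
            ENNReal.ofReal (2 * M ^ 2) * ENNReal.ofReal (gr χ h)) := by
          refine setLIntegral_mono' (K_meas D b) fun h hh => ?_
          rw [← ENNReal.ofReal_mul (by norm_num), ← ENNReal.ofReal_mul (by positivity),
            ← ENNReal.ofReal_add (mul_nonneg (by norm_num) (ej_gr0 _ _))
              (mul_nonneg (by positivity) (ej_gr0 _ _))]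
          exact ENNReal.ofReal_le_ofReal (ej_mul hχ (hw x) (h01 h) (hM x h hh))
      _ = ENNReal.ofReal 2 * (∫⁻ h in K D b, ENNReal.ofReal (gr (w x) h)) +
            ENNReal.ofReal (2 * M ^ 2) * ∫⁻ h in K D b, ENNReal.ofReal (gr χ h) := by
          rw [lintegral_add_left ((ej_ms (hw x)).const_mul _),
            lintegral_const_mul _ (ej_ms (hw x)), lintegral_const_mul _ (ej_ms hχ)]
      _ ≤ ENNReal.ofReal 2 * (∫⁻ h in K D b, ENNReal.ofReal (gr (w x) h)) +
            ENNReal.ofReal (2 * M ^ 2) * ENNReal.ofReal η := by gcongr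
      _ = _ := by rw [← ENNReal.ofReal_mul (by positivity)]
  unfold ET at hE ⊢
  calc ∑ x, Gr D b (fun h => χ h * w x h)
      ≤ ∑ x, (ENNReal.ofReal 2 * Gr D b (w x) + ENNReal.ofReal (2 * M ^ 2 * η)) :=
        Finset.sum_le_sum fun x _ => h3 x
    _ = ENNReal.ofReal 2 * (∑ x, Gr D b (w x)) +
          (Fintype.card D : ℝ≥0∞) * ENNReal.ofReal (2 * M ^ 2 * η) := by
        rw [Finset.sum_add_distrib, ← Finset.mul_sum, Finset.sum_const, Finset.card_univ,
          nsmul_eq_mul]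
    _ ≤ ENNReal.ofReal 2 * ENNReal.ofReal B +
          (Fintype.card D : ℝ≥0∞) * ENNReal.ofReal (2 * M ^ 2 * η) := by gcongr
    _ = _ := by
        rw [← ENNReal.ofReal_mul (by norm_num), Fintype.card_coe,
          ← ENNReal.ofReal_natCast, ← ENNReal.ofReal_mul (by positivity),
          ← ENNReal.ofReal_add (by positivity) (by positivity)]

theorem nice_field {D : Finset (ℤ × ℤ)} {b : ℤ × ℤ → ℝ} (hb : ∀ z, |b z| ≤ 1 / 2)
    {W F : (D → ℝ) → ℝ} (hW : Wok W) {C : ℝ} (hF : Fok F C) {η : ℝ} (hη : 0 < η) :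
    ∃ (ε M : ℝ) (w : D → (D → ℝ) → ℝ), Nice D b ε M w ∧
      VK D b W F ≤ 2 * EK D b W (fun h => ∑ x, pd x F h * w x h) -
        EK D b W (fun h => ∑ x, gr (w x) h) + η := by
  obtain ⟨B₀, s₀, hB₀, hs₀, H⟩ := soft_field hb hW hF (η := η / 4) (by positivity)
  have hcd : 0 ≤ |C| * (D.card : ℝ) := by positivity
  set M : ℝ := 1 + 32 * (|C| * (D.card : ℝ)) * B₀ / η with hMdef
  have hM1 : 1 ≤ M := by
    have : 0 ≤ 32 * (|C| * (D.card : ℝ)) * B₀ / η := by positivity
    linarith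
  have hM0 : 0 < M := by linarith
  obtain ⟨τ, hτ, hτ1, hτ2, hτ3, hτ4, hτ5⟩ := trunc_exists hM0
  set θ : ℝ := η / (16 * (B₀ + 1)) with hθdef
  have hθ : 0 < θ := by positivity
  set A : ℝ := (1 + 1 / θ) * (D.card : ℝ) * (2 * M) ^ 2 + |C| * (D.card : ℝ) * (2 * M) + 1 with hAdef
  have hA : 1 ≤ A := by
    have h1 : 0 ≤ (1 + 1 / θ) * (D.card : ℝ) * (2 * M) ^ 2 := by positivity
    have h2 : 0 ≤ |C| * (D.card : ℝ) * (2 * M) := by positivity
    linarith
  have hA0 : 0 < A := by linarith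
  set η₂ : ℝ := η / (16 * A) with hη₂def
  have hη₂ : 0 < η₂ := by positivity
  have hAη : A * η₂ = η / 16 := by
    rw [hη₂def]
    field_simp
  obtain ⟨χ, r, hr, hχ, h01, hχ2, hχ3, hχ4⟩ := codim_cut (D := D) hb hη₂
  set B : ℝ := 12 * B₀ + (2 * B₀ + (D.card : ℝ) * (2 * (2 * M) ^ 2 * η₂)) with hBdef
  have hB1 : 0 ≤ (D.card : ℝ) * (2 * (2 * M) ^ 2 * η₂) := by positivity
  have hB : 0 ≤ B := by positivity
  obtain ⟨s₁, ε₁, hs₁, hε₁, H1⟩ := facet_all hb hW hF hr (M := 2 * M) (B := B) (by positivity) hB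
    (κ := η / 16) (by positivity)
  obtain ⟨w, hw, hV, hET, hE2, hL⟩ := H (max s₀ s₁) (le_max_left _ _)
  set s : ℝ := max s₀ s₁ with hsdef
  have hs1 : 1 ≤ s := hs₀.trans (le_max_left _ _)
  obtain ⟨t1, t2, t3, t4⟩ := trunc_field (b := b) hW.temp.1.continuous hτ hτ3 hτ4 hτ5 hw
  have l1 := trunc_lin (b := b) hW hF hM0 hτ hτ3 hτ1 hw hB₀ hL
  set w1 : D → (D → ℝ) → ℝ := fun x h => τ (w x h) with hw1def
  have hM1' : ∀ x, ∀ h ∈ K D b, |w1 x h| ≤ 2 * M := fun x h _ => hτ2 _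
  have hET1 : ET D b w1 ≤ ENNReal.ofReal B₀ := by
    refine le_trans ?_ hET
    unfold ET Gr
    exact Finset.sum_le_sum fun x _ => lintegral_mono fun h => ENNReal.ofReal_le_ofReal (t2 x h)
  obtain ⟨c1, c2, c3⟩ := scal_field hW hF hχ h01 hη₂.le hχ2 hχ3 t1 (M := 2 * M) (by positivity)
    hM1' hθ
  set w2 : D → (D → ℝ) → ℝ := fun x h => χ h * w1 x h with hw2def
  have hw2 : ∀ x, ContDiff ℝ ∞ (w2 x) := fun x => hχ.mul (t1 x)
  have hM2 : ∀ x, ∀ h ∈ K D b, |w2 x h| ≤ 2 * M := by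
    intro x h hh
    have h1 := hM1' x h hh
    rw [hw2def]
    simp only [abs_mul, abs_of_nonneg (h01 h).1]
    exact (mul_le_of_le_one_left (abs_nonneg _) (h01 h).2).trans h1
  have hZer : Zer D b r w2 := by
    intro h hh f hf f' hf' hne h1 h2 x
    rw [hw2def]
    simp only [hχ4 h hh f hf f' hf' hne h1 h2, zero_mul]
  have hET2 : ET D b w2 ≤ ENNReal.ofReal B := by
    refine (ej_ET hχ h01 t1 hM1' hB₀ hη₂.le hET1 hχ2).trans (ENNReal.ofReal_le_ofReal ?_)
    rw [hBdef]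
    linarith
  have hlay : ∀ f ∈ Fa D, lay D b (1 / s ^ 2) w2 f ≤ ENNReal.ofReal (B / s ^ 3) := by
    intro f hf
    calc lay D b (1 / s ^ 2) w2 f ≤ lay D b (1 / s ^ 2) w1 f := c3 f _
      _ ≤ lay D b (1 / s ^ 2) w f := by
          unfold lay
          exact lintegral_mono fun h => ENNReal.ofReal_le_ofReal (t3 f h)
      _ ≤ ENNReal.ofReal (12 / s ^ 3) * E2 D b s w :=
          lay_le hs1 (fun x => (hw x).of_le (by norm_cast)) hf
      _ ≤ ENNReal.ofReal (12 / s ^ 3) * ENNReal.ofReal B₀ := by gcongr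
      _ = ENNReal.ofReal (12 / s ^ 3 * B₀) := (ENNReal.ofReal_mul (by positivity)).symm
      _ ≤ ENNReal.ofReal (B / s ^ 3) := by
          refine ENNReal.ofReal_le_ofReal ?_
          rw [div_mul_eq_mul_div]
          gcongr
          rw [hBdef]
          linarith
  obtain ⟨w', hN, hen, hlin⟩ := H1 s (le_max_right _ _) w2 hw2 hM2 hZer hET2 hlay
  refine ⟨ε₁, 2 * M, w', hN, ?_⟩
  have hC : C ≤ |C| := le_abs_self C
  have hd : (0 : ℝ) ≤ (D.card : ℝ) := Nat.cast_nonneg _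
  have n1 : 2 * C * (D.card : ℝ) * B₀ / M ≤ η / 16 := by
    rw [div_le_iff₀ hM0]
    have e1 : η / 16 * M = η / 16 + 2 * (|C| * (D.card : ℝ)) * B₀ := by
      rw [hMdef]
      field_simp
      ring
    have e2 : C * ((D.card : ℝ) * B₀) ≤ |C| * ((D.card : ℝ) * B₀) :=
      mul_le_mul_of_nonneg_right hC (by positivity)
    rw [e1]
    linarith
  have n2 : (1 + 1 / θ) * (D.card : ℝ) * (2 * M) ^ 2 * η₂ ≤ η / 16 := by
    rw [← hAη, hAdef]
    refine mul_le_mul_of_nonneg_right ?_ hη₂.le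
    have : 0 ≤ |C| * (D.card : ℝ) * (2 * M) := by positivity
    linarith
  have n3 : C * (D.card : ℝ) * (2 * M) * η₂ ≤ η / 16 := by
    rw [← hAη, hAdef]
    refine mul_le_mul_of_nonneg_right ?_ hη₂.le
    have e1 : 0 ≤ (1 + 1 / θ) * (D.card : ℝ) * (2 * M) ^ 2 := by positivity
    have e2 : C * ((D.card : ℝ) * (2 * M)) ≤ |C| * ((D.card : ℝ) * (2 * M)) :=
      mul_le_mul_of_nonneg_right hC (by positivity)
    linarith
  have n4 : θ * EK D b W (fun h => ∑ x, gr (w1 x) h) ≤ η / 16 := by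
    have e1 := ej_en hW t1 hB₀ hET1
    calc θ * EK D b W (fun h => ∑ x, gr (w1 x) h) ≤ θ * B₀ := mul_le_mul_of_nonneg_left e1 hθ.le
      _ ≤ η / 16 := by
          rw [hθdef, div_mul_eq_mul_div, div_le_div_iff₀ (by positivity) (by norm_num)]
          nlinarith
  have m1 := abs_le.1 (l1.trans n1)
  have m2 := abs_le.1 (c2.trans n3)
  have m3 := abs_le.1 hlin
  have m4 := c1
  linarith [m1.1, m1.2, m2.1, m2.2, m3.1, m3.2, t4, hen, hV, n2, n4]

/- END ej -/

/-- the normalised expectation for the uniform law on `K` -/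
def Ex (D : Finset (ℤ × ℤ)) (b : ℤ × ℤ → ℝ) (g : (D → ℝ) → ℝ) : ℝ :=
  ∫ h, g h ∂(ProbabilityTheory.cond volume (K D b))

/- MODULE ek
The case `W = 0`, normalised. -/

private theorem ek_pd {D : Finset (ℤ × ℤ)} (x : D) :
    pd x (fun _ : D → ℝ => (0 : ℝ)) = fun _ => 0 := by
  funext h
  unfold pd
  simp

private theorem ek_W (D : Finset (ℤ × ℤ)) : Wok (fun _ : D → ℝ => (0 : ℝ)) where
  temp := Function.HasTemperateGrowth.const _
  nonneg := fun _ => le_rfl
  grad := ⟨0, fun x h => by rw [ek_pd]; simp⟩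
  hess := ⟨0, fun x y h => by rw [ek_pd, ek_pd]; simp⟩
  conv := fun h k => by
    refine Finset.sum_nonneg fun x _ => Finset.sum_nonneg fun y _ => ?_
    rw [ek_pd, ek_pd]
    simp
  rad := fun h => by
    refine Finset.sum_nonneg fun x _ => ?_
    rw [ek_pd]
    simp

private theorem ek_Ex {D : Finset (ℤ × ℤ)} {b : ℤ × ℤ → ℝ} (g : (D → ℝ) → ℝ) :
    Ex D b g = ((Z D b).toReal)⁻¹ * EK D b (fun _ => 0) g := by
  unfold Ex EK ProbabilityTheory.cond
  rw [integral_smul_measure, ENNReal.toReal_inv, smul_eq_mul]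
  simp only [neg_zero, Real.exp_zero, mul_one]
  rfl

theorem nice_unif {D : Finset (ℤ × ℤ)} {b : ℤ × ℤ → ℝ} (hb : ∀ z, |b z| ≤ 1 / 2)
    {F : (D → ℝ) → ℝ} {C : ℝ} (hF : Fok F C) {η : ℝ} (hη : 0 < η) :
    ∃ (ε M : ℝ) (w : D → (D → ℝ) → ℝ), Nice D b ε M w ∧
      ProbabilityTheory.variance F (ProbabilityTheory.cond volume (K D b)) ≤
        2 * Ex D b (fun h => ∑ x, pd x F h * w x h) - Ex D b (fun h => ∑ x, gr (w x) h) + η := by
  have h1 : 1 ≤ Z D b := Z_one_le (fun z _ _ => hb z)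
  have hZ : 0 < (Z D b).toReal :=
    ENNReal.toReal_pos (by
      intro h0
      rw [h0] at h1
      exact absurd h1 (by norm_num)) (Z_lt_top D b).ne
  obtain ⟨ε, M, w, hN, hV⟩ := nice_field hb (ek_W D) hF (η := η * (Z D b).toReal) (by positivity)
  refine ⟨ε, M, w, hN, ?_⟩
  have hFc : Continuous F := hF.temp.1.continuous
  have hE1 : EK D b (fun _ => 0) (fun _ => 1) = (Z D b).toReal := by
    unfold EK
    simp only [neg_zero, Real.exp_zero, mul_one]
    rw [setIntegral_const, smul_eq_mul, mul_one]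
    rfl
  have hm : mK D b (fun _ => 0) F = Ex D b F := by
    unfold mK
    rw [hE1, ek_Ex]
    field_simp
  have hvar : ProbabilityTheory.variance F (ProbabilityTheory.cond volume (K D b)) =
      ((Z D b).toReal)⁻¹ * VK D b (fun _ => 0) F := by
    rw [ProbabilityTheory.variance_eq_integral hFc.measurable.aemeasurable]
    unfold VK
    rw [hm, ← ek_Ex]
    rfl
  rw [hvar, ek_Ex, ek_Ex]
  have h2 : ((Z D b).toReal)⁻¹ * VK D b (fun _ => 0) F ≤ ((Z D b).toReal)⁻¹ *
      (2 * EK D b (fun _ => 0) (fun h => ∑ x, pd x F h * w x h) -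
        EK D b (fun _ => 0) (fun h => ∑ x, gr (w x) h) + η * (Z D b).toReal) :=
    mul_le_mul_of_nonneg_left hV (by positivity)
  have h3 : ((Z D b).toReal)⁻¹ * (η * (Z D b).toReal) = η := by
    field_simp
  rw [mul_add, h3, mul_sub] at h2
  linarith

/- END ek -/

end Pool.Agent.Hgf
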