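import Pool.Agent.Hgf.Flw

import Pool.Agent.Hgf.Nice

/-!
# Hgf (MP_161523_pr, Q2): nonlinear Brascamp-Lieb inequality with mass weights
-/

set_option autoImplicit false

open MeasureTheory Set Filter

open scoped ENNReal ContDiff Topology

noncomputable section

namespace Pool.Agent.Hgf

open Pool.Agent.Hmk

/-- the weighted energy of the component at `z`, zero for `z ∉ D` -/
def TO (D S : Finset (ℤ × ℤ)) (b : ℤ × ℤ → ℝ) (om : ℤ × ℤ → ℝ → ℝ≥0∞) (w : D → (D → ℝ) → ℝ)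
    (z : ℤ × ℤ) : ℝ≥0∞ := if hz : z ∈ D then GO D S b om (w ⟨z, hz⟩) else 0

/- MODULE tg
As `edge_est` (module ke of Asm.lean) for tied fields, with `locw_free`, `locw_fix`.  All edges are
allowed: if `x ∉ D` and `x + st i ∈ D` reverse the edge (`st_neg`); if both are fixed the left side is
`0`.  `Van` for `g = w_x - w_y` on the edge `(x, y)`, and for `g = w_x` on an edge from `x` to a fixed
site, follows from `Tied`. -/

private theorem tg_g0 {D : Finset (ℤ × ℤ)} (k : D → ℝ) {x : ℤ × ℤ} (hx : x ∈ D) :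
    g0 D k x = k ⟨x, hx⟩ := by
  unfold g0 gl
  rw [dif_pos hx]

private theorem tg_g0' {D : Finset (ℤ × ℤ)} (k : D → ℝ) {x : ℤ × ℤ} (hx : x ∉ D) :
    g0 D k x = 0 := by
  unfold g0 gl
  rw [dif_neg hx]

private theorem tg_T {D S : Finset (ℤ × ℤ)} {b : ℤ × ℤ → ℝ} {om : ℤ × ℤ → ℝ → ℝ≥0∞}
    (w : D → (D → ℝ) → ℝ) {x : ℤ × ℤ} (hx : x ∈ D) :
    TO D S b om w x = GO D S b om (w ⟨x, hx⟩) := by
  unfold TO
  rw [dif_pos hx]

private theorem tg_gm {ι : Type*} [Fintype ι] [DecidableEq ι] {f : (ι → ℝ) → ℝ}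
    (hf : ContDiff ℝ 1 f) : Continuous (gr f) := by
  unfold gr pd
  have h1 : Continuous (fderiv ℝ f) := hf.continuous_fderiv (by norm_num)
  exact continuous_finsetSum _ fun x _ => (h1.clm_apply continuous_const).pow 2

private theorem tg_gs {ι : Type*} [Fintype ι] [DecidableEq ι] {f g : (ι → ℝ) → ℝ}
    (hf : ContDiff ℝ 1 f) (hg : ContDiff ℝ 1 g) (h : ι → ℝ) :
    gr (fun h => f h - g h) h ≤ 2 * gr f h + 2 * gr g h := by
  unfold gr
  rw [Finset.mul_sum, Finset.mul_sum, ← Finset.sum_add_distrib]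
  refine Finset.sum_le_sum fun x _ => ?_
  have h1 : pd x (fun h => f h - g h) h = pd x f h - pd x g h := by
    unfold pd
    rw [fderiv_fun_sub ((hf.differentiable (by norm_num)) h) ((hg.differentiable (by norm_num)) h)]
    rfl
  rw [h1]
  nlinarith [sq_nonneg (pd x f h + pd x g h)]

private theorem tg_GO {D S : Finset (ℤ × ℤ)} {b : ℤ × ℤ → ℝ} {om : ℤ × ℤ → ℝ → ℝ≥0∞}
    {ρ : ℤ × ℤ → Measure ℝ} (hM : Mix S om ρ) {f g : (D → ℝ) → ℝ}
    (hf : ContDiff ℝ 1 f) (hg : ContDiff ℝ 1 g) :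
    GO D S b om (fun h => f h - g h) ≤ 2 * GO D S b om f + 2 * GO D S b om g := by
  unfold GO
  have mO : Measurable fun h : D → ℝ => Om S om h := Om_meas hM
  have mf : Measurable fun h => Om S om h * ENNReal.ofReal (gr f h) :=
    mO.mul (ENNReal.measurable_ofReal.comp (tg_gm hf).measurable)
  have mg : Measurable fun h => Om S om h * ENNReal.ofReal (gr g h) :=
    mO.mul (ENNReal.measurable_ofReal.comp (tg_gm hg).measurable)
  rw [← lintegral_const_mul _ mf, ← lintegral_const_mul _ mg,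
    ← lintegral_add_left (mf.const_mul _)]
  refine lintegral_mono fun h => ?_
  have h0 : ∀ f : (D → ℝ) → ℝ, 0 ≤ gr f h := fun f => Finset.sum_nonneg fun x _ => sq_nonneg _
  have h1 := tg_gs hf hg h
  calc Om S om h * ENNReal.ofReal (gr (fun h => f h - g h) h) ≤
        Om S om h * ENNReal.ofReal (2 * gr f h + 2 * gr g h) :=
        mul_le_mul' le_rfl (ENNReal.ofReal_le_ofReal h1)
    _ = _ := by
        rw [ENNReal.ofReal_add (by have := h0 f; positivity) (by have := h0 g; positivity),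
          ENNReal.ofReal_mul (by norm_num), ENNReal.ofReal_mul (by norm_num)]
        simp only [ENNReal.ofReal_ofNat]
        ring

private theorem tg_rt (a : ℝ≥0∞) : (2 * a) ^ (1 / 2 : ℝ) ≤ 2 * a ^ (1 / 2 : ℝ) := by
  rw [ENNReal.mul_rpow_of_nonneg _ _ (by norm_num)]
  refine mul_le_mul' ?_ le_rfl
  calc (2 : ℝ≥0∞) ^ (1 / 2 : ℝ) ≤ 2 ^ (1 : ℝ) :=
        ENNReal.rpow_le_rpow_of_exponent_le (by norm_num) (by norm_num)
    _ = 2 := ENNReal.rpow_one 2

private theorem tg_rt2 (a b : ℝ≥0∞) :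
    (2 * a + 2 * b) ^ (1 / 2 : ℝ) ≤ 2 * (a ^ (1 / 2 : ℝ) + b ^ (1 / 2 : ℝ)) := by
  calc (2 * a + 2 * b) ^ (1 / 2 : ℝ) ≤ (2 * a) ^ (1 / 2 : ℝ) + (2 * b) ^ (1 / 2 : ℝ) :=
        ENNReal.rpow_add_le_add_rpow _ _ (by norm_num) (by norm_num)
    _ ≤ 2 * a ^ (1 / 2 : ℝ) + 2 * b ^ (1 / 2 : ℝ) := add_le_add (tg_rt a) (tg_rt b)
    _ = _ := by ring

private theorem tg_fix {C : ℝ≥0∞} (hC : LocW C) {D S : Finset (ℤ × ℤ)} {b : ℤ × ℤ → ℝ}
    (hb : ∀ z, |b z| ≤ 1 / 2) {om : ℤ × ℤ → ℝ → ℝ≥0∞} {ρ : ℤ × ℤ → Measure ℝ} (hM : Mix S om ρ)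
    {w : D → (D → ℝ) → ℝ} (hw : ∀ x, ContDiff ℝ 1 (w x)) {ε : ℝ} (hε : 0 < ε)
    (ht : Tied D b ε w) {x : ℤ × ℤ} (hx : x ∈ D) (hf : ∃ i, x + st i ∉ D)
    (hS : ∀ z ∈ S, 2 ≤ dn (z - x)) :
    ∫⁻ h in K D b, Om S om h * ENNReal.ofReal |w ⟨x, hx⟩ h| ≤
      C * ZO D S b om ^ (1 / 2 : ℝ) * TO D S b om w x ^ (1 / 2 : ℝ) := by
  obtain ⟨j, hj, H⟩ := locw_fix hC hb hM hx hf hS
  rw [tg_T w hx]
  refine H (w ⟨x, hx⟩) (hw _) ?_
  intro h hh hs
  have h1 := ht h hh x hx j (by rw [hs]; linarith)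
  rw [tg_g0 _ hx, tg_g0' _ hj] at h1
  exact h1

private theorem tg_free {C : ℝ≥0∞} (hC : LocW C) {D S : Finset (ℤ × ℤ)} {b : ℤ × ℤ → ℝ}
    (hb : ∀ z, |b z| ≤ 1 / 2) {om : ℤ × ℤ → ℝ → ℝ≥0∞} {ρ : ℤ × ℤ → Measure ℝ} (hM : Mix S om ρ)
    {w : D → (D → ℝ) → ℝ} (hw : ∀ x, ContDiff ℝ 1 (w x)) {ε : ℝ} (hε : 0 < ε)
    (ht : Tied D b ε w) {x : ℤ × ℤ} (hx : x ∈ D) (hf : ∀ i, x + st i ∈ D)
    (hS : ∀ z ∈ S, 2 ≤ dn (z - x)) (i : Fin 6) :
    ∫⁻ h in K D b, Om S om h * ENNReal.ofReal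
        |g0 D (fun y => w y h) x - g0 D (fun y => w y h) (x + st i)| ≤
      4 * C * ZO D S b om ^ (1 / 2 : ℝ) *
        (TO D S b om w x ^ (1 / 2 : ℝ) + TO D S b om w (x + st i) ^ (1 / 2 : ℝ)) := by
  have hy := hf i
  have hv : Van D b x (x + st i) (fun h => w ⟨x, hx⟩ h - w ⟨x + st i, hy⟩ h) := by
    intro h hh hs
    have h1 := ht h hh x hx i (by rw [hs]; linarith)
    rw [tg_g0 _ hx, tg_g0 _ hy] at h1
    show w ⟨x, hx⟩ h - w ⟨x + st i, hy⟩ h = 0
    rw [h1, sub_self]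
  have h1 := locw_free hC hb hM hx hf hS i ((hw _).sub (hw _)) hv
  have h2 : ∫⁻ h in K D b, Om S om h * ENNReal.ofReal
        |g0 D (fun y => w y h) x - g0 D (fun y => w y h) (x + st i)| =
      ∫⁻ h in K D b, Om S om h * ENNReal.ofReal |w ⟨x, hx⟩ h - w ⟨x + st i, hy⟩ h| := by
    refine lintegral_congr fun h => ?_
    rw [tg_g0 _ hx, tg_g0 _ hy]
  rw [h2]
  refine h1.trans ?_
  have h3 : GO D S b om (fun h => w ⟨x, hx⟩ h - w ⟨x + st i, hy⟩ h) ^ (1 / 2 : ℝ) ≤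
      2 * (TO D S b om w x ^ (1 / 2 : ℝ) + TO D S b om w (x + st i) ^ (1 / 2 : ℝ)) := by
    refine le_trans (ENNReal.rpow_le_rpow (tg_GO hM (hw _) (hw _)) (by norm_num)) ?_
    rw [tg_T w hx, tg_T w hy]
    exact tg_rt2 _ _
  calc _ ≤ 2 * (C * ZO D S b om ^ (1 / 2 : ℝ) *
          (2 * (TO D S b om w x ^ (1 / 2 : ℝ) + TO D S b om w (x + st i) ^ (1 / 2 : ℝ)))) :=
        mul_le_mul' le_rfl (mul_le_mul' le_rfl h3)
    _ = _ := by ring

private theorem tg_st (i : Fin 6) : ∃ j : Fin 6, st i + st j = 0 := by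
  fin_cases i
  · exact ⟨3, by simp [st]⟩
  · exact ⟨4, by simp [st]⟩
  · exact ⟨5, by simp [st]⟩
  · exact ⟨0, by simp [st]⟩
  · exact ⟨1, by simp [st]⟩
  · exact ⟨2, by simp [st]⟩

theorem edge_w {C : ℝ≥0∞} (hC : LocW C) {D S : Finset (ℤ × ℤ)} {b : ℤ × ℤ → ℝ}
    (hb : ∀ z, |b z| ≤ 1 / 2) {om : ℤ × ℤ → ℝ → ℝ≥0∞} {ρ : ℤ × ℤ → Measure ℝ} (hM : Mix S om ρ)
    {w : D → (D → ℝ) → ℝ} (hw : ∀ x, ContDiff ℝ 1 (w x)) {ε : ℝ} (hε : 0 < ε)
    (ht : Tied D b ε w) (x : ℤ × ℤ) (i : Fin 6)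
    (hS : ∀ z ∈ S, 2 ≤ dn (z - x) ∧ 2 ≤ dn (z - (x + st i))) :
    ∫⁻ h in K D b, Om S om h * ENNReal.ofReal
        |g0 D (fun y => w y h) x - g0 D (fun y => w y h) (x + st i)| ≤
      4 * C * ZO D S b om ^ (1 / 2 : ℝ) *
        (TO D S b om w x ^ (1 / 2 : ℝ) + TO D S b om w (x + st i) ^ (1 / 2 : ℝ)) := by
  have hSx : ∀ z ∈ S, 2 ≤ dn (z - x) := fun z hz => (hS z hz).1
  have hSy : ∀ z ∈ S, 2 ≤ dn (z - (x + st i)) := fun z hz => (hS z hz).2
  have mO : Measurable fun h : D → ℝ => Om S om h := Om_meas hM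
  obtain ⟨j, hj⟩ := tg_st i
  have h3 : x + st i + st j = x := by rw [add_assoc, hj, add_zero]
  have t1 : ∀ A B : ℝ≥0∞, C * ZO D S b om ^ (1 / 2 : ℝ) * A ≤
      4 * C * ZO D S b om ^ (1 / 2 : ℝ) * (A + B) := by
    intro A B
    calc C * ZO D S b om ^ (1 / 2 : ℝ) * A
        = 1 * (C * ZO D S b om ^ (1 / 2 : ℝ) * (A + 0)) := by ring
      _ ≤ 4 * (C * ZO D S b om ^ (1 / 2 : ℝ) * (A + B)) :=
          mul_le_mul' (by norm_num) (mul_le_mul' le_rfl (add_le_add le_rfl zero_le))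
      _ = _ := by ring
  by_cases hx : x ∈ D
  · by_cases hfx : ∀ j, x + st j ∈ D
    · exact tg_free hC hb hM hw hε ht hx hfx hSx i
    push Not at hfx
    have h1 := tg_fix hC hb hM hw hε ht hx hfx hSx
    by_cases hy : x + st i ∈ D
    · by_cases hfy : ∀ j, (x + st i) + st j ∈ D
      · have h2 := tg_free hC hb hM hw hε ht hy hfy hSy j
        rw [h3, add_comm (TO D S b om w (x + st i) ^ (1 / 2 : ℝ))] at h2
        refine le_trans (le_of_eq ?_) h2
        refine lintegral_congr fun h => ?_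
        rw [abs_sub_comm]
      · push Not at hfy
        have h2 := tg_fix hC hb hM hw hε ht hy hfy hSy
        have m1 : Measurable fun h => Om S om h * ENNReal.ofReal |w ⟨x, hx⟩ h| :=
          mO.mul (ENNReal.measurable_ofReal.comp (hw _).continuous.abs.measurable)
        calc _ ≤ ∫⁻ h in K D b, (Om S om h * ENNReal.ofReal |w ⟨x, hx⟩ h| +
                Om S om h * ENNReal.ofReal |w ⟨x + st i, hy⟩ h|) := by
              refine lintegral_mono fun h => ?_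
              show _ ≤ Om S om h * ENNReal.ofReal |w ⟨x, hx⟩ h| +
                Om S om h * ENNReal.ofReal |w ⟨x + st i, hy⟩ h|
              rw [← mul_add, ← ENNReal.ofReal_add (abs_nonneg _) (abs_nonneg _)]
              refine mul_le_mul' le_rfl (ENNReal.ofReal_le_ofReal ?_)
              rw [tg_g0 _ hx, tg_g0 _ hy]
              exact abs_sub _ _
          _ = (∫⁻ h in K D b, Om S om h * ENNReal.ofReal |w ⟨x, hx⟩ h|) +
                ∫⁻ h in K D b, Om S om h * ENNReal.ofReal |w ⟨x + st i, hy⟩ h| :=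
              lintegral_add_left m1 _
          _ ≤ _ := add_le_add h1 h2
          _ = 1 * (C * ZO D S b om ^ (1 / 2 : ℝ) *
                (TO D S b om w x ^ (1 / 2 : ℝ) + TO D S b om w (x + st i) ^ (1 / 2 : ℝ))) := by
              ring
          _ ≤ 4 * (C * ZO D S b om ^ (1 / 2 : ℝ) *
                (TO D S b om w x ^ (1 / 2 : ℝ) + TO D S b om w (x + st i) ^ (1 / 2 : ℝ))) :=
              mul_le_mul' (by norm_num) le_rfl
          _ = _ := by ring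
    · calc _ = ∫⁻ h in K D b, Om S om h * ENNReal.ofReal |w ⟨x, hx⟩ h| := by
            refine lintegral_congr fun h => ?_
            rw [tg_g0 _ hx, tg_g0' _ hy, sub_zero]
        _ ≤ _ := h1
        _ ≤ _ := t1 _ _
  · by_cases hy : x + st i ∈ D
    · have h2 := tg_fix hC hb hM hw hε ht hy ⟨j, by rw [h3]; exact hx⟩ hSy
      calc _ = ∫⁻ h in K D b, Om S om h * ENNReal.ofReal |w ⟨x + st i, hy⟩ h| := by
            refine lintegral_congr fun h => ?_
            rw [tg_g0' _ hx, tg_g0 _ hy, zero_sub, abs_neg]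
        _ ≤ _ := h2
        _ ≤ _ := t1 _ (TO D S b om w x ^ (1 / 2 : ℝ))
        _ = _ := by rw [add_comm]
    · calc _ = ∫⁻ h in K D b, 0 := by
            refine lintegral_congr fun h => ?_
            rw [tg_g0' _ hx, tg_g0' _ hy, sub_self, abs_zero, ENNReal.ofReal_zero, mul_zero]
        _ = 0 := lintegral_zero
        _ ≤ _ := zero_le

/- END tg -/

/- MODULE th
As `sum_est` (module kf of Asm.lean). -/

private theorem th_sq (a b : ℝ≥0∞) : (a + b) ^ 2 ≤ 2 * a ^ 2 + 2 * b ^ 2 := by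
  rcases eq_or_ne a ⊤ with rfl | ha
  · simp
  rcases eq_or_ne b ⊤ with rfl | hb
  · simp
  lift a to NNReal using ha
  lift b to NNReal using hb
  norm_cast
  rw [← NNReal.coe_le_coe]
  push_cast
  nlinarith [sq_nonneg ((a : ℝ) - b)]

private theorem th_rt (a : ℝ≥0∞) : (a ^ (1 / 2 : ℝ)) ^ 2 = a := by
  rw [← ENNReal.rpow_natCast, ← ENNReal.rpow_mul]
  norm_num

private theorem th_tot {D S : Finset (ℤ × ℤ)} {b : ℤ × ℤ → ℝ} {om : ℤ × ℤ → ℝ → ℝ≥0∞}
    (w : D → (D → ℝ) → ℝ) :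
    ∑ x, GO D S b om (w x) = ∑ x ∈ D, TO D S b om w x := by
  rw [← Finset.sum_coe_sort D (fun x => TO D S b om w x)]
  refine Finset.sum_congr rfl fun x _ => ?_
  rw [tg_T w x.2]

private theorem th_sh {D S : Finset (ℤ × ℤ)} {b : ℤ × ℤ → ℝ} {om : ℤ × ℤ → ℝ → ℝ≥0∞}
    (w : D → (D → ℝ) → ℝ) (A : Finset (ℤ × ℤ)) (t : ℤ × ℤ) :
    ∑ x ∈ A, TO D S b om w (x + t) ≤ ∑ x, GO D S b om (w x) := by
  classical
  rw [th_tot w]
  have h1 : ∑ x ∈ A, TO D S b om w (x + t) = ∑ z ∈ A.image (fun x => x + t), TO D S b om w z := by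
    rw [Finset.sum_image]
    intro x _ y _ hxy
    exact add_right_cancel hxy
  rw [h1]
  calc _ ≤ ∑ z ∈ D ∪ A.image (fun x => x + t), TO D S b om w z :=
        Finset.sum_le_sum_of_subset Finset.subset_union_right
    _ = ∑ z ∈ D, TO D S b om w z := by
        refine (Finset.sum_subset Finset.subset_union_left fun z _ hz => ?_).symm
        unfold TO
        rw [dif_neg hz]

private theorem th_E {D S : Finset (ℤ × ℤ)} {b : ℤ × ℤ → ℝ} {om : ℤ × ℤ → ℝ → ℝ≥0∞}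
    (w : D → (D → ℝ) → ℝ) (E : Finset ((ℤ × ℤ) × Fin 6)) (t : Fin 6 → ℤ × ℤ) :
    ∑ e ∈ E, TO D S b om w (e.1 + t e.2) ≤ 6 * ∑ x, GO D S b om (w x) := by
  classical
  calc ∑ e ∈ E, TO D S b om w (e.1 + t e.2)
      ≤ ∑ e ∈ E.image Prod.fst ×ˢ Finset.univ, TO D S b om w (e.1 + t e.2) := by
        refine Finset.sum_le_sum_of_subset fun e he => ?_
        rw [Finset.mem_product]
        exact ⟨Finset.mem_image_of_mem _ he, Finset.mem_univ _⟩
    _ = ∑ i : Fin 6, ∑ x ∈ E.image Prod.fst, TO D S b om w (x + t i) := by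
        rw [Finset.sum_product, Finset.sum_comm]
    _ ≤ ∑ _i : Fin 6, ∑ x, GO D S b om (w x) :=
        Finset.sum_le_sum fun i _ => th_sh w _ (t i)
    _ = _ := by
        simp only [Finset.sum_const, Finset.card_univ, Fintype.card_fin, nsmul_eq_mul]
        push_cast
        ring

theorem sum_w {C : ℝ≥0∞} (hC : LocW C) {D S : Finset (ℤ × ℤ)} {b : ℤ × ℤ → ℝ}
    (hb : ∀ z, |b z| ≤ 1 / 2) {om : ℤ × ℤ → ℝ → ℝ≥0∞} {ρ : ℤ × ℤ → Measure ℝ} (hM : Mix S om ρ)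
    {w : D → (D → ℝ) → ℝ} (hw : ∀ x, ContDiff ℝ 1 (w x)) {ε : ℝ} (hε : 0 < ε)
    (ht : Tied D b ε w) (E : Finset ((ℤ × ℤ) × Fin 6))
    (hS : ∀ e ∈ E, ∀ z ∈ S, 2 ≤ dn (z - e.1) ∧ 2 ≤ dn (z - (e.1 + st e.2))) :
    ∑ e ∈ E, (∫⁻ h in K D b, Om S om h * ENNReal.ofReal
        |g0 D (fun y => w y h) e.1 - g0 D (fun y => w y h) (e.1 + st e.2)|) ^ 2 ≤
      768 * C ^ 2 * ZO D S b om * ∑ x, GO D S b om (w x) := by
  have h1 : ∀ e ∈ E, (∫⁻ h in K D b, Om S om h * ENNReal.ofReal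
        |g0 D (fun y => w y h) e.1 - g0 D (fun y => w y h) (e.1 + st e.2)|) ^ 2 ≤
      32 * C ^ 2 * ZO D S b om * TO D S b om w (e.1 + 0) +
        32 * C ^ 2 * ZO D S b om * TO D S b om w (e.1 + st e.2) := by
    intro e he
    refine (pow_le_pow_left' (edge_w hC hb hM hw hε ht e.1 e.2 (hS e he)) 2).trans ?_
    have h2 := th_sq (TO D S b om w e.1 ^ (1 / 2 : ℝ)) (TO D S b om w (e.1 + st e.2) ^ (1 / 2 : ℝ))
    rw [th_rt, th_rt] at h2
    rw [add_zero]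
    calc _ = 16 * C ^ 2 * (ZO D S b om ^ (1 / 2 : ℝ)) ^ 2 *
            (TO D S b om w e.1 ^ (1 / 2 : ℝ) + TO D S b om w (e.1 + st e.2) ^ (1 / 2 : ℝ)) ^ 2 := by
          ring
      _ ≤ 16 * C ^ 2 * (ZO D S b om ^ (1 / 2 : ℝ)) ^ 2 *
            (2 * TO D S b om w e.1 + 2 * TO D S b om w (e.1 + st e.2)) := mul_le_mul' le_rfl h2
      _ = _ := by
          rw [th_rt]
          ring
  calc _ ≤ ∑ e ∈ E, (32 * C ^ 2 * ZO D S b om * TO D S b om w (e.1 + 0) +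
        32 * C ^ 2 * ZO D S b om * TO D S b om w (e.1 + st e.2)) := Finset.sum_le_sum h1
    _ = 32 * C ^ 2 * ZO D S b om * (∑ e ∈ E, TO D S b om w (e.1 + 0)) +
        32 * C ^ 2 * ZO D S b om * ∑ e ∈ E, TO D S b om w (e.1 + st e.2) := by
        rw [Finset.sum_add_distrib, Finset.mul_sum, Finset.mul_sum]
    _ ≤ 32 * C ^ 2 * ZO D S b om * (6 * ∑ x, GO D S b om (w x)) +
        32 * C ^ 2 * ZO D S b om * (6 * ∑ x, GO D S b om (w x)) :=
        add_le_add (mul_le_mul' le_rfl (th_E w E fun _ => 0))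
          (mul_le_mul' le_rfl (th_E w E st))
    _ = 384 * (C ^ 2 * ZO D S b om * ∑ x, GO D S b om (w x)) := by ring
    _ ≤ 768 * (C ^ 2 * ZO D S b om * ∑ x, GO D S b om (w x)) :=
        mul_le_mul' (by norm_num) le_rfl
    _ = _ := by ring

/- END th -/

/-- the mass term on the sites of `S` -/
def Wph {D : Finset (ℤ × ℤ)} (S : Finset (ℤ × ℤ)) (t : ℝ) (h : D → ℝ) : ℝ :=
  t * ∑ x : D, if x.1 ∈ S then phi (h x) else 0

/- MODULE ti
`phi' z = z / √(1 + z^2)`, `phi'' z = (1 + z^2)^(-3/2)`; the Hessian of `Wph` is diagonal. -/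

private theorem ti_sq (z : ℝ) : 0 < 1 + z ^ 2 := by positivity

private theorem ti_sqrt (z : ℝ) :
    HasDerivAt (fun z : ℝ => Real.sqrt (1 + z ^ 2)) (z / Real.sqrt (1 + z ^ 2)) z := by
  have h1 : HasDerivAt (fun z : ℝ => 1 + z ^ 2) (2 * z) z := by
    have := (hasDerivAt_pow 2 z).const_add 1
    simpa using this
  have h2 := h1.sqrt (ti_sq z).ne'
  rwa [mul_div_mul_left _ _ two_ne_zero] at h2

private theorem ti_phi (z : ℝ) : HasDerivAt phi (z / Real.sqrt (1 + z ^ 2)) z :=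
  (ti_sqrt z).sub_const 1

private theorem ti_phi1 (z : ℝ) : HasDerivAt (fun z : ℝ => z / Real.sqrt (1 + z ^ 2))
    ((Real.sqrt (1 + z ^ 2))⁻¹ ^ 3) z := by
  have hs : 0 < Real.sqrt (1 + z ^ 2) := Real.sqrt_pos.mpr (ti_sq z)
  have h2 := (hasDerivAt_id z).div (ti_sqrt z) hs.ne'
  refine h2.congr_deriv ?_
  have h3 : Real.sqrt (1 + z ^ 2) ^ 2 = 1 + z ^ 2 := Real.sq_sqrt (ti_sq z).le
  simp only [id]
  field_simp
  rw [h3]
  ring

private theorem ti_le (z : ℝ) : |z / Real.sqrt (1 + z ^ 2)| ≤ 1 := by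
  have hs : 0 < Real.sqrt (1 + z ^ 2) := Real.sqrt_pos.mpr (ti_sq z)
  rw [abs_div, abs_of_pos hs, div_le_one hs]
  exact Real.abs_le_sqrt (by linarith)

private theorem ti_inv (z : ℝ) : 0 ≤ (Real.sqrt (1 + z ^ 2))⁻¹ ^ 3 ∧
    (Real.sqrt (1 + z ^ 2))⁻¹ ^ 3 ≤ 1 := by
  have hs : 1 ≤ Real.sqrt (1 + z ^ 2) := by
    rw [Real.one_le_sqrt]
    nlinarith [sq_nonneg z]
  have h1 : 0 ≤ (Real.sqrt (1 + z ^ 2))⁻¹ := by positivity
  exact ⟨pow_nonneg h1 3, pow_le_one₀ h1 (inv_le_one_of_one_le₀ hs)⟩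

private theorem ti_ev {D : Finset (ℤ × ℤ)} (t : ℝ) (c : D → ℝ) (x : D) :
    (t • ∑ y : D, c y • (ContinuousLinearMap.proj y : (D → ℝ) →L[ℝ] ℝ)) (Pi.single x 1) =
      t * c x := by
  simp [Pi.single_apply]

private theorem ti_ev2 {D : Finset (ℤ × ℤ)} (t c : ℝ) (x y : D) :
    (t • c • (ContinuousLinearMap.proj x : (D → ℝ) →L[ℝ] ℝ)) (Pi.single y 1) =
      if y = x then t * c else 0 := by
  by_cases h : y = x
  · subst h
    simp
  · have h' : x ≠ y := fun e => h e.symm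
    simp [h, h']

private theorem ti_pd {D : Finset (ℤ × ℤ)} (S : Finset (ℤ × ℤ)) (t : ℝ) (x : D) (h : D → ℝ) :
    pd x (Wph (D := D) S t) h =
      t * (if x.1 ∈ S then h x / Real.sqrt (1 + (h x) ^ 2) else 0) := by
  have h1 : HasFDerivAt (Wph (D := D) S t) (t • ∑ y : D,
      (if y.1 ∈ S then h y / Real.sqrt (1 + (h y) ^ 2) else 0) •
        (ContinuousLinearMap.proj y : (D → ℝ) →L[ℝ] ℝ)) h := by
    unfold Wph
    refine HasFDerivAt.const_mul (HasFDerivAt.fun_sum fun y _ => ?_) t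
    by_cases hy : y.1 ∈ S
    · simp only [hy, if_true]
      exact (ti_phi (h y)).comp_hasFDerivAt h
        (ContinuousLinearMap.proj (R := ℝ) (φ := fun _ : D => ℝ) y).hasFDerivAt
    · simp only [hy, if_false, zero_smul]
      exact hasFDerivAt_const _ _
  unfold pd
  rw [h1.fderiv]
  exact ti_ev t (fun y : D => if y.1 ∈ S then h y / Real.sqrt (1 + (h y) ^ 2) else 0) x

private theorem ti_pd2 {D : Finset (ℤ × ℤ)} (S : Finset (ℤ × ℤ)) (t : ℝ) (x y : D)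
    (h : D → ℝ) : pd y (pd x (Wph (D := D) S t)) h =
      if y = x then t * (if x.1 ∈ S then (Real.sqrt (1 + (h x) ^ 2))⁻¹ ^ 3 else 0) else 0 := by
  have e : pd x (Wph (D := D) S t) = fun h : D → ℝ =>
      t * (if x.1 ∈ S then h x / Real.sqrt (1 + (h x) ^ 2) else 0) :=
    funext fun h => ti_pd S t x h
  rw [e]
  have h1 : HasFDerivAt (fun h : D → ℝ =>
      t * (if x.1 ∈ S then h x / Real.sqrt (1 + (h x) ^ 2) else 0)) (t •
      (if x.1 ∈ S then (Real.sqrt (1 + (h x) ^ 2))⁻¹ ^ 3 else 0) •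
        (ContinuousLinearMap.proj x : (D → ℝ) →L[ℝ] ℝ)) h := by
    refine HasFDerivAt.const_mul ?_ t
    by_cases hy : x.1 ∈ S
    · simp only [hy, if_true]
      exact (ti_phi1 (h x)).comp_hasFDerivAt h
        (ContinuousLinearMap.proj (R := ℝ) (φ := fun _ : D => ℝ) x).hasFDerivAt
    · simp only [hy, if_false, zero_smul]
      exact hasFDerivAt_const _ _
  unfold pd
  rw [h1.fderiv]
  exact ti_ev2 t _ x y

theorem Wph_ok {D : Finset (ℤ × ℤ)} (S : Finset (ℤ × ℤ)) {t : ℝ} (ht : 0 ≤ t) :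
    Wok (Wph (D := D) S t) := by
  obtain ⟨p1, p2, p3, p4, p5, p6⟩ := phi_props
  refine ⟨?_, ?_, ?_, ?_, ?_, ?_⟩
  · unfold Wph
    refine (Function.HasTemperateGrowth.const t).mul ?_
    refine Function.HasTemperateGrowth.sum (s := Finset.univ)
      (f := fun (x : D) (h : D → ℝ) => if x.1 ∈ S then phi (h x) else 0) fun x _ => ?_
    by_cases hx : x.1 ∈ S
    · simp only [hx, if_true]
      exact p6.comp (ContinuousLinearMap.proj (R := ℝ) (φ := fun _ : D => ℝ) x).hasTemperateGrowth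
    · simp only [hx, if_false]
      exact Function.HasTemperateGrowth.const 0
  · intro h
    unfold Wph
    refine mul_nonneg ht (Finset.sum_nonneg fun x _ => ?_)
    split_ifs
    · exact p1 _
    · exact le_rfl
  · refine ⟨t, fun x h => ?_⟩
    rw [ti_pd, abs_mul, abs_of_nonneg ht]
    refine mul_le_of_le_one_right ht ?_
    split_ifs
    · exact ti_le _
    · simp
  · refine ⟨t, fun x y h => ?_⟩
    rw [ti_pd2]
    split_ifs
    · rw [abs_mul, abs_of_nonneg ht]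
      refine mul_le_of_le_one_right ht ?_
      rw [abs_of_nonneg (ti_inv _).1]
      exact (ti_inv _).2
    · simpa using ht
    · simpa using ht
  · intro h k
    refine Finset.sum_nonneg fun x _ => ?_
    have h1 : ∑ y, pd y (pd x (Wph (D := D) S t)) h * k x * k y =
        t * (if x.1 ∈ S then (Real.sqrt (1 + (h x) ^ 2))⁻¹ ^ 3 else 0) * k x * k x := by
      rw [Finset.sum_eq_single x]
      · rw [ti_pd2, if_pos rfl]
      · intro y _ hyx
        rw [ti_pd2, if_neg hyx, zero_mul, zero_mul]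
      · intro hx
        exact absurd (Finset.mem_univ x) hx
    rw [h1]
    have h2 : 0 ≤ (if x.1 ∈ S then (Real.sqrt (1 + (h x) ^ 2))⁻¹ ^ 3 else 0) := by
      split_ifs
      · exact (ti_inv _).1
      · exact le_rfl
    have h3 : 0 ≤ k x * k x := mul_self_nonneg _
    calc (0 : ℝ) ≤ t * (if x.1 ∈ S then (Real.sqrt (1 + (h x) ^ 2))⁻¹ ^ 3 else 0) * (k x * k x) :=
          mul_nonneg (mul_nonneg ht h2) h3
      _ = _ := by ring
  · intro h
    refine Finset.sum_nonneg fun x _ => ?_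
    rw [ti_pd]
    by_cases hx : x.1 ∈ S
    · rw [if_pos hx]
      calc (0 : ℝ) ≤ t * ((h x * h x) / Real.sqrt (1 + (h x) ^ 2)) :=
            mul_nonneg ht (div_nonneg (mul_self_nonneg _) (Real.sqrt_nonneg _))
        _ = _ := by ring
    · rw [if_neg hx]
      simp

/-- for `t > 0` use `phi_mix`, for `t = 0` the set `S' = ∅` -/
theorem Wph_mix (S : Finset (ℤ × ℤ)) {t : ℝ} (ht : 0 ≤ t) :
    ∃ (S' : Finset (ℤ × ℤ)) (om : ℤ × ℤ → ℝ → ℝ≥0∞) (ρ : ℤ × ℤ → Measure ℝ),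
      Mix S' om ρ ∧ S' ⊆ S ∧ ∀ (D : Finset (ℤ × ℤ)) (h : D → ℝ),
        Om S' om h = ENNReal.ofReal (Real.exp (- Wph S t h)) := by
  rcases ht.eq_or_lt with h0 | h0
  · refine ⟨∅, fun _ _ => 1, fun _ => 0, ⟨by simp, by simp, by simp⟩, by simp, ?_⟩
    intro D h
    unfold Om Wph
    rw [← h0]
    simp
  · obtain ⟨ρ, hρ⟩ := phi_mix S h0
    refine ⟨S, _, ρ, hρ, subset_rfl, ?_⟩
    intro D h
    unfold Om Wph
    have h1 : ∀ x : D, (if x.1 ∈ S then ENNReal.ofReal (Real.exp (- (t * phi (h x)))) else 1) =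
        ENNReal.ofReal (Real.exp (- (t * if x.1 ∈ S then phi (h x) else 0))) := by
      intro x
      split_ifs
      · rfl
      · simp
    rw [Finset.prod_congr rfl fun x _ => h1 x,
      ← ENNReal.ofReal_prod_of_nonneg fun x _ => (Real.exp_pos _).le, ← Real.exp_sum,
      Finset.mul_sum, Finset.sum_neg_distrib]

/- END ti -/

/- MODULE tj
THE NONLINEAR BRASCAMP-LIEB INEQUALITY.  `nice_field` with `W = Wph S t`, `sum_w` with the weights of
`Wph_mix` (`locw_exists`); Cauchy-Schwarz: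
`EK (∑ pd F w) ≤ ∑ T_e ∫ |∇_e w| e^{-W} ≤ (∑ T_e^2)^(1/2) (C' Z ∑ ∫ gr w e^{-W})^(1/2)`, so
`VK ≤ 2 (A C' Z Q)^(1/2) - Q + η ≤ A C' Z + η`. -/

theorem blw : ∃ C : ℝ, 0 ≤ C ∧ ∀ (D S : Finset (ℤ × ℤ)) (b : ℤ × ℤ → ℝ), (∀ z, |b z| ≤ 1 / 2) →
    ∀ t : ℝ, 0 ≤ t → ∀ (F : (D → ℝ) → ℝ) (Cf : ℝ), Fok F Cf →
    ∀ (E : Finset ((ℤ × ℤ) × Fin 6)) (τ : (ℤ × ℤ) × Fin 6 → (D → ℝ) → ℝ)
      (T : (ℤ × ℤ) × Fin 6 → ℝ),
      (∀ h k : D → ℝ, ∑ x, pd x F h * k x =
        ∑ e ∈ E, τ e h * (g0 D k e.1 - g0 D k (e.1 + st e.2))) →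
      (∀ e ∈ E, ∀ h ∈ K D b, |τ e h| ≤ T e) →
      (∀ e ∈ E, ∀ z ∈ S, 2 ≤ dn (z - e.1) ∧ 2 ≤ dn (z - (e.1 + st e.2))) →
      VK D b (Wph S t) F ≤ C * (∑ e ∈ E, (T e) ^ 2) * EK D b (Wph S t) (fun _ => 1) := by
  obtain ⟨C0, hC0, hC⟩ := locw_exists
  refine ⟨768 * C0.toReal ^ 2, by positivity, ?_⟩
  intro D S b hb t ht F Cf hF E τ T hpar hτ hS
  obtain ⟨S', om, ρ, hM, hSS, hOm⟩ := Wph_mix S ht
  set W : (D → ℝ) → ℝ := Wph S t with hW
  have hWok : Wok W := Wph_ok S ht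
  have hWc : Continuous W := hWok.temp.1.continuous
  have hKm := K_meas D b
  -- conversion to lower integrals
  have hconv : ∀ g : (D → ℝ) → ℝ, Continuous g → (∀ h, 0 ≤ g h) →
      ∫⁻ h in K D b, Om S' om h * ENNReal.ofReal (g h) = ENNReal.ofReal (EK D b W g) := by
    intro g hg hg0
    unfold EK
    rw [ofReal_integral_eq_lintegral_ofReal (EK_int b hWc hg)
      (Eventually.of_forall fun h => mul_nonneg (hg0 h) (Real.exp_pos _).le)]
    refine lintegral_congr fun h => ?_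
    rw [hOm, ENNReal.ofReal_mul (hg0 h), mul_comm]
  have hnn : ∀ g : (D → ℝ) → ℝ, (∀ h, 0 ≤ g h) → 0 ≤ EK D b W g := by
    intro g hg
    unfold EK
    exact integral_nonneg fun h => mul_nonneg (hg h) (Real.exp_pos _).le
  set Zr : ℝ := EK D b W (fun _ => 1) with hZr
  have hZ0 : 0 ≤ Zr := hnn _ fun _ => zero_le_one
  refine le_of_forall_pos_le_add fun η hη => ?_
  obtain ⟨ε, M, w, hN, hV⟩ := nice_field hb hWok hF hη
  have hw1 : ∀ x, ContDiff ℝ 1 (w x) := fun x => (hN.smooth x).of_le (by norm_cast)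
  have hgrc : ∀ x, Continuous (gr (w x)) := fun x => tg_gm (hw1 x)
  have hgr0 : ∀ (x : D) (h : D → ℝ), 0 ≤ gr (w x) h := fun x h =>
    Finset.sum_nonneg fun y _ => sq_nonneg _
  set Q : ℝ := EK D b W (fun h => ∑ x, gr (w x) h) with hQ
  have hQ0 : 0 ≤ Q := hnn _ fun h => Finset.sum_nonneg fun x _ => hgr0 x h
  set d : (ℤ × ℤ) × Fin 6 → (D → ℝ) → ℝ := fun e h =>
    g0 D (fun y => w y h) e.1 - g0 D (fun y => w y h) (e.1 + st e.2) with hd
  have hgc : ∀ z : ℤ × ℤ, Continuous (fun h : D → ℝ => g0 D (fun y => w y h) z) := by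
    intro z
    by_cases hz : z ∈ D
    · have : (fun h : D → ℝ => g0 D (fun y => w y h) z) = w ⟨z, hz⟩ := by
        funext h
        exact tg_g0 _ hz
      rw [this]
      exact (hN.smooth _).continuous
    · have : (fun h : D → ℝ => g0 D (fun y => w y h) z) = fun _ => 0 := by
        funext h
        exact tg_g0' _ hz
      rw [this]
      exact continuous_const
  have hdc : ∀ e, Continuous (d e) := fun e => (hgc _).sub (hgc _)
  set I : (ℤ × ℤ) × Fin 6 → ℝ := fun e => EK D b W (fun h => |d e h|) with hI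
  have hI0 : ∀ e, 0 ≤ I e := fun e => hnn _ fun h => abs_nonneg _
  -- first step
  have hpdc : ∀ x, Continuous (pd x F) := by
    intro x
    have h1 : ContDiff ℝ 1 F := hF.temp.1.of_le (by norm_cast)
    unfold pd
    exact (h1.continuous_fderiv (by norm_num)).clm_apply continuous_const
  have s1 : EK D b W (fun h => ∑ x, pd x F h * w x h) ≤ ∑ e ∈ E, T e * I e := by
    have e1 : ∑ e ∈ E, T e * I e = EK D b W (fun h => ∑ e ∈ E, T e * |d e h|) := by
      unfold EK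
      have e2 : ∀ h : D → ℝ, (∑ e ∈ E, T e * |d e h|) * Real.exp (- W h) =
          ∑ e ∈ E, T e * (|d e h| * Real.exp (- W h)) := by
        intro h
        rw [Finset.sum_mul]
        exact Finset.sum_congr rfl fun e _ => by ring
      simp only [e2]
      rw [integral_finsetSum _ fun e _ => (EK_int b hWc (hdc e).abs).const_mul _]
      refine Finset.sum_congr rfl fun e _ => ?_
      rw [integral_const_mul]
      rfl
    rw [e1]
    unfold EK
    refine setIntegral_mono_on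
      (EK_int b hWc (continuous_finsetSum _ fun x _ => (hpdc x).mul (hN.smooth x).continuous))
      (EK_int b hWc (continuous_finsetSum _ fun e _ => (hdc e).abs.const_mul _)) hKm ?_
    intro h hh
    refine mul_le_mul_of_nonneg_right ?_ (Real.exp_pos _).le
    show ∑ x, pd x F h * w x h ≤ ∑ e ∈ E, T e * |d e h|
    rw [hpar h (fun x => w x h)]
    refine Finset.sum_le_sum fun e he => ?_
    calc τ e h * d e h ≤ |τ e h * d e h| := le_abs_self _
      _ = |τ e h| * |d e h| := abs_mul _ _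
      _ ≤ T e * |d e h| := mul_le_mul_of_nonneg_right (hτ e he h hh) (abs_nonneg _)
  -- second step
  have s2 : ∑ e ∈ E, (I e) ^ 2 ≤ 768 * C0.toReal ^ 2 * Zr * Q := by
    have h1 := sum_w hC hb hM hw1 hN.pos hN.tied E
      (fun e he z hz => hS e he z (hSS hz))
    have h2 : ∀ e ∈ E, (∫⁻ h in K D b, Om S' om h * ENNReal.ofReal
        |g0 D (fun y => w y h) e.1 - g0 D (fun y => w y h) (e.1 + st e.2)|) ^ 2 =
        ENNReal.ofReal ((I e) ^ 2) := by
      intro e _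
      rw [hconv (fun h => |d e h|) (hdc e).abs fun h => abs_nonneg _,
        ENNReal.ofReal_pow (hI0 e)]
    have h3 : ZO D S' b om = ENNReal.ofReal Zr := by
      have := hconv (fun _ => 1) continuous_const fun _ => zero_le_one
      simp only [ENNReal.ofReal_one, mul_one] at this
      exact this
    have h4 : ∑ x, GO D S' b om (w x) = ENNReal.ofReal Q := by
      have e1 : Q = ∑ x, EK D b W (fun h => gr (w x) h) := by
        rw [hQ]
        unfold EK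
        simp only [Finset.sum_mul]
        exact integral_finsetSum _ fun x _ => EK_int b hWc (hgrc x)
      rw [e1, ENNReal.ofReal_sum_of_nonneg fun x _ => hnn _ fun h => hgr0 x h]
      refine Finset.sum_congr rfl fun x _ => ?_
      exact hconv (fun h => gr (w x) h) (hgrc x) (hgr0 x)
    rw [Finset.sum_congr rfl h2, ← ENNReal.ofReal_sum_of_nonneg fun e _ => sq_nonneg _, h3, h4]
      at h1
    have h5 : 768 * C0 ^ 2 * ENNReal.ofReal Zr * ENNReal.ofReal Q =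
        ENNReal.ofReal (768 * C0.toReal ^ 2 * Zr * Q) := by
      rw [ENNReal.ofReal_mul (by positivity), ENNReal.ofReal_mul (by positivity),
        ENNReal.ofReal_mul (by norm_num), ENNReal.ofReal_pow ENNReal.toReal_nonneg,
        ENNReal.ofReal_toReal hC0.ne]
      simp
    rw [h5] at h1
    exact (ENNReal.ofReal_le_ofReal_iff (by positivity)).mp h1
  have s3 : (∑ e ∈ E, T e * I e) ^ 2 ≤ (∑ e ∈ E, (T e) ^ 2) * ∑ e ∈ E, (I e) ^ 2 :=
    Finset.sum_mul_sq_le_sq_mul_sq _ _ _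
  set L : ℝ := ∑ e ∈ E, T e * I e with hL
  have hA0 : 0 ≤ ∑ e ∈ E, (T e) ^ 2 := Finset.sum_nonneg fun e _ => sq_nonneg _
  set A : ℝ := ∑ e ∈ E, (T e) ^ 2 with hA
  set P : ℝ := 768 * C0.toReal ^ 2 * A * Zr with hP
  have hP0 : 0 ≤ P := by positivity
  have s4 : L ^ 2 ≤ P * Q := by
    calc L ^ 2 ≤ A * ∑ e ∈ E, (I e) ^ 2 := s3
      _ ≤ A * (768 * C0.toReal ^ 2 * Zr * Q) := mul_le_mul_of_nonneg_left s2 hA0
      _ = P * Q := by rw [hP]; ring
  have s5 : 2 * L ≤ P + Q := by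
    by_contra hcon
    push Not at hcon
    nlinarith [sq_nonneg (P - Q)]
  linarith

/- END tj -/

end Pool.Agent.Hgf
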