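import Pool.Agent.Hmk.Em

/-!
# Hgf (MP_161523_pr, Q2): the polytope with walls

`Kw R S c r γ`: configurations of `K R c` with `|h x - γ x| ≤ r x` for the sites `x ∈ R ∩ S`.
The theorems of `Hmk.Zf` (log-concavity, four functions, tower property, centering, volume lemma)
and the exponential moment of `Hmk.Em` for walls.  All proofs are adaptations of the proofs there:
the wall condition has the same form as an edge condition (`γ x` is the value of a ghost site).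
-/

set_option autoImplicit false

open MeasureTheory Set Filter

open scoped ENNReal ContDiff Topology

noncomputable section

namespace Pool.Agent.Hgf

open Pool.Agent.Hmk

/-- admissible configurations with walls -/
def Kw (R S : Finset (ℤ × ℤ)) (c r γ : ℤ × ℤ → ℝ) : Set (R → ℝ) :=
  {h | h ∈ K R c ∧ ∀ x ∈ R, x ∈ S → |gl R c h x - γ x| ≤ r x}

/-- their volume -/
def Zw (R S : Finset (ℤ × ℤ)) (c r γ : ℤ × ℤ → ℝ) : ℝ≥0∞ := volume (Kw R S c r γ)

/- MODULE ra
Basic facts.  Positivity: the cube `|h x| ≤ min (1/2) (min of the r x)` is contained in `Kw`. -/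

theorem Kw_sub (R S : Finset (ℤ × ℤ)) (c r γ : ℤ × ℤ → ℝ) : Kw R S c r γ ⊆ K R c :=
  fun _ hh => hh.1

theorem Kw_meas (R S : Finset (ℤ × ℤ)) (c r γ : ℤ × ℤ → ℝ) : MeasurableSet (Kw R S c r γ) := by
  have : Kw R S c r γ = K R c ∩ ⋂ x ∈ R, ⋂ (_ : x ∈ S),
      {h : R → ℝ | |gl R c h x - γ x| ≤ r x} := by
    ext h
    simp only [Kw, mem_ofPred_eq, mem_inter_iff, mem_iInter]
  rw [this]
  exact (K_meas R c).inter (Finset.measurableSet_biInter _ fun x _ => MeasurableSet.iInter fun _ =>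
    measurableSet_le (((gl_meas R c x).sub measurable_const).abs) measurable_const)

theorem Kw_convex (R S : Finset (ℤ × ℤ)) (c r γ : ℤ × ℤ → ℝ) : Convex ℝ (Kw R S c r γ) := by
  intro h hh h' hh' a b ha hb hab
  refine ⟨K_convex R c hh.1 hh'.1 ha hb hab, fun x hx hS => ?_⟩
  have h1 := hh.2 x hx hS
  have h2 := hh'.2 x hx hS
  rw [gl_mem hx] at h1 h2 ⊢
  have e : (a • h + b • h') ⟨x, hx⟩ - γ x = a * (h ⟨x, hx⟩ - γ x) + b * (h' ⟨x, hx⟩ - γ x) := by
    have e1 : (a • h + b • h') ⟨x, hx⟩ = a * h ⟨x, hx⟩ + b * h' ⟨x, hx⟩ := rfl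
    rw [e1]
    have e2 : b = 1 - a := by linarith
    rw [e2]
    ring
  rw [e]
  calc |a * (h ⟨x, hx⟩ - γ x) + b * (h' ⟨x, hx⟩ - γ x)|
      ≤ |a * (h ⟨x, hx⟩ - γ x)| + |b * (h' ⟨x, hx⟩ - γ x)| := abs_add_le _ _
    _ = a * |h ⟨x, hx⟩ - γ x| + b * |h' ⟨x, hx⟩ - γ x| := by
        rw [abs_mul, abs_mul, abs_of_nonneg ha, abs_of_nonneg hb]
    _ ≤ a * r x + b * r x :=
        add_le_add (mul_le_mul_of_nonneg_left h1 ha) (mul_le_mul_of_nonneg_left h2 hb)
    _ = r x := by rw [← add_mul, hab, one_mul]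

theorem Zw_lt_top (R S : Finset (ℤ × ℤ)) (c r γ : ℤ × ℤ → ℝ) : Zw R S c r γ < ⊤ :=
  (measure_mono (Kw_sub R S c r γ)).trans_lt (Z_lt_top R c)

private theorem ra_min (S : Finset (ℤ × ℤ)) (r : ℤ × ℤ → ℝ) (hr : ∀ x ∈ S, 0 < r x) :
    ∃ e : ℝ, 0 < e ∧ e ≤ 1 / 2 ∧ ∀ x ∈ S, e ≤ r x := by
  classical
  induction S using Finset.induction_on with
  | empty => exact ⟨1 / 2, by norm_num, le_rfl, fun x hx => absurd hx (Finset.notMem_empty x)⟩
  | insert y S _ ih =>
    obtain ⟨e, h0, h1, h2⟩ := ih fun x hx => hr x (Finset.mem_insert_of_mem hx)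
    refine ⟨min e (r y), lt_min h0 (hr y (Finset.mem_insert_self _ _)),
      (min_le_left _ _).trans h1, fun x hx => ?_⟩
    rcases Finset.mem_insert.1 hx with h3 | h3
    · rw [h3]
      exact min_le_right _ _
    · exact (min_le_left _ _).trans (h2 x h3)

theorem Zw_pos {R S : Finset (ℤ × ℤ)} {c r : ℤ × ℤ → ℝ}
    (hc : ∀ z, z ∉ R → (∃ x ∈ R, ∃ i, z = x + st i) → |c z| ≤ 1 / 2) (hr : ∀ x ∈ S, 0 < r x) :
    0 < Zw R S c r (fun _ => 0) := by
  obtain ⟨e, h0, h1, h2⟩ := ra_min S r hr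
  have hsub : Icc (fun _ : R => (-e : ℝ)) (fun _ => (e : ℝ)) ⊆ Kw R S c r (fun _ => 0) := by
    intro h hh
    have h3 : ∀ x (hx : x ∈ R), |gl R c h x| ≤ e := fun x hx => by
      rw [gl_mem hx]
      exact abs_le.2 ⟨hh.1 _, hh.2 _⟩
    refine ⟨fun x hx i => ?_, fun x hx hS => ?_⟩
    · have h4 : |gl R c h x| ≤ 1 / 2 := (h3 x hx).trans h1
      have h5 : |gl R c h (x + st i)| ≤ 1 / 2 := by
        by_cases hz : x + st i ∈ R
        · exact (h3 _ hz).trans h1
        · rw [gl_not_mem hz]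
          exact hc _ hz ⟨x, hx, i, rfl⟩
      rw [abs_le] at h4 h5 ⊢
      constructor <;> linarith [h4.1, h4.2, h5.1, h5.2]
    · rw [sub_zero]
      exact (h3 x hx).trans (h2 x hS)
  refine lt_of_lt_of_le ?_ (measure_mono hsub)
  rw [Real.volume_Icc_pi, Finset.prod_const]
  exact ENNReal.pow_pos (ENNReal.ofReal_pos.2 (by linarith)) _

theorem Zw_loc {R S : Finset (ℤ × ℤ)} {c c' r γ : ℤ × ℤ → ℝ}
    (H : ∀ z, z ∉ R → (∃ x ∈ R, ∃ i, z = x + st i) → c z = c' z) :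
    Zw R S c r γ = Zw R S c' r γ := by
  unfold Zw Kw
  rw [K_loc H]
  congr 1
  ext h
  constructor
  · rintro ⟨h1, h2⟩
    refine ⟨h1, fun x hx hS => ?_⟩
    have h3 := h2 x hx hS
    rw [gl_mem hx] at h3 ⊢
    exact h3
  · rintro ⟨h1, h2⟩
    refine ⟨h1, fun x hx hS => ?_⟩
    have h3 := h2 x hx hS
    rw [gl_mem hx] at h3 ⊢
    exact h3

/- END ra -/

/- MODULE rb
As `Z_pl`, `Z_neg`, `Z_shift` (module zc of Zf.lean). -/

private theorem rb_ind (R S : Finset (ℤ × ℤ)) (c r γ : ℤ × ℤ → ℝ) :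
    Measurable ((Kw R S c r γ).indicator (fun _ => (1 : ℝ≥0∞))) ∧
      ∫⁻ x, (Kw R S c r γ).indicator (fun _ => (1 : ℝ≥0∞)) x = Zw R S c r γ := by
  refine ⟨measurable_const.indicator (Kw_meas R S c r γ), ?_⟩
  rw [lintegral_indicator_const (Kw_meas R S c r γ), one_mul]
  rfl

theorem Zw_pl (R S : Finset (ℤ × ℤ)) (c c' r γ γ' : ℤ × ℤ → ℝ) {θ : ℝ} (h0 : 0 < θ) (h1 : θ < 1) :
    Zw R S c r γ ^ θ * Zw R S c' r γ' ^ (1 - θ) ≤
      Zw R S (fun z => θ * c z + (1 - θ) * c' z) r (fun z => θ * γ z + (1 - θ) * γ' z) := by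
  have h2 := pl_fin (rb_ind R S c r γ).1 (rb_ind R S c' r γ').1
    (rb_ind R S (fun z => θ * c z + (1 - θ) * c' z) r (fun z => θ * γ z + (1 - θ) * γ' z)).1
    h0 h1 (by
    intro x y
    by_cases hx : x ∈ Kw R S c r γ
    · by_cases hy : y ∈ Kw R S c' r γ'
      · have e : (θ • x + (1 - θ) • y) = (fun w => θ * x w + (1 - θ) * y w) := rfl
        rw [indicator_of_mem hx, indicator_of_mem hy, indicator_of_mem, ENNReal.one_rpow,
          ENNReal.one_rpow, one_mul]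
        refine ⟨fun z hz i => ?_, fun z hz hS => ?_⟩
        · rw [e, gl_comb R c c' x y θ (1 - θ) z, gl_comb R c c' x y θ (1 - θ) (z + st i)]
          have h3 := abs_le.1 (hx.1 z hz i)
          have h4 := abs_le.1 (hy.1 z hz i)
          rw [abs_le]
          constructor
          · nlinarith [h3.1, h4.1]
          · nlinarith [h3.2, h4.2]
        · rw [e, gl_comb R c c' x y θ (1 - θ) z]
          have h3 := abs_le.1 (hx.2 z hz hS)
          have h4 := abs_le.1 (hy.2 z hz hS)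
          rw [abs_le]
          constructor
          · nlinarith [h3.1, h4.1]
          · nlinarith [h3.2, h4.2]
      · rw [indicator_of_notMem hy, ENNReal.zero_rpow_of_pos (by linarith), mul_zero]
        exact bot_le
    · rw [indicator_of_notMem hx, ENNReal.zero_rpow_of_pos h0, zero_mul]
      exact bot_le)
  rwa [(rb_ind R S c r γ).2, (rb_ind R S c' r γ').2,
    (rb_ind R S (fun z => θ * c z + (1 - θ) * c' z) r (fun z => θ * γ z + (1 - θ) * γ' z)).2] at h2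

theorem Zw_neg (R S : Finset (ℤ × ℤ)) (c r γ : ℤ × ℤ → ℝ) :
    Zw R S (fun z => - c z) r (fun z => - γ z) = Zw R S c r γ := by
  unfold Zw
  have e : Kw R S (fun z => - c z) r (fun z => - γ z) = Neg.neg ⁻¹' (Kw R S c r γ) := by
    ext h
    have hg : ∀ z, gl R (fun z => - c z) h z = - gl R c (-h) z := by
      intro z
      unfold gl
      by_cases hz : z ∈ R
      · rw [dif_pos hz, dif_pos hz]
        simp
      · rw [dif_neg hz, dif_neg hz]
    have e1 : ∀ z i, |gl R (fun z => - c z) h z - gl R (fun z => - c z) h (z + st i)| =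
        |gl R c (-h) z - gl R c (-h) (z + st i)| := fun z i => by
      rw [hg, hg, ← abs_neg]
      congr 1
      ring
    have e2 : ∀ z, |gl R (fun z => - c z) h z - - γ z| = |gl R c (-h) z - γ z| := fun z => by
      rw [hg, ← abs_neg]
      congr 1
      ring
    constructor
    · rintro ⟨h1, h2⟩
      refine ⟨fun x hx i => ?_, fun x hx hS => ?_⟩
      · rw [← e1]
        exact h1 x hx i
      · rw [← e2]
        exact h2 x hx hS
    · rintro ⟨h1, h2⟩
      refine ⟨fun x hx i => ?_, fun x hx hS => ?_⟩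
      · rw [e1]
        exact h1 x hx i
      · rw [e2]
        exact h2 x hx hS
  rw [e]
  exact Measure.measure_preimage_neg volume (Kw R S c r γ)

theorem Zw_shift (R S : Finset (ℤ × ℤ)) (c r γ : ℤ × ℤ → ℝ) (t : ℝ) :
    Zw R S (fun z => c z + t) r (fun z => γ z + t) = Zw R S c r γ := by
  unfold Zw
  have e : Kw R S (fun z => c z + t) r (fun z => γ z + t) =
      (fun h => h + (fun _ => - t)) ⁻¹' (Kw R S c r γ) := by
    ext h
    have hg : ∀ z, gl R (fun z => c z + t) h z = gl R c (h + (fun _ => - t)) z + t := by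
      intro z
      unfold gl
      by_cases hz : z ∈ R
      · rw [dif_pos hz, dif_pos hz]
        simp
      · rw [dif_neg hz, dif_neg hz]
    have e1 : ∀ z i, |gl R (fun z => c z + t) h z - gl R (fun z => c z + t) h (z + st i)| =
        |gl R c (h + (fun _ => - t)) z - gl R c (h + (fun _ => - t)) (z + st i)| := fun z i => by
      rw [hg, hg]
      congr 1
      ring
    have e2 : ∀ z, |gl R (fun z => c z + t) h z - (γ z + t)| =
        |gl R c (h + (fun _ => - t)) z - γ z| := fun z => by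
      rw [hg]
      congr 1
      ring
    constructor
    · rintro ⟨h1, h2⟩
      refine ⟨fun x hx i => ?_, fun x hx hS => ?_⟩
      · rw [← e1]
        exact h1 x hx i
      · rw [← e2]
        exact h2 x hx hS
    · rintro ⟨h1, h2⟩
      refine ⟨fun x hx i => ?_, fun x hx hS => ?_⟩
      · rw [e1]
        exact h1 x hx i
      · rw [e2]
        exact h2 x hx hS
  rw [e]
  exact measure_preimage_add_right volume (fun _ => - t) (Kw R S c r γ)

/- END rb -/

/- MODULE rc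
As `Z_ad`, `Z_rad` (module zc of Zf.lean). -/

private theorem rc_ind (R S : Finset (ℤ × ℤ)) (c r γ : ℤ × ℤ → ℝ) :
    Measurable ((Kw R S c r γ).indicator (fun _ => (1 : ℝ≥0∞))) ∧
      ∫⁻ x, (Kw R S c r γ).indicator (fun _ => (1 : ℝ≥0∞)) x = Zw R S c r γ := by
  refine ⟨measurable_const.indicator (Kw_meas R S c r γ), ?_⟩
  rw [lintegral_indicator_const (Kw_meas R S c r γ), one_mul]
  rfl

theorem Zw_ad (R S : Finset (ℤ × ℤ)) (c c' r γ γ' : ℤ × ℤ → ℝ) :
    Zw R S c r γ * Zw R S c' r γ' ≤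
      Zw R S (fun z => min (c z) (c' z)) r (fun z => min (γ z) (γ' z)) *
        Zw R S (fun z => max (c z) (c' z)) r (fun z => max (γ z) (γ' z)) := by
  have h2 := ad_fin (rc_ind R S c r γ).1 (rc_ind R S c' r γ').1
    (rc_ind R S (fun z => min (c z) (c' z)) r (fun z => min (γ z) (γ' z))).1
    (rc_ind R S (fun z => max (c z) (c' z)) r (fun z => max (γ z) (γ' z))).1 (by
    intro x y
    by_cases hx : x ∈ Kw R S c r γ
    · by_cases hy : y ∈ Kw R S c' r γ'
      · have gmin : ∀ z, gl R (fun z => min (c z) (c' z)) (fun i => min (x i) (y i)) z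
            = min (gl R c x z) (gl R c' y z) := by
          intro z
          unfold gl
          by_cases hz : z ∈ R
          · rw [dif_pos hz, dif_pos hz, dif_pos hz]
          · rw [dif_neg hz, dif_neg hz, dif_neg hz]
        have gmax : ∀ z, gl R (fun z => max (c z) (c' z)) (fun i => max (x i) (y i)) z
            = max (gl R c x z) (gl R c' y z) := by
          intro z
          unfold gl
          by_cases hz : z ∈ R
          · rw [dif_pos hz, dif_pos hz, dif_pos hz]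
          · rw [dif_neg hz, dif_neg hz, dif_neg hz]
        rw [indicator_of_mem hx, indicator_of_mem hy, indicator_of_mem, indicator_of_mem]
        · refine ⟨fun z hz i => ?_, fun z hz hS => ?_⟩
          · rw [gmax, gmax]
            exact le_trans (abs_max_sub_max_le_max _ _ _ _) (max_le (hx.1 z hz i) (hy.1 z hz i))
          · rw [gmax]
            exact le_trans (abs_max_sub_max_le_max _ _ _ _) (max_le (hx.2 z hz hS) (hy.2 z hz hS))
        · refine ⟨fun z hz i => ?_, fun z hz hS => ?_⟩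
          · rw [gmin, gmin]
            exact le_trans (abs_min_sub_min_le_max _ _ _ _) (max_le (hx.1 z hz i) (hy.1 z hz i))
          · rw [gmin]
            exact le_trans (abs_min_sub_min_le_max _ _ _ _) (max_le (hx.2 z hz hS) (hy.2 z hz hS))
      · rw [indicator_of_notMem hy, mul_zero]
        exact bot_le
    · rw [indicator_of_notMem hx, zero_mul]
      exact bot_le)
  rwa [(rc_ind R S c r γ).2, (rc_ind R S c' r γ').2,
    (rc_ind R S (fun z => min (c z) (c' z)) r (fun z => min (γ z) (γ' z))).2,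
    (rc_ind R S (fun z => max (c z) (c' z)) r (fun z => max (γ z) (γ' z))).2] at h2

theorem Zw_rad (R S : Finset (ℤ × ℤ)) (c r γ : ℤ × ℤ → ℝ) {s : ℝ} (h0 : 0 ≤ s) (h1 : s ≤ 1) :
    Zw R S c r γ ≤ Zw R S (fun z => s * c z) r (fun z => s * γ z) := by
  rcases eq_or_lt_of_le h1 with h1' | h1'
  · rw [h1']
    apply le_of_eq
    congr 1
    · funext z
      rw [one_mul]
    · funext z
      rw [one_mul]
  · by_cases hz : Zw R S c r γ = 0
    · rw [hz]
      exact bot_le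
    · have h2 := Zw_pl R S c (fun z => - c z) r γ (fun z => - γ z) (θ := (1 + s) / 2)
        (by linarith) (by linarith)
      rw [Zw_neg, ← ENNReal.rpow_add _ _ hz (Zw_lt_top R S c r γ).ne] at h2
      have e1 : (1 + s) / 2 + (1 - (1 + s) / 2) = 1 := by ring
      rw [e1, ENNReal.rpow_one] at h2
      refine le_trans h2 (le_of_eq ?_)
      congr 1
      · funext z
        ring
      · funext z
        ring

/- END rc -/

/-- constraints on the edges which touch `R₁` but not `R₂`, and walls in `R₁` -/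
def Admw (R₁ R₂ S : Finset (ℤ × ℤ)) (c r γ : ℤ × ℤ → ℝ) : Set (R₁ → ℝ) :=
  {a | a ∈ Adm R₁ R₂ c ∧ ∀ x ∈ R₁, x ∈ S → |gl R₁ c a x - γ x| ≤ r x}

/- MODULE rd
The tower property, as module ze of Zf.lean (the walls in `R₂` do not see `R₁`). -/

theorem Admw_meas (R₁ R₂ S : Finset (ℤ × ℤ)) (c r γ : ℤ × ℤ → ℝ) :
    MeasurableSet (Admw R₁ R₂ S c r γ) := by
  have : Admw R₁ R₂ S c r γ = Adm R₁ R₂ c ∩ ⋂ x ∈ R₁, ⋂ (_ : x ∈ S),
      {a : R₁ → ℝ | |gl R₁ c a x - γ x| ≤ r x} := by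
    ext h
    simp only [Admw, mem_ofPred_eq, mem_inter_iff, mem_iInter]
  rw [this]
  exact (Adm_meas R₁ R₂ c).inter (Finset.measurableSet_biInter _ fun x _ =>
    MeasurableSet.iInter fun _ =>
      measurableSet_le (((gl_meas R₁ c x).sub measurable_const).abs) measurable_const)

theorem mem_Kw_jn {D R₁ R₂ S : Finset (ℤ × ℤ)} (hd : Disjoint R₁ R₂) (hu : R₁ ∪ R₂ = D)
    (c r γ : ℤ × ℤ → ℝ) (a : R₁ → ℝ) (b : R₂ → ℝ) :
    (jn R₁ R₂ a b : D → ℝ) ∈ Kw D S c r γ ↔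
      b ∈ Kw R₂ S (gl R₁ c a) r γ ∧ a ∈ Admw R₁ R₂ S c r γ := by
  subst hu
  constructor
  · rintro ⟨h1, h2⟩
    obtain ⟨h3, h4⟩ := (mem_K_jn hd rfl c a b).1 h1
    refine ⟨⟨h3, fun x hx hS => ?_⟩, ⟨h4, fun x hx hS => ?_⟩⟩
    · have h5 := h2 x (Finset.mem_union_right _ hx) hS
      rw [gl_jn hd rfl] at h5
      exact h5
    · have h5 := h2 x (Finset.mem_union_left _ hx) hS
      rw [gl_jn hd rfl, gl_not_mem (R := R₂) (z := x) (Finset.disjoint_left.1 hd hx)] at h5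
      exact h5
  · rintro ⟨⟨h1, h2⟩, h3, h4⟩
    refine ⟨(mem_K_jn hd rfl c a b).2 ⟨h1, h3⟩, fun x hx hS => ?_⟩
    rw [gl_jn hd rfl]
    by_cases h5 : x ∈ R₂
    · exact h2 x h5 hS
    · rw [gl_not_mem h5]
      exact h4 x ((Finset.mem_union.1 hx).resolve_right h5) hS

private theorem rd_gl {D R₁ R₂ : Finset (ℤ × ℤ)} (hd : Disjoint R₁ R₂) (hu : R₁ ∪ R₂ = D)
    (c : ℤ × ℤ → ℝ) (a : R₁ → ℝ) (b : R₂ → ℝ) :
    (fun x : R₁ => gl D c (jn R₁ R₂ a b) x) = a := by
  funext x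
  rw [gl_jn hd hu, gl_not_mem (R := R₂) (z := x.1) (Finset.disjoint_left.1 hd x.2),
    gl_mem (R := R₁) x.2]

theorem volw_tower {D R₁ R₂ S : Finset (ℤ × ℤ)} (hd : Disjoint R₁ R₂) (hu : R₁ ∪ R₂ = D)
    (c r γ : ℤ × ℤ → ℝ) {E : Set (R₁ → ℝ)} (hE : MeasurableSet E) :
    volume {h : D → ℝ | h ∈ Kw D S c r γ ∧ (fun x : R₁ => gl D c h x) ∈ E} =
      ∫⁻ a : R₁ → ℝ, (Admw R₁ R₂ S c r γ ∩ E).indicator
        (fun a => Zw R₂ S (gl R₁ c a) r γ) a := by
  have hm : Measurable (fun h : D → ℝ => (fun x : R₁ => gl D c h x)) :=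
    measurable_pi_lambda _ (fun x => gl_meas D c x)
  have hS : MeasurableSet {h : D → ℝ | h ∈ Kw D S c r γ ∧ (fun x : R₁ => gl D c h x) ∈ E} :=
    (Kw_meas D S c r γ).inter (hm hE)
  rw [← lintegral_indicator_one hS,
    lint_jn hd hu (measurable_one.indicator hS)]
  refine lintegral_congr (fun a => ?_)
  by_cases ha : a ∈ Admw R₁ R₂ S c r γ ∩ E
  · rw [indicator_of_mem ha, Zw, ← lintegral_indicator_one (Kw_meas R₂ S (gl R₁ c a) r γ)]
    refine lintegral_congr (fun b => ?_)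
    by_cases hb : b ∈ Kw R₂ S (gl R₁ c a) r γ
    · have h1 : (jn R₁ R₂ a b : D → ℝ) ∈
          {h : D → ℝ | h ∈ Kw D S c r γ ∧ (fun x : R₁ => gl D c h x) ∈ E} := by
        refine ⟨(mem_Kw_jn hd hu c r γ a b).2 ⟨hb, ha.1⟩, ?_⟩
        rw [rd_gl hd hu]
        exact ha.2
      rw [indicator_of_mem hb, indicator_of_mem h1]
      rfl
    · rw [indicator_of_notMem hb, indicator_of_notMem]
      rintro ⟨h1, -⟩
      exact hb ((mem_Kw_jn hd hu c r γ a b).1 h1).1
  · rw [indicator_of_notMem ha]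
    have : (fun b : R₂ → ℝ => ({h : D → ℝ | h ∈ Kw D S c r γ ∧
        (fun x : R₁ => gl D c h x) ∈ E}).indicator
        (1 : (D → ℝ) → ℝ≥0∞) (jn R₁ R₂ a b)) = fun _ => 0 := by
      funext b
      rw [indicator_of_notMem]
      rintro ⟨h1, h2⟩
      rw [rd_gl hd hu] at h2
      exact ha ⟨((mem_Kw_jn hd hu c r γ a b).1 h1).2, h2⟩
    rw [this, lintegral_zero]

theorem Zw_tower {D R₁ R₂ S : Finset (ℤ × ℤ)} (hd : Disjoint R₁ R₂) (hu : R₁ ∪ R₂ = D)
    (c r γ : ℤ × ℤ → ℝ) :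
    Zw D S c r γ = ∫⁻ a : R₁ → ℝ, (Admw R₁ R₂ S c r γ).indicator
      (fun a => Zw R₂ S (gl R₁ c a) r γ) a := by
  have h := volw_tower (S := S) hd hu c r γ (E := univ) MeasurableSet.univ
  rw [inter_univ] at h
  rw [← h, Zw]
  congr 1
  ext h
  simp

theorem Zw_gl_meas (R₁ R₂ S : Finset (ℤ × ℤ)) (c r γ : ℤ × ℤ → ℝ) :
    Measurable (fun a : R₁ → ℝ => Zw R₂ S (gl R₁ c a) r γ) := by
  have h1 : ∀ z, Measurable (fun p : (R₁ → ℝ) × (R₂ → ℝ) => gl R₂ (gl R₁ c p.1) p.2 z) := by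
    intro z
    by_cases hz : z ∈ R₂
    · have : (fun p : (R₁ → ℝ) × (R₂ → ℝ) => gl R₂ (gl R₁ c p.1) p.2 z) =
          fun p => p.2 ⟨z, hz⟩ := by
        funext p
        exact gl_mem hz
      rw [this]
      exact (measurable_pi_apply _).comp measurable_snd
    · have : (fun p : (R₁ → ℝ) × (R₂ → ℝ) => gl R₂ (gl R₁ c p.1) p.2 z) =
          fun p => gl R₁ c p.1 z := by
        funext p
        exact gl_not_mem hz
      rw [this]
      exact (gl_meas R₁ c z).comp measurable_fst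
  have hS : MeasurableSet {p : (R₁ → ℝ) × (R₂ → ℝ) | p.2 ∈ Kw R₂ S (gl R₁ c p.1) r γ} := by
    have : {p : (R₁ → ℝ) × (R₂ → ℝ) | p.2 ∈ Kw R₂ S (gl R₁ c p.1) r γ} =
        (⋂ x ∈ R₂, ⋂ i : Fin 6, {p : (R₁ → ℝ) × (R₂ → ℝ) | |gl R₂ (gl R₁ c p.1) p.2 x -
          gl R₂ (gl R₁ c p.1) p.2 (x + st i)| ≤ 1}) ∩
        ⋂ x ∈ R₂, ⋂ (_ : x ∈ S), {p : (R₁ → ℝ) × (R₂ → ℝ) |
          |gl R₂ (gl R₁ c p.1) p.2 x - γ x| ≤ r x} := by
      ext p
      simp only [Kw, K, mem_ofPred_eq, mem_inter_iff, mem_iInter]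
    rw [this]
    refine MeasurableSet.inter ?_ ?_
    · refine Finset.measurableSet_biInter _ (fun x _ => MeasurableSet.iInter (fun i => ?_))
      exact measurableSet_le (((h1 x).sub (h1 (x + st i))).abs) measurable_const
    · refine Finset.measurableSet_biInter _ (fun x _ => MeasurableSet.iInter (fun _ => ?_))
      exact measurableSet_le (((h1 x).sub measurable_const).abs) measurable_const
  exact measurable_measure_prodMk_left hS

/- END rd -/

/- MODULE re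
As `Z_half` (module zf of Zf.lean); halving keeps the walls `|a| ≤ r` (here `γ = 0`). -/

private theorem re_adm {R P S : Finset (ℤ × ℤ)} {r : ℤ × ℤ → ℝ} {a : adj R P → ℝ}
    (ha : a ∈ Admw (adj R P) (R \ adj R P) S (fun _ => 0) r (fun _ => 0)) :
    ((1 / 2 : ℝ) • a) ∈
      Admw (adj R P) (R \ adj R P) S (fun z => if z ∈ P then -1 / 2 else 0) r (fun _ => 0) := by
  refine ⟨fun x hx i hi => ?_, fun x hx hS => ?_⟩
  · have h := ha.1 x hx i hi
    rw [gl_mem hx] at h ⊢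
    by_cases hy : x + st i ∈ adj R P
    · rw [gl_mem hy] at h ⊢
      simp only [Pi.smul_apply, smul_eq_mul]
      rw [abs_le] at h ⊢
      constructor <;> linarith [h.1, h.2]
    · rw [gl_not_mem hy] at h ⊢
      simp only [Pi.smul_apply, smul_eq_mul]
      rw [abs_le] at h ⊢
      split_ifs
      · constructor <;> linarith [h.1, h.2]
      · constructor <;> linarith [h.1, h.2]
  · have h := ha.2 x hx hS
    rw [gl_mem hx] at h ⊢
    simp only [Pi.smul_apply, smul_eq_mul]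
    rw [abs_le] at h ⊢
    constructor <;> linarith [h.1, h.2]

private theorem re_loc {R P S : Finset (ℤ × ℤ)} {r : ℤ × ℤ → ℝ} (a : adj R P → ℝ) :
    Zw (R \ adj R P) S (gl (adj R P) (fun _ => 0) a) r (fun _ => 0) ≤
      Zw (R \ adj R P) S
        (gl (adj R P) (fun z => if z ∈ P then -1 / 2 else 0) ((1 / 2 : ℝ) • a)) r (fun _ => 0) := by
  have h0 := Zw_rad (R \ adj R P) S (gl (adj R P) (fun _ => 0) a) r (fun _ => 0) (s := 1 / 2)
    (by norm_num) (by norm_num)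
  have e : (fun z : ℤ × ℤ => (1 / 2 : ℝ) * (fun _ : ℤ × ℤ => (0 : ℝ)) z) = fun _ => 0 := by
    funext z
    exact mul_zero _
  rw [e] at h0
  refine h0.trans (le_of_eq ?_)
  refine Zw_loc ?_
  rintro z hz ⟨x, hx, i, rfl⟩
  by_cases hy : x + st i ∈ adj R P
  · rw [gl_mem hy, gl_mem hy]
    rfl
  · rw [gl_not_mem hy, gl_not_mem hy, if_neg]
    · simp
    · intro hP
      obtain ⟨h1, h2⟩ := Finset.mem_sdiff.1 hx
      exact h2 (Finset.mem_filter.2 ⟨h1, i, hP⟩)

private theorem re_scale (n : Finset (ℤ × ℤ)) (F : (n → ℝ) → ℝ≥0∞) :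
    ∫⁻ a : n → ℝ, F ((1 / 2 : ℝ) • a) = 2 ^ n.card * ∫⁻ a : n → ℝ, F a := by
  have h2 : ((1 / 2 : ℝ)) ≠ 0 := by norm_num
  have h := lintegral_map_equiv (μ := (volume : Measure (n → ℝ))) F (MeasurableEquiv.smul₀ (1 / 2 : ℝ) h2)
  have h3 : Measure.map (⇑(MeasurableEquiv.smul₀ (α := n → ℝ) (1 / 2 : ℝ) h2))
      (volume : Measure (n → ℝ)) =
      ENNReal.ofReal |((1 / 2 : ℝ) ^ Module.finrank ℝ (n → ℝ))⁻¹| • volume :=
    Measure.map_addHaar_smul _ h2
  rw [h3, lintegral_smul_measure] at h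
  have h4 : ENNReal.ofReal |((1 / 2 : ℝ) ^ Module.finrank ℝ (n → ℝ))⁻¹| = 2 ^ n.card := by
    rw [Module.finrank_fintype_fun_eq_card, Fintype.card_coe]
    rw [one_div, inv_pow, inv_inv, abs_of_pos (by positivity), ENNReal.ofReal_pow (by norm_num)]
    simp
  rw [h4] at h
  simpa using h.symm

theorem Zw_half {R P : Finset (ℤ × ℤ)} (hd : Disjoint R P) (S : Finset (ℤ × ℤ)) (r : ℤ × ℤ → ℝ) :
    Zw R S (fun _ => 0) r (fun _ => 0) ≤
      2 ^ (adj R P).card * Zw R S (fun z => if z ∈ P then -1 / 2 else 0) r (fun _ => 0) := by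
  have hs : adj R P ⊆ R := Finset.filter_subset _ _
  have h1 := Zw_tower (D := R) (R₁ := adj R P) (R₂ := R \ adj R P) (S := S)
    Finset.disjoint_sdiff (Finset.union_sdiff_of_subset hs) (fun _ => 0) r (fun _ => 0)
  have h2 := Zw_tower (D := R) (R₁ := adj R P) (R₂ := R \ adj R P) (S := S)
    Finset.disjoint_sdiff (Finset.union_sdiff_of_subset hs) (fun z => if z ∈ P then -1 / 2 else 0)
    r (fun _ => 0)
  rw [h1, h2, ← re_scale]
  refine lintegral_mono fun a => ?_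
  by_cases ha : a ∈ Admw (adj R P) (R \ adj R P) S (fun _ => 0) r (fun _ => 0)
  · rw [indicator_of_mem ha, indicator_of_mem (re_adm ha)]
    exact re_loc a
  · rw [indicator_of_notMem ha]
    exact zero_le

/- END re -/

/- MODULE rf
As `Z_center` (module zg of Zf.lean), with the ghost values moved together with the values off `P`:
`Z_ad` is used for `(c, 0)` and `(0 on P, 1/2 off P; γ = 1/2)`; minimum `(0 on P, c off P; 0)`,
maximum `(c on P, 1/2; 1/2)`; `Zw_shift` by `-1/2` and `Zw_rad` with `s = 0`.  Positivity and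
finiteness: `Zw_pos`, `Zw_lt_top`. -/

private theorem rf_cancel {a b z : ℝ≥0∞} (hz : 0 < z) (hz' : z < ⊤) (h : a * z ≤ b * z) :
    a ≤ b :=
  (ENNReal.mul_le_mul_iff_left hz.ne' hz'.ne).1 h

private theorem rf_pos {R P : Finset (ℤ × ℤ)} (hd : Disjoint R P) {S : Finset (ℤ × ℤ)}
    {c r : ℤ × ℤ → ℝ} (hr : ∀ x ∈ S, 0 < r x)
    (hc : ∀ z, z ∉ R → z ∉ P → (∃ x ∈ R, ∃ i, z = x + st i) → |c z| ≤ 1 / 2)
    (hp : ∀ z ∈ P, 0 ≤ c z) :
    Zw R S c r (fun _ => 0) ≤
      2 ^ (adj R P).card * Zw R S (fun z => if z ∈ P then 0 else c z) r (fun _ => 0) := by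
  have h0 : Zw R S (fun _ => 0) r (fun _ => 0) ≤
      2 ^ (adj R P).card * Zw R S (fun z => if z ∈ P then 0 else 1 / 2) r (fun _ => 1 / 2) := by
    refine (Zw_half hd S r).trans (le_of_eq ?_)
    congr 1
    rw [← Zw_shift R S (fun z => if z ∈ P then 0 else 1 / 2) r (fun _ => 1 / 2) (-1 / 2)]
    congr 1
    · funext z
      by_cases hz : z ∈ P
      · simp [hz]
      · simp only [hz, if_false]
        norm_num
    · funext z
      norm_num
  have h1 := Zw_ad R S c (fun z => if z ∈ P then 0 else 1 / 2) r (fun _ => 0) (fun _ => 1 / 2)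
  have eγ : (fun z : ℤ × ℤ => min ((fun _ : ℤ × ℤ => (0 : ℝ)) z)
      ((fun _ : ℤ × ℤ => (1 / 2 : ℝ)) z)) = fun _ => 0 := by
    funext z
    norm_num
  have eγ' : (fun z : ℤ × ℤ => max ((fun _ : ℤ × ℤ => (0 : ℝ)) z)
      ((fun _ : ℤ × ℤ => (1 / 2 : ℝ)) z)) = fun _ => 1 / 2 := by
    funext z
    norm_num
  rw [eγ, eγ'] at h1
  have h2 : Zw R S (fun z => min (c z) (if z ∈ P then 0 else 1 / 2)) r (fun _ => 0) =
      Zw R S (fun z => if z ∈ P then 0 else c z) r (fun _ => 0) := by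
    refine Zw_loc (fun z hz hx => ?_)
    by_cases hzP : z ∈ P
    · simp only [hzP, if_true]
      exact min_eq_right (hp z hzP)
    · simp only [hzP, if_false]
      exact min_eq_left (abs_le.1 (hc z hz hzP hx)).2
  have h3 : Zw R S (fun z => max (c z) (if z ∈ P then 0 else 1 / 2)) r (fun _ => 1 / 2) ≤
      Zw R S (fun _ => 0) r (fun _ => 0) := by
    have h4 : Zw R S (fun z => max (c z) (if z ∈ P then 0 else 1 / 2)) r (fun _ => 1 / 2) =
        Zw R S (fun z => if z ∈ P then c z else 1 / 2) r (fun _ => 1 / 2) := by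
      refine Zw_loc (fun z hz hx => ?_)
      by_cases hzP : z ∈ P
      · simp only [hzP, if_true]
        exact max_eq_left (hp z hzP)
      · simp only [hzP, if_false]
        exact max_eq_right (abs_le.1 (hc z hz hzP hx)).2
    rw [h4, ← Zw_shift R S (fun z => if z ∈ P then c z else 1 / 2) r (fun _ => 1 / 2) (-1 / 2)]
    refine (Zw_rad R S _ r _ le_rfl zero_le_one).trans (le_of_eq ?_)
    congr 1
    · funext z
      exact zero_mul _
    · funext z
      exact zero_mul _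
  have hZ0 : 0 < Zw R S (fun _ => 0) r (fun _ => 0) := Zw_pos (fun z _ _ => by norm_num) hr
  have hZ0' : Zw R S (fun _ => 0) r (fun _ => 0) < ⊤ := Zw_lt_top R S _ _ _
  refine rf_cancel hZ0 hZ0' ?_
  calc Zw R S c r (fun _ => 0) * Zw R S (fun _ => 0) r (fun _ => 0)
      ≤ Zw R S c r (fun _ => 0) *
          (2 ^ (adj R P).card * Zw R S (fun z => if z ∈ P then 0 else 1 / 2) r (fun _ => 1 / 2)) :=
        mul_le_mul_right h0 _
    _ = 2 ^ (adj R P).card * (Zw R S c r (fun _ => 0) *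
          Zw R S (fun z => if z ∈ P then 0 else 1 / 2) r (fun _ => 1 / 2)) := by ring
    _ ≤ 2 ^ (adj R P).card * (Zw R S (fun z => if z ∈ P then 0 else c z) r (fun _ => 0) *
          Zw R S (fun _ => 0) r (fun _ => 0)) := by
        refine mul_le_mul_right (h1.trans ?_) _
        rw [h2]
        exact mul_le_mul_right h3 _
    _ = _ := by ring

private theorem rf_zero {R S : Finset (ℤ × ℤ)} (c r : ℤ × ℤ → ℝ) :
    Zw R S (fun z => - c z) r (fun _ => 0) = Zw R S c r (fun _ => 0) := by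
  rw [← Zw_neg R S c r (fun _ => 0)]
  congr 1
  funext z
  exact neg_zero.symm

private theorem rf_neg {R P : Finset (ℤ × ℤ)} (hd : Disjoint R P) {S : Finset (ℤ × ℤ)}
    {c r : ℤ × ℤ → ℝ} (hr : ∀ x ∈ S, 0 < r x)
    (hc : ∀ z, z ∉ R → z ∉ P → (∃ x ∈ R, ∃ i, z = x + st i) → |c z| ≤ 1 / 2)
    (hp : ∀ z ∈ P, c z ≤ 0) :
    Zw R S c r (fun _ => 0) ≤
      2 ^ (adj R P).card * Zw R S (fun z => if z ∈ P then 0 else c z) r (fun _ => 0) := by
  rw [← rf_zero c r]
  have h := rf_pos (c := fun z => - c z) hd hr (fun z h1 h2 h3 => by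
    rw [abs_neg]
    exact hc z h1 h2 h3) (fun z hz => neg_nonneg.2 (hp z hz))
  refine h.trans (le_of_eq ?_)
  rw [← rf_zero (fun z => if z ∈ P then 0 else c z) r]
  congr 2
  funext z
  by_cases hz : z ∈ P <;> simp [hz]

theorem Zw_center {R P : Finset (ℤ × ℤ)} (hd : Disjoint R P) {S : Finset (ℤ × ℤ)}
    {c r : ℤ × ℤ → ℝ} (hr : ∀ x ∈ S, 0 < r x)
    (hc : ∀ z, z ∉ R → z ∉ P → (∃ x ∈ R, ∃ i, z = x + st i) → |c z| ≤ 1 / 2) :
    Zw R S c r (fun _ => 0) ≤
      4 ^ (adj R P).card * Zw R S (fun z => if z ∈ P then 0 else c z) r (fun _ => 0) := by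
  have h1 := Zw_ad R S c (fun z => if z ∈ P then 0 else c z) r (fun _ => 0) (fun _ => 0)
  have eγ : (fun z : ℤ × ℤ => min ((fun _ : ℤ × ℤ => (0 : ℝ)) z)
      ((fun _ : ℤ × ℤ => (0 : ℝ)) z)) = fun _ => 0 := by
    funext z
    exact min_self _
  have eγ' : (fun z : ℤ × ℤ => max ((fun _ : ℤ × ℤ => (0 : ℝ)) z)
      ((fun _ : ℤ × ℤ => (0 : ℝ)) z)) = fun _ => 0 := by
    funext z
    exact max_self _
  rw [eγ, eγ'] at h1
  have h2 := rf_neg (c := fun z => min (c z) (if z ∈ P then 0 else c z)) hd hr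
    (fun z a b d => by
      simp only [b, if_false, min_self]
      exact hc z a b d)
    (fun z hz => by
      simp only [hz, if_true]
      exact min_le_right _ _)
  have h3 := rf_pos (c := fun z => max (c z) (if z ∈ P then 0 else c z)) hd hr
    (fun z a b d => by
      simp only [b, if_false, max_self]
      exact hc z a b d)
    (fun z hz => by
      simp only [hz, if_true]
      exact le_max_right _ _)
  have e2 : (fun z => if z ∈ P then 0 else min (c z) (if z ∈ P then 0 else c z)) =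
      (fun z => if z ∈ P then 0 else c z) := by
    funext z
    by_cases hz : z ∈ P <;> simp [hz]
  have e3 : (fun z => if z ∈ P then 0 else max (c z) (if z ∈ P then 0 else c z)) =
      (fun z => if z ∈ P then 0 else c z) := by
    funext z
    by_cases hz : z ∈ P <;> simp [hz]
  rw [e2] at h2
  rw [e3] at h3
  have hZ0 : 0 < Zw R S (fun z => if z ∈ P then 0 else c z) r (fun _ => 0) := by
    refine Zw_pos (fun z hz hx => ?_) hr
    by_cases hzP : z ∈ P
    · simp [hzP]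
    · simp only [hzP, if_false]
      exact hc z hz hzP hx
  refine rf_cancel hZ0 (Zw_lt_top R S _ _ _) (h1.trans ((mul_le_mul' h2 h3).trans (le_of_eq ?_)))
  have h4 : (4 : ℝ≥0∞) = 2 * 2 := by norm_num
  rw [h4, mul_pow]
  ring

/- END rf -/

/- MODULE rg
As `G_half` (module zh of Zf.lean).  New conditions: the walls in `T`: `|y / 2 + δ| ≤ |y| ≤ r`
because `1 / 2 ≤ |y|` there; the walls in `P`: `|p / 2| ≤ r`. -/

private theorem rg_gl {T P : Finset (ℤ × ℤ)} (hd : Disjoint T P) (b : ℤ × ℤ → ℝ) (y : T → ℝ)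
    (p : P → ℝ) (z : ℤ × ℤ) :
    gl (T ∪ P) b (jn T P y p) z = gl P (gl T b y) p z :=
  gl_jn hd rfl b y p z

private theorem rg_half {T P : Finset (ℤ × ℤ)} {b : ℤ × ℤ → ℝ} (hb : ∀ z, |b z| ≤ 1 / 2)
    (hd : Disjoint T P) (y : T → ℝ) (p : P → ℝ) (δ : T → ℝ) (hδ : ∀ i, |δ i| ≤ 1 / 4)
    (z : ℤ × ℤ) :
    |gl (T ∪ P) b (jn T P (fun i => y i / 2 + δ i) (fun k => p k / 2)) z -
      gl (T ∪ P) b (jn T P y p) z / 2| ≤ 1 / 4 := by
  rw [rg_gl hd, rg_gl hd]
  by_cases hP : z ∈ P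
  · rw [gl_mem hP, gl_mem hP, sub_self, abs_zero]
    norm_num
  · rw [gl_not_mem hP, gl_not_mem hP]
    by_cases hT : z ∈ T
    · rw [gl_mem hT, gl_mem hT, add_sub_cancel_left]
      exact hδ _
    · rw [gl_not_mem hT, gl_not_mem hT, show b z - b z / 2 = b z / 2 by ring, abs_div, abs_two]
      have := hb z
      linarith

private theorem rg_sqrt (n : ℕ) {A B : ℝ≥0∞} (h : A ≤ 4 ^ n * B) :
    A ≤ 2 ^ n * (A ^ (1 / 2 : ℝ) * B ^ (1 - 1 / 2 : ℝ)) := by
  have h1 : A ^ (1 / 2 : ℝ) ≤ 2 ^ n * B ^ (1 / 2 : ℝ) := by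
    calc A ^ (1 / 2 : ℝ) ≤ (4 ^ n * B) ^ (1 / 2 : ℝ) := ENNReal.rpow_le_rpow h (by norm_num)
      _ = (4 ^ n) ^ (1 / 2 : ℝ) * B ^ (1 / 2 : ℝ) := ENNReal.mul_rpow_of_nonneg _ _ (by norm_num)
      _ = 2 ^ n * B ^ (1 / 2 : ℝ) := by
        congr 1
        have h2 : (4 : ℝ≥0∞) ^ n = ((2 : ℝ≥0∞) ^ n) ^ (2 : ℝ) := by
          rw [show (2 : ℝ) = ((2 : ℕ) : ℝ) by norm_num, ENNReal.rpow_natCast, ← pow_mul,
            mul_comm n 2, pow_mul]
          norm_num
        rw [h2, ← ENNReal.rpow_mul]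
        norm_num
  have h3 : A = A ^ (1 / 2 : ℝ) * A ^ (1 / 2 : ℝ) := by
    rw [← ENNReal.rpow_add_of_nonneg _ _ (by norm_num) (by norm_num)]
    norm_num
  calc A = A ^ (1 / 2 : ℝ) * A ^ (1 / 2 : ℝ) := h3
    _ ≤ A ^ (1 / 2 : ℝ) * (2 ^ n * B ^ (1 / 2 : ℝ)) := by gcongr
    _ = 2 ^ n * (A ^ (1 / 2 : ℝ) * B ^ (1 - 1 / 2 : ℝ)) := by
      rw [show (1 - 1 / 2 : ℝ) = 1 / 2 by norm_num]
      ring

theorem Gw_half {D T P S : Finset (ℤ × ℤ)} {b r : ℤ × ℤ → ℝ} (hb : ∀ z, |b z| ≤ 1 / 2)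
    (hr : ∀ x ∈ S, 0 < r x) (hT : T ⊆ D) (hP : P ⊆ D) (hd : Disjoint T P)
    (hN : ∀ x ∈ T, ∀ i, x + st i ∈ D → x + st i ∈ T ∪ P)
    (y : T → ℝ) (p : P → ℝ) (hy : ∀ x : T, x.1 ∈ S → 1 / 2 ≤ |y x|)
    (δ : T → ℝ) (hδ : ∀ i, |δ i| ≤ 1 / 4) :
    (Admw (T ∪ P) (D \ (T ∪ P)) S b r (fun _ => 0)).indicator
        (fun a => Zw (D \ (T ∪ P)) S (gl (T ∪ P) b a) r (fun _ => 0)) (jn T P y p) ≤
      2 ^ (6 * P.card) *
        (Admw (T ∪ P) (D \ (T ∪ P)) S b r (fun _ => 0)).indicator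
          (fun a => Zw (D \ (T ∪ P)) S (gl (T ∪ P) b a) r (fun _ => 0))
          (jn T P (fun i => y i / 2 + δ i) (fun k => p k / 2)) := by
  set A := T ∪ P with hA
  set R := D \ A with hR
  by_cases ha : jn T P y p ∈ Admw A R S b r (fun _ => 0)
  swap
  · rw [Set.indicator_of_notMem ha]
    exact bot_le
  have ha' : jn T P (fun i => y i / 2 + δ i) (fun k => p k / 2) ∈
      Admw A R S b r (fun _ => 0) := by
    refine ⟨fun x hx i hi => ?_, fun x hx hS => ?_⟩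
    · have h1 := ha.1 x hx i hi
      have h2 := rg_half hb hd y p δ hδ x
      have h3 := rg_half hb hd y p δ hδ (x + st i)
      rw [← hA] at h2 h3
      rw [abs_le] at h1 h2 h3 ⊢
      constructor <;> linarith [h1.1, h1.2, h2.1, h2.2, h3.1, h3.2]
    · have h1 := ha.2 x hx hS
      rw [hA, rg_gl hd, sub_zero] at h1 ⊢
      by_cases hxP : x ∈ P
      · rw [gl_mem hxP] at h1 ⊢
        rw [abs_le] at h1 ⊢
        constructor <;> linarith [h1.1, h1.2]
      · have hxT : x ∈ T := (Finset.mem_union.1 hx).resolve_right hxP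
        rw [gl_not_mem hxP, gl_mem hxT] at h1 ⊢
        have h2 := hy ⟨x, hxT⟩ hS
        have h3 := hδ ⟨x, hxT⟩
        calc |y ⟨x, hxT⟩ / 2 + δ ⟨x, hxT⟩| ≤ |y ⟨x, hxT⟩ / 2| + |δ ⟨x, hxT⟩| := abs_add_le _ _
          _ = |y ⟨x, hxT⟩| / 2 + |δ ⟨x, hxT⟩| := by rw [abs_div, abs_two]
          _ ≤ r x := by linarith
  rw [Set.indicator_of_mem ha, Set.indicator_of_mem ha']
  -- only the values on `P` and off `D` matter
  have hloc : ∀ (y : T → ℝ) (p : P → ℝ), Zw R S (gl A b (jn T P y p)) r (fun _ => 0) =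
      Zw R S (gl P b p) r (fun _ => 0) := by
    intro y p
    refine Zw_loc fun z hz hz' => ?_
    obtain ⟨x, hx, i, rfl⟩ := hz'
    have hxT : x + st i ∉ T := by
      intro hT'
      rw [hR, Finset.mem_sdiff] at hx
      have h1 : x + st i + st (i + 3) = x := by rw [st_neg, add_neg_cancel_right]
      have h2 := hN (x + st i) hT' (i + 3)
      rw [h1] at h2
      exact hx.2 (h2 hx.1)
    rw [hA, rg_gl hd]
    by_cases hP' : x + st i ∈ P
    · rw [gl_mem hP', gl_mem hP']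
    · rw [gl_not_mem hP', gl_not_mem hP', gl_not_mem hxT]
  rw [hloc, hloc]
  have hRP : Disjoint R P := by
    rw [Finset.disjoint_left]
    intro z hz hz'
    rw [hR, Finset.mem_sdiff] at hz
    exact hz.2 (Finset.mem_union_right _ hz')
  have h1 : Zw R S (gl P b p) r (fun _ => 0) ≤
      4 ^ (6 * P.card) * Zw R S (fun z => if z ∈ P then 0 else gl P b p z) r (fun _ => 0) := by
    refine (Zw_center hRP hr ?_).trans ?_
    · intro z _ hz _
      rw [gl_not_mem hz]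
      exact hb z
    · gcongr
      · norm_num
      · exact adj_card R P
  refine (rg_sqrt _ h1).trans ?_
  gcongr
  refine (Zw_pl R S _ _ r _ _ (θ := 1 / 2) (by norm_num) (by norm_num)).trans (le_of_eq ?_)
  congr 1
  · funext z
    by_cases hz : z ∈ P
    · rw [if_pos hz, gl_mem hz, gl_mem hz]
      ring
    · rw [if_neg hz, gl_not_mem hz, gl_not_mem hz]
      ring
  · funext z
    norm_num

/- END rg -/

/- MODULE rh
`avg_cube` of Pl.lean (module pd there) with two functions. -/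

private theorem rh_cube (ι : Type*) [Fintype ι] :
    volume {δ : ι → ℝ | ∀ i, |δ i| ≤ 1 / 4} = (2⁻¹ : ℝ≥0∞) ^ Fintype.card ι := by
  have h : {δ : ι → ℝ | ∀ i, |δ i| ≤ 1 / 4} = Set.univ.pi (fun _ : ι => Icc (-(1 / 4) : ℝ) (1 / 4)) := by
    ext δ
    rw [Set.mem_univ_pi]
    exact forall_congr' fun i => abs_le
  rw [h, volume_pi_pi]
  simp only [Real.volume_Icc]
  rw [Finset.prod_const, Finset.card_univ]
  congr 1
  rw [show (1 / 4 : ℝ) - -(1 / 4) = 2⁻¹ by norm_num, ENNReal.ofReal_inv_of_pos (by norm_num)]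
  norm_num

private theorem rh_scale {κ : Type*} [Fintype κ] {J : (κ → ℝ) → ℝ≥0∞} (hJ : Measurable J) :
    ∫⁻ p : κ → ℝ, J (fun k => p k / 2) = 2 ^ Fintype.card κ * ∫⁻ p, J p := by
  have h1 : (fun p : κ → ℝ => J (fun k => p k / 2)) = fun p => J ((2⁻¹ : ℝ) • p) := by
    funext p
    congr 1
    funext k
    simp only [Pi.smul_apply, smul_eq_mul]
    ring
  rw [h1, ← lintegral_map hJ (measurable_const_smul _),
    Measure.map_addHaar_smul volume (by norm_num : (2⁻¹ : ℝ) ≠ 0), lintegral_smul_measure]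
  congr 1
  rw [Module.finrank_fintype_fun_eq_card, inv_pow, inv_inv, abs_of_pos (by positivity),
    ENNReal.ofReal_pow (by norm_num)]
  norm_num

private theorem rh_pt {ι κ : Type*} [Fintype ι] [Fintype κ] {G₁ G : (ι → ℝ) → (κ → ℝ) → ℝ≥0∞}
    (hG : Measurable (Function.uncurry G)) {C : ℝ≥0∞}
    (H : ∀ y p (δ : ι → ℝ), (∀ i, |δ i| ≤ 1 / 4) →
      G₁ y p ≤ C * G (fun i => y i / 2 + δ i) (fun k => p k / 2)) (y : ι → ℝ) (p : κ → ℝ) :
    G₁ y p ≤ 2 ^ Fintype.card ι * C * ∫⁻ z, G z (fun k => p k / 2) := by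
  have hm : Measurable (fun z => G z (fun k => p k / 2)) := hG.comp measurable_prodMk_right
  have hQ : MeasurableSet {δ : ι → ℝ | ∀ i, |δ i| ≤ 1 / 4} := by
    have : {δ : ι → ℝ | ∀ i, |δ i| ≤ 1 / 4} = ⋂ i, {δ : ι → ℝ | |δ i| ≤ 1 / 4} := by
      ext δ
      simp
    rw [this]
    refine MeasurableSet.iInter fun i => ?_
    exact measurableSet_le ((measurable_pi_apply i).abs) measurable_const
  have h1 : (2⁻¹ : ℝ≥0∞) ^ Fintype.card ι * G₁ y p ≤ C * ∫⁻ z, G z (fun k => p k / 2) := by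
    calc (2⁻¹ : ℝ≥0∞) ^ Fintype.card ι * G₁ y p
        = ∫⁻ δ in {δ : ι → ℝ | ∀ i, |δ i| ≤ 1 / 4}, G₁ y p := by
          rw [setLIntegral_const, rh_cube, mul_comm]
      _ ≤ ∫⁻ δ in {δ : ι → ℝ | ∀ i, |δ i| ≤ 1 / 4},
            C * G ((fun i => y i / 2) + δ) (fun k => p k / 2) :=
          setLIntegral_mono' hQ fun δ hδ => H y p δ hδ
      _ ≤ ∫⁻ δ, C * G ((fun i => y i / 2) + δ) (fun k => p k / 2) :=
          setLIntegral_le_lintegral _ _
      _ = ∫⁻ δ, C * G δ (fun k => p k / 2) :=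
          lintegral_add_left_eq_self (fun z => C * G z (fun k => p k / 2)) _
      _ = C * ∫⁻ z, G z (fun k => p k / 2) := lintegral_const_mul _ hm
  calc G₁ y p = 2 ^ Fintype.card ι * ((2⁻¹ : ℝ≥0∞) ^ Fintype.card ι * G₁ y p) := by
        rw [← mul_assoc, ← mul_pow, ENNReal.mul_inv_cancel (by norm_num) (by norm_num), one_pow,
          one_mul]
    _ ≤ 2 ^ Fintype.card ι * (C * ∫⁻ z, G z (fun k => p k / 2)) := mul_le_mul_right h1 _
    _ = _ := by rw [mul_assoc]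

theorem avg_cube_two {ι κ : Type*} [Fintype ι] [Fintype κ] {G₁ G : (ι → ℝ) → (κ → ℝ) → ℝ≥0∞}
    (hG₁ : Measurable (Function.uncurry G₁)) (hG : Measurable (Function.uncurry G))
    {τ : (κ → ℝ) → ℝ} (hτ : Measurable τ) {C : ℝ≥0∞}
    (H : ∀ y p (δ : ι → ℝ), (∀ i, |δ i| ≤ 1 / 4) →
      G₁ y p ≤ C * G (fun i => y i / 2 + δ i) (fun k => p k / 2))
    {W : Set (ι → ℝ)} (hW : MeasurableSet W) :
    ∫⁻ p, ∫⁻ y, {y : ι → ℝ | (fun i => y i - τ p) ∈ W}.indicator (fun y => G₁ y p) y ≤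
      C * 2 ^ (Fintype.card ι + Fintype.card κ) * volume W * ∫⁻ p, ∫⁻ y, G y p := by
  have hJ : Measurable (fun p => ∫⁻ y, G y p) := by
    exact hG.lintegral_prod_left'
  have h1 : ∀ p, ∫⁻ y, {y : ι → ℝ | (fun i => y i - τ p) ∈ W}.indicator (fun y => G₁ y p) y ≤
      2 ^ Fintype.card ι * C * (∫⁻ z, G z (fun k => p k / 2)) * volume W := by
    intro p
    have hs : {y : ι → ℝ | (fun i => y i - τ p) ∈ W} =
        (fun y => y + (fun _ => - τ p)) ⁻¹' W := by
      rfl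
    have hms : MeasurableSet {y : ι → ℝ | (fun i => y i - τ p) ∈ W} := by
      rw [hs]
      exact (measurable_add_const _) hW
    calc ∫⁻ y, {y : ι → ℝ | (fun i => y i - τ p) ∈ W}.indicator (fun y => G₁ y p) y
        ≤ ∫⁻ y, {y : ι → ℝ | (fun i => y i - τ p) ∈ W}.indicator
            (fun _ => 2 ^ Fintype.card ι * C * ∫⁻ z, G z (fun k => p k / 2)) y :=
          lintegral_mono fun y => Set.indicator_le_indicator (rh_pt hG H y p)
      _ = _ := by
          rw [lintegral_indicator_const hms, hs, measure_preimage_add_right]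
  calc ∫⁻ p, ∫⁻ y, {y : ι → ℝ | (fun i => y i - τ p) ∈ W}.indicator (fun y => G₁ y p) y
      ≤ ∫⁻ p, 2 ^ Fintype.card ι * C * (∫⁻ z, G z (fun k => p k / 2)) * volume W :=
        lintegral_mono h1
    _ = ∫⁻ p : κ → ℝ, (2 ^ Fintype.card ι * C * volume W) *
          (∫⁻ z, G z (fun k => p k / 2)) := by
        congr 1
        funext p
        ring
    _ = (2 ^ Fintype.card ι * C * volume W) *
          ∫⁻ p : κ → ℝ, (∫⁻ z, G z (fun k => p k / 2)) := by
        refine lintegral_const_mul _ ?_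
        exact hJ.comp (measurable_pi_lambda _ fun k => (measurable_pi_apply k).div_const 2)
    _ = (2 ^ Fintype.card ι * C * volume W) * (2 ^ Fintype.card κ * ∫⁻ p, ∫⁻ y, G y p) := by
        rw [rh_scale hJ]
    _ = _ := by
        rw [pow_add]
        ring

/- END rh -/

/- MODULE ri
THE VOLUME LEMMA WITH WALLS: as `vol_lemma` (module zi of Zf.lean), with `Gw_half` and
`avg_cube_two` (`G₁ = G` times the indicator of `1/2 ≤ |y x|` on `T ∩ S`). -/

theorem volw_lemma {D T P S : Finset (ℤ × ℤ)} {b r : ℤ × ℤ → ℝ} (hb : ∀ z, |b z| ≤ 1 / 2)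
    (hr : ∀ x ∈ S, 0 < r x) (hT : T ⊆ D) (hP : P ⊆ D) (hd : Disjoint T P)
    (hN : ∀ x ∈ T, ∀ i, x + st i ∈ D → x + st i ∈ T ∪ P)
    {v : ℤ × ℤ} (hv : v ∈ P ∨ v ∉ D) {W : Set (T → ℝ)} (hW : MeasurableSet W) :
    volume {h : D → ℝ | h ∈ Kw D S b r (fun _ => 0) ∧
        (fun x : T => gl D b h x - gl D b h v) ∈ W ∧ ∀ x : T, x.1 ∈ S → 1 / 2 ≤ |gl D b h x|} ≤
      2 ^ (T.card + 7 * P.card) * volume W * Zw D S b r (fun _ => 0) := by
  set A := T ∪ P with hA
  set R := D \ A with hR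
  have hAD : A ⊆ D := Finset.union_subset hT hP
  have hdAR : Disjoint A R := Finset.disjoint_sdiff
  have huAR : A ∪ R = D := Finset.union_sdiff_of_subset hAD
  have hvA : v ∈ A ∨ v ∉ D := by
    rcases hv with h | h
    · exact Or.inl (Finset.mem_union_right _ h)
    · exact Or.inr h
  let Y : Set (T → ℝ) := {y | ∀ x : T, x.1 ∈ S → 1 / 2 ≤ |y x|}
  have hY : MeasurableSet Y := by
    have : Y = ⋂ x : T, ⋂ (_ : x.1 ∈ S), {y : T → ℝ | 1 / 2 ≤ |y x|} := by
      ext y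
      simp only [Y, mem_ofPred_eq, mem_iInter]
    rw [this]
    exact MeasurableSet.iInter fun x => MeasurableSet.iInter fun _ =>
      measurableSet_le measurable_const (measurable_pi_apply x).abs
  let E : Set (A → ℝ) := {a | (fun x : T => gl A b a x - gl A b a v) ∈ W ∧
    (fun x : T => gl A b a x) ∈ Y}
  have hE : MeasurableSet E := by
    refine MeasurableSet.inter ?_ ?_
    · refine (measurable_pi_lambda (fun (a : A → ℝ) (x : T) => gl A b a x - gl A b a v)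
        fun x => ?_) hW
      exact (gl_meas A b _).sub (gl_meas A b _)
    · exact (measurable_pi_lambda (fun (a : A → ℝ) (x : T) => gl A b a x)
        fun x => gl_meas A b _) hY
  have hset : {h : D → ℝ | h ∈ Kw D S b r (fun _ => 0) ∧
      (fun x : T => gl D b h x - gl D b h v) ∈ W ∧ ∀ x : T, x.1 ∈ S → 1 / 2 ≤ |gl D b h x|} =
      {h : D → ℝ | h ∈ Kw D S b r (fun _ => 0) ∧ (fun x : A => gl D b h x) ∈ E} := by
    ext h
    have h0 : (fun x : T => gl D b h x) =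
        fun x : T => gl A b (fun x : A => gl D b h x) x := by
      funext x
      have h2 : (x : ℤ × ℤ) ∈ A := Finset.mem_union_left _ x.2
      rw [gl_mem h2]
    have h1 : (fun x : T => gl D b h x - gl D b h v) =
        fun x : T => gl A b (fun x : A => gl D b h x) x - gl A b (fun x : A => gl D b h x) v := by
      funext x
      have h2 : (x : ℤ × ℤ) ∈ A := Finset.mem_union_left _ x.2
      rw [gl_mem h2]
      congr 1
      rcases hvA with h3 | h3
      · rw [gl_mem h3]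
      · rw [gl_not_mem (fun h4 => h3 (hAD h4)), gl_not_mem h3]
    constructor
    · rintro ⟨h2, h3, h4⟩
      refine ⟨h2, ?_, ?_⟩
      · rw [h1] at h3
        exact h3
      · have h5 : (fun x : T => gl D b h x) ∈ Y := h4
        rw [h0] at h5
        exact h5
    · rintro ⟨h2, h3, h4⟩
      refine ⟨h2, ?_, ?_⟩
      · rw [h1]
        exact h3
      · have h5 : (fun x : T => gl D b h x) ∈ Y := by
          rw [h0]
          exact h4
        exact h5
  let F : (A → ℝ) → ℝ≥0∞ := fun a => Zw R S (gl A b a) r (fun _ => 0)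
  have hF : Measurable F := Zw_gl_meas A R S b r (fun _ => 0)
  let G : (T → ℝ) → (P → ℝ) → ℝ≥0∞ := fun y p =>
    (Admw A R S b r (fun _ => 0)).indicator F (jn T P y p)
  have hG : Measurable (Function.uncurry G) :=
    (hF.indicator (Admw_meas A R S b r _)).comp jn_meas
  let G₁ : (T → ℝ) → (P → ℝ) → ℝ≥0∞ := fun y p => Y.indicator (fun y => G y p) y
  have hG₁ : Measurable (Function.uncurry G₁) := by
    have e : Function.uncurry G₁ = (Prod.fst ⁻¹' Y).indicator (Function.uncurry G) := by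
      funext q
      by_cases hq : q.1 ∈ Y
      · rw [indicator_of_mem (show q ∈ Prod.fst ⁻¹' Y from hq)]
        exact indicator_of_mem (f := fun y => G y q.2) hq
      · rw [indicator_of_notMem (show q ∉ Prod.fst ⁻¹' Y from hq)]
        exact indicator_of_notMem (f := fun y => G y q.2) hq
    rw [e]
    exact hG.indicator (measurable_fst hY)
  rw [hset, volw_tower hdAR huAR b r (fun _ => 0) hE, lint_jn hd hA.symm
    (hF.indicator ((Admw_meas A R S b r _).inter hE))]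
  have hmeas : Measurable (Function.uncurry fun (y : T → ℝ) (p : P → ℝ) =>
      (Admw A R S b r (fun _ => 0) ∩ E).indicator F (jn T P y p)) :=
    (hF.indicator ((Admw_meas A R S b r _).inter hE)).comp jn_meas
  rw [lintegral_lintegral_swap hmeas.aemeasurable]
  have hind : ∀ (p : P → ℝ) (y : T → ℝ),
      (Admw A R S b r (fun _ => 0) ∩ E).indicator F (jn T P y p) =
      {y : T → ℝ | (fun i => y i - gl P b p v) ∈ W}.indicator (fun y => G₁ y p) y := by
    intro p y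
    have hgl : ∀ x : T, gl A b (jn T P y p) x = y x := by
      intro x
      rw [hA, rg_gl hd, gl_not_mem (fun h => Finset.disjoint_left.1 hd x.2 h), gl_mem x.2]
    have hmem : (jn T P y p ∈ E) ↔
        y ∈ {y : T → ℝ | (fun i => y i - gl P b p v) ∈ W} ∧ y ∈ Y := by
      have h0 : (fun x : T => gl A b (jn T P y p) x) = y := by
        funext x
        exact hgl x
      have h1 : (fun x : T => gl A b (jn T P y p) x - gl A b (jn T P y p) v) =
          fun x : T => y x - gl P b p v := by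
        funext x
        rw [hgl, hA, rg_gl hd]
        congr 1
        rcases hv with h2 | h2
        · rw [gl_mem h2, gl_mem h2]
        · rw [gl_not_mem (fun h => h2 (hP h)), gl_not_mem (fun h => h2 (hP h)),
            gl_not_mem (fun h => h2 (hT h))]
      show ((fun x : T => gl A b (jn T P y p) x - gl A b (jn T P y p) v) ∈ W ∧
        (fun x : T => gl A b (jn T P y p) x) ∈ Y) ↔ _
      rw [h0, h1]
      rfl
    by_cases h1 : y ∈ {y : T → ℝ | (fun i => y i - gl P b p v) ∈ W}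
    · rw [Set.indicator_of_mem h1]
      show _ = Y.indicator (fun y => (Admw A R S b r (fun _ => 0)).indicator F (jn T P y p)) y
      by_cases h3 : y ∈ Y
      · rw [Set.indicator_of_mem h3]
        by_cases h2 : jn T P y p ∈ Admw A R S b r (fun _ => 0)
        · rw [Set.indicator_of_mem (Set.mem_inter h2 (hmem.2 ⟨h1, h3⟩)), Set.indicator_of_mem h2]
        · rw [Set.indicator_of_notMem (fun h => h2 h.1), Set.indicator_of_notMem h2]
      · rw [Set.indicator_of_notMem h3, Set.indicator_of_notMem (fun h => h3 (hmem.1 h.2).2)]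
    · rw [Set.indicator_of_notMem h1, Set.indicator_of_notMem (fun h => h1 (hmem.1 h.2).1)]
  simp_rw [hind]
  refine (avg_cube_two hG₁ hG (gl_meas P b v) (C := 2 ^ (6 * P.card))
    (fun y p δ hδ => ?_) hW).trans (le_of_eq ?_)
  · show Y.indicator (fun y => G y p) y ≤ _
    by_cases hy : y ∈ Y
    · rw [Set.indicator_of_mem hy]
      exact Gw_half hb hr hT hP hd hN y p hy δ hδ
    · rw [Set.indicator_of_notMem hy]
      exact bot_le
  · have h1 : ∫⁻ p, ∫⁻ y, G y p = Zw D S b r (fun _ => 0) := by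
      rw [← lintegral_lintegral_swap hG.aemeasurable]
      have h2 := Zw_tower (S := S) hdAR huAR b r (fun _ => 0)
      rw [lint_jn hd hA.symm (hF.indicator (Admw_meas A R S b r _))] at h2
      exact h2.symm
    rw [h1, Fintype.card_coe, Fintype.card_coe, ← pow_add]
    congr 3
    ring

/- END ri -/

/- MODULE rj
`young_series` (module yf of Yd.lean) with an arbitrary base: `Q = 8 * a ^ 6 * 2 ^ 43`. -/

private theorem rj_term (a : ℕ) (ha : 1 ≤ a) (Q : ℕ) (hQ : Q = 8 * a ^ 6 * 2 ^ 43) (N k : ℕ) :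
    (2 : ℝ≥0∞) ^ k * (((a : ℝ≥0∞) ^ 6) ^ k * (2 ^ (43 * k + 7) *
      ENNReal.ofReal ((5 / 2 : ℝ) ^ k / ((Q ^ (k - N) : ℕ) : ℝ)))) ≤
    ENNReal.ofReal (2 ^ 7 * (Q : ℝ) ^ N) * ENNReal.ofReal (5 / 8) ^ k := by
  have ha0 : (0 : ℝ) < (a : ℝ) := by exact_mod_cast ha
  have hQ1 : 1 ≤ Q := by
    rw [hQ]
    exact Nat.succ_le_of_lt (by positivity)
  have hQr : (1 : ℝ) ≤ (Q : ℝ) := by exact_mod_cast hQ1
  have hQ0 : (0 : ℝ) < (Q : ℝ) := lt_of_lt_of_le one_pos hQr
  have hQv : (Q : ℝ) = 8 * (a : ℝ) ^ 6 * 2 ^ 43 := by rw [hQ]; push_cast; ring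
  have e1 : (2 : ℝ≥0∞) = ENNReal.ofReal 2 := by norm_num
  have e2 : (a : ℝ≥0∞) = ENNReal.ofReal (a : ℝ) := (ENNReal.ofReal_natCast a).symm
  rw [e1, e2]
  rw [← ENNReal.ofReal_pow (by norm_num), ← ENNReal.ofReal_pow (by positivity),
    ← ENNReal.ofReal_pow (by positivity), ← ENNReal.ofReal_pow (by norm_num),
    ← ENNReal.ofReal_mul (by positivity), ← ENNReal.ofReal_mul (by positivity),
    ← ENNReal.ofReal_mul (by positivity), ← ENNReal.ofReal_pow (by norm_num),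
    ← ENNReal.ofReal_mul (by positivity)]
  apply ENNReal.ofReal_le_ofReal
  have h1 : (Q : ℝ) ^ k ≤ (Q : ℝ) ^ N * (Q : ℝ) ^ (k - N) := by
    rw [← pow_add]
    exact pow_le_pow_right₀ hQr (by omega)
  have hp : (0 : ℝ) < (Q : ℝ) ^ (k - N) := pow_pos hQ0 _
  have hk : (0 : ℝ) < (Q : ℝ) ^ k := pow_pos hQ0 _
  have h2 : (5 / 2 : ℝ) ^ k / ((Q ^ (k - N) : ℕ) : ℝ) ≤
      (5 / 2 : ℝ) ^ k * (Q : ℝ) ^ N / (Q : ℝ) ^ k := by
    push_cast
    rw [div_le_div_iff₀ hp hk, mul_assoc]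
    exact mul_le_mul_of_nonneg_left h1 (by positivity)
  have h3 : (2 : ℝ) ^ k * (((a : ℝ) ^ 6) ^ k * (2 ^ (43 * k + 7) *
      ((5 / 2 : ℝ) ^ k * (Q : ℝ) ^ N / (Q : ℝ) ^ k))) = 2 ^ 7 * (Q : ℝ) ^ N * (5 / 8) ^ k := by
    have h4 : (Q : ℝ) ^ k = 8 ^ k * ((a : ℝ) ^ 6) ^ k * (2 ^ 43) ^ k := by
      rw [hQv, mul_pow, mul_pow]
    have h5 : (2 : ℝ) ^ (43 * k + 7) = (2 ^ 43) ^ k * 2 ^ 7 := by
      rw [pow_add, pow_mul]
    have h6 : (5 / 8 : ℝ) ^ k = 2 ^ k * (5 / 2) ^ k / 8 ^ k := by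
      rw [← mul_pow, ← div_pow]; norm_num
    have h7 : (0 : ℝ) < 8 ^ k := by positivity
    have h8 : (0 : ℝ) < ((a : ℝ) ^ 6) ^ k := by positivity
    have h9 : (0 : ℝ) < (2 ^ 43) ^ k := by positivity
    rw [h5, h6, h4]
    generalize (8 : ℝ) ^ k = x at *
    generalize ((a : ℝ) ^ 6) ^ k = y at *
    generalize ((2 : ℝ) ^ 43) ^ k = z at *
    field_simp
  rw [← h3]
  gcongr

theorem young_gen (a : ℕ) (ha : 1 ≤ a) : ∃ (Q : ℕ) (C : ℝ≥0∞), 1 ≤ Q ∧ C < ⊤ ∧
    ∀ F : Finset YoungDiagram,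
    ∑ μ ∈ F, ((a : ℝ≥0∞) ^ 6) ^ μ.card * (2 ^ (43 * μ.card + 7) *
      ENNReal.ofReal ((5 / 2 : ℝ) ^ μ.card / ((Q ^ (μ.card - Q ^ 4) : ℕ) : ℝ))) ≤ C := by
  obtain ⟨Q, hQ⟩ : ∃ Q : ℕ, Q = 8 * a ^ 6 * 2 ^ 43 := ⟨_, rfl⟩
  have hQ1 : 1 ≤ Q := by
    rw [hQ]
    exact Nat.succ_le_of_lt (by positivity)
  refine ⟨Q, ENNReal.ofReal (2 ^ 7 * (Q : ℝ) ^ (Q ^ 4)) * ∑' k : ℕ, ENNReal.ofReal (5 / 8) ^ k,
    hQ1, ?_, ?_⟩
  · refine ENNReal.mul_lt_top ENNReal.ofReal_lt_top ?_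
    rw [ENNReal.tsum_geometric, ENNReal.inv_lt_top, tsub_pos_iff_lt]
    rw [← ENNReal.ofReal_one]
    exact (ENNReal.ofReal_lt_ofReal_iff one_pos).2 (by norm_num)
  · intro F
    classical
    generalize hN : Q ^ 4 = N
    have step := Finset.sum_comp (s := F) (fun k : ℕ => ((a : ℝ≥0∞) ^ 6) ^ k *
      (2 ^ (43 * k + 7) * ENNReal.ofReal ((5 / 2 : ℝ) ^ k / ((Q ^ (k - N) : ℕ) : ℝ))))
      (fun μ : YoungDiagram => μ.card)
    rw [step, ← ENNReal.tsum_mul_left]
    refine le_trans (Finset.sum_le_sum (fun k _ => ?_)) (ENNReal.sum_le_tsum (F.image _))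
    refine le_trans ?_ (rj_term a ha Q hQ N k)
    rw [nsmul_eq_mul]
    gcongr
    have hc := card_young (F.filter (fun μ => μ.card = k)) k
      (fun μ hμ => (Finset.mem_filter.1 hμ).2)
    exact_mod_cast hc

/- END rj -/

/- MODULE rk
THE EXPONENTIAL MOMENT WITH WALLS AND ARBITRARY BASE: as `Ev_vol`, `exp_moment` of Em.lean, with the
event `Ev` intersected with `Kw` and with `1/2 ≤ |h x|` for `x ∈ Tm ∩ S`.  On `Reg` a site `x` with
`qf x < 1/2` and `dn (x - u) ≥ 2` has `h x < h v + 3/2 - dn (x - u) ≤ -1/2`. -/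

private def rk_Ev (D S : Finset (ℤ × ℤ)) (b r : ℤ × ℤ → ℝ) (u v : ℤ × ℤ) (j : Fin 6)
    (μ : YoungDiagram) : Set (D → ℝ) :=
  {h | h ∈ Kw D S b r (fun _ => 0) ∧
    (fun x : Tm D u v j μ => gl D b h x - gl D b h v) ∈ Wm D u v j μ ∧
    ∀ x : Tm D u v j μ, x.1 ∈ S → 1 / 2 ≤ |gl D b h x|}

private theorem rk_Ev_meas (D S : Finset (ℤ × ℤ)) (b r : ℤ × ℤ → ℝ) (u v : ℤ × ℤ) (j : Fin 6)
    (μ : YoungDiagram) : MeasurableSet (rk_Ev D S b r u v j μ) := by
  have h1 : Measurable (fun (h : D → ℝ) (x : Tm D u v j μ) => gl D b h x - gl D b h v) := by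
    refine measurable_pi_lambda _ (fun x => ?_)
    exact (gl_meas D b x).sub (gl_meas D b v)
  have h2 : MeasurableSet {h : D → ℝ | ∀ x : Tm D u v j μ, x.1 ∈ S → 1 / 2 ≤ |gl D b h x|} := by
    have : {h : D → ℝ | ∀ x : Tm D u v j μ, x.1 ∈ S → 1 / 2 ≤ |gl D b h x|} =
        ⋂ x : Tm D u v j μ, ⋂ (_ : x.1 ∈ S), {h : D → ℝ | 1 / 2 ≤ |gl D b h x|} := by
      ext h
      simp only [mem_ofPred_eq, mem_iInter]
    rw [this]
    exact MeasurableSet.iInter fun x => MeasurableSet.iInter fun _ =>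
      measurableSet_le measurable_const (gl_meas D b x).abs
  exact (Kw_meas D S b r _).inter ((h1 (Wm_meas D u v j μ)).inter h2)

private theorem rk_Ev_vol {D S : Finset (ℤ × ℤ)} {b r : ℤ × ℤ → ℝ} (hb : ∀ z, |b z| ≤ 1 / 2)
    (hr : ∀ x ∈ S, 0 < r x) {u v : ℤ × ℤ} {j : Fin 6} {μ : YoungDiagram} (hμ : μ ∈ Cy D u v j)
    (Q : ℕ) (hQ : 1 ≤ Q) :
    volume (rk_Ev D S b r u v j μ) ≤ 2 ^ (43 * μ.card + 7) *
      ENNReal.ofReal ((5 / 2 : ℝ) ^ μ.card / ((Q ^ (μ.card - Q ^ 4) : ℕ) : ℝ)) *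
        Zw D S b r (fun _ => 0) := by
  have h1 := volw_lemma (D := D) (T := Tm D u v j μ) (P := Pfr D u v j μ) (S := S) hb hr
    (Tm_sub D u v j μ) (Pfr_sub D u v j μ) (Tm_Pm D u v j μ) (Pfr_nb D u v j μ) (Pfr_v D u v j μ)
    (Wm_meas D u v j μ)
  refine h1.trans ?_
  refine mul_le_mul' (mul_le_mul' ?_ ?_) le_rfl
  · refine pow_le_pow_right₀ (by norm_num) ?_
    have := Tm_card D u v j μ
    have := Pfr_card D u v j μ
    omega
  · rw [Wm_vol]
    refine mo_vol μ (Lm D u v j μ) ?_ Finset.inter_subset_left (-2) (by norm_num) Q hQ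
    intro c hc
    have hc' := Finset.mem_erase.1 hc
    have := hμ hc'.2
    rw [Finset.mem_insert] at this
    rcases this with h | h
    · exact absurd h hc'.1
    · exact Finset.mem_inter.2 ⟨hc'.2, h⟩

private theorem rk_diag {D S : Finset (ℤ × ℤ)} {b r : ℤ × ℤ → ℝ} (hb : ∀ z, |b z| ≤ 1 / 2)
    {u v : ℤ × ℤ} (hg : Good D b u v) (hS : ∀ x ∈ S, 2 ≤ dn (x - u)) {h : D → ℝ}
    (hh : h ∈ Reg D b v) (hw : h ∈ Kw D S b r (fun _ => 0)) (j : Fin 6) :
    ∃ μ : YoungDiagram, μ ∈ Cy D u v j ∧ h ∈ rk_Ev D S b r u v j μ ∧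
      ∀ c : ℕ × ℕ, qf D b u v h (cl u j c) < 1 / 2 → c ∈ μ.cells := by
  classical
  have key : ∀ c : ℕ × ℕ, qf D b u v h (cl u j c) < 1 / 2 →
      c ∈ insert (0, 0) (Bx D u v j) := by
    intro c hc
    by_cases h0 : c = (0, 0)
    · rw [h0]; exact Finset.mem_insert_self _ _
    · refine Finset.mem_insert_of_mem (mem_Bx.2 ?_)
      have hd : 2 ≤ dn (cl u j c - u) := by
        rw [dn_cl]
        have : c.1 ≠ 0 ∨ c.2 ≠ 0 := by
          by_contra hcon
          push Not at hcon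
          exact h0 (Prod.ext hcon.1 hcon.2)
        omega
      constructor
      · intro e
        obtain ⟨i, hi⟩ := hg.nb
        have : dn (cl u j c - u) = 1 := by
          rw [e, hi]
          refine (dn_one_iff _).2 ⟨i, by simp⟩
        omega
      · by_contra hD
        have := qf_fix2 hb hh hD hd
        linarith
  let μ : YoungDiagram :=
    { cells := (insert (0, 0) (Bx D u v j)).filter (fun c => qf D b u v h (cl u j c) < 1 / 2)
      isLowerSet := by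
        intro c c' hc hcm
        simp only [Finset.coe_filter, Set.mem_ofPred_eq] at hcm ⊢
        have : qf D b u v h (cl u j c') < 1 / 2 :=
          lt_of_le_of_lt (qf_mono hb hh.1 j hc) hcm.2
        exact ⟨key c' this, this⟩ }
  have hμ : ∀ c, c ∈ μ.cells ↔ qf D b u v h (cl u j c) < 1 / 2 := by
    intro c
    constructor
    · intro hc
      exact (Finset.mem_filter.1 hc).2
    · intro hc
      exact Finset.mem_filter.2 ⟨key c hc, hc⟩
  refine ⟨μ, Finset.filter_subset _ _, ⟨hw, ⟨?_, ?_⟩, ?_⟩, fun c hc => (hμ c).2 hc⟩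
  · intro c
    have hc : (c : ℕ × ℕ) ∈ μ.cells := (Finset.mem_inter.1 c.2).1
    have h1 := (hμ c).1 hc
    have h2 := qf_ge hb hg.nb hh.1 (cl u j c)
    simp only [qf] at h1 h2
    constructor
    · linarith
    · linarith
  · intro c c' hc
    have := qf_mono (b := b) hb hh.1 (u := u) (v := v) j hc
    simp only [qf] at this
    linarith
  · intro x hx
    obtain ⟨c, h1, _, _, h4⟩ := mem_Tm.1 x.2
    have h5 := (hμ c).1 h1
    rw [h4] at h5
    have h6 : (2 : ℝ) ≤ dn (x.1 - u) := by exact_mod_cast hS x.1 hx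
    have h7 : gl D b h v ≤ 0 := hh.2
    simp only [qf] at h5
    have h8 : gl D b h x ≤ -(1 / 2) := by linarith
    have h9 := neg_le_abs (gl D b h x)
    linarith

private theorem rk_sum (a : ℕ) (ha : 1 ≤ a) (k : Fin 6 → ℕ) :
    (a : ℝ≥0∞) ^ (∑ j, k j) ≤ ∑ j, ((a : ℝ≥0∞) ^ 6) ^ (k j) := by
  obtain ⟨m, _, hm⟩ := Finset.exists_max_image (Finset.univ : Finset (Fin 6)) k
    Finset.univ_nonempty
  have h1 : ∑ j, k j ≤ 6 * k m := by
    calc ∑ j, k j ≤ ∑ _j : Fin 6, k m := Finset.sum_le_sum (fun j hj => hm j hj)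
      _ = 6 * k m := by simp
  have h2 : (1 : ℝ≥0∞) ≤ (a : ℝ≥0∞) := by exact_mod_cast ha
  calc (a : ℝ≥0∞) ^ (∑ j, k j) ≤ (a : ℝ≥0∞) ^ (6 * k m) := pow_le_pow_right₀ h2 h1
    _ = ((a : ℝ≥0∞) ^ 6) ^ (k m) := by rw [pow_mul]
    _ ≤ ∑ j, ((a : ℝ≥0∞) ^ 6) ^ (k j) :=
        Finset.single_le_sum (f := fun j => ((a : ℝ≥0∞) ^ 6) ^ (k j)) (fun _ _ => zero_le)
          (Finset.mem_univ m)

theorem exp_wall (a : ℕ) (ha : 1 ≤ a) : ∃ C : ℝ≥0∞, C < ⊤ ∧
    ∀ (D S : Finset (ℤ × ℤ)) (b r : ℤ × ℤ → ℝ), (∀ z, |b z| ≤ 1 / 2) → (∀ x ∈ S, 0 < r x) →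
      ∀ u v : ℤ × ℤ, Good D b u v → (∀ x ∈ S, 2 ≤ dn (x - u)) →
      ∫⁻ h : D → ℝ, (Reg D b v ∩ Kw D S b r (fun _ => 0)).indicator
          (fun h => (a : ℝ≥0∞) ^ (Nn D b u v h)) h ≤
        C * Zw D S b r (fun _ => 0) := by
  classical
  obtain ⟨Q, C, hQ, hC, HC⟩ := young_gen a ha
  have ha' : (1 : ℝ≥0∞) ≤ (a : ℝ≥0∞) := by exact_mod_cast ha
  refine ⟨6 * C, ENNReal.mul_lt_top (by norm_num) hC, ?_⟩
  intro D S b r hb hr u v hg hS
  let F : Fin 6 → Finset YoungDiagram := fun j => (Cy_finite D u v j).toFinset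
  have hF : ∀ j μ, μ ∈ F j ↔ μ ∈ Cy D u v j := fun j μ => by simp [F]
  have hpt : ∀ h : D → ℝ, (Reg D b v ∩ Kw D S b r (fun _ => 0)).indicator
      (fun h => (a : ℝ≥0∞) ^ (Nn D b u v h)) h ≤
      ∑ j, ∑ μ ∈ F j, (rk_Ev D S b r u v j μ).indicator
        (fun _ => ((a : ℝ≥0∞) ^ 6) ^ μ.card) h := by
    intro h
    by_cases hh : h ∈ Reg D b v ∩ Kw D S b r (fun _ => 0)
    · rw [Set.indicator_of_mem hh]
      choose μ h1 h2 h3 using rk_diag hb hg hS hh.1 hh.2
      calc (a : ℝ≥0∞) ^ (Nn D b u v h) ≤ (a : ℝ≥0∞) ^ (∑ j, (μ j).card) :=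
            pow_le_pow_right₀ ha' (Nn_le_sum h3)
        _ ≤ ∑ j, ((a : ℝ≥0∞) ^ 6) ^ (μ j).card := rk_sum a ha _
        _ ≤ _ := by
            refine Finset.sum_le_sum (fun j _ => ?_)
            have : ((a : ℝ≥0∞) ^ 6) ^ (μ j).card = (rk_Ev D S b r u v j (μ j)).indicator
                (fun _ => ((a : ℝ≥0∞) ^ 6) ^ (μ j).card) h := by
              rw [Set.indicator_of_mem (h2 j)]
            rw [this]
            exact Finset.single_le_sum (f := fun μ => (rk_Ev D S b r u v j μ).indicator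
                (fun _ => ((a : ℝ≥0∞) ^ 6) ^ μ.card) h) (fun _ _ => zero_le)
              ((hF j (μ j)).2 (h1 j))
    · rw [Set.indicator_of_notMem hh]
      exact zero_le
  calc ∫⁻ h : D → ℝ, (Reg D b v ∩ Kw D S b r (fun _ => 0)).indicator
        (fun h => (a : ℝ≥0∞) ^ (Nn D b u v h)) h
      ≤ ∫⁻ h : D → ℝ, ∑ j, ∑ μ ∈ F j,
          (rk_Ev D S b r u v j μ).indicator (fun _ => ((a : ℝ≥0∞) ^ 6) ^ μ.card) h :=
        lintegral_mono hpt
    _ = ∑ j, ∑ μ ∈ F j, ((a : ℝ≥0∞) ^ 6) ^ μ.card * volume (rk_Ev D S b r u v j μ) := by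
        rw [lintegral_finsetSum]
        · refine Finset.sum_congr rfl (fun j _ => ?_)
          rw [lintegral_finsetSum]
          · refine Finset.sum_congr rfl (fun μ _ => ?_)
            rw [lintegral_indicator_const (rk_Ev_meas D S b r u v j μ)]
          · intro μ _
            exact measurable_const.indicator (rk_Ev_meas D S b r u v j μ)
        · intro j _
          refine Finset.measurable_sum _ (fun μ _ => ?_)
          exact measurable_const.indicator (rk_Ev_meas D S b r u v j μ)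
    _ ≤ ∑ j : Fin 6, C * Zw D S b r (fun _ => 0) := by
        refine Finset.sum_le_sum (fun j _ => ?_)
        calc ∑ μ ∈ F j, ((a : ℝ≥0∞) ^ 6) ^ μ.card * volume (rk_Ev D S b r u v j μ)
            ≤ ∑ μ ∈ F j, (((a : ℝ≥0∞) ^ 6) ^ μ.card * (2 ^ (43 * μ.card + 7) *
                ENNReal.ofReal ((5 / 2 : ℝ) ^ μ.card / ((Q ^ (μ.card - Q ^ 4) : ℕ) : ℝ)))) *
                  Zw D S b r (fun _ => 0) := by
              refine Finset.sum_le_sum (fun μ hμ => ?_)
              rw [mul_assoc]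
              gcongr
              exact rk_Ev_vol hb hr ((hF j μ).1 hμ) Q hQ
          _ = (∑ μ ∈ F j, ((a : ℝ≥0∞) ^ 6) ^ μ.card * (2 ^ (43 * μ.card + 7) *
                ENNReal.ofReal ((5 / 2 : ℝ) ^ μ.card / ((Q ^ (μ.card - Q ^ 4) : ℕ) : ℝ)))) *
                  Zw D S b r (fun _ => 0) := by
              rw [Finset.sum_mul]
          _ ≤ C * Zw D S b r (fun _ => 0) := by
              gcongr
              exact HC (F j)
    _ = 6 * C * Zw D S b r (fun _ => 0) := by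
        simp [mul_assoc]

/- END rk -/

/-- product weights `∏_{x ∈ S} om x (h x)` -/
def Om {D : Finset (ℤ × ℤ)} (S : Finset (ℤ × ℤ)) (om : ℤ × ℤ → ℝ → ℝ≥0∞) (h : D → ℝ) : ℝ≥0∞ :=
  ∏ x : D, if x.1 ∈ S then om x.1 (h x) else 1

/-- mixtures of walls: `om x t = ρ x {r | |t| ≤ r}` for a finite measure `ρ x` on `(0, ∞)` -/
structure Mix (S : Finset (ℤ × ℤ)) (om : ℤ × ℤ → ℝ → ℝ≥0∞) (ρ : ℤ × ℤ → Measure ℝ) : Prop where
  fin : ∀ x ∈ S, IsFiniteMeasure (ρ x)
  pos : ∀ x ∈ S, ρ x (Iic 0) = 0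
  eq : ∀ x ∈ S, ∀ t, om x t = ρ x (Ici |t|)

/- MODULE rl
Integrate `exp_wall` over `r ∈ (0, ∞)^{S ∩ D}` with the product measure of the `ρ x`
(`Measure.pi` over `D`, with a Dirac measure at sites outside `S`; Tonelli):
`∫ ∏ 1{|h x| ≤ r x} dρ = Om S om h`. -/

private theorem rl_Nn (D : Finset (ℤ × ℤ)) (b : ℤ × ℤ → ℝ) (u v : ℤ × ℤ) :
    Measurable (Nn D b u v) := by
  classical
  have h1 : Nn D b u v = fun h => ∑ x ∈ D,
      (if x ≠ u ∧ x ≠ v ∧ qf D b u v h x < 1 / 2 then 1 else 0) := by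
    funext h
    unfold Nn Ns
    rw [Finset.card_filter]
  rw [h1]
  refine Finset.measurable_fun_sum _ fun x _ => ?_
  refine Measurable.ite ?_ measurable_const measurable_const
  by_cases hx : x ≠ u ∧ x ≠ v
  · have : {h : D → ℝ | x ≠ u ∧ x ≠ v ∧ qf D b u v h x < 1 / 2} =
        {h : D → ℝ | qf D b u v h x < 1 / 2} := by
      ext h
      simp only [Set.mem_ofPred_eq]
      exact ⟨fun h => h.2.2, fun h => ⟨hx.1, hx.2, h⟩⟩
    rw [this]
    refine measurableSet_lt ?_ measurable_const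
    unfold qf
    exact (((gl_meas D b x).sub (gl_meas D b v)).sub_const 1).add_const _
  · have : {h : D → ℝ | x ≠ u ∧ x ≠ v ∧ qf D b u v h x < 1 / 2} = ∅ := by
      ext h
      simp only [Set.mem_ofPred_eq, Set.mem_empty_iff_false, iff_false]
      exact fun h => hx ⟨h.1, h.2.1⟩
    rw [this]
    exact MeasurableSet.empty

private theorem rl_Reg (D : Finset (ℤ × ℤ)) (b : ℤ × ℤ → ℝ) (v : ℤ × ℤ) :
    MeasurableSet (Reg D b v) := by
  unfold Reg
  exact (K_meas D b).inter (measurableSet_le (gl_meas D b v) measurable_const)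

/-- the law of the walls at the site `x` -/
private def rl_k (S : Finset (ℤ × ℤ)) (ρ : ℤ × ℤ → Measure ℝ) (x : ℤ × ℤ) : Measure ℝ :=
  if x ∈ S then ρ x else Measure.dirac 1

private theorem rl_fin {S : Finset (ℤ × ℤ)} {om : ℤ × ℤ → ℝ → ℝ≥0∞} {ρ : ℤ × ℤ → Measure ℝ}
    (hM : Mix S om ρ) (x : ℤ × ℤ) : IsFiniteMeasure (rl_k S ρ x) := by
  unfold rl_k
  by_cases h : x ∈ S
  · rw [if_pos h]
    exact hM.fin x h
  · rw [if_neg h]
    infer_instance

private theorem rl_pos {S : Finset (ℤ × ℤ)} {om : ℤ × ℤ → ℝ → ℝ≥0∞} {ρ : ℤ × ℤ → Measure ℝ}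
    (hM : Mix S om ρ) (x : ℤ × ℤ) : rl_k S ρ x (Iic 0) = 0 := by
  unfold rl_k
  by_cases h : x ∈ S
  · rw [if_pos h]
    exact hM.pos x h
  · rw [if_neg h, Measure.dirac_apply' _ measurableSet_Iic]
    rw [indicator_of_notMem]
    simp

/-- walls from a point of the product space -/
private def rl_r (D : Finset (ℤ × ℤ)) (r : D → ℝ) : ℤ × ℤ → ℝ := gl D (fun _ => 1) r

private theorem rl_om {D S : Finset (ℤ × ℤ)} {om : ℤ × ℤ → ℝ → ℝ≥0∞} {ρ : ℤ × ℤ → Measure ℝ}
    (hM : Mix S om ρ) (h : D → ℝ) :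
    (haveI := fun x : D => rl_fin hM x.1
     Measure.pi (fun x : D => rl_k S ρ x.1)) {r : D → ℝ | ∀ x : D, x.1 ∈ S → |h x| ≤ r x} =
      Om S om h := by
  have hfin := fun x : D => rl_fin hM x.1
  have e : {r : D → ℝ | ∀ x : D, x.1 ∈ S → |h x| ≤ r x} =
      Set.univ.pi (fun x : D => if x.1 ∈ S then Ici |h x| else univ) := by
    ext r
    simp only [mem_ofPred_eq, Set.mem_pi, Set.mem_univ, true_implies]
    refine forall_congr' fun x => ?_
    by_cases hx : x.1 ∈ S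
    · simp [hx]
    · simp [hx]
  rw [e, Measure.pi_pi]
  unfold Om
  refine Finset.prod_congr rfl fun x _ => ?_
  by_cases hx : x.1 ∈ S
  · rw [if_pos hx, if_pos hx, rl_k, if_pos hx, hM.eq x.1 hx]
  · rw [if_neg hx, if_neg hx, rl_k, if_neg hx]
    exact measure_univ

private theorem rl_mem {D S : Finset (ℤ × ℤ)} {b : ℤ × ℤ → ℝ} (h r : D → ℝ) :
    h ∈ Kw D S b (rl_r D r) (fun _ => 0) ↔
      h ∈ K D b ∧ ∀ x : D, x.1 ∈ S → |h x| ≤ r x := by
  constructor
  · rintro ⟨h1, h2⟩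
    refine ⟨h1, fun x hx => ?_⟩
    have h3 := h2 x.1 x.2 hx
    rw [sub_zero, gl_mem x.2, rl_r, gl_mem x.2] at h3
    exact h3
  · rintro ⟨h1, h2⟩
    refine ⟨h1, fun x hxD hx => ?_⟩
    rw [sub_zero, gl_mem hxD, rl_r, gl_mem hxD]
    exact h2 ⟨x, hxD⟩ hx

private theorem rl_set (D S : Finset (ℤ × ℤ)) :
    MeasurableSet {p : (D → ℝ) × (D → ℝ) | ∀ x : D, x.1 ∈ S → |p.1 x| ≤ p.2 x} := by
  have : {p : (D → ℝ) × (D → ℝ) | ∀ x : D, x.1 ∈ S → |p.1 x| ≤ p.2 x} =
      ⋂ x : D, ⋂ (_ : x.1 ∈ S), {p : (D → ℝ) × (D → ℝ) | |p.1 x| ≤ p.2 x} := by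
    ext p
    simp only [mem_ofPred_eq, mem_iInter]
  rw [this]
  exact MeasurableSet.iInter fun x => MeasurableSet.iInter fun _ =>
    measurableSet_le ((measurable_pi_apply x).comp measurable_fst).abs
      ((measurable_pi_apply x).comp measurable_snd)

/-- Tonelli: the mixture of the integrals over the polytopes with walls -/
private theorem rl_ton {D S : Finset (ℤ × ℤ)} {b : ℤ × ℤ → ℝ} {om : ℤ × ℤ → ℝ → ℝ≥0∞}
    {ρ : ℤ × ℤ → Measure ℝ} (hM : Mix S om ρ) {A : Set (D → ℝ)} (hA : MeasurableSet A)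
    (hAK : A ⊆ K D b) {f : (D → ℝ) → ℝ≥0∞} (hf : Measurable f) :
    ∫⁻ h in A, Om S om h * f h =
      ∫⁻ r, (∫⁻ h, (A ∩ Kw D S b (rl_r D r) (fun _ => 0)).indicator f h)
        ∂(haveI := fun x : D => rl_fin hM x.1
          Measure.pi (fun x : D => rl_k S ρ x.1)) := by
  have hfin := fun x : D => rl_fin hM x.1
  set π := Measure.pi (fun x : D => rl_k S ρ x.1) with hπ
  set E : Set ((D → ℝ) × (D → ℝ)) := {p | ∀ x : D, x.1 ∈ S → |p.1 x| ≤ p.2 x} with hE
  have hEm : MeasurableSet E := rl_set D S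
  set G : (D → ℝ) × (D → ℝ) → ℝ≥0∞ := E.indicator (fun p => f p.1) with hG
  have hGm : Measurable G := (hf.comp measurable_fst).indicator hEm
  have h1 : ∀ h, Om S om h * f h = ∫⁻ r, G (h, r) ∂π := by
    intro h
    have h2 : ∀ r, G (h, r) =
        {r : D → ℝ | ∀ x : D, x.1 ∈ S → |h x| ≤ r x}.indicator (fun _ => f h) r := by
      intro r
      by_cases hr : (h, r) ∈ E
      · rw [hG, indicator_of_mem hr, indicator_of_mem
          (show r ∈ {r : D → ℝ | ∀ x : D, x.1 ∈ S → |h x| ≤ r x} from hr)]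
      · rw [hG, indicator_of_notMem hr, indicator_of_notMem
          (show r ∉ {r : D → ℝ | ∀ x : D, x.1 ∈ S → |h x| ≤ r x} from hr)]
    have h3 : MeasurableSet {r : D → ℝ | ∀ x : D, x.1 ∈ S → |h x| ≤ r x} :=
      measurable_prodMk_left hEm
    simp only [h2]
    rw [lintegral_indicator_const h3, ← rl_om hM h, mul_comm]
  have h3 : ∀ r h, (A ∩ Kw D S b (rl_r D r) (fun _ => 0)).indicator f h =
      A.indicator (fun h => G (h, r)) h := by
    intro r h
    by_cases hh : h ∈ A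
    · rw [indicator_of_mem hh]
      by_cases hr : (h, r) ∈ E
      · have h4 : h ∈ A ∩ Kw D S b (rl_r D r) (fun _ => 0) :=
          ⟨hh, (rl_mem h r).2 ⟨hAK hh, hr⟩⟩
        rw [hG, indicator_of_mem hr, indicator_of_mem h4]
      · rw [hG, indicator_of_notMem hr, indicator_of_notMem
          fun h5 => hr ((rl_mem h r).1 h5.2).2]
    · rw [indicator_of_notMem hh, indicator_of_notMem fun h5 => hh h5.1]
  simp only [h1, h3, lintegral_indicator hA]
  exact lintegral_lintegral_swap (f := fun h r => G (h, r)) hGm.aemeasurable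

theorem exp_mix (a : ℕ) (ha : 1 ≤ a) : ∃ C : ℝ≥0∞, C < ⊤ ∧
    ∀ (D S : Finset (ℤ × ℤ)) (b : ℤ × ℤ → ℝ) (om : ℤ × ℤ → ℝ → ℝ≥0∞) (ρ : ℤ × ℤ → Measure ℝ),
      (∀ z, |b z| ≤ 1 / 2) → Mix S om ρ → ∀ u v : ℤ × ℤ, Good D b u v →
      (∀ x ∈ S, 2 ≤ dn (x - u)) →
      ∫⁻ h in Reg D b v, Om S om h * (a : ℝ≥0∞) ^ (Nn D b u v h) ≤
        C * ∫⁻ h in K D b, Om S om h := by
  obtain ⟨C, hC, H⟩ := exp_wall a ha
  refine ⟨C, hC, fun D S b om ρ hb hM u v hg hS => ?_⟩
  have hfin := fun x : D => rl_fin hM x.1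
  have h1 : ∫⁻ h in K D b, Om S om h =
      ∫⁻ h in K D b, Om S om h * (fun _ : D → ℝ => (1 : ℝ≥0∞)) h := by
    simp only [mul_one]
  have hf : Measurable (fun h : D → ℝ => (a : ℝ≥0∞) ^ (Nn D b u v h)) :=
    (measurable_from_top (f := fun n : ℕ => (a : ℝ≥0∞) ^ n)).comp (rl_Nn D b u v)
  rw [rl_ton hM (rl_Reg D b v) (fun h hh => hh.1) hf,
    h1, rl_ton hM (K_meas D b) Subset.rfl measurable_const, ← lintegral_const_mul' _ _ hC.ne]
  refine lintegral_mono_ae ?_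
  have h2 : ∀ᵐ r ∂(Measure.pi (fun x : D => rl_k S ρ x.1)), ∀ x : D, 0 < r x := by
    rw [ae_all_iff]
    intro x
    have h3 : (Measure.pi (fun x : D => rl_k S ρ x.1)) (Function.eval x ⁻¹' Iic 0) = 0 :=
      Measure.pi_eval_preimage_null _ (rl_pos hM x.1)
    rw [ae_iff]
    refine measure_mono_null (fun r hr => ?_) h3
    exact not_lt.1 hr
  filter_upwards [h2] with r hr
  have h3 : ∀ x ∈ S, 0 < rl_r D r x := by
    intro x _
    unfold rl_r
    by_cases hx : x ∈ D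
    · rw [gl_mem hx]
      exact hr _
    · rw [gl_not_mem hx]
      exact one_pos
  refine (H D S b (rl_r D r) hb h3 u v hg hS).trans (le_of_eq ?_)
  congr 1
  have h4 : K D b ∩ Kw D S b (rl_r D r) (fun _ => 0) = Kw D S b (rl_r D r) (fun _ => 0) :=
    inter_eq_right.2 (Kw_sub _ _ _ _ _)
  rw [h4]
  exact (lintegral_indicator_one (Kw_meas _ _ _ _ _)).symm

/- END rl -/

/-- the mass potential -/
def phi (t : ℝ) : ℝ := Real.sqrt (1 + t ^ 2) - 1

/- MODULE rm
`e^{-t phi(z)} = ∫_{|z|}^∞ t phi'(r) e^{-t phi(r)} dr`, so `ρ` = the measure with density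
`t phi'(r) e^{-t phi(r)}` on `(0, ∞)` for `t > 0` (and `om = 1`, no walls, for `t = 0`:
not needed).  `phi` is smooth, even, convex, nonnegative, nondecreasing on `[0, ∞)`,
`phi(z) ≤ z^2 / 2`, `phi(1/2) ≥ 1/10`. -/

private theorem rm_mono {y z : ℝ} (h : |y| ≤ |z|) : phi y ≤ phi z := by
  unfold phi
  have h1 : y ^ 2 ≤ z ^ 2 := sq_le_sq.2 h
  have h2 : Real.sqrt (1 + y ^ 2) ≤ Real.sqrt (1 + z ^ 2) := Real.sqrt_le_sqrt (by linarith)
  linarith

private theorem rm_cont : Continuous phi := by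
  unfold phi
  exact ((continuous_const.add (continuous_pow 2)).sqrt).sub continuous_const

private theorem rm_F {t : ℝ} (ht : 0 < t) :
    Monotone (fun r : ℝ => 1 - Real.exp (- (t * phi (max r 0)))) := by
  intro r s hrs
  have h1 : phi (max r 0) ≤ phi (max s 0) := by
    refine rm_mono ?_
    rw [abs_of_nonneg (le_max_right r 0), abs_of_nonneg (le_max_right s 0)]
    exact max_le_max hrs le_rfl
  have h2 : Real.exp (- (t * phi (max s 0))) ≤ Real.exp (- (t * phi (max r 0))) :=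
    Real.exp_le_exp.2 (neg_le_neg (mul_le_mul_of_nonneg_left h1 ht.le))
  show 1 - _ ≤ 1 - _
  linarith

private theorem rm_Fc (t : ℝ) :
    Continuous (fun r : ℝ => 1 - Real.exp (- (t * phi (max r 0)))) :=
  continuous_const.sub (Real.continuous_exp.comp
    ((continuous_const.mul (rm_cont.comp (continuous_id.max continuous_const))).neg))

private def rm_S {t : ℝ} (ht : 0 < t) : StieltjesFunction ℝ where
  toFun := fun r : ℝ => 1 - Real.exp (- (t * phi (max r 0)))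
  mono' := rm_F ht
  right_continuous' := fun x => (rm_Fc t).continuousWithinAt

private theorem rm_phi0 : phi 0 = 0 := by
  unfold phi
  norm_num

private theorem rm_top {t : ℝ} (ht : 0 < t) : Tendsto (rm_S ht) atTop (𝓝 1) := by
  have h1 : Tendsto (fun r : ℝ => t * phi (max r 0)) atTop atTop := by
    refine Tendsto.const_mul_atTop ht ?_
    refine tendsto_atTop_mono (f := fun r : ℝ => r - 1) (fun r => ?_)
      (tendsto_atTop_add_const_right _ (-1) tendsto_id)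
    unfold phi
    have h2 : r ≤ Real.sqrt (1 + (max r 0) ^ 2) := by
      refine (le_max_left r 0).trans (Real.le_sqrt_of_sq_le ?_)
      linarith
    linarith
  have h2 : Tendsto (fun r : ℝ => Real.exp (- (t * phi (max r 0)))) atTop (𝓝 0) :=
    Real.tendsto_exp_neg_atTop_nhds_zero.comp h1
  have h3 := (tendsto_const_nhds (x := (1 : ℝ))).sub h2
  rw [sub_zero] at h3
  exact h3

private theorem rm_bot {t : ℝ} (ht : 0 < t) : Tendsto (rm_S ht) atBot (𝓝 0) := by
  refine tendsto_const_nhds.congr' ?_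
  filter_upwards [eventually_le_atBot (0 : ℝ)] with r hr
  show (0 : ℝ) = 1 - Real.exp (- (t * phi (max r 0)))
  rw [max_eq_right hr, rm_phi0, mul_zero, neg_zero, Real.exp_zero, sub_self]

theorem phi_mix (S : Finset (ℤ × ℤ)) {t : ℝ} (ht : 0 < t) :
    ∃ ρ : ℤ × ℤ → Measure ℝ, Mix S (fun _ z => ENNReal.ofReal (Real.exp (- (t * phi z)))) ρ := by
  refine ⟨fun _ => (rm_S ht).measure, ⟨fun _ _ => ⟨?_⟩, fun _ _ => ?_, fun _ _ z => ?_⟩⟩
  · rw [StieltjesFunction.measure_univ _ (rm_bot ht) (rm_top ht)]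
    exact ENNReal.ofReal_lt_top
  · rw [StieltjesFunction.measure_Iic _ (rm_bot ht)]
    have h1 : rm_S ht 0 = 0 := by
      show 1 - Real.exp (- (t * phi (max 0 0))) = 0
      rw [max_self, rm_phi0, mul_zero, neg_zero, Real.exp_zero, sub_self]
    rw [h1, sub_zero, ENNReal.ofReal_zero]
  · rw [StieltjesFunction.measure_Ici _ (rm_top ht)]
    have h1 : Function.leftLim (rm_S ht) |z| = 1 - Real.exp (- (t * phi z)) := by
      have h2 : Function.leftLim (rm_S ht) |z| = rm_S ht |z| :=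
        ((rm_Fc t).continuousAt).continuousWithinAt.leftLim_eq
      rw [h2]
      show 1 - Real.exp (- (t * phi (max |z| 0))) = _
      have h3 : phi (max |z| 0) = phi z := by
        rw [max_eq_left (abs_nonneg z)]
        exact le_antisymm (rm_mono (by rw [abs_abs])) (rm_mono (by rw [abs_abs]))
      rw [h3]
    rw [h1, sub_sub_cancel]

theorem phi_props : (∀ z, 0 ≤ phi z) ∧ (∀ z, phi (-z) = phi z) ∧ (∀ z, phi z ≤ z ^ 2 / 2) ∧
    1 / 10 ≤ phi (1 / 2) ∧ (∀ y z, |y| ≤ |z| → phi y ≤ phi z) ∧ phi.HasTemperateGrowth := by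
  refine ⟨fun z => ?_, fun z => ?_, fun z => ?_, ?_, fun y z h => rm_mono h, ?_⟩
  · have h1 := rm_mono (y := 0) (z := z) (by rw [abs_zero]; exact abs_nonneg z)
    rwa [rm_phi0] at h1
  · unfold phi
    rw [neg_sq]
  · unfold phi
    have h1 : Real.sqrt (1 + z ^ 2) ≤ 1 + z ^ 2 / 2 := by
      refine Real.sqrt_le_iff.2 ⟨by positivity, ?_⟩
      nlinarith [sq_nonneg (z ^ 2)]
    linarith
  · unfold phi
    have h1 : (11 / 10 : ℝ) ≤ Real.sqrt (1 + (1 / 2) ^ 2) :=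
      Real.le_sqrt_of_sq_le (by norm_num)
    linarith
  · have h1 := (Function.hasTemperateGrowth_one_add_norm_sq_rpow ℝ (1 / 2)).sub
      (Function.HasTemperateGrowth.const (1 : ℝ))
    have h2 : phi = (fun x : ℝ => (1 + ‖x‖ ^ 2) ^ (1 / 2 : ℝ)) - fun _ => (1 : ℝ) := by
      funext z
      show Real.sqrt (1 + z ^ 2) - 1 = (1 + ‖z‖ ^ 2) ^ (1 / 2 : ℝ) - 1
      rw [Real.sqrt_eq_rpow, Real.norm_eq_abs, sq_abs]
    rw [h2]
    exact h1

/- END rm -/

end Pool.Agent.Hgf
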