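import Pool.Agent.Hmk.Asm

import Pool.Agent.Hgf.Wall

/-!
# Hgf (MP_161523_pr, Q2): the local inequality with a factor, and with product weights

`Th` is a factor which increases along the flow `Am` and does not depend on `h u`; the function `g`
vanishes where the edge `(u, v)` is saturated.
-/

set_option autoImplicit false

open MeasureTheory Set Filter

open scoped ENNReal ContDiff Topology

noncomputable section

namespace Pool.Agent.Hgf

open Pool.Agent.Hmk

/- MODULE ta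
As `flow_int` (module fg of Fl.lean): multiply `flow_le` by `Th h ≤ Th (Am s h)` (also for `s = 1`),
use `Am_cov`, `Am_cov_Reg` with `Ψ = Th * ...`. -/

private theorem ta_gr_cont {ι : Type*} [Fintype ι] [DecidableEq ι] {g : (ι → ℝ) → ℝ}
    (hC : ContDiff ℝ 1 g) : Continuous (gr g) := by
  have h1 : Continuous (fderiv ℝ g) := hC.continuous_fderiv (by norm_num)
  unfold gr pd
  exact continuous_finsetSum _ fun x _ => (h1.clm_apply continuous_const).pow 2

theorem flow_w {D : Finset (ℤ × ℤ)} {b : ℤ × ℤ → ℝ} (hb : ∀ z, |b z| ≤ 1 / 2)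
    {u v : ℤ × ℤ} (hg : Good D b u v) {g : (D → ℝ) → ℝ} (hC : ContDiff ℝ 1 g)
    {Th : (D → ℝ) → ℝ≥0∞} (hT : Measurable Th)
    (hmo : ∀ h ∈ Reg D b v, ∀ s : ℝ, 0 ≤ s → s ≤ 1 → Th h ≤ Th (Am D b u v s h)) :
    ∫⁻ h in Reg D b v, Th h * ENNReal.ofReal |g h| ≤
      (∫⁻ h in Qset D b u v, 2 * 5 ^ (Nn D b u v h) * (Th h * ENNReal.ofReal |g h|)) +
      ∫⁻ h in Reg D b v, 2 * 5 ^ (Nn D b u v h) * (Th h * ENNReal.ofReal
        (Real.sqrt (1 + 4 * (Nn D b u v h : ℝ)) * Real.sqrt (gr g h))) := by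
  have hRm := Reg_meas D b v
  have hQm := Qset_meas D b u v
  have hNm : Measurable (fun h : D → ℝ => (Nn D b u v h : ℝ)) :=
    measurable_from_top.comp (Nn_meas D b u v)
  have hgm : Measurable (fun h : D → ℝ => Th h * ENNReal.ofReal |g h|) :=
    hT.mul (hC.continuous.abs.measurable).ennreal_ofReal
  have hgrm : Measurable (gr g) := (ta_gr_cont hC).measurable
  have hΨ : Measurable (fun y : D → ℝ => Th y * ENNReal.ofReal
      (Real.sqrt (1 + 4 * (Nn D b u v y : ℝ)) * Real.sqrt (gr g y))) :=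
    hT.mul (((measurable_const.add (measurable_const.mul hNm)).sqrt).mul
      hgrm.sqrt).ennreal_ofReal
  have hA1 : Measurable (fun h : D → ℝ => Am D b u v 1 h) :=
    (Am_meas D b u v).comp (measurable_const.prodMk measurable_id)
  have hAm2 : Measurable (fun p : (D → ℝ) × ℝ => Am D b u v p.2 p.1) :=
    (Am_meas D b u v).comp (measurable_snd.prodMk measurable_fst)
  have step1 : ∫⁻ h in Reg D b v, Th h * ENNReal.ofReal |g h| ≤
      ∫⁻ h in Reg D b v, (Th (Am D b u v 1 h) * ENNReal.ofReal |g (Am D b u v 1 h)| +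
        ∫⁻ s in Icc (0 : ℝ) 1, Th (Am D b u v s h) * ENNReal.ofReal
          (Real.sqrt (1 + 4 * (Nn D b u v h : ℝ)) * Real.sqrt (gr g (Am D b u v s h)))) := by
    refine setLIntegral_mono' hRm fun h hh => ?_
    refine (mul_le_mul_right (flow_le hb hg hC hh) (Th h)).trans ?_
    rw [mul_add]
    refine add_le_add ?_ ?_
    · exact mul_le_mul_left (hmo h hh 1 zero_le_one le_rfl) _
    · refine (lintegral_const_mul_le _ _).trans ?_
      refine setLIntegral_mono' measurableSet_Icc fun s hs => ?_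
      exact mul_le_mul_left (hmo h hh s hs.1 hs.2) _
  have hm1 : Measurable (fun h : D → ℝ => Th (Am D b u v 1 h) *
      ENNReal.ofReal |g (Am D b u v 1 h)|) := hgm.comp hA1
  rw [lintegral_add_left hm1] at step1
  refine step1.trans (add_le_add ?_ ?_)
  · calc ∫⁻ h in Reg D b v, Th (Am D b u v 1 h) * ENNReal.ofReal |g (Am D b u v 1 h)|
        ≤ ∫⁻ h in Reg D b v, (Qset D b u v).indicator (fun y => Th y * ENNReal.ofReal |g y|)
            (Am D b u v 1 h) := by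
          refine setLIntegral_mono' hRm fun h hh => ?_
          rw [indicator_of_mem (Am_one_Qset hb hg hh)]
      _ ≤ ∫⁻ h, (Qset D b u v).indicator (fun y => Th y * ENNReal.ofReal |g y|)
            (Am D b u v 1 h) := setLIntegral_le_lintegral _ _
      _ ≤ ∫⁻ h, 2 * 5 ^ (Nn D b u v h) *
            (Qset D b u v).indicator (fun y => Th y * ENNReal.ofReal |g y|) h :=
          Am_cov zero_le_one le_rfl (hgm.indicator hQm)
      _ = ∫⁻ h in Qset D b u v, 2 * 5 ^ (Nn D b u v h) * (Th h * ENNReal.ofReal |g h|) := by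
          rw [← lintegral_indicator hQm]
          refine lintegral_congr fun h => ?_
          by_cases hh : h ∈ Qset D b u v
          · rw [indicator_of_mem hh, indicator_of_mem hh]
          · rw [indicator_of_notMem hh, indicator_of_notMem hh, mul_zero]
  · have hswap : ∫⁻ h in Reg D b v, ∫⁻ s in Icc (0 : ℝ) 1, Th (Am D b u v s h) *
          ENNReal.ofReal
          (Real.sqrt (1 + 4 * (Nn D b u v h : ℝ)) * Real.sqrt (gr g (Am D b u v s h))) =
        ∫⁻ s in Icc (0 : ℝ) 1, ∫⁻ h in Reg D b v, Th (Am D b u v s h) * ENNReal.ofReal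
          (Real.sqrt (1 + 4 * (Nn D b u v h : ℝ)) * Real.sqrt (gr g (Am D b u v s h))) := by
      refine lintegral_lintegral_swap (Measurable.aemeasurable ?_)
      refine Measurable.mul (hT.comp hAm2) ?_
      refine Measurable.ennreal_ofReal (Measurable.mul ?_ ?_)
      · exact (measurable_const.add (measurable_const.mul (hNm.comp measurable_fst))).sqrt
      · exact (hgrm.comp hAm2).sqrt
    rw [hswap]
    have hle : ∫⁻ s in Icc (0 : ℝ) 1, ∫⁻ h in Reg D b v, Th (Am D b u v s h) * ENNReal.ofReal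
          (Real.sqrt (1 + 4 * (Nn D b u v h : ℝ)) * Real.sqrt (gr g (Am D b u v s h))) ≤
        ∫⁻ _ in Icc (0 : ℝ) 1, ∫⁻ h in Reg D b v, 2 * 5 ^ (Nn D b u v h) *
          (Th h * ENNReal.ofReal
          (Real.sqrt (1 + 4 * (Nn D b u v h : ℝ)) * Real.sqrt (gr g h))) := by
      refine setLIntegral_mono' measurableSet_Icc fun s hs => ?_
      have h1 := Am_cov_Reg hb hg hs.1 hs.2 hΨ
      refine le_trans (le_of_eq ?_) h1
      refine lintegral_congr fun h => ?_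
      rw [Nn_Am hs.1 hs.2]
    refine hle.trans ?_
    rw [setLIntegral_const, Real.volume_Icc]
    simp

/- END ta -/

/- MODULE tb
As `seg_int` (module fh of Fl.lean); `Th` is constant on the fibres, `g (Pm h) = 0`. -/

private theorem tb_upd {D : Finset (ℤ × ℤ)} {u : ℤ × ℤ} (hu : u ∈ D) (h : D → ℝ) (r : ℝ) :
    Function.update h ⟨u, hu⟩ r = fun x => if x.1 = u then r else h x := by
  funext x
  by_cases hx : x.1 = u
  · have : x = ⟨u, hu⟩ := Subtype.ext hx
    subst this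
    simp
  · rw [Function.update_of_ne (fun he => hx (by rw [he])), if_neg hx]

private theorem tb_ftc {ι : Type*} [Fintype ι] [DecidableEq ι] {g : (ι → ℝ) → ℝ}
    (hC : ContDiff ℝ 1 g) (h : ι → ℝ) (u : ι) {r c : ℝ} (hrc : r ≤ c) :
    ENNReal.ofReal |g (Function.update h u r)| ≤ ENNReal.ofReal |g (Function.update h u c)| +
      ∫⁻ t in Icc r c, ENNReal.ofReal (Real.sqrt (gr g (Function.update h u t))) := by
  have hd : ∀ t, HasDerivAt (fun t => g (Function.update h u t))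
      (pd u g (Function.update h u t)) t := by
    intro t
    have h1 : HasFDerivAt g (fderiv ℝ g (Function.update h u t)) (Function.update h u t) :=
      (hC.differentiable (by norm_num) _).hasFDerivAt
    exact h1.comp_hasDerivAt t (hasDerivAt_update h u t)
  have hcont : Continuous (fun t => pd u g (Function.update h u t)) := by
    unfold pd
    exact ((hC.continuous_fderiv (by norm_num)).comp
      (continuous_const.update u continuous_id)).clm_apply continuous_const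
  have hI : ∫ t in r..c, pd u g (Function.update h u t) =
      g (Function.update h u c) - g (Function.update h u r) :=
    intervalIntegral.integral_eq_sub_of_hasDerivAt (fun t _ => hd t)
      (hcont.intervalIntegrable _ _)
  have h2 : ENNReal.ofReal |g (Function.update h u c) - g (Function.update h u r)| ≤
      ∫⁻ t in Icc r c, ENNReal.ofReal (Real.sqrt (gr g (Function.update h u t))) := by
    rw [← hI, intervalIntegral.integral_of_le hrc, ← Real.enorm_eq_ofReal_abs]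
    refine (enorm_integral_le_lintegral_enorm _).trans ?_
    refine (lintegral_mono_set Set.Ioc_subset_Icc_self).trans ?_
    refine lintegral_mono fun t => ?_
    rw [Real.enorm_eq_ofReal_abs]
    refine ENNReal.ofReal_le_ofReal (Real.abs_le_sqrt ?_)
    unfold gr
    exact Finset.single_le_sum (f := fun x => (pd x g (Function.update h u t)) ^ 2)
      (fun x _ => sq_nonneg _) (Finset.mem_univ u)
  calc ENNReal.ofReal |g (Function.update h u r)|
      ≤ ENNReal.ofReal (|g (Function.update h u c)| +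
          |g (Function.update h u c) - g (Function.update h u r)|) := by
        refine ENNReal.ofReal_le_ofReal ?_
        have := abs_sub_abs_le_abs_sub (g (Function.update h u r)) (g (Function.update h u c))
        rw [abs_sub_comm] at this
        linarith
    _ = ENNReal.ofReal |g (Function.update h u c)| +
          ENNReal.ofReal |g (Function.update h u c) - g (Function.update h u r)| :=
        ENNReal.ofReal_add (abs_nonneg _) (abs_nonneg _)
    _ ≤ _ := add_le_add_right h2 _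

theorem seg_w {D : Finset (ℤ × ℤ)} {b : ℤ × ℤ → ℝ} {u v : ℤ × ℤ} (hg : Good D b u v)
    {g : (D → ℝ) → ℝ} (hC : ContDiff ℝ 1 g) {Th : (D → ℝ) → ℝ≥0∞} (hT : Measurable Th)
    (hu : ∀ (h : D → ℝ) (r : ℝ), Th (Function.update h ⟨u, hg.hu⟩ r) = Th h)
    (hz : ∀ h ∈ Qset D b u v, g (Pm D b u v h) = 0) :
    ∫⁻ h in Qset D b u v, 2 * 5 ^ (Nn D b u v h) * (Th h * ENNReal.ofReal |g h|) ≤
      ∫⁻ h in Qset D b u v, 2 * 5 ^ (Nn D b u v h) *
        (Th h * ENNReal.ofReal (Real.sqrt (gr g h))) := by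
  have hQ := Qset_meas D b u v
  have hgm : Measurable g := hC.continuous.measurable
  have hNm : Measurable (fun h : D → ℝ => (2 : ℝ≥0∞) * 5 ^ (Nn D b u v h)) :=
    ((measurable_from_top (f := fun n : ℕ => (5 : ℝ≥0∞) ^ n)).comp
      (Nn_meas D b u v)).const_mul 2
  have m1 : Measurable (fun h => 2 * 5 ^ (Nn D b u v h) * (Th h * ENNReal.ofReal |g h|)) :=
    hNm.mul (hT.mul (ENNReal.measurable_ofReal.comp hgm.abs))
  have m3 : Measurable
      (fun h => 2 * 5 ^ (Nn D b u v h) * (Th h * ENNReal.ofReal (Real.sqrt (gr g h)))) :=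
    hNm.mul (hT.mul (ENNReal.measurable_ofReal.comp (ta_gr_cont hC).measurable.sqrt))
  rw [← lintegral_indicator hQ, ← lintegral_indicator hQ]
  refine fib_le (⟨u, hg.hu⟩ : D) (m1.indicator hQ) (m3.indicator hQ) fun h => ?_
  have huv := hg.ne
  set c := gl D b h v with hc
  have hv : ∀ r, gl D b (Function.update h ⟨u, hg.hu⟩ r) v = c := by
    intro r
    by_cases hvD : v ∈ D
    · rw [hc, gl_mem hvD, gl_mem hvD, Function.update_of_ne]
      intro he
      exact huv (congrArg Subtype.val he).symm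
    · rw [hc, gl_not_mem hvD, gl_not_mem hvD]
  have hN : ∀ r, Nn D b u v (Function.update h ⟨u, hg.hu⟩ r) = Nn D b u v h := by
    intro r
    rw [tb_upd]
    exact Nn_Pm huv h r
  have hP : ∀ r, Pm D b u v (Function.update h ⟨u, hg.hu⟩ r) =
      Function.update h ⟨u, hg.hu⟩ (c + 1) := by
    intro r
    funext x
    unfold Pm
    rw [hv]
    by_cases hx : x.1 = u
    · have : x = ⟨u, hg.hu⟩ := Subtype.ext hx
      subst this
      simp
    · have hne : x ≠ ⟨u, hg.hu⟩ := fun he => hx (by rw [he])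
      rw [if_neg hx, Function.update_of_ne hne, Function.update_of_ne hne]
  have hglu : ∀ r, gl D b (Function.update h ⟨u, hg.hu⟩ r) u = r := by
    intro r
    rw [gl_mem hg.hu, Function.update_self]
  set J : Set ℝ := {r | Function.update h ⟨u, hg.hu⟩ r ∈ Qset D b u v} with hJ
  have hJm : MeasurableSet J := measurable_update h hQ
  have hJ1 : J ⊆ Icc c (c + 1) := by
    intro r hr
    obtain ⟨_, _, _, h4, h5⟩ := hr
    rw [hv, hglu] at h4 h5
    exact ⟨h4, h5⟩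
  have hJ2 : ∀ r ∈ J, Icc r (c + 1) ⊆ J := by
    intro r hr t ht
    have := Qset_up hg hr (t := t) (by rw [hglu]; exact ht.1) (by rw [hv]; exact ht.2)
    show Function.update h ⟨u, hg.hu⟩ t ∈ Qset D b u v
    rw [tb_upd]
    convert this using 1
    funext x
    by_cases hx : x.1 = u
    · simp [hx]
    · simp only [hx, if_false]
      rw [Function.update_of_ne (fun he => hx (by rw [he]))]
  have hJ3 : ∀ r ∈ J, g (Function.update h ⟨u, hg.hu⟩ (c + 1)) = 0 := by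
    intro r hr
    rw [← hP r]
    exact hz _ hr
  have hind : ∀ (F : (D → ℝ) → ℝ≥0∞) (r : ℝ),
      (Qset D b u v).indicator F (Function.update h ⟨u, hg.hu⟩ r) =
        J.indicator (fun r => F (Function.update h ⟨u, hg.hu⟩ r)) r := by
    intro F r
    by_cases hr : r ∈ J
    · rw [Set.indicator_of_mem hr, Set.indicator_of_mem (show _ ∈ Qset D b u v from hr)]
    · rw [Set.indicator_of_notMem hr, Set.indicator_of_notMem (show _ ∉ Qset D b u v from hr)]
  simp only [hind]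
  rw [lintegral_indicator hJm, lintegral_indicator hJm]
  simp only [hN, hu]
  set κ : ℝ≥0∞ := 2 * 5 ^ (Nn D b u v h) with hκ
  have mg : Measurable (fun t => ENNReal.ofReal
      (Real.sqrt (gr g (Function.update h ⟨u, hg.hu⟩ t)))) :=
    ENNReal.measurable_ofReal.comp
      ((ta_gr_cont hC).measurable.comp (measurable_update h)).sqrt
  set A : ℝ≥0∞ := ∫⁻ t in J, ENNReal.ofReal
    (Real.sqrt (gr g (Function.update h ⟨u, hg.hu⟩ t))) with hA
  have hvol : volume J ≤ 1 := by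
    refine (measure_mono hJ1).trans (le_of_eq ?_)
    rw [Real.volume_Icc]
    norm_num
  calc ∫⁻ r in J, κ * (Th h * ENNReal.ofReal |g (Function.update h ⟨u, hg.hu⟩ r)|)
      ≤ ∫⁻ _r in J, κ * (Th h * A) := by
        refine setLIntegral_mono' hJm fun r hr => ?_
        refine mul_le_mul_right (mul_le_mul_right ?_ _) _
        refine (tb_ftc hC h ⟨u, hg.hu⟩ (hJ1 hr).2).trans ?_
        rw [hJ3 r hr, abs_zero, ENNReal.ofReal_zero, zero_add]
        exact lintegral_mono_set (hJ2 r hr)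
    _ = κ * (Th h * A) * volume J := by
        rw [setLIntegral_const]
    _ ≤ κ * (Th h * A) * 1 := mul_le_mul_right hvol _
    _ = κ * (Th h * A) := mul_one _
    _ = ∫⁻ r in J, κ * (Th h * ENNReal.ofReal
          (Real.sqrt (gr g (Function.update h ⟨u, hg.hu⟩ r)))) := by
        rw [lintegral_const_mul _ (mg.const_mul _), lintegral_const_mul _ mg]

/- END tb -/

/- MODULE tc
As `local_ineq` (module fi of Fl.lean), Cauchy-Schwarz for the functions
`Th ^ (1/2) * √(gr g)` and `Th ^ (1/2) * 75 ^ (Nn / 2)` (`Th h < ⊤`). -/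

private theorem tc_num (N : ℕ) :
    2 * 5 ^ N * Real.sqrt (1 + 4 * (N : ℝ)) + 2 * 5 ^ N ≤ 4 * Real.sqrt (75 ^ N) := by
  have h3 : (1 : ℝ) + 2 * (N : ℝ) ≤ 3 ^ N := by
    have := one_add_mul_le_pow (show (-2 : ℝ) ≤ 2 by norm_num) N
    have h : (1 : ℝ) + 2 = 3 := by norm_num
    rw [h] at this
    linarith
  have hN : (0 : ℝ) ≤ N := Nat.cast_nonneg N
  have hs : 0 ≤ Real.sqrt (1 + 4 * (N : ℝ)) := Real.sqrt_nonneg _
  have hs2 : Real.sqrt (1 + 4 * (N : ℝ)) ^ 2 = 1 + 4 * (N : ℝ) :=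
    Real.sq_sqrt (by linarith)
  have h5 : (0 : ℝ) < 5 ^ N := by positivity
  have h75 : (75 : ℝ) ^ N = (5 ^ N) ^ 2 * 3 ^ N := by
    rw [← pow_mul, mul_comm N 2, pow_mul, ← mul_pow]
    norm_num
  have e : 4 * Real.sqrt (75 ^ N) = Real.sqrt (16 * 75 ^ N) := by
    rw [Real.sqrt_mul (by norm_num : (0 : ℝ) ≤ 16)]
    congr 1
    rw [show (16 : ℝ) = 4 ^ 2 by norm_num, Real.sqrt_sq (by norm_num)]
  rw [e]
  apply Real.le_sqrt_of_sq_le
  rw [h75]
  have key : (Real.sqrt (1 + 4 * (N : ℝ)) + 1) ^ 2 ≤ 4 * 3 ^ N := by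
    nlinarith [sq_nonneg (Real.sqrt (1 + 4 * (N : ℝ)) - 1)]
  calc (2 * 5 ^ N * Real.sqrt (1 + 4 * (N : ℝ)) + 2 * 5 ^ N) ^ 2
      = 4 * (5 ^ N) ^ 2 * (Real.sqrt (1 + 4 * (N : ℝ)) + 1) ^ 2 := by ring
    _ ≤ 4 * (5 ^ N) ^ 2 * (4 * 3 ^ N) :=
        mul_le_mul_of_nonneg_left key (by positivity)
    _ = 16 * ((5 ^ N) ^ 2 * 3 ^ N) := by ring

private theorem tc_enn (N : ℕ) (a : ℝ) (ha : 0 ≤ a) :
    (2 : ℝ≥0∞) * 5 ^ N * ENNReal.ofReal (Real.sqrt (1 + 4 * (N : ℝ)) * a) +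
      2 * 5 ^ N * ENNReal.ofReal a ≤
    4 * (ENNReal.ofReal a * ((75 : ℝ≥0∞) ^ N) ^ (1 / 2 : ℝ)) := by
  have c2 : (2 : ℝ≥0∞) = ENNReal.ofReal 2 := by norm_num
  have c4 : (4 : ℝ≥0∞) = ENNReal.ofReal 4 := by norm_num
  have c5 : (5 : ℝ≥0∞) ^ N = ENNReal.ofReal (5 ^ N) := by
    rw [ENNReal.ofReal_pow (by norm_num)]
    norm_num
  have c75 : ((75 : ℝ≥0∞) ^ N) ^ (1 / 2 : ℝ) = ENNReal.ofReal (Real.sqrt (75 ^ N)) := by
    rw [Real.sqrt_eq_rpow, ← ENNReal.ofReal_rpow_of_nonneg (by positivity) (by norm_num),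
      ENNReal.ofReal_pow (by norm_num)]
    norm_num
  rw [c75, c2, c4, c5]
  have hs : 0 ≤ Real.sqrt (1 + 4 * (N : ℝ)) := Real.sqrt_nonneg _
  rw [← ENNReal.ofReal_mul (by norm_num), ← ENNReal.ofReal_mul (by positivity),
    ← ENNReal.ofReal_mul (by positivity), ← ENNReal.ofReal_mul ha,
    ← ENNReal.ofReal_mul (by norm_num), ← ENNReal.ofReal_add (by positivity) (by positivity)]
  apply ENNReal.ofReal_le_ofReal
  have := mul_le_mul_of_nonneg_right (tc_num N) ha
  nlinarith [this]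

private theorem tc_half (t : ℝ≥0∞) : t ^ (1 / 2 : ℝ) * t ^ (1 / 2 : ℝ) = t := by
  rw [← ENNReal.rpow_add_of_nonneg _ _ (by norm_num) (by norm_num)]
  norm_num

private theorem tc_Qset_sub (D : Finset (ℤ × ℤ)) (b : ℤ × ℤ → ℝ) (u v : ℤ × ℤ) :
    Qset D b u v ⊆ Reg D b v := fun _ hh => ⟨hh.1, hh.2.1⟩

private theorem tc_Reg_sub (D : Finset (ℤ × ℤ)) (b : ℤ × ℤ → ℝ) (v : ℤ × ℤ) :
    Reg D b v ⊆ K D b := fun _ hh => hh.1

theorem local_w {D : Finset (ℤ × ℤ)} {b : ℤ × ℤ → ℝ} (hb : ∀ z, |b z| ≤ 1 / 2)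
    {u v : ℤ × ℤ} (hg : Good D b u v) {g : (D → ℝ) → ℝ} (hC : ContDiff ℝ 1 g)
    {Th : (D → ℝ) → ℝ≥0∞} (hT : Measurable Th) (hf : ∀ h, Th h < ⊤)
    (hmo : ∀ h ∈ Reg D b v, ∀ s : ℝ, 0 ≤ s → s ≤ 1 → Th h ≤ Th (Am D b u v s h))
    (hu : ∀ (h : D → ℝ) (r : ℝ), Th (Function.update h ⟨u, hg.hu⟩ r) = Th h)
    (hz : ∀ h ∈ Qset D b u v, g (Pm D b u v h) = 0) :
    ∫⁻ h in Reg D b v, Th h * ENNReal.ofReal |g h| ≤
      4 * (∫⁻ h in K D b, Th h * ENNReal.ofReal (gr g h)) ^ (1 / 2 : ℝ) *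
        (∫⁻ h in Reg D b v, Th h * (75 : ℝ≥0∞) ^ (Nn D b u v h)) ^ (1 / 2 : ℝ) := by
  have hNm : Measurable (Nn D b u v) := Nn_meas D b u v
  have hgr : Measurable (gr g) := (ta_gr_cont hC).measurable
  have hpow : ∀ c : ℝ≥0∞, Measurable (fun h => c ^ (Nn D b u v h)) := by
    intro c
    exact (measurable_from_top (f := fun n : ℕ => c ^ n)).comp hNm
  have hsq : Measurable (fun h => ENNReal.ofReal (Real.sqrt (gr g h))) :=
    (Real.continuous_sqrt.measurable.comp hgr).ennreal_ofReal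
  have hgr0 : ∀ h, 0 ≤ gr g h := fun h => Finset.sum_nonneg fun x _ => sq_nonneg _
  have hF1 : Measurable (fun h => Th h ^ (1 / 2 : ℝ) * ENNReal.ofReal (Real.sqrt (gr g h))) :=
    (hT.pow_const _).mul hsq
  have hF2 : Measurable (fun h => Th h ^ (1 / 2 : ℝ) *
      ((75 : ℝ≥0∞) ^ (Nn D b u v h)) ^ (1 / 2 : ℝ)) :=
    (hT.pow_const _).mul ((hpow 75).pow_const _)
  refine (flow_w hb hg hC hT hmo).trans ?_
  refine (add_le_add (seg_w hg hC hT hu hz) le_rfl).trans ?_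
  rw [add_comm]
  calc (∫⁻ h in Reg D b v, 2 * 5 ^ (Nn D b u v h) * (Th h * ENNReal.ofReal
        (Real.sqrt (1 + 4 * (Nn D b u v h : ℝ)) * Real.sqrt (gr g h)))) +
      ∫⁻ h in Qset D b u v, 2 * 5 ^ (Nn D b u v h) *
        (Th h * ENNReal.ofReal (Real.sqrt (gr g h)))
        ≤ (∫⁻ h in Reg D b v, 2 * 5 ^ (Nn D b u v h) * (Th h * ENNReal.ofReal
        (Real.sqrt (1 + 4 * (Nn D b u v h : ℝ)) * Real.sqrt (gr g h)))) +
      ∫⁻ h in Reg D b v, 2 * 5 ^ (Nn D b u v h) *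
        (Th h * ENNReal.ofReal (Real.sqrt (gr g h))) := by
          exact add_le_add le_rfl (lintegral_mono_set (tc_Qset_sub D b u v))
      _ = ∫⁻ h in Reg D b v, (2 * 5 ^ (Nn D b u v h) * (Th h * ENNReal.ofReal
        (Real.sqrt (1 + 4 * (Nn D b u v h : ℝ)) * Real.sqrt (gr g h))) +
          2 * 5 ^ (Nn D b u v h) * (Th h * ENNReal.ofReal (Real.sqrt (gr g h)))) := by
          rw [lintegral_add_right]
          exact ((hpow 5).const_mul 2).mul (hT.mul hsq)
      _ ≤ ∫⁻ h in Reg D b v, 4 * ((Th h ^ (1 / 2 : ℝ) * ENNReal.ofReal (Real.sqrt (gr g h))) *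
            (Th h ^ (1 / 2 : ℝ) * ((75 : ℝ≥0∞) ^ (Nn D b u v h)) ^ (1 / 2 : ℝ))) := by
          refine lintegral_mono fun h => ?_
          have h1 := mul_le_mul_right (tc_enn (Nn D b u v h) (Real.sqrt (gr g h))
            (Real.sqrt_nonneg _)) (Th h)
          calc 2 * 5 ^ (Nn D b u v h) * (Th h * ENNReal.ofReal
                (Real.sqrt (1 + 4 * (Nn D b u v h : ℝ)) * Real.sqrt (gr g h))) +
                2 * 5 ^ (Nn D b u v h) * (Th h * ENNReal.ofReal (Real.sqrt (gr g h)))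
              = Th h * (2 * 5 ^ (Nn D b u v h) * ENNReal.ofReal
                (Real.sqrt (1 + 4 * (Nn D b u v h : ℝ)) * Real.sqrt (gr g h)) +
                2 * 5 ^ (Nn D b u v h) * ENNReal.ofReal (Real.sqrt (gr g h))) := by ring
            _ ≤ Th h * (4 * (ENNReal.ofReal (Real.sqrt (gr g h)) *
                  ((75 : ℝ≥0∞) ^ (Nn D b u v h)) ^ (1 / 2 : ℝ))) := h1
            _ = (Th h ^ (1 / 2 : ℝ) * Th h ^ (1 / 2 : ℝ)) *
                  (4 * (ENNReal.ofReal (Real.sqrt (gr g h)) *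
                  ((75 : ℝ≥0∞) ^ (Nn D b u v h)) ^ (1 / 2 : ℝ))) := by rw [tc_half]
            _ = _ := by ring
      _ = 4 * ∫⁻ h in Reg D b v, ((Th h ^ (1 / 2 : ℝ) * ENNReal.ofReal (Real.sqrt (gr g h))) *
            (Th h ^ (1 / 2 : ℝ) * ((75 : ℝ≥0∞) ^ (Nn D b u v h)) ^ (1 / 2 : ℝ))) := by
          rw [lintegral_const_mul]
          exact hF1.mul hF2
      _ ≤ 4 * ((∫⁻ h in Reg D b v, (Th h ^ (1 / 2 : ℝ) *
              ENNReal.ofReal (Real.sqrt (gr g h))) ^ (2 : ℝ)) ^ (1 / 2 : ℝ) *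
            (∫⁻ h in Reg D b v, (Th h ^ (1 / 2 : ℝ) *
              ((75 : ℝ≥0∞) ^ (Nn D b u v h)) ^ (1 / 2 : ℝ)) ^ (2 : ℝ)) ^ (1 / 2 : ℝ)) := by
          gcongr
          have hpq : (2 : ℝ).HolderConjugate 2 := by
            constructor <;> norm_num
          exact ENNReal.lintegral_mul_le_Lp_mul_Lq _ hpq hF1.aemeasurable hF2.aemeasurable
      _ ≤ _ := by
          have i1 : ∫⁻ h in Reg D b v, (Th h ^ (1 / 2 : ℝ) *
              ENNReal.ofReal (Real.sqrt (gr g h))) ^ (2 : ℝ) ≤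
              ∫⁻ h in K D b, Th h * ENNReal.ofReal (gr g h) := by
            calc ∫⁻ h in Reg D b v, (Th h ^ (1 / 2 : ℝ) *
                ENNReal.ofReal (Real.sqrt (gr g h))) ^ (2 : ℝ)
                = ∫⁻ h in Reg D b v, Th h * ENNReal.ofReal (gr g h) := by
                  refine lintegral_congr fun h => ?_
                  rw [ENNReal.mul_rpow_of_nonneg _ _ (by norm_num : (0 : ℝ) ≤ 2),
                    ← ENNReal.rpow_mul, ENNReal.ofReal_rpow_of_nonneg (Real.sqrt_nonneg _)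
                      (by norm_num), Real.rpow_two, Real.sq_sqrt (hgr0 h)]
                  norm_num
              _ ≤ _ := lintegral_mono_set (tc_Reg_sub D b v)
          have i2 : ∫⁻ h in Reg D b v, (Th h ^ (1 / 2 : ℝ) *
              ((75 : ℝ≥0∞) ^ (Nn D b u v h)) ^ (1 / 2 : ℝ)) ^ (2 : ℝ) =
              ∫⁻ h in Reg D b v, Th h * (75 : ℝ≥0∞) ^ (Nn D b u v h) := by
            refine lintegral_congr fun h => ?_
            rw [ENNReal.mul_rpow_of_nonneg _ _ (by norm_num : (0 : ℝ) ≤ 2),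
              ← ENNReal.rpow_mul, ← ENNReal.rpow_mul]
            norm_num
          rw [i2, ← mul_assoc]
          gcongr

/- END tc -/

/- MODULE td
The weights `Om` of Wall.lean.  `Om_Am`: the sites of `S` have distance at least `2` from `u`
(hence they are different from `u` and `v`); if such a site is moved by the flow, then
`h x < ct x ≤ -1/2` and the new height is between `h x` and `ct x`, so `|.|` decreases. -/

theorem Om_meas {D S : Finset (ℤ × ℤ)} {om : ℤ × ℤ → ℝ → ℝ≥0∞} {ρ : ℤ × ℤ → Measure ℝ}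
    (hM : Mix S om ρ) : Measurable (fun h : D → ℝ => Om S om h) := by
  unfold Om
  refine Finset.measurable_prod _ fun x _ => ?_
  by_cases hx : x.1 ∈ S
  · simp only [hx, if_true]
    have h1 : Antitone (fun r : ℝ => ρ x.1 (Ici r)) := fun a c hac =>
      measure_mono (Ici_subset_Ici.mpr hac)
    have h2 : (fun h : D → ℝ => om x.1 (h x)) = fun h : D → ℝ => ρ x.1 (Ici |h x|) := by
      funext h
      exact hM.eq x.1 hx _
    rw [h2]
    exact h1.measurable.comp (measurable_pi_apply x).abs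
  · simp only [hx, if_false]
    exact measurable_const

theorem Om_lt {D S : Finset (ℤ × ℤ)} {om : ℤ × ℤ → ℝ → ℝ≥0∞} {ρ : ℤ × ℤ → Measure ℝ}
    (hM : Mix S om ρ) (h : D → ℝ) : Om S om h < ⊤ := by
  unfold Om
  refine ENNReal.prod_lt_top fun x _ => ?_
  by_cases hx : x.1 ∈ S
  · rw [if_pos hx, hM.eq x.1 hx]
    have := hM.fin x.1 hx
    exact measure_lt_top _ _
  · rw [if_neg hx]
    exact ENNReal.one_lt_top

theorem Om_neg {D S : Finset (ℤ × ℤ)} {om : ℤ × ℤ → ℝ → ℝ≥0∞} {ρ : ℤ × ℤ → Measure ℝ}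
    (hM : Mix S om ρ) (h : D → ℝ) : Om S om (-h) = Om S om h := by
  unfold Om
  refine Finset.prod_congr rfl fun x _ => ?_
  by_cases hx : x.1 ∈ S
  · rw [if_pos hx, if_pos hx, hM.eq x.1 hx, hM.eq x.1 hx, Pi.neg_apply, abs_neg]
  · rw [if_neg hx, if_neg hx]

theorem Om_upd {D S : Finset (ℤ × ℤ)} {om : ℤ × ℤ → ℝ → ℝ≥0∞} {u : D} (hu : u.1 ∉ S)
    (h : D → ℝ) (r : ℝ) : Om S om (Function.update h u r) = Om S om h := by
  unfold Om
  refine Finset.prod_congr rfl fun x _ => ?_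
  by_cases hx : x = u
  · rw [hx, if_neg hu, if_neg hu]
  · rw [Function.update_of_ne hx]

theorem Om_Am {D S : Finset (ℤ × ℤ)} {b : ℤ × ℤ → ℝ} {om : ℤ × ℤ → ℝ → ℝ≥0∞}
    {ρ : ℤ × ℤ → Measure ℝ} (hM : Mix S om ρ) {u v : ℤ × ℤ} (hg : Good D b u v)
    (hS : ∀ x ∈ S, 2 ≤ dn (x - u)) {h : D → ℝ} (hh : h ∈ Reg D b v) {s : ℝ} (h0 : 0 ≤ s)
    (h1 : s ≤ 1) : Om S om h ≤ Om S om (Am D b u v s h) := by
  unfold Om
  refine Finset.prod_le_prod' fun x _ => ?_
  by_cases hx : x.1 ∈ S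
  · rw [if_pos hx, if_pos hx, hM.eq x.1 hx, hM.eq x.1 hx]
    refine measure_mono (Ici_subset_Ici.mpr ?_)
    have hd := hS x.1 hx
    have hxu : x.1 ≠ u := by
      intro he
      rw [he, sub_self] at hd
      have := (dn_zero_iff 0).mpr rfl
      omega
    have hxv : x.1 ≠ v := by
      intro he
      obtain ⟨i, hi⟩ := hg.nb
      have h2 : dn (x.1 - u) = 1 := by
        rw [dn_one_iff]
        exact ⟨i, by rw [he, hi, add_sub_cancel_left]⟩
      omega
    unfold Am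
    rw [if_neg hxv, if_neg hxu]
    by_cases hc : h x < ct D b u v h x.1
    · rw [if_pos hc]
      have hct : ct D b u v h x.1 ≤ -1 / 2 := by
        unfold ct
        have h3 : gl D b h v ≤ 0 := hh.2
        have h4 : (2 : ℝ) ≤ (dn (x.1 - u) : ℝ) := by exact_mod_cast hd
        linarith
      set c := ct D b u v h x.1 with hcd
      have h5 : 0 ≤ (4 * s / 5) * (c - h x) :=
        mul_nonneg (by linarith) (by linarith)
      have h6 : 0 ≤ (1 - 4 * s / 5) * (c - h x) :=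
        mul_nonneg (by linarith) (by linarith)
      rw [abs_of_nonpos (by linarith), abs_of_nonpos (by linarith)]
      nlinarith
    · rw [if_neg hc]
  · rw [if_neg hx, if_neg hx]

/- END td -/

/-- the weighted partition function -/
def ZO (D S : Finset (ℤ × ℤ)) (b : ℤ × ℤ → ℝ) (om : ℤ × ℤ → ℝ → ℝ≥0∞) : ℝ≥0∞ :=
  ∫⁻ h in K D b, Om S om h

/-- the weighted energy of `g` -/
def GO (D S : Finset (ℤ × ℤ)) (b : ℤ × ℤ → ℝ) (om : ℤ × ℤ → ℝ → ℝ≥0∞) (g : (D → ℝ) → ℝ) :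
    ℝ≥0∞ := ∫⁻ h in K D b, Om S om h * ENNReal.ofReal (gr g h)

/-- `g` vanishes where the edge `(u, v)` is saturated -/
def Van (D : Finset (ℤ × ℤ)) (b : ℤ × ℤ → ℝ) (u v : ℤ × ℤ) (g : (D → ℝ) → ℝ) : Prop :=
  ∀ h ∈ K D b, |gl D b h u - gl D b h v| = 1 → g h = 0

/-- the weighted local inequality with constant `C` -/
def LocW (C : ℝ≥0∞) : Prop :=
  ∀ (D S : Finset (ℤ × ℤ)) (b : ℤ × ℤ → ℝ) (om : ℤ × ℤ → ℝ → ℝ≥0∞) (ρ : ℤ × ℤ → Measure ℝ),
    (∀ z, |b z| ≤ 1 / 2) → Mix S om ρ → ∀ u v, Good D b u v → (∀ x ∈ S, 2 ≤ dn (x - u)) →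
    ∀ g : (D → ℝ) → ℝ, ContDiff ℝ 1 g → Van D b u v g →
      ∫⁻ h in Reg D b v, Om S om h * ENNReal.ofReal |g h| ≤
        C * ZO D S b om ^ (1 / 2 : ℝ) * GO D S b om g ^ (1 / 2 : ℝ)

/- MODULE te
`local_w` with `Th = Om S om`, `exp_mix 75`; `Pm h ∈ Qset ⊆ K` for `h ∈ Qset` (`Pm_Qset`) and the
edge `(u, v)` is saturated at `Pm h`. -/

theorem locw_exists : ∃ C : ℝ≥0∞, C < ⊤ ∧ LocW C := by
  obtain ⟨C, hC, H⟩ := exp_mix 75 (by norm_num)
  refine ⟨4 * C ^ (1 / 2 : ℝ), ENNReal.mul_lt_top (by norm_num)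
    (ENNReal.rpow_lt_top_of_nonneg (by norm_num) hC.ne), ?_⟩
  intro D S b om ρ hb hM u v hg hS g hd hv
  have huS : u ∉ S := by
    intro h
    have h1 := hS u h
    rw [sub_self] at h1
    have := (dn_zero_iff 0).mpr rfl
    omega
  have hz : ∀ h ∈ Qset D b u v, g (Pm D b u v h) = 0 := by
    intro h hh
    refine hv _ (Pm_Qset hg hh).1 ?_
    have e1 : gl D b (Pm D b u v h) u = gl D b h v + 1 := by
      rw [gl_mem hg.hu]
      unfold Pm
      simp
    have e2 : gl D b (Pm D b u v h) v = gl D b h v := by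
      by_cases hvD : v ∈ D
      · rw [gl_mem hvD, gl_mem hvD]
        unfold Pm
        rw [if_neg (fun he => hg.ne he.symm)]
      · rw [gl_not_mem hvD, gl_not_mem hvD]
    rw [e1, e2]
    norm_num
  have key := local_w hb hg hd (Om_meas hM) (fun h => Om_lt hM h)
    (fun h hh s h0 h1 => Om_Am hM hg hS hh h0 h1)
    (fun h r => Om_upd (u := ⟨u, hg.hu⟩) huS h r) hz
  refine key.trans ?_
  have h2 := H D S b om ρ hb hM u v hg hS
  have h3 : (∫⁻ h in Reg D b v, Om S om h * (75 : ℝ≥0∞) ^ (Nn D b u v h)) ^ (1 / 2 : ℝ) ≤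
      C ^ (1 / 2 : ℝ) * ZO D S b om ^ (1 / 2 : ℝ) := by
    rw [← ENNReal.mul_rpow_of_nonneg _ _ (by norm_num : (0 : ℝ) ≤ 1 / 2)]
    refine ENNReal.rpow_le_rpow ?_ (by norm_num)
    exact_mod_cast h2
  calc 4 * (∫⁻ h in K D b, Om S om h * ENNReal.ofReal (gr g h)) ^ (1 / 2 : ℝ) *
        (∫⁻ h in Reg D b v, Om S om h * (75 : ℝ≥0∞) ^ (Nn D b u v h)) ^ (1 / 2 : ℝ)
      ≤ 4 * (∫⁻ h in K D b, Om S om h * ENNReal.ofReal (gr g h)) ^ (1 / 2 : ℝ) *
        (C ^ (1 / 2 : ℝ) * ZO D S b om ^ (1 / 2 : ℝ)) := mul_le_mul_right h3 _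
    _ = 4 * C ^ (1 / 2 : ℝ) * ZO D S b om ^ (1 / 2 : ℝ) * GO D S b om g ^ (1 / 2 : ℝ) := by
        unfold GO
        ring

/- END te -/

/- MODULE tf
As `loc_up`, `loc_free`, `loc_fix` (modules kb, kc, kd of Asm.lean). -/

private theorem tf_gl (D : Finset (ℤ × ℤ)) (b : ℤ × ℤ → ℝ) (h : D → ℝ) (z : ℤ × ℤ) :
    gl D (fun z => - b z) (-h) z = - gl D b h z := by
  unfold gl
  split_ifs <;> simp

private theorem tf_K (D : Finset (ℤ × ℤ)) (b : ℤ × ℤ → ℝ) (h : D → ℝ) :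
    -h ∈ K D (fun z => - b z) ↔ h ∈ K D b := by
  unfold K
  simp only [mem_ofPred_eq, tf_gl]
  refine forall₂_congr fun x _ => forall_congr' fun i => ?_
  rw [show -gl D b h x - -gl D b h (x + st i) = -(gl D b h x - gl D b h (x + st i)) by ring, abs_neg]

private theorem tf_int (D : Finset (ℤ × ℤ)) (S T : Set (D → ℝ)) (hST : ∀ h, -h ∈ T ↔ h ∈ S)
    (f : (D → ℝ) → ℝ≥0∞) : ∫⁻ h in T, f h = ∫⁻ h in S, f (-h) := by
  have hm : MeasurePreserving (fun h : D → ℝ => -h) volume volume :=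
    Measure.measurePreserving_neg volume
  have := hm.setLIntegral_comp_preimage_emb (MeasurableEquiv.neg (D → ℝ)).measurableEmbedding f T
  rw [← this]
  have hS : (fun h : D → ℝ => -h) ⁻¹' T = S := by
    ext h
    exact hST h
  rw [hS]

private theorem tf_gr (D : Finset (ℤ × ℤ)) {g : (D → ℝ) → ℝ} (hd : ContDiff ℝ 1 g) (h : D → ℝ) :
    gr (fun h => g (-h)) (-h) = gr g h := by
  unfold gr pd
  refine Finset.sum_congr rfl fun x _ => ?_
  have h1 : HasFDerivAt (fun h : D → ℝ => g (-h)) ((fderiv ℝ g h).comp (-ContinuousLinearMap.id ℝ (D → ℝ)))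
      (-h) := by
    have h2 : HasFDerivAt g (fderiv ℝ g h) (-(-h)) := by
      rw [neg_neg]
      exact ((hd.differentiable (by simp)) h).hasFDerivAt
    exact h2.comp (-h) (hasFDerivAt_id _).neg
  rw [h1.fderiv]
  simp

theorem locw_up {C : ℝ≥0∞} (hC : LocW C) {D S : Finset (ℤ × ℤ)} {b : ℤ × ℤ → ℝ}
    (hb : ∀ z, |b z| ≤ 1 / 2) {om : ℤ × ℤ → ℝ → ℝ≥0∞} {ρ : ℤ × ℤ → Measure ℝ} (hM : Mix S om ρ)
    {u v : ℤ × ℤ} (hg : Good D (fun z => - b z) u v) (hS : ∀ x ∈ S, 2 ≤ dn (x - u))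
    {g : (D → ℝ) → ℝ} (hd : ContDiff ℝ 1 g) (hv : Van D b u v g) :
    ∫⁻ h in {h | h ∈ K D b ∧ 0 ≤ gl D b h v}, Om S om h * ENNReal.ofReal |g h| ≤
      C * ZO D S b om ^ (1 / 2 : ℝ) * GO D S b om g ^ (1 / 2 : ℝ) := by
  have hg' : ContDiff ℝ 1 (fun h : D → ℝ => g (-h)) := hd.comp contDiff_neg
  have hv' : Van D (fun z => - b z) u v (fun h => g (-h)) := by
    intro h hh hs
    have h1 : -h ∈ K D b := by
      have := tf_K D b (-h)
      rw [neg_neg] at this
      exact this.mp hh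
    refine hv (-h) h1 ?_
    have e1 := tf_gl D b (-h) u
    have e2 := tf_gl D b (-h) v
    rw [neg_neg] at e1 e2
    rw [e1, e2] at hs
    rw [show gl D b (-h) u - gl D b (-h) v = -(-gl D b (-h) u - -gl D b (-h) v) by ring, abs_neg]
    exact hs
  have key := hC D S (fun z => - b z) om ρ (fun z => by rw [abs_neg]; exact hb z) hM u v hg hS
    (fun h => g (-h)) hg' hv'
  have e1 : ∫⁻ h in Reg D (fun z => - b z) v, Om S om h * ENNReal.ofReal |g (-h)| =
      ∫⁻ h in {h | h ∈ K D b ∧ 0 ≤ gl D b h v}, Om S om h * ENNReal.ofReal |g h| := by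
    rw [tf_int D {h | h ∈ K D b ∧ 0 ≤ gl D b h v} (Reg D (fun z => - b z) v)]
    · simp only [neg_neg, Om_neg hM]
    · intro h
      unfold Reg
      simp only [mem_ofPred_eq, tf_gl, tf_K, Left.neg_nonpos_iff]
  have e2 : ZO D S (fun z => - b z) om = ZO D S b om := by
    unfold ZO
    rw [tf_int D (K D b) (K D (fun z => - b z)) (tf_K D b)]
    simp only [Om_neg hM]
  have e3 : GO D S (fun z => - b z) om (fun h => g (-h)) = GO D S b om g := by
    unfold GO
    rw [tf_int D (K D b) (K D (fun z => - b z)) (tf_K D b)]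
    simp only [tf_gr D hd, Om_neg hM]
  rw [e1, e2, e3] at key
  exact key

theorem locw_free {C : ℝ≥0∞} (hC : LocW C) {D S : Finset (ℤ × ℤ)} {b : ℤ × ℤ → ℝ}
    (hb : ∀ z, |b z| ≤ 1 / 2) {om : ℤ × ℤ → ℝ → ℝ≥0∞} {ρ : ℤ × ℤ → Measure ℝ} (hM : Mix S om ρ)
    {u : ℤ × ℤ} (hu : u ∈ D) (hf : ∀ i, u + st i ∈ D) (hS : ∀ x ∈ S, 2 ≤ dn (x - u)) (i : Fin 6)
    {g : (D → ℝ) → ℝ} (hd : ContDiff ℝ 1 g) (hv : Van D b u (u + st i) g) :
    ∫⁻ h in K D b, Om S om h * ENNReal.ofReal |g h| ≤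
      2 * (C * ZO D S b om ^ (1 / 2 : ℝ) * GO D S b om g ^ (1 / 2 : ℝ)) := by
  have hg1 : Good D b u (u + st i) := ⟨hu, ⟨i, rfl⟩, fun j hj => absurd (hf j) hj⟩
  have hg2 : Good D (fun z => - b z) u (u + st i) := ⟨hu, ⟨i, rfl⟩, fun j hj => absurd (hf j) hj⟩
  have h1 := hC D S b om ρ hb hM u (u + st i) hg1 hS g hd hv
  have h2 := locw_up hC hb hM hg2 hS hd hv
  have h3 : K D b ⊆ Reg D b (u + st i) ∪ {h | h ∈ K D b ∧ 0 ≤ gl D b h (u + st i)} := by
    intro h hh
    rcases le_total (gl D b h (u + st i)) 0 with h4 | h4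
    · exact Or.inl ⟨hh, h4⟩
    · exact Or.inr ⟨hh, h4⟩
  refine (lintegral_mono_set h3).trans ((lintegral_union_le _ _ _).trans ?_)
  rw [two_mul]
  exact add_le_add h1 h2

theorem locw_fix {C : ℝ≥0∞} (hC : LocW C) {D S : Finset (ℤ × ℤ)} {b : ℤ × ℤ → ℝ}
    (hb : ∀ z, |b z| ≤ 1 / 2) {om : ℤ × ℤ → ℝ → ℝ≥0∞} {ρ : ℤ × ℤ → Measure ℝ} (hM : Mix S om ρ)
    {u : ℤ × ℤ} (hu : u ∈ D) (hf : ∃ i, u + st i ∉ D) (hS : ∀ x ∈ S, 2 ≤ dn (x - u)) :
    ∃ i, u + st i ∉ D ∧ ∀ g : (D → ℝ) → ℝ, ContDiff ℝ 1 g → Van D b u (u + st i) g →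
      ∫⁻ h in K D b, Om S om h * ENNReal.ofReal |g h| ≤
        C * ZO D S b om ^ (1 / 2 : ℝ) * GO D S b om g ^ (1 / 2 : ℝ) := by
  classical
  have hne : (Finset.univ.filter (fun i : Fin 6 => u + st i ∉ D)).Nonempty := by
    obtain ⟨i, hi⟩ := hf
    exact ⟨i, by simpa using hi⟩
  obtain ⟨i, hi, hmin⟩ := Finset.exists_min_image _ (fun i : Fin 6 => b (u + st i)) hne
  obtain ⟨j, hj, hmax⟩ := Finset.exists_max_image _ (fun i : Fin 6 => b (u + st i)) hne
  simp only [Finset.mem_filter, Finset.mem_univ, true_and] at hi hj hmin hmax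
  by_cases h0 : b (u + st i) ≤ 0
  · refine ⟨i, hi, fun g hg hv => ?_⟩
    have hgood : Good D b u (u + st i) := ⟨hu, ⟨i, rfl⟩, fun k hk => ⟨hi, hmin k hk⟩⟩
    have := hC D S b om ρ hb hM u _ hgood hS g hg hv
    have hR : Reg D b (u + st i) = K D b := by
      ext h
      simp only [Reg, mem_ofPred_eq, and_iff_left_iff_imp]
      intro _
      simpa [gl, hi] using h0
    rwa [hR] at this
  · refine ⟨j, hj, fun g hg hv => ?_⟩
    have hgood : Good D (fun z => - b z) u (u + st j) :=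
      ⟨hu, ⟨j, rfl⟩, fun k hk => ⟨hj, neg_le_neg (hmax k hk)⟩⟩
    have := locw_up hC hb hM hgood hS hg hv
    have hR : {h : D → ℝ | h ∈ K D b ∧ 0 ≤ gl D b h (u + st j)} = K D b := by
      ext h
      simp only [mem_ofPred_eq, and_iff_left_iff_imp]
      intro _
      have h1 := hmax i hi
      have : 0 ≤ b (u + st j) := by linarith
      simpa [gl, hj] using this
    rwa [hR] at this

/- END tf -/

end Pool.Agent.Hgf
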