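import Pool.Agent.Hgf.Pin

import Pool.Agent.Hmk.Gd

/-!
# Hgf (MP_161523_pr, Q2): averages of local functions
-/

set_option autoImplicit false

open MeasureTheory Set Filter

open scoped ENNReal ContDiff Topology

noncomputable section

namespace Pool.Agent.Hgf

open Pool.Agent.Hmk

/-- smooth local functions with constant `C` -/
structure Lg (W : Finset (ℤ × ℤ)) (g : (W → ℝ) → ℝ) (C : ℝ) : Prop where
  temp : g.HasTemperateGrowth
  shf : Shf W g
  bdd : ∀ k, |g k| ≤ C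
  dbd : ∀ w k, |pd w g k| ≤ C

/-- the sum of `g` over the positions in `X` with weights `s` -/
def Ls (W : Finset (ℤ × ℤ)) (g : (W → ℝ) → ℝ) (s : ℤ × ℤ → ℝ) (X : Finset (ℤ × ℤ))
    (H : ℤ × ℤ → ℝ) : ℝ := ∑ x ∈ X, s x * g (rs W x H)

/- MODULE wj
`a` and `c` are joined by an L-shaped path: first steps `st 0` or `st 3`, then steps `st 1` or
`st 4`; the directed edges of the path are distinct. -/

private theorem wj_line (a : ℤ × ℤ) (i : Fin 6) (n : ℕ) :
    ∃ P : Finset ((ℤ × ℤ) × Fin 6), (∀ e ∈ P, e.2 = i) ∧ ∀ k : ℤ × ℤ → ℝ,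
      k a - k (a + (n : ℤ) • st i) = ∑ e ∈ P, (k e.1 - k (e.1 + st e.2)) := by
  refine ⟨(Finset.range n).image (fun j : ℕ => (a + (j : ℤ) • st i, i)), ?_, ?_⟩
  · intro e he
    obtain ⟨j, -, rfl⟩ := Finset.mem_image.1 he
    rfl
  · intro k
    rw [Finset.sum_image]
    · have h1 : ∀ j : ℕ, a + (j : ℤ) • st i + st i = a + ((j + 1 : ℕ) : ℤ) • st i := by
        intro j
        push_cast
        rw [add_smul, one_smul]
        abel
      simp only [h1]
      rw [Finset.sum_range_sub' (fun j : ℕ => k (a + (j : ℤ) • st i))]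
      simp
    · intro j _ j' _ hjj
      have h2 := (Prod.ext_iff.1 hjj).1
      simp only at h2
      have h3 : (j : ℤ) • st i = (j' : ℤ) • st i := add_left_cancel h2
      have h4 : ((j : ℤ) - j') • st i = 0 := by rw [sub_smul, h3, sub_self]
      rcases smul_eq_zero.1 h4 with h5 | h5
      · omega
      · exact absurd h5 (st_ne i)

private theorem wj_hor (a c : ℤ × ℤ) :
    ∃ P : Finset ((ℤ × ℤ) × Fin 6), (∀ e ∈ P, e.2 = 0 ∨ e.2 = 3) ∧ ∀ k : ℤ × ℤ → ℝ,
      k a - k (c.1, a.2) = ∑ e ∈ P, (k e.1 - k (e.1 + st e.2)) := by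
  rcases le_total a.1 c.1 with h | h
  · obtain ⟨P, h1, h2⟩ := wj_line a 0 (c.1 - a.1).toNat
    refine ⟨P, fun e he => Or.inl (h1 e he), fun k => ?_⟩
    rw [← h2 k]
    have h3 : a + (((c.1 - a.1).toNat : ℕ) : ℤ) • st 0 = (c.1, a.2) := by
      rw [Int.toNat_of_nonneg (by linarith)]
      ext <;> simp [st]
    rw [h3]
  · obtain ⟨P, h1, h2⟩ := wj_line a 3 (a.1 - c.1).toNat
    refine ⟨P, fun e he => Or.inr (h1 e he), fun k => ?_⟩
    rw [← h2 k]
    have h3 : a + (((a.1 - c.1).toNat : ℕ) : ℤ) • st 3 = (c.1, a.2) := by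
      rw [Int.toNat_of_nonneg (by linarith)]
      ext <;> simp [st]
    rw [h3]

private theorem wj_ver (a c : ℤ × ℤ) (hac : a.1 = c.1) :
    ∃ P : Finset ((ℤ × ℤ) × Fin 6), (∀ e ∈ P, e.2 = 1 ∨ e.2 = 4) ∧ ∀ k : ℤ × ℤ → ℝ,
      k a - k c = ∑ e ∈ P, (k e.1 - k (e.1 + st e.2)) := by
  rcases le_total a.2 c.2 with h | h
  · obtain ⟨P, h1, h2⟩ := wj_line a 1 (c.2 - a.2).toNat
    refine ⟨P, fun e he => Or.inl (h1 e he), fun k => ?_⟩
    rw [← h2 k]
    have h3 : a + (((c.2 - a.2).toNat : ℕ) : ℤ) • st 1 = c := by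
      rw [Int.toNat_of_nonneg (by linarith)]
      ext <;> simp [st, hac]
    rw [h3]
  · obtain ⟨P, h1, h2⟩ := wj_line a 4 (a.2 - c.2).toNat
    refine ⟨P, fun e he => Or.inr (h1 e he), fun k => ?_⟩
    rw [← h2 k]
    have h3 : a + (((a.2 - c.2).toNat : ℕ) : ℤ) • st 4 = c := by
      rw [Int.toNat_of_nonneg (by linarith)]
      ext <;> simp [st, hac]
    rw [h3]

theorem path_ex (a c : ℤ × ℤ) : ∃ P : Finset ((ℤ × ℤ) × Fin 6), ∀ k : ℤ × ℤ → ℝ,
    k a - k c = ∑ e ∈ P, (k e.1 - k (e.1 + st e.2)) := by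
  classical
  obtain ⟨P, h1, h2⟩ := wj_hor a c
  obtain ⟨Q, h3, h4⟩ := wj_ver (c.1, a.2) c rfl
  refine ⟨P ∪ Q, fun k => ?_⟩
  rw [Finset.sum_union, ← h2 k, ← h4 k]
  · ring
  · rw [Finset.disjoint_left]
    intro e he he'
    rcases h1 e he with h | h <;> rcases h3 e he' with h' | h' <;> rw [h] at h' <;>
      exact absurd h' (by decide)

/- END wj -/

/- MODULE wk
`h ↦ rs W x (gl D b h)` is affine; chain rule: for `z ∈ D` the derivative of `g (rs W x (gl D b h))`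
in `h z` is `pd w g` if `z = x + w` with `w ∈ W`, and `0` otherwise.  Temperate growth of a
composition with an affine map: `Function.HasTemperateGrowth.comp`. -/

private theorem wk_fd {ι : Type*} [Fintype ι] [DecidableEq ι] (F : (ι → ℝ) → ℝ) (h k : ι → ℝ) :
    ∑ x, pd x F h * k x = fderiv ℝ F h k := by
  unfold pd
  conv_rhs => rw [← Finset.univ_sum_single k, map_sum]
  refine Finset.sum_congr rfl fun x _ => ?_
  have h1 : (Pi.single x (k x) : ι → ℝ) = k x • Pi.single x (1 : ℝ) := by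
    rw [← Pi.single_smul, smul_eq_mul, mul_one]
  rw [h1, map_smul, smul_eq_mul, mul_comm]

/-- the linear part -/
private def wk_L (W D : Finset (ℤ × ℤ)) (x : ℤ × ℤ) : (D → ℝ) →L[ℝ] (W → ℝ) :=
  ContinuousLinearMap.pi (fun w : W =>
    if hz : x + w.1 ∈ D then ContinuousLinearMap.proj (⟨x + w.1, hz⟩ : D) else 0)

private theorem wk_L_apply (W D : Finset (ℤ × ℤ)) (x : ℤ × ℤ) (k : D → ℝ) (w : W) :
    wk_L W D x k w = g0 D k (x + w.1) := by
  unfold wk_L g0 gl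
  rw [ContinuousLinearMap.pi_apply]
  split_ifs <;> simp

private theorem wk_aff (W D : Finset (ℤ × ℤ)) (b : ℤ × ℤ → ℝ) (x : ℤ × ℤ) (h : D → ℝ) :
    rs W x (gl D b h) = wk_L W D x h + fun w : W => if x + w.1 ∈ D then 0 else b (x + w.1) := by
  funext w
  rw [Pi.add_apply, wk_L_apply]
  unfold rs g0 gl
  split_ifs <;> simp

private theorem wk_hasFD (W D : Finset (ℤ × ℤ)) (b : ℤ × ℤ → ℝ) (x : ℤ × ℤ) (h : D → ℝ) :
    HasFDerivAt (fun h : D → ℝ => rs W x (gl D b h)) (wk_L W D x) h := by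
  have h1 : (fun h : D → ℝ => rs W x (gl D b h)) = fun h : D → ℝ =>
      wk_L W D x h + fun w : W => if x + w.1 ∈ D then 0 else b (x + w.1) := by
    funext h
    exact wk_aff W D b x h
  rw [h1]
  exact (wk_L W D x).hasFDerivAt.add_const _

private theorem wk_temp (W D : Finset (ℤ × ℤ)) (b : ℤ × ℤ → ℝ) (x : ℤ × ℤ) :
    (fun h : D → ℝ => rs W x (gl D b h)).HasTemperateGrowth := by
  have h1 : (fun h : D → ℝ => rs W x (gl D b h)) = fun h : D → ℝ =>
      wk_L W D x h + fun w : W => if x + w.1 ∈ D then 0 else b (x + w.1) := by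
    funext h
    exact wk_aff W D b x h
  rw [h1]
  exact (wk_L W D x).hasTemperateGrowth.add (Function.HasTemperateGrowth.const _)

private theorem wk_LsFD {W : Finset (ℤ × ℤ)} {g : (W → ℝ) → ℝ} (hg : Differentiable ℝ g)
    (D : Finset (ℤ × ℤ)) (b : ℤ × ℤ → ℝ) (s : ℤ × ℤ → ℝ) (X : Finset (ℤ × ℤ)) (h : D → ℝ) :
    HasFDerivAt (fun h => Ls W g s X (gl D b h))
      (∑ x ∈ X, s x • (fderiv ℝ g (rs W x (gl D b h))).comp (wk_L W D x)) h := by
  unfold Ls
  refine HasFDerivAt.fun_sum fun x _ => ?_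
  exact ((hg (rs W x (gl D b h))).hasFDerivAt.comp h (wk_hasFD W D b x h)).const_mul (s x)

theorem Ls_pd {W : Finset (ℤ × ℤ)} {g : (W → ℝ) → ℝ} {C : ℝ} (hg : Lg W g C)
    (D : Finset (ℤ × ℤ)) (b : ℤ × ℤ → ℝ) (s : ℤ × ℤ → ℝ) (X : Finset (ℤ × ℤ)) (h k : D → ℝ) :
    ∑ z, pd z (fun h => Ls W g s X (gl D b h)) h * k z =
      ∑ x ∈ X, s x * ∑ w : W, pd w g (rs W x (gl D b h)) * g0 D k (x + w.1) := by
  have hd : Differentiable ℝ g := hg.temp.1.differentiable (by simp)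
  rw [wk_fd, (wk_LsFD hd D b s X h).fderiv, sum_apply]
  refine Finset.sum_congr rfl fun x _ => ?_
  rw [smul_apply, ContinuousLinearMap.comp_apply, ← wk_fd, smul_eq_mul]
  congr 1
  refine Finset.sum_congr rfl fun w _ => ?_
  rw [wk_L_apply]

private theorem wk_C {W : Finset (ℤ × ℤ)} {g : (W → ℝ) → ℝ} {C : ℝ} (hg : Lg W g C) : 0 ≤ C :=
  (abs_nonneg _).trans (hg.bdd (fun _ => 0))

theorem Ls_Fok {W : Finset (ℤ × ℤ)} {g : (W → ℝ) → ℝ} {C : ℝ} (hg : Lg W g C)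
    (D : Finset (ℤ × ℤ)) (b : ℤ × ℤ → ℝ) (s : ℤ × ℤ → ℝ) (X : Finset (ℤ × ℤ)) :
    ∃ C' : ℝ, Fok (fun h => Ls W g s X (gl D b h)) C' := by
  refine ⟨∑ x ∈ X, |s x| * ∑ w : W, C * 1, ?_, ?_⟩
  · unfold Ls
    refine Function.HasTemperateGrowth.sum fun x _ => ?_
    exact (Function.HasTemperateGrowth.const (s x)).mul (hg.temp.comp (wk_temp W D b x))
  · intro z h
    have h1 : pd z (fun h => Ls W g s X (gl D b h)) h =
        ∑ z', pd z' (fun h => Ls W g s X (gl D b h)) h * (Pi.single z (1 : ℝ) : D → ℝ) z' := by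
      rw [Finset.sum_eq_single z]
      · simp
      · intro y _ hy
        rw [Pi.single_eq_of_ne hy, mul_zero]
      · intro hz
        exact absurd (Finset.mem_univ _) hz
    rw [h1, Ls_pd hg]
    refine (Finset.abs_sum_le_sum_abs _ _).trans (Finset.sum_le_sum fun x _ => ?_)
    rw [abs_mul]
    refine mul_le_mul_of_nonneg_left ?_ (abs_nonneg _)
    refine (Finset.abs_sum_le_sum_abs _ _).trans (Finset.sum_le_sum fun w _ => ?_)
    rw [abs_mul]
    refine mul_le_mul (hg.dbd _ _) ?_ (abs_nonneg _) (wk_C hg)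
    unfold g0 gl
    split_ifs with hz
    · by_cases h2 : (⟨x + w.1, hz⟩ : D) = z
      · rw [h2]
        simp
      · rw [Pi.single_eq_of_ne h2]
        simp
    · simp

/- END wk -/

/- MODULE wl
The flux.  Fix `w₀ ∈ W` (if `W` is empty everything is `0`), `P w` the path from `w` to `w₀`
(`path_ex`).  `∑_w pd w g = 0` (`Shf`), so `Ls_pd` is
`∑_x s x ∑_w pd w g (rs W x H) ∑_{e ∈ P w} (g0 D k (x + e.1) - g0 D k (x + e.1 + st e.2))`.
`E` = all translates of the edges of all `P w` by `x ∈ X`,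
`τ e h = ∑_{x ∈ X} ∑_w 1[(e.1 - x, e.2) ∈ P w] s x * pd w g (..)`, `T e` = `C` times the number of the
pairs `(x, w)` with `(e.1 - x, e.2) ∈ P w`; this number is at most `M = ∑_w |P w|` for every `e` and
the sum over `e ∈ E` is at most `M |X|`, so `∑ T_e^2 ≤ C^2 M^2 |X|`. -/

private theorem wl_sum0 {W : Finset (ℤ × ℤ)} {g : (W → ℝ) → ℝ} {C : ℝ} (hg : Lg W g C)
    (k : W → ℝ) : ∑ w : W, pd w g k = 0 := by
  have hd : Differentiable ℝ g := hg.temp.1.differentiable (by simp)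
  have h1 : ∑ w : W, pd w g k = fderiv ℝ g k (fun _ => 1) := by
    rw [← wk_fd]
    simp
  rw [h1]
  have h2 : HasDerivAt (fun t : ℝ => g (k + t • (fun _ => (1 : ℝ)))) (fderiv ℝ g k (fun _ => 1))
      0 := by
    have h3 : HasFDerivAt g (fderiv ℝ g k) (k + (0 : ℝ) • (fun _ : W => (1 : ℝ))) := by
      rw [zero_smul, add_zero]
      exact (hd k).hasFDerivAt
    have h4 : HasDerivAt (fun t : ℝ => k + t • (fun _ : W => (1 : ℝ))) (fun _ => 1) 0 := by
      have h5 := ((hasDerivAt_id (0 : ℝ)).smul_const (fun _ : W => (1 : ℝ))).const_add k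
      rw [one_smul] at h5
      exact h5
    exact h3.comp_hasDerivAt (0 : ℝ) h4
  have h6 : (fun t : ℝ => g (k + t • (fun _ => (1 : ℝ)))) = fun _ => g k := by
    funext t
    have h7 : k + t • (fun _ : W => (1 : ℝ)) = fun w => k w + t := by
      funext w
      simp
    rw [h7]
    exact hg.shf k t
  rw [h6] at h2
  exact h2.unique (hasDerivAt_const (0 : ℝ) (g k))

/-- the translated path -/
private def wl_tr (x : ℤ × ℤ) (P : Finset ((ℤ × ℤ) × Fin 6)) : Finset ((ℤ × ℤ) × Fin 6) :=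
  P.image (fun e => (x + e.1, e.2))

private theorem wl_mem {x : ℤ × ℤ} {P : Finset ((ℤ × ℤ) × Fin 6)} {e : (ℤ × ℤ) × Fin 6} :
    e ∈ wl_tr x P ↔ (e.1 - x, e.2) ∈ P := by
  unfold wl_tr
  rw [Finset.mem_image]
  constructor
  · rintro ⟨e', he', rfl⟩
    simpa using he'
  · intro h
    exact ⟨_, h, by ext <;> simp⟩

private theorem wl_inj (x : ℤ × ℤ) :
    Function.Injective (fun e : (ℤ × ℤ) × Fin 6 => (x + e.1, e.2)) := by
  intro e e' h
  have h1 := Prod.ext_iff.1 h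
  exact Prod.ext (add_left_cancel h1.1) h1.2

private theorem wl_sum (x : ℤ × ℤ) (P : Finset ((ℤ × ℤ) × Fin 6))
    (f : (ℤ × ℤ) × Fin 6 → ℝ) : ∑ e ∈ wl_tr x P, f e = ∑ e ∈ P, f (x + e.1, e.2) := by
  unfold wl_tr
  rw [Finset.sum_image fun a _ b _ h => wl_inj x h]

private theorem wl_card (x : ℤ × ℤ) (P : Finset ((ℤ × ℤ) × Fin 6)) :
    (wl_tr x P).card = P.card := by
  unfold wl_tr
  rw [Finset.card_image_of_injective _ (wl_inj x)]

/-- number of translates containing an edge -/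
private theorem wl_cnt (X : Finset (ℤ × ℤ)) (P : Finset ((ℤ × ℤ) × Fin 6))
    (e : (ℤ × ℤ) × Fin 6) :
    ∑ x ∈ X, (if e ∈ wl_tr x P then (1 : ℝ) else 0) ≤ (P.card : ℝ) := by
  rw [Finset.sum_ite, Finset.sum_const_zero, add_zero, Finset.sum_const, nsmul_eq_mul, mul_one]
  have h1 : (X.filter (fun x => e ∈ wl_tr x P)).card ≤ P.card := by
    refine Finset.card_le_card_of_injOn (fun x => (e.1 - x, e.2)) ?_ ?_
    · intro x hx
      have h2 := (Finset.mem_filter.1 (Finset.mem_coe.1 hx)).2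
      exact Finset.mem_coe.2 (wl_mem.1 h2)
    · intro x _ y _ hxy
      have h2 := (Prod.ext_iff.1 hxy).1
      simp only at h2
      exact sub_right_injective h2
  exact_mod_cast h1

theorem Ls_flux {W : Finset (ℤ × ℤ)} {g : (W → ℝ) → ℝ} {C : ℝ} (hg : Lg W g C) :
    ∃ (R : ℤ) (A : ℝ), 0 ≤ A ∧ ∀ (D : Finset (ℤ × ℤ)) (b : ℤ × ℤ → ℝ) (s : ℤ × ℤ → ℝ)
      (X : Finset (ℤ × ℤ)), (∀ x, |s x| ≤ 1) →
      ∃ (E : Finset ((ℤ × ℤ) × Fin 6)) (τ : (ℤ × ℤ) × Fin 6 → (D → ℝ) → ℝ)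
        (T : (ℤ × ℤ) × Fin 6 → ℝ),
        (∀ h k : D → ℝ, ∑ x, pd x (fun h => Ls W g s X (gl D b h)) h * k x =
          ∑ e ∈ E, τ e h * (g0 D k e.1 - g0 D k (e.1 + st e.2))) ∧
        (∀ e ∈ E, ∀ h, |τ e h| ≤ T e) ∧ ∑ e ∈ E, (T e) ^ 2 ≤ A * (X.card : ℝ) ∧
        ∀ e ∈ E, ∃ x ∈ X, dn (e.1 - x) ≤ R := by
  classical
  have hC := wk_C hg
  rcases W.eq_empty_or_nonempty with h0 | ⟨w₀, hw₀⟩
  · subst h0
    refine ⟨0, 0, le_rfl, fun D b s X hs1 => ⟨∅, fun _ _ => 0, fun _ => 0, ?_, ?_, ?_, ?_⟩⟩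
    · intro h k
      rw [Ls_pd hg, Finset.sum_empty]
      refine Finset.sum_eq_zero fun x _ => ?_
      rw [Finset.sum_eq_zero fun w _ => absurd w.2 (Finset.notMem_empty _), mul_zero]
    · intro e he
      exact absurd he (Finset.notMem_empty _)
    · simp
    · intro e he
      exact absurd he (Finset.notMem_empty _)
  have hP : ∀ w : W, ∃ P : Finset ((ℤ × ℤ) × Fin 6), ∀ k : ℤ × ℤ → ℝ,
      k w.1 - k w₀ = ∑ e ∈ P, (k e.1 - k (e.1 + st e.2)) := fun w => path_ex w.1 w₀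
  choose P hP using hP
  set M : ℝ := ∑ w : W, ((P w).card : ℝ) with hM
  have hM0 : 0 ≤ M := Finset.sum_nonneg fun w _ => Nat.cast_nonneg _
  set U : Finset ((ℤ × ℤ) × Fin 6) := Finset.univ.biUnion P with hU
  refine ⟨∑ e ∈ U, dn e.1, C ^ 2 * M ^ 2, by positivity, fun D b s X hs1 => ?_⟩
  set E : Finset ((ℤ × ℤ) × Fin 6) := X.biUnion fun x => Finset.univ.biUnion fun w =>
    wl_tr x (P w) with hE
  have hsub : ∀ x ∈ X, ∀ w, wl_tr x (P w) ⊆ E := by
    intro x hx w e he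
    exact Finset.mem_biUnion.2 ⟨x, hx, Finset.mem_biUnion.2 ⟨w, Finset.mem_univ _, he⟩⟩
  refine ⟨E, fun e h => ∑ x ∈ X, ∑ w : W, if e ∈ wl_tr x (P w) then
      s x * pd w g (rs W x (gl D b h)) else 0,
    fun e => C * ∑ x ∈ X, ∑ w : W, if e ∈ wl_tr x (P w) then (1 : ℝ) else 0, ?_, ?_, ?_, ?_⟩
  · intro h k
    rw [Ls_pd hg]
    have h1 : ∀ x ∈ X, s x * ∑ w : W, pd w g (rs W x (gl D b h)) * g0 D k (x + w.1) =
        ∑ w : W, ∑ e ∈ E, (if e ∈ wl_tr x (P w) then s x * pd w g (rs W x (gl D b h)) else 0) *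
          (g0 D k e.1 - g0 D k (e.1 + st e.2)) := by
      intro x hx
      have h2 : ∑ w : W, pd w g (rs W x (gl D b h)) * g0 D k (x + w.1) =
          ∑ w : W, pd w g (rs W x (gl D b h)) * (g0 D k (x + w.1) - g0 D k (x + w₀)) := by
        simp only [mul_sub]
        rw [Finset.sum_sub_distrib, ← Finset.sum_mul, wl_sum0 hg, zero_mul, sub_zero]
      rw [h2, Finset.mul_sum]
      refine Finset.sum_congr rfl fun w _ => ?_
      have h3 : g0 D k (x + w.1) - g0 D k (x + w₀) =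
          ∑ e ∈ wl_tr x (P w), (g0 D k e.1 - g0 D k (e.1 + st e.2)) := by
        rw [wl_sum]
        have h4 := hP w (fun z => g0 D k (x + z))
        rw [h4]
        refine Finset.sum_congr rfl fun e _ => ?_
        rw [add_assoc]
      rw [h3, ← mul_assoc, Finset.mul_sum]
      simp only [ite_mul, zero_mul]
      rw [Finset.sum_ite_mem, Finset.inter_eq_right.2 (hsub x hx w)]
    rw [Finset.sum_congr rfl h1]
    simp only [Finset.sum_mul]
    rw [Finset.sum_comm' (s := X) (t := fun _ => Finset.univ) (t' := Finset.univ)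
      (s' := fun _ => X) (by simp)]
    rw [Finset.sum_comm' (s := E) (t := fun _ => X) (t' := X) (s' := fun _ => E)
      (by intro a b'; tauto)]
    rw [Finset.sum_comm' (s := Finset.univ) (t := fun _ => X) (t' := X)
      (s' := fun _ => Finset.univ) (by simp)]
    refine Finset.sum_congr rfl fun x _ => ?_
    rw [Finset.sum_comm]
  · intro e he h
    simp only
    rw [Finset.mul_sum]
    refine (Finset.abs_sum_le_sum_abs _ _).trans (Finset.sum_le_sum fun x _ => ?_)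
    rw [Finset.mul_sum]
    refine (Finset.abs_sum_le_sum_abs _ _).trans (Finset.sum_le_sum fun w _ => ?_)
    split_ifs
    · rw [mul_one, abs_mul]
      calc |s x| * |pd w g (rs W x (gl D b h))| ≤ 1 * C :=
            mul_le_mul (hs1 x) (hg.dbd _ _) (abs_nonneg _) zero_le_one
        _ = C := one_mul C
    · simp
  · set n : (ℤ × ℤ) × Fin 6 → ℝ := fun e => ∑ x ∈ X, ∑ w : W,
      if e ∈ wl_tr x (P w) then (1 : ℝ) else 0 with hn
    have hn0 : ∀ e, 0 ≤ n e := fun e => Finset.sum_nonneg fun x _ => Finset.sum_nonneg fun w _ => by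
      split_ifs <;> norm_num
    have hnM : ∀ e, n e ≤ M := by
      intro e
      rw [hn, hM]
      simp only
      rw [Finset.sum_comm]
      exact Finset.sum_le_sum fun w _ => wl_cnt X (P w) e
    have hnS : ∑ e ∈ E, n e = M * (X.card : ℝ) := by
      rw [hn]
      simp only
      rw [Finset.sum_comm]
      have h5 : ∀ x ∈ X, ∑ e ∈ E, ∑ w : W, (if e ∈ wl_tr x (P w) then (1 : ℝ) else 0) = M := by
        intro x hx
        rw [Finset.sum_comm, hM]
        refine Finset.sum_congr rfl fun w _ => ?_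
        rw [Finset.sum_ite_mem, Finset.inter_eq_right.2 (hsub x hx w), Finset.sum_const,
          nsmul_eq_mul, mul_one, wl_card]
      rw [Finset.sum_congr rfl h5, Finset.sum_const, nsmul_eq_mul, mul_comm]
    calc ∑ e ∈ E, (C * n e) ^ 2 ≤ ∑ e ∈ E, C ^ 2 * M * n e := by
          refine Finset.sum_le_sum fun e _ => ?_
          have h6 : n e * n e ≤ M * n e := mul_le_mul_of_nonneg_right (hnM e) (hn0 e)
          have h7 : 0 ≤ C ^ 2 := sq_nonneg _
          nlinarith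
      _ = C ^ 2 * M ^ 2 * (X.card : ℝ) := by
          rw [← Finset.mul_sum, hnS]
          ring
  · intro e he
    obtain ⟨x, hx, he⟩ := Finset.mem_biUnion.1 he
    obtain ⟨w, -, he⟩ := Finset.mem_biUnion.1 he
    refine ⟨x, hx, ?_⟩
    have h8 := wl_mem.1 he
    have h9 : (e.1 - x, e.2) ∈ U := Finset.mem_biUnion.2 ⟨w, Finset.mem_univ _, h8⟩
    have h10 : ∀ e' ∈ U, 0 ≤ dn e'.1 := fun e' _ => dn_nonneg _
    have h11 := Finset.single_le_sum h10 h9
    exact h11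

/- END wl -/

/- MODULE wm
`blw` and `Ls_flux`; the triangle inequality for `dn` (Geo.lean) gives the distances. -/

private theorem wm_EK_nonneg (D : Finset (ℤ × ℤ)) (b : ℤ × ℤ → ℝ) (w : (D → ℝ) → ℝ) :
    0 ≤ EK D b w (fun _ => 1) := by
  unfold EK
  refine integral_nonneg fun h => ?_
  simp only [one_mul]
  exact (Real.exp_pos _).le

theorem Ls_var {W : Finset (ℤ × ℤ)} {g : (W → ℝ) → ℝ} {C : ℝ} (hg : Lg W g C) :
    ∃ (R : ℤ) (A : ℝ), 0 ≤ A ∧ ∀ (D S X : Finset (ℤ × ℤ)) (b : ℤ × ℤ → ℝ), (∀ z, |b z| ≤ 1 / 2) →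
      ∀ s : ℤ × ℤ → ℝ, (∀ x, |s x| ≤ 1) →
      ∀ t : ℝ, 0 ≤ t → (∀ x ∈ X, ∀ z ∈ S, R ≤ dn (z - x)) →
      VK D b (Wph S t) (fun h => Ls W g s X (gl D b h)) ≤
        A * (X.card : ℝ) * EK D b (Wph S t) (fun _ => 1) := by
  obtain ⟨B, hB, hblw⟩ := blw
  obtain ⟨R, A, hA, hfl⟩ := Ls_flux hg
  refine ⟨R + 3, B * A, mul_nonneg hB hA, fun D S X b hb s hs1 t ht hS => ?_⟩
  obtain ⟨E, τ, T, h1, h2, h3, h4⟩ := hfl D b s X hs1
  obtain ⟨C', hF⟩ := Ls_Fok hg D b s X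
  have h5 := hblw D S b hb t ht _ C' hF E τ T h1 (fun e he h _ => h2 e he h) (by
    intro e he z hz
    obtain ⟨x, hx, hxe⟩ := h4 e he
    have h6 := hS x hx z hz
    have h7 := dn_add_le (z - e.1) (e.1 - x)
    have h8 : z - e.1 + (e.1 - x) = z - x := by abel
    rw [h8] at h7
    have h9 := dn_step (z - (e.1 + st e.2)) e.2
    have h10 : z - (e.1 + st e.2) + st e.2 = z - e.1 := by abel
    rw [h10] at h9
    have h11 := (abs_le.1 h9).2
    constructor <;> linarith)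
  refine h5.trans ?_
  refine mul_le_mul_of_nonneg_right ?_ (wm_EK_nonneg D b _)
  rw [mul_assoc]
  exact mul_le_mul_of_nonneg_left h3 hB

/- END wm -/

/- MODULE wn
The case `S = ∅`, normalised, and Cauchy-Schwarz: `E |Y - E Y| ≤ √(Var Y)`. -/

private theorem wn_W0 (D : Finset (ℤ × ℤ)) : (Wph (D := D) ∅ 0) = fun _ => 0 := by
  funext h
  unfold Wph
  simp

private theorem wn_Zpos {D : Finset (ℤ × ℤ)} {b : ℤ × ℤ → ℝ} (hb : ∀ z, |b z| ≤ 1 / 2) :
    volume (K D b) ≠ 0 ∧ volume (K D b) ≠ ⊤ := by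
  constructor
  · have h1 : 1 ≤ Z D b := Z_one_le fun z _ _ => hb z
    have h2 : (0 : ℝ≥0∞) < Z D b := lt_of_lt_of_le zero_lt_one h1
    exact h2.ne'
  · exact (Z_lt_top D b).ne

private theorem wn_cond (D : Finset (ℤ × ℤ)) (b : ℤ × ℤ → ℝ) (f : (D → ℝ) → ℝ) :
    ∫ h, f h ∂(Mu D b) = ((volume (K D b))⁻¹).toReal * ∫ h in K D b, f h := by
  unfold Mu ProbabilityTheory.cond
  rw [integral_smul_measure, smul_eq_mul]

private theorem wn_prob {D : Finset (ℤ × ℤ)} {b : ℤ × ℤ → ℝ} (hb : ∀ z, |b z| ≤ 1 / 2) :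
    IsProbabilityMeasure (Mu D b) :=
  ProbabilityTheory.cond_isProbabilityMeasure_of_finite (wn_Zpos hb).1 (wn_Zpos hb).2

private theorem wn_meas {W : Finset (ℤ × ℤ)} {g : (W → ℝ) → ℝ} (hg : Measurable g)
    (D : Finset (ℤ × ℤ)) (b : ℤ × ℤ → ℝ) (x : ℤ × ℤ) :
    Measurable (fun h : D → ℝ => g (rs W x (gl D b h))) := by
  refine hg.comp (measurable_pi_lambda _ fun w => ?_)
  exact gl_meas D b (x + w.1)

private theorem wn_Lsmeas {W : Finset (ℤ × ℤ)} {g : (W → ℝ) → ℝ} (hg : Measurable g)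
    (D : Finset (ℤ × ℤ)) (b : ℤ × ℤ → ℝ) (s : ℤ × ℤ → ℝ) (X : Finset (ℤ × ℤ)) :
    Measurable (fun h : D → ℝ => Ls W g s X (gl D b h)) := by
  unfold Ls
  exact Finset.measurable_fun_sum X fun x _ => (wn_meas hg D b x).const_mul (s x)

private theorem wn_Lsbdd {W : Finset (ℤ × ℤ)} {g : (W → ℝ) → ℝ} {C : ℝ} (hg : ∀ k, |g k| ≤ C)
    {s : ℤ × ℤ → ℝ} (hs1 : ∀ x, |s x| ≤ 1) (X : Finset (ℤ × ℤ)) (H : ℤ × ℤ → ℝ) :
    |Ls W g s X H| ≤ (X.card : ℝ) * C := by
  unfold Ls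
  refine (Finset.abs_sum_le_sum_abs _ _).trans ?_
  have h1 : ∀ x ∈ X, |s x * g (rs W x H)| ≤ C := by
    intro x _
    rw [abs_mul]
    calc |s x| * |g (rs W x H)| ≤ 1 * C :=
          mul_le_mul (hs1 x) (hg _) (abs_nonneg _) zero_le_one
      _ = C := one_mul C
  refine (Finset.sum_le_sum h1).trans ?_
  rw [Finset.sum_const, nsmul_eq_mul]

/-- `E |Y| ≤ √(E Y²)` for bounded measurable functions -/
private theorem wn_cs {Ω : Type*} [MeasurableSpace Ω] (μ : Measure Ω) [IsProbabilityMeasure μ]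
    {Y : Ω → ℝ} (hY : Measurable Y) {B : ℝ} (hB : ∀ x, |Y x| ≤ B) :
    ∫ x, |Y x| ∂μ ≤ Real.sqrt (∫ x, (Y x) ^ 2 ∂μ) := by
  have i1 : Integrable (fun x => |Y x|) μ := by
    refine Integrable.of_bound (C := B) hY.abs.aestronglyMeasurable ?_
    refine Filter.Eventually.of_forall fun x => ?_
    rw [Real.norm_eq_abs, abs_abs]
    exact hB x
  have i2 : Integrable (fun x => (Y x) ^ 2) μ := by
    refine Integrable.of_bound (C := B ^ 2) (hY.pow_const 2).aestronglyMeasurable ?_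
    refine Filter.Eventually.of_forall fun x => ?_
    rw [Real.norm_eq_abs, abs_pow]
    exact pow_le_pow_left₀ (abs_nonneg _) (hB x) 2
  set m := ∫ x, |Y x| ∂μ with hm
  refine Real.le_sqrt_of_sq_le ?_
  have h1 : 0 ≤ ∫ x, (|Y x| - m) ^ 2 ∂μ := integral_nonneg fun x => sq_nonneg _
  have h2 : ∀ x, (|Y x| - m) ^ 2 = (Y x) ^ 2 - 2 * m * |Y x| + m ^ 2 := by
    intro x
    rw [sub_sq, sq_abs]
    ring
  simp only [h2] at h1
  have i3 : Integrable (fun x => (Y x) ^ 2 - 2 * m * |Y x|) μ := i2.sub (i1.const_mul _)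
  rw [integral_add i3 (integrable_const _),
    integral_sub i2 (i1.const_mul _), integral_const_mul, integral_const, ← hm] at h1
  simp only [probReal_univ, smul_eq_mul, one_mul] at h1
  nlinarith

theorem Ls_dev {W : Finset (ℤ × ℤ)} {g : (W → ℝ) → ℝ} {C : ℝ} (hg : Lg W g C) :
    ∃ A : ℝ, 0 ≤ A ∧ ∀ (D X : Finset (ℤ × ℤ)) (b : ℤ × ℤ → ℝ), (∀ z, |b z| ≤ 1 / 2) →
      ∀ s : ℤ × ℤ → ℝ, (∀ x, |s x| ≤ 1) →
      ∫ h, |Ls W g s X (gl D b h) - ∫ h', Ls W g s X (gl D b h') ∂(Mu D b)| ∂(Mu D b) ≤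
        A * Real.sqrt (X.card : ℝ) := by
  obtain ⟨R, A, hA, hv⟩ := Ls_var hg
  refine ⟨Real.sqrt A, Real.sqrt_nonneg _, fun D X b hb s hs1 => ?_⟩
  have hp : IsProbabilityMeasure (Mu D b) := wn_prob hb
  have hgm : Measurable g := hg.temp.1.continuous.measurable
  set F : (D → ℝ) → ℝ := fun h => Ls W g s X (gl D b h) with hF
  have hFm : Measurable F := wn_Lsmeas hgm D b s X
  have hFb : ∀ h, |F h| ≤ (X.card : ℝ) * C := fun h => wn_Lsbdd hg.bdd hs1 X _
  have h1 := hv D ∅ X b hb s hs1 0 le_rfl (fun x _ z hz => absurd hz (Finset.notMem_empty _))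
  have hz0 : (0 : ℝ) < (volume (K D b)).toReal :=
    ENNReal.toReal_pos (wn_Zpos hb).1 (wn_Zpos hb).2
  have e1 : EK D b (Wph ∅ 0) (fun _ => 1) = (volume (K D b)).toReal := by
    rw [wn_W0]
    unfold EK
    simp [Measure.real]
  have e2 : mK D b (Wph ∅ 0) F = ∫ h, F h ∂(Mu D b) := by
    unfold mK
    rw [e1, wn_cond, wn_W0]
    unfold EK
    simp only [neg_zero, Real.exp_zero, mul_one, ENNReal.toReal_inv]
    rw [div_eq_inv_mul]
  have e3 : VK D b (Wph ∅ 0) F = (volume (K D b)).toReal *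
      ∫ h, (F h - ∫ h', F h' ∂(Mu D b)) ^ 2 ∂(Mu D b) := by
    unfold VK
    rw [e2, wn_cond D b (fun h => (F h - ∫ h', F h' ∂(Mu D b)) ^ 2), wn_W0]
    unfold EK
    simp only [neg_zero, Real.exp_zero, mul_one, ENNReal.toReal_inv]
    rw [← mul_assoc, mul_inv_cancel₀ hz0.ne', one_mul]
  rw [e3, e1] at h1
  have h2 : ∫ h, (F h - ∫ h', F h' ∂(Mu D b)) ^ 2 ∂(Mu D b) ≤ A * (X.card : ℝ) := by
    have h3 : (volume (K D b)).toReal * ∫ h, (F h - ∫ h', F h' ∂(Mu D b)) ^ 2 ∂(Mu D b) ≤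
        (volume (K D b)).toReal * (A * (X.card : ℝ)) := by linarith
    exact le_of_mul_le_mul_left h3 hz0
  have h4 : |∫ h', F h' ∂(Mu D b)| ≤ (X.card : ℝ) * C := by
    have h5 := norm_integral_le_of_norm_le_const (μ := Mu D b) (f := F)
      (C := (X.card : ℝ) * C) (Filter.Eventually.of_forall fun h => by
        rw [Real.norm_eq_abs]
        exact hFb h)
    rw [probReal_univ, mul_one, Real.norm_eq_abs] at h5
    exact h5
  have h6 := wn_cs (Mu D b) (Y := fun h => F h - ∫ h', F h' ∂(Mu D b))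
    (hFm.sub_const _) (B := (X.card : ℝ) * C + (X.card : ℝ) * C) (fun h =>
      (abs_sub _ _).trans (add_le_add (hFb h) h4))
  refine h6.trans ?_
  rw [← Real.sqrt_mul hA]
  exact Real.sqrt_le_sqrt h2

/- END wn -/

/- MODULE wo
Bounded densities.  Fix `w₀ ∈ W`, `T₀ = W \ {w₀}`, `f t = g (0 at w₀, t on T₀)`, so
`g k = f (k w - k w₀)`.  Under `Mu D b` the vector `(H (x + w) - H (x + w₀))_{w ∈ T₀}` lies in the
cube of size `R_W` (`gl_edge`, `dn`), and its law is at most `2 ^ (|T₀| + 7 (6 |T₀| + 1))` times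
Lebesgue measure by `vol_lemma` (`T = x + T₀`, `P` = the neighbours of `T` in `D \ T` and `x + w₀`).
Approximate `f 1_{cube}` in `L¹` by a smooth compactly supported function
(`MeasureTheory.MemLp.exist_eLpNorm_sub_le`). -/

private def wo_T (x : ℤ × ℤ) (A : Finset (ℤ × ℤ)) : Finset (ℤ × ℤ) :=
  A.image (fun w => x + w)

private theorem wo_memT {x : ℤ × ℤ} {A : Finset (ℤ × ℤ)} {y : ℤ × ℤ} :
    y ∈ wo_T x A ↔ y - x ∈ A := by
  unfold wo_T
  rw [Finset.mem_image]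
  constructor
  · rintro ⟨w, hw, rfl⟩
    simpa using hw
  · intro h
    exact ⟨_, h, by abel⟩

private theorem wo_memT' {x : ℤ × ℤ} {A : Finset (ℤ × ℤ)} {w : ℤ × ℤ} (hw : w ∈ A) :
    x + w ∈ wo_T x A := wo_memT.2 (by simpa using hw)

private def wo_e (x : ℤ × ℤ) (A : Finset (ℤ × ℤ)) : ↥(wo_T x A) ≃ A where
  toFun y := ⟨y.1 - x, wo_memT.1 y.2⟩
  invFun w := ⟨x + w.1, wo_memT' w.2⟩
  left_inv y := by
    apply Subtype.ext
    simp
  right_inv w := by
    apply Subtype.ext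
    simp

private theorem wo_mp (x : ℤ × ℤ) (A : Finset (ℤ × ℤ)) :
    MeasurePreserving (fun (t : ↥(wo_T x A) → ℝ) (w : A) =>
      t ⟨x + w.1, wo_memT' w.2⟩) := by
  have h1 := volume_measurePreserving_piCongrLeft (fun _ : A => ℝ) (wo_e x A)
  have e : (fun (t : ↥(wo_T x A) → ℝ) (w : A) => t ⟨x + w.1, wo_memT' w.2⟩) =
      (MeasurableEquiv.piCongrLeft (fun _ : A => ℝ) (wo_e x A)) := by
    funext t w
    have : (MeasurableEquiv.piCongrLeft (fun _ : A => ℝ) (wo_e x A)) t w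
        = t ((wo_e x A).symm w) := by
      obtain ⟨y, rfl⟩ := (wo_e x A).surjective w
      rw [Equiv.symm_apply_apply]
      exact MeasurableEquiv.piCongrLeft_apply_apply (β := fun _ : A => ℝ) (wo_e x A) t y
    rw [this]
    rfl
  rw [e]
  exact h1

private theorem wo_vol {W : Finset (ℤ × ℤ)} {w₀ : ℤ × ℤ}
    {D : Finset (ℤ × ℤ)} {b : ℤ × ℤ → ℝ} (hb : ∀ z, |b z| ≤ 1 / 2) {x : ℤ × ℤ}
    (h₀ : w₀ ∈ W) (hx : ∀ w ∈ W, x + w ∈ D) {A : Set (↥(W.erase w₀) → ℝ)}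
    (hA : MeasurableSet A) :
    volume {h : D → ℝ | h ∈ K D b ∧
        (fun w : ↥(W.erase w₀) => gl D b h (x + w.1) - gl D b h (x + w₀)) ∈ A} ≤
      2 ^ ((W.erase w₀).card + 7 * (6 * (W.erase w₀).card + 1)) * volume A * volume (K D b) := by
  classical
  set T := wo_T x (W.erase w₀) with hT
  set Q := T.biUnion (fun y => Finset.univ.image (fun i : Fin 6 => y + st i)) with hQ
  set P := (Q ∩ (D \ T)) ∪ {x + w₀} with hP
  have hTD : T ⊆ D := by
    intro y hy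
    have h1 := Finset.mem_of_mem_erase (wo_memT.1 hy)
    have h2 := hx _ h1
    have h3 : x + (y - x) = y := by abel
    rwa [h3] at h2
  have hvD : x + w₀ ∈ D := hx _ h₀
  have hvT : x + w₀ ∉ T := by
    intro h
    have h1 := wo_memT.1 h
    rw [add_sub_cancel_left] at h1
    exact Finset.notMem_erase _ _ h1
  have hPD : P ⊆ D := by
    intro y hy
    rcases Finset.mem_union.1 hy with h | h
    · exact (Finset.mem_sdiff.1 (Finset.mem_inter.1 h).2).1
    · rw [Finset.mem_singleton.1 h]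
      exact hvD
  have hd : Disjoint T P := by
    rw [Finset.disjoint_left]
    intro y hy hy'
    rcases Finset.mem_union.1 hy' with h | h
    · exact (Finset.mem_sdiff.1 (Finset.mem_inter.1 h).2).2 hy
    · rw [Finset.mem_singleton.1 h] at hy
      exact hvT hy
  have hN : ∀ y ∈ T, ∀ i, y + st i ∈ D → y + st i ∈ T ∪ P := by
    intro y hy i hi
    by_cases h : y + st i ∈ T
    · exact Finset.mem_union_left _ h
    · refine Finset.mem_union_right _ (Finset.mem_union_left _ (Finset.mem_inter.2 ⟨?_, ?_⟩))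
      · exact Finset.mem_biUnion.2 ⟨y, hy, Finset.mem_image.2 ⟨i, Finset.mem_univ _, rfl⟩⟩
      · exact Finset.mem_sdiff.2 ⟨hi, h⟩
  have hTc : T.card = (W.erase w₀).card := by
    rw [hT]
    unfold wo_T
    exact Finset.card_image_of_injective _ (fun a c h => add_left_cancel h)
  have hQc : Q.card ≤ 6 * (W.erase w₀).card := by
    rw [hQ, ← hTc]
    refine Finset.card_biUnion_le.trans ?_
    refine (Finset.sum_le_sum fun y _ => Finset.card_image_le).trans ?_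
    rw [Finset.sum_const, smul_eq_mul, Finset.card_univ, Fintype.card_fin, mul_comm]
  have hPc : P.card ≤ 6 * (W.erase w₀).card + 1 := by
    refine (Finset.card_union_le _ _).trans ?_
    rw [Finset.card_singleton]
    exact Nat.add_le_add_right ((Finset.card_le_card Finset.inter_subset_left).trans hQc) 1
  have hm := wo_mp x (W.erase w₀)
  have h1 := vol_lemma hb hTD hPD hd hN (v := x + w₀)
    (Or.inl (Finset.mem_union_right _ (Finset.mem_singleton_self _))) (hm.measurable hA)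
  rw [hm.measure_preimage hA.nullMeasurableSet, hTc] at h1
  have e1 : {h : D → ℝ | h ∈ K D b ∧
        (fun w : ↥(W.erase w₀) => gl D b h (x + w.1) - gl D b h (x + w₀)) ∈ A} =
      {h : D → ℝ | h ∈ K D b ∧ (fun y : T => gl D b h y - gl D b h (x + w₀)) ∈
        (fun (t : ↥(wo_T x (W.erase w₀)) → ℝ) (w : ↥(W.erase w₀)) =>
          t ⟨x + w.1, wo_memT' w.2⟩) ⁻¹' A} := rfl
  rw [e1]
  refine h1.trans ?_
  gcongr
  norm_num

theorem loc_dens {W : Finset (ℤ × ℤ)} {w₀ : ℤ × ℤ} (h₀ : w₀ ∈ W) :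
    ∃ (c : ℝ≥0∞) (R : ℝ), c < ⊤ ∧ ∀ (D : Finset (ℤ × ℤ)) (b : ℤ × ℤ → ℝ), (∀ z, |b z| ≤ 1 / 2) →
      ∀ x : ℤ × ℤ, (∀ w ∈ W, x + w ∈ D) → ∀ f : (↥(W.erase w₀) → ℝ) → ℝ≥0∞,
        Measurable f →
        ∫⁻ h, f (fun w => gl D b h (x + w.1) - gl D b h (x + w₀)) ∂(Mu D b) ≤
          c * ∫⁻ t in {t | ∀ w, |t w| ≤ R}, f t := by
  refine ⟨2 ^ ((W.erase w₀).card + 7 * (6 * (W.erase w₀).card + 1)),
    ∑ w ∈ W.erase w₀, (dn (w - w₀) : ℝ), ENNReal.pow_lt_top (by simp), ?_⟩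
  intro D b hb x hx f hf
  set c : ℝ≥0∞ := 2 ^ ((W.erase w₀).card + 7 * (6 * (W.erase w₀).card + 1)) with hc
  set R : ℝ := ∑ w ∈ W.erase w₀, (dn (w - w₀) : ℝ) with hR
  set φ : (D → ℝ) → (↥(W.erase w₀) → ℝ) :=
    fun h w => gl D b h (x + w.1) - gl D b h (x + w₀) with hφ
  have hφm : Measurable φ := by
    refine measurable_pi_lambda _ fun w => ?_
    exact (gl_meas D b (x + w.1)).sub (gl_meas D b (x + w₀))
  set Q : Set (↥(W.erase w₀) → ℝ) := {t | ∀ w, |t w| ≤ R} with hQ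
  have hQm : MeasurableSet Q := by
    have e : Q = ⋂ w, {t : ↥(W.erase w₀) → ℝ | |t w| ≤ R} := by
      ext t
      simp [hQ]
    rw [e]
    refine MeasurableSet.iInter fun w => ?_
    exact measurableSet_le (measurable_pi_apply w).abs measurable_const
  have hφQ : ∀ h ∈ K D b, φ h ∈ Q := by
    intro h hh w
    have h1 := gl_lip hb hh (x + w.1) (x + w₀)
    have h2 : x + w.1 - (x + w₀) = w.1 - w₀ := by abel
    rw [h2] at h1
    refine h1.trans ?_
    exact Finset.single_le_sum (f := fun w : ℤ × ℤ => (dn (w - w₀) : ℝ))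
      (fun w _ => by exact_mod_cast dn_nonneg _) w.2
  have hle : Measure.map φ (Mu D b) ≤ c • volume.restrict Q := by
    refine Measure.le_iff.2 fun A hA => ?_
    rw [Measure.map_apply hφm hA, Measure.smul_apply, Measure.restrict_apply hA, smul_eq_mul]
    unfold Mu
    rw [ProbabilityTheory.cond_apply (K_meas D b)]
    have e2 : K D b ∩ φ ⁻¹' A = {h : D → ℝ | h ∈ K D b ∧
        (fun w : ↥(W.erase w₀) => gl D b h (x + w.1) - gl D b h (x + w₀)) ∈ A ∩ Q} := by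
      ext h
      constructor
      · rintro ⟨h1, h2⟩
        exact ⟨h1, h2, hφQ h h1⟩
      · rintro ⟨h1, h2⟩
        exact ⟨h1, h2.1⟩
    rw [e2]
    have h3 := wo_vol hb h₀ hx (hA.inter hQm)
    calc (volume (K D b))⁻¹ * volume {h : D → ℝ | h ∈ K D b ∧
          (fun w : ↥(W.erase w₀) => gl D b h (x + w.1) - gl D b h (x + w₀)) ∈ A ∩ Q}
        ≤ (volume (K D b))⁻¹ * (c * volume (A ∩ Q) * volume (K D b)) := by gcongr
      _ = c * volume (A ∩ Q) * ((volume (K D b))⁻¹ * volume (K D b)) := by ring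
      _ ≤ c * volume (A ∩ Q) * 1 := by
          gcongr
          exact ENNReal.inv_mul_le_one _
      _ = c * volume (A ∩ Q) := mul_one _
  calc ∫⁻ h, f (fun w => gl D b h (x + w.1) - gl D b h (x + w₀)) ∂(Mu D b)
      = ∫⁻ t, f t ∂(Measure.map φ (Mu D b)) := (lintegral_map hf hφm).symm
    _ ≤ ∫⁻ t, f t ∂(c • volume.restrict Q) := lintegral_mono' hle le_rfl
    _ = c * ∫⁻ t in Q, f t := by
        rw [lintegral_smul_measure, smul_eq_mul]

/- END wo -/

/- MODULE wp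
`loc_dens`; `g' k = f' (k w - k w₀)`. -/

/-- the differences with the height at `w₀` -/
private def wp_L {W : Finset (ℤ × ℤ)} {w₀ : ℤ × ℤ} (h₀ : w₀ ∈ W) :
    (W → ℝ) →L[ℝ] (↥(W.erase w₀) → ℝ) :=
  ContinuousLinearMap.pi (fun w : ↥(W.erase w₀) =>
    (ContinuousLinearMap.proj (⟨w.1, Finset.mem_of_mem_erase w.2⟩ : W) : (W → ℝ) →L[ℝ] ℝ) -
      ContinuousLinearMap.proj (⟨w₀, h₀⟩ : W))

private theorem wp_L_apply {W : Finset (ℤ × ℤ)} {w₀ : ℤ × ℤ} (h₀ : w₀ ∈ W) (k : W → ℝ)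
    (w : ↥(W.erase w₀)) :
    wp_L h₀ k w = k ⟨w.1, Finset.mem_of_mem_erase w.2⟩ - k ⟨w₀, h₀⟩ := by
  unfold wp_L
  simp

/-- extension by `0` at `w₀` -/
private def wp_x {W : Finset (ℤ × ℤ)} (w₀ : ℤ × ℤ) (t : ↥(W.erase w₀) → ℝ) : W → ℝ :=
  fun w => if hw : w.1 ∈ W.erase w₀ then t ⟨w.1, hw⟩ else 0

private theorem wp_x_meas {W : Finset (ℤ × ℤ)} (w₀ : ℤ × ℤ) :
    Measurable (wp_x (W := W) w₀) := by
  refine measurable_pi_lambda _ fun w => ?_
  unfold wp_x
  by_cases hw : w.1 ∈ W.erase w₀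
  · simp only [dif_pos hw]
    exact measurable_pi_apply _
  · simp only [dif_neg hw]
    exact measurable_const

private theorem wp_g {W : Finset (ℤ × ℤ)} {w₀ : ℤ × ℤ} (h₀ : w₀ ∈ W) {g : (W → ℝ) → ℝ}
    (hs : Shf W g) (k : W → ℝ) : g k = g (wp_x w₀ (wp_L h₀ k)) := by
  have h1 := hs k (- k ⟨w₀, h₀⟩)
  rw [← h1]
  congr 1
  funext w
  unfold wp_x
  by_cases hw : w.1 ∈ W.erase w₀
  · rw [dif_pos hw, wp_L_apply]
    ring
  · rw [dif_neg hw]
    have h2 : w.1 = w₀ := by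
      by_contra h3
      exact hw (Finset.mem_erase.2 ⟨h3, w.2⟩)
    have h4 : w = ⟨w₀, h₀⟩ := Subtype.ext h2
    rw [h4]
    ring

private theorem wp_smooth {W : Finset (ℤ × ℤ)} {w₀ : ℤ × ℤ} (h₀ : w₀ ∈ W)
    {f : (↥(W.erase w₀) → ℝ) → ℝ} (hc : HasCompactSupport f) (hf : ContDiff ℝ ∞ f) :
    ∃ C : ℝ, Lg W (fun k => f (wp_L h₀ k)) C := by
  obtain ⟨C₁, hC₁⟩ := hf.continuous.bounded_above_of_compact_support hc
  have hc' : HasCompactSupport (fderiv ℝ f) := hc.fderiv (𝕜 := ℝ)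
  have hf' : Continuous (fderiv ℝ f) := hf.continuous_fderiv (by simp)
  obtain ⟨C₂, hC₂⟩ := hf'.bounded_above_of_compact_support hc'
  have hC₂0 : 0 ≤ C₂ := (norm_nonneg _).trans (hC₂ 0)
  refine ⟨max C₁ (C₂ * ‖wp_L h₀‖), ?_, ?_, ?_, ?_⟩
  · exact (hc.hasTemperateGrowth hf).comp (wp_L h₀).hasTemperateGrowth
  · intro k t
    have e : wp_L h₀ (fun w => k w + t) = wp_L h₀ k := by
      funext w
      rw [wp_L_apply, wp_L_apply]
      ring
    simp only [e]
  · intro k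
    refine le_trans ?_ (le_max_left _ _)
    rw [← Real.norm_eq_abs]
    exact hC₁ _
  · intro w k
    refine le_trans ?_ (le_max_right _ _)
    have hd : Differentiable ℝ f := hf.differentiable (by simp)
    have h1 : HasFDerivAt (fun k => f (wp_L h₀ k)) ((fderiv ℝ f (wp_L h₀ k)).comp (wp_L h₀)) k :=
      (hd (wp_L h₀ k)).hasFDerivAt.comp k (wp_L h₀).hasFDerivAt
    unfold pd
    rw [h1.fderiv, ContinuousLinearMap.comp_apply, ← Real.norm_eq_abs]
    refine (ContinuousLinearMap.le_opNorm _ _).trans ?_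
    have h2 : ‖wp_L h₀ (Pi.single w 1)‖ ≤ ‖wp_L h₀‖ := by
      refine (ContinuousLinearMap.le_opNorm _ _).trans ?_
      have h3 : ‖(Pi.single w 1 : W → ℝ)‖ ≤ 1 := by
        rw [Pi.norm_single]
        simp
      calc ‖wp_L h₀‖ * ‖(Pi.single w 1 : W → ℝ)‖ ≤ ‖wp_L h₀‖ * 1 := by gcongr
        _ = ‖wp_L h₀‖ := mul_one _
    exact mul_le_mul (hC₂ _) h2 (norm_nonneg _) hC₂0

theorem loc_approx {W : Finset (ℤ × ℤ)} {g : (W → ℝ) → ℝ} (hm : Measurable g) {B : ℝ}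
    (hB : ∀ k, |g k| ≤ B) (hs : Shf W g) {δ : ℝ} (hδ : 0 < δ) :
    ∃ (g' : (W → ℝ) → ℝ) (C : ℝ), Lg W g' C ∧ ∀ (D : Finset (ℤ × ℤ)) (b : ℤ × ℤ → ℝ),
      (∀ z, |b z| ≤ 1 / 2) → ∀ x : ℤ × ℤ, (∀ w ∈ W, x + w ∈ D) →
        ∫ h, |g (rs W x (gl D b h)) - g' (rs W x (gl D b h))| ∂(Mu D b) ≤ δ := by
  rcases W.eq_empty_or_nonempty with h0 | ⟨w₀, h₀⟩
  · subst h0
    have hcst : g = fun _ => g (fun _ => 0) := by
      funext k
      congr 1
      funext w
      exact absurd w.2 (Finset.notMem_empty _)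
    refine ⟨g, B, ⟨?_, hs, hB, ?_⟩, ?_⟩
    · rw [hcst]
      exact Function.HasTemperateGrowth.const _
    · intro w
      exact absurd w.2 (Finset.notMem_empty _)
    · intro D b hb x hx
      simp only [sub_self, abs_zero, integral_zero]
      exact hδ.le
  obtain ⟨c, R, hc, hdens⟩ := loc_dens h₀
  set Q : Set (↥(W.erase w₀) → ℝ) := {t | ∀ w, |t w| ≤ R} with hQ
  have hQm : MeasurableSet Q := by
    have e : Q = ⋂ w, {t : ↥(W.erase w₀) → ℝ | |t w| ≤ R} := by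
      ext t
      simp [hQ]
    rw [e]
    refine MeasurableSet.iInter fun w => ?_
    exact measurableSet_le (measurable_pi_apply w).abs measurable_const
  have hQf : volume Q < ⊤ := by
    have e : Q ⊆ Icc (fun _ => -R) (fun _ => R) := by
      intro t ht
      exact ⟨fun w => (abs_le.1 (ht w)).1, fun w => (abs_le.1 (ht w)).2⟩
    refine (measure_mono e).trans_lt ?_
    rw [Real.volume_Icc_pi]
    exact ENNReal.prod_lt_top fun i _ => ENNReal.ofReal_lt_top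
  set f : (↥(W.erase w₀) → ℝ) → ℝ := fun t => g (wp_x w₀ t) with hf
  have hfm : Measurable f := hm.comp (wp_x_meas w₀)
  have hmem : MemLp (Q.indicator f) 1 volume := by
    refine memLp_one_iff_integrable.2 ((integrable_indicator_iff hQm).2 ?_)
    refine Measure.integrableOn_of_bounded (M := B) hQf.ne hfm.aestronglyMeasurable ?_
    refine Filter.Eventually.of_forall fun t => ?_
    rw [Real.norm_eq_abs]
    exact hB _
  have hε : 0 < δ / (c.toReal + 1) := by positivity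
  obtain ⟨f', hf'c, hf's, hf'e⟩ := hmem.exist_eLpNorm_sub_le (by simp) le_rfl hε
  obtain ⟨C, hC⟩ := wp_smooth h₀ hf'c hf's
  refine ⟨fun k => f' (wp_L h₀ k), C, hC, ?_⟩
  intro D b hb x hx
  have hff' : Measurable (fun t => ENNReal.ofReal |f t - f' t|) :=
    (hfm.sub hf's.continuous.measurable).abs.ennreal_ofReal
  have h1 := hdens D b hb x hx _ hff'
  have e1 : ∀ h : D → ℝ, |g (rs W x (gl D b h)) - f' (wp_L h₀ (rs W x (gl D b h)))| =
      |f (fun w => gl D b h (x + w.1) - gl D b h (x + w₀)) -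
        f' (fun w => gl D b h (x + w.1) - gl D b h (x + w₀))| := by
    intro h
    have e2 : wp_L h₀ (rs W x (gl D b h)) =
        fun w : ↥(W.erase w₀) => gl D b h (x + w.1) - gl D b h (x + w₀) := by
      funext w
      rw [wp_L_apply]
      rfl
    rw [wp_g h₀ hs, e2]
  have h2 : ∫⁻ t in Q, ENNReal.ofReal |f t - f' t| ≤ ENNReal.ofReal (δ / (c.toReal + 1)) := by
    refine le_trans ?_ hf'e
    rw [eLpNorm_one_eq_lintegral_enorm, ← lintegral_indicator hQm]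
    refine lintegral_mono fun t => ?_
    by_cases ht : t ∈ Q
    · rw [indicator_of_mem ht, Pi.sub_apply, indicator_of_mem ht, ← ofReal_norm,
        Real.norm_eq_abs]
    · rw [indicator_of_notMem ht]
      exact bot_le
  have h3 : ∫⁻ h, ENNReal.ofReal |g (rs W x (gl D b h)) - f' (wp_L h₀ (rs W x (gl D b h)))|
      ∂(Mu D b) ≤ ENNReal.ofReal δ := by
    simp only [e1]
    refine h1.trans ?_
    refine (mul_le_mul_right h2 c).trans ?_
    rw [← ENNReal.ofReal_toReal hc.ne, ← ENNReal.ofReal_mul ENNReal.toReal_nonneg,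
      ENNReal.toReal_ofReal ENNReal.toReal_nonneg]
    refine ENNReal.ofReal_le_ofReal ?_
    rw [← mul_div_assoc, div_le_iff₀ (by positivity)]
    nlinarith [ENNReal.toReal_nonneg (a := c)]
  rw [integral_eq_lintegral_of_nonneg_ae (Filter.Eventually.of_forall fun h => abs_nonneg _)]
  · exact ENNReal.toReal_le_of_le_ofReal hδ.le h3
  · refine Measurable.aestronglyMeasurable ?_
    have h4 := wn_meas hm D b x
    have h5 := wn_meas hC.temp.1.continuous.measurable D b x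
    exact (h4.sub h5).abs

/- END wp -/

/- MODULE wq
THE LAW OF LARGE NUMBERS (LL): `loc_approx` with `δ = ε / 4`, then `Ls_dev` with `X = y + bx M`, `s = 1`,
`√(M^2) / M^2 = 1 / M`. -/

private theorem wq_int {W : Finset (ℤ × ℤ)} {g : (W → ℝ) → ℝ} (hg : Measurable g) {B : ℝ}
    (hB : ∀ k, |g k| ≤ B) (D : Finset (ℤ × ℤ)) (b : ℤ × ℤ → ℝ) [IsProbabilityMeasure (Mu D b)]
    (x : ℤ × ℤ) : Integrable (fun h => g (rs W x (gl D b h))) (Mu D b) := by
  refine Integrable.of_bound (C := B) (wn_meas hg D b x).aestronglyMeasurable ?_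
  refine Filter.Eventually.of_forall fun h => ?_
  rw [Real.norm_eq_abs]
  exact hB _

private theorem wq_card (M : ℕ) : ((bx M).card : ℝ) = (M : ℝ) ^ 2 := by
  unfold bx
  rw [Finset.card_product, Int.card_Ico, sub_zero, Int.toNat_natCast]
  push_cast
  ring

theorem lln {W : Finset (ℤ × ℤ)} {g : (W → ℝ) → ℝ} (hm : Measurable g) {B : ℝ}
    (hB : ∀ k, |g k| ≤ B) (hs : Shf W g) {ε : ℝ} (hε : 0 < ε) :
    ∃ M₀ : ℕ, ∀ M : ℕ, M₀ ≤ M → ∀ (D : Finset (ℤ × ℤ)) (b : ℤ × ℤ → ℝ), (∀ z, |b z| ≤ 1 / 2) →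
      ∀ y : ℤ × ℤ, (∀ x ∈ bx M, ∀ w ∈ W, y + x + w ∈ D) →
        ∫ h, |((M : ℝ) ^ 2)⁻¹ * ∑ x ∈ bx M, (g (rs W (y + x) (gl D b h)) -
          ∫ h', g (rs W (y + x) (gl D b h')) ∂(Mu D b))| ∂(Mu D b) ≤ ε := by
  obtain ⟨g', C, hg', hap⟩ := loc_approx hm hB hs (δ := ε / 4) (by positivity)
  obtain ⟨A, hA, hdev⟩ := Ls_dev hg'
  refine ⟨⌈2 * A / ε⌉₊ + 1, fun M hM D b hb y hy => ?_⟩
  have hp : IsProbabilityMeasure (Mu D b) := wn_prob hb
  have hgm' : Measurable g' := hg'.temp.1.continuous.measurable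
  have hM1 : (1 : ℝ) ≤ (M : ℝ) := by
    have : 1 ≤ M := le_trans (by omega) hM
    exact_mod_cast this
  have hM0 : (0 : ℝ) < (M : ℝ) := lt_of_lt_of_le one_pos hM1
  have hMA : 2 * A / ε ≤ (M : ℝ) := by
    refine (Nat.le_ceil _).trans ?_
    have : ⌈2 * A / ε⌉₊ ≤ M := le_trans (by omega) hM
    exact_mod_cast this
  set μ := Mu D b with hμ
  set X : Finset (ℤ × ℤ) := (bx M).image (fun x => y + x) with hX
  have hLs : ∀ H, Ls W g' (fun _ => 1) X H = ∑ x ∈ bx M, g' (rs W (y + x) H) := by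
    intro H
    unfold Ls
    rw [hX, Finset.sum_image fun a _ c _ h => add_left_cancel h]
    simp only [one_mul]
  have hXc : (X.card : ℝ) = (M : ℝ) ^ 2 := by
    rw [hX, Finset.card_image_of_injective _ (fun a c h => add_left_cancel h), wq_card]
  have iG : ∀ x, Integrable (fun h => g (rs W (y + x) (gl D b h))) μ :=
    fun x => wq_int hm hB D b (y + x)
  have iG' : ∀ x, Integrable (fun h => g' (rs W (y + x) (gl D b h))) μ :=
    fun x => wq_int hgm' hg'.bdd D b (y + x)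
  set m : ℤ × ℤ → ℝ := fun x => ∫ h, g (rs W (y + x) (gl D b h)) ∂μ with hmm
  set m' : ℤ × ℤ → ℝ := fun x => ∫ h, g' (rs W (y + x) (gl D b h)) ∂μ with hmm'
  have hdx : ∀ x ∈ bx M, ∫ h, |g (rs W (y + x) (gl D b h)) - g' (rs W (y + x) (gl D b h))| ∂μ ≤
      ε / 4 := fun x hx => hap D b hb (y + x) (hy x hx)
  have hmx : ∀ x ∈ bx M, |m' x - m x| ≤ ε / 4 := by
    intro x hx
    refine le_trans ?_ (hdx x hx)
    rw [abs_sub_comm, hmm, hmm']
    simp only
    rw [← integral_sub (iG x) (iG' x)]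
    exact abs_integral_le_integral_abs
  have hint : ∫ h', Ls W g' (fun _ => 1) X (gl D b h') ∂μ = ∑ x ∈ bx M, m' x := by
    simp only [hLs]
    rw [integral_finsetSum _ fun x _ => iG' x]
  have hdev' := hdev D X b hb (fun _ => 1) (fun _ => by simp)
  rw [hint, hXc, Real.sqrt_sq hM0.le] at hdev'
  have iL : Integrable (fun h => |Ls W g' (fun _ => 1) X (gl D b h) - ∑ x ∈ bx M, m' x|) μ := by
    simp only [hLs]
    exact ((integrable_finsetSum _ fun x _ => iG' x).sub (integrable_const _)).abs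
  have iD : ∀ x, Integrable (fun h => |g (rs W (y + x) (gl D b h)) -
      g' (rs W (y + x) (gl D b h))|) μ := fun x => ((iG x).sub (iG' x)).abs
  have iS : Integrable (fun h => ∑ x ∈ bx M, |g (rs W (y + x) (gl D b h)) -
      g' (rs W (y + x) (gl D b h))|) μ := integrable_finsetSum _ fun x _ => iD x
  have hpt : ∀ h : D → ℝ, |((M : ℝ) ^ 2)⁻¹ * ∑ x ∈ bx M, (g (rs W (y + x) (gl D b h)) - m x)| ≤
      ((M : ℝ) ^ 2)⁻¹ * ((∑ x ∈ bx M, |g (rs W (y + x) (gl D b h)) -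
        g' (rs W (y + x) (gl D b h))|) + |Ls W g' (fun _ => 1) X (gl D b h) - ∑ x ∈ bx M, m' x| +
        ∑ x ∈ bx M, |m' x - m x|) := by
    intro h
    rw [abs_mul, abs_of_nonneg (by positivity : (0 : ℝ) ≤ ((M : ℝ) ^ 2)⁻¹)]
    refine mul_le_mul_of_nonneg_left ?_ (by positivity)
    have e1 : ∑ x ∈ bx M, (g (rs W (y + x) (gl D b h)) - m x) =
        (∑ x ∈ bx M, (g (rs W (y + x) (gl D b h)) - g' (rs W (y + x) (gl D b h)))) +
        (Ls W g' (fun _ => 1) X (gl D b h) - ∑ x ∈ bx M, m' x) + ∑ x ∈ bx M, (m' x - m x) := by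
      rw [hLs, ← Finset.sum_sub_distrib, ← Finset.sum_add_distrib, ← Finset.sum_add_distrib]
      exact Finset.sum_congr rfl fun x _ => by ring
    rw [e1]
    refine (abs_add_le _ _).trans (add_le_add ((abs_add_le _ _).trans (add_le_add ?_ le_rfl)) ?_)
    · exact Finset.abs_sum_le_sum_abs _ _
    · exact Finset.abs_sum_le_sum_abs _ _
  have iR : Integrable (fun h => ((M : ℝ) ^ 2)⁻¹ * ((∑ x ∈ bx M, |g (rs W (y + x) (gl D b h)) -
        g' (rs W (y + x) (gl D b h))|) + |Ls W g' (fun _ => 1) X (gl D b h) - ∑ x ∈ bx M, m' x| +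
        ∑ x ∈ bx M, |m' x - m x|)) μ :=
    ((iS.add iL).add (integrable_const _)).const_mul _
  have iLe : Integrable (fun h => |((M : ℝ) ^ 2)⁻¹ *
      ∑ x ∈ bx M, (g (rs W (y + x) (gl D b h)) - m x)|) μ :=
    ((integrable_finsetSum _ fun x _ => (iG x).sub (integrable_const _)).const_mul _).abs
  refine (integral_mono iLe iR hpt).trans ?_
  rw [integral_const_mul]
  have iSL : Integrable (fun h => (∑ x ∈ bx M, |g (rs W (y + x) (gl D b h)) -
        g' (rs W (y + x) (gl D b h))|) + |Ls W g' (fun _ => 1) X (gl D b h) - ∑ x ∈ bx M, m' x|) μ :=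
    iS.add iL
  rw [integral_add iSL (integrable_const _), integral_add iS iL,
    integral_finsetSum _ fun x _ => iD x, integral_const, probReal_univ, one_smul]
  have h1 : ∑ x ∈ bx M, ∫ h, |g (rs W (y + x) (gl D b h)) - g' (rs W (y + x) (gl D b h))| ∂μ ≤
      (M : ℝ) ^ 2 * (ε / 4) := by
    refine (Finset.sum_le_sum hdx).trans ?_
    rw [Finset.sum_const, nsmul_eq_mul, wq_card]
  have h2 : ∑ x ∈ bx M, |m' x - m x| ≤ (M : ℝ) ^ 2 * (ε / 4) := by
    refine (Finset.sum_le_sum hmx).trans ?_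
    rw [Finset.sum_const, nsmul_eq_mul, wq_card]
  have h3 : A * (M : ℝ) ≤ (M : ℝ) ^ 2 * (ε / 2) := by
    have h4 : 2 * A ≤ M * ε := by
      rw [div_le_iff₀ hε] at hMA
      exact hMA
    nlinarith
  rw [inv_mul_le_iff₀ (by positivity)]
  linarith

/- END wq -/

end Pool.Agent.Hgf
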