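import Pool.Agent.Hmk.Sz

/-!
# Hgf (MP_161523_pr, Q2): the Helffer–Sjöstrand representation of nonlinear functions

`hs_exists` of `Hmk.Sz` for a smooth function `F` with bounded gradient in place of a linear one.
-/

set_option autoImplicit false

open MeasureTheory Set Filter

open scoped ENNReal SchwartzMap ContDiff Topology

noncomputable section

namespace Pool.Agent.Hgf

open Pool.Agent.Hmk

variable {ι : Type*} [Fintype ι] [DecidableEq ι]

/-- smooth functions of temperate growth with bounded gradient -/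
structure Fok (F : (ι → ℝ) → ℝ) (C : ℝ) : Prop where
  temp : F.HasTemperateGrowth
  grad : ∀ x h, |pd x F h| ≤ C

/-- the mean of `F` for the density `e^{-V}` -/
def mnF (V F : (ι → ℝ) → ℝ) : ℝ :=
  (∫ h, F h * Real.exp (- V h)) / ∫ h, Real.exp (- V h)

/-- the unnormalised variance -/
def L2F (V F : (ι → ℝ) → ℝ) : ℝ :=
  ∫ h, (F h - mnF V F) ^ 2 * Real.exp (- V h)

/-- `(F - mean) e^{-V/2}` -/
def LfF (V F : (ι → ℝ) → ℝ) (h : ι → ℝ) : ℝ :=
  (F h - mnF V F) * Real.exp (- V h / 2)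

/- MODULE na
`F` is Lipschitz: `|F h - F 0| ≤ C * card ι * ‖h‖` (mean value theorem,
`fderiv F h k = ∑ k x * pd x F h` as in `Hmk.fderiv_le`). -/

omit [DecidableEq ι] in
private theorem na_norm (k : ι → ℝ) : ∑ x, |k x| ≤ (Fintype.card ι : ℝ) * ‖k‖ := by
  calc ∑ x, |k x| ≤ ∑ _x : ι, ‖k‖ := Finset.sum_le_sum fun x _ => norm_le_pi_norm k x
    _ = (Fintype.card ι : ℝ) * ‖k‖ := by
        rw [Finset.sum_const, Finset.card_univ, nsmul_eq_mul]

private theorem na_fd (F : (ι → ℝ) → ℝ) (y k : ι → ℝ) :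
    fderiv ℝ F y k = ∑ x, k x * pd x F y := by
  have h1 : k = ∑ x, k x • (Pi.single x (1 : ℝ) : ι → ℝ) := by
    funext z
    simp [Finset.sum_apply, Pi.single_apply]
  conv_lhs => rw [h1]
  rw [map_sum]
  refine Finset.sum_congr rfl fun x _ => ?_
  rw [map_smul]
  rfl

theorem Fok.lip {F : (ι → ℝ) → ℝ} {C : ℝ} (hF : Fok F C) (h k : ι → ℝ) :
    |F h - F k| ≤ C * (Fintype.card ι : ℝ) * ‖h - k‖ := by
  have hd : Differentiable ℝ F := hF.temp.1.differentiable (by simp)
  rcases isEmpty_or_nonempty ι with hι | hι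
  · have e : h = k := Subsingleton.elim _ _
    rw [e]
    simp
  have hC : 0 ≤ C := (abs_nonneg _).trans (hF.grad (Classical.arbitrary ι) 0)
  have hb : ∀ y ∈ (Set.univ : Set (ι → ℝ)), ‖fderiv ℝ F y‖ ≤ C * (Fintype.card ι : ℝ) := by
    intro y _
    refine ContinuousLinearMap.opNorm_le_bound _ (by positivity) fun v => ?_
    rw [na_fd, Real.norm_eq_abs]
    calc |∑ x, v x * pd x F y| ≤ ∑ x, |v x * pd x F y| := Finset.abs_sum_le_sum_abs _ _
      _ ≤ ∑ x, |v x| * C := by
          refine Finset.sum_le_sum fun x _ => ?_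
          rw [abs_mul]
          exact mul_le_mul_of_nonneg_left (hF.grad x y) (abs_nonneg _)
      _ = (∑ x, |v x|) * C := by rw [Finset.sum_mul]
      _ ≤ ((Fintype.card ι : ℝ) * ‖v‖) * C := mul_le_mul_of_nonneg_right (na_norm v) hC
      _ = C * (Fintype.card ι : ℝ) * ‖v‖ := by ring
  have := convex_univ.norm_image_sub_le_of_norm_fderiv_le (𝕜 := ℝ) (f := F)
    (fun y _ => hd y) hb (Set.mem_univ k) (Set.mem_univ h)
  rw [Real.norm_eq_abs] at this
  exact this

/- END na -/

/- MODULE nb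
As `Lf_mem`, `Lf_sq`, `Lf_zero` of `Hmk.Sz` (modules sk there; copy the proofs), with
`|F h| ≤ |F 0| + C * card ι * ‖h‖` (`Fok.lip`) and `exp_int`. -/

private theorem nb_lip {F : (ι → ℝ) → ℝ} {C : ℝ} (hF : Fok F C) (m : ℝ) :
    ∃ B : ℝ, 0 ≤ B ∧ ∀ h, |F h - m| ≤ B * ‖h‖ + B := by
  refine ⟨|C * (Fintype.card ι : ℝ)| + |F 0 - m|, by positivity, fun h => ?_⟩
  have h1 := hF.lip h 0
  rw [sub_zero] at h1
  have h2 : |F h - m| ≤ |F h - F 0| + |F 0 - m| := by
    have := abs_add_le (F h - F 0) (F 0 - m)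
    rwa [sub_add_sub_cancel] at this
  have h3 : C * (Fintype.card ι : ℝ) * ‖h‖ ≤ |C * (Fintype.card ι : ℝ)| * ‖h‖ :=
    mul_le_mul_of_nonneg_right (le_abs_self _) (norm_nonneg _)
  have h4 : 0 ≤ |F 0 - m| * ‖h‖ := by positivity
  have h5 : 0 ≤ |C * (Fintype.card ι : ℝ)| := abs_nonneg _
  linarith

omit [DecidableEq ι] in
private theorem nb_exp (t : ℝ) : Real.exp (- t / 2) * Real.exp (- t / 2) = Real.exp (- t) := by
  rw [← Real.exp_add]
  congr 1
  ring

private theorem nb_cont {F : (ι → ℝ) → ℝ} {C : ℝ} (hF : Fok F C) (m : ℝ) :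
    Continuous (fun h => F h - m) := hF.temp.1.continuous.sub continuous_const

theorem LfF_int {V : (ι → ℝ) → ℝ} (hV : Continuous V) {a A : ℝ} (ha : 0 < a)
    (hlow : ∀ h, a * ‖h‖ - A ≤ V h) {F : (ι → ℝ) → ℝ} {C : ℝ} (hF : Fok F C) (m : ℝ) :
    Integrable (fun h => (F h - m) ^ 2 * Real.exp (- V h)) ∧
      Integrable (fun h => (F h - m) * Real.exp (- V h)) := by
  obtain ⟨B, hB0, hB⟩ := nb_lip hF m
  have h0 := exp_int hV ha hlow 0 (one_pos)
  have h1 := exp_int hV ha hlow 1 (one_pos)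
  have h2 := exp_int hV ha hlow 2 (one_pos)
  constructor
  · refine Integrable.mono' ((h2.const_mul (2 * B ^ 2)).add (h0.const_mul (2 * B ^ 2))) ?_ ?_
    · exact (((nb_cont hF m).pow 2).mul (Real.continuous_exp.comp hV.neg)).aestronglyMeasurable
    · refine Filter.Eventually.of_forall fun h => ?_
      simp only [Pi.add_apply, pow_zero, one_mul, neg_mul]
      rw [Real.norm_eq_abs, abs_mul, abs_of_pos (Real.exp_pos _), abs_of_nonneg (sq_nonneg _)]
      have h3 : (F h - m) ^ 2 ≤ (B * ‖h‖ + B) ^ 2 :=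
        sq_le_sq' (by linarith [(abs_le.1 (hB h)).1]) (abs_le.1 (hB h)).2
      have h4 : (F h - m) ^ 2 ≤ 2 * B ^ 2 * ‖h‖ ^ 2 + 2 * B ^ 2 := by
        nlinarith [sq_nonneg (B * ‖h‖ - B)]
      have h5 := mul_le_mul_of_nonneg_right h4 (Real.exp_pos (- V h)).le
      linarith
  · refine Integrable.mono' ((h1.const_mul B).add (h0.const_mul B)) ?_ ?_
    · exact ((nb_cont hF m).mul (Real.continuous_exp.comp hV.neg)).aestronglyMeasurable
    · refine Filter.Eventually.of_forall fun h => ?_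
      simp only [Pi.add_apply, pow_zero, pow_one, one_mul, neg_mul]
      rw [Real.norm_eq_abs, abs_mul, abs_of_pos (Real.exp_pos _)]
      have h3 := mul_le_mul_of_nonneg_right (hB h) (Real.exp_pos (- V h)).le
      linarith

theorem LfF_mem {V : (ι → ℝ) → ℝ} (hV : Continuous V) {a A : ℝ} (ha : 0 < a)
    (hlow : ∀ h, a * ‖h‖ - A ≤ V h) {F : (ι → ℝ) → ℝ} {C : ℝ} (hF : Fok F C) :
    MemLp (LfF V F) 2 := by
  have hm : AEStronglyMeasurable (LfF V F) volume := by
    refine Continuous.aestronglyMeasurable ?_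
    exact (nb_cont hF (mnF V F)).mul (Real.continuous_exp.comp (hV.neg.div_const 2))
  rw [memLp_two_iff_integrable_sq hm]
  refine (LfF_int hV ha hlow hF (mnF V F)).1.congr (Filter.Eventually.of_forall fun h => ?_)
  simp only [LfF]
  rw [mul_pow, sq (Real.exp (- V h / 2)), nb_exp]

theorem LfF_sq (V F : (ι → ℝ) → ℝ) : ∫ h, (LfF V F h) ^ 2 = L2F V F := by
  unfold L2F
  refine integral_congr_ae (Filter.Eventually.of_forall fun h => ?_)
  simp only [LfF]
  rw [mul_pow, sq (Real.exp (- V h / 2)), nb_exp]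

theorem LfF_zero {V : (ι → ℝ) → ℝ} (hV : Continuous V) {a A : ℝ} (ha : 0 < a)
    (hlow : ∀ h, a * ‖h‖ - A ≤ V h) {F : (ι → ℝ) → ℝ} {C : ℝ} (hF : Fok F C) :
    ∫ h, Real.exp (- V h / 2) * LfF V F h = 0 := by
  have e1 : ∫ h, Real.exp (- V h / 2) * LfF V F h =
      ∫ h, (F h * Real.exp (- V h) - mnF V F * Real.exp (- V h)) := by
    refine integral_congr_ae (Filter.Eventually.of_forall fun h => ?_)
    simp only [LfF]
    rw [← nb_exp (V h)]
    ring
  have i1 : Integrable (fun h => F h * Real.exp (- V h)) := by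
    have := (LfF_int hV ha hlow hF 0).2
    simpa only [sub_zero] using this
  have i0 : Integrable (fun h : ι → ℝ => Real.exp (- V h)) := by
    have := exp_int hV ha hlow 0 (one_pos)
    simpa only [pow_zero, one_mul, neg_mul] using this
  have hpos : 0 < ∫ h, Real.exp (- V h) := integral_exp_pos i0
  rw [e1, integral_sub i1 (i0.const_mul _), integral_const_mul]
  unfold mnF
  rw [div_mul_cancel₀ _ hpos.ne', sub_self]

/- END nb -/

/- MODULE nc
As `Lf_ad` of `Hmk.Sz` (module sl there; copy the proof with `F - mnF V F` in place of the linear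
function; it has temperate growth, and its derivative is `pd x F`). -/

theorem LfF_ad {V : (ι → ℝ) → ℝ} (hV : V.HasTemperateGrowth) {a A : ℝ} (ha : 0 < a)
    (hlow : ∀ h, a * ‖h‖ - A ≤ V h) {F : (ι → ℝ) → ℝ} {C : ℝ} (hF : Fok F C) (x : ι)
    (f : 𝓢(ι → ℝ, ℝ)) :
    ∫ h, LfF V F h * ad V x f h = ∫ h, pd x F h * f h * Real.exp (- V h / 2) := by
  have hFd : Differentiable ℝ F := hF.temp.1.differentiable (by simp)
  have hVd : Differentiable ℝ V := hV.1.differentiable (by simp)
  have hVc : Continuous V := hVd.continuous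
  have hGt : (fun h => F h - mnF V F).HasTemperateGrowth :=
    hF.temp.sub (Function.HasTemperateGrowth.const (mnF V F))
  have hpt : (pd x F).HasTemperateGrowth := pd_temp hF.temp x
  set E : (ι → ℝ) → ℝ := fun h => Real.exp (- V h / 2) with hE
  have hEd : Differentiable ℝ E := by
    have h1 : Differentiable ℝ (fun h => - V h / 2) := by fun_prop
    exact h1.exp
  have hEc : Continuous E := hEd.continuous
  have hEb : ∀ h, ‖E h‖ ≤ Real.exp (A / 2) := by
    intro h
    rw [Real.norm_eq_abs, abs_of_pos (Real.exp_pos _)]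
    exact exp_bdd ha hlow h
  have hES : ∀ φ : 𝓢(ι → ℝ, ℝ), Integrable (fun h => E h * φ h) := by
    intro φ
    exact φ.integrable.bdd_mul hEc.aestronglyMeasurable (Filter.Eventually.of_forall hEb)
  have hEp : ∀ h, pd x E h = - (pd x V h / 2) * E h := by
    intro h
    have hd : HasFDerivAt E (Real.exp (- V h / 2) • ((2 : ℝ)⁻¹ • (- fderiv ℝ V h))) h := by
      have h1 : HasFDerivAt (fun k => - V k / 2) ((2 : ℝ)⁻¹ • (- fderiv ℝ V h)) h := by
        have := ((hVd h).hasFDerivAt.neg).const_mul (2 : ℝ)⁻¹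
        refine this.congr_of_eventuallyEq (Filter.Eventually.of_forall fun k => ?_)
        simp only [Pi.neg_apply]
        ring
      exact h1.exp
    unfold pd
    rw [hd.fderiv]
    simp only [smul_apply, neg_apply, smul_eq_mul, hE]
    ring
  set P : 𝓢(ι → ℝ, ℝ) := mu (fun h => F h - mnF V F) f with hP
  have hPa : ∀ h, P h = (F h - mnF V F) * f h := fun h => mu_apply hGt f h
  have hPp : ∀ h, pd x P h = pd x F h * f h + (F h - mnF V F) * pd x f h := by
    intro h
    have e : (P : (ι → ℝ) → ℝ) = fun h => (F h - mnF V F) * f h := funext hPa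
    have hd : HasFDerivAt (fun h => F h - mnF V F) (fderiv ℝ F h) h :=
      (hFd h).hasFDerivAt.sub_const _
    rw [e, pd_mul hd.differentiableAt (f.differentiableAt)]
    congr 1
    congr 1
    unfold pd
    rw [hd.fderiv]
  have hmt : (fun h => pd x V h / 2).HasTemperateGrowth := by
    have h1 := (pd_temp hV x).mul (Function.HasTemperateGrowth.const (2 : ℝ)⁻¹)
    have e : (fun h => pd x V h / 2) = (fun h => pd x V h * (2 : ℝ)⁻¹) := by
      funext h
      rw [div_eq_mul_inv]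
    rw [e]
    exact h1
  have i1 : Integrable (fun h => E h * fderiv ℝ P h (Pi.single x 1)) := by
    have := hES (dx x P)
    refine this.congr (Filter.Eventually.of_forall fun h => ?_)
    simp only [dx_apply, pd]
  have i2 : Integrable (fun h => E h * P h) := hES P
  have i3 : Integrable (fun h => fderiv ℝ E h (Pi.single x 1) * P h) := by
    have := (hES (mu (fun h => pd x V h / 2) P)).neg
    refine this.congr (Filter.Eventually.of_forall fun h => ?_)
    have h2 := hEp h
    unfold pd at h2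
    simp only [Pi.neg_apply]
    rw [h2, mu_apply hmt]
    simp only [pd]
    ring
  have key := integral_mul_fderiv_eq_neg_fderiv_mul_of_integrable (μ := volume) i3 i1 i2
    (fun y _ => hEd y) (fun y _ => P.differentiableAt)
  have k2 : Integrable (fun h => LfF V F h * pd x f h) := by
    have := hES (mu (fun h => F h - mnF V F) (dx x f))
    refine this.congr (Filter.Eventually.of_forall fun h => ?_)
    simp only [mu_apply hGt, dx_apply, LfF, hE]
    ring
  have k1 : Integrable (fun h => pd x F h * f h * E h) := by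
    have := hES (mu (pd x F) f)
    refine this.congr (Filter.Eventually.of_forall fun h => ?_)
    simp only [mu_apply hpt]
    ring
  have j1 : ∫ h, E h * fderiv ℝ P h (Pi.single x 1) =
      (∫ h, pd x F h * f h * E h) + ∫ h, LfF V F h * pd x f h := by
    rw [← integral_add k1 k2]
    refine integral_congr_ae (Filter.Eventually.of_forall fun h => ?_)
    have := hPp h
    unfold pd at this
    simp only [this, LfF, hE, pd]
    ring
  have j2 : ∫ h, fderiv ℝ E h (Pi.single x 1) * P h =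
      - ∫ h, LfF V F h * (pd x V h / 2 * f h) := by
    rw [← integral_neg]
    refine integral_congr_ae (Filter.Eventually.of_forall fun h => ?_)
    have h2 := hEp h
    unfold pd at h2
    show fderiv ℝ E h (Pi.single x 1) * P h = - (LfF V F h * (pd x V h / 2 * f h))
    rw [h2, hPa]
    simp only [LfF, hE, pd]
    ring
  rw [j1, j2, neg_neg] at key
  have k3 : Integrable (fun h => LfF V F h * (pd x V h / 2 * f h)) := by
    have := hES (mu (fun h => pd x V h / 2) P)
    refine this.congr (Filter.Eventually.of_forall fun h => ?_)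
    simp only [mu_apply hmt, hPa, LfF, hE]
    ring
  have e1 : ∫ h, LfF V F h * ad V x f h =
      ∫ h, (LfF V F h * (pd x V h / 2 * f h) - LfF V F h * pd x f h) := by
    refine integral_congr_ae (Filter.Eventually.of_forall fun h => ?_)
    simp only [ad_apply hV]
    ring
  rw [e1, integral_sub k3 k2]
  linarith

/- END nc -/

/- MODULE nd
The potential: first part of the proof of `hs_exists` (`approx_of_orth`, `kernel_one`,
`kernel_two`, `LfF_zero`). -/

theorem hs_pot {V : (ι → ℝ) → ℝ} (hV : V.HasTemperateGrowth)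
    (h1 : ∃ C : ℝ, ∀ h, |Wf V h| ≤ C) {a A : ℝ} (ha : 0 < a)
    (hlow : ∀ h, a * ‖h‖ - A ≤ V h) {F : (ι → ℝ) → ℝ} {C : ℝ} (hF : Fok F C) {η : ℝ}
    (hη : 0 < η) : ∃ f : 𝓢(ι → ℝ, ℝ), ∫ h, (Ao V f h - LfF V F h) ^ 2 ≤ η := by
  have hVc : Continuous V := hV.1.continuous
  exact approx_of_orth (Ao V) (Ao_add V) (Ao_smul V) (LfF_mem hVc ha hlow hF) (fun ψ hψ H => by
    have h2 : ∀ (x : ι) (g : 𝓢(ι → ℝ, ℝ)), ∫ h, ψ h * ad V x g h = 0 :=
      fun x g => kernel_one hV h1 hψ H x g
    obtain ⟨r, hr⟩ := kernel_two hV hψ h2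
    have h3 : ∫ h, ψ h * LfF V F h = ∫ h, r * (Real.exp (- V h / 2) * LfF V F h) := by
      refine integral_congr_ae ?_
      filter_upwards [hr] with h hh
      rw [hh]; ring
    rw [h3, integral_const_mul, LfF_zero hVc ha hlow hF, mul_zero]) hη

/- END nd -/

/- MODULE ne
As the rest of the proof of `hs_exists`: `φ x = av V x f` with `f` from `hs_pot`. -/

omit [DecidableEq ι] in
private theorem ne_inner {f g : (ι → ℝ) → ℝ} (hf : MemLp f 2 (volume : Measure (ι → ℝ)))
    (hg : MemLp g 2 (volume : Measure (ι → ℝ))) :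
    inner ℝ (hf.toLp f) (hg.toLp g) = ∫ h, f h * g h := by
  rw [L2.inner_def]
  refine integral_congr_ae ?_
  filter_upwards [hf.coeFn_toLp, hg.coeFn_toLp] with h h1 h2
  rw [h1, h2]
  simp [mul_comm]

omit [DecidableEq ι] in
private theorem ne_sq {f : (ι → ℝ) → ℝ} (hf : MemLp f 2 (volume : Measure (ι → ℝ))) :
    ‖hf.toLp f‖ ^ 2 = ∫ h, (f h) ^ 2 := by
  rw [← real_inner_self_eq_norm_sq, ne_inner]
  simp [pow_two]

theorem hs_nl {V : (ι → ℝ) → ℝ} (hV : V.HasTemperateGrowth)
    (h1 : ∃ C : ℝ, ∀ h, |Wf V h| ≤ C) {a A : ℝ} (ha : 0 < a)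
    (hlow : ∀ h, a * ‖h‖ - A ≤ V h) {F : (ι → ℝ) → ℝ} {C : ℝ} (hF : Fok F C) {η : ℝ}
    (hη : 0 < η) :
    ∃ f : 𝓢(ι → ℝ, ℝ),
      L2F V F ≤ (∑ x, ∫ h, pd x F h * av V x f h * Real.exp (- V h / 2)) + η ∧
      (∑ x, ∑ y, ∫ h, (av V y (av V x f) h) ^ 2) +
        ∫ h, ∑ x, ∑ y, pd y (pd x V) h * av V x f h * av V y f h ≤ L2F V F + η ∧
      ∫ h, (Ao V f h - LfF V F h) ^ 2 ≤ η := by
  have hVc : Continuous V := hV.1.continuous
  have hLm := LfF_mem hVc ha hlow hF
  set B := Real.sqrt (L2F V F) with hB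
  have hB0 : 0 ≤ B := Real.sqrt_nonneg _
  have hL0 : 0 ≤ L2F V F := by
    unfold L2F
    exact integral_nonneg (fun h => by positivity)
  have hBsq : B ^ 2 = L2F V F := Real.sq_sqrt hL0
  set e := min (min 1 η) (η / (2 * B + 1)) with he
  have he0 : 0 < e := lt_min (lt_min one_pos hη) (by positivity)
  have he1 : e ≤ 1 := (min_le_left _ _).trans (min_le_left _ _)
  have he3 : e ≤ η := (min_le_left _ _).trans (min_le_right _ _)
  have he2 : e * (2 * B + 1) ≤ η := by
    have : e ≤ η / (2 * B + 1) := min_le_right _ _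
    rwa [le_div_iff₀ (by positivity)] at this
  obtain ⟨f, hf⟩ := hs_pot hV h1 ha hlow hF (pow_pos he0 2)
  have haM := (Ao V f).memLp 2 (volume : Measure (ι → ℝ))
  have hl2 : ‖hLm.toLp (LfF V F)‖ ^ 2 = B ^ 2 := by
    rw [ne_sq, LfF_sq, hBsq]
  have hl : ‖hLm.toLp (LfF V F)‖ = B :=
    (pow_left_inj₀ (norm_nonneg _) hB0 (by norm_num)).1 hl2
  have hd : ‖haM.toLp (Ao V f) - hLm.toLp (LfF V F)‖ ≤ e := by
    have : ‖haM.toLp (Ao V f) - hLm.toLp (LfF V F)‖ ^ 2 ≤ e ^ 2 := by
      rw [← MemLp.toLp_sub, ne_sq]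
      exact hf
    exact (pow_le_pow_iff_left₀ (norm_nonneg _) he0.le (by norm_num)).1 this
  have hLint : ∀ g : 𝓢(ι → ℝ, ℝ), Integrable (fun h => LfF V F h * g h) := fun g =>
    hLm.integrable_mul (g.memLp 2 _)
  have hla : ∫ h, LfF V F h * Ao V f h =
      ∑ x, ∫ h, pd x F h * av V x f h * Real.exp (- V h / 2) := by
    have h3 : ∀ h, LfF V F h * Ao V f h = ∑ x, LfF V F h * ad V x (av V x f) h := by
      intro h
      simp only [Ao, SchwartzMap.sum_apply, Finset.mul_sum]
    simp_rw [h3]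
    rw [integral_finsetSum _ (fun x _ => hLint _)]
    exact Finset.sum_congr rfl (fun x _ => LfF_ad hV ha hlow hF x (av V x f))
  refine ⟨f, ?_, ?_, ?_⟩
  · rw [← hla]
    have h4 : inner ℝ (hLm.toLp (LfF V F)) (hLm.toLp (LfF V F)) =
        inner ℝ (hLm.toLp (LfF V F)) (haM.toLp (Ao V f)) -
          inner ℝ (hLm.toLp (LfF V F)) (haM.toLp (Ao V f) - hLm.toLp (LfF V F)) := by
      rw [inner_sub_right]; ring
    have h5 : |inner ℝ (hLm.toLp (LfF V F)) (haM.toLp (Ao V f) - hLm.toLp (LfF V F))| ≤ B * e := by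
      refine (abs_real_inner_le_norm _ _).trans ?_
      rw [hl]
      exact mul_le_mul_of_nonneg_left hd hB0
    rw [real_inner_self_eq_norm_sq, hl2, hBsq, ne_inner] at h4
    have := abs_le.1 h5
    have h6 : B * e ≤ η := by nlinarith
    linarith [this.1]
  · rw [← bochner hV f, ← ne_sq haM]
    have h7 : ‖haM.toLp (Ao V f)‖ ≤ B + e := by
      have := norm_add_le (haM.toLp (Ao V f) - hLm.toLp (LfF V F)) (hLm.toLp (LfF V F))
      rw [sub_add_cancel, hl] at this
      linarith
    have h8 : ‖haM.toLp (Ao V f)‖ ^ 2 ≤ (B + e) ^ 2 := by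
      gcongr
    nlinarith
  · refine hf.trans ?_
    nlinarith

/- END ne -/

end Pool.Agent.Hgf
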