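import Mathlib

/-!
# Hgf (MP_161523_pr, Q2): the path lemma

`μ` a finite measure, `X ≥ 0` a bounded function, the measures `e^{-t X} μ`.  If the variance of `G`
is at most `V` for all `t ∈ [0, T]`, then the means of `G` at `0` and `T` differ by at most
`√V (√(a E_0 X) + √(log (T / a) log (Z_0 / Z_T)))`.
-/

set_option autoImplicit false

open MeasureTheory Set Filter

open scoped ENNReal ContDiff Topology

noncomputable section

namespace Pool.Agent.Hgf

variable {Ω : Type*} [MeasurableSpace Ω]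

/-- `∫ G e^{-t X}` -/
def It (μ : Measure Ω) (X : Ω → ℝ) (G : Ω → ℝ) (t : ℝ) : ℝ :=
  ∫ x, G x * Real.exp (- (t * X x)) ∂μ

/-- the partition function -/
def Zt (μ : Measure Ω) (X : Ω → ℝ) (t : ℝ) : ℝ := It μ X (fun _ => 1) t

/-- the mean -/
def Mt (μ : Measure Ω) (X : Ω → ℝ) (G : Ω → ℝ) (t : ℝ) : ℝ := It μ X G t / Zt μ X t

/-- the variance -/
def Vt (μ : Measure Ω) (X : Ω → ℝ) (G : Ω → ℝ) (t : ℝ) : ℝ :=
  Mt μ X (fun x => (G x - Mt μ X G t) ^ 2) t

/-- bounded measurable functions (almost everywhere) -/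
structure Bd (μ : Measure Ω) (G : Ω → ℝ) (B : ℝ) : Prop where
  meas : Measurable G
  bdd : ∀ᵐ x ∂μ, |G x| ≤ B

/- MODULE ua
`hasDerivAt_integral_of_dominated_loc_of_deriv_le` with the bound
`B * B' * e^{(|t| + 1) B'}` on `(t - 1, t + 1)`. -/

private theorem ua_mul {μ : Measure Ω} {X G : Ω → ℝ} {B B' : ℝ} (hX : Bd μ X B')
    (hG : Bd μ G B) : Bd μ (fun x => X x * G x) (B' * B) := by
  refine ⟨hX.meas.mul hG.meas, ?_⟩
  filter_upwards [hX.bdd, hG.bdd] with x h1 h2
  rw [abs_mul]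
  exact mul_le_mul h1 h2 (abs_nonneg _) ((abs_nonneg _).trans h1)

private theorem ua_meas {X G : Ω → ℝ} (hX : Measurable X) (hG : Measurable G) (t : ℝ) :
    Measurable (fun x => G x * Real.exp (- (t * X x))) :=
  hG.mul ((hX.const_mul t).neg.exp)

private theorem ua_exp {x t c B' : ℝ} (h1 : |x| ≤ B') (h2 : |t| ≤ c) :
    Real.exp (- (t * x)) ≤ Real.exp (c * B') := by
  apply Real.exp_le_exp.2
  calc -(t * x) ≤ |t * x| := neg_le_abs _
    _ = |t| * |x| := abs_mul _ _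
    _ ≤ c * B' := mul_le_mul h2 h1 (abs_nonneg _) ((abs_nonneg _).trans h2)

private theorem ua_int {μ : Measure Ω} [IsFiniteMeasure μ] {X G : Ω → ℝ} {B B' : ℝ}
    (hX : Bd μ X B') (hG : Bd μ G B) (t : ℝ) :
    Integrable (fun x => G x * Real.exp (- (t * X x))) μ := by
  refine Integrable.of_bound (ua_meas hX.meas hG.meas t).aestronglyMeasurable
    (B * Real.exp (|t| * B')) ?_
  filter_upwards [hX.bdd, hG.bdd] with x h1 h2
  rw [Real.norm_eq_abs, abs_mul, Real.abs_exp]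
  exact mul_le_mul h2 (ua_exp h1 le_rfl) (Real.exp_pos _).le ((abs_nonneg _).trans h2)

theorem It_deriv {μ : Measure Ω} [IsFiniteMeasure μ] {X G : Ω → ℝ} {B B' : ℝ} (hX : Bd μ X B')
    (hG : Bd μ G B) (t : ℝ) :
    HasDerivAt (It μ X G) (- It μ X (fun x => X x * G x) t) t := by
  have key := hasDerivAt_integral_of_dominated_loc_of_deriv_le (μ := μ)
    (F := fun s x => G x * Real.exp (- (s * X x)))
    (F' := fun s x => - (X x * G x * Real.exp (- (s * X x)))) (x₀ := t)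
    (bound := fun _ => B' * B * Real.exp ((|t| + 1) * B')) (s := Metric.ball t 1)
    (Metric.ball_mem_nhds t one_pos)
    (Eventually.of_forall fun s => (ua_meas hX.meas hG.meas s).aestronglyMeasurable)
    (ua_int hX hG t) (ua_meas hX.meas (hX.meas.mul hG.meas) t).neg.aestronglyMeasurable
    ?_ (integrable_const _) ?_
  · have h2 := key.2
    rw [integral_neg] at h2
    exact h2
  · filter_upwards [hX.bdd, hG.bdd] with x h1 h2 s hs
    rw [Metric.mem_ball, Real.dist_eq] at hs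
    have hs' : |s| ≤ |t| + 1 := by
      have := abs_sub_abs_le_abs_sub s t
      linarith
    rw [norm_neg, Real.norm_eq_abs, abs_mul, abs_mul, Real.abs_exp]
    refine mul_le_mul (mul_le_mul h1 h2 (abs_nonneg _) ((abs_nonneg _).trans h1))
      (ua_exp h1 hs') (Real.exp_pos _).le (mul_nonneg ((abs_nonneg _).trans h1)
        ((abs_nonneg _).trans h2))
  · refine Eventually.of_forall fun x s _ => ?_
    have h1 : HasDerivAt (fun s : ℝ => - (s * X x)) (- (1 * X x)) s :=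
      ((hasDerivAt_id s).mul_const (X x)).neg
    have h2 := (h1.exp).const_mul (G x)
    have e : G x * (Real.exp (- (s * X x)) * (- (1 * X x))) =
        - (X x * G x * Real.exp (- (s * X x))) := by ring
    rw [e] at h2
    exact h2

private theorem ua_one (μ : Measure Ω) : Bd μ (fun _ : Ω => (1 : ℝ)) 1 :=
  ⟨measurable_const, Eventually.of_forall fun _ => by simp⟩

theorem Zt_pos {μ : Measure Ω} [IsFiniteMeasure μ] (hμ : μ ≠ 0) {X : Ω → ℝ} {B' : ℝ}
    (hX : Bd μ X B') (t : ℝ) : 0 < Zt μ X t := by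
  have : NeZero μ := ⟨hμ⟩
  have h1 := ua_int hX (ua_one μ) t
  simp only [one_mul] at h1
  have h2 := integral_exp_pos h1
  simpa only [Zt, It, one_mul] using h2

/- END ua -/

/- MODULE ub
Quotient rule; `Cov = Mt ((X - m) (G - n))` and the Cauchy-Schwarz inequality. -/

private theorem ub_Zd {μ : Measure Ω} [IsFiniteMeasure μ] {X : Ω → ℝ} {B' : ℝ}
    (hX : Bd μ X B') (t : ℝ) : HasDerivAt (Zt μ X) (- It μ X X t) t := by
  have h := It_deriv hX (ua_one μ) t
  simp only [mul_one] at h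
  exact h

theorem Mt_deriv {μ : Measure Ω} [IsFiniteMeasure μ] (hμ : μ ≠ 0) {X G : Ω → ℝ} {B B' : ℝ}
    (hX : Bd μ X B') (hG : Bd μ G B) (t : ℝ) :
    HasDerivAt (Mt μ X G) (- (Mt μ X (fun x => X x * G x) t - Mt μ X X t * Mt μ X G t)) t := by
  have hz := (Zt_pos hμ hX t).ne'
  have h := (It_deriv hX hG t).div (ub_Zd hX t) hz
  have e : ((- It μ X (fun x => X x * G x) t) * Zt μ X t - It μ X G t * (- It μ X X t)) /
      (Zt μ X t) ^ 2 = - (Mt μ X (fun x => X x * G x) t - Mt μ X X t * Mt μ X G t) := by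
    simp only [Mt]
    field_simp
    ring
  rw [e] at h
  exact h

private theorem ub_nonneg {μ : Measure Ω} [IsFiniteMeasure μ] (hμ : μ ≠ 0) {X G : Ω → ℝ}
    {B' : ℝ} (hX : Bd μ X B') (h0 : ∀ᵐ x ∂μ, 0 ≤ G x) (t : ℝ) : 0 ≤ Mt μ X G t := by
  refine div_nonneg (integral_nonneg_of_ae ?_) (Zt_pos hμ hX t).le
  filter_upwards [h0] with x hx
  exact mul_nonneg hx (Real.exp_pos _).le

private theorem ub_lin {μ : Measure Ω} [IsFiniteMeasure μ] {X F G : Ω → ℝ} {B A B' : ℝ}
    (hX : Bd μ X B') (hF : Bd μ F A) (hG : Bd μ G B) (c d : ℝ) (t : ℝ) :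
    Mt μ X (fun x => c * F x + d * G x) t = c * Mt μ X F t + d * Mt μ X G t := by
  have h : It μ X (fun x => c * F x + d * G x) t = c * It μ X F t + d * It μ X G t := by
    simp only [It]
    rw [← integral_const_mul, ← integral_const_mul,
      ← integral_add ((ua_int hX hF t).const_mul c) ((ua_int hX hG t).const_mul d)]
    refine integral_congr_ae (Eventually.of_forall fun x => ?_)
    ring
  simp only [Mt, h]
  ring

private theorem ub_one {μ : Measure Ω} [IsFiniteMeasure μ] (hμ : μ ≠ 0) {X : Ω → ℝ}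
    {B' : ℝ} (hX : Bd μ X B') (t : ℝ) : Mt μ X (fun _ => 1) t = 1 := by
  have hz := (Zt_pos hμ hX t).ne'
  exact div_self hz

private theorem ub_bl {μ : Measure Ω} {F G : Ω → ℝ} {B A : ℝ} (hF : Bd μ F A) (hG : Bd μ G B)
    (c d : ℝ) : Bd μ (fun x => c * F x + d * G x) (|c| * A + |d| * B) := by
  refine ⟨(hF.meas.const_mul c).add (hG.meas.const_mul d), ?_⟩
  filter_upwards [hF.bdd, hG.bdd] with x h1 h2
  calc |c * F x + d * G x| ≤ |c * F x| + |d * G x| := abs_add_le _ _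
    _ = |c| * |F x| + |d| * |G x| := by rw [abs_mul, abs_mul]
    _ ≤ |c| * A + |d| * B := add_le_add (mul_le_mul_of_nonneg_left h1 (abs_nonneg _))
        (mul_le_mul_of_nonneg_left h2 (abs_nonneg _))

private theorem ub_cs {μ : Measure Ω} [IsFiniteMeasure μ] (hμ : μ ≠ 0) {X F G : Ω → ℝ}
    {B A B' : ℝ} (hX : Bd μ X B') (hF : Bd μ F A) (hG : Bd μ G B) (t : ℝ) :
    |Mt μ X (fun x => F x * G x) t| ≤ Real.sqrt (Mt μ X (fun x => F x * F x) t) *
      Real.sqrt (Mt μ X (fun x => G x * G x) t) := by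
  have key : ∀ s : ℝ, 0 ≤ Mt μ X (fun x => G x * G x) t * (s * s) +
      2 * Mt μ X (fun x => F x * G x) t * s + Mt μ X (fun x => F x * F x) t := by
    intro s
    have h1 : 0 ≤ Mt μ X (fun x => (F x + s * G x) * (F x + s * G x)) t :=
      ub_nonneg hμ hX (Eventually.of_forall fun x => mul_self_nonneg _) t
    have h2 := ub_lin hX (ub_bl (ua_mul hF hF) (ua_mul hF hG) 1 (2 * s)) (ua_mul hG hG) 1
      (s * s) t
    have h3 := ub_lin hX (ua_mul hF hF) (ua_mul hF hG) 1 (2 * s) t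
    rw [h3] at h2
    have h4 : (fun x => 1 * (1 * (F x * F x) + 2 * s * (F x * G x)) + s * s * (G x * G x)) =
        fun x => (F x + s * G x) * (F x + s * G x) := by
      funext x
      ring
    rw [h4] at h2
    rw [h2] at h1
    linarith
  have hd := discrim_le_zero key
  rw [discrim] at hd
  have hF0 : 0 ≤ Mt μ X (fun x => F x * F x) t :=
    ub_nonneg hμ hX (Eventually.of_forall fun x => mul_self_nonneg _) t
  rw [← Real.sqrt_mul hF0]
  apply Real.abs_le_sqrt
  nlinarith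

private theorem ub_cov {μ : Measure Ω} [IsFiniteMeasure μ] (hμ : μ ≠ 0) {X F G : Ω → ℝ} {B A B' : ℝ}
    (hX : Bd μ X B') (hF : Bd μ F A) (hG : Bd μ G B) (t : ℝ) :
    Mt μ X (fun x => (F x - Mt μ X F t) * (G x - Mt μ X G t)) t =
      Mt μ X (fun x => F x * G x) t - Mt μ X F t * Mt μ X G t := by
  have e : (fun x => (F x - Mt μ X F t) * (G x - Mt μ X G t)) =
      fun x => 1 * (1 * (F x * G x) + (- Mt μ X F t) * G x) +
        (- Mt μ X G t) * (1 * F x + (- Mt μ X F t) * 1) := by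
    funext x
    ring
  rw [e, ub_lin hX (ub_bl (ua_mul hF hG) hG _ _) (ub_bl hF (ua_one μ) _ _),
    ub_lin hX (ua_mul hF hG) hG, ub_lin hX hF (ua_one μ), ub_one hμ hX]
  ring

theorem cov_le {μ : Measure Ω} [IsFiniteMeasure μ] (hμ : μ ≠ 0) {X G : Ω → ℝ} {B B' : ℝ}
    (hX : Bd μ X B') (hG : Bd μ G B) (t : ℝ) :
    |Mt μ X (fun x => X x * G x) t - Mt μ X X t * Mt μ X G t| ≤
      Real.sqrt (Vt μ X X t) * Real.sqrt (Vt μ X G t) := by
  rw [← ub_cov hμ hX hX hG t]
  have h1 := ub_bl hX (ua_one μ) 1 (- Mt μ X X t)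
  have h2 := ub_bl hG (ua_one μ) 1 (- Mt μ X G t)
  have h := ub_cs hμ hX h1 h2 t
  have e1 : (fun x => (1 * X x + (- Mt μ X X t) * 1) * (1 * G x + (- Mt μ X G t) * 1)) =
      fun x => (X x - Mt μ X X t) * (G x - Mt μ X G t) := by
    funext x
    ring
  have e2 : (fun x => (1 * X x + (- Mt μ X X t) * 1) * (1 * X x + (- Mt μ X X t) * 1)) =
      fun x => (X x - Mt μ X X t) ^ 2 := by
    funext x
    ring
  have e3 : (fun x => (1 * G x + (- Mt μ X G t) * 1) * (1 * G x + (- Mt μ X G t) * 1)) =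
      fun x => (G x - Mt μ X G t) ^ 2 := by
    funext x
    ring
  rw [e1, e2, e3] at h
  exact h

theorem Vt_eq {μ : Measure Ω} [IsFiniteMeasure μ] (hμ : μ ≠ 0) {X G : Ω → ℝ} {B B' : ℝ}
    (hX : Bd μ X B') (hG : Bd μ G B) (t : ℝ) :
    Vt μ X G t = Mt μ X (fun x => G x * G x) t - Mt μ X G t * Mt μ X G t := by
  rw [← ub_cov hμ hX hG hG t]
  simp only [Vt]
  congr 1
  funext x
  ring

/- END ub -/

/- MODULE uc
`Vt X = - d/dt Mt X` (`Mt_deriv`, `Vt_eq`), so `∫_0^a Vt X = Mt X 0 - Mt X a ≤ Mt X 0`.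
`d/dt (- t Mt X - log Zt) = t Vt X`, so `∫_0^T t Vt X dt = - T Mt X T - log Z_T + log Z_0`. -/

private theorem uc_Mc {μ : Measure Ω} [IsFiniteMeasure μ] (hμ : μ ≠ 0) {X G : Ω → ℝ} {B B' : ℝ}
    (hX : Bd μ X B') (hG : Bd μ G B) : Continuous (Mt μ X G) :=
  continuous_iff_continuousAt.2 fun t => (Mt_deriv hμ hX hG t).continuousAt

private theorem uc_Vc {μ : Measure Ω} [IsFiniteMeasure μ] (hμ : μ ≠ 0) {X G : Ω → ℝ} {B B' : ℝ}
    (hX : Bd μ X B') (hG : Bd μ G B) : Continuous (Vt μ X G) := by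
  have e : Vt μ X G = fun t => Mt μ X (fun x => G x * G x) t - Mt μ X G t * Mt μ X G t := by
    funext t
    exact Vt_eq hμ hX hG t
  rw [e]
  exact (uc_Mc hμ hX (ua_mul hG hG)).sub ((uc_Mc hμ hX hG).mul (uc_Mc hμ hX hG))

private theorem uc_Vd {μ : Measure Ω} [IsFiniteMeasure μ] (hμ : μ ≠ 0) {X : Ω → ℝ} {B' : ℝ}
    (hX : Bd μ X B') (t : ℝ) : HasDerivAt (Mt μ X X) (- Vt μ X X t) t := by
  rw [Vt_eq hμ hX hX t]
  exact Mt_deriv hμ hX hX t

theorem int_Vt {μ : Measure Ω} [IsFiniteMeasure μ] (hμ : μ ≠ 0) {X : Ω → ℝ} {B' : ℝ}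
    (hX : Bd μ X B') (h0 : ∀ᵐ x ∂μ, 0 ≤ X x) {a : ℝ} (ha : 0 ≤ a) :
    ∫ t in (0 : ℝ)..a, Vt μ X X t ≤ Mt μ X X 0 := by
  have h1 : ∀ t ∈ uIcc (0 : ℝ) a, HasDerivAt (fun t => - Mt μ X X t) (Vt μ X X t) t := by
    intro t _
    have h := (uc_Vd hμ hX t).neg
    rw [neg_neg] at h
    exact h
  rw [intervalIntegral.integral_eq_sub_of_hasDerivAt h1
    ((uc_Vc hμ hX hX).intervalIntegrable _ _)]
  have h2 := ub_nonneg hμ hX h0 a
  linarith

theorem int_tVt {μ : Measure Ω} [IsFiniteMeasure μ] (hμ : μ ≠ 0) {X : Ω → ℝ} {B' : ℝ}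
    (hX : Bd μ X B') (h0 : ∀ᵐ x ∂μ, 0 ≤ X x) {T : ℝ} (hT : 0 ≤ T) :
    ∫ t in (0 : ℝ)..T, t * Vt μ X X t ≤ Real.log (Zt μ X 0 / Zt μ X T) := by
  have h1 : ∀ t ∈ uIcc (0 : ℝ) T, HasDerivAt
      (fun t => - (t * Mt μ X X t) - Real.log (Zt μ X t)) (t * Vt μ X X t) t := by
    intro t _
    have hz := (Zt_pos hμ hX t).ne'
    have ha := ((hasDerivAt_id t).mul (uc_Vd hμ hX t)).neg
    have hb := (ub_Zd hX t).log hz
    have h := ha.sub hb
    have e : -(1 * Mt μ X X t + id t * (- Vt μ X X t)) - (- It μ X X t) / Zt μ X t =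
        t * Vt μ X X t := by
      simp only [Mt, id]
      ring
    rw [e] at h
    exact h
  rw [intervalIntegral.integral_eq_sub_of_hasDerivAt h1
    ((continuous_id.mul (uc_Vc hμ hX hX)).intervalIntegrable _ _)]
  rw [Real.log_div (Zt_pos hμ hX 0).ne' (Zt_pos hμ hX T).ne']
  have h2 := mul_nonneg hT (ub_nonneg hμ hX h0 T)
  linarith

/- END uc -/

/- MODULE ud
THE PATH LEMMA.  `|Mt G T - Mt G 0| ≤ ∫_0^T |Cov| ≤ √V ∫_0^T √(Vt X)` (`Mt_deriv`, `cov_le`); on
`[0, a]` use Cauchy-Schwarz with `1`, on `[a, T]` with `1 / √t * √t`; `int_Vt`, `int_tVt`. -/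

private theorem ud_cs {f g : ℝ → ℝ} {a b : ℝ} (hab : a ≤ b) (hf : ContinuousOn f (uIcc a b))
    (hg : ContinuousOn g (uIcc a b)) :
    ∫ t in a..b, f t * g t ≤ Real.sqrt (∫ t in a..b, f t * f t) *
      Real.sqrt (∫ t in a..b, g t * g t) := by
  have iff' : IntervalIntegrable (fun t => f t * f t) volume a b := (hf.mul hf).intervalIntegrable
  have ifg : IntervalIntegrable (fun t => f t * g t) volume a b := (hf.mul hg).intervalIntegrable
  have igg : IntervalIntegrable (fun t => g t * g t) volume a b := (hg.mul hg).intervalIntegrable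
  have key : ∀ s : ℝ, 0 ≤ (∫ t in a..b, g t * g t) * (s * s) +
      2 * (∫ t in a..b, f t * g t) * s + ∫ t in a..b, f t * f t := by
    intro s
    have h1 : 0 ≤ ∫ t in a..b, (f t + s * g t) * (f t + s * g t) :=
      intervalIntegral.integral_nonneg hab fun t _ => mul_self_nonneg _
    have h2 : ∫ t in a..b, (f t + s * g t) * (f t + s * g t) =
        (∫ t in a..b, f t * f t) + ((2 * s) * (∫ t in a..b, f t * g t) +
          (s * s) * ∫ t in a..b, g t * g t) := by
      rw [← intervalIntegral.integral_const_mul, ← intervalIntegral.integral_const_mul,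
        ← intervalIntegral.integral_add (ifg.const_mul _) (igg.const_mul _),
        ← intervalIntegral.integral_add iff' ((ifg.const_mul _).add (igg.const_mul _))]
      refine intervalIntegral.integral_congr fun t _ => ?_
      ring
    rw [h2] at h1
    linarith
  have hd := discrim_le_zero key
  rw [discrim] at hd
  have hf0 : 0 ≤ ∫ t in a..b, f t * f t :=
    intervalIntegral.integral_nonneg hab fun t _ => mul_self_nonneg _
  rw [← Real.sqrt_mul hf0]
  refine (le_abs_self _).trans (Real.abs_le_sqrt ?_)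
  nlinarith

theorem path_le {μ : Measure Ω} [IsFiniteMeasure μ] (hμ : μ ≠ 0) {X G : Ω → ℝ} {B B' : ℝ}
    (hX : Bd μ X B') (h0 : ∀ᵐ x ∂μ, 0 ≤ X x) (hG : Bd μ G B) {a T V : ℝ} (ha : 0 < a)
    (haT : a ≤ T) (hV : ∀ t, 0 ≤ t → t ≤ T → Vt μ X G t ≤ V) :
    |Mt μ X G T - Mt μ X G 0| ≤ Real.sqrt V * (Real.sqrt (a * Mt μ X X 0) +
      Real.sqrt (Real.log (T / a) * Real.log (Zt μ X 0 / Zt μ X T))) := by
  have hT : 0 ≤ T := ha.le.trans haT
  have hVX := uc_Vc hμ hX hX
  have hV0 : ∀ t, 0 ≤ Vt μ X X t := fun t =>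
    ub_nonneg hμ hX (Eventually.of_forall fun x => sq_nonneg _) t
  have hsq : Continuous (fun t => Real.sqrt (Vt μ X X t)) := hVX.sqrt
  -- the derivative of the mean
  have hcov : Continuous (fun t => - (Mt μ X (fun x => X x * G x) t -
      Mt μ X X t * Mt μ X G t)) :=
    ((uc_Mc hμ hX (ua_mul hX hG)).sub ((uc_Mc hμ hX hX).mul (uc_Mc hμ hX hG))).neg
  have h1 : Mt μ X G T - Mt μ X G 0 = ∫ t in (0 : ℝ)..T, - (Mt μ X (fun x => X x * G x) t -
      Mt μ X X t * Mt μ X G t) := by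
    rw [intervalIntegral.integral_eq_sub_of_hasDerivAt (fun t _ => Mt_deriv hμ hX hG t)
      (hcov.intervalIntegrable _ _)]
  have h2 : |Mt μ X G T - Mt μ X G 0| ≤ ∫ t in (0 : ℝ)..T,
      Real.sqrt V * Real.sqrt (Vt μ X X t) := by
    rw [h1]
    refine (intervalIntegral.abs_integral_le_integral_abs hT).trans ?_
    refine intervalIntegral.integral_mono_on hT (hcov.abs.intervalIntegrable _ _)
      ((continuous_const.mul hsq).intervalIntegrable _ _) fun t ht => ?_
    rw [abs_neg]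
    refine (cov_le hμ hX hG t).trans ?_
    rw [mul_comm]
    exact mul_le_mul_of_nonneg_right (Real.sqrt_le_sqrt (hV t ht.1 ht.2)) (Real.sqrt_nonneg _)
  rw [intervalIntegral.integral_const_mul] at h2
  refine h2.trans (mul_le_mul_of_nonneg_left ?_ (Real.sqrt_nonneg _))
  rw [← intervalIntegral.integral_add_adjacent_intervals (hsq.intervalIntegrable 0 a)
    (hsq.intervalIntegrable a T)]
  refine add_le_add ?_ ?_
  · have h3 := ud_cs (f := fun _ => (1 : ℝ)) (g := fun t => Real.sqrt (Vt μ X X t)) ha.le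
      continuousOn_const hsq.continuousOn
    have e1 : (∫ t in (0 : ℝ)..a, (1 : ℝ) * Real.sqrt (Vt μ X X t)) =
        ∫ t in (0 : ℝ)..a, Real.sqrt (Vt μ X X t) := by
      simp only [one_mul]
    have e2 : (∫ t in (0 : ℝ)..a, Real.sqrt (Vt μ X X t) * Real.sqrt (Vt μ X X t)) =
        ∫ t in (0 : ℝ)..a, Vt μ X X t := by
      refine intervalIntegral.integral_congr fun t _ => ?_
      exact Real.mul_self_sqrt (hV0 t)
    have e3 : (∫ t in (0 : ℝ)..a, (1 : ℝ) * 1) = a := by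
      simp
    rw [e1, e2, e3, ← Real.sqrt_mul ha.le] at h3
    exact h3.trans (Real.sqrt_le_sqrt (mul_le_mul_of_nonneg_left (int_Vt hμ hX h0 ha.le)
      ha.le))
  · have hpos : ∀ t ∈ uIcc a T, 0 < t := by
      intro t ht
      rw [uIcc_of_le haT] at ht
      exact ha.trans_le ht.1
    have hc1 : ContinuousOn (fun t : ℝ => (Real.sqrt t)⁻¹) (uIcc a T) :=
      (Real.continuous_sqrt.continuousOn).inv₀ fun t ht => (Real.sqrt_pos.2 (hpos t ht)).ne'
    have hc2 : ContinuousOn (fun t : ℝ => Real.sqrt t * Real.sqrt (Vt μ X X t)) (uIcc a T) :=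
      (Real.continuous_sqrt.mul hsq).continuousOn
    have h3 := ud_cs haT hc1 hc2
    have e1 : (∫ t in a..T, (Real.sqrt t)⁻¹ * (Real.sqrt t * Real.sqrt (Vt μ X X t))) =
        ∫ t in a..T, Real.sqrt (Vt μ X X t) := by
      refine intervalIntegral.integral_congr fun t ht => ?_
      have h4 := (Real.sqrt_pos.2 (hpos t ht)).ne'
      rw [← mul_assoc, inv_mul_cancel₀ h4, one_mul]
    have e2 : (∫ t in a..T, Real.sqrt t * Real.sqrt (Vt μ X X t) *
        (Real.sqrt t * Real.sqrt (Vt μ X X t))) = ∫ t in a..T, t * Vt μ X X t := by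
      refine intervalIntegral.integral_congr fun t ht => ?_
      have h4 := Real.mul_self_sqrt (hpos t ht).le
      have h5 := Real.mul_self_sqrt (hV0 t)
      calc Real.sqrt t * Real.sqrt (Vt μ X X t) * (Real.sqrt t * Real.sqrt (Vt μ X X t)) =
          (Real.sqrt t * Real.sqrt t) * (Real.sqrt (Vt μ X X t) * Real.sqrt (Vt μ X X t)) := by
            ring
        _ = t * Vt μ X X t := by rw [h4, h5]
    have e3 : (∫ t in a..T, (Real.sqrt t)⁻¹ * (Real.sqrt t)⁻¹) = Real.log (T / a) := by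
      have e4 : (∫ t in a..T, (Real.sqrt t)⁻¹ * (Real.sqrt t)⁻¹) = ∫ t in a..T, t⁻¹ := by
        refine intervalIntegral.integral_congr fun t ht => ?_
        rw [← mul_inv, Real.mul_self_sqrt (hpos t ht).le]
      rw [e4, integral_inv_of_pos ha (ha.trans_le haT)]
    have hlog : 0 ≤ Real.log (T / a) := Real.log_nonneg ((one_le_div ha).2 haT)
    rw [e1, e2, e3, ← Real.sqrt_mul hlog] at h3
    refine h3.trans (Real.sqrt_le_sqrt (mul_le_mul_of_nonneg_left ?_ hlog))
    refine le_trans ?_ (int_tVt hμ hX h0 hT)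
    have hi : ∀ c d : ℝ, IntervalIntegrable (fun t => t * Vt μ X X t) volume c d := fun c d =>
      (continuous_id.mul hVX).intervalIntegrable _ _
    rw [← intervalIntegral.integral_add_adjacent_intervals (hi 0 a) (hi a T)]
    have h5 : 0 ≤ ∫ t in (0 : ℝ)..a, t * Vt μ X X t :=
      intervalIntegral.integral_nonneg ha.le fun t ht => mul_nonneg ht.1 (hV0 t)
    linarith

/- END ud -/

end Pool.Agent.Hgf
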