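import Pool.Agent.Hgf.Blw

import Pool.Agent.Hgf.Pth

/-!
# Hgf (MP_161523_pr, Q2): pinning two layers; the law inside does not depend on the domain
-/

set_option autoImplicit false

open MeasureTheory Set Filter

open scoped ENNReal ContDiff Topology

noncomputable section

namespace Pool.Agent.Hgf

open Pool.Agent.Hmk

/-- inner boundary layer -/
def ib (L : Finset (ℤ × ℤ)) : Finset (ℤ × ℤ) := L.filter (fun x => ∃ i, x + st i ∉ L)

/-- outer boundary layer -/
def ob (L : Finset (ℤ × ℤ)) : Finset (ℤ × ℤ) :=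
  (L.biUnion (fun x => Finset.univ.image (fun i : Fin 6 => x + st i))) \ L

/-- the two layers -/
def lb (L : Finset (ℤ × ℤ)) : Finset (ℤ × ℤ) := ib L ∪ ob L

/- MODULE va
`Z_tower` with `R₁ = S`, `R₂ = D \ S`: `Z = ∫ f`, `f a = 1_{Adm} Z (D \ S) (gl S b a)`.  With
`l = ρ / H`: `f (l • a) ≥ f a ^ l * f 0 ^ (1 - l)` (`Z_pl`; `Adm` is star shaped because
`|b| ≤ 1/2`) and `f 0 ≥ 4 ^ (-6 |S|) f a` (`Z_center` with `P = S`, `adj_card`), so
`f a ≤ 4 ^ (6 |S|) f (l • a)`; `f` vanishes off `[-H, H] ^ S`, substitute `a -> l • a` (factor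
`l ^ |S|`). -/

private theorem va_scale (n : Finset (ℤ × ℤ)) {l : ℝ} (hl : 0 < l) (F : (n → ℝ) → ℝ≥0∞) :
    ENNReal.ofReal (l ^ n.card) * ∫⁻ a : n → ℝ, F (l • a) = ∫⁻ a : n → ℝ, F a := by
  have h2 : l ≠ 0 := hl.ne'
  have h := lintegral_map_equiv (μ := (volume : Measure (n → ℝ))) F (MeasurableEquiv.smul₀ l h2)
  have h3 : Measure.map (⇑(MeasurableEquiv.smul₀ (α := n → ℝ) l h2))
      (volume : Measure (n → ℝ)) =
      ENNReal.ofReal |(l ^ Module.finrank ℝ (n → ℝ))⁻¹| • volume :=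
    Measure.map_addHaar_smul _ h2
  rw [h3, lintegral_smul_measure] at h
  have h4 : ENNReal.ofReal |(l ^ Module.finrank ℝ (n → ℝ))⁻¹| =
      (ENNReal.ofReal (l ^ n.card))⁻¹ := by
    rw [Module.finrank_fintype_fun_eq_card, Fintype.card_coe, abs_of_pos (by positivity),
      ENNReal.ofReal_inv_of_pos (by positivity)]
  rw [h4] at h
  have h5 : ∫⁻ a : n → ℝ, F (l • a) = (ENNReal.ofReal (l ^ n.card))⁻¹ * ∫⁻ a, F a := by
    simpa using h.symm
  rw [h5, ← mul_assoc, ENNReal.mul_inv_cancel _ ENNReal.ofReal_ne_top, one_mul]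
  exact (ENNReal.ofReal_pos.2 (by positivity)).ne'

private theorem va_pow {A B N : ℝ≥0∞} (hN : 1 ≤ N) (h : A ≤ N * B) {l : ℝ} (l0 : 0 < l)
    (l1 : l < 1) : A ≤ N * (A ^ l * B ^ (1 - l)) := by
  have h1 : A ^ (1 - l) ≤ N * B ^ (1 - l) := by
    calc A ^ (1 - l) ≤ (N * B) ^ (1 - l) := ENNReal.rpow_le_rpow h (by linarith)
      _ = N ^ (1 - l) * B ^ (1 - l) := ENNReal.mul_rpow_of_nonneg _ _ (by linarith)
      _ ≤ N ^ (1 : ℝ) * B ^ (1 - l) :=
        mul_le_mul_left (ENNReal.rpow_le_rpow_of_exponent_le hN (by linarith)) _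
      _ = N * B ^ (1 - l) := by rw [ENNReal.rpow_one]
  have h3 : A = A ^ l * A ^ (1 - l) := by
    rw [← ENNReal.rpow_add_of_nonneg _ _ l0.le (by linarith)]
    norm_num
  calc A = A ^ l * A ^ (1 - l) := h3
    _ ≤ A ^ l * (N * B ^ (1 - l)) := by gcongr
    _ = N * (A ^ l * B ^ (1 - l)) := by ring

private theorem va_adm {S R : Finset (ℤ × ℤ)} {b : ℤ × ℤ → ℝ} (hb : ∀ z, |b z| ≤ 1 / 2)
    {a : S → ℝ} (ha : a ∈ Adm S R b) {l : ℝ} (l0 : 0 < l) (l1 : l ≤ 1) :
    (l • a) ∈ Adm S R b := by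
  intro x hx i hi
  have h := ha x hx i hi
  rw [gl_mem hx] at h ⊢
  by_cases hy : x + st i ∈ S
  · rw [gl_mem hy] at h ⊢
    simp only [Pi.smul_apply, smul_eq_mul]
    rw [← mul_sub, abs_mul, abs_of_pos l0]
    nlinarith [abs_nonneg (a ⟨x, hx⟩ - a ⟨x + st i, hy⟩)]
  · rw [gl_not_mem hy] at h ⊢
    simp only [Pi.smul_apply, smul_eq_mul]
    have h2 := hb (x + st i)
    have h3 : l * a ⟨x, hx⟩ - b (x + st i) =
        l * (a ⟨x, hx⟩ - b (x + st i)) - (1 - l) * b (x + st i) := by ring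
    rw [h3]
    rw [abs_le] at h h2 ⊢
    constructor <;> nlinarith [h.1, h.2, h2.1, h2.2]

private theorem va_z {S R : Finset (ℤ × ℤ)} (hd : Disjoint S R) {b : ℤ × ℤ → ℝ}
    (hb : ∀ z, |b z| ≤ 1 / 2) (a : S → ℝ) {l : ℝ} (l0 : 0 < l) (l1 : l ≤ 1) :
    Z R (gl S b a) ≤ 4 ^ (6 * S.card) * Z R (gl S b (l • a)) := by
  have hN : (1 : ℝ≥0∞) ≤ 4 ^ (6 * S.card) := one_le_pow₀ (by norm_num)
  rcases eq_or_lt_of_le l1 with h1 | h1
  · rw [h1, one_smul]
    exact le_mul_of_one_le_left bot_le hN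
  have h2 : Z R (gl S b a) ≤
      4 ^ (6 * S.card) * Z R (fun z => if z ∈ S then 0 else gl S b a z) := by
    refine (Z_center hd.symm ?_).trans ?_
    · intro z _ hz _
      rw [gl_not_mem hz]
      exact hb z
    · gcongr
      · norm_num
      · exact adj_card R S
  refine (va_pow hN h2 l0 h1).trans ?_
  gcongr
  refine (Z_pl R _ _ l0 h1).trans (le_of_eq ?_)
  congr 1
  funext z
  by_cases hz : z ∈ S
  · rw [if_pos hz, gl_mem hz, gl_mem hz]
    simp
  · rw [if_neg hz, gl_not_mem hz, gl_not_mem hz]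
    ring

theorem pin_vol {D S : Finset (ℤ × ℤ)} (hS : S ⊆ D) {b : ℤ × ℤ → ℝ} (hb : ∀ z, |b z| ≤ 1 / 2)
    {ρ H : ℝ} (hρ : 0 < ρ) (hH : ρ ≤ H) (hK : ∀ h ∈ K D b, ∀ x ∈ S, |gl D b h x| ≤ H) :
    ENNReal.ofReal ((ρ / H) ^ S.card) * Z D b ≤
      4 ^ (6 * S.card) * volume {h : D → ℝ | h ∈ K D b ∧ ∀ x ∈ S, |gl D b h x| ≤ ρ} := by
  have hH0 : 0 < H := hρ.trans_le hH
  set l := ρ / H with hl
  have l0 : 0 < l := div_pos hρ hH0
  have l1 : l ≤ 1 := (div_le_one hH0).2 hH
  have hlH : l * H = ρ := div_mul_cancel₀ _ hH0.ne'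
  set R := D \ S with hR
  have hd : Disjoint S R := Finset.disjoint_sdiff
  have hu : S ∪ R = D := Finset.union_sdiff_of_subset hS
  let E : Set (S → ℝ) := {a | ∀ x, |a x| ≤ ρ}
  have hE : MeasurableSet E := by
    have : E = ⋂ x : S, {a : S → ℝ | |a x| ≤ ρ} := by
      ext a
      simp [E]
    rw [this]
    exact MeasurableSet.iInter fun x =>
      measurableSet_le (continuous_abs.measurable.comp (measurable_pi_apply x)) measurable_const
  have hset : {h : D → ℝ | h ∈ K D b ∧ ∀ x ∈ S, |gl D b h x| ≤ ρ} =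
      {h : D → ℝ | h ∈ K D b ∧ (fun x : S => gl D b h x) ∈ E} := by
    ext h
    constructor
    · rintro ⟨h1, h2⟩
      exact ⟨h1, fun x => h2 x.1 x.2⟩
    · rintro ⟨h1, h2⟩
      exact ⟨h1, fun x hx => h2 ⟨x, hx⟩⟩
  rw [hset, vol_tower hd hu b hE, Z_tower hd hu b,
    ← va_scale S l0 ((Adm S R b ∩ E).indicator fun a => Z R (gl S b a)), mul_left_comm]
  gcongr
  rw [← lintegral_const_mul' _ _ (ENNReal.pow_ne_top (by norm_num))]
  refine lintegral_mono fun a => ?_
  by_cases ha : a ∈ Adm S R b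
  swap
  · rw [indicator_of_notMem ha]
    exact bot_le
  rw [indicator_of_mem ha]
  by_cases h0 : Z R (gl S b a) = 0
  · rw [h0]
    exact bot_le
  have hne : (K R (gl S b a)).Nonempty := by
    by_contra hcon
    rw [not_nonempty_iff_eq_empty] at hcon
    exact h0 (by rw [Z, hcon, measure_empty])
  obtain ⟨k, hk⟩ := hne
  have hj : (jn S R a k : D → ℝ) ∈ K D b := (mem_K_jn hd hu b a k).2 ⟨hk, ha⟩
  have haH : ∀ x : S, |a x| ≤ H := by
    intro x
    have h1 := hK _ hj x.1 x.2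
    rw [gl_jn hd hu, gl_not_mem (R := R) (z := x.1) (Finset.disjoint_left.1 hd x.2),
      gl_mem (R := S) x.2] at h1
    exact h1
  have hmem : (l • a) ∈ Adm S R b ∩ E := by
    refine ⟨va_adm hb ha l0 l1, fun x => ?_⟩
    simp only [Pi.smul_apply, smul_eq_mul]
    rw [abs_mul, abs_of_pos l0, ← hlH]
    exact mul_le_mul_of_nonneg_left (haH x) l0.le
  rw [indicator_of_mem hmem]
  exact va_z hd hb a l0 l1

/- END va -/

/- MODULE vb
`pin_vol` with `ρ = T^(-1/2)`, `H = |D| + 1` (`K_bdd`): `T phi(h) ≤ T h^2 / 2 ≤ 1/2` on the pinned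
set; `1/2 + 6 log 4 ≤ 10`. -/

private theorem vb_zero (D S : Finset (ℤ × ℤ)) (b : ℤ × ℤ → ℝ) :
    EK D b (Wph S 0) (fun _ => 1) = (Z D b).toReal := by
  unfold EK Wph
  simp only [zero_mul, neg_zero, Real.exp_zero, mul_one]
  rw [setIntegral_const, smul_eq_mul, mul_one]
  rfl

private theorem vb_cont (D S : Finset (ℤ × ℤ)) (T : ℝ) :
    Measurable (fun h : D → ℝ => Wph S T h) := by
  unfold Wph
  refine Measurable.const_mul (Finset.measurable_sum _ fun x _ => ?_) _
  by_cases hx : x.1 ∈ S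
  · simp only [hx, if_true]
    exact (phi_props.2.2.2.2.2.1.continuous.measurable).comp (measurable_pi_apply x)
  · simp only [hx, if_false]
    exact measurable_const

private theorem vb_nn (D S : Finset (ℤ × ℤ)) {T : ℝ} (hT : 0 ≤ T) (h : D → ℝ) :
    0 ≤ Wph S T h := by
  unfold Wph
  refine mul_nonneg hT (Finset.sum_nonneg fun x _ => ?_)
  split_ifs
  · exact phi_props.1 _
  · exact le_rfl

private theorem vb_int (D S : Finset (ℤ × ℤ)) (b : ℤ × ℤ → ℝ) {T : ℝ} (hT : 0 ≤ T) :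
    IntegrableOn (fun h : D → ℝ => Real.exp (- Wph S T h)) (K D b) := by
  refine Integrable.mono' (g := fun _ => (1 : ℝ)) ?_ ?_ ?_
  · exact integrableOn_const (Z_lt_top D b).ne
  · exact (Real.measurable_exp.comp (vb_cont D S T).neg).aestronglyMeasurable
  · refine ae_of_all _ fun h => ?_
    rw [Real.norm_eq_abs, abs_of_pos (Real.exp_pos _)]
    exact Real.exp_le_one_iff.2 (neg_nonpos.2 (vb_nn D S hT h))

theorem pin_log {D S : Finset (ℤ × ℤ)} (hS : S ⊆ D) {b : ℤ × ℤ → ℝ} (hb : ∀ z, |b z| ≤ 1 / 2)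
    {T : ℝ} (hT : 1 ≤ T) :
    Real.log (EK D b (Wph S 0) (fun _ => 1) / EK D b (Wph S T) (fun _ => 1)) ≤
      (S.card : ℝ) * (10 + Real.log ((D.card : ℝ) + 1) + Real.log T) := by
  have hT0 : 0 < T := by linarith
  set H : ℝ := (D.card : ℝ) + 1 with hHdef
  have hH1 : 1 ≤ H := by
    rw [hHdef]
    have : (0 : ℝ) ≤ D.card := Nat.cast_nonneg _
    linarith
  have hH0 : 0 < H := by linarith
  set ρ : ℝ := (Real.sqrt T)⁻¹ with hρdef
  have hsT : 1 ≤ Real.sqrt T := Real.one_le_sqrt.2 hT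
  have hs0 : 0 < Real.sqrt T := by linarith
  have hρ : 0 < ρ := inv_pos.2 hs0
  have hρ1 : ρ ≤ 1 := inv_le_one_of_one_le₀ hsT
  have hρ2 : T * ρ ^ 2 = 1 := by
    rw [hρdef, inv_pow, Real.sq_sqrt hT0.le]
    exact mul_inv_cancel₀ hT0.ne'
  have hK : ∀ h ∈ K D b, ∀ x ∈ S, |gl D b h x| ≤ H := by
    intro h hh x hx
    rw [gl_mem (hS hx)]
    refine (K_bdd (B := 1 / 2) (by norm_num) (fun z _ _ => hb z) hh ⟨x, hS hx⟩).trans ?_
    rw [hHdef]
    linarith
  set P : Set (D → ℝ) := {h : D → ℝ | h ∈ K D b ∧ ∀ x ∈ S, |gl D b h x| ≤ ρ} with hP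
  have hPm : MeasurableSet P := by
    have : P = K D b ∩ ⋂ x ∈ S, {h : D → ℝ | |gl D b h x| ≤ ρ} := by
      ext h
      simp [P]
    rw [this]
    refine (K_meas D b).inter (Finset.measurableSet_biInter _ fun x _ => ?_)
    exact measurableSet_le (continuous_abs.measurable.comp (gl_meas D b x)) measurable_const
  have hPK : P ⊆ K D b := fun h hh => hh.1
  have hv := pin_vol hS hb hρ (hρ1.trans hH1) hK
  rw [← hP] at hv
  set n := S.card with hn
  have hPtop : volume P ≠ ⊤ := ((measure_mono hPK).trans_lt (Z_lt_top D b)).ne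
  -- real version of `pin_vol`
  have hv' : (ρ / H) ^ n * (Z D b).toReal ≤ 4 ^ (6 * n) * (volume P).toReal := by
    have h1 := ENNReal.toReal_mono (ENNReal.mul_ne_top (ENNReal.pow_ne_top (by norm_num)) hPtop) hv
    rw [ENNReal.toReal_mul, ENNReal.toReal_mul, ENNReal.toReal_ofReal (by positivity),
      ENNReal.toReal_pow] at h1
    simpa using h1
  have hZ1 : 1 ≤ (Z D b).toReal := by
    have h1 := ENNReal.toReal_mono (Z_lt_top D b).ne (Z_one_le (R := D) (c := b) fun z _ _ => hb z)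
    simpa using h1
  have hVP : 0 < (volume P).toReal := by
    have h1 : 0 < (ρ / H) ^ n * (Z D b).toReal := by positivity
    have h2 : (0 : ℝ) < 4 ^ (6 * n) := by positivity
    nlinarith [lt_of_lt_of_le h1 hv']
  -- lower bound for the weighted partition function
  have hW : ∀ h ∈ P, Wph S T h ≤ n / 2 := by
    intro h hh
    unfold Wph
    have h1 : (∑ x : D, if x.1 ∈ S then phi (h x) else 0) ≤
        ∑ x : D, if x.1 ∈ S then ρ ^ 2 / 2 else 0 := by
      refine Finset.sum_le_sum fun x _ => ?_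
      by_cases hx : x.1 ∈ S
      · simp only [hx, if_true]
        have h2 := hh.2 x.1 hx
        rw [gl_mem x.2] at h2
        refine (phi_props.2.2.1 _).trans ?_
        have h3 := sq_abs (h x)
        nlinarith [abs_nonneg (h x)]
      · simp only [hx, if_false]
        exact le_rfl
    have h2 : (∑ x : D, if x.1 ∈ S then ρ ^ 2 / 2 else 0) = n * (ρ ^ 2 / 2) := by
      rw [Finset.sum_coe_sort D (fun x => if x ∈ S then ρ ^ 2 / 2 else 0), ← Finset.sum_filter,
        Finset.sum_const, nsmul_eq_mul]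
      congr 2
      rw [hn]
      congr 1
      ext x
      simp only [Finset.mem_filter]
      exact ⟨fun h => h.2, fun h => ⟨hS h, h⟩⟩
    calc T * ∑ x : D, (if x.1 ∈ S then phi (h x) else 0) ≤ T * (n * (ρ ^ 2 / 2)) := by
          rw [← h2]
          exact mul_le_mul_of_nonneg_left h1 hT0.le
      _ = n / 2 * (T * ρ ^ 2) := by ring
      _ = n / 2 := by rw [hρ2, mul_one]
  have hE : Real.exp (- (n / 2 : ℝ)) * (volume P).toReal ≤ EK D b (Wph S T) (fun _ => 1) := by
    unfold EK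
    simp only [one_mul]
    have h1 : ∫ h in P, Real.exp (- (n / 2 : ℝ)) ≤ ∫ h in P, Real.exp (- Wph S T h) := by
      refine setIntegral_mono_on ?_ ((vb_int D S b hT0.le).mono_set hPK) hPm ?_
      · exact integrableOn_const hPtop
      · intro h hh
        exact Real.exp_le_exp.2 (neg_le_neg (hW h hh))
    have h2 : ∫ h in P, Real.exp (- Wph S T h) ≤ ∫ h in K D b, Real.exp (- Wph S T h) := by
      refine setIntegral_mono_set (vb_int D S b hT0.le) ?_ ?_
      · exact ae_of_all _ fun h => (Real.exp_pos _).le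
      · exact ae_of_all _ hPK
    refine le_trans (le_of_eq ?_) (h1.trans h2)
    rw [setIntegral_const, smul_eq_mul, mul_comm]
    rfl
  have hEpos : 0 < EK D b (Wph S T) (fun _ => 1) := lt_of_lt_of_le (by positivity) hE
  rw [vb_zero]
  have hZ0 : 0 < (Z D b).toReal := by linarith
  have hmain : (Z D b).toReal / EK D b (Wph S T) (fun _ => 1) ≤
      Real.exp (n / 2) * (4 ^ (6 * n) * (H * Real.sqrt T) ^ n) := by
    rw [div_le_iff₀ hEpos]
    have h1 : (ρ / H) ^ n * (H * Real.sqrt T) ^ n = 1 := by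
      rw [← mul_pow, hρdef]
      have : (Real.sqrt T)⁻¹ / H * (H * Real.sqrt T) = 1 := by
        field_simp
      rw [this, one_pow]
    have h2 : (Z D b).toReal ≤ (H * Real.sqrt T) ^ n * (4 ^ (6 * n) * (volume P).toReal) := by
      calc (Z D b).toReal = (H * Real.sqrt T) ^ n * ((ρ / H) ^ n * (Z D b).toReal) := by
            rw [← mul_assoc, mul_comm ((H * Real.sqrt T) ^ n), h1, one_mul]
        _ ≤ _ := mul_le_mul_of_nonneg_left hv' (by positivity)
    have h3 : (volume P).toReal ≤ Real.exp (n / 2) * EK D b (Wph S T) (fun _ => 1) := by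
      have h4 : Real.exp (n / 2 : ℝ) * Real.exp (- (n / 2 : ℝ)) = 1 := by
        rw [← Real.exp_add]
        simp
      calc (volume P).toReal =
            Real.exp (n / 2 : ℝ) * (Real.exp (- (n / 2 : ℝ)) * (volume P).toReal) := by
            rw [← mul_assoc, h4, one_mul]
        _ ≤ _ := mul_le_mul_of_nonneg_left hE (Real.exp_pos _).le
    calc (Z D b).toReal ≤ (H * Real.sqrt T) ^ n * (4 ^ (6 * n) * (volume P).toReal) := h2
      _ ≤ (H * Real.sqrt T) ^ n * (4 ^ (6 * n) *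
          (Real.exp (n / 2) * EK D b (Wph S T) (fun _ => 1))) := by gcongr
      _ = _ := by ring
  refine (Real.log_le_log (by positivity) hmain).trans ?_
  have hl4 : Real.log 4 ≤ 1.4 := by
    have h1 : Real.log 4 = 2 * Real.log 2 := by
      rw [show (4 : ℝ) = 2 ^ 2 by norm_num, Real.log_pow]
      norm_num
    rw [h1]
    have := Real.log_two_lt_d9
    linarith
  have hlT : 0 ≤ Real.log T := Real.log_nonneg hT
  rw [Real.log_mul (by positivity) (by positivity), Real.log_exp,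
    Real.log_mul (by positivity) (by positivity), Real.log_pow, Real.log_pow,
    Real.log_mul (by positivity) (by positivity), Real.log_sqrt hT0.le]
  push_cast
  have hn0 : (0 : ℝ) ≤ n := Nat.cast_nonneg _
  nlinarith [mul_nonneg hn0 hlT]

/- END vb -/

/-- the event that all heights on `S` are at most `1/2` in absolute value -/
def Sm (D : Finset (ℤ × ℤ)) (b : ℤ × ℤ → ℝ) (S : Finset (ℤ × ℤ)) : Set (D → ℝ) :=
  {h | h ∈ K D b ∧ ∀ x ∈ S, |gl D b h x| ≤ 1 / 2}

/- MODULE vc
`Wph ≥ T phi(1/2) ≥ T / 10` off `Sm`. -/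

private theorem vc_meas (D : Finset (ℤ × ℤ)) (b : ℤ × ℤ → ℝ) (S : Finset (ℤ × ℤ)) :
    MeasurableSet (Sm D b S) := by
  have : Sm D b S = K D b ∩ ⋂ x ∈ S, {h : D → ℝ | |gl D b h x| ≤ 1 / 2} := by
    ext h
    simp [Sm]
  rw [this]
  refine (K_meas D b).inter (Finset.measurableSet_biInter _ fun x _ => ?_)
  exact measurableSet_le (continuous_abs.measurable.comp (gl_meas D b x)) measurable_const

theorem leak {D S : Finset (ℤ × ℤ)} (hS : S ⊆ D) {b : ℤ × ℤ → ℝ} (hb : ∀ z, |b z| ≤ 1 / 2)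
    {T : ℝ} (hT : 0 ≤ T) :
    ∫ h in K D b \ Sm D b S, Real.exp (- Wph S T h) ≤
      Real.exp (- T / 10) * EK D b (Wph S 0) (fun _ => 1) := by
  have hsub : K D b \ Sm D b S ⊆ K D b := fun h hh => hh.1
  have hm : MeasurableSet (K D b \ Sm D b S) := (K_meas D b).diff (vc_meas D b S)
  have hfin : volume (K D b \ Sm D b S) ≠ ⊤ :=
    ((measure_mono hsub).trans_lt (Z_lt_top D b)).ne
  rw [vb_zero]
  have h1 : ∫ h in K D b \ Sm D b S, Real.exp (- Wph S T h) ≤
      ∫ h in K D b \ Sm D b S, Real.exp (- T / 10) := by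
    refine setIntegral_mono_on ((vb_int D S b hT).mono_set hsub) (integrableOn_const hfin) hm ?_
    rintro h ⟨hh, hn⟩
    refine Real.exp_le_exp.2 ?_
    have h2 : ∃ x ∈ S, 1 / 2 < |gl D b h x| := by
      by_contra hcon
      push Not at hcon
      exact hn ⟨hh, hcon⟩
    obtain ⟨x, hx, hx2⟩ := h2
    rw [gl_mem (hS hx)] at hx2
    have h3 : 1 / 10 ≤ ∑ x : D, if x.1 ∈ S then phi (h x) else 0 := by
      refine le_trans ?_ (Finset.single_le_sum
        (f := fun x : D => if x.1 ∈ S then phi (h x) else 0) (fun y _ => ?_)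
        (Finset.mem_univ (⟨x, hS hx⟩ : D)))
      · simp only [hx, if_true]
        refine phi_props.2.2.2.1.trans (phi_props.2.2.2.2.1 _ _ ?_)
        rw [abs_of_pos (by norm_num : (0 : ℝ) < 1 / 2)]
        exact hx2.le
      · show 0 ≤ if y.1 ∈ S then phi (h y) else 0
        split_ifs
        · exact phi_props.1 _
        · exact le_rfl
    unfold Wph
    nlinarith [mul_le_mul_of_nonneg_left h3 hT]
  refine h1.trans ?_
  rw [setIntegral_const, smul_eq_mul, mul_comm]
  refine mul_le_mul_of_nonneg_left ?_ (Real.exp_pos _).le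
  exact ENNReal.toReal_mono (Z_lt_top D b).ne (measure_mono hsub)

/- END vc -/

/-- `G` only depends on the heights in `L` -/
def Dep (L : Finset (ℤ × ℤ)) (G : (ℤ × ℤ → ℝ) → ℝ) : Prop :=
  ∀ H H' : ℤ × ℤ → ℝ, (∀ z ∈ L, H z = H' z) → G H = G H'

/-- the inner law: mean of `G` over the configurations in `L` which are small on the inner boundary
layer, with the mass weight -/
def In (L : Finset (ℤ × ℤ)) (T : ℝ) (G : (ℤ × ℤ → ℝ) → ℝ) : ℝ :=
  (∫ a in Sm L (fun _ => 0) (ib L), G (gl L (fun _ => 0) a) * Real.exp (- Wph (ib L) T a)) /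
    ∫ a in Sm L (fun _ => 0) (ib L), Real.exp (- Wph (ib L) T a)

/- MODULE vd
`lint_jn` with `R₁ = L`, `R₂ = D \ L` (for nonnegative `G`, then for bounded `G`, e.g. add a
constant).  On `Sm D b (lb L)` the edges between `L` and `D \ L` join sites of `ib L` and `ob L`, so
they are satisfied automatically; the event splits into `Sm L 0 (ib L)` for `a` and an event for the
part outside; the weight is a product. -/

private theorem vd_mp {D R₁ R₂ : Finset (ℤ × ℤ)} (hd : Disjoint R₁ R₂) (hu : R₁ ∪ R₂ = D) :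
    MeasurePreserving (fun p : (R₁ → ℝ) × (R₂ → ℝ) => (jn R₁ R₂ p.1 p.2 : D → ℝ))
      ((volume : Measure (R₁ → ℝ)).prod (volume : Measure (R₂ → ℝ))) volume := by
  refine ⟨jn_meas, ?_⟩
  ext s hs
  rw [Measure.map_apply jn_meas hs, ← lintegral_indicator_one hs,
    lint_jn hd hu (measurable_one.indicator hs), ← lintegral_indicator_one (jn_meas hs),
    lintegral_prod _ (measurable_one.indicator (jn_meas hs)).aemeasurable]
  rfl

private theorem vd_ob {L : Finset (ℤ × ℤ)} {x : ℤ × ℤ} {i : Fin 6} (hx : x ∈ L)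
    (hi : x + st i ∉ L) : x + st i ∈ ob L := by
  classical
  unfold ob
  rw [Finset.mem_sdiff, Finset.mem_biUnion]
  exact ⟨⟨x, hx, Finset.mem_image.2 ⟨i, Finset.mem_univ _, rfl⟩⟩, hi⟩

private theorem vd_ob' {L : Finset (ℤ × ℤ)} {x : ℤ × ℤ} {i : Fin 6} (hx : x ∉ L)
    (hi : x + st i ∈ L) : x ∈ ob L ∧ x + st i ∈ ib L := by
  have h1 : x + st i + st (i + 3) = x := by rw [st_neg, add_neg_cancel_right]
  constructor
  · have h2 := vd_ob (x := x + st i) (i := i + 3) hi (by rw [h1]; exact hx)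
    rw [h1] at h2
    exact h2
  · unfold ib
    rw [Finset.mem_filter]
    exact ⟨hi, i + 3, by rw [h1]; exact hx⟩

private theorem vd_ib {L : Finset (ℤ × ℤ)} {x : ℤ × ℤ} (hx : x ∈ ib L) : x ∈ L := by
  unfold ib at hx
  exact (Finset.mem_filter.1 hx).1

private theorem vd_obn {L : Finset (ℤ × ℤ)} {x : ℤ × ℤ} (hx : x ∈ ob L) : x ∉ L := by
  unfold ob at hx
  exact (Finset.mem_sdiff.1 hx).2

/-- the event for the outer part -/
private def vdP (L R : Finset (ℤ × ℤ)) (b : ℤ × ℤ → ℝ) : Set (R → ℝ) :=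
  {k | k ∈ Adm R L b ∧ ∀ x ∈ ob L, |gl R b k x| ≤ 1 / 2}

private theorem vdP_meas (L R : Finset (ℤ × ℤ)) (b : ℤ × ℤ → ℝ) : MeasurableSet (vdP L R b) := by
  have : vdP L R b = Adm R L b ∩ ⋂ x ∈ ob L, {h : R → ℝ | |gl R b h x| ≤ 1 / 2} := by
    ext h
    simp [vdP]
  rw [this]
  refine (Adm_meas R L b).inter (Finset.measurableSet_biInter _ fun x _ => ?_)
  exact measurableSet_le (continuous_abs.measurable.comp (gl_meas R b x)) measurable_const

private theorem vd_mem {D L R : Finset (ℤ × ℤ)} (hd : Disjoint L R) (hu : L ∪ R = D)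
    (hL : L ∪ ob L ⊆ D) (b : ℤ × ℤ → ℝ) (a : L → ℝ) (k : R → ℝ) :
    (jn L R a k : D → ℝ) ∈ Sm D b (lb L) ↔ a ∈ Sm L (fun _ => 0) (ib L) ∧ k ∈ vdP L R b := by
  have hg : ∀ z, gl D b (jn L R a k) z = gl R (gl L b a) k z := gl_jn hd hu b a k
  have hgL : ∀ z ∈ L, gl D b (jn L R a k) z = gl L (fun _ => 0) a z := by
    intro z hz
    rw [hg, gl_not_mem (Finset.disjoint_left.1 hd hz), gl_mem hz, gl_mem hz]
  have hgR : ∀ z, z ∉ L → gl D b (jn L R a k) z = gl R b k z := by
    intro z hz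
    rw [hg]
    by_cases h2 : z ∈ R
    · rw [gl_mem h2, gl_mem h2]
    · rw [gl_not_mem h2, gl_not_mem h2, gl_not_mem hz]
  have hob : ∀ x ∈ ob L, x ∈ D := fun x hx => hL (Finset.mem_union_right _ hx)
  constructor
  · rintro ⟨h1, h2⟩
    refine ⟨⟨fun x hx i => ?_, fun x hx => ?_⟩, ⟨fun x hx i hi => ?_, fun x hx => ?_⟩⟩
    · by_cases hi : x + st i ∈ L
      · have h3 := h1 x (hL (Finset.mem_union_left _ hx)) i
        rw [hgL x hx, hgL _ hi] at h3
        exact h3
      · have h3 : x ∈ lb L := by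
          unfold lb ib
          exact Finset.mem_union_left _ (Finset.mem_filter.2 ⟨hx, i, hi⟩)
        have h4 := h2 x h3
        rw [hgL x hx] at h4
        rw [gl_not_mem hi, sub_zero]
        linarith
    · have h3 := h2 x (Finset.mem_union_left _ hx)
      rw [hgL x (vd_ib hx)] at h3
      exact h3
    · have hxL : x ∉ L := Finset.disjoint_right.1 hd hx
      have h3 := h1 x (by rw [← hu]; exact Finset.mem_union_right _ hx) i
      rw [hgR x hxL, hgR _ hi] at h3
      exact h3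
    · have h3 := h2 x (Finset.mem_union_right _ hx)
      rw [hgR x (vd_obn hx)] at h3
      exact h3
  · rintro ⟨⟨h1, h2⟩, ⟨h3, h4⟩⟩
    refine ⟨fun x hx i => ?_, fun x hx => ?_⟩
    · by_cases hxL : x ∈ L
      · by_cases hi : x + st i ∈ L
        · rw [hgL x hxL, hgL _ hi]
          exact h1 x hxL i
        · rw [hgL x hxL, hgR _ hi]
          have h5 := h2 x (by
            unfold ib
            exact Finset.mem_filter.2 ⟨hxL, i, hi⟩)
          have h6 := h4 _ (vd_ob hxL hi)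
          rw [abs_le] at h5 h6 ⊢
          constructor <;> linarith [h5.1, h5.2, h6.1, h6.2]
      · by_cases hi : x + st i ∈ L
        · rw [hgR x hxL, hgL _ hi]
          obtain ⟨h5, h6⟩ := vd_ob' hxL hi
          have h7 := h4 _ h5
          have h8 := h2 _ h6
          rw [abs_le] at h7 h8 ⊢
          constructor <;> linarith [h7.1, h7.2, h8.1, h8.2]
        · rw [hgR x hxL, hgR _ hi]
          rw [← hu, Finset.mem_union] at hx
          exact h3 x (hx.resolve_left hxL) i hi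
    · rcases Finset.mem_union.1 hx with h5 | h5
      · rw [hgL x (vd_ib h5)]
        exact h2 x h5
      · rw [hgR x (vd_obn h5)]
        exact h4 x h5

private theorem vd_sum {D : Finset (ℤ × ℤ)} (S : Finset (ℤ × ℤ)) (h : D → ℝ) :
    (∑ x : D, if x.1 ∈ S then phi (h x) else 0) =
      ∑ x ∈ D, if x ∈ S then phi (gl D (fun _ => 0) h x) else 0 := by
  rw [← Finset.sum_coe_sort D (fun x => if x ∈ S then phi (gl D (fun _ => 0) h x) else 0)]
  refine Finset.sum_congr rfl fun x _ => ?_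
  rw [gl_mem x.2]

private theorem vd_W {D L R : Finset (ℤ × ℤ)} (hd : Disjoint L R) (hu : L ∪ R = D)
    (T : ℝ) (a : L → ℝ) (k : R → ℝ) :
    Wph (lb L) T (jn L R a k : D → ℝ) = Wph (ib L) T a + Wph (ob L) T k := by
  unfold Wph
  rw [vd_sum, vd_sum, vd_sum, ← mul_add, ← hu, Finset.sum_union hd]
  congr 2
  · refine Finset.sum_congr rfl fun x hx => ?_
    have h1 : x ∈ lb L ↔ x ∈ ib L := by
      unfold lb
      rw [Finset.mem_union]
      exact ⟨fun h => h.resolve_right fun h2 => vd_obn h2 hx, Or.inl⟩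
    rw [gl_jn hd rfl, gl_not_mem (R := R) (Finset.disjoint_left.1 hd hx)]
    simp only [h1]
  · refine Finset.sum_congr rfl fun x hx => ?_
    have h1 : x ∈ lb L ↔ x ∈ ob L := by
      unfold lb
      rw [Finset.mem_union]
      exact ⟨fun h => h.resolve_left fun h2 => Finset.disjoint_right.1 hd hx (vd_ib h2), Or.inr⟩
    rw [gl_jn hd rfl, gl_mem (R := R) hx, gl_mem (R := R) hx]
    simp only [h1]

theorem split {D L : Finset (ℤ × ℤ)} (hL : L ∪ ob L ⊆ D) {b : ℤ × ℤ → ℝ}
    (hb : ∀ z, |b z| ≤ 1 / 2) (T : ℝ) :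
    ∃ c : ℝ, 0 < c ∧ ∀ (G : (ℤ × ℤ → ℝ) → ℝ) (B : ℝ), Measurable G → (∀ H, |G H| ≤ B) →
      Dep L G → ∫ h in Sm D b (lb L), G (gl D b h) * Real.exp (- Wph (lb L) T h) =
        c * ∫ a in Sm L (fun _ => 0) (ib L), G (gl L (fun _ => 0) a) *
          Real.exp (- Wph (ib L) T a) := by
  set R := D \ L with hR
  have hd : Disjoint L R := Finset.disjoint_sdiff
  have hu : L ∪ R = D := Finset.union_sdiff_of_subset (Finset.union_subset_left hL)
  refine ⟨∫ k in vdP L R b, Real.exp (- Wph (ob L) T k), ?_, ?_⟩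
  · -- positivity
    have hbd : ∀ k ∈ vdP L R b, ∀ x : R, |k x| ≤ 1 / 2 + (D.card : ℝ) := by
      intro k hk x
      have h0 : (fun _ => (0 : ℝ)) ∈ Sm L (fun _ => 0) (ib L) := by
        refine ⟨fun x hx i => ?_, fun x hx => ?_⟩
        · have : ∀ z, gl L (fun _ => (0 : ℝ)) (fun _ => 0) z = 0 := by
            intro z
            by_cases hz : z ∈ L
            · rw [gl_mem hz]
            · rw [gl_not_mem hz]
          rw [this, this]
          norm_num
        · rw [gl_mem (vd_ib hx)]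
          norm_num
      have h1 := (vd_mem hd hu hL b (fun _ => 0) k).2 ⟨h0, hk⟩
      have hxD : x.1 ∈ D := by
        rw [← hu]
        exact Finset.mem_union_right _ x.2
      have h2 := K_bdd (B := 1 / 2) (by norm_num) (fun z _ _ => hb z) h1.1 ⟨x.1, hxD⟩
      have h3 : (jn L R (fun _ => 0) k : D → ℝ) ⟨x.1, hxD⟩ = k x := by
        unfold jn
        rw [gl_mem x.2]
      rw [h3] at h2
      exact h2
    have hsub : vdP L R b ⊆ Icc (fun _ => -(1 / 2 + (D.card : ℝ))) (fun _ => 1 / 2 + (D.card : ℝ)) :=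
      fun k hk => ⟨fun x => (abs_le.1 (hbd k hk x)).1, fun x => (abs_le.1 (hbd k hk x)).2⟩
    have hfin : volume (vdP L R b) < ⊤ := by
      refine (measure_mono hsub).trans_lt ?_
      rw [Real.volume_Icc_pi]
      exact ENNReal.prod_lt_top fun i _ => ENNReal.ofReal_lt_top
    have hcube : Icc (fun _ : R => (-(1 / 2) : ℝ)) (fun _ => (1 / 2 : ℝ)) ⊆ vdP L R b := by
      intro k hk
      have h1 : ∀ z, |gl R b k z| ≤ 1 / 2 := by
        intro z
        by_cases hz : z ∈ R
        · rw [gl_mem hz]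
          exact abs_le.2 ⟨hk.1 _, hk.2 _⟩
        · rw [gl_not_mem hz]
          exact hb z
      refine ⟨fun x _ i _ => ?_, fun x _ => h1 x⟩
      have h2 := h1 x
      have h3 := h1 (x + st i)
      rw [abs_le] at *
      constructor <;> linarith [h2.1, h2.2, h3.1, h3.2]
    have hpos : 0 < volume (vdP L R b) := by
      refine lt_of_lt_of_le ?_ (measure_mono hcube)
      rw [Real.volume_Icc_pi]
      norm_num
    -- the weight is continuous, hence bounded on the box
    have hcont : Continuous (fun k : R → ℝ => Real.exp (- Wph (ob L) T k)) := by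
      unfold Wph
      refine Real.continuous_exp.comp (Continuous.neg (continuous_const.mul
        (continuous_finsetSum _ fun x _ => ?_)))
      by_cases hx : x.1 ∈ ob L
      · simp only [hx, if_true]
        exact (phi_props.2.2.2.2.2.1.continuous).comp (continuous_apply x)
      · simp only [hx, if_false]
        exact continuous_const
    have hint : IntegrableOn (fun k : R → ℝ => Real.exp (- Wph (ob L) T k)) (vdP L R b) :=
      (hcont.continuousOn.integrableOn_compact isCompact_Icc).mono_set hsub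
    rw [setIntegral_pos_iff_support_of_nonneg_ae
      (ae_of_all _ fun k => (Real.exp_pos _).le) hint]
    have hsupp : Function.support (fun k : R → ℝ => Real.exp (- Wph (ob L) T k)) = univ := by
      ext k
      simp [Real.exp_ne_zero]
    rw [hsupp, univ_inter]
    exact hpos
  · intro G B hG _ hdep
    have hgm : ∀ (R : Finset (ℤ × ℤ)) (c : ℤ × ℤ → ℝ), Measurable (fun h : R → ℝ => gl R c h) :=
      fun R c => measurable_pi_lambda _ fun z => gl_meas R c z
    set Φ : (D → ℝ) → ℝ := fun h => G (gl D b h) * Real.exp (- Wph (lb L) T h) with hΦ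
    have hΦm : Measurable Φ :=
      (hG.comp (hgm D b)).mul (Real.measurable_exp.comp (vb_cont D (lb L) T).neg)
    rw [← integral_indicator (vc_meas D b (lb L)), ← integral_indicator (vdP_meas L R b),
      ← integral_indicator (vc_meas L (fun _ => 0) (ib L))]
    have hmp := vd_mp hd hu
    rw [← hmp.map_eq, integral_map hmp.measurable.aemeasurable
      ((hΦm.indicator (vc_meas D b (lb L))).aestronglyMeasurable), mul_comm,
      ← integral_prod_mul]
    refine integral_congr_ae (ae_of_all _ ?_)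
    rintro ⟨a, k⟩
    show (Sm D b (lb L)).indicator Φ (jn L R a k) =
      (Sm L (fun _ => 0) (ib L)).indicator (fun a => G (gl L (fun _ => 0) a) *
        Real.exp (- Wph (ib L) T a)) a *
      (vdP L R b).indicator (fun k => Real.exp (- Wph (ob L) T k)) k
    by_cases h : (jn L R a k : D → ℝ) ∈ Sm D b (lb L)
    · obtain ⟨h1, h2⟩ := (vd_mem hd hu hL b a k).1 h
      rw [indicator_of_mem h, indicator_of_mem h1, indicator_of_mem h2, hΦ]
      show G (gl D b (jn L R a k)) * Real.exp (- Wph (lb L) T (jn L R a k : D → ℝ)) = _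
      rw [vd_W hd hu, neg_add, Real.exp_add, ← mul_assoc]
      congr 2
      refine hdep _ _ fun z hz => ?_
      rw [gl_jn hd hu, gl_not_mem (Finset.disjoint_left.1 hd hz), gl_mem hz, gl_mem hz]
    · rw [indicator_of_notMem h]
      rw [vd_mem hd hu hL b a k, not_and_or] at h
      rcases h with h | h
      · rw [indicator_of_notMem h, zero_mul]
      · rw [indicator_of_notMem h, mul_zero]

/- END vd -/

/- MODULE ve
Translation of `L` (relabelling of the coordinates is measure preserving). -/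

private def ve_e (L : Finset (ℤ × ℤ)) (y : ℤ × ℤ) : L ≃ (L.image (fun z => y + z) : Finset (ℤ × ℤ)) where
  toFun x := ⟨y + x.1, Finset.mem_image.mpr ⟨x.1, x.2, rfl⟩⟩
  invFun x := ⟨x.1 - y, by
    obtain ⟨z, hz, hx⟩ := Finset.mem_image.mp x.2
    rw [← hx, add_sub_cancel_left]
    exact hz⟩
  left_inv x := by
    apply Subtype.ext
    simp
  right_inv x := by
    apply Subtype.ext
    simp

private theorem ve_mem {L : Finset (ℤ × ℤ)} {y z : ℤ × ℤ} :
    z ∈ L.image (fun z => y + z) ↔ z - y ∈ L := by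
  rw [Finset.mem_image]
  constructor
  · rintro ⟨w, hw, rfl⟩
    rwa [add_sub_cancel_left]
  · intro h
    exact ⟨z - y, h, by abel⟩

private def ve_F (L : Finset (ℤ × ℤ)) (y : ℤ × ℤ) :
    (L → ℝ) ≃ᵐ ((L.image (fun z => y + z) : Finset (ℤ × ℤ)) → ℝ) :=
  MeasurableEquiv.piCongrLeft (fun _ => ℝ) (ve_e L y)

private theorem ve_mp (L : Finset (ℤ × ℤ)) (y : ℤ × ℤ) :
    MeasurePreserving (ve_F L y) volume volume :=
  volume_measurePreserving_piCongrLeft (fun _ => ℝ) (ve_e L y)

private theorem ve_app {L : Finset (ℤ × ℤ)} {y : ℤ × ℤ} (a : L → ℝ)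
    (w : (L.image (fun z => y + z) : Finset (ℤ × ℤ))) :
    ve_F L y a w = a ((ve_e L y).symm w) := by
  have h := MeasurableEquiv.piCongrLeft_apply_apply (β := fun _ => ℝ) (ve_e L y) a
    ((ve_e L y).symm w)
  rw [Equiv.apply_symm_apply] at h
  exact h

private theorem ve_gl {L : Finset (ℤ × ℤ)} {y : ℤ × ℤ} (a : L → ℝ) (z : ℤ × ℤ) :
    gl (L.image (fun z => y + z)) (fun _ => 0) (ve_F L y a) z = gl L (fun _ => 0) a (z - y) := by
  unfold gl
  by_cases hz : z ∈ L.image (fun z => y + z)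
  · rw [dif_pos hz, dif_pos (ve_mem.mp hz), ve_app]
    rfl
  · rw [dif_neg hz, dif_neg (fun h => hz (ve_mem.mpr h))]

private theorem ve_ib {L : Finset (ℤ × ℤ)} {y z : ℤ × ℤ} :
    z ∈ ib (L.image (fun z => y + z)) ↔ z - y ∈ ib L := by
  unfold ib
  rw [Finset.mem_filter, Finset.mem_filter, ve_mem]
  refine and_congr_right fun _ => exists_congr fun i => ?_
  rw [ve_mem]
  have h : z + st i - y = z - y + st i := by abel
  rw [h]

private theorem ve_Sm {L : Finset (ℤ × ℤ)} {y : ℤ × ℤ} (a : L → ℝ) :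
    ve_F L y a ∈ Sm (L.image (fun z => y + z)) (fun _ => 0) (ib (L.image (fun z => y + z))) ↔
      a ∈ Sm L (fun _ => 0) (ib L) := by
  unfold Sm K
  simp only [Set.mem_ofPred_eq, ve_gl]
  constructor
  · rintro ⟨h1, h2⟩
    refine ⟨fun x hx i => ?_, fun x hx => ?_⟩
    · have h3 := h1 (y + x) (ve_mem.mpr (by rwa [add_sub_cancel_left])) i
      have h4 : y + x + st i - y = x + st i := by abel
      rwa [h4, add_sub_cancel_left] at h3
    · have h3 := h2 (y + x) (ve_ib.mpr (by rwa [add_sub_cancel_left]))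
      rwa [add_sub_cancel_left] at h3
  · rintro ⟨h1, h2⟩
    refine ⟨fun x hx i => ?_, fun x hx => ?_⟩
    · have h3 := h1 (x - y) (ve_mem.mp hx) i
      have h4 : x + st i - y = x - y + st i := by abel
      rwa [h4]
    · exact h2 (x - y) (ve_ib.mp hx)

private theorem ve_Wph {L : Finset (ℤ × ℤ)} {y : ℤ × ℤ} (T : ℝ) (a : L → ℝ) :
    Wph (ib (L.image (fun z => y + z))) T (ve_F L y a) = Wph (ib L) T a := by
  unfold Wph
  congr 1
  rw [← Equiv.sum_comp (ve_e L y)]
  refine Finset.sum_congr rfl fun x _ => ?_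
  rw [ve_app, Equiv.symm_apply_apply]
  have h : ((ve_e L y) x).1 ∈ ib (L.image (fun z => y + z)) ↔ x.1 ∈ ib L := by
    rw [ve_ib]
    have h2 : ((ve_e L y) x).1 - y = x.1 := by
      show y + x.1 - y = x.1
      abel
    rw [h2]
  by_cases hx : x.1 ∈ ib L
  · rw [if_pos hx, if_pos (h.mpr hx)]
  · rw [if_neg hx, if_neg (fun h' => hx (h.mp h'))]

private theorem ve_int (L : Finset (ℤ × ℤ)) (y : ℤ × ℤ) (T : ℝ) (G : (ℤ × ℤ → ℝ) → ℝ) :
    ∫ a in Sm (L.image (fun z => y + z)) (fun _ => 0) (ib (L.image (fun z => y + z))),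
      G (gl (L.image (fun z => y + z)) (fun _ => 0) a) *
        Real.exp (- Wph (ib (L.image (fun z => y + z))) T a) =
    ∫ a in Sm L (fun _ => 0) (ib L), G (fun z => gl L (fun _ => 0) a (z - y)) *
        Real.exp (- Wph (ib L) T a) := by
  rw [← (ve_mp L y).setIntegral_preimage_emb (ve_F L y).measurableEmbedding]
  have h1 : (ve_F L y) ⁻¹' (Sm (L.image (fun z => y + z)) (fun _ => 0)
      (ib (L.image (fun z => y + z)))) = Sm L (fun _ => 0) (ib L) := by
    ext a
    exact ve_Sm a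
  rw [h1]
  congr 1
  funext a
  rw [ve_Wph]
  have h2 : gl (L.image (fun z => y + z)) (fun _ => 0) (ve_F L y a) =
      fun z => gl L (fun _ => 0) a (z - y) := by
    funext z
    exact ve_gl a z
  rw [h2]

theorem In_tr (L : Finset (ℤ × ℤ)) (y : ℤ × ℤ) (T : ℝ) {G : (ℤ × ℤ → ℝ) → ℝ}
    (hG : Measurable G) :
    In (L.image (fun z => y + z)) T G = In L T (fun H => G (fun z => H (z - y))) := by
  unfold In
  rw [ve_int L y T G]
  have h := ve_int L y T (fun _ => 1)
  simp only [one_mul] at h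
  rw [h]

theorem In_bdd (L : Finset (ℤ × ℤ)) (T : ℝ) {G : (ℤ × ℤ → ℝ) → ℝ} {B : ℝ}
    (hG : Measurable G) (hB : ∀ H, |G H| ≤ B) : |In L T G| ≤ B := by
  have hB0 : 0 ≤ B := (abs_nonneg _).trans (hB (fun _ => 0))
  unfold In
  rw [abs_div]
  by_cases hi : Integrable (fun a : L → ℝ => Real.exp (- Wph (ib L) T a))
      (volume.restrict (Sm L (fun _ => 0) (ib L)))
  · have h1 : |∫ a in Sm L (fun _ => 0) (ib L), G (gl L (fun _ => 0) a) *
        Real.exp (- Wph (ib L) T a)| ≤
        B * ∫ a in Sm L (fun _ => 0) (ib L), Real.exp (- Wph (ib L) T a) := by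
      rw [← integral_const_mul, ← Real.norm_eq_abs]
      refine norm_integral_le_of_norm_le (hi.const_mul B) ?_
      refine Filter.Eventually.of_forall fun a => ?_
      rw [norm_mul, Real.norm_eq_abs, Real.norm_eq_abs, abs_of_pos (Real.exp_pos _)]
      exact mul_le_mul_of_nonneg_right (hB _) (Real.exp_pos _).le
    have h2 : 0 ≤ ∫ a in Sm L (fun _ => 0) (ib L), Real.exp (- Wph (ib L) T a) :=
      integral_nonneg fun a => (Real.exp_pos _).le
    rw [abs_of_nonneg h2]
    exact div_le_of_le_mul₀ h2 hB0 h1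
  · rw [integral_undef hi]
    simp [hB0]

/- END ve -/

/- MODULE vf
Let `p` = the weighted probability of `K \ Sm`; `EK (G) = ∫_{Sm} + ∫_{K \ Sm}`, `split` (for `G` and
for `1`) gives `|EK G / EK 1 - In L T G| ≤ 2 B p`, and `p ≤ e^{-T/10} Z_0 / Z_T` by `leak`, `pin_log`
(`Z_0 / Z_T = exp (log ..)`). -/

private theorem vf_cont {D : Finset (ℤ × ℤ)} (S : Finset (ℤ × ℤ)) (t : ℝ) :
    Continuous (fun h : D → ℝ => Wph S t h) := by
  unfold Wph
  refine continuous_const.mul (continuous_finsetSum _ fun x _ => ?_)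
  split_ifs
  · unfold phi
    fun_prop
  · exact continuous_const

private theorem vf_int1 {D : Finset (ℤ × ℤ)} (b : ℤ × ℤ → ℝ) (S : Finset (ℤ × ℤ)) (t : ℝ) :
    IntegrableOn (fun h : D → ℝ => Real.exp (- Wph S t h)) (K D b) := by
  have h1 := EK_int b (g := fun _ : D → ℝ => (1 : ℝ)) (vf_cont S t) continuous_const
  simpa only [one_mul] using h1

private theorem vf_int {D : Finset (ℤ × ℤ)} (b : ℤ × ℤ → ℝ)
    (S : Finset (ℤ × ℤ)) (t : ℝ) {F : (D → ℝ) → ℝ} {B : ℝ} (hF : Measurable F)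
    (hB : ∀ h, |F h| ≤ B) :
    IntegrableOn (fun h : D → ℝ => F h * Real.exp (- Wph S t h)) (K D b) := by
  have hm : Measurable (fun h : D → ℝ => F h * Real.exp (- Wph S t h)) :=
    hF.mul (Real.continuous_exp.comp (vf_cont S t).neg).measurable
  refine Integrable.mono' (g := fun h : D → ℝ => B * Real.exp (- Wph S t h))
    (Integrable.const_mul (vf_int1 b S t) B) hm.aestronglyMeasurable ?_
  refine Filter.Eventually.of_forall fun h => ?_
  rw [norm_mul, Real.norm_eq_abs, Real.norm_eq_abs, abs_of_pos (Real.exp_pos _)]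
  exact mul_le_mul_of_nonneg_right (hB h) (Real.exp_pos _).le

private theorem vf_pos {D : Finset (ℤ × ℤ)} {b : ℤ × ℤ → ℝ} (hb : ∀ z, |b z| ≤ 1 / 2)
    (S : Finset (ℤ × ℤ)) (t : ℝ) : 0 < EK D b (Wph S t) (fun _ => 1) := by
  unfold EK
  simp only [one_mul]
  rw [integral_pos_iff_support_of_nonneg (fun h => (Real.exp_pos _).le) (vf_int1 b S t)]
  have h1 : Function.support (fun h : D → ℝ => Real.exp (- Wph S t h)) = Set.univ := by
    rw [Function.support_eq_univ]
    exact fun h => (Real.exp_pos _).ne'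
  rw [h1, Measure.restrict_apply_univ]
  have h2 : 1 ≤ Z D b := Z_one_le (fun z _ _ => hb z)
  exact lt_of_lt_of_le one_pos h2

private theorem vf_Sm_meas (D : Finset (ℤ × ℤ)) (b : ℤ × ℤ → ℝ) (S : Finset (ℤ × ℤ)) :
    MeasurableSet (Sm D b S) := by
  have h : Sm D b S = K D b ∩ ⋂ x ∈ S, {h : D → ℝ | |gl D b h x| ≤ 1 / 2} := by
    ext h
    simp [Sm]
  rw [h]
  refine (K_meas D b).inter (Finset.measurableSet_biInter _ fun x _ => ?_)
  exact measurableSet_le ((gl_meas D b x).norm) measurable_const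

private theorem vf_gl_meas (D : Finset (ℤ × ℤ)) (b : ℤ × ℤ → ℝ) :
    Measurable (fun h : D → ℝ => gl D b h) :=
  measurable_pi_lambda _ fun z => gl_meas D b z

private theorem vf_le {D : Finset (ℤ × ℤ)} {b : ℤ × ℤ → ℝ} (S : Finset (ℤ × ℤ)) (t : ℝ)
    {F : (D → ℝ) → ℝ} {B : ℝ} (hB : ∀ h, |F h| ≤ B)
    {A : Set (D → ℝ)} (hA : A ⊆ K D b) :
    |∫ h in A, F h * Real.exp (- Wph S t h)| ≤ B * ∫ h in A, Real.exp (- Wph S t h) := by
  rw [← integral_const_mul, ← Real.norm_eq_abs]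
  refine norm_integral_le_of_norm_le (((vf_int1 b S t).mono_set hA).const_mul B) ?_
  refine Filter.Eventually.of_forall fun a => ?_
  rw [norm_mul, Real.norm_eq_abs, Real.norm_eq_abs, abs_of_pos (Real.exp_pos _)]
  exact mul_le_mul_of_nonneg_right (hB _) (Real.exp_pos _).le

private theorem vf_In {L : Finset (ℤ × ℤ)} {T : ℝ} {G : (ℤ × ℤ → ℝ) → ℝ} {B : ℝ}
    (hB : ∀ H, |G H| ≤ B) :
    (∫ a in Sm L (fun _ => 0) (ib L), G (gl L (fun _ => 0) a) * Real.exp (- Wph (ib L) T a)) =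
      In L T G * ∫ a in Sm L (fun _ => 0) (ib L), Real.exp (- Wph (ib L) T a) := by
  unfold In
  by_cases h0 : (∫ a in Sm L (fun _ => 0) (ib L), Real.exp (- Wph (ib L) T a)) = 0
  · have h1 := vf_le (D := L) (b := fun _ => 0) (ib L) T
      (F := fun a => G (gl L (fun _ => 0) a)) (fun h => hB _)
      (A := Sm L (fun _ => 0) (ib L)) (fun h hh => hh.1)
    rw [h0, mul_zero] at h1 ⊢
    exact abs_eq_zero.mp (le_antisymm h1 (abs_nonneg _))
  · rw [div_mul_cancel₀ _ h0]

theorem cmp_In {D L : Finset (ℤ × ℤ)} (hL : L ∪ ob L ⊆ D) {b : ℤ × ℤ → ℝ}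
    (hb : ∀ z, |b z| ≤ 1 / 2) {T : ℝ} (hT : 1 ≤ T) {G : (ℤ × ℤ → ℝ) → ℝ} {B : ℝ}
    (hG : Measurable G) (hB : ∀ H, |G H| ≤ B) (hd : Dep L G) :
    |EK D b (Wph (lb L) T) (fun h => G (gl D b h)) / EK D b (Wph (lb L) T) (fun _ => 1) -
        In L T G| ≤
      2 * B * Real.exp (- T / 10 + ((lb L).card : ℝ) *
        (10 + Real.log ((D.card : ℝ) + 1) + Real.log T)) := by
  have hB0 : 0 ≤ B := (abs_nonneg _).trans (hB (fun _ => 0))
  have hSD : lb L ⊆ D := by
    unfold lb
    refine (Finset.union_subset_union ?_ subset_rfl).trans hL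
    exact Finset.filter_subset _ _
  obtain ⟨c, hc, hs⟩ := split hL hb T
  have hmK := K_meas D b
  have hmS := vf_Sm_meas D b (lb L)
  have hsub : Sm D b (lb L) ⊆ K D b := fun h hh => hh.1
  have hGm : Measurable (fun h : D → ℝ => G (gl D b h)) := hG.comp (vf_gl_meas D b)
  -- splitting of the integrals
  have key : ∀ (F : (D → ℝ) → ℝ) (B' : ℝ), Measurable F → (∀ h, |F h| ≤ B') →
      EK D b (Wph (lb L) T) F = (∫ h in Sm D b (lb L), F h * Real.exp (- Wph (lb L) T h)) +
        ∫ h in K D b \ Sm D b (lb L), F h * Real.exp (- Wph (lb L) T h) := by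
    intro F B' hF hFB
    unfold EK
    have hi := vf_int b (lb L) T hF hFB
    rw [← setIntegral_union Set.disjoint_sdiff_right (hmK.diff hmS)
      (hi.mono_set hsub) (hi.mono_set Set.sdiff_subset), Set.union_sdiff_cancel hsub]
  have k1 := key (fun h => G (gl D b h)) B hGm (fun h => hB _)
  have k2 := key (fun _ => 1) 1 measurable_const (fun h => by simp)
  have s1 := hs G B hG hB hd
  have s2 := hs (fun _ => 1) 1 measurable_const (fun h => by simp) (fun H H' _ => rfl)
  simp only [one_mul] at k2 s2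
  rw [s1, vf_In hB] at k1
  rw [s2] at k2
  set N : ℝ := ∫ a in Sm L (fun _ => 0) (ib L), Real.exp (- Wph (ib L) T a) with hN
  set R1 : ℝ := ∫ h in K D b \ Sm D b (lb L), Real.exp (- Wph (lb L) T h) with hR1
  set RG : ℝ := ∫ h in K D b \ Sm D b (lb L), G (gl D b h) * Real.exp (- Wph (lb L) T h) with hRG
  set i : ℝ := In L T G with hi
  have hib : |i| ≤ B := In_bdd L T hG hB
  have hRGb : |RG| ≤ B * R1 :=
    vf_le (b := b) (lb L) T (F := fun h => G (gl D b h)) (fun h => hB _) Set.sdiff_subset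
  have hR0 : 0 ≤ R1 := integral_nonneg fun h => (Real.exp_pos _).le
  have hZ : 0 < EK D b (Wph (lb L) T) (fun _ => 1) := vf_pos hb (lb L) T
  have hZ0 : 0 < EK D b (Wph (lb L) 0) (fun _ => 1) := vf_pos hb (lb L) 0
  have hleak : R1 ≤ Real.exp (- T / 10) * EK D b (Wph (lb L) 0) (fun _ => 1) :=
    leak hSD hb (by linarith)
  have hlog := pin_log hSD hb hT
  have hexp : EK D b (Wph (lb L) 0) (fun _ => 1) / EK D b (Wph (lb L) T) (fun _ => 1) ≤
      Real.exp (((lb L).card : ℝ) * (10 + Real.log ((D.card : ℝ) + 1) + Real.log T)) := by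
    rw [← Real.exp_log (div_pos hZ0 hZ)]
    exact Real.exp_le_exp.mpr hlog
  have hdiff : EK D b (Wph (lb L) T) (fun h => G (gl D b h)) /
      EK D b (Wph (lb L) T) (fun _ => 1) - i =
      (RG - i * R1) / EK D b (Wph (lb L) T) (fun _ => 1) := by
    rw [div_sub' hZ.ne']
    congr 1
    rw [k1]
    nth_rewrite 1 [k2]
    ring
  rw [hdiff, abs_div, abs_of_pos hZ]
  have h1 : |RG - i * R1| ≤ 2 * B * R1 := by
    calc |RG - i * R1| ≤ |RG| + |i * R1| := abs_sub _ _
      _ ≤ B * R1 + B * R1 := by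
          rw [abs_mul, abs_of_nonneg hR0]
          exact add_le_add hRGb (mul_le_mul_of_nonneg_right hib hR0)
      _ = 2 * B * R1 := by ring
  calc |RG - i * R1| / EK D b (Wph (lb L) T) (fun _ => 1)
      ≤ (2 * B * (Real.exp (- T / 10) * EK D b (Wph (lb L) 0) (fun _ => 1))) /
        EK D b (Wph (lb L) T) (fun _ => 1) := by
        refine div_le_div_of_nonneg_right (h1.trans ?_) hZ.le
        exact mul_le_mul_of_nonneg_left hleak (by positivity)
    _ = 2 * B * Real.exp (- T / 10) * (EK D b (Wph (lb L) 0) (fun _ => 1) /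
        EK D b (Wph (lb L) T) (fun _ => 1)) := by ring
    _ ≤ 2 * B * Real.exp (- T / 10) * Real.exp (((lb L).card : ℝ) *
        (10 + Real.log ((D.card : ℝ) + 1) + Real.log T)) :=
        mul_le_mul_of_nonneg_left hexp (by positivity)
    _ = _ := by
        rw [mul_assoc, ← Real.exp_add]

/- END vf -/

/- MODULE vg
UNIVERSALITY.  `path_le` with `μ = volume.restrict (K D b)`, `X = ∑_{x ∈ lb L} phi (h x)` (so
`Wph (lb L) t = t X`, `It μ X G t = EK D b (Wph ..) G`, `Vt ≤ V`), `E_0 X ≤ |S| (|D| + 1)`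
(`phi z ≤ |z|`, `K_bdd`), `pin_log`, `cmp_In`. -/

private def vg_X {D : Finset (ℤ × ℤ)} (S : Finset (ℤ × ℤ)) (h : D → ℝ) : ℝ :=
  ∑ x : D, if x.1 ∈ S then phi (h x) else 0

private theorem vg_W {D : Finset (ℤ × ℤ)} (S : Finset (ℤ × ℤ)) (t : ℝ) (h : D → ℝ) :
    Wph S t h = t * vg_X S h := rfl

private theorem vg_It {D : Finset (ℤ × ℤ)} (b : ℤ × ℤ → ℝ) (S : Finset (ℤ × ℤ)) (t : ℝ)
    (F : (D → ℝ) → ℝ) :
    It (volume.restrict (K D b)) (vg_X S) F t = EK D b (Wph S t) F := rfl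

private theorem vg_phi_le (z : ℝ) : phi z ≤ |z| := by
  unfold phi
  have h : Real.sqrt (1 + z ^ 2) ≤ 1 + |z| := by
    rw [Real.sqrt_le_left (by positivity)]
    nlinarith [sq_abs z, abs_nonneg z]
  linarith

private theorem vg_X_nonneg {D : Finset (ℤ × ℤ)} (S : Finset (ℤ × ℤ)) (h : D → ℝ) :
    0 ≤ vg_X S h := by
  unfold vg_X
  refine Finset.sum_nonneg fun x _ => ?_
  split_ifs
  · exact phi_props.1 _
  · exact le_rfl

private theorem vg_X_meas {D : Finset (ℤ × ℤ)} (S : Finset (ℤ × ℤ)) :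
    Measurable (vg_X (D := D) S) := by
  unfold vg_X
  refine Finset.measurable_fun_sum _ fun x _ => ?_
  split_ifs
  · unfold phi
    fun_prop
  · exact measurable_const

private theorem vg_X_le {D : Finset (ℤ × ℤ)} {b : ℤ × ℤ → ℝ} (hb : ∀ z, |b z| ≤ 1 / 2)
    {S : Finset (ℤ × ℤ)} {h : D → ℝ} (hh : h ∈ K D b) :
    vg_X S h ≤ (S.card : ℝ) * ((D.card : ℝ) + 1) := by
  classical
  unfold vg_X
  have h1 : ∀ x : D, (if x.1 ∈ S then phi (h x) else 0) ≤
      (if x.1 ∈ S then ((D.card : ℝ) + 1) else 0) := by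
    intro x
    split_ifs
    · have h2 := K_bdd (B := 1 / 2) (by norm_num) (fun z _ _ => hb z) hh x
      have h3 := vg_phi_le (h x)
      linarith
    · exact le_rfl
  refine (Finset.sum_le_sum fun x _ => h1 x).trans ?_
  rw [← Finset.sum_filter, Finset.sum_const, nsmul_eq_mul]
  refine mul_le_mul_of_nonneg_right ?_ (by positivity)
  have h4 : ((Finset.univ : Finset D).filter (fun x => x.1 ∈ S)).card ≤ S.card := by
    refine Finset.card_le_card_of_injOn (fun x => x.1) ?_ ?_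
    · intro x hx
      have := (Finset.mem_filter.mp (Finset.mem_coe.mp hx)).2
      exact this
    · intro x _ y _ hxy
      exact Subtype.ext hxy
  exact_mod_cast h4

theorem uni_gen {D L : Finset (ℤ × ℤ)} (hL : L ∪ ob L ⊆ D) {b : ℤ × ℤ → ℝ}
    (hb : ∀ z, |b z| ≤ 1 / 2) {a T V : ℝ} (ha : 0 < a) (haT : a ≤ T) (hT : 1 ≤ T)
    {G : (ℤ × ℤ → ℝ) → ℝ} {B : ℝ} (hG : Measurable G) (hB : ∀ H, |G H| ≤ B) (hd : Dep L G)
    (hV : ∀ t, 0 ≤ t → t ≤ T → VK D b (Wph (lb L) t) (fun h => G (gl D b h)) ≤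
      V * EK D b (Wph (lb L) t) (fun _ => 1)) :
    |(∫ h, G (gl D b h) ∂(ProbabilityTheory.cond volume (K D b))) - In L T G| ≤
      Real.sqrt V * (Real.sqrt (a * (((lb L).card : ℝ) * ((D.card : ℝ) + 1))) +
        Real.sqrt (Real.log (T / a) * (((lb L).card : ℝ) *
          (10 + Real.log ((D.card : ℝ) + 1) + Real.log T)))) +
      2 * B * Real.exp (- T / 10 + ((lb L).card : ℝ) *
        (10 + Real.log ((D.card : ℝ) + 1) + Real.log T)) := by
  have hSD : lb L ⊆ D := by
    unfold lb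
    refine (Finset.union_subset_union ?_ subset_rfl).trans hL
    exact Finset.filter_subset _ _
  have hGm : Measurable (fun h : D → ℝ => G (gl D b h)) := hG.comp (vf_gl_meas D b)
  have hZ1 : 1 ≤ volume (K D b) := Z_one_le (fun z _ _ => hb z)
  have hZt : volume (K D b) < ⊤ := Z_lt_top D b
  have hfin : IsFiniteMeasure (volume.restrict (K D b)) :=
    ⟨by rw [Measure.restrict_apply_univ]; exact hZt⟩
  have hne : volume.restrict (K D b) ≠ 0 := by
    intro h0
    have h1 : volume.restrict (K D b) Set.univ = 0 := by rw [h0]; rfl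
    rw [Measure.restrict_apply_univ] at h1
    rw [h1] at hZ1
    exact absurd hZ1 (by norm_num)
  have hX : Bd (volume.restrict (K D b)) (vg_X (lb L))
      (((lb L).card : ℝ) * ((D.card : ℝ) + 1)) := by
    refine ⟨vg_X_meas _, ?_⟩
    rw [ae_restrict_iff' (K_meas D b)]
    refine Filter.Eventually.of_forall fun h hh => ?_
    rw [abs_of_nonneg (vg_X_nonneg _ _)]
    exact vg_X_le hb hh
  have hGb : Bd (volume.restrict (K D b)) (fun h => G (gl D b h)) B :=
    ⟨hGm, Filter.Eventually.of_forall fun h => hB _⟩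
  have hV' : ∀ t, 0 ≤ t → t ≤ T →
      Vt (volume.restrict (K D b)) (vg_X (lb L)) (fun h => G (gl D b h)) t ≤ V := by
    intro t h0 h1
    have h2 := hV t h0 h1
    have h3 : Vt (volume.restrict (K D b)) (vg_X (lb L)) (fun h => G (gl D b h)) t =
        VK D b (Wph (lb L) t) (fun h => G (gl D b h)) / EK D b (Wph (lb L) t) (fun _ => 1) := rfl
    rw [h3, div_le_iff₀ (vf_pos hb (lb L) t)]
    exact h2
  have hpath := path_le hne hX (Filter.Eventually.of_forall fun h => vg_X_nonneg _ h) hGb ha haT hV'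
  have hZT : 0 < EK D b (Wph (lb L) T) (fun _ => 1) := vf_pos hb (lb L) T
  have hZ0 : 0 < EK D b (Wph (lb L) 0) (fun _ => 1) := vf_pos hb (lb L) 0
  -- the mean of X at 0
  have hMX : Mt (volume.restrict (K D b)) (vg_X (lb L)) (vg_X (lb L)) 0 ≤
      ((lb L).card : ℝ) * ((D.card : ℝ) + 1) := by
    have h3 : Mt (volume.restrict (K D b)) (vg_X (lb L)) (vg_X (lb L)) 0 =
        EK D b (Wph (lb L) 0) (vg_X (lb L)) / EK D b (Wph (lb L) 0) (fun _ => 1) := rfl
    rw [h3, div_le_iff₀ hZ0]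
    unfold EK
    rw [← integral_const_mul]
    refine integral_mono_of_nonneg ?_ ?_ ?_
    · exact Filter.Eventually.of_forall fun h => mul_nonneg (vg_X_nonneg _ _) (Real.exp_pos _).le
    · have h4 := (vf_int1 (D := D) b (lb L) 0).const_mul (((lb L).card : ℝ) * ((D.card : ℝ) + 1))
      simpa only [one_mul] using h4
    · rw [Filter.EventuallyLE, ae_restrict_iff' (K_meas D b)]
      refine Filter.Eventually.of_forall fun h hh => ?_
      rw [one_mul]
      exact mul_le_mul_of_nonneg_right (vg_X_le hb hh) (Real.exp_pos _).le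
  have hlog : Real.log (Zt (volume.restrict (K D b)) (vg_X (lb L)) 0 /
      Zt (volume.restrict (K D b)) (vg_X (lb L)) T) ≤
      ((lb L).card : ℝ) * (10 + Real.log ((D.card : ℝ) + 1) + Real.log T) := pin_log hSD hb hT
  have hTa : 0 ≤ Real.log (T / a) := Real.log_nonneg ((one_le_div ha).mpr haT)
  -- the mean of G at 0
  have hM0 : (∫ h, G (gl D b h) ∂(ProbabilityTheory.cond volume (K D b))) =
      Mt (volume.restrict (K D b)) (vg_X (lb L)) (fun h => G (gl D b h)) 0 := by
    unfold Mt Zt It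
    simp only [zero_mul, neg_zero, Real.exp_zero, mul_one]
    rw [ProbabilityTheory.cond, integral_smul_measure]
    have h8 : ∫ _h in K D b, (1 : ℝ) = (volume (K D b)).toReal := by
      rw [integral_const, smul_eq_mul, mul_one, Measure.real, Measure.restrict_apply_univ]
    rw [h8, ENNReal.toReal_inv, smul_eq_mul, div_eq_mul_inv, mul_comm]
  have hMT : EK D b (Wph (lb L) T) (fun h => G (gl D b h)) /
      EK D b (Wph (lb L) T) (fun _ => 1) =
      Mt (volume.restrict (K D b)) (vg_X (lb L)) (fun h => G (gl D b h)) T := rfl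
  have hcmp := cmp_In hL hb hT hG hB hd
  rw [hMT] at hcmp
  rw [hM0]
  have h5 : Real.sqrt (a * Mt (volume.restrict (K D b)) (vg_X (lb L)) (vg_X (lb L)) 0) ≤
      Real.sqrt (a * (((lb L).card : ℝ) * ((D.card : ℝ) + 1))) :=
    Real.sqrt_le_sqrt (mul_le_mul_of_nonneg_left hMX ha.le)
  have h6 : Real.sqrt (Real.log (T / a) * Real.log (Zt (volume.restrict (K D b)) (vg_X (lb L)) 0 /
      Zt (volume.restrict (K D b)) (vg_X (lb L)) T)) ≤
      Real.sqrt (Real.log (T / a) * (((lb L).card : ℝ) *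
          (10 + Real.log ((D.card : ℝ) + 1) + Real.log T))) :=
    Real.sqrt_le_sqrt (mul_le_mul_of_nonneg_left hlog hTa)
  have h7 := mul_le_mul_of_nonneg_left (add_le_add h5 h6) (Real.sqrt_nonneg V)
  set M0 := Mt (volume.restrict (K D b)) (vg_X (lb L)) (fun h => G (gl D b h)) 0
  set MT := Mt (volume.restrict (K D b)) (vg_X (lb L)) (fun h => G (gl D b h)) T
  calc |M0 - In L T G| ≤ |M0 - MT| + |MT - In L T G| := abs_sub_le _ _ _
    _ ≤ _ := by
        rw [abs_sub_comm M0 MT]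
        exact add_le_add (hpath.trans h7) hcmp

/- END vg -/

end Pool.Agent.Hgf
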