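import Pool.Agent.Hgf.Wt

import Pool.Agent.Hgf.Poi

/-!
# Hgf (MP_161523_pr, Q2): near-optimal fields on `K` (soft model, `s → ∞`)
-/

set_option autoImplicit false

open MeasureTheory Set Filter

open scoped ENNReal SchwartzMap ContDiff Topology

noncomputable section

namespace Pool.Agent.Hgf

open Pool.Agent.Hmk

/- MODULE sa
`L1_le`, `poinc` (with `R = 2 (|D| + 1)`, `K_bdd`), `poinc_L2`, `1 ≤ volume K` (`Z_one_le`),
`∫_K gr (w x) ≤ ET`. -/

theorem L2_bd {D : Finset (ℤ × ℤ)} {b : ℤ × ℤ → ℝ} (hb : ∀ z, |b z| ≤ 1 / 2) :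
    ∃ c : ℝ≥0∞, c < ⊤ ∧ ∃ s₀ : ℝ, 1 ≤ s₀ ∧ ∀ s, s₀ ≤ s → ∀ w : D → (D → ℝ) → ℝ,
      (∀ x, ContDiff ℝ 1 (w x)) → ∀ x,
        ∫⁻ h in K D b, ENNReal.ofReal ((w x h) ^ 2) ≤ c * (ET D b w + E2 D b s w) := by
  obtain ⟨c, hc, s₀, hs₀, H⟩ := L1_le (D := D) (b := b) hb
  have hKt : volume (K D b) < ⊤ := Z_lt_top D b
  have hK1 : 1 ≤ volume (K D b) := Z_one_le (fun z _ _ => hb z)
  set R : ℝ := 2 * ((D.card : ℝ) + 1) with hRdef
  set A : ℝ≥0∞ := ENNReal.ofReal ((Fintype.card D : ℝ) * R ^ 2) * 2 ^ (Fintype.card D) *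
    volume (K D b) with hA
  have hAt : A < ⊤ := by
    rw [hA]
    exact ENNReal.mul_lt_top (ENNReal.mul_lt_top ENNReal.ofReal_lt_top
      (ENNReal.pow_lt_top (by norm_num))) hKt
  have hR : ∀ x ∈ K D b, ∀ y ∈ K D b, ‖x - y‖ ≤ R := by
    intro x hx y hy
    refine (pi_norm_le_iff_of_nonneg (by positivity)).2 fun z => ?_
    have h1 := K_bdd (B := 1 / 2) (by norm_num) (fun z _ _ => hb z) hx z
    have h2 := K_bdd (B := 1 / 2) (by norm_num) (fun z _ _ => hb z) hy z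
    rw [Real.norm_eq_abs, Pi.sub_apply]
    rw [abs_le] at h1 h2 ⊢
    constructor <;> linarith [h1.1, h1.2, h2.1, h2.2]
  refine ⟨2 * A + 2 * c ^ 2, ?_, s₀, hs₀, ?_⟩
  · exact ENNReal.add_lt_top.2 ⟨ENNReal.mul_lt_top (by norm_num) hAt,
      ENNReal.mul_lt_top (by norm_num) (ENNReal.pow_lt_top hc)⟩
  intro s hs w hw x
  have h1 := H s hs w hw x
  have h2 := poinc (K_convex D b) (K_meas D b) hR (hw x)
  have h3 := poinc_L2 (K_meas D b) (hw x).continuous.measurable hKt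
  have h4 : ∫⁻ h in K D b, ENNReal.ofReal (gr (w x) h) ≤ ET D b w + E2 D b s w := by
    refine le_trans ?_ le_self_add
    unfold ET
    exact Finset.single_le_sum (f := fun x : D => Gr D b (w x)) (fun _ _ => zero_le)
      (Finset.mem_univ x)
  have h5 : (∫⁻ h in K D b, ENNReal.ofReal |w x h|) ^ 2 ≤ c ^ 2 * (ET D b w + E2 D b s w) := by
    calc (∫⁻ h in K D b, ENNReal.ofReal |w x h|) ^ 2
        ≤ (c * (ET D b w + E2 D b s w) ^ (1 / 2 : ℝ)) ^ 2 := by gcongr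
      _ = c ^ 2 * (ET D b w + E2 D b s w) := by
        rw [mul_pow, ← ENNReal.rpow_natCast ((ET D b w + E2 D b s w) ^ (1 / 2 : ℝ)) 2,
          ← ENNReal.rpow_mul]
        norm_num
  calc ∫⁻ h in K D b, ENNReal.ofReal ((w x h) ^ 2)
      ≤ volume (K D b) * ∫⁻ h in K D b, ENNReal.ofReal ((w x h) ^ 2) :=
        le_mul_of_one_le_left zero_le hK1
    _ ≤ 2 * (∫⁻ y in K D b, ∫⁻ z in K D b, ENNReal.ofReal ((w x y - w x z) ^ 2)) +
        2 * (∫⁻ y in K D b, ENNReal.ofReal |w x y|) ^ 2 := h3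
    _ ≤ 2 * (A * (ET D b w + E2 D b s w)) + 2 * (c ^ 2 * (ET D b w + E2 D b s w)) := by
        gcongr
        exact h2.trans (by gcongr)
    _ = (2 * A + 2 * c ^ 2) * (ET D b w + E2 D b s w) := by ring

/- END sa -/

/- MODULE sb
`av V x f * e^{-V/2} = wS x * e^{-V}`.  On `K` replace `e^{-V}` by `e^{-W}`
(`0 ≤ 1 - e^{-Vs} ≤ 6 |D| / s`); outside use `ext_Vw` with `ζ = av V x f`, `|pd x F| ≤ C`,
`|ζ| e^{-V/2} = |wS x| e^{-V} ≤ |wS x|`. -/

private theorem sb_half (t : ℝ) : Real.exp (t / 2) * Real.exp (- t) = Real.exp (- t / 2) := by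
  rw [← Real.exp_add]
  congr 1
  ring

private theorem sb_one {D : Finset (ℤ × ℤ)} {b : ℤ × ℤ → ℝ} {c : ℝ} (hc : 0 ≤ c)
    {W F : (D → ℝ) → ℝ} (hW : Wok W) {C : ℝ} (hF : Fok F C) {s : ℝ} (hs : 1 ≤ s)
    (f : 𝓢(D → ℝ, ℝ)) (x : D)
    (H : ∀ ζ : 𝓢(D → ℝ, ℝ),
      ∫ h in (K D b)ᶜ, |ζ h| * Real.exp (- Vw D b W s h / 2) ≤
        c / s * ((∫ h in K D b, |ζ h| * Real.exp (- Vw D b W s h / 2)) +
          Real.sqrt (∑ x, ∫ h, (av (Vw D b W s) x ζ h) ^ 2))) :
    ∫ h, pd x F h * av (Vw D b W s) x f h * Real.exp (- Vw D b W s h / 2) ≤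
      (∫ h in K D b, pd x F h * wS D b W s f x h * Real.exp (- W h)) +
        C * (6 * (D.card : ℝ) / s) * (∫ h in K D b, |wS D b W s f x h|) +
        C * (c / s) * ((∫ h in K D b, |wS D b W s f x h|) +
          Real.sqrt (∑ x, ∑ y, ∫ h, (av (Vw D b W s) y (av (Vw D b W s) x f) h) ^ 2)) := by
  classical
  have hKm := K_meas D b
  have hC : 0 ≤ C := (abs_nonneg _).trans (hF.grad x 0)
  have hVt := Vw_temp b hW hs
  set V := Vw D b W s with hV
  set ζ : 𝓢(D → ℝ, ℝ) := av V x f with hζ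
  have hVc : Continuous V := hVt.1.continuous
  have hWc : Continuous W := hW.temp.1.continuous
  have hpc : Continuous (pd x F) := (pd_temp hF.temp x).1.continuous
  have hV0 : ∀ h, 0 ≤ V h := fun h => add_nonneg (Vs_nonneg D b hs h) (hW.nonneg h)
  have hE1 : ∀ h, Real.exp (- V h / 2) ≤ 1 := fun h => by
    refine Real.exp_le_one_iff.2 ?_
    have := hV0 h
    linarith
  have hec : Continuous (fun h => Real.exp (- V h / 2)) :=
    Real.continuous_exp.comp (hVc.neg.div_const 2)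
  have hint : Integrable (fun h => |ζ h| * Real.exp (- V h / 2)) := by
    refine Integrable.mul_bdd (c := 1) ζ.integrable.abs hec.aestronglyMeasurable ?_
    refine Filter.Eventually.of_forall fun h => ?_
    rw [Real.norm_eq_abs, abs_of_pos (Real.exp_pos _)]
    exact hE1 h
  have hint2 : Integrable (fun h => pd x F h * ζ h * Real.exp (- V h / 2)) := by
    refine (hint.const_mul C).mono' ((hpc.mul ζ.continuous).mul hec).aestronglyMeasurable
      (Filter.Eventually.of_forall fun h => ?_)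
    rw [Real.norm_eq_abs, abs_mul, abs_mul, abs_of_pos (Real.exp_pos _), mul_assoc]
    exact mul_le_mul_of_nonneg_right (hF.grad x h) (by positivity)
  have hwc : Continuous (wS D b W s f x) := (wS_smooth b hW hs f x).continuous
  have hwe : ∀ h, wS D b W s f x h = Real.exp (V h / 2) * ζ h := fun h => rfl
  have hwi : IntegrableOn (fun h => |wS D b W s f x h|) (K D b) := by
    have h1 := EK_int b (W := fun _ => 0) continuous_const hwc.abs
    simpa using h1
  -- inside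
  have hin : ∫ h in K D b, pd x F h * ζ h * Real.exp (- V h / 2) ≤
      (∫ h in K D b, pd x F h * wS D b W s f x h * Real.exp (- W h)) +
        C * (6 * (D.card : ℝ) / s) * (∫ h in K D b, |wS D b W s f x h|) := by
    have hi1 : IntegrableOn (fun h => pd x F h * wS D b W s f x h * Real.exp (- W h)) (K D b) :=
      EK_int b hWc (hpc.mul hwc)
    have hi2 : IntegrableOn (fun h => C * (6 * (D.card : ℝ) / s) * |wS D b W s f x h|) (K D b) :=
      hwi.const_mul _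
    rw [← integral_const_mul, ← integral_add hi1 hi2]
    refine setIntegral_mono_on hint2.integrableOn (hi1.add hi2) hKm fun h hh => ?_
    have hVs := Vs_K hs hh
    have hVs0 := Vs_nonneg D b hs h
    have e1 : ζ h * Real.exp (- V h / 2) =
        wS D b W s f x h * (Real.exp (- W h) * Real.exp (- Vs D b s h)) := by
      rw [hwe, ← Real.exp_add, show - W h + - Vs D b s h = - V h by rw [hV]; unfold Vw; ring,
        ← sb_half (V h)]
      ring
    have e2 : 1 - Real.exp (- Vs D b s h) ≤ 6 * (D.card : ℝ) / s := by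
      have := Real.add_one_le_exp (- Vs D b s h)
      linarith
    have e3 : 0 ≤ 1 - Real.exp (- Vs D b s h) := by
      have := Real.exp_le_one_iff.2 (neg_nonpos.2 hVs0)
      linarith
    have e4 : Real.exp (- W h) ≤ 1 := Real.exp_le_one_iff.2 (neg_nonpos.2 (hW.nonneg h))
    have e5 : pd x F h * ζ h * Real.exp (- V h / 2) =
        pd x F h * wS D b W s f x h * Real.exp (- W h) -
          pd x F h * wS D b W s f x h * Real.exp (- W h) * (1 - Real.exp (- Vs D b s h)) := by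
      rw [mul_assoc, e1]
      ring
    rw [e5]
    have e6 : - (pd x F h * wS D b W s f x h * Real.exp (- W h) *
        (1 - Real.exp (- Vs D b s h))) ≤
        C * (6 * (D.card : ℝ) / s) * |wS D b W s f x h| := by
      refine (neg_le_abs _).trans ?_
      rw [abs_mul, abs_mul, abs_mul, abs_of_pos (Real.exp_pos _), abs_of_nonneg e3]
      calc |pd x F h| * |wS D b W s f x h| * Real.exp (- W h) * (1 - Real.exp (- Vs D b s h))
          ≤ C * |wS D b W s f x h| * 1 * (6 * (D.card : ℝ) / s) := by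
            gcongr
            exact hF.grad x h
        _ = _ := by ring
    linarith
  -- outside
  have hout : ∫ h in (K D b)ᶜ, pd x F h * ζ h * Real.exp (- V h / 2) ≤
      C * (c / s) * ((∫ h in K D b, |wS D b W s f x h|) +
          Real.sqrt (∑ x, ∑ y, ∫ h, (av V y (av V x f) h) ^ 2)) := by
    have h1 : ∫ h in (K D b)ᶜ, pd x F h * ζ h * Real.exp (- V h / 2) ≤
        C * ∫ h in (K D b)ᶜ, |ζ h| * Real.exp (- V h / 2) := by
      rw [← integral_const_mul]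
      refine integral_mono hint2.integrableOn (hint.integrableOn.const_mul C) fun h => ?_
      refine (le_abs_self _).trans ?_
      rw [abs_mul, abs_mul, abs_of_pos (Real.exp_pos _), mul_assoc]
      exact mul_le_mul_of_nonneg_right (hF.grad x h) (by positivity)
    have h2 := H ζ
    have h3 : ∫ h in K D b, |ζ h| * Real.exp (- V h / 2) ≤ ∫ h in K D b, |wS D b W s f x h| := by
      refine integral_mono hint.integrableOn hwi fun h => ?_
      show |ζ h| * Real.exp (- V h / 2) ≤ |wS D b W s f x h|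
      rw [hwe, abs_mul, abs_of_pos (Real.exp_pos _), mul_comm]
      refine mul_le_mul_of_nonneg_right (Real.exp_le_exp.2 ?_) (abs_nonneg _)
      have := hV0 h
      linarith
    have h4 : ∑ y, ∫ h, (av V y ζ h) ^ 2 ≤ ∑ x, ∑ y, ∫ h, (av V y (av V x f) h) ^ 2 :=
      Finset.single_le_sum (f := fun x => ∑ y, ∫ h, (av V y (av V x f) h) ^ 2)
        (fun x _ => Finset.sum_nonneg fun y _ => integral_nonneg fun h => sq_nonneg _)
        (Finset.mem_univ x)
    have hcs : 0 ≤ c / s := div_nonneg hc (by linarith)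
    calc ∫ h in (K D b)ᶜ, pd x F h * ζ h * Real.exp (- V h / 2)
        ≤ C * ∫ h in (K D b)ᶜ, |ζ h| * Real.exp (- V h / 2) := h1
      _ ≤ C * (c / s * ((∫ h in K D b, |wS D b W s f x h|) +
          Real.sqrt (∑ x, ∑ y, ∫ h, (av V y (av V x f) h) ^ 2))) := by
          refine mul_le_mul_of_nonneg_left (h2.trans (mul_le_mul_of_nonneg_left ?_ hcs)) hC
          exact add_le_add h3 (Real.sqrt_le_sqrt h4)
      _ = _ := by ring
  have hsplit : ∫ h, pd x F h * ζ h * Real.exp (- V h / 2) =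
      (∫ h in K D b, pd x F h * ζ h * Real.exp (- V h / 2)) +
      ∫ h in (K D b)ᶜ, pd x F h * ζ h * Real.exp (- V h / 2) :=
    (integral_add_compl hKm hint2).symm
  rw [hsplit]
  exact add_le_add hin hout

theorem lin_le {D : Finset (ℤ × ℤ)} {b : ℤ × ℤ → ℝ} (hb : ∀ z, |b z| ≤ 1 / 2) (C : ℝ) :
    ∃ c s₀ : ℝ, 0 ≤ c ∧ 1 ≤ s₀ ∧ ∀ W : (D → ℝ) → ℝ, Wok W → ∀ F : (D → ℝ) → ℝ, Fok F C →
      ∀ s, s₀ ≤ s → ∀ f : 𝓢(D → ℝ, ℝ),
      ∑ x, ∫ h, pd x F h * av (Vw D b W s) x f h * Real.exp (- Vw D b W s h / 2) ≤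
        EK D b W (fun h => ∑ x, pd x F h * wS D b W s f x h) +
          c / s * ((∑ x, ∫ h in K D b, |wS D b W s f x h|) +
            Real.sqrt (∑ x, ∑ y, ∫ h, (av (Vw D b W s) y (av (Vw D b W s) x f) h) ^ 2)) := by
  classical
  obtain ⟨c₀, s₀, hc₀, hs₀, H⟩ := ext_Vw (D := D) (b := b) hb
  refine ⟨|C| * (6 * (D.card : ℝ) + c₀ * ((D.card : ℝ) + 1)), s₀, by positivity, hs₀, ?_⟩
  intro W hW F hF s hs f
  have hs1 : 1 ≤ s := hs₀.trans hs
  have hs0 : 0 < s := by linarith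
  have hWc : Continuous W := hW.temp.1.continuous
  set E : ℝ := Real.sqrt (∑ x, ∑ y, ∫ h, (av (Vw D b W s) y (av (Vw D b W s) x f) h) ^ 2) with hE
  have hE0 : 0 ≤ E := Real.sqrt_nonneg _
  set I : D → ℝ := fun x => ∫ h in K D b, |wS D b W s f x h| with hI
  have hI0 : ∀ x, 0 ≤ I x := fun x => integral_nonneg fun h => abs_nonneg _
  have key : ∀ x, ∫ h, pd x F h * av (Vw D b W s) x f h * Real.exp (- Vw D b W s h / 2) ≤
      (∫ h in K D b, pd x F h * wS D b W s f x h * Real.exp (- W h)) +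
        |C| * (6 * (D.card : ℝ) / s) * I x + |C| * (c₀ / s) * (I x + E) := by
    intro x
    have hC : 0 ≤ C := (abs_nonneg _).trans (hF.grad x 0)
    rw [abs_of_nonneg hC]
    exact sb_one hc₀ hW hF hs1 f x (H W hW s hs)
  have hsum : EK D b W (fun h => ∑ x, pd x F h * wS D b W s f x h) =
      ∑ x, ∫ h in K D b, pd x F h * wS D b W s f x h * Real.exp (- W h) := by
    unfold EK
    rw [← integral_finsetSum]
    · refine integral_congr_ae (Filter.Eventually.of_forall fun h => ?_)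
      simp only [Finset.sum_mul]
    · intro x _
      exact EK_int b hWc (((pd_temp hF.temp x).1.continuous).mul
        (wS_smooth b hW hs1 f x).continuous)
  have hcard : (Fintype.card D : ℝ) = (D.card : ℝ) := by simp
  calc ∑ x, ∫ h, pd x F h * av (Vw D b W s) x f h * Real.exp (- Vw D b W s h / 2)
      ≤ ∑ x, ((∫ h in K D b, pd x F h * wS D b W s f x h * Real.exp (- W h)) +
        |C| * (6 * (D.card : ℝ) / s) * I x + |C| * (c₀ / s) * (I x + E)) :=
        Finset.sum_le_sum fun x _ => key x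
    _ = EK D b W (fun h => ∑ x, pd x F h * wS D b W s f x h) +
        |C| * (6 * (D.card : ℝ) / s) * (∑ x, I x) +
        |C| * (c₀ / s) * ((∑ x, I x) + (D.card : ℝ) * E) := by
        rw [hsum, Finset.sum_add_distrib, Finset.sum_add_distrib, ← Finset.mul_sum,
          ← Finset.mul_sum, Finset.sum_add_distrib, Finset.sum_const, Finset.card_univ,
          nsmul_eq_mul, hcard]
    _ ≤ EK D b W (fun h => ∑ x, pd x F h * wS D b W s f x h) +
        |C| * (6 * (D.card : ℝ) + c₀ * ((D.card : ℝ) + 1)) / s * ((∑ x, I x) + E) := by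
        have hS : 0 ≤ ∑ x, I x := Finset.sum_nonneg fun x _ => hI0 x
        have hd : (0 : ℝ) ≤ (D.card : ℝ) := Nat.cast_nonneg _
        have e1 : |C| * (6 * (D.card : ℝ) + c₀ * ((D.card : ℝ) + 1)) / s * ((∑ x, I x) + E) =
            |C| * (6 * (D.card : ℝ) / s) * (∑ x, I x) +
              |C| * (c₀ / s) * ((∑ x, I x) + (D.card : ℝ) * E) +
              (|C| * (6 * (D.card : ℝ) / s) * E + |C| * (c₀ / s) * ((D.card : ℝ) * ∑ x, I x) +
                |C| * (c₀ / s) * E) := by ring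
        rw [e1]
        have e2 : 0 ≤ |C| * (6 * (D.card : ℝ) / s) * E +
            |C| * (c₀ / s) * ((D.card : ℝ) * ∑ x, I x) + |C| * (c₀ / s) * E := by positivity
        linarith

/- END sb -/

/- MODULE sc
Take `f` from `hs_nl` with a small `η'`, `w x = wS D b W s f x`.  With
`E₁ = ∑∑ ∫ (av y (av x f))^2`, `E₂ = ∫ ∑∑ V_xy ..` (both `≥ 0`; `Vw_hess`, `Wok.conv`),
`E₁ + E₂ ≤ L2F + η' ≤ B₀ + 1` (`L2F_bdd`).  `ET`, `E2` by `wS_energy`, `wS_pen`, `ET_le_EK`;
`∫_K w^2` by `L2_bd`; `∫_K |w| ≤ |K|^(1/2) (∫_K w^2)^(1/2)`.  Then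
`2 EK (lin) - EK (∑ gr) ≥ 2 (L2F - η') - 2 (c / s) (..) - e^{6|D|/s} E₁`
`≥ L2F - 3 η' - O(1/s) ≥ VK - η` (`VK_le_L2F`; `VK` is a fixed number). -/

private theorem sc_abs {D : Finset (ℤ × ℤ)} {b : ℤ × ℤ → ℝ} {g : (D → ℝ) → ℝ} (hg : Continuous g)
    {B : ℝ} (hB : 0 ≤ B)
    (h : ∫⁻ h in K D b, ENNReal.ofReal ((g h) ^ 2) ≤ ENNReal.ofReal B) :
    ∫ h in K D b, |g h| ≤ (Z D b).toReal + B := by
  have hi : ∀ u : (D → ℝ) → ℝ, Continuous u → IntegrableOn u (K D b) := by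
    intro u hu
    have := EK_int b (W := fun _ => 0) continuous_const hu
    simpa using this
  have h1 : ∫ h in K D b, |g h| ≤ ∫ h in K D b, (1 + (g h) ^ 2) := by
    refine integral_mono (hi _ hg.abs) (hi _ (continuous_const.add (hg.pow 2))) fun u => ?_
    show |g u| ≤ 1 + (g u) ^ 2
    nlinarith [sq_nonneg (|g u| - 1), sq_abs (g u), abs_nonneg (g u)]
  have h2 : ∫ h in K D b, (1 + (g h) ^ 2) = (Z D b).toReal + ∫ h in K D b, (g h) ^ 2 := by
    have e := integral_add (μ := volume.restrict (K D b)) (f := fun _ => (1 : ℝ))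
      (g := fun u => (g u) ^ 2) (hi _ continuous_const) (hi _ (hg.pow 2))
    rw [e, setIntegral_const, smul_eq_mul, mul_one]
    rfl
  have h3 : ∫ h in K D b, (g h) ^ 2 ≤ B := by
    rw [integral_eq_lintegral_of_nonneg_ae (Filter.Eventually.of_forall fun u => sq_nonneg _)
      (hg.pow 2).aestronglyMeasurable]
    exact ENNReal.toReal_le_of_le_ofReal hB h
  linarith

private theorem sc_arith {v Λ a η L P E₁ θ B₂ η' e q X : ℝ} (hη'2 : η' ≤ η / 16)
    (hη'0 : 0 < η') (hf1 : L ≤ P + η') (hE₁ : E₁ ≤ L + η') (haE : a ≤ e * E₁)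
    (hPΛ : P ≤ Λ + X) (hVL2 : v - θ * v ≤ L) (hLB : L ≤ B₂) (hB₂ : 0 ≤ B₂) (he1 : 1 ≤ e)
    (hexp : e - 1 ≤ 2 * θ) (hexp2 : e ≤ 3) (hQs : q ≤ η / 8)
    (hQe : q = θ * v + 2 * θ * B₂ + 2 * X) : v ≤ 2 * Λ - a + η := by
  have hE₁L : e * E₁ ≤ e * (L + η') := mul_le_mul_of_nonneg_left hE₁ (by linarith)
  have h5 : e * (L + η') ≤ L + 2 * θ * B₂ + 3 * η' := by
    have e1 : e * (L + η') = L + (e - 1) * L + e * η' := by ring
    rw [e1]
    have e2 : (e - 1) * L ≤ 2 * θ * B₂ := by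
      calc (e - 1) * L ≤ (e - 1) * B₂ := mul_le_mul_of_nonneg_left hLB (by linarith)
        _ ≤ 2 * θ * B₂ := mul_le_mul_of_nonneg_right hexp hB₂
    have e3 : e * η' ≤ 3 * η' := mul_le_mul_of_nonneg_right hexp2 hη'0.le
    linarith
  linarith

theorem soft_field {D : Finset (ℤ × ℤ)} {b : ℤ × ℤ → ℝ} (hb : ∀ z, |b z| ≤ 1 / 2)
    {W : (D → ℝ) → ℝ} (hW : Wok W) {F : (D → ℝ) → ℝ} {C : ℝ} (hF : Fok F C) {η : ℝ}
    (hη : 0 < η) :
    ∃ B s₀ : ℝ, 0 ≤ B ∧ 1 ≤ s₀ ∧ ∀ s, s₀ ≤ s → ∃ w : D → (D → ℝ) → ℝ,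
      (∀ x, ContDiff ℝ ∞ (w x)) ∧
      VK D b W F ≤ 2 * EK D b W (fun h => ∑ x, pd x F h * w x h) -
        EK D b W (fun h => ∑ x, gr (w x) h) + η ∧
      ET D b w ≤ ENNReal.ofReal B ∧ E2 D b s w ≤ ENNReal.ofReal B ∧
      ∀ x, ∫⁻ h in K D b, ENNReal.ofReal ((w x h) ^ 2) ≤ ENNReal.ofReal B := by
  obtain ⟨c₁, s₁, hc₁, hs₁, hlin⟩ := lin_le (D := D) hb C
  obtain ⟨B₂, hB₂, hL⟩ := L2F_bdd (D := D) hb C
  obtain ⟨c₃, hc₃, hET⟩ := ET_le_EK b hW
  obtain ⟨c₄, hc₄, s₄, hs₄, hL2⟩ := L2_bd (D := D) hb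
  set n : ℝ := 6 * (D.card : ℝ) with hn
  have hn0 : 0 ≤ n := by positivity
  set B₃ : ℝ := c₃ * (Real.exp n * (B₂ + 1)) with hB₃
  have hB₃0 : 0 ≤ B₃ := by positivity
  set B₄ : ℝ := c₄.toReal * (2 * B₃) with hB₄
  have hB₄0 : 0 ≤ B₄ := by positivity
  set M : ℝ := (D.card : ℝ) * ((Z D b).toReal + B₄) + Real.sqrt (B₂ + 1) with hM
  have hM0 : 0 ≤ M := by positivity
  set v : ℝ := VK D b W F with hv
  have hv0 : 0 ≤ v := by
    refine integral_nonneg fun h => ?_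
    exact mul_nonneg (sq_nonneg _) (Real.exp_pos _).le
  set Q : ℝ := n * v + 2 * n * B₂ + 2 * c₁ * M with hQ
  have hQ0 : 0 ≤ Q := by positivity
  set η' : ℝ := min 1 (η / 16) with hη'
  have hη'0 : 0 < η' := lt_min one_pos (by positivity)
  have hη'1 : η' ≤ 1 := min_le_left _ _
  have hη'2 : η' ≤ η / 16 := min_le_right _ _
  refine ⟨max B₃ B₄, max (max s₁ s₄) (max n (8 * Q / η)), le_max_of_le_left hB₃0,
    le_max_of_le_left (le_max_of_le_left hs₁), fun s hs => ?_⟩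
  have hss₁ : s₁ ≤ s := (le_max_left _ _).trans ((le_max_left _ _).trans hs)
  have hss₄ : s₄ ≤ s := (le_max_right _ _).trans ((le_max_left _ _).trans hs)
  have hsn : n ≤ s := (le_max_left _ _).trans ((le_max_right _ _).trans hs)
  have hsQ : 8 * Q / η ≤ s := (le_max_right _ _).trans ((le_max_right _ _).trans hs)
  have hs1 : 1 ≤ s := hs₁.trans hss₁
  have hs0 : 0 < s := by linarith
  set V : (D → ℝ) → ℝ := Vw D b W s with hV
  obtain ⟨f, hf1, hf2, -⟩ := hs_nl (Vw_temp b hW hs1) (Vw_Wf b hW hs1) one_pos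
    (Vw_low hb hW hs1) hF hη'0
  set L : ℝ := L2F V F with hLd
  set P : ℝ := ∑ x, ∫ h, pd x F h * av V x f h * Real.exp (- V h / 2) with hP
  set E₁ : ℝ := ∑ x, ∑ y, ∫ h, (av V y (av V x f) h) ^ 2 with hE₁
  set E₂ : ℝ := ∫ h, ∑ x, ∑ y, pd y (pd x V) h * av V x f h * av V y f h with hE₂
  have hLB : L ≤ B₂ := hL W hW F hF s hs1
  have hE₁0 : 0 ≤ E₁ := Finset.sum_nonneg fun x _ => Finset.sum_nonneg fun y _ =>
    integral_nonneg fun h => sq_nonneg _
  have hE₂0 : 0 ≤ E₂ := by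
    refine integral_nonneg fun h => ?_
    show 0 ≤ ∑ x, ∑ y, pd y (pd x V) h * av V x f h * av V y f h
    rw [Vw_hess b hW hs1 h (fun x => av V x f h)]
    refine add_nonneg (Finset.sum_nonneg fun x _ => Finset.sum_nonneg fun i _ =>
      mul_nonneg (Us2_nonneg hs1 _) (sq_nonneg _)) (hW.conv h (fun x => av V x f h))
  have hE₁B : E₁ ≤ B₂ + 1 := by linarith
  have hE₂B : E₂ ≤ B₂ + 1 := by linarith
  set θ : ℝ := n / s with hθ
  have hθ0 : 0 ≤ θ := by positivity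
  have hθ1 : θ ≤ 1 := by
    rw [hθ, div_le_one hs0]
    exact hsn
  have hθn : θ ≤ n := by
    rw [hθ]
    exact div_le_self hn0 hs1
  have hexp : Real.exp θ - 1 ≤ 2 * θ := by
    have h1 := Real.abs_exp_sub_one_le (x := θ) (by rw [abs_of_nonneg hθ0]; exact hθ1)
    rw [abs_of_nonneg hθ0] at h1
    exact (le_abs_self _).trans h1
  have hexpn : Real.exp θ ≤ Real.exp n := Real.exp_le_exp.2 hθn
  have hws : ∀ x, ContDiff ℝ ∞ (wS D b W s f x) := fun x => wS_smooth b hW hs1 f x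
  set a : ℝ := EK D b W (fun h => ∑ x, gr (wS D b W s f x) h) with ha
  have haE : a ≤ Real.exp θ * E₁ := wS_energy b hW hs1 f
  have hpE := wS_pen b hW hs1 f
  have hETB : ET D b (wS D b W s f) ≤ ENNReal.ofReal B₃ := by
    refine (hET _ hws s hs1).1.trans (ENNReal.ofReal_le_ofReal ?_)
    rw [hB₃]
    refine mul_le_mul_of_nonneg_left ?_ hc₃
    refine haE.trans ?_
    exact mul_le_mul hexpn hE₁B hE₁0 (Real.exp_pos _).le
  have hE2B : E2 D b s (wS D b W s f) ≤ ENNReal.ofReal B₃ := by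
    refine (hET _ hws s hs1).2.trans (ENNReal.ofReal_le_ofReal ?_)
    rw [hB₃]
    refine mul_le_mul_of_nonneg_left ?_ hc₃
    refine hpE.trans ?_
    exact mul_le_mul hexpn hE₂B hE₂0 (Real.exp_pos _).le
  have hw2 : ∀ x, ∫⁻ h in K D b, ENNReal.ofReal ((wS D b W s f x h) ^ 2) ≤
      ENNReal.ofReal B₄ := by
    intro x
    refine (hL2 s hss₄ _ (fun x => (hws x).of_le (by simp)) x).trans ?_
    calc c₄ * (ET D b (wS D b W s f) + E2 D b s (wS D b W s f))
        ≤ c₄ * (ENNReal.ofReal B₃ + ENNReal.ofReal B₃) := by gcongr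
      _ = ENNReal.ofReal B₄ := by
          rw [hB₄, ← ENNReal.ofReal_add hB₃0 hB₃0, ENNReal.ofReal_mul ENNReal.toReal_nonneg,
            ENNReal.ofReal_toReal hc₄.ne]
          congr 2
          ring
  have hsum : ∑ x, ∫ h in K D b, |wS D b W s f x h| ≤
      (D.card : ℝ) * ((Z D b).toReal + B₄) := by
    calc ∑ x, ∫ h in K D b, |wS D b W s f x h| ≤ ∑ _x : D, ((Z D b).toReal + B₄) :=
          Finset.sum_le_sum fun x _ => sc_abs (hws x).continuous hB₄0 (hw2 x)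
      _ = _ := by
          rw [Finset.sum_const, nsmul_eq_mul, Finset.card_univ, Fintype.card_coe]
  set Λ : ℝ := EK D b W (fun h => ∑ x, pd x F h * wS D b W s f x h) with hΛ
  have hPΛ : P ≤ Λ + c₁ / s * M := by
    refine (hlin W hW F hF s hss₁ f).trans ?_
    refine add_le_add_right (mul_le_mul_of_nonneg_left ?_ (by positivity)) _
    rw [hM]
    exact add_le_add hsum (Real.sqrt_le_sqrt hE₁B)
  have hVL : Real.exp (- θ) * v ≤ L := VK_le_L2F hb hW hF hs1
  have hVL2 : v - θ * v ≤ L := by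
    refine le_trans ?_ hVL
    have := Real.add_one_le_exp (-θ)
    nlinarith
  have hQs : Q / s ≤ η / 8 := by
    rw [div_le_iff₀ hs0]
    rw [div_le_iff₀ hη] at hsQ
    linarith
  have hQe : Q / s = θ * v + 2 * θ * B₂ + 2 * (c₁ / s * M) := by
    rw [hQ, hθ]
    field_simp
  have hexp2 : Real.exp θ ≤ 3 := by linarith
  refine ⟨wS D b W s f, hws, ?_, hETB.trans (ENNReal.ofReal_le_ofReal (le_max_left _ _)),
    hE2B.trans (ENNReal.ofReal_le_ofReal (le_max_left _ _)), fun x =>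
    (hw2 x).trans (ENNReal.ofReal_le_ofReal (le_max_right _ _))⟩
  show v ≤ 2 * Λ - a + η
  have he1 : 1 ≤ Real.exp θ := Real.one_le_exp hθ0
  exact sc_arith hη'2 hη'0 hf1 (by linarith) haE hPΛ hVL2 hLB hB₂ he1 hexp hexp2 hQs hQe

/- END sc -/

end Pool.Agent.Hgf
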