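import Pool.Agent.Hgf.Loc

/-!
# Hgf (MP_161523_pr, Q2): universality of averages of local functions, and their limit
-/

set_option autoImplicit false

open MeasureTheory Set Filter

open scoped ENNReal ContDiff Topology

noncomputable section

namespace Pool.Agent.Hgf

open Pool.Agent.Hmk

/-- the ball of radius `r` at the origin -/
def bl (r : ℕ) : Finset (ℤ × ℤ) :=
  (Finset.Icc (-(r : ℤ)) r ×ˢ Finset.Icc (-(r : ℤ)) r).filter (fun z => dn z ≤ r)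

/- MODULE xa
A point with `dn z = r` has `|z.1| = r` or `|z.2| = r` or `|z.1 + z.2| = r`; each of these lines
has at most `2 (2 r + 1)` points in the square.  `ib (bl r) ⊆ {dn = r}`, `ob (bl r) ⊆ {dn = r + 1}`
(`dn_step` of Geo.lean). -/

theorem mem_bl {r : ℕ} {z : ℤ × ℤ} : z ∈ bl r ↔ dn z ≤ r := by
  unfold bl
  rw [Finset.mem_filter, Finset.mem_product, Finset.mem_Icc, Finset.mem_Icc]
  constructor
  · exact fun h => h.2
  · intro h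
    refine ⟨?_, h⟩
    unfold dn at h
    have h1 : |z.1| ≤ r := (le_max_left _ _).trans h
    have h2 : |z.2| ≤ r := (le_max_left _ _).trans ((le_max_right _ _).trans h)
    exact ⟨abs_le.1 h1, abs_le.1 h2⟩

theorem bl_card (r : ℕ) : (bl r).card ≤ (2 * r + 1) ^ 2 := by
  unfold bl
  refine (Finset.card_filter_le _ _).trans ?_
  rw [Finset.card_product, Int.card_Icc, sq]
  have : ((r : ℤ) + 1 - -(r : ℤ)).toNat = 2 * r + 1 := by omega
  rw [this]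

private theorem xa_ib {L : Finset (ℤ × ℤ)} {z : ℤ × ℤ} :
    z ∈ ib L ↔ z ∈ L ∧ ∃ i, z + st i ∉ L := by
  unfold ib
  rw [Finset.mem_filter]

private theorem xa_ob {L : Finset (ℤ × ℤ)} {z : ℤ × ℤ} :
    z ∈ ob L ↔ (∃ x ∈ L, ∃ i, x + st i = z) ∧ z ∉ L := by
  unfold ob
  rw [Finset.mem_sdiff, Finset.mem_biUnion]
  simp only [Finset.mem_image, Finset.mem_univ, true_and]

private theorem xa_lb {L : Finset (ℤ × ℤ)} {z : ℤ × ℤ} :
    z ∈ lb L ↔ (z ∈ L ∧ ∃ i, z + st i ∉ L) ∨ ((∃ x ∈ L, ∃ i, x + st i = z) ∧ z ∉ L) := by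
  unfold lb
  rw [Finset.mem_union, xa_ib, xa_ob]

theorem lb_bl {r : ℕ} {z : ℤ × ℤ} (hz : z ∈ lb (bl r)) : (r : ℤ) ≤ dn z ∧ dn z ≤ r + 1 := by
  rw [xa_lb] at hz
  rcases hz with ⟨h1, i, h2⟩ | ⟨⟨x, hx, i, rfl⟩, h2⟩
  · rw [mem_bl] at h1 h2
    have h3 := abs_le.1 (dn_step z i)
    omega
  · rw [mem_bl] at hx h2
    have h3 := abs_le.1 (dn_step x i)
    omega

private theorem xa_im {f : ℤ → ℤ × ℤ} (k : ℕ) :
    ((Finset.Icc (-(k : ℤ)) k).image f).card ≤ 2 * k + 1 := by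
  refine Finset.card_image_le.trans ?_
  rw [Int.card_Icc]
  omega

private def xa_sph (k : ℕ) : Finset (ℤ × ℤ) :=
  ((Finset.Icc (-(k : ℤ)) k).image (fun t => ((k : ℤ), t))) ∪
  (((Finset.Icc (-(k : ℤ)) k).image (fun t => (-(k : ℤ), t))) ∪
  (((Finset.Icc (-(k : ℤ)) k).image (fun t => (t, (k : ℤ)))) ∪
  (((Finset.Icc (-(k : ℤ)) k).image (fun t => (t, -(k : ℤ)))) ∪
  (((Finset.Icc (-(k : ℤ)) k).image (fun t => (t, (k : ℤ) - t))) ∪
  ((Finset.Icc (-(k : ℤ)) k).image (fun t => (t, -(k : ℤ) - t)))))))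

private theorem xa_sph_card (k : ℕ) : (xa_sph k).card ≤ 6 * (2 * k + 1) := by
  unfold xa_sph
  have h : ∀ f : ℤ → ℤ × ℤ, ((Finset.Icc (-(k : ℤ)) k).image f).card ≤ 2 * k + 1 :=
    fun f => xa_im k
  refine (Finset.card_union_le _ _).trans ?_
  have h1 := h (fun t => ((k : ℤ), t))
  refine (add_le_add h1 (Finset.card_union_le _ _)).trans ?_
  have h2 := h (fun t => (-(k : ℤ), t))
  refine (add_le_add le_rfl (add_le_add h2 (Finset.card_union_le _ _))).trans ?_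
  have h3 := h (fun t => (t, (k : ℤ)))
  refine (add_le_add le_rfl (add_le_add le_rfl (add_le_add h3 (Finset.card_union_le _ _)))).trans ?_
  have h4 := h (fun t => (t, -(k : ℤ)))
  refine (add_le_add le_rfl (add_le_add le_rfl (add_le_add le_rfl
    (add_le_add h4 (Finset.card_union_le _ _))))).trans ?_
  have h5 := h (fun t => (t, (k : ℤ) - t))
  have h6 := h (fun t => (t, -(k : ℤ) - t))
  omega

private theorem xa_sph_mem {k : ℕ} {z : ℤ × ℤ} (hz : dn z = k) : z ∈ xa_sph k := by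
  unfold dn at hz
  have h1 : |z.1| ≤ k := (le_max_left _ _).trans hz.le
  have h2 : |z.2| ≤ k := (le_max_left _ _).trans ((le_max_right _ _).trans hz.le)
  have h1' := abs_le.1 h1
  have h2' := abs_le.1 h2
  have m1 : z.1 ∈ Finset.Icc (-(k : ℤ)) k := Finset.mem_Icc.2 h1'
  have m2 : z.2 ∈ Finset.Icc (-(k : ℤ)) k := Finset.mem_Icc.2 h2'
  have hc : |z.1| = k ∨ |z.2| = k ∨ |z.1 + z.2| = k := by
    rcases le_total |z.1| (max |z.2| |z.1 + z.2|) with h | h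
    · rw [max_eq_right h] at hz
      right
      rcases le_total |z.2| |z.1 + z.2| with h' | h'
      · rw [max_eq_right h'] at hz
        exact Or.inr hz
      · rw [max_eq_left h'] at hz
        exact Or.inl hz
    · rw [max_eq_left h] at hz
      exact Or.inl hz
  unfold xa_sph
  simp only [Finset.mem_union, Finset.mem_image]
  rcases hc with hc | hc | hc
  · rcases abs_eq (by positivity : (0 : ℤ) ≤ (k : ℤ)) |>.1 hc with h | h
    · exact Or.inl ⟨z.2, m2, by rw [← h]⟩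
    · exact Or.inr (Or.inl ⟨z.2, m2, by rw [← h]⟩)
  · rcases abs_eq (by positivity : (0 : ℤ) ≤ (k : ℤ)) |>.1 hc with h | h
    · exact Or.inr (Or.inr (Or.inl ⟨z.1, m1, by rw [← h]⟩))
    · exact Or.inr (Or.inr (Or.inr (Or.inl ⟨z.1, m1, by rw [← h]⟩)))
  · rcases abs_eq (by positivity : (0 : ℤ) ≤ (k : ℤ)) |>.1 hc with h | h
    · refine Or.inr (Or.inr (Or.inr (Or.inr (Or.inl ⟨z.1, m1, ?_⟩))))
      have : (k : ℤ) - z.1 = z.2 := by omega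
      rw [this]
    · refine Or.inr (Or.inr (Or.inr (Or.inr (Or.inr ⟨z.1, m1, ?_⟩))))
      have : -(k : ℤ) - z.1 = z.2 := by omega
      rw [this]

theorem lb_bl_card (r : ℕ) : (lb (bl r)).card ≤ 24 * r + 24 := by
  have hsub : lb (bl r) ⊆ xa_sph r ∪ xa_sph (r + 1) := by
    intro z hz
    obtain ⟨h1, h2⟩ := lb_bl hz
    rw [Finset.mem_union]
    rcases eq_or_lt_of_le h1 with h | h
    · exact Or.inl (xa_sph_mem h.symm)
    · right
      apply xa_sph_mem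
      push_cast
      omega
  refine (Finset.card_le_card hsub).trans ((Finset.card_union_le _ _).trans ?_)
  have h1 := xa_sph_card r
  have h2 := xa_sph_card (r + 1)
  omega

private theorem xa_tr {L : Finset (ℤ × ℤ)} {y z : ℤ × ℤ} :
    z ∈ L.image (fun z => y + z) ↔ z - y ∈ L := by
  rw [Finset.mem_image]
  constructor
  · rintro ⟨a, ha, rfl⟩
    rw [add_sub_cancel_left]
    exact ha
  · intro h
    exact ⟨z - y, h, by abel⟩

private theorem xa_ob_tr {L : Finset (ℤ × ℤ)} {y z : ℤ × ℤ} :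
    ((∃ x ∈ L.image (fun z => y + z), ∃ i, x + st i = z) ∧ z ∉ L.image (fun z => y + z)) ↔
      ((∃ x ∈ L, ∃ i, x + st i = z - y) ∧ z - y ∉ L) := by
  rw [xa_tr]
  apply and_congr_left
  intro _
  constructor
  · rintro ⟨x, hx, i, rfl⟩
    rw [xa_tr] at hx
    exact ⟨x - y, hx, i, by abel⟩
  · rintro ⟨x, hx, i, h⟩
    refine ⟨x + y, ?_, i, ?_⟩
    · rw [xa_tr, add_sub_cancel_right]
      exact hx
    · have : x + y + st i = (x + st i) + y := by abel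
      rw [this, h, sub_add_cancel]

theorem lb_tr (L : Finset (ℤ × ℤ)) (y : ℤ × ℤ) :
    lb (L.image (fun z => y + z)) = (lb L).image (fun z => y + z) := by
  ext z
  rw [xa_tr, xa_lb, xa_lb, xa_ob_tr, xa_tr]
  apply or_congr_left
  apply and_congr_right
  intro _
  refine exists_congr fun i => ?_
  rw [xa_tr]
  have : z + st i - y = z - y + st i := by abel
  rw [this]

theorem ob_tr (L : Finset (ℤ × ℤ)) (y : ℤ × ℤ) :
    ob (L.image (fun z => y + z)) = (ob L).image (fun z => y + z) := by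
  ext z
  rw [xa_tr, xa_ob, xa_ob, xa_ob_tr]

theorem bx_dn {N : ℕ} {x : ℤ × ℤ} (hx : x ∈ bx N) : dn x ≤ 2 * N := by
  unfold bx at hx
  rw [Finset.mem_product, Finset.mem_Ico, Finset.mem_Ico] at hx
  obtain ⟨⟨h1, h2⟩, h3, h4⟩ := hx
  unfold dn
  refine max_le ?_ (max_le ?_ ?_)
  · rw [abs_of_nonneg h1]
    omega
  · rw [abs_of_nonneg h3]
    omega
  · rw [abs_of_nonneg (by omega)]
    omega

theorem bx_card (N : ℕ) : (bx N).card = N ^ 2 := by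
  unfold bx
  rw [Finset.card_product, Int.card_Ico, sq]
  simp

/- END xa -/

/-- the reference value -/
def uh (W : Finset (ℤ × ℤ)) (g : (W → ℝ) → ℝ) (s : ℤ × ℤ → ℝ) (N : ℕ) : ℝ :=
  In (bl (3 * N)) ((N : ℝ) ^ 2) (fun H => ((N : ℝ) ^ 2)⁻¹ * Ls W g s (bx N) H)

/- MODULE xb
Elementary: `log N ≤ N^(1/16)` eventually, `exp (- N^2 / 10 + 96 N (10 + ..)) ≤ 1 / N`. -/

private theorem xb_q {N : ℕ} (hN : 5764801 ≤ N) : ∃ q : ℝ, 7 ≤ q ∧ q ^ 8 = (N : ℝ) ∧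
    (N : ℝ) ^ (-(1 / 4) : ℝ) = (q ^ 2)⁻¹ ∧ Real.log (N : ℝ) ≤ 8 * q := by
  have hN0 : (0 : ℝ) ≤ (N : ℝ) := Nat.cast_nonneg N
  have hNR : (5764801 : ℝ) ≤ (N : ℝ) := by exact_mod_cast hN
  refine ⟨(N : ℝ) ^ (1 / 8 : ℝ), ?_, ?_, ?_, ?_⟩
  · have h1 : (7 : ℝ) = ((7 : ℝ) ^ (8 : ℕ)) ^ (1 / 8 : ℝ) := by
      rw [← Real.rpow_natCast, ← Real.rpow_mul (by norm_num)]
      norm_num
    rw [h1]
    apply Real.rpow_le_rpow (by positivity) _ (by norm_num)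
    calc (7 : ℝ) ^ (8 : ℕ) = 5764801 := by norm_num
      _ ≤ (N : ℝ) := hNR
  · rw [← Real.rpow_natCast, ← Real.rpow_mul hN0]
    norm_num
  · rw [Real.rpow_neg hN0, ← Real.rpow_natCast, ← Real.rpow_mul hN0]
    norm_num
  · have := Real.log_le_rpow_div hN0 (show (0 : ℝ) < 1 / 8 by norm_num)
    calc Real.log (N : ℝ) ≤ (N : ℝ) ^ (1 / 8 : ℝ) / (1 / 8) := this
      _ = 8 * (N : ℝ) ^ (1 / 8 : ℝ) := by ring

theorem uni_num (A C : ℝ) (hA : 0 ≤ A) (hC : 0 ≤ C) : ∃ (C' : ℝ) (N₀ : ℕ), 0 ≤ C' ∧ 1 ≤ N₀ ∧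
    ∀ N : ℕ, N₀ ≤ N → ∀ s d : ℝ, 0 ≤ s → s ≤ 96 * (N : ℝ) + 24 → 0 ≤ d → d ≤ (N : ℝ) ^ 20 →
      Real.sqrt (A * ((N : ℝ) ^ 2)⁻¹) * (Real.sqrt (((N : ℝ) ^ 30)⁻¹ * (s * (d + 1))) +
        Real.sqrt (Real.log ((N : ℝ) ^ 2 / ((N : ℝ) ^ 30)⁻¹) * (s *
          (10 + Real.log (d + 1) + Real.log ((N : ℝ) ^ 2))))) +
      2 * C * Real.exp (- (N : ℝ) ^ 2 / 10 + s *
        (10 + Real.log (d + 1) + Real.log ((N : ℝ) ^ 2))) ≤ C' * (N : ℝ) ^ (-(1 / 4) : ℝ) := by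
  refine ⟨Real.sqrt A * 3000 + 2 * C, 5764801, by positivity, by norm_num, ?_⟩
  intro N hN s d hs0 hs hd0 hd
  obtain ⟨q, hq7, hq8, hq2, hlog⟩ := xb_q hN
  have hq0 : 0 < q := by linarith
  have hq1 : 1 ≤ q := by linarith
  have hN0 : (0 : ℝ) < (N : ℝ) := by rw [← hq8]; positivity
  have hN1 : (1 : ℝ) ≤ (N : ℝ) := by rw [← hq8]; exact one_le_pow₀ hq1
  have hlog0 : 0 ≤ Real.log (N : ℝ) := Real.log_nonneg hN1
  have hs' : s ≤ 120 * q ^ 8 := by rw [hq8]; linarith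
  have hd1 : d + 1 ≤ 2 * (N : ℝ) ^ 20 := by
    have : 1 ≤ (N : ℝ) ^ 20 := one_le_pow₀ hN1
    linarith
  have hld : Real.log (d + 1) ≤ 21 * Real.log (N : ℝ) := by
    have h1 : d + 1 ≤ (N : ℝ) ^ 21 := by
      have h2 : (2 : ℝ) ≤ (N : ℝ) := by
        have : (5764801 : ℝ) ≤ (N : ℝ) := by exact_mod_cast hN
        linarith
      calc d + 1 ≤ 2 * (N : ℝ) ^ 20 := hd1
        _ ≤ (N : ℝ) * (N : ℝ) ^ 20 := by gcongr
        _ = (N : ℝ) ^ 21 := by ring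
    calc Real.log (d + 1) ≤ Real.log ((N : ℝ) ^ 21) := Real.log_le_log (by linarith) h1
      _ = 21 * Real.log (N : ℝ) := by rw [Real.log_pow]; norm_num
  have hld0 : 0 ≤ Real.log (d + 1) := Real.log_nonneg (by linarith)
  have hl2 : Real.log ((N : ℝ) ^ 2) = 2 * Real.log (N : ℝ) := by rw [Real.log_pow]; norm_num
  have hl32 : Real.log ((N : ℝ) ^ 2 / ((N : ℝ) ^ 30)⁻¹) = 32 * Real.log (N : ℝ) := by
    have : (N : ℝ) ^ 2 / ((N : ℝ) ^ 30)⁻¹ = (N : ℝ) ^ 32 := by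
      rw [div_inv_eq_mul]
      ring
    rw [this, Real.log_pow]
    norm_num
  have hbr : 10 + Real.log (d + 1) + Real.log ((N : ℝ) ^ 2) ≤ 194 * q := by
    rw [hl2]
    linarith
  have hbr0 : 0 ≤ 10 + Real.log (d + 1) + Real.log ((N : ℝ) ^ 2) := by
    rw [hl2]
    linarith
  have hsbr : s * (10 + Real.log (d + 1) + Real.log ((N : ℝ) ^ 2)) ≤ 23280 * q ^ 9 := by
    calc s * (10 + Real.log (d + 1) + Real.log ((N : ℝ) ^ 2)) ≤ (120 * q ^ 8) * (194 * q) :=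
          mul_le_mul hs' hbr hbr0 (by positivity)
      _ = 23280 * q ^ 9 := by ring
  have hsbr0 : 0 ≤ s * (10 + Real.log (d + 1) + Real.log ((N : ℝ) ^ 2)) := mul_nonneg hs0 hbr0
  -- first square root
  have r1 : Real.sqrt (((N : ℝ) ^ 30)⁻¹ * (s * (d + 1))) ≤ 16 := by
    apply Real.sqrt_le_iff.2
    refine ⟨by norm_num, ?_⟩
    have h1 : s * (d + 1) ≤ (120 * (N : ℝ)) * (2 * (N : ℝ) ^ 20) := by
      refine mul_le_mul ?_ hd1 (by linarith) (by positivity)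
      linarith
    have h2 : (N : ℝ) ^ 21 ≤ (N : ℝ) ^ 30 := pow_le_pow_right₀ hN1 (by norm_num)
    rw [inv_mul_le_iff₀ (by positivity)]
    nlinarith
  have r2 : Real.sqrt (Real.log ((N : ℝ) ^ 2 / ((N : ℝ) ^ 30)⁻¹) * (s *
          (10 + Real.log (d + 1) + Real.log ((N : ℝ) ^ 2)))) ≤ 2500 * q ^ 5 := by
    apply Real.sqrt_le_iff.2
    refine ⟨by positivity, ?_⟩
    rw [hl32]
    calc 32 * Real.log (N : ℝ) * (s * (10 + Real.log (d + 1) + Real.log ((N : ℝ) ^ 2)))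
        ≤ (32 * (8 * q)) * (23280 * q ^ 9) := by
          apply mul_le_mul _ hsbr hsbr0 (by positivity)
          linarith
      _ ≤ (2500 * q ^ 5) ^ 2 := by
          have : 0 ≤ q ^ 10 := by positivity
          nlinarith
  have r0 : Real.sqrt (A * ((N : ℝ) ^ 2)⁻¹) = Real.sqrt A * (q ^ 8)⁻¹ := by
    rw [Real.sqrt_mul hA, Real.sqrt_inv, Real.sqrt_sq hN0.le, hq8]
  have hA0 := Real.sqrt_nonneg A
  have h1 : Real.sqrt (A * ((N : ℝ) ^ 2)⁻¹) * (Real.sqrt (((N : ℝ) ^ 30)⁻¹ * (s * (d + 1))) +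
        Real.sqrt (Real.log ((N : ℝ) ^ 2 / ((N : ℝ) ^ 30)⁻¹) * (s *
          (10 + Real.log (d + 1) + Real.log ((N : ℝ) ^ 2))))) ≤
      Real.sqrt A * 3000 * (q ^ 2)⁻¹ := by
    rw [r0]
    calc Real.sqrt A * (q ^ 8)⁻¹ * _ ≤ Real.sqrt A * (q ^ 8)⁻¹ * (16 + 2500 * q ^ 5) := by
          gcongr
      _ ≤ Real.sqrt A * (q ^ 8)⁻¹ * (3000 * q ^ 6) := by
          gcongr
          have h3 : 1 ≤ q ^ 5 := one_le_pow₀ hq1
          have h4 : q ^ 5 ≤ q ^ 6 := pow_le_pow_right₀ hq1 (by norm_num)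
          linarith
      _ = Real.sqrt A * 3000 * (q ^ 2)⁻¹ := by
          field_simp
  have h2 : Real.exp (- (N : ℝ) ^ 2 / 10 + s *
        (10 + Real.log (d + 1) + Real.log ((N : ℝ) ^ 2))) ≤ (q ^ 2)⁻¹ := by
    have hq7' : (823543 : ℝ) ≤ q ^ 7 := by
      calc (823543 : ℝ) = 7 ^ 7 := by norm_num
        _ ≤ q ^ 7 := by gcongr
    have h3 : - (N : ℝ) ^ 2 / 10 + s * (10 + Real.log (d + 1) + Real.log ((N : ℝ) ^ 2)) ≤
        - q ^ 2 := by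
      have h4 : (N : ℝ) ^ 2 = q ^ 9 * q ^ 7 := by rw [← hq8]; ring
      have h5 : q ^ 9 * 823543 ≤ q ^ 9 * q ^ 7 := by gcongr
      have h6 : q ^ 2 ≤ q ^ 9 := pow_le_pow_right₀ hq1 (by norm_num)
      have h7 : 0 ≤ q ^ 9 := by positivity
      have h8 : q ^ 9 * 823543 ≤ (N : ℝ) ^ 2 := h4 ▸ h5
      linarith
    calc Real.exp _ ≤ Real.exp (- q ^ 2) := Real.exp_le_exp.2 h3
      _ = (Real.exp (q ^ 2))⁻¹ := Real.exp_neg _
      _ ≤ (q ^ 2)⁻¹ := by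
          apply inv_anti₀ (by positivity)
          linarith [Real.add_one_le_exp (q ^ 2)]
  rw [hq2]
  have h3 : 2 * C * Real.exp (- (N : ℝ) ^ 2 / 10 + s *
        (10 + Real.log (d + 1) + Real.log ((N : ℝ) ^ 2))) ≤ 2 * C * (q ^ 2)⁻¹ := by
    gcongr
  linarith

/- END xb -/

/- MODULE xc
`uni_gen` with `L = y + bl (3 N)`, `T = N^2`, `a = N^(-30)`,
`G H = N^(-2) ∑_{x ∈ bx N} s x * g (rs W (y + x) H)` (this is `Ls` for the translated signs and the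
translated box; it depends on `L` for large `N`, because `dn (x + w) ≤ 2 N + R`), `V = A N^(-2)` by
`Ls_var` (the distance of `lb L` and `y + bx N` is at least `N`); `In_tr` removes `y`; `uni_num`. -/

private theorem xc_dn_sub (a b c : ℤ × ℤ) : dn (a - c) ≤ dn (a - b) + dn (b - c) := by
  have h := dn_add_le (a - b) (b - c)
  rwa [sub_add_sub_cancel] at h

private theorem xc_W (W : Finset (ℤ × ℤ)) : ∃ r : ℕ, ∀ w ∈ W, dn w ≤ r := by
  refine ⟨∑ w ∈ W, (dn w).toNat, fun w hw => ?_⟩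
  have h1 : (dn w).toNat ≤ ∑ w ∈ W, (dn w).toNat :=
    Finset.single_le_sum (f := fun w => (dn w).toNat) (fun _ _ => Nat.zero_le _) hw
  have h2 := Int.self_le_toNat (dn w)
  have h3 : (((dn w).toNat : ℕ) : ℤ) ≤ ((∑ w ∈ W, (dn w).toNat : ℕ) : ℤ) := by exact_mod_cast h1
  exact h2.trans h3

private theorem xc_C {W : Finset (ℤ × ℤ)} {g : (W → ℝ) → ℝ} {C : ℝ} (hg : Lg W g C) : 0 ≤ C :=
  (abs_nonneg _).trans (hg.bdd 0)

private theorem xc_gm {W : Finset (ℤ × ℤ)} {g : (W → ℝ) → ℝ} {C : ℝ} (hg : Lg W g C) :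
    Measurable g := hg.temp.1.continuous.measurable

private theorem xc_rs (W : Finset (ℤ × ℤ)) (x : ℤ × ℤ) :
    Measurable (fun H : ℤ × ℤ → ℝ => rs W x H) := by
  unfold rs
  exact measurable_pi_lambda _ fun w => measurable_pi_apply _

private theorem xc_gl (D : Finset (ℤ × ℤ)) (b : ℤ × ℤ → ℝ) :
    Measurable (fun h : D → ℝ => gl D b h) :=
  measurable_pi_lambda _ fun z => gl_meas D b z

private theorem xc_Ls (W : Finset (ℤ × ℤ)) {g : (W → ℝ) → ℝ} (hg : Measurable g)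
    (s : ℤ × ℤ → ℝ) (X : Finset (ℤ × ℤ)) : Measurable (fun H : ℤ × ℤ → ℝ => Ls W g s X H) := by
  unfold Ls
  exact Finset.measurable_fun_sum _ fun x _ => (hg.comp (xc_rs W x)).const_mul (s x)

private theorem xc_Ls_le {W : Finset (ℤ × ℤ)} {g : (W → ℝ) → ℝ} {C : ℝ} (hC : ∀ k, |g k| ≤ C)
    {s : ℤ × ℤ → ℝ} (hs : ∀ x, |s x| ≤ 1) (X : Finset (ℤ × ℤ)) (H : ℤ × ℤ → ℝ) :
    |Ls W g s X H| ≤ X.card * C := by
  unfold Ls
  refine (Finset.abs_sum_le_sum_abs _ _).trans ?_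
  have h1 : ∀ x ∈ X, |s x * g (rs W x H)| ≤ C := by
    intro x _
    rw [abs_mul]
    calc |s x| * |g (rs W x H)| ≤ 1 * C :=
          mul_le_mul (hs x) (hC _) (abs_nonneg _) zero_le_one
      _ = C := one_mul C
  refine (Finset.sum_le_sum h1).trans ?_
  rw [Finset.sum_const, nsmul_eq_mul]

private theorem xc_avg_le {W : Finset (ℤ × ℤ)} {g : (W → ℝ) → ℝ} {C : ℝ} (hC : ∀ k, |g k| ≤ C)
    {s : ℤ × ℤ → ℝ} (hs : ∀ x, |s x| ≤ 1) {N : ℕ} (hN : 1 ≤ N) {X : Finset (ℤ × ℤ)}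
    (hX : X.card = N ^ 2) (H : ℤ × ℤ → ℝ) : |((N : ℝ) ^ 2)⁻¹ * Ls W g s X H| ≤ C := by
  have hN0 : (0 : ℝ) < (N : ℝ) := by exact_mod_cast hN
  rw [abs_mul, abs_of_pos (by positivity : (0 : ℝ) < ((N : ℝ) ^ 2)⁻¹)]
  rw [inv_mul_le_iff₀ (by positivity)]
  have h := xc_Ls_le hC hs X H
  rw [hX] at h
  push_cast at h
  exact h

private theorem xc_mean {D : Finset (ℤ × ℤ)} {b : ℤ × ℤ → ℝ} (hb : ∀ z, |b z| ≤ 1 / 2)
    {W : Finset (ℤ × ℤ)} {g : (W → ℝ) → ℝ} (hm : Measurable g) {B : ℝ} (hB : ∀ k, |g k| ≤ B)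
    (x : ℤ × ℤ) : Integrable (fun h => g (rs W x (gl D b h))) (Mu D b) := by
  have : IsProbabilityMeasure (Mu D b) := prob hb
  refine Integrable.of_bound (C := B) ?_ ?_
  · exact (hm.comp ((xc_rs W x).comp (xc_gl D b))).aestronglyMeasurable
  · refine Filter.Eventually.of_forall fun h => ?_
    rw [Real.norm_eq_abs]
    exact hB _

private theorem xc_mean_le {D : Finset (ℤ × ℤ)} {b : ℤ × ℤ → ℝ} (hb : ∀ z, |b z| ≤ 1 / 2)
    {W : Finset (ℤ × ℤ)} {g : (W → ℝ) → ℝ} {B : ℝ} (hB : ∀ k, |g k| ≤ B)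
    (x : ℤ × ℤ) : |∫ h, g (rs W x (gl D b h)) ∂(Mu D b)| ≤ B := by
  have : IsProbabilityMeasure (Mu D b) := prob hb
  have h := norm_integral_le_of_norm_le_const (μ := Mu D b)
    (f := fun h => g (rs W x (gl D b h))) (C := B)
    (Filter.Eventually.of_forall fun h => by rw [Real.norm_eq_abs]; exact hB _)
  rw [Real.norm_eq_abs] at h
  simpa using h

private theorem xc_VK (D : Finset (ℤ × ℤ)) (b : ℤ × ℤ → ℝ) (Φ F : (D → ℝ) → ℝ) (c : ℝ) :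
    VK D b Φ (fun h => c * F h) = c ^ 2 * VK D b Φ F := by
  have h1 : mK D b Φ (fun h => c * F h) = c * mK D b Φ F := by
    unfold mK EK
    have : ∫ h in K D b, c * F h * Real.exp (- Φ h) = c * ∫ h in K D b, F h * Real.exp (- Φ h) := by
      rw [← integral_const_mul]
      refine integral_congr_ae (Filter.Eventually.of_forall fun h => ?_)
      ring
    rw [this]
    ring
  unfold VK
  rw [h1]
  unfold EK
  rw [← integral_const_mul]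
  refine integral_congr_ae (Filter.Eventually.of_forall fun h => ?_)
  ring

private theorem xc_tr_card (X : Finset (ℤ × ℤ)) (y : ℤ × ℤ) :
    (X.image (fun z => y + z)).card = X.card :=
  Finset.card_image_of_injective _ (add_right_injective y)

private theorem xc_sum_tr (X : Finset (ℤ × ℤ)) (y : ℤ × ℤ) (f : ℤ × ℤ → ℝ) :
    ∑ x ∈ X.image (fun z => y + z), f x = ∑ x ∈ X, f (y + x) :=
  Finset.sum_image fun _ _ _ _ h => add_right_injective y h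

theorem uni {W : Finset (ℤ × ℤ)} {g : (W → ℝ) → ℝ} {C : ℝ} (hg : Lg W g C) :
    ∃ (C' : ℝ) (N₀ : ℕ), 0 ≤ C' ∧ 1 ≤ N₀ ∧ ∀ N : ℕ, N₀ ≤ N → ∀ s : ℤ × ℤ → ℝ, (∀ x, |s x| ≤ 1) →
      ∀ (D : Finset (ℤ × ℤ)) (b : ℤ × ℤ → ℝ) (y : ℤ × ℤ), (D.card : ℝ) ≤ (N : ℝ) ^ 20 →
      (∀ z, |b z| ≤ 1 / 2) → (∀ z, dn (z - y) ≤ 4 * N → z ∈ D) →
      |((N : ℝ) ^ 2)⁻¹ * ∑ x ∈ bx N, s x * (∫ h, g (rs W (y + x) (gl D b h)) ∂(Mu D b)) -
        uh W g s N| ≤ C' * (N : ℝ) ^ (-(1 / 4) : ℝ) := by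
  obtain ⟨R, A, hA, hvar⟩ := Ls_var hg
  obtain ⟨rW, hrW⟩ := xc_W W
  have hC := xc_C hg
  obtain ⟨C', N₁, hC', hN₁, hnum⟩ := uni_num A C hA hC
  refine ⟨C', max N₁ (max rW R.toNat), hC', le_max_of_le_left hN₁, ?_⟩
  intro N hN s hs D b y hD hb hy
  have hNN₁ : N₁ ≤ N := (le_max_left _ _).trans hN
  have hNr : rW ≤ N := ((le_max_left _ _).trans (le_max_right _ _)).trans hN
  have hNR : R ≤ (N : ℤ) := by
    have h1 : R.toNat ≤ N := ((le_max_right _ _).trans (le_max_right _ _)).trans hN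
    have h2 := Int.self_le_toNat R
    omega
  have hN1 : 1 ≤ N := hN₁.trans hNN₁
  have hN1R : (1 : ℝ) ≤ (N : ℝ) := by exact_mod_cast hN1
  have hN0R : (0 : ℝ) < (N : ℝ) := by linarith
  set L : Finset (ℤ × ℤ) := (bl (3 * N)).image (fun z => y + z) with hLdef
  set X : Finset (ℤ × ℤ) := (bx N).image (fun z => y + z) with hXdef
  have hXc : X.card = N ^ 2 := by rw [hXdef, xc_tr_card, bx_card]
  set s' : ℤ × ℤ → ℝ := fun z => s (z - y) with hs'def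
  have hs' : ∀ x, |s' x| ≤ 1 := fun x => hs _
  have hmemL : ∀ z, z ∈ L ↔ dn (z - y) ≤ ((3 * N : ℕ) : ℤ) := by
    intro z
    rw [hLdef, xa_tr, mem_bl]
  set G : (ℤ × ℤ → ℝ) → ℝ := fun H => ((N : ℝ) ^ 2)⁻¹ * Ls W g s' X H with hGdef
  have hGm : Measurable G := (xc_Ls W (xc_gm hg) s' X).const_mul _
  have hGb : ∀ H, |G H| ≤ C := fun H => xc_avg_le hg.bdd hs' hN1 hXc H
  have hGd : Dep L G := by
    intro H H' hHH
    simp only [hGdef, Ls]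
    congr 1
    refine Finset.sum_congr rfl fun x hx => ?_
    congr 2
    unfold rs
    funext w
    apply hHH
    rw [hmemL]
    rw [hXdef, xa_tr] at hx
    have h1 := bx_dn hx
    have h2 := hrW w.1 w.2
    have h3 := dn_add_le (x - y) w.1
    have e : x + w.1 - y = x - y + w.1 := by abel
    rw [e]
    push_cast
    omega
  have hLD : L ∪ ob L ⊆ D := by
    intro z hz
    rw [Finset.mem_union] at hz
    apply hy
    rcases hz with hz | hz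
    · rw [hmemL] at hz
      push_cast at hz
      omega
    · rw [xa_ob] at hz
      obtain ⟨⟨x, hx, i, rfl⟩, _⟩ := hz
      rw [hmemL] at hx
      push_cast at hx
      have h1 := abs_le.1 (dn_step (x - y) i)
      have e : x + st i - y = x - y + st i := by abel
      rw [e]
      omega
  have hdist : ∀ x ∈ X, ∀ z ∈ lb L, R ≤ dn (z - x) := by
    intro x hx z hz
    rw [hXdef, xa_tr] at hx
    rw [hLdef, lb_tr, xa_tr] at hz
    have h1 := (lb_bl hz).1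
    push_cast at h1
    have h2 := bx_dn hx
    have h3 := xc_dn_sub z x y
    omega
  have hV : ∀ t, 0 ≤ t → t ≤ (N : ℝ) ^ 2 → VK D b (Wph (lb L) t) (fun h => G (gl D b h)) ≤
      (A * ((N : ℝ) ^ 2)⁻¹) * EK D b (Wph (lb L) t) (fun _ => 1) := by
    intro t ht _
    have h1 := hvar D (lb L) X b hb s' hs' t ht hdist
    have h2 : VK D b (Wph (lb L) t) (fun h => G (gl D b h)) =
        (((N : ℝ) ^ 2)⁻¹) ^ 2 * VK D b (Wph (lb L) t) (fun h => Ls W g s' X (gl D b h)) := by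
      simp only [hGdef]
      exact xc_VK D b _ _ _
    rw [h2]
    rw [hXc] at h1
    push_cast at h1
    calc (((N : ℝ) ^ 2)⁻¹) ^ 2 * VK D b (Wph (lb L) t) (fun h => Ls W g s' X (gl D b h))
        ≤ (((N : ℝ) ^ 2)⁻¹) ^ 2 * (A * (N : ℝ) ^ 2 * EK D b (Wph (lb L) t) (fun _ => 1)) :=
          mul_le_mul_of_nonneg_left h1 (by positivity)
      _ = _ := by
          field_simp
  have hT : (1 : ℝ) ≤ (N : ℝ) ^ 2 := one_le_pow₀ hN1R
  have haT : ((N : ℝ) ^ 30)⁻¹ ≤ (N : ℝ) ^ 2 := by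
    have : ((N : ℝ) ^ 30)⁻¹ ≤ 1 := inv_le_one_of_one_le₀ (one_le_pow₀ hN1R)
    linarith
  have key := uni_gen hLD hb (a := ((N : ℝ) ^ 30)⁻¹) (T := (N : ℝ) ^ 2)
    (V := A * ((N : ℝ) ^ 2)⁻¹) (by positivity) haT hT hGm hGb hGd hV
  have hsy : ∀ x, s' (y + x) = s x := fun x => by
    simp only [hs'def]
    rw [add_sub_cancel_left]
  have e1 : (∫ h, G (gl D b h) ∂(ProbabilityTheory.cond volume (K D b))) =
      ((N : ℝ) ^ 2)⁻¹ * ∑ x ∈ bx N, s x * (∫ h, g (rs W (y + x) (gl D b h)) ∂(Mu D b)) := by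
    simp only [hGdef, Ls]
    rw [integral_const_mul]
    congr 1
    have e4 : ∑ x ∈ bx N, s x * (∫ h, g (rs W (y + x) (gl D b h)) ∂(Mu D b)) =
        ∑ x ∈ X, s' x * ∫ h, g (rs W x (gl D b h)) ∂(Mu D b) := by
      rw [hXdef, xc_sum_tr]
      refine Finset.sum_congr rfl fun x _ => ?_
      rw [hsy]
    rw [e4]
    have e5 : ∫ h, ∑ x ∈ X, s' x * g (rs W x (gl D b h)) ∂(Mu D b) =
        ∑ x ∈ X, ∫ h, s' x * g (rs W x (gl D b h)) ∂(Mu D b) :=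
      integral_finsetSum _ fun x _ => (xc_mean hb (xc_gm hg) hg.bdd x).const_mul (s' x)
    refine Eq.trans e5 (Finset.sum_congr rfl fun x _ => ?_)
    exact integral_const_mul _ _
  have e2 : In L ((N : ℝ) ^ 2) G = uh W g s N := by
    rw [hLdef, In_tr (bl (3 * N)) y ((N : ℝ) ^ 2) hGm]
    unfold uh
    congr 1
    funext H
    simp only [hGdef, Ls]
    congr 1
    rw [hXdef, xc_sum_tr]
    refine Finset.sum_congr rfl fun x _ => ?_
    rw [hsy]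
    congr 2
    unfold rs
    funext w
    have e3 : y + x + w.1 - y = x + w.1 := by abel
    exact congrArg H e3
  rw [e1, e2] at key
  refine key.trans ?_
  have hs : ((lb L).card : ℝ) ≤ 96 * (N : ℝ) + 24 := by
    have h1 : (lb L).card ≤ 24 * (3 * N) + 24 := by
      rw [hLdef, lb_tr, xc_tr_card]
      exact lb_bl_card (3 * N)
    have h2 : ((lb L).card : ℝ) ≤ 24 * (3 * (N : ℝ)) + 24 := by exact_mod_cast h1
    linarith
  exact hnum N hNN₁ _ _ (Nat.cast_nonneg _) hs (Nat.cast_nonneg _) hD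

/- END xc -/

/- MODULE xd
Decomposition of the big box: `J = bx (P / N)`, the boxes `N j + bx N`, `j ∈ J`, are disjoint subsets
of `bx P` and cover all but at most `2 N P` points. -/

private theorem xd_one (F : ℤ → ℝ) {N m : ℕ} (hN : 1 ≤ N) :
    ∑ j ∈ Finset.Ico (0 : ℤ) m, ∑ x ∈ Finset.Ico (0 : ℤ) N, F ((N : ℤ) * j + x) =
      ∑ a ∈ Finset.Ico (0 : ℤ) ((N * m : ℕ) : ℤ), F a := by
  rw [← Finset.sum_product']
  have hN0 : (0 : ℤ) < (N : ℤ) := by exact_mod_cast hN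
  refine Finset.sum_nbij' (fun p => (N : ℤ) * p.1 + p.2) (fun a => (a / (N : ℤ), a % (N : ℤ)))
    ?_ ?_ ?_ ?_ ?_
  · rintro ⟨j, x⟩ h
    rw [Finset.mem_product, Finset.mem_Ico, Finset.mem_Ico] at h
    obtain ⟨⟨h1, h2⟩, h3, h4⟩ := h
    simp only at h1 h2 h3 h4
    rw [Finset.mem_Ico]
    push_cast
    constructor
    · positivity
    · have h5 : (N : ℤ) * (j + 1) ≤ (N : ℤ) * m := mul_le_mul_of_nonneg_left (by omega) hN0.le
      linarith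
  · intro a h
    rw [Finset.mem_Ico] at h
    push_cast at h
    rw [Finset.mem_product, Finset.mem_Ico, Finset.mem_Ico]
    refine ⟨⟨Int.ediv_nonneg h.1 hN0.le, ?_⟩, Int.emod_nonneg _ hN0.ne', Int.emod_lt_of_pos _ hN0⟩
    apply Int.ediv_lt_of_lt_mul hN0
    linarith [h.2, mul_comm (N : ℤ) (m : ℤ)]
  · rintro ⟨j, x⟩ h
    rw [Finset.mem_product, Finset.mem_Ico, Finset.mem_Ico] at h
    obtain ⟨⟨h1, h2⟩, h3, h4⟩ := h
    simp only at h1 h2 h3 h4 ⊢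
    have h5 : ((N : ℤ) * j + x) / (N : ℤ) = j := by
      rw [Int.mul_add_ediv_left _ _ hN0.ne', Int.ediv_eq_zero_of_lt h3 h4, add_zero]
    have h6 : ((N : ℤ) * j + x) % (N : ℤ) = x := by
      rw [Int.mul_add_emod_self_left, Int.emod_eq_of_lt h3 h4]
    rw [h5, h6]
  · intro a _
    exact Int.mul_ediv_add_emod a (N : ℤ)
  · rintro ⟨j, x⟩ _
    rfl

theorem box_dec {N P : ℕ} (hN : 1 ≤ N) (hP : N ≤ P) {f : ℤ × ℤ → ℝ} {B : ℝ}
    (hB : ∀ x, |f x| ≤ B) :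
    |(∑ x ∈ bx P, f x) - ∑ j ∈ bx (P / N), ∑ x ∈ bx N, f (((N : ℤ) * j.1, (N : ℤ) * j.2) + x)| ≤
      2 * B * (N : ℝ) * (P : ℝ) := by
  have hB0 : 0 ≤ B := (abs_nonneg _).trans (hB 0)
  set Q : ℕ := N * (P / N) with hQ
  have hQP : Q ≤ P := Nat.mul_div_le P N
  have hPQ : P ≤ Q + N := by
    have h1 := Nat.div_add_mod P N
    have h2 := Nat.mod_lt P (show 0 < N by omega)
    omega
  have e1 : ∑ j ∈ bx (P / N), ∑ x ∈ bx N, f (((N : ℤ) * j.1, (N : ℤ) * j.2) + x) =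
      ∑ x ∈ bx Q, f x := by
    calc ∑ j ∈ bx (P / N), ∑ x ∈ bx N, f (((N : ℤ) * j.1, (N : ℤ) * j.2) + x)
        = ∑ j₁ ∈ Finset.Ico (0 : ℤ) ((P / N : ℕ) : ℤ), ∑ j₂ ∈ Finset.Ico (0 : ℤ) ((P / N : ℕ) : ℤ),
          ∑ x₁ ∈ Finset.Ico (0 : ℤ) N, ∑ x₂ ∈ Finset.Ico (0 : ℤ) N,
            f ((N : ℤ) * j₁ + x₁, (N : ℤ) * j₂ + x₂) := by
          unfold bx
          rw [Finset.sum_product]
          refine Finset.sum_congr rfl fun j₁ _ => ?_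
          refine Finset.sum_congr rfl fun j₂ _ => ?_
          rw [Finset.sum_product]
          rfl
      _ = ∑ j₁ ∈ Finset.Ico (0 : ℤ) ((P / N : ℕ) : ℤ), ∑ x₁ ∈ Finset.Ico (0 : ℤ) N,
          ∑ j₂ ∈ Finset.Ico (0 : ℤ) ((P / N : ℕ) : ℤ), ∑ x₂ ∈ Finset.Ico (0 : ℤ) N,
            f ((N : ℤ) * j₁ + x₁, (N : ℤ) * j₂ + x₂) :=
          Finset.sum_congr rfl fun j₁ _ => Finset.sum_comm
      _ = ∑ j₁ ∈ Finset.Ico (0 : ℤ) ((P / N : ℕ) : ℤ), ∑ x₁ ∈ Finset.Ico (0 : ℤ) N,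
          ∑ b ∈ Finset.Ico (0 : ℤ) (Q : ℤ), f ((N : ℤ) * j₁ + x₁, b) :=
          Finset.sum_congr rfl fun j₁ _ => Finset.sum_congr rfl fun x₁ _ =>
            xd_one (fun b => f ((N : ℤ) * j₁ + x₁, b)) hN
      _ = ∑ a ∈ Finset.Ico (0 : ℤ) (Q : ℤ), ∑ b ∈ Finset.Ico (0 : ℤ) (Q : ℤ), f (a, b) :=
          xd_one (fun a => ∑ b ∈ Finset.Ico (0 : ℤ) (Q : ℤ), f (a, b)) hN
      _ = ∑ x ∈ bx Q, f x := (Finset.sum_product _ _ _).symm
  rw [e1]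
  have hsub : bx Q ⊆ bx P := by
    unfold bx
    have : Finset.Ico (0 : ℤ) (Q : ℤ) ⊆ Finset.Ico (0 : ℤ) (P : ℤ) :=
      Finset.Ico_subset_Ico_right (by exact_mod_cast hQP)
    exact Finset.product_subset_product this this
  rw [← Finset.sum_sdiff hsub, add_sub_cancel_right]
  refine (Finset.abs_sum_le_sum_abs _ _).trans ?_
  refine (Finset.sum_le_sum fun x _ => hB x).trans ?_
  rw [Finset.sum_const, nsmul_eq_mul, Finset.card_sdiff_of_subset hsub, bx_card, bx_card]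
  have h1 : ((P ^ 2 - Q ^ 2 : ℕ) : ℝ) ≤ 2 * N * P := by
    have h2 : P ^ 2 ≤ Q ^ 2 + 2 * N * P := by nlinarith
    have h3 : P ^ 2 - Q ^ 2 ≤ 2 * N * P := by omega
    exact_mod_cast h3
  calc ((P ^ 2 - Q ^ 2 : ℕ) : ℝ) * B ≤ (2 * N * P) * B := mul_le_mul_of_nonneg_right h1 hB0
    _ = 2 * B * (N : ℝ) * (P : ℝ) := by ring

/- END xd -/

/- MODULE xe
`D = bl (4 P)`, `b = 0`, `s = 1`: `uni` at scale `P` with `y = 0` and at scale `N` with `y = N j`,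
`box_dec`; `|J| N^2 = P^2 - O(N P)`. -/

private theorem xe_uh {W : Finset (ℤ × ℤ)} {g : (W → ℝ) → ℝ} {C : ℝ} (hg : Lg W g C) {N : ℕ}
    (hN : 1 ≤ N) : |uh W g (fun _ => 1) N| ≤ C :=
  In_bdd _ _ ((xc_Ls W (xc_gm hg) (fun _ => 1) (bx N)).const_mul _)
    (fun H => xc_avg_le hg.bdd (fun _ => by rw [abs_one]) hN (bx_card N) H)

private theorem xe_card {P : ℕ} (hP : 1 ≤ P) : ((bl (4 * P)).card : ℝ) ≤ 81 * (P : ℝ) ^ 2 := by
  have h1 := bl_card (4 * P)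
  have h2 : ((bl (4 * P)).card : ℝ) ≤ (2 * (4 * (P : ℝ)) + 1) ^ 2 := by exact_mod_cast h1
  have h3 : (1 : ℝ) ≤ (P : ℝ) := by exact_mod_cast hP
  nlinarith

theorem uh_cmp {W : Finset (ℤ × ℤ)} {g : (W → ℝ) → ℝ} {C : ℝ} (hg : Lg W g C) :
    ∃ (C' : ℝ) (N₀ : ℕ), 0 ≤ C' ∧ 1 ≤ N₀ ∧ ∀ N P : ℕ, N₀ ≤ N → N ^ 2 ≤ P → P ≤ N ^ 9 →
      |uh W g (fun _ => 1) P - uh W g (fun _ => 1) N| ≤ C' * (N : ℝ) ^ (-(1 / 4) : ℝ) := by
  obtain ⟨C₁, N₁, hC₁, hN₁, huni'⟩ := uni hg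
  have hC := xc_C hg
  have huni : ∀ N : ℕ, N₁ ≤ N → ∀ (D : Finset (ℤ × ℤ)) (b : ℤ × ℤ → ℝ) (y : ℤ × ℤ),
      (D.card : ℝ) ≤ (N : ℝ) ^ 20 → (∀ z, |b z| ≤ 1 / 2) → (∀ z, dn (z - y) ≤ 4 * N → z ∈ D) →
      |((N : ℝ) ^ 2)⁻¹ * ∑ x ∈ bx N, (∫ h, g (rs W (y + x) (gl D b h)) ∂(Mu D b)) -
        uh W g (fun _ => 1) N| ≤ C₁ * (N : ℝ) ^ (-(1 / 4) : ℝ) := by
    intro N hN D b y hD hb hy
    have h := huni' N hN (fun _ => 1) (fun _ => by rw [abs_one]) D b y hD hb hy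
    simpa only [one_mul] using h
  refine ⟨2 * C₁ + 4 * C, max N₁ 9, by positivity, le_max_of_le_left hN₁, ?_⟩
  intro N P hN hNP hPN
  have hNN₁ : N₁ ≤ N := (le_max_left _ _).trans hN
  have hN9 : 9 ≤ N := (le_max_right _ _).trans hN
  have hN1 : 1 ≤ N := by omega
  have hNP1 : N ≤ P := le_trans (by nlinarith) hNP
  have h2N : 2 * N ≤ P := le_trans (by nlinarith) hNP
  have hP1 : 1 ≤ P := by omega
  have hN0R : (0 : ℝ) < (N : ℝ) := by exact_mod_cast hN1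
  have hP0R : (0 : ℝ) < (P : ℝ) := by exact_mod_cast hP1
  have hN1R : (1 : ℝ) ≤ (N : ℝ) := by exact_mod_cast hN1
  have hP1R : (1 : ℝ) ≤ (P : ℝ) := by exact_mod_cast hP1
  have hN9R : (9 : ℝ) ≤ (N : ℝ) := by exact_mod_cast hN9
  set D : Finset (ℤ × ℤ) := bl (4 * P) with hD
  set b : ℤ × ℤ → ℝ := fun _ => 0 with hbdef
  have hb : ∀ z, |b z| ≤ 1 / 2 := fun z => by simp only [hbdef, abs_zero]; norm_num
  set f : ℤ × ℤ → ℝ := fun x => ∫ h, g (rs W x (gl D b h)) ∂(Mu D b) with hf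
  have hfb : ∀ x, |f x| ≤ C := fun x => xc_mean_le hb hg.bdd x
  have hcard : (D.card : ℝ) ≤ 81 * (P : ℝ) ^ 2 := xe_card hP1
  -- scale P
  have hP20 : (D.card : ℝ) ≤ (P : ℝ) ^ 20 := by
    refine hcard.trans ?_
    have h1 : (81 : ℝ) ≤ (P : ℝ) ^ 18 := by
      have h2 : (9 : ℝ) ≤ (P : ℝ) := by exact_mod_cast (hN9.trans hNP1)
      calc (81 : ℝ) ≤ 9 ^ 18 := by norm_num
        _ ≤ (P : ℝ) ^ 18 := by gcongr
    calc 81 * (P : ℝ) ^ 2 ≤ (P : ℝ) ^ 18 * (P : ℝ) ^ 2 := by gcongr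
      _ = (P : ℝ) ^ 20 := by ring
  have hA := huni P (hNN₁.trans hNP1) D b 0 hP20 hb (fun z hz => by
    rw [hD, mem_bl]
    rw [sub_zero] at hz
    push_cast
    exact hz)
  have hA' : |((P : ℝ) ^ 2)⁻¹ * (∑ x ∈ bx P, f x) - uh W g (fun _ => 1) P| ≤ C₁ * (N : ℝ) ^ (-(1 / 4) : ℝ) := by
    have e : ∑ x ∈ bx P, f x = ∑ x ∈ bx P, ∫ h, g (rs W (0 + x) (gl D b h)) ∂(Mu D b) := by
      refine Finset.sum_congr rfl fun x _ => ?_
      rw [zero_add]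
    rw [e]
    refine hA.trans ?_
    have hNPR : (N : ℝ) ≤ (P : ℝ) := by exact_mod_cast hNP1
    have : (P : ℝ) ^ (-(1 / 4) : ℝ) ≤ (N : ℝ) ^ (-(1 / 4) : ℝ) :=
      Real.rpow_le_rpow_of_nonpos hN0R hNPR (by norm_num)
    exact mul_le_mul_of_nonneg_left this hC₁
  -- scale N
  have hN20 : (D.card : ℝ) ≤ (N : ℝ) ^ 20 := by
    have h3 : (P : ℝ) ≤ (N : ℝ) ^ 9 := by exact_mod_cast hPN
    calc (D.card : ℝ) ≤ 81 * (P : ℝ) ^ 2 := hcard
      _ ≤ 81 * ((N : ℝ) ^ 9) ^ 2 := by gcongr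
      _ ≤ (N : ℝ) ^ 2 * ((N : ℝ) ^ 9) ^ 2 := by
          have : (81 : ℝ) ≤ (N : ℝ) ^ 2 := by nlinarith
          gcongr
      _ = (N : ℝ) ^ 20 := by ring
  set Y : ℤ × ℤ → ℤ × ℤ := fun j => ((N : ℤ) * j.1, (N : ℤ) * j.2) with hY
  have hj : ∀ j ∈ bx (P / N), |(∑ x ∈ bx N, f (Y j + x)) - (N : ℝ) ^ 2 * uh W g (fun _ => 1) N| ≤
      (N : ℝ) ^ 2 * (C₁ * (N : ℝ) ^ (-(1 / 4) : ℝ)) := by
    intro j hj
    have hdn : dn (Y j) ≤ 2 * P := by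
      have h1 := bx_dn hj
      unfold bx at hj
      rw [Finset.mem_product, Finset.mem_Ico, Finset.mem_Ico] at hj
      obtain ⟨⟨h2, h3⟩, h4, h5⟩ := hj
      have h6 : (N : ℤ) * ((P / N : ℕ) : ℤ) ≤ P := by exact_mod_cast Nat.mul_div_le P N
      have hN0 : (0 : ℤ) ≤ (N : ℤ) := by positivity
      have h7 : (N : ℤ) * j.1 ≤ (N : ℤ) * ((P / N : ℕ) : ℤ) := mul_le_mul_of_nonneg_left h3.le hN0
      have h8 : (N : ℤ) * j.2 ≤ (N : ℤ) * ((P / N : ℕ) : ℤ) := mul_le_mul_of_nonneg_left h5.le hN0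
      have h9 : 0 ≤ (N : ℤ) * j.1 := mul_nonneg hN0 h2
      have h10 : 0 ≤ (N : ℤ) * j.2 := mul_nonneg hN0 h4
      simp only [hY]
      unfold dn
      simp only
      refine max_le ?_ (max_le ?_ ?_)
      · rw [abs_of_nonneg h9]; omega
      · rw [abs_of_nonneg h10]; omega
      · rw [abs_of_nonneg (by omega)]; omega
    have h := huni N hNN₁ D b (Y j) hN20 hb (fun z hz => by
      rw [hD, mem_bl]
      have h1 := xc_dn_sub z (Y j) 0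
      rw [sub_zero, sub_zero] at h1
      push_cast
      omega)
    have e : (∑ x ∈ bx N, f (Y j + x)) - (N : ℝ) ^ 2 * uh W g (fun _ => 1) N =
        (N : ℝ) ^ 2 * (((N : ℝ) ^ 2)⁻¹ * (∑ x ∈ bx N,
          ∫ h, g (rs W (Y j + x) (gl D b h)) ∂(Mu D b)) - uh W g (fun _ => 1) N) := by
      rw [mul_sub, ← mul_assoc, mul_inv_cancel₀ (by positivity), one_mul]
    rw [e, abs_mul, abs_of_pos (by positivity : (0 : ℝ) < (N : ℝ) ^ 2)]
    exact mul_le_mul_of_nonneg_left h (by positivity)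
  set Q : ℝ := ((P / N : ℕ) : ℝ) ^ 2 * (N : ℝ) ^ 2 with hQ
  have hQP : Q ≤ (P : ℝ) ^ 2 := by
    have h1 : ((P / N : ℕ) : ℝ) * (N : ℝ) ≤ (P : ℝ) := by exact_mod_cast Nat.div_mul_le_self P N
    calc Q = (((P / N : ℕ) : ℝ) * (N : ℝ)) ^ 2 := by rw [hQ]; ring
      _ ≤ (P : ℝ) ^ 2 := by gcongr
  have hPQ : (P : ℝ) ^ 2 - Q ≤ 2 * (N : ℝ) * (P : ℝ) := by
    have h1 : P ≤ P / N * N + N := by
      have h1 := Nat.div_add_mod P N
      have h2 := Nat.mod_lt P (show 0 < N by omega)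
      rw [mul_comm] at h1
      omega
    have h2 : (P : ℝ) ≤ ((P / N : ℕ) : ℝ) * (N : ℝ) + (N : ℝ) := by exact_mod_cast h1
    have h3 : ((P / N : ℕ) : ℝ) * (N : ℝ) ≤ (P : ℝ) := by exact_mod_cast Nat.div_mul_le_self P N
    have h4 : Q = (((P / N : ℕ) : ℝ) * (N : ℝ)) ^ 2 := by rw [hQ]; ring
    rw [h4]
    have h5 : (0 : ℝ) ≤ ((P / N : ℕ) : ℝ) * (N : ℝ) := by positivity
    nlinarith
  have hS : |(∑ j ∈ bx (P / N), ∑ x ∈ bx N, f (Y j + x)) - Q * uh W g (fun _ => 1) N| ≤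
      (P : ℝ) ^ 2 * (C₁ * (N : ℝ) ^ (-(1 / 4) : ℝ)) := by
    have e : (∑ j ∈ bx (P / N), ∑ x ∈ bx N, f (Y j + x)) - Q * uh W g (fun _ => 1) N =
        ∑ j ∈ bx (P / N), ((∑ x ∈ bx N, f (Y j + x)) - (N : ℝ) ^ 2 * uh W g (fun _ => 1) N) := by
      rw [Finset.sum_sub_distrib, Finset.sum_const, bx_card, nsmul_eq_mul, hQ]
      push_cast
      ring
    rw [e]
    refine (Finset.abs_sum_le_sum_abs _ _).trans ((Finset.sum_le_sum hj).trans ?_)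
    rw [Finset.sum_const, bx_card, nsmul_eq_mul]
    push_cast
    calc ((P / N : ℕ) : ℝ) ^ 2 * ((N : ℝ) ^ 2 * (C₁ * (N : ℝ) ^ (-(1 / 4) : ℝ)))
        = Q * (C₁ * (N : ℝ) ^ (-(1 / 4) : ℝ)) := by rw [hQ]; ring
      _ ≤ _ := mul_le_mul_of_nonneg_right hQP (by positivity)
  have hbox := box_dec hN1 hNP1 hfb
  have huhN := xe_uh hg hN1
  have hfin : |(∑ x ∈ bx P, f x) - (P : ℝ) ^ 2 * uh W g (fun _ => 1) N| ≤
      2 * C * (N : ℝ) * (P : ℝ) + (P : ℝ) ^ 2 * (C₁ * (N : ℝ) ^ (-(1 / 4) : ℝ)) +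
        2 * (N : ℝ) * (P : ℝ) * C := by
    have e : (∑ x ∈ bx P, f x) - (P : ℝ) ^ 2 * uh W g (fun _ => 1) N =
        ((∑ x ∈ bx P, f x) - ∑ j ∈ bx (P / N), ∑ x ∈ bx N, f (Y j + x)) +
        ((∑ j ∈ bx (P / N), ∑ x ∈ bx N, f (Y j + x)) - Q * uh W g (fun _ => 1) N) +
        (-(((P : ℝ) ^ 2 - Q) * uh W g (fun _ => 1) N)) := by ring
    rw [e]
    refine (abs_add_three _ _ _).trans ?_
    refine add_le_add (add_le_add hbox hS) ?_
    rw [abs_neg, abs_mul, abs_of_nonneg (by linarith : (0 : ℝ) ≤ (P : ℝ) ^ 2 - Q)]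
    exact mul_le_mul hPQ huhN (abs_nonneg _) (by positivity)
  have hfin2 : |((P : ℝ) ^ 2)⁻¹ * (∑ x ∈ bx P, f x) - uh W g (fun _ => 1) N| ≤
      4 * C * ((N : ℝ) / (P : ℝ)) + C₁ * (N : ℝ) ^ (-(1 / 4) : ℝ) := by
    have e : ((P : ℝ) ^ 2)⁻¹ * (∑ x ∈ bx P, f x) - uh W g (fun _ => 1) N =
        ((P : ℝ) ^ 2)⁻¹ * ((∑ x ∈ bx P, f x) - (P : ℝ) ^ 2 * uh W g (fun _ => 1) N) := by
      field_simp
    rw [e, abs_mul, abs_of_pos (by positivity : (0 : ℝ) < ((P : ℝ) ^ 2)⁻¹)]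
    refine (mul_le_mul_of_nonneg_left hfin (by positivity)).trans (le_of_eq ?_)
    field_simp
    ring
  have hNPdiv : (N : ℝ) / (P : ℝ) ≤ (N : ℝ) ^ (-(1 / 4) : ℝ) := by
    have h1 : (N : ℝ) / (P : ℝ) ≤ (N : ℝ)⁻¹ := by
      rw [div_le_iff₀ hP0R, inv_mul_eq_div, le_div_iff₀ hN0R]
      have : (N : ℝ) ^ 2 ≤ (P : ℝ) := by exact_mod_cast hNP
      nlinarith
    refine h1.trans ?_
    rw [← Real.rpow_neg_one]
    exact Real.rpow_le_rpow_of_exponent_le hN1R (by norm_num)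
  have e : uh W g (fun _ => 1) P - uh W g (fun _ => 1) N =
      (((P : ℝ) ^ 2)⁻¹ * (∑ x ∈ bx P, f x) - uh W g (fun _ => 1) N) -
        (((P : ℝ) ^ 2)⁻¹ * (∑ x ∈ bx P, f x) - uh W g (fun _ => 1) P) := by ring
  rw [e]
  refine (abs_sub _ _).trans ?_
  have h4 : 4 * C * ((N : ℝ) / (P : ℝ)) ≤ 4 * C * (N : ℝ) ^ (-(1 / 4) : ℝ) :=
    mul_le_mul_of_nonneg_left hNPdiv (by positivity)
  nlinarith [hfin2, hA', h4]

/- END xe -/

/- MODULE xf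
Real analysis.  For `N ≤ M ≤ N^4` take `P = M^2`: `|u N - u M| ≤ 2 C N^(-1/4)`.  Chain
`N, N^2, N^4, ...` (the sum of `(N ^ (2 ^ k)) ^ (-1/4)` over `k` tends to `0` for `N → ∞`): the
sequence is Cauchy. -/

private theorem xf_step {u : ℕ → ℝ} {C : ℝ} {N₀ : ℕ} (hC : 0 ≤ C) (h1 : 1 ≤ N₀)
    (H : ∀ N P : ℕ, N₀ ≤ N → N ^ 2 ≤ P → P ≤ N ^ 9 →
      |u P - u N| ≤ C * (N : ℝ) ^ (-(1 / 4) : ℝ)) {N M : ℕ} (hN : N₀ ≤ N) (hNM : N ≤ M)
    (hM : M ≤ N ^ 4) : |u M - u N| ≤ 2 * C * (N : ℝ) ^ (-(1 / 4) : ℝ) := by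
  have hN1 : 1 ≤ N := h1.trans hN
  have hM1 : 1 ≤ M := hN1.trans hNM
  have a1 := H N (M ^ 2) hN (Nat.pow_le_pow_left hNM 2) (by
    calc M ^ 2 ≤ (N ^ 4) ^ 2 := Nat.pow_le_pow_left hM 2
      _ = N ^ 8 := by ring
      _ ≤ N ^ 9 := Nat.pow_le_pow_right hN1 (by norm_num))
  have a2 := H M (M ^ 2) (hN.trans hNM) le_rfl (Nat.pow_le_pow_right hM1 (by norm_num))
  have hN0R : (0 : ℝ) < (N : ℝ) := by exact_mod_cast hN1
  have hNMR : (N : ℝ) ≤ (M : ℝ) := by exact_mod_cast hNM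
  have h3 : (M : ℝ) ^ (-(1 / 4) : ℝ) ≤ (N : ℝ) ^ (-(1 / 4) : ℝ) :=
    Real.rpow_le_rpow_of_nonpos hN0R hNMR (by norm_num)
  have h4 := mul_le_mul_of_nonneg_left h3 hC
  have e : u M - u N = (u (M ^ 2) - u N) - (u (M ^ 2) - u M) := by ring
  rw [e]
  refine (abs_sub _ _).trans ?_
  linarith

private theorem xf_all {u : ℕ → ℝ} {C : ℝ} {N₀ : ℕ} (hC : 0 ≤ C) (h1 : 1 ≤ N₀)
    (H : ∀ N P : ℕ, N₀ ≤ N → N ^ 2 ≤ P → P ≤ N ^ 9 →
      |u P - u N| ≤ C * (N : ℝ) ^ (-(1 / 4) : ℝ)) (k : ℕ) : ∀ N M : ℕ, N₀ ≤ N → 16 ≤ N →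
      N ≤ M → M ≤ N ^ (4 ^ k) → |u M - u N| ≤ 4 * C * (N : ℝ) ^ (-(1 / 4) : ℝ) := by
  induction k with
  | zero =>
    intro N M hN hN16 hNM hM
    rw [pow_zero, pow_one] at hM
    have : M = N := le_antisymm hM hNM
    rw [this, sub_self, abs_zero]
    positivity
  | succ k ih =>
    intro N M hN hN16 hNM hM
    have hN1 : 1 ≤ N := h1.trans hN
    have hN0R : (0 : ℝ) < (N : ℝ) := by exact_mod_cast hN1
    have hx0 : 0 < (N : ℝ) ^ (-(1 / 4) : ℝ) := Real.rpow_pos_of_pos hN0R _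
    rcases le_total M (N ^ 4) with h | h
    · refine (xf_step hC h1 H hN hNM h).trans ?_
      have : 0 ≤ C * (N : ℝ) ^ (-(1 / 4) : ℝ) := by positivity
      linarith
    · have hN4 : N ≤ N ^ 4 := Nat.le_self_pow (by norm_num) N
      have a1 := xf_step hC h1 H hN hN4 le_rfl
      have a2 := ih (N ^ 4) M (hN.trans hN4) (hN16.trans hN4) h (by
        rw [← pow_mul, ← pow_succ']
        exact hM)
      have h3 : ((N ^ 4 : ℕ) : ℝ) ^ (-(1 / 4) : ℝ) = (N : ℝ)⁻¹ := by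
        push_cast
        rw [← Real.rpow_natCast, ← Real.rpow_mul hN0R.le, ← Real.rpow_neg_one]
        norm_num
      rw [h3] at a2
      have h4 : (N : ℝ)⁻¹ ≤ (1 / 2) * (N : ℝ) ^ (-(1 / 4) : ℝ) := by
        have h5 : (N : ℝ)⁻¹ = (N : ℝ) ^ (-(3 / 4) : ℝ) * (N : ℝ) ^ (-(1 / 4) : ℝ) := by
          rw [← Real.rpow_add hN0R, ← Real.rpow_neg_one]
          norm_num
        rw [h5]
        apply mul_le_mul_of_nonneg_right _ hx0.le
        have h6 : (16 : ℝ) ≤ (N : ℝ) := by exact_mod_cast hN16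
        calc (N : ℝ) ^ (-(3 / 4) : ℝ) ≤ (16 : ℝ) ^ (-(3 / 4) : ℝ) :=
              Real.rpow_le_rpow_of_nonpos (by norm_num) h6 (by norm_num)
          _ = 1 / 8 := by
              have : (16 : ℝ) = 2 ^ (4 : ℝ) := by norm_num
              rw [this, ← Real.rpow_mul (by norm_num)]
              norm_num
          _ ≤ 1 / 2 := by norm_num
      have h7 := mul_le_mul_of_nonneg_left h4 (show 0 ≤ 4 * C by positivity)
      have e : u M - u N = (u M - u (N ^ 4)) + (u (N ^ 4) - u N) := by ring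
      rw [e]
      refine (abs_add_le _ _).trans ?_
      linarith

theorem chain_lim {u : ℕ → ℝ} {C : ℝ} {N₀ : ℕ} (hC : 0 ≤ C) (h1 : 1 ≤ N₀)
    (H : ∀ N P : ℕ, N₀ ≤ N → N ^ 2 ≤ P → P ≤ N ^ 9 →
      |u P - u N| ≤ C * (N : ℝ) ^ (-(1 / 4) : ℝ)) : ∃ m : ℝ, Tendsto u atTop (𝓝 m) := by
  have hall : ∀ N M : ℕ, N₀ ≤ N → 16 ≤ N → N ≤ M →
      |u M - u N| ≤ 4 * C * (N : ℝ) ^ (-(1 / 4) : ℝ) := by
    intro N M hN hN16 hNM
    refine xf_all hC h1 H M N M hN hN16 hNM ?_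
    have h2 : M < 2 ^ M := Nat.lt_two_pow_self
    have h3 : M ≤ 4 ^ M := h2.le.trans (Nat.pow_le_pow_left (by norm_num) M)
    calc M ≤ 2 ^ M := h2.le
      _ ≤ N ^ M := Nat.pow_le_pow_left (by omega) M
      _ ≤ N ^ (4 ^ M) := Nat.pow_le_pow_right (by omega) h3
  have hcau : CauchySeq u := by
    rw [Metric.cauchySeq_iff']
    intro ε hε
    have hlim : Tendsto (fun N : ℕ => 4 * C * (N : ℝ) ^ (-(1 / 4) : ℝ)) atTop (𝓝 (4 * C * 0)) := by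
      refine Tendsto.const_mul _ ?_
      exact (tendsto_rpow_neg_atTop (by norm_num : (0 : ℝ) < 1 / 4)).comp
        tendsto_natCast_atTop_atTop
    rw [mul_zero] at hlim
    have hev := (hlim.eventually (gt_mem_nhds hε)).and
      (eventually_ge_atTop (max N₀ 16))
    obtain ⟨N, hN1, hN2⟩ := hev.exists
    refine ⟨N, fun M hM => ?_⟩
    rw [Real.dist_eq]
    exact (hall N M ((le_max_left _ _).trans hN2) ((le_max_right _ _).trans hN2) hM).trans_lt hN1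
  exact cauchySeq_tendsto_of_complete hcau

/- END xf -/

/- MODULE xh
(L1) for smooth `g`.  `m = lim uh W g 1 N` (`uh_cmp`, `chain_lim`).  Put `P = N^2`, `D' = bl (4 P)`,
`b' = 0`, `e'(z) = ∫ g (rs W z ..) ∂(Mu D' 0)`, `e(x) = ∫ g (rs W (y + x) ..) ∂(Mu D b)`.  For every
`z ∈ bx P`: `N^(-2) ∑_{x ∈ bx N} |e x - e' (z + x)| ≤ 2 C' N^(-1/4)` (`uni` for `(D, b, y)` and
`(D', 0, z)` with `s x` = the sign of the difference).  Average over `z ∈ bx P` inside `|.|`; the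
average of `e' (z + x)` over `z ∈ bx P` differs from the average of `e' z` by `O(C N / P)`, and this is
close to `uh W g 1 P`, hence to `m`. -/

private theorem xh_bd {W : Finset (ℤ × ℤ)} {g : (W → ℝ) → ℝ} {C : ℝ} (hg : Lg W g C)
    (D : Finset (ℤ × ℤ)) (b : ℤ × ℤ → ℝ) (z : ℤ × ℤ) :
    |∫ h, g (rs W z (gl D b h)) ∂(Mu D b)| ≤ C := by
  have hC : 0 ≤ C := (abs_nonneg _).trans (hg.bdd 0)
  rw [← Real.norm_eq_abs]
  by_cases hz : Mu D b = 0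
  · rw [hz, integral_zero_measure, norm_zero]
    exact hC
  · haveI : IsZeroOrProbabilityMeasure (Mu D b) := by
      unfold Mu
      infer_instance
    refine (norm_integral_le_of_norm_le_const (C := C)
      (Filter.Eventually.of_forall fun h => hg.bdd _)).trans ?_
    exact mul_le_of_le_one_right hC measureReal_le_one

private theorem xh_shift {P N : ℕ} {x : ℤ × ℤ} (hx : x ∈ bx N) (hNP : N ≤ P)
    {f : ℤ × ℤ → ℝ} {B : ℝ} (hB : ∀ z, |f z| ≤ B) :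
    |∑ z ∈ bx P, f (z + x) - ∑ z ∈ bx P, f z| ≤ 4 * B * (N : ℝ) * (P : ℝ) := by
  classical
  have hB0 : 0 ≤ B := (abs_nonneg _).trans (hB 0)
  have hinj : Function.Injective (fun z : ℤ × ℤ => z + x) := fun a b h => add_right_cancel h
  set A := (bx P).image (fun z => z + x) with hA
  have h1 : ∑ z ∈ bx P, f (z + x) = ∑ z ∈ A, f z := by
    rw [hA, Finset.sum_image fun a _ b _ h => hinj h]
  have hcard : A.card = (bx P).card := Finset.card_image_of_injective _ hinj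
  have h2 : (bx P \ A).card ≤ 2 * (N * P) := by
    have hsub : bx P \ A ⊆ (Finset.Ico (0 : ℤ) N ×ˢ Finset.Ico (0 : ℤ) P) ∪
        (Finset.Ico (0 : ℤ) P ×ˢ Finset.Ico (0 : ℤ) N) := by
      intro z hz
      obtain ⟨hz1, hz2⟩ := Finset.mem_sdiff.1 hz
      unfold bx at hx hz1
      simp only [Finset.mem_product, Finset.mem_Ico] at hx hz1
      by_contra hcon
      refine hz2 (Finset.mem_image.2 ⟨z - x, ?_, sub_add_cancel z x⟩)
      simp only [Finset.mem_union, Finset.mem_product, Finset.mem_Ico, not_or] at hcon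
      unfold bx
      simp only [Finset.mem_product, Finset.mem_Ico, Prod.fst_sub, Prod.snd_sub]
      omega
    refine (Finset.card_le_card hsub).trans ((Finset.card_union_le _ _).trans ?_)
    simp only [Finset.card_product, Int.card_Ico, sub_zero, Int.toNat_natCast]
    nlinarith
  have h3 : (A \ bx P).card = (bx P \ A).card := Finset.card_sdiff_comm hcard
  have h4 : ∀ T : Finset (ℤ × ℤ), |∑ z ∈ T, f z| ≤ (T.card : ℝ) * B := by
    intro T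
    calc |∑ z ∈ T, f z| ≤ ∑ z ∈ T, |f z| := Finset.abs_sum_le_sum_abs _ _
      _ ≤ ∑ _z ∈ T, B := Finset.sum_le_sum fun z _ => hB z
      _ = (T.card : ℝ) * B := by rw [Finset.sum_const, nsmul_eq_mul]
  have h2' : ((bx P \ A).card : ℝ) ≤ 2 * ((N : ℝ) * P) := by exact_mod_cast h2
  rw [h1, ← Finset.sum_sdiff_sub_sum_sdiff]
  calc |∑ z ∈ A \ bx P, f z - ∑ z ∈ bx P \ A, f z|
      ≤ |∑ z ∈ A \ bx P, f z| + |∑ z ∈ bx P \ A, f z| := abs_sub _ _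
    _ ≤ ((A \ bx P).card : ℝ) * B + ((bx P \ A).card : ℝ) * B := add_le_add (h4 _) (h4 _)
    _ = 2 * ((bx P \ A).card : ℝ) * B := by rw [h3]; ring
    _ ≤ 2 * (2 * ((N : ℝ) * P)) * B :=
        mul_le_mul_of_nonneg_right (by linarith) hB0
    _ = 4 * B * (N : ℝ) * (P : ℝ) := by ring

theorem uni_smooth {W : Finset (ℤ × ℤ)} {g : (W → ℝ) → ℝ} {C : ℝ} (hg : Lg W g C) :
    ∃ m : ℝ, ∀ ε : ℝ, 0 < ε → ∃ N₀ : ℕ, ∀ N : ℕ, N₀ ≤ N → ∀ (D : Finset (ℤ × ℤ))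
      (b : ℤ × ℤ → ℝ) (y : ℤ × ℤ), (D.card : ℝ) ≤ (N : ℝ) ^ 20 → (∀ z, |b z| ≤ 1 / 2) →
      (∀ z, dn (z - y) ≤ 4 * N → z ∈ D) →
      ((N : ℝ) ^ 2)⁻¹ * ∑ x ∈ bx N, |(∫ h, g (rs W (y + x) (gl D b h)) ∂(Mu D b)) - m| ≤ ε := by
  obtain ⟨C', N₁, hC', hN₁, hU⟩ := uni hg
  obtain ⟨C'', N₂, hC'', hN₂, hV⟩ := uh_cmp hg
  obtain ⟨m, hm⟩ := chain_lim hC'' hN₂ hV
  refine ⟨m, fun ε hε => ?_⟩
  have hC : 0 ≤ C := (abs_nonneg _).trans (hg.bdd 0)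
  have hr : Tendsto (fun N : ℕ => (N : ℝ) ^ (-(1 / 4) : ℝ)) atTop (𝓝 0) :=
    (tendsto_rpow_neg_atTop (by norm_num : (0 : ℝ) < 1 / 4)).comp tendsto_natCast_atTop_atTop
  have hsq : Tendsto (fun N : ℕ => N ^ 2) atTop atTop := tendsto_pow_atTop (by norm_num)
  have hlim : Tendsto (fun N : ℕ => 2 * C' * (N : ℝ) ^ (-(1 / 4) : ℝ) + 4 * C / (N : ℝ) +
      C' * ((N ^ 2 : ℕ) : ℝ) ^ (-(1 / 4) : ℝ) + |uh W g (fun _ => 1) (N ^ 2) - m|) atTop
      (𝓝 0) := by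
    have h1 : Tendsto (fun N : ℕ => 2 * C' * (N : ℝ) ^ (-(1 / 4) : ℝ)) atTop (𝓝 0) := by
      simpa using hr.const_mul (2 * C')
    have h2 : Tendsto (fun N : ℕ => 4 * C / (N : ℝ)) atTop (𝓝 0) :=
      tendsto_const_nhds.div_atTop tendsto_natCast_atTop_atTop
    have h3 : Tendsto (fun N : ℕ => C' * ((N ^ 2 : ℕ) : ℝ) ^ (-(1 / 4) : ℝ)) atTop (𝓝 0) := by
      simpa using (hr.comp hsq).const_mul C'
    have h4 : Tendsto (fun N : ℕ => |uh W g (fun _ => 1) (N ^ 2) - m|) atTop (𝓝 0) := by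
      have := ((hm.comp hsq).sub_const m).abs
      simpa using this
    simpa using ((h1.add h2).add h3).add h4
  obtain ⟨N₃, hN₃⟩ := eventually_atTop.1 (hlim.eventually_le_const hε)
  refine ⟨max (max N₁ N₃) 2, fun N hN D b y hD hb hy => ?_⟩
  have hNa : N₁ ≤ N := (le_max_left _ _).trans ((le_max_left _ _).trans hN)
  have hNb : N₃ ≤ N := (le_max_right _ _).trans ((le_max_left _ _).trans hN)
  have hNc : 2 ≤ N := (le_max_right _ _).trans hN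
  have hNP : N ≤ N ^ 2 := by nlinarith
  have hN0 : (0 : ℝ) < N := by
    have : 0 < N := by omega
    exact_mod_cast this
  have hN2 : (2 : ℝ) ≤ N := by exact_mod_cast hNc
  refine le_trans ?_ (hN₃ N hNb)
  set P : ℕ := N ^ 2 with hP
  have hP0 : (0 : ℝ) < P := by
    rw [hP]
    push_cast
    positivity
  have hPN : (P : ℝ) = (N : ℝ) ^ 2 := by
    rw [hP]
    push_cast
    ring
  have hcard : ((bl (4 * P)).card : ℝ) ≤ 81 * (N : ℝ) ^ 4 := by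
    have h1 : ((bl (4 * P)).card : ℝ) ≤ ((2 * (4 * P) + 1 : ℕ) : ℝ) ^ 2 := by
      exact_mod_cast bl_card (4 * P)
    refine h1.trans ?_
    have h2 : ((2 * (4 * P) + 1 : ℕ) : ℝ) ≤ 9 * (N : ℝ) ^ 2 := by
      push_cast
      rw [hPN]
      nlinarith
    calc ((2 * (4 * P) + 1 : ℕ) : ℝ) ^ 2 ≤ (9 * (N : ℝ) ^ 2) ^ 2 :=
          pow_le_pow_left₀ (by positivity) h2 2
      _ = 81 * (N : ℝ) ^ 4 := by ring
  have h81 : (81 : ℝ) * (N : ℝ) ^ 4 ≤ (N : ℝ) ^ 20 := by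
    have h1 : (81 : ℝ) ≤ (N : ℝ) ^ 16 := by
      calc (81 : ℝ) ≤ 2 ^ 16 := by norm_num
        _ ≤ (N : ℝ) ^ 16 := pow_le_pow_left₀ (by norm_num) hN2 16
    calc (81 : ℝ) * (N : ℝ) ^ 4 ≤ (N : ℝ) ^ 16 * (N : ℝ) ^ 4 :=
          mul_le_mul_of_nonneg_right h1 (by positivity)
      _ = (N : ℝ) ^ 20 := by ring
  have hcN : ((bl (4 * P)).card : ℝ) ≤ (N : ℝ) ^ 20 := hcard.trans h81
  have hcP : ((bl (4 * P)).card : ℝ) ≤ (P : ℝ) ^ 20 := by
    refine hcN.trans (pow_le_pow_left₀ hN0.le ?_ 20)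
    rw [hPN]
    nlinarith
  have hb0 : ∀ z : ℤ × ℤ, |(fun _ => 0 : ℤ × ℤ → ℝ) z| ≤ 1 / 2 := fun z => by
    simp only [abs_zero]
    norm_num
  obtain ⟨e, he⟩ : ∃ e : ℤ × ℤ → ℝ, e = fun x => ∫ h, g (rs W (y + x) (gl D b h)) ∂(Mu D b) :=
    ⟨_, rfl⟩
  obtain ⟨e', he'⟩ : ∃ e' : ℤ × ℤ → ℝ, e' = fun z => ∫ h, g (rs W z (gl (bl (4 * P))
    (fun _ => 0) h)) ∂(Mu (bl (4 * P)) (fun _ => 0)) := ⟨_, rfl⟩
  have he'b : ∀ z, |e' z| ≤ C := fun z => by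
    rw [he']
    exact xh_bd hg _ _ _
  have hgoal : ∀ x, (∫ h, g (rs W (y + x) (gl D b h)) ∂(Mu D b)) = e x := fun x => by rw [he]
  simp only [hgoal]
  -- the comparison at one position
  have hcmp : ∀ z ∈ bx P, ((N : ℝ) ^ 2)⁻¹ * ∑ x ∈ bx N, |e x - e' (z + x)| ≤
      2 * C' * (N : ℝ) ^ (-(1 / 4) : ℝ) := by
    intro z hz
    have hs1 : ∀ x, |(fun x => if 0 ≤ e x - e' (z + x) then (1 : ℝ) else -1) x| ≤ 1 := by
      intro x
      simp only []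
      split_ifs <;> simp
    have h1 := hU N hNa (fun x => if 0 ≤ e x - e' (z + x) then (1 : ℝ) else -1) hs1 D b y hD hb hy
    have h2 := hU N hNa (fun x => if 0 ≤ e x - e' (z + x) then (1 : ℝ) else -1) hs1 (bl (4 * P))
      (fun _ => 0) z hcN hb0 (by
        intro z' hz'
        rw [mem_bl]
        have h3 : dn z' ≤ dn (z' - z) + dn z := by
          have := dn_add_le (z' - z) z
          rwa [sub_add_cancel] at this
        have h4 := bx_dn hz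
        have h5 : (2 : ℤ) * N ≤ P := by
          have : 2 * N ≤ P := by rw [hP]; nlinarith
          exact_mod_cast this
        push_cast
        omega)
    have h3 : ∀ x, (∫ h, g (rs W (z + x) (gl (bl (4 * P)) (fun _ => 0) h))
        ∂(Mu (bl (4 * P)) (fun _ => 0))) = e' (z + x) := fun x => by rw [he']
    simp only [hgoal] at h1
    simp only [h3] at h2
    have h4 : ∑ x ∈ bx N, |e x - e' (z + x)| =
        (∑ x ∈ bx N, (if 0 ≤ e x - e' (z + x) then (1 : ℝ) else -1) * e x) -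
          ∑ x ∈ bx N, (if 0 ≤ e x - e' (z + x) then (1 : ℝ) else -1) * e' (z + x) := by
      rw [← Finset.sum_sub_distrib]
      refine Finset.sum_congr rfl fun x _ => ?_
      split_ifs with hle
      · rw [abs_of_nonneg hle]; ring
      · rw [abs_of_neg (not_le.1 hle)]; ring
    rw [h4, mul_sub]
    have h5 := (abs_le.1 h1).2
    have h6 := (abs_le.1 h2).1
    linarith
  have hcP2 : (((bx P).card : ℕ) : ℝ) = (P : ℝ) ^ 2 := by
    rw [bx_card]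
    push_cast
    ring
  -- averages over the positions
  have hA : ∀ x, |e x - ((P : ℝ) ^ 2)⁻¹ * ∑ z ∈ bx P, e' (z + x)| ≤
      ((P : ℝ) ^ 2)⁻¹ * ∑ z ∈ bx P, |e x - e' (z + x)| := by
    intro x
    have h1 : e x - ((P : ℝ) ^ 2)⁻¹ * ∑ z ∈ bx P, e' (z + x) =
        ((P : ℝ) ^ 2)⁻¹ * ∑ z ∈ bx P, (e x - e' (z + x)) := by
      rw [Finset.sum_sub_distrib, Finset.sum_const, nsmul_eq_mul, hcP2, mul_sub,
        inv_mul_cancel_left₀ (by positivity)]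
    rw [h1, abs_mul, abs_of_nonneg (by positivity)]
    exact mul_le_mul_of_nonneg_left (Finset.abs_sum_le_sum_abs _ _) (by positivity)
  have hS1 : ((N : ℝ) ^ 2)⁻¹ * ∑ x ∈ bx N, |e x - ((P : ℝ) ^ 2)⁻¹ * ∑ z ∈ bx P, e' (z + x)| ≤
      2 * C' * (N : ℝ) ^ (-(1 / 4) : ℝ) := by
    calc ((N : ℝ) ^ 2)⁻¹ * ∑ x ∈ bx N, |e x - ((P : ℝ) ^ 2)⁻¹ * ∑ z ∈ bx P, e' (z + x)|
        ≤ ((N : ℝ) ^ 2)⁻¹ * ∑ x ∈ bx N, (((P : ℝ) ^ 2)⁻¹ * ∑ z ∈ bx P, |e x - e' (z + x)|) :=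
          mul_le_mul_of_nonneg_left (Finset.sum_le_sum fun x _ => hA x) (by positivity)
      _ = ((P : ℝ) ^ 2)⁻¹ * ∑ z ∈ bx P, (((N : ℝ) ^ 2)⁻¹ * ∑ x ∈ bx N, |e x - e' (z + x)|) := by
          simp only [Finset.mul_sum]
          rw [Finset.sum_comm]
          refine Finset.sum_congr rfl fun z _ => Finset.sum_congr rfl fun x _ => ?_
          ring
      _ ≤ ((P : ℝ) ^ 2)⁻¹ * ∑ _z ∈ bx P, (2 * C' * (N : ℝ) ^ (-(1 / 4) : ℝ)) :=
          mul_le_mul_of_nonneg_left (Finset.sum_le_sum hcmp) (by positivity)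
      _ = 2 * C' * (N : ℝ) ^ (-(1 / 4) : ℝ) := by
          rw [Finset.sum_const, nsmul_eq_mul, hcP2, inv_mul_cancel_left₀ (by positivity)]
  have hS2 : ∀ x ∈ bx N, |((P : ℝ) ^ 2)⁻¹ * (∑ z ∈ bx P, e' (z + x)) -
      ((P : ℝ) ^ 2)⁻¹ * ∑ z ∈ bx P, e' z| ≤ 4 * C / (N : ℝ) := by
    intro x hx
    rw [← mul_sub, abs_mul, abs_of_nonneg (by positivity)]
    refine (mul_le_mul_of_nonneg_left (xh_shift hx hNP he'b) (by positivity)).trans
      (le_of_eq ?_)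
    rw [hPN]
    field_simp
  have hS3 : |((P : ℝ) ^ 2)⁻¹ * (∑ z ∈ bx P, e' z) - uh W g (fun _ => 1) P| ≤
      C' * (P : ℝ) ^ (-(1 / 4) : ℝ) := by
    have h1 := hU P (hNa.trans hNP) (fun _ => 1) (fun _ => by simp) (bl (4 * P))
      (fun _ => 0) 0 hcP hb0 (by
        intro z hz
        rw [mem_bl]
        rw [sub_zero] at hz
        push_cast
        exact hz)
    have h3 : ∀ x, (∫ h, g (rs W (0 + x) (gl (bl (4 * P)) (fun _ => 0) h))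
        ∂(Mu (bl (4 * P)) (fun _ => 0))) = e' x := fun x => by rw [he', zero_add]
    simp only [h3, one_mul] at h1
    exact h1
  have hcN2 : (((bx N).card : ℕ) : ℝ) = (N : ℝ) ^ 2 := by
    rw [bx_card]
    push_cast
    ring
  calc ((N : ℝ) ^ 2)⁻¹ * ∑ x ∈ bx N, |e x - m|
      ≤ ((N : ℝ) ^ 2)⁻¹ * ∑ x ∈ bx N,
          (|e x - ((P : ℝ) ^ 2)⁻¹ * ∑ z ∈ bx P, e' (z + x)| +
            (4 * C / (N : ℝ) + C' * (P : ℝ) ^ (-(1 / 4) : ℝ) +
              |uh W g (fun _ => 1) P - m|)) := by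
        refine mul_le_mul_of_nonneg_left (Finset.sum_le_sum fun x hx => ?_) (by positivity)
        have h1 := hS2 x hx
        have h2 := hS3
        have h3 : e x - m = (e x - ((P : ℝ) ^ 2)⁻¹ * ∑ z ∈ bx P, e' (z + x)) +
            (((P : ℝ) ^ 2)⁻¹ * (∑ z ∈ bx P, e' (z + x)) - ((P : ℝ) ^ 2)⁻¹ * ∑ z ∈ bx P, e' z) +
            (((P : ℝ) ^ 2)⁻¹ * (∑ z ∈ bx P, e' z) - uh W g (fun _ => 1) P) +
            (uh W g (fun _ => 1) P - m) := by ring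
        rw [h3]
        refine (abs_add_le _ _).trans ?_
        have h4 := abs_add_le ((e x - ((P : ℝ) ^ 2)⁻¹ * ∑ z ∈ bx P, e' (z + x)) +
            (((P : ℝ) ^ 2)⁻¹ * (∑ z ∈ bx P, e' (z + x)) - ((P : ℝ) ^ 2)⁻¹ * ∑ z ∈ bx P, e' z))
            (((P : ℝ) ^ 2)⁻¹ * (∑ z ∈ bx P, e' z) - uh W g (fun _ => 1) P)
        have h5 := abs_add_le (e x - ((P : ℝ) ^ 2)⁻¹ * ∑ z ∈ bx P, e' (z + x))
            (((P : ℝ) ^ 2)⁻¹ * (∑ z ∈ bx P, e' (z + x)) - ((P : ℝ) ^ 2)⁻¹ * ∑ z ∈ bx P, e' z)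
        linarith
    _ = ((N : ℝ) ^ 2)⁻¹ * (∑ x ∈ bx N, |e x - ((P : ℝ) ^ 2)⁻¹ * ∑ z ∈ bx P, e' (z + x)|) +
          (4 * C / (N : ℝ) + C' * (P : ℝ) ^ (-(1 / 4) : ℝ) + |uh W g (fun _ => 1) P - m|) := by
        rw [Finset.sum_add_distrib, Finset.sum_const, nsmul_eq_mul, hcN2, mul_add,
          inv_mul_cancel_left₀ (by positivity)]
    _ ≤ _ := by linarith

/- END xh -/

/- MODULE xg
(L1).  `loc_approx` with small `δ` (the sites `y + x + w` are in `D` for large `N`) and `uni_smooth`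
give: for every `δ` there is `m_δ` with `N^(-2) ∑ |.. - m_δ| ≤ 2 δ` for large `N`; the `m_δ` are a Cauchy
family (compare at `D = bl (4 N)`, `b = 0`, `y = 0`), `m` = the limit. -/

theorem local_limit {W : Finset (ℤ × ℤ)} {g : (W → ℝ) → ℝ} (hm : Measurable g) {B : ℝ}
    (hB : ∀ k, |g k| ≤ B) (hs : Shf W g) :
    ∃ m : ℝ, ∀ ε : ℝ, 0 < ε → ∃ N₀ : ℕ, ∀ N : ℕ, N₀ ≤ N → ∀ (D : Finset (ℤ × ℤ))
      (b : ℤ × ℤ → ℝ) (y : ℤ × ℤ), (D.card : ℝ) ≤ (N : ℝ) ^ 20 → (∀ z, |b z| ≤ 1 / 2) →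
      (∀ z, dn (z - y) ≤ 4 * N → z ∈ D) →
      ((N : ℝ) ^ 2)⁻¹ * ∑ x ∈ bx N, |(∫ h, g (rs W (y + x) (gl D b h)) ∂(Mu D b)) - m| ≤ ε := by
  obtain ⟨rW, hrW⟩ := xc_W W
  have hδ : ∀ δ : ℝ, 0 < δ → ∃ (m' : ℝ) (N₀ : ℕ), ∀ N : ℕ, N₀ ≤ N → ∀ (D : Finset (ℤ × ℤ))
      (b : ℤ × ℤ → ℝ) (y : ℤ × ℤ), (D.card : ℝ) ≤ (N : ℝ) ^ 20 → (∀ z, |b z| ≤ 1 / 2) →
      (∀ z, dn (z - y) ≤ 4 * N → z ∈ D) →
      ((N : ℝ) ^ 2)⁻¹ * ∑ x ∈ bx N, |(∫ h, g (rs W (y + x) (gl D b h)) ∂(Mu D b)) - m'| ≤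
        2 * δ := by
    intro δ hδ
    obtain ⟨g', C, hg', happ⟩ := loc_approx hm hB hs hδ
    obtain ⟨m', hm'⟩ := uni_smooth hg'
    obtain ⟨N₁, hN₁⟩ := hm' δ hδ
    refine ⟨m', max N₁ (max rW 1), fun N hN D b y hD hb hy => ?_⟩
    have hNr : rW ≤ N := ((le_max_left _ _).trans (le_max_right _ _)).trans hN
    have hN1 : 1 ≤ N := ((le_max_right _ _).trans (le_max_right _ _)).trans hN
    have hN0R : (0 : ℝ) < (N : ℝ) := by exact_mod_cast hN1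
    have h1 := hN₁ N ((le_max_left _ _).trans hN) D b y hD hb hy
    have h3 : ∀ x ∈ bx N, |(∫ h, g (rs W (y + x) (gl D b h)) ∂(Mu D b)) -
        ∫ h, g' (rs W (y + x) (gl D b h)) ∂(Mu D b)| ≤ δ := by
      intro x hx
      have hW : ∀ w ∈ W, y + x + w ∈ D := by
        intro w hw
        apply hy
        have h4 := bx_dn hx
        have h5 := hrW w hw
        have h6 := dn_add_le x w
        have e : y + x + w - y = x + w := by abel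
        rw [e]
        omega
      rw [← integral_sub (xc_mean hb hm hB (y + x)) (xc_mean hb (xc_gm hg') hg'.bdd (y + x))]
      exact (abs_integral_le_integral_abs).trans (happ D b hb (y + x) hW)
    have h4 : ∑ x ∈ bx N, |(∫ h, g (rs W (y + x) (gl D b h)) ∂(Mu D b)) - m'| ≤
        ∑ x ∈ bx N, (δ + |(∫ h, g' (rs W (y + x) (gl D b h)) ∂(Mu D b)) - m'|) := by
      refine Finset.sum_le_sum fun x hx => ?_
      have h5 := abs_sub_le (∫ h, g (rs W (y + x) (gl D b h)) ∂(Mu D b))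
        (∫ h, g' (rs W (y + x) (gl D b h)) ∂(Mu D b)) m'
      have h6 := h3 x hx
      linarith
    refine (mul_le_mul_of_nonneg_left h4 (by positivity)).trans ?_
    rw [Finset.sum_add_distrib, mul_add, Finset.sum_const, bx_card, nsmul_eq_mul]
    push_cast
    rw [← mul_assoc, inv_mul_cancel₀ (by positivity), one_mul]
    linarith
  choose! mδ Nδ hmN using hδ
  have hcmp : ∀ δ δ' : ℝ, 0 < δ → 0 < δ' → |mδ δ - mδ δ'| ≤ 2 * δ + 2 * δ' := by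
    intro δ δ' h h'
    set N : ℕ := max (max (Nδ δ) (Nδ δ')) 2 with hN
    have hN2 : 2 ≤ N := le_max_right _ _
    have hN0R : (0 : ℝ) < (N : ℝ) := by
      have : 0 < N := by omega
      exact_mod_cast this
    have hcard : ((bl (4 * N)).card : ℝ) ≤ (N : ℝ) ^ 20 := by
      refine (xe_card (by omega)).trans ?_
      have h1 : (2 : ℝ) ≤ (N : ℝ) := by exact_mod_cast hN2
      have h2 : (81 : ℝ) ≤ (N : ℝ) ^ 18 := by
        calc (81 : ℝ) ≤ 2 ^ 18 := by norm_num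
          _ ≤ (N : ℝ) ^ 18 := by gcongr
      calc 81 * (N : ℝ) ^ 2 ≤ (N : ℝ) ^ 18 * (N : ℝ) ^ 2 := by gcongr
        _ = (N : ℝ) ^ 20 := by ring
    have hb0 : ∀ z : ℤ × ℤ, |(fun _ : ℤ × ℤ => (0 : ℝ)) z| ≤ 1 / 2 := fun z => by simp
    have hy0 : ∀ z : ℤ × ℤ, dn (z - 0) ≤ 4 * N → z ∈ bl (4 * N) := by
      intro z hz
      rw [mem_bl]
      rw [sub_zero] at hz
      push_cast
      exact hz
    have a1 := hmN δ h N ((le_max_left _ _).trans (le_max_left _ _)) _ _ 0 hcard hb0 hy0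
    have a2 := hmN δ' h' N ((le_max_right _ _).trans (le_max_left _ _)) _ _ 0 hcard hb0 hy0
    set e : ℤ × ℤ → ℝ := fun x => ∫ h, g (rs W (0 + x) (gl (bl (4 * N)) (fun _ => 0) h))
      ∂(Mu (bl (4 * N)) (fun _ => 0)) with he
    have a3 : ((N : ℝ) ^ 2)⁻¹ * ∑ x ∈ bx N, |mδ δ - mδ δ'| ≤
        ((N : ℝ) ^ 2)⁻¹ * ∑ x ∈ bx N, (|e x - mδ δ| + |e x - mδ δ'|) := by
      refine mul_le_mul_of_nonneg_left (Finset.sum_le_sum fun x _ => ?_) (by positivity)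
      have h5 := abs_sub_le (mδ δ) (e x) (mδ δ')
      rw [abs_sub_comm (mδ δ) (e x)] at h5
      exact h5
    rw [Finset.sum_add_distrib, mul_add, Finset.sum_const, bx_card, nsmul_eq_mul] at a3
    push_cast at a3
    rw [← mul_assoc, inv_mul_cancel₀ (by positivity), one_mul] at a3
    have a1' : ((N : ℝ) ^ 2)⁻¹ * ∑ x ∈ bx N, |e x - mδ δ| ≤ 2 * δ := a1
    have a2' : ((N : ℝ) ^ 2)⁻¹ * ∑ x ∈ bx N, |e x - mδ δ'| ≤ 2 * δ' := a2
    linarith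
  set v : ℕ → ℝ := fun n => mδ (1 / ((n : ℝ) + 1)) with hv
  have hpos : ∀ n : ℕ, (0 : ℝ) < 1 / ((n : ℝ) + 1) := fun n => by positivity
  have hlim0 : Tendsto (fun n : ℕ => 1 / ((n : ℝ) + 1)) atTop (𝓝 0) :=
    tendsto_one_div_add_atTop_nhds_zero_nat
  have hcau : CauchySeq v := by
    rw [Metric.cauchySeq_iff']
    intro ε hε
    obtain ⟨n₀, hn₀⟩ := Filter.eventually_atTop.1
      (hlim0.eventually (gt_mem_nhds (show (0 : ℝ) < ε / 8 by positivity)))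
    refine ⟨n₀, fun n hn => ?_⟩
    rw [Real.dist_eq]
    have h1 := hcmp _ _ (hpos n) (hpos n₀)
    have h2 := hn₀ n hn
    have h3 := hn₀ n₀ le_rfl
    have h1' : |v n - v n₀| ≤ 2 * (1 / ((n : ℝ) + 1)) + 2 * (1 / ((n₀ : ℝ) + 1)) := h1
    linarith
  obtain ⟨m, hm2⟩ := cauchySeq_tendsto_of_complete hcau
  refine ⟨m, fun ε hε => ?_⟩
  have hε4 : 0 < ε / 4 := by positivity
  have hmm : |mδ (ε / 4) - m| ≤ 2 * (ε / 4) := by
    have h1 : Tendsto (fun n => |mδ (ε / 4) - v n|) atTop (𝓝 |mδ (ε / 4) - m|) :=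
      (tendsto_const_nhds.sub hm2).abs
    have h2 : Tendsto (fun n : ℕ => 2 * (ε / 4) + 2 * (1 / ((n : ℝ) + 1))) atTop
        (𝓝 (2 * (ε / 4) + 2 * 0)) := tendsto_const_nhds.add (hlim0.const_mul 2)
    rw [mul_zero, add_zero] at h2
    exact le_of_tendsto_of_tendsto' h1 h2 fun n => hcmp _ _ hε4 (hpos n)
  refine ⟨max (Nδ (ε / 4)) 1, fun N hN D b y hD hb hy => ?_⟩
  have hN1 : 1 ≤ N := (le_max_right _ _).trans hN
  have hN0R : (0 : ℝ) < (N : ℝ) := by exact_mod_cast hN1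
  have h1 := hmN (ε / 4) hε4 N ((le_max_left _ _).trans hN) D b y hD hb hy
  have h2 : ((N : ℝ) ^ 2)⁻¹ * ∑ x ∈ bx N, |(∫ h, g (rs W (y + x) (gl D b h)) ∂(Mu D b)) - m| ≤
      ((N : ℝ) ^ 2)⁻¹ * ∑ x ∈ bx N, (|(∫ h, g (rs W (y + x) (gl D b h)) ∂(Mu D b)) -
        mδ (ε / 4)| + |mδ (ε / 4) - m|) := by
    refine mul_le_mul_of_nonneg_left (Finset.sum_le_sum fun x _ => ?_) (by positivity)
    exact abs_sub_le _ _ _
  refine h2.trans ?_
  rw [Finset.sum_add_distrib, mul_add, Finset.sum_const, bx_card, nsmul_eq_mul]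
  push_cast
  rw [← mul_assoc, inv_mul_cancel₀ (by positivity), one_mul]
  linarith

/- END xg -/

end Pool.Agent.Hgf
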