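import Pool.Agent.Hmk.Var

import Pool.Agent.Hgf.Nl

/-!
# Hgf (MP_161523_pr, Q2): the soft model with an additional convex weight, near-optimal fields on `K`

`V = Vs D b s + W` with an admissible weight `W`.  Result: `soft_field`, smooth fields `w` on
`D → ℝ` which are almost optimal for `Var_{K, e^{-W}} F = sup (2 E <grad F, w> - E |Dw|^2)`, with
uniform bounds for `s → ∞` on the energy, on the penalty `∫ U'' (w_x - w_y)^2` and on `∫ w^2`.
-/

set_option autoImplicit false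

open MeasureTheory Set Filter

open scoped ENNReal SchwartzMap ContDiff Topology

noncomputable section

namespace Pool.Agent.Hgf

open Pool.Agent.Hmk

/-- admissible weights `e^{-W}` -/
structure Wok {D : Finset (ℤ × ℤ)} (W : (D → ℝ) → ℝ) : Prop where
  temp : W.HasTemperateGrowth
  nonneg : ∀ h, 0 ≤ W h
  grad : ∃ C : ℝ, ∀ x h, |pd x W h| ≤ C
  hess : ∃ C : ℝ, ∀ x y h, |pd y (pd x W) h| ≤ C
  conv : ∀ h k : D → ℝ, 0 ≤ ∑ x, ∑ y, pd y (pd x W) h * k x * k y
  rad : ∀ h : D → ℝ, 0 ≤ ∑ x, h x * pd x W h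

/-- the soft potential with weight -/
def Vw (D : Finset (ℤ × ℤ)) (b : ℤ × ℤ → ℝ) (W : (D → ℝ) → ℝ) (s : ℝ) (h : D → ℝ) : ℝ :=
  Vs D b s h + W h

/-- integral over `K` with the weight `e^{-W}` -/
def EK (D : Finset (ℤ × ℤ)) (b : ℤ × ℤ → ℝ) (W : (D → ℝ) → ℝ) (g : (D → ℝ) → ℝ) : ℝ :=
  ∫ h in K D b, g h * Real.exp (- W h)

/-- the mean over `K` -/
def mK (D : Finset (ℤ × ℤ)) (b : ℤ × ℤ → ℝ) (W F : (D → ℝ) → ℝ) : ℝ :=
  EK D b W F / EK D b W (fun _ => 1)

/-- the unnormalised variance over `K` -/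
def VK (D : Finset (ℤ × ℤ)) (b : ℤ × ℤ → ℝ) (W F : (D → ℝ) → ℝ) : ℝ :=
  EK D b W (fun h => (F h - mK D b W F) ^ 2)

/- MODULE wa
Sums of `Vs_temp`, `Vs_low`, `Vs_rad`, `Vs_rad_off` (Us.lean) and `Wok`; `pd x` of a sum of
differentiable functions is the sum. -/

private theorem wa_eq (D : Finset (ℤ × ℤ)) (b : ℤ × ℤ → ℝ) (W : (D → ℝ) → ℝ) (s : ℝ) :
    Vw D b W s = fun h => Vs D b s h + W h := rfl

private theorem wa_add {ι : Type*} [Fintype ι] [DecidableEq ι] {f g : (ι → ℝ) → ℝ}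
    (hf : f.HasTemperateGrowth) (hg : g.HasTemperateGrowth) (x : ι) (h : ι → ℝ) :
    pd x (fun k => f k + g k) h = pd x f h + pd x g h := by
  unfold pd
  rw [fderiv_fun_add (hf.1.differentiable (by simp) h) (hg.1.differentiable (by simp) h)]
  rfl

theorem Vw_temp {D : Finset (ℤ × ℤ)} (b : ℤ × ℤ → ℝ) {W : (D → ℝ) → ℝ} (hW : Wok W) {s : ℝ}
    (hs : 1 ≤ s) : (Vw D b W s).HasTemperateGrowth := by
  rw [wa_eq]
  exact (Vs_temp D b hs).fun_add hW.temp

theorem Vw_pd {D : Finset (ℤ × ℤ)} (b : ℤ × ℤ → ℝ) {W : (D → ℝ) → ℝ} (hW : Wok W) {s : ℝ}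
    (hs : 1 ≤ s) (x : D) (h : D → ℝ) :
    pd x (Vw D b W s) h = pd x (Vs D b s) h + pd x W h := by
  rw [wa_eq]
  exact wa_add (Vs_temp D b hs) hW.temp x h

theorem Vw_low {D : Finset (ℤ × ℤ)} {b : ℤ × ℤ → ℝ} (hb : ∀ z, |b z| ≤ 1 / 2)
    {W : (D → ℝ) → ℝ} (hW : Wok W) {s : ℝ} (hs : 1 ≤ s) (h : D → ℝ) :
    1 * ‖h‖ - (1 / 2 + 6 * (D.card : ℝ)) ≤ Vw D b W s h := by
  have h1 := Vs_low (D := D) hb hs h
  have h2 := hW.nonneg h
  unfold Vw
  linarith

private theorem wa_sum {D : Finset (ℤ × ℤ)} (b : ℤ × ℤ → ℝ) {W : (D → ℝ) → ℝ} (hW : Wok W)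
    {s : ℝ} (hs : 1 ≤ s) (h : D → ℝ) :
    ∑ x, h x * pd x (Vw D b W s) h = ∑ x, h x * pd x (Vs D b s) h + ∑ x, h x * pd x W h := by
  rw [← Finset.sum_add_distrib]
  refine Finset.sum_congr rfl fun x _ => ?_
  rw [Vw_pd b hW hs x h]
  ring

theorem Vw_rad {D : Finset (ℤ × ℤ)} {b : ℤ × ℤ → ℝ} (hb : ∀ z, |b z| ≤ 1 / 2)
    {W : (D → ℝ) → ℝ} (hW : Wok W) {s : ℝ} (hs : 1 ≤ s) (h : D → ℝ) :
    0 ≤ ∑ x, h x * pd x (Vw D b W s) h + 12 * (D.card : ℝ) / s ^ 3 := by
  have h1 := Vs_rad hb hs h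
  have h2 := hW.rad h
  rw [wa_sum b hW hs h]
  linarith

theorem Vw_rad_off {D : Finset (ℤ × ℤ)} {b : ℤ × ℤ → ℝ} (hb : ∀ z, |b z| ≤ 1 / 2)
    {W : (D → ℝ) → ℝ} (hW : Wok W) {s : ℝ} (hs : 1 ≤ s) {h : D → ℝ} (hh : h ∉ K D b) :
    s / 5 ≤ ∑ x, h x * pd x (Vw D b W s) h + 12 * (D.card : ℝ) / s ^ 3 := by
  have h1 := Vs_rad_off hb hs hh
  have h2 := hW.rad h
  rw [wa_sum b hW hs h]
  linarith

/- END wa -/

/- MODULE wb
`Wf V = ∑ ((pd x V)^2 / 4 - pd x (pd x V) / 2)`: first and second derivatives of `Vs` are bounded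
(see the proof of `Vs_Wf` in Us.lean) and those of `W` are bounded. -/

private theorem wb_pd2 {D : Finset (ℤ × ℤ)} (b : ℤ × ℤ → ℝ) {W : (D → ℝ) → ℝ} (hW : Wok W)
    {s : ℝ} (hs : 1 ≤ s) (x y : D) (h : D → ℝ) :
    pd y (pd x (Vw D b W s)) h = pd y (pd x (Vs D b s)) h + pd y (pd x W) h := by
  have h1 : pd x (Vw D b W s) = fun k => pd x (Vs D b s) k + pd x W k :=
    funext fun k => Vw_pd b hW hs x k
  rw [h1]
  exact wa_add (pd_temp (Vs_temp D b hs) x) (pd_temp hW.temp x) y h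

private theorem wb_pd1 (D : Finset (ℤ × ℤ)) (b : ℤ × ℤ → ℝ) {s : ℝ} (hs : 1 ≤ s) (x : D)
    (h : D → ℝ) : |pd x (Vs D b s) h| ≤ ∑ _z ∈ D, ∑ _i : Fin 6, s := by
  have h0 : pd x (Vs D b s) h =
      ∑ z ∈ D, ∑ i, Us1 s (gl D b h z - gl D b h (z + st i)) *
        (g0 D (Pi.single x 1) z - g0 D (Pi.single x 1) (z + st i)) :=
    Vs_fderiv D b hs h (Pi.single x 1)
  have h1 : ∀ y, 0 ≤ g0 D (Pi.single x 1) y ∧ g0 D (Pi.single x 1) y ≤ 1 := by
    intro y
    unfold g0 gl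
    split_ifs with hy
    · rw [Pi.single_apply]
      split_ifs <;> norm_num
    · norm_num
  rw [h0]
  refine (Finset.abs_sum_le_sum_abs _ _).trans (Finset.sum_le_sum fun z _ => ?_)
  refine (Finset.abs_sum_le_sum_abs _ _).trans (Finset.sum_le_sum fun i _ => ?_)
  rw [abs_mul]
  have h2 := h1 z
  have h3 := h1 (z + st i)
  have h4 : |g0 D (Pi.single x 1) z - g0 D (Pi.single x 1) (z + st i)| ≤ 1 := by
    rw [abs_le]
    constructor <;> linarith [h2.1, h2.2, h3.1, h3.2]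
  calc |Us1 s (gl D b h z - gl D b h (z + st i))| *
        |g0 D (Pi.single x 1) z - g0 D (Pi.single x 1) (z + st i)| ≤ s * 1 :=
        mul_le_mul (Us1_abs hs _) h4 (abs_nonneg _) (by linarith)
    _ = s := mul_one s

theorem Vw_Wf {D : Finset (ℤ × ℤ)} (b : ℤ × ℤ → ℝ) {W : (D → ℝ) → ℝ} (hW : Wok W) {s : ℝ}
    (hs : 1 ≤ s) : ∃ C : ℝ, ∀ h, |Wf (Vw D b W s) h| ≤ C := by
  obtain ⟨C₀, hC₀⟩ := Vs_Wf D b hs
  obtain ⟨C₁, hC₁⟩ := hW.grad
  obtain ⟨C₂, hC₂⟩ := hW.hess
  set A : ℝ := ∑ _z ∈ D, ∑ _i : Fin 6, s with hA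
  refine ⟨C₀ + ∑ _x : D, ((2 * (A * C₁) + C₁ ^ 2) / 4 + C₂ / 2), fun h => ?_⟩
  have h1 : Wf (Vw D b W s) h = Wf (Vs D b s) h +
      ∑ x, ((2 * (pd x (Vs D b s) h * pd x W h) + (pd x W h) ^ 2) / 4 - pd x (pd x W) h / 2) := by
    unfold Wf
    rw [← Finset.sum_add_distrib]
    refine Finset.sum_congr rfl fun x _ => ?_
    rw [Vw_pd b hW hs x h, wb_pd2 b hW hs x x h]
    ring
  rw [h1]
  refine (abs_add_le _ _).trans (add_le_add (hC₀ h) ?_)
  refine (Finset.abs_sum_le_sum_abs _ _).trans (Finset.sum_le_sum fun x _ => ?_)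
  have h2 := wb_pd1 D b hs x h
  have h3 := hC₁ x h
  have h4 := hC₂ x x h
  have h5 : |pd x (Vs D b s) h * pd x W h| ≤ A * C₁ := by
    rw [abs_mul]
    exact mul_le_mul h2 h3 (abs_nonneg _) ((abs_nonneg _).trans h2)
  have h6 : (pd x W h) ^ 2 ≤ C₁ ^ 2 := by
    rw [← sq_abs]
    exact pow_le_pow_left₀ (abs_nonneg _) h3 2
  have h7 : 0 ≤ (pd x W h) ^ 2 := sq_nonneg _
  have h8 := abs_le.1 h5
  have h9 := abs_le.1 h4
  rw [abs_le]
  constructor <;> linarith [h8.1, h8.2, h9.1, h9.2]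

/- END wb -/

/- MODULE wc
`Vs_hess` and linearity of the second derivative. -/

theorem Vw_hess {D : Finset (ℤ × ℤ)} (b : ℤ × ℤ → ℝ) {W : (D → ℝ) → ℝ} (hW : Wok W) {s : ℝ}
    (hs : 1 ≤ s) (h w : D → ℝ) :
    ∑ x, ∑ y, pd y (pd x (Vw D b W s)) h * w x * w y =
      (∑ x ∈ D, ∑ i, Us2 s (gl D b h x - gl D b h (x + st i)) *
        (g0 D w x - g0 D w (x + st i)) ^ 2) + ∑ x, ∑ y, pd y (pd x W) h * w x * w y := by
  rw [← Vs_hess D b hs h w, ← Finset.sum_add_distrib]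
  refine Finset.sum_congr rfl fun x _ => ?_
  rw [← Finset.sum_add_distrib]
  refine Finset.sum_congr rfl fun y _ => ?_
  have h1 : pd x (Vw D b W s) = fun k => pd x (Vs D b s) k + pd x W k :=
    funext fun k => Vw_pd b hW hs x k
  rw [h1, wa_add (pd_temp (Vs_temp D b hs) x) (pd_temp hW.temp x) y h]
  ring

/- END wc -/

/- MODULE wd
Copy of `ext_Vs` (Ext.lean, module xe) with `Vw_low`, `Vw_rad`, `Vw_rad_off`; `M` does not depend on
`W` because `W ≥ 0`. -/

private theorem wd_int (D : Finset (ℤ × ℤ)) (B : ℝ) :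
    Integrable (fun h : D → ℝ => (∑ x, (h x) ^ 2) * Real.exp (- (1 * ‖h‖ - B))) := by
  have h0 : Integrable (fun h : D → ℝ => ‖h‖ ^ 2 * Real.exp (- 1 * (1 * ‖h‖ - B))) :=
    exp_int (V := fun h : D → ℝ => 1 * ‖h‖ - B) (a := 1) (A := B)
      ((continuous_const.mul continuous_norm).sub continuous_const) one_pos
      (fun h => le_rfl) 2 one_pos
  have h1 := h0.const_mul (Fintype.card D : ℝ)
  refine h1.mono' ?_ (ae_of_all _ (fun h => ?_))
  · refine Continuous.aestronglyMeasurable ?_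
    refine Continuous.mul ?_ (Real.continuous_exp.comp
      ((continuous_const.mul continuous_norm).sub continuous_const).neg)
    exact continuous_finsetSum _ (fun x _ => (continuous_apply x).pow 2)
  · have h2 : ∑ x, (h x) ^ 2 ≤ (Fintype.card D : ℝ) * ‖h‖ ^ 2 := by
      calc ∑ x, (h x) ^ 2 ≤ ∑ _x : D, ‖h‖ ^ 2 := by
            refine Finset.sum_le_sum (fun x _ => ?_)
            have := norm_le_pi_norm h x
            rw [Real.norm_eq_abs] at this
            rw [← sq_abs]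
            gcongr
        _ = (Fintype.card D : ℝ) * ‖h‖ ^ 2 := by simp
    have h3 : 0 ≤ ∑ x, (h x) ^ 2 := Finset.sum_nonneg (fun x _ => sq_nonneg _)
    rw [Real.norm_eq_abs, abs_of_nonneg (by positivity)]
    have h4 : (-1 : ℝ) * (1 * ‖h‖ - B) = - (1 * ‖h‖ - B) := by ring
    rw [h4]
    have := Real.exp_pos (- (1 * ‖h‖ - B))
    nlinarith

theorem ext_Vw {D : Finset (ℤ × ℤ)} {b : ℤ × ℤ → ℝ} (hb : ∀ z, |b z| ≤ 1 / 2) :
    ∃ c s₀ : ℝ, 0 ≤ c ∧ 1 ≤ s₀ ∧ ∀ W : (D → ℝ) → ℝ, Wok W → ∀ s, s₀ ≤ s →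
      ∀ ζ : 𝓢(D → ℝ, ℝ),
      ∫ h in (K D b)ᶜ, |ζ h| * Real.exp (- Vw D b W s h / 2) ≤
        c / s * ((∫ h in K D b, |ζ h| * Real.exp (- Vw D b W s h / 2)) +
          Real.sqrt (∑ x, ∫ h, (av (Vw D b W s) x ζ h) ^ 2)) := by
  set B : ℝ := 1 / 2 + 6 * (D.card : ℝ) with hB
  set m2 : ℝ := ∫ h : D → ℝ, (∑ x, (h x) ^ 2) * Real.exp (- (1 * ‖h‖ - B)) with hm2
  have hm20 : 0 ≤ m2 := integral_nonneg (fun h =>
    mul_nonneg (Finset.sum_nonneg (fun x _ => sq_nonneg _)) (Real.exp_pos _).le)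
  set M := Real.sqrt m2 with hM
  have hM0 : 0 ≤ M := Real.sqrt_nonneg _
  have hM2 : M ^ 2 = m2 := Real.sq_sqrt hm20
  have hD0 : (0 : ℝ) ≤ (D.card : ℝ) := Nat.cast_nonneg _
  refine ⟨130 * (D.card : ℝ) + 10 * M, max 1 (130 * (D.card : ℝ)), by positivity,
    le_max_left _ _, ?_⟩
  intro W hW s hs ζ
  have hs1 : 1 ≤ s := (le_max_left _ _).trans hs
  have hs2 : 130 * (D.card : ℝ) ≤ s := (le_max_right _ _).trans hs
  have hs0 : 0 < s := by linarith
  have hs3 : 1 ≤ s ^ 3 := one_le_pow₀ hs1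
  have hβ0 : 0 ≤ 12 * (D.card : ℝ) / s ^ 3 := by positivity
  have hβ1 : 12 * (D.card : ℝ) / s ^ 3 ≤ 12 * (D.card : ℝ) := by
    rw [div_le_iff₀ (by positivity)]
    nlinarith
  have hcard : (Fintype.card D : ℝ) = (D.card : ℝ) := by
    rw [Fintype.card_coe]
  have hlow : ∀ h, 1 * ‖h‖ - B ≤ Vw D b W s h := Vw_low hb hW hs1
  have hMM : ∫ h, (∑ x, (h x) ^ 2) * Real.exp (- Vw D b W s h) ≤ M ^ 2 := by
    rw [hM2, hm2]
    refine integral_mono_of_nonneg (ae_of_all _ (fun h => ?_)) (wd_int D B)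
      (ae_of_all _ (fun h => ?_))
    · exact mul_nonneg (Finset.sum_nonneg (fun x _ => sq_nonneg _)) (Real.exp_pos _).le
    · refine mul_le_mul_of_nonneg_left ?_ (Finset.sum_nonneg (fun x _ => sq_nonneg _))
      exact Real.exp_le_exp.2 (neg_le_neg (hlow h))
  have key := ext_ineq (V := Vw D b W s) (Vw_temp b hW hs1) one_pos hlow hβ0
    (Vw_rad hb hW hs1) (K_meas D b) (κ := s / 5) (fun h hh => Vw_rad_off hb hW hs1 hh)
    (by rw [hcard]; linarith) hM0 hMM ζ
  rw [hcard] at key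
  have hIK : 0 ≤ ∫ h in K D b, |ζ h| * Real.exp (- Vw D b W s h / 2) :=
    integral_nonneg (fun h => by positivity)
  have hG : 0 ≤ Real.sqrt (∑ x, ∫ h, (av (Vw D b W s) x ζ h) ^ 2) := Real.sqrt_nonneg _
  set IK := ∫ h in K D b, |ζ h| * Real.exp (- Vw D b W s h / 2)
  set IC := ∫ h in (K D b)ᶜ, |ζ h| * Real.exp (- Vw D b W s h / 2)
  set G := Real.sqrt (∑ x, ∫ h, (av (Vw D b W s) x ζ h) ^ 2)
  rw [div_mul_eq_mul_div, le_div_iff₀ hs0]
  have h1 : 2 * ((D.card : ℝ) + 12 * (D.card : ℝ) / s ^ 3) * IK ≤ 26 * (D.card : ℝ) * IK := by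
    refine mul_le_mul_of_nonneg_right ?_ hIK
    linarith
  have h2 : IC * s ≤ 5 * (26 * (D.card : ℝ) * IK + 2 * M * G) := by linarith
  have h3 : 0 ≤ (D.card : ℝ) * G := by positivity
  have h4 : 0 ≤ M * IK := by positivity
  nlinarith

/- END wd -/

/- MODULE we
`L2F V F ≤ ∫ (F - F 0)^2 e^{-V}` (the mean is optimal), `|F h - F 0| ≤ C |D| ‖h‖` (`Fok.lip`),
`V ≥ ‖h‖ - (1/2 + 6 |D|)` (`Vw_low`), `exp_int`. -/

private theorem we_opt {ι : Type*} [Fintype ι] [DecidableEq ι] {V : (ι → ℝ) → ℝ}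
    (hV : Continuous V) {a A : ℝ} (ha : 0 < a) (hlow : ∀ h, a * ‖h‖ - A ≤ V h)
    {F : (ι → ℝ) → ℝ} {C : ℝ} (hF : Fok F C) (m : ℝ) :
    L2F V F ≤ ∫ h, (F h - m) ^ 2 * Real.exp (- V h) := by
  set μ : ℝ := mnF V F with hμ
  obtain ⟨i1, i2⟩ := LfF_int hV ha hlow hF μ
  obtain ⟨i3, i4⟩ := LfF_int hV ha hlow hF m
  have h0 : ∫ h, (F h - μ) * Real.exp (- V h) = 0 := by
    rw [← LfF_zero hV ha hlow hF]
    refine integral_congr_ae (ae_of_all _ fun h => ?_)
    show (F h - μ) * Real.exp (- V h) =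
      Real.exp (- V h / 2) * ((F h - mnF V F) * Real.exp (- V h / 2))
    have e : Real.exp (- V h) = Real.exp (- V h / 2) * Real.exp (- V h / 2) := by
      rw [← Real.exp_add]
      congr 1
      ring
    rw [e]
    ring
  have iE : Integrable (fun h => Real.exp (- V h)) := by
    have := exp_int hV ha hlow 0 (r := 1) one_pos
    simpa using this
  have hL : L2F V F = ∫ h, (F h - μ) ^ 2 * Real.exp (- V h) := rfl
  have h1 : ∫ h, (F h - m) ^ 2 * Real.exp (- V h) =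
      (∫ h, (F h - μ) ^ 2 * Real.exp (- V h)) + (2 * (μ - m) * (∫ h, (F h - μ) * Real.exp (- V h)) +
        (μ - m) ^ 2 * ∫ h, Real.exp (- V h)) := by
    have i5 : Integrable (fun h => 2 * (μ - m) * ((F h - μ) * Real.exp (- V h)) +
        (μ - m) ^ 2 * Real.exp (- V h)) := (i2.const_mul _).add (iE.const_mul _)
    rw [← integral_const_mul, ← integral_const_mul, ← integral_add (i2.const_mul _) (iE.const_mul _),
      ← integral_add i1 i5]
    refine integral_congr_ae (ae_of_all _ fun h => ?_)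
    show (F h - m) ^ 2 * Real.exp (- V h) = (F h - μ) ^ 2 * Real.exp (- V h) +
      (2 * (μ - m) * ((F h - μ) * Real.exp (- V h)) + (μ - m) ^ 2 * Real.exp (- V h))
    ring
  rw [hL, h1, h0]
  have h2 : 0 ≤ ∫ h, Real.exp (- V h) := integral_nonneg fun h => (Real.exp_pos _).le
  have h3 := mul_nonneg (sq_nonneg (μ - m)) h2
  linarith

theorem L2F_bdd {D : Finset (ℤ × ℤ)} {b : ℤ × ℤ → ℝ} (hb : ∀ z, |b z| ≤ 1 / 2) (C : ℝ) :
    ∃ B : ℝ, 0 ≤ B ∧ ∀ W : (D → ℝ) → ℝ, Wok W → ∀ F : (D → ℝ) → ℝ, Fok F C → ∀ s, 1 ≤ s →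
      L2F (Vw D b W s) F ≤ B := by
  set A : ℝ := 1 / 2 + 6 * (D.card : ℝ) with hA
  set N : ℝ := C * (Fintype.card D : ℝ) with hN
  refine ⟨N ^ 2 * ∫ h : D → ℝ, ‖h‖ ^ 2 * Real.exp (- 1 * (1 * ‖h‖ - A)), ?_, ?_⟩
  · refine mul_nonneg (sq_nonneg _) (integral_nonneg fun h => ?_)
    positivity
  intro W hW F hF s hs
  have hV := Vw_temp b hW hs
  have hlow : ∀ h, 1 * ‖h‖ - A ≤ Vw D b W s h := Vw_low hb hW hs
  refine (we_opt hV.1.continuous one_pos hlow hF (F 0)).trans ?_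
  rw [← integral_const_mul]
  have i0 : Integrable (fun h : D → ℝ => ‖h‖ ^ 2 * Real.exp (- 1 * (1 * ‖h‖ - A))) :=
    exp_int (V := fun h : D → ℝ => 1 * ‖h‖ - A) (a := 1) (A := A)
      ((continuous_const.mul continuous_norm).sub continuous_const) one_pos
      (fun h => le_rfl) 2 one_pos
  refine integral_mono (LfF_int hV.1.continuous one_pos hlow hF (F 0)).1 (i0.const_mul _) fun h => ?_
  show (F h - F 0) ^ 2 * Real.exp (- Vw D b W s h) ≤
    N ^ 2 * (‖h‖ ^ 2 * Real.exp (- 1 * (1 * ‖h‖ - A)))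
  have h1 := hF.lip h 0
  rw [sub_zero] at h1
  have h2 : (F h - F 0) ^ 2 ≤ (N * ‖h‖) ^ 2 := by
    rw [← sq_abs (F h - F 0)]
    exact pow_le_pow_left₀ (abs_nonneg _) h1 2
  have h3 : Real.exp (- Vw D b W s h) ≤ Real.exp (- 1 * (1 * ‖h‖ - A)) := by
    refine Real.exp_le_exp.2 ?_
    have := hlow h
    linarith
  calc (F h - F 0) ^ 2 * Real.exp (- Vw D b W s h)
      ≤ (N * ‖h‖) ^ 2 * Real.exp (- 1 * (1 * ‖h‖ - A)) :=
        mul_le_mul h2 h3 (Real.exp_pos _).le (sq_nonneg _)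
    _ = _ := by ring

/- END we -/

/- MODULE wf
`K` is compact, everything is continuous; the mean is optimal; `Vw ≤ 6 |D| / s + W` on `K`
(`Vs_K`). -/

private theorem wf_cpt (D : Finset (ℤ × ℤ)) (b : ℤ × ℤ → ℝ) : IsCompact (K D b) := by
  set B : ℝ := ∑ x ∈ D, ∑ i : Fin 6, |b (x + st i)| with hBdef
  have hB : 0 ≤ B := Finset.sum_nonneg fun x _ => Finset.sum_nonneg fun i _ => abs_nonneg _
  have hc : ∀ z, z ∉ D → (∃ x ∈ D, ∃ i, z = x + st i) → |b z| ≤ B := by
    rintro z - ⟨x, hx, i, rfl⟩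
    calc |b (x + st i)| ≤ ∑ i : Fin 6, |b (x + st i)| :=
          Finset.single_le_sum (f := fun i : Fin 6 => |b (x + st i)|)
            (fun i _ => abs_nonneg _) (Finset.mem_univ i)
      _ ≤ B := Finset.single_le_sum (f := fun x => ∑ i : Fin 6, |b (x + st i)|)
            (fun x _ => Finset.sum_nonneg fun i _ => abs_nonneg _) hx
  have hsub : K D b ⊆ Icc (fun _ => -(B + D.card)) (fun _ => B + D.card) := by
    intro h hh
    have h1 := K_bdd hB hc hh
    exact ⟨fun x => (abs_le.1 (h1 x)).1, fun x => (abs_le.1 (h1 x)).2⟩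
  exact isCompact_Icc.of_isClosed_subset (K_closed D b) hsub

theorem EK_int {D : Finset (ℤ × ℤ)} (b : ℤ × ℤ → ℝ) {W g : (D → ℝ) → ℝ}
    (hW : Continuous W) (hg : Continuous g) :
    IntegrableOn (fun h => g h * Real.exp (- W h)) (K D b) := by
  exact (hg.mul (Real.continuous_exp.comp hW.neg)).continuousOn.integrableOn_compact (wf_cpt D b)

theorem VK_le {D : Finset (ℤ × ℤ)} {b : ℤ × ℤ → ℝ} (hb : ∀ z, |b z| ≤ 1 / 2)
    {W F : (D → ℝ) → ℝ} (hW : Continuous W) (hF : Continuous F) (m : ℝ) :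
    VK D b W F ≤ EK D b W (fun h => (F h - m) ^ 2) := by
  set μ : ℝ := mK D b W F with hμ
  have i0 := EK_int b (g := fun _ => (1 : ℝ)) hW continuous_const
  have iF := EK_int b (g := F) hW hF
  have iμ := EK_int b (g := fun h => F h - μ) hW (hF.sub continuous_const)
  have iμ2 := EK_int b (g := fun h => (F h - μ) ^ 2) hW ((hF.sub continuous_const).pow 2)
  have e0 : 0 ≤ EK D b W (fun _ => 1) := by
    refine integral_nonneg fun h => ?_
    simp only [Pi.zero_apply, one_mul]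
    exact (Real.exp_pos _).le
  have h1 : EK D b W (fun h => F h - μ) = EK D b W F - μ * EK D b W (fun _ => 1) := by
    unfold EK
    rw [← integral_const_mul, ← integral_sub iF (i0.const_mul μ)]
    refine integral_congr_ae (ae_of_all _ fun h => ?_)
    show (F h - μ) * Real.exp (- W h) = F h * Real.exp (- W h) - μ * (1 * Real.exp (- W h))
    ring
  have h2 : EK D b W (fun h => (F h - m) ^ 2) = VK D b W F +
      (2 * (μ - m) * EK D b W (fun h => F h - μ) + (μ - m) ^ 2 * EK D b W (fun _ => 1)) := by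
    show ∫ h in K D b, (F h - m) ^ 2 * Real.exp (- W h) =
      (∫ h in K D b, (F h - μ) ^ 2 * Real.exp (- W h)) +
        (2 * (μ - m) * (∫ h in K D b, (F h - μ) * Real.exp (- W h)) +
          (μ - m) ^ 2 * ∫ h in K D b, 1 * Real.exp (- W h))
    have i5 : IntegrableOn (fun h => 2 * (μ - m) * ((F h - μ) * Real.exp (- W h)) +
        (μ - m) ^ 2 * (1 * Real.exp (- W h))) (K D b) := (iμ.const_mul _).add (i0.const_mul _)
    rw [← integral_const_mul, ← integral_const_mul,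
      ← integral_add (iμ.const_mul _) (i0.const_mul _),
      ← integral_add iμ2 i5]
    refine integral_congr_ae (ae_of_all _ fun h => ?_)
    show (F h - m) ^ 2 * Real.exp (- W h) = (F h - μ) ^ 2 * Real.exp (- W h) +
      (2 * (μ - m) * ((F h - μ) * Real.exp (- W h)) + (μ - m) ^ 2 * (1 * Real.exp (- W h)))
    ring
  have h3 : EK D b W (fun h => F h - μ) * EK D b W (fun _ => 1) = 0 := by
    rcases eq_or_ne (EK D b W (fun _ => 1)) 0 with h4 | h4
    · rw [h4, mul_zero]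
    · rw [h1, hμ]
      unfold mK
      rw [div_mul_cancel₀ _ h4, sub_self, zero_mul]
  have h5 : 0 ≤ 2 * (μ - m) * EK D b W (fun h => F h - μ) +
      (μ - m) ^ 2 * EK D b W (fun _ => 1) := by
    rcases eq_or_lt_of_le e0 with h4 | h4
    · have h6 : EK D b W (fun h => F h - μ) = 0 := by
        have h7 : volume.restrict (K D b) = 0 := by
          by_contra h8
          have h9 : 0 < ∫ h in K D b, 1 * Real.exp (- W h) := by
            rw [integral_pos_iff_support_of_nonneg (fun h => by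
              simp only [Pi.zero_apply, one_mul]; exact (Real.exp_pos _).le) i0]
            have h10 : Function.support (fun h : D → ℝ => 1 * Real.exp (- W h)) = univ := by
              ext h
              simp [Real.exp_ne_zero]
            rw [h10]
            exact pos_iff_ne_zero.2 (fun h11 => h8 (Measure.measure_univ_eq_zero.1 h11))
          exact absurd h4 h9.ne
        unfold EK
        rw [h7, integral_zero_measure]
      rw [h6, ← h4]
      simp
    · have h6 : EK D b W (fun h => F h - μ) = 0 := by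
        rcases mul_eq_zero.1 h3 with h7 | h7
        · exact h7
        · exact absurd h7 h4.ne'
      rw [h6]
      have := mul_nonneg (sq_nonneg (μ - m)) e0
      linarith
  rw [h2]
  linarith

theorem VK_le_L2F {D : Finset (ℤ × ℤ)} {b : ℤ × ℤ → ℝ} (hb : ∀ z, |b z| ≤ 1 / 2)
    {W F : (D → ℝ) → ℝ} (hW : Wok W) {C : ℝ} (hF : Fok F C) {s : ℝ} (hs : 1 ≤ s) :
    Real.exp (- (6 * (D.card : ℝ) / s)) * VK D b W F ≤ L2F (Vw D b W s) F := by
  have hV := Vw_temp b hW hs
  have hlow : ∀ h, 1 * ‖h‖ - (1 / 2 + 6 * (D.card : ℝ)) ≤ Vw D b W s h := Vw_low hb hW hs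
  have hWc : Continuous W := hW.temp.1.continuous
  have hFc : Continuous F := hF.temp.1.continuous
  set μ : ℝ := mnF (Vw D b W s) F with hμ
  have iμ2 := EK_int b (g := fun h => (F h - μ) ^ 2) hWc ((hFc.sub continuous_const).pow 2)
  have iV := (LfF_int hV.1.continuous one_pos hlow hF μ).1
  calc Real.exp (- (6 * (D.card : ℝ) / s)) * VK D b W F
      ≤ Real.exp (- (6 * (D.card : ℝ) / s)) * EK D b W (fun h => (F h - μ) ^ 2) :=
        mul_le_mul_of_nonneg_left (VK_le hb hWc hFc μ) (Real.exp_pos _).le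
    _ = ∫ h in K D b, Real.exp (- (6 * (D.card : ℝ) / s)) * ((F h - μ) ^ 2 * Real.exp (- W h)) := by
        unfold EK
        rw [integral_const_mul]
    _ ≤ ∫ h in K D b, (F h - μ) ^ 2 * Real.exp (- Vw D b W s h) := by
        refine setIntegral_mono_on (iμ2.const_mul _) iV.integrableOn (K_meas D b) fun h hh => ?_
        have h1 := Vs_K hs hh
        have h2 : Real.exp (- (6 * (D.card : ℝ) / s)) * Real.exp (- W h) ≤
            Real.exp (- Vw D b W s h) := by
          rw [← Real.exp_add]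
          refine Real.exp_le_exp.2 ?_
          unfold Vw
          linarith
        calc Real.exp (- (6 * (D.card : ℝ) / s)) * ((F h - μ) ^ 2 * Real.exp (- W h)) =
              (F h - μ) ^ 2 * (Real.exp (- (6 * (D.card : ℝ) / s)) * Real.exp (- W h)) := by ring
          _ ≤ _ := mul_le_mul_of_nonneg_left h2 (sq_nonneg _)
    _ ≤ ∫ h, (F h - μ) ^ 2 * Real.exp (- Vw D b W s h) := by
        refine setIntegral_le_integral iV (ae_of_all _ fun h => ?_)
        show 0 ≤ (F h - μ) ^ 2 * Real.exp (- Vw D b W s h)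
        positivity
    _ = L2F (Vw D b W s) F := rfl

/- END wf -/

/-- the field of the potential `f` -/
def wS (D : Finset (ℤ × ℤ)) (b : ℤ × ℤ → ℝ) (W : (D → ℝ) → ℝ) (s : ℝ) (f : 𝓢(D → ℝ, ℝ)) (x : D)
    (h : D → ℝ) : ℝ := Real.exp (Vw D b W s h / 2) * av (Vw D b W s) x f h

/- MODULE wg
`pd y (wS x) = e^{V/2} av V y (av V x f)` (`pd_exp` of Ext.lean), `V ≤ 6 |D| / s + W` on `K`. -/

private theorem wg_pd {D : Finset (ℤ × ℤ)} (b : ℤ × ℤ → ℝ) {W : (D → ℝ) → ℝ} (hW : Wok W) {s : ℝ}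
    (hs : 1 ≤ s) (f : 𝓢(D → ℝ, ℝ)) (x y : D) (h : D → ℝ) :
    pd y (wS D b W s f x) h =
      Real.exp (Vw D b W s h / 2) * av (Vw D b W s) y (av (Vw D b W s) x f) h :=
  pd_exp (Vw_temp b hW hs) (av (Vw D b W s) x f) y h

private theorem wg_cgr {ι : Type*} [Fintype ι] [DecidableEq ι] {f : (ι → ℝ) → ℝ}
    (hf : ContDiff ℝ ∞ f) : Continuous (gr f) := by
  have hf1 : ContDiff ℝ 1 f := hf.of_le (by exact_mod_cast le_top)
  unfold gr pd
  have h1 : Continuous (fderiv ℝ f) := hf1.continuous_fderiv (by norm_num)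
  exact continuous_finsetSum _ fun x _ => (h1.clm_apply continuous_const).pow 2

private theorem wg_sq {D : Finset (ℤ × ℤ)} {b : ℤ × ℤ → ℝ} {W : (D → ℝ) → ℝ} {s : ℝ}
    (hs : 1 ≤ s) {h : D → ℝ} (hh : h ∈ K D b) :
    Real.exp (Vw D b W s h / 2) ^ 2 * Real.exp (- W h) ≤ Real.exp (6 * (D.card : ℝ) / s) := by
  rw [← Real.exp_nat_mul, ← Real.exp_add]
  refine Real.exp_le_exp.2 ?_
  have h1 := Vs_K hs hh
  unfold Vw
  push_cast
  linarith

private theorem wg_g0 {D : Finset (ℤ × ℤ)} (e : ℝ) (k : D → ℝ) (z : ℤ × ℤ) :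
    g0 D (fun y => e * k y) z = e * g0 D k z := by
  unfold g0 gl
  split_ifs with hz
  · rfl
  · rw [mul_zero]

private theorem wg_cg0 {D : Finset (ℤ × ℤ)} {w : D → (D → ℝ) → ℝ} (hw : ∀ x, Continuous (w x))
    (z : ℤ × ℤ) : Continuous (fun h => g0 D (fun y => w y h) z) := by
  unfold g0 gl
  by_cases hz : z ∈ D
  · simp only [dif_pos hz]
    exact hw _
  · simp only [dif_neg hz]
    exact continuous_const

private theorem wg_cpen {D : Finset (ℤ × ℤ)} (b : ℤ × ℤ → ℝ) {w : D → (D → ℝ) → ℝ}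
    (hw : ∀ x, Continuous (w x)) {s : ℝ} (hs : 1 ≤ s) (x : ℤ × ℤ) (i : Fin 6) :
    Continuous (fun h : D → ℝ => Us2 s (gl D b h x - gl D b h (x + st i)) *
      (g0 D (fun y => w y h) x - g0 D (fun y => w y h) (x + st i)) ^ 2) :=
  ((Us2_cont hs).comp ((gl_cont D b x).sub (gl_cont D b _))).mul
    (((wg_cg0 hw x).sub (wg_cg0 hw _)).pow 2)

theorem wS_smooth {D : Finset (ℤ × ℤ)} (b : ℤ × ℤ → ℝ) {W : (D → ℝ) → ℝ} (hW : Wok W) {s : ℝ}
    (hs : 1 ≤ s) (f : 𝓢(D → ℝ, ℝ)) (x : D) : ContDiff ℝ ∞ (wS D b W s f x) := by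
  have hV := Vw_temp b hW hs
  exact ((hV.1.div_const 2).exp).mul ((av (Vw D b W s) x f).smooth ⊤)

theorem wS_energy {D : Finset (ℤ × ℤ)} (b : ℤ × ℤ → ℝ) {W : (D → ℝ) → ℝ} (hW : Wok W) {s : ℝ}
    (hs : 1 ≤ s) (f : 𝓢(D → ℝ, ℝ)) :
    EK D b W (fun h => ∑ x, gr (wS D b W s f x) h) ≤
      Real.exp (6 * (D.card : ℝ) / s) *
        ∑ x, ∑ y, ∫ h, (av (Vw D b W s) y (av (Vw D b W s) x f) h) ^ 2 := by
  set E : ℝ := Real.exp (6 * (D.card : ℝ) / s) with hE
  have hE0 : 0 < E := Real.exp_pos _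
  have i1 : ∀ x y : D, Integrable (fun h => (av (Vw D b W s) y (av (Vw D b W s) x f) h) ^ 2) :=
    fun x y => ((av (Vw D b W s) y (av (Vw D b W s) x f)).memLp 2
      (volume : Measure (D → ℝ))).integrable_sq
  have i2 : Integrable (fun h => ∑ x : D, ∑ y : D,
      (av (Vw D b W s) y (av (Vw D b W s) x f) h) ^ 2) :=
    integrable_finsetSum _ fun x _ => integrable_finsetSum _ fun y _ => i1 x y
  have i3 := EK_int b (g := fun h => ∑ x, gr (wS D b W s f x) h) hW.temp.1.continuous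
    (continuous_finsetSum _ fun x _ => wg_cgr (wS_smooth b hW hs f x))
  calc EK D b W (fun h => ∑ x, gr (wS D b W s f x) h)
      ≤ ∫ h in K D b, E * ∑ x : D, ∑ y : D, (av (Vw D b W s) y (av (Vw D b W s) x f) h) ^ 2 := by
        refine setIntegral_mono_on i3 (i2.const_mul E).integrableOn (K_meas D b) fun h hh => ?_
        show (∑ x, gr (wS D b W s f x) h) * Real.exp (- W h) ≤
          E * ∑ x : D, ∑ y : D, (av (Vw D b W s) y (av (Vw D b W s) x f) h) ^ 2
        have e1 : (∑ x, gr (wS D b W s f x) h) * Real.exp (- W h) =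
            Real.exp (Vw D b W s h / 2) ^ 2 * Real.exp (- W h) *
              ∑ x : D, ∑ y : D, (av (Vw D b W s) y (av (Vw D b W s) x f) h) ^ 2 := by
          unfold gr
          rw [Finset.sum_mul, Finset.mul_sum]
          refine Finset.sum_congr rfl fun x _ => ?_
          rw [Finset.sum_mul, Finset.mul_sum]
          refine Finset.sum_congr rfl fun y _ => ?_
          rw [wg_pd b hW hs f x y h]
          ring
        rw [e1]
        exact mul_le_mul_of_nonneg_right (wg_sq hs hh)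
          (Finset.sum_nonneg fun x _ => Finset.sum_nonneg fun y _ => sq_nonneg _)
    _ ≤ ∫ h, E * ∑ x : D, ∑ y : D, (av (Vw D b W s) y (av (Vw D b W s) x f) h) ^ 2 := by
        refine setIntegral_le_integral (i2.const_mul E) (ae_of_all _ fun h => ?_)
        exact mul_nonneg hE0.le
          (Finset.sum_nonneg fun x _ => Finset.sum_nonneg fun y _ => sq_nonneg _)
    _ = _ := by
        rw [integral_const_mul, integral_finsetSum _
          fun x _ => integrable_finsetSum _ fun y _ => i1 x y]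
        congr 1
        refine Finset.sum_congr rfl fun x _ => ?_
        rw [integral_finsetSum _ fun y _ => i1 x y]

theorem wS_pen {D : Finset (ℤ × ℤ)} (b : ℤ × ℤ → ℝ) {W : (D → ℝ) → ℝ} (hW : Wok W) {s : ℝ}
    (hs : 1 ≤ s) (f : 𝓢(D → ℝ, ℝ)) :
    EK D b W (fun h => ∑ x ∈ D, ∑ i, Us2 s (gl D b h x - gl D b h (x + st i)) *
        (g0 D (fun y => wS D b W s f y h) x - g0 D (fun y => wS D b W s f y h) (x + st i)) ^ 2) ≤
      Real.exp (6 * (D.card : ℝ) / s) *
        ∫ h, ∑ x, ∑ y, pd y (pd x (Vw D b W s)) h * av (Vw D b W s) x f h *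
          av (Vw D b W s) y f h := by
  set E : ℝ := Real.exp (6 * (D.card : ℝ) / s) with hE
  have hE0 : 0 < E := Real.exp_pos _
  have hV := Vw_temp b hW hs
  set Q : (D → ℝ) → ℝ := fun h => ∑ x ∈ D, ∑ i, Us2 s (gl D b h x - gl D b h (x + st i)) *
    (g0 D (fun y => av (Vw D b W s) y f h) x - g0 D (fun y => av (Vw D b W s) y f h) (x + st i)) ^ 2
    with hQ
  set H : (D → ℝ) → ℝ := fun h => ∑ x, ∑ y, pd y (pd x (Vw D b W s)) h * av (Vw D b W s) x f h *
    av (Vw D b W s) y f h with hH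
  have hQ0 : ∀ h, 0 ≤ Q h := fun h => Finset.sum_nonneg fun x _ => Finset.sum_nonneg fun i _ =>
    mul_nonneg (Us2_nonneg hs _) (sq_nonneg _)
  have hQH : ∀ h, Q h ≤ H h := by
    intro h
    have h1 := Vw_hess b hW hs h (fun y => av (Vw D b W s) y f h)
    have h2 := hW.conv h (fun y => av (Vw D b W s) y f h)
    have h3 : H h = Q h + ∑ x, ∑ y, pd y (pd x W) h * av (Vw D b W s) x f h *
      av (Vw D b W s) y f h := h1
    rw [h3]
    linarith
  have iH : Integrable H := by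
    refine integrable_finsetSum _ fun x _ => integrable_finsetSum _ fun y _ => ?_
    have h1 := pd_temp (pd_temp hV x) y
    have h2 := ((mu (pd y (pd x (Vw D b W s))) (av (Vw D b W s) x f)).memLp 2
      (volume : Measure (D → ℝ))).integrable_mul
      ((av (Vw D b W s) y f).memLp 2 (volume : Measure (D → ℝ)))
    refine h2.congr (ae_of_all _ fun h => ?_)
    show mu (pd y (pd x (Vw D b W s))) (av (Vw D b W s) x f) h * av (Vw D b W s) y f h = _
    rw [mu_apply h1]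
  have i3 := EK_int b (g := fun h => ∑ x ∈ D, ∑ i, Us2 s (gl D b h x - gl D b h (x + st i)) *
        (g0 D (fun y => wS D b W s f y h) x - g0 D (fun y => wS D b W s f y h) (x + st i)) ^ 2)
    hW.temp.1.continuous
    (continuous_finsetSum _ fun x _ => continuous_finsetSum _ fun i _ =>
      wg_cpen b (fun y => (wS_smooth b hW hs f y).continuous) hs x i)
  calc EK D b W (fun h => ∑ x ∈ D, ∑ i, Us2 s (gl D b h x - gl D b h (x + st i)) *
        (g0 D (fun y => wS D b W s f y h) x - g0 D (fun y => wS D b W s f y h) (x + st i)) ^ 2)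
      ≤ ∫ h in K D b, E * H h := by
        refine setIntegral_mono_on i3 (iH.const_mul E).integrableOn (K_meas D b) fun h hh => ?_
        have e1 : (∑ x ∈ D, ∑ i, Us2 s (gl D b h x - gl D b h (x + st i)) *
            (g0 D (fun y => wS D b W s f y h) x -
              g0 D (fun y => wS D b W s f y h) (x + st i)) ^ 2) * Real.exp (- W h) =
            Real.exp (Vw D b W s h / 2) ^ 2 * Real.exp (- W h) * Q h := by
          rw [hQ]
          simp only []
          rw [Finset.sum_mul, Finset.mul_sum]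
          refine Finset.sum_congr rfl fun x _ => ?_
          rw [Finset.sum_mul, Finset.mul_sum]
          refine Finset.sum_congr rfl fun i _ => ?_
          have h1 : ∀ z, g0 D (fun y => wS D b W s f y h) z =
              Real.exp (Vw D b W s h / 2) * g0 D (fun y => av (Vw D b W s) y f h) z :=
            fun z => wg_g0 _ _ z
          rw [h1, h1]
          ring
        show (∑ x ∈ D, ∑ i, Us2 s (gl D b h x - gl D b h (x + st i)) *
            (g0 D (fun y => wS D b W s f y h) x -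
              g0 D (fun y => wS D b W s f y h) (x + st i)) ^ 2) * Real.exp (- W h) ≤ E * H h
        rw [e1]
        exact mul_le_mul (wg_sq hs hh) (hQH h) (hQ0 h) hE0.le
    _ ≤ ∫ h, E * H h := by
        refine setIntegral_le_integral (iH.const_mul E) (ae_of_all _ fun h => ?_)
        exact mul_nonneg hE0.le ((hQ0 h).trans (hQH h))
    _ = _ := by
        rw [integral_const_mul]

/- END wg -/

/- MODULE wh
`W` is bounded on the compact set `K`: from `EK` to the library's `ET`, `E2` (lower integrals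
without weight). -/

private theorem wh_gen {D : Finset (ℤ × ℤ)} (b : ℤ × ℤ → ℝ) {W : (D → ℝ) → ℝ}
    (hW : Continuous W) {M : ℝ} (hM : ∀ h ∈ K D b, W h ≤ M) {g : (D → ℝ) → ℝ}
    (hg : Continuous g) (h0 : ∀ h, 0 ≤ g h) :
    ∫⁻ h in K D b, ENNReal.ofReal (g h) ≤ ENNReal.ofReal (Real.exp M * EK D b W g) := by
  have i0 := EK_int b (g := g) hW hg
  have i1 : IntegrableOn g (K D b) := by
    have := EK_int (W := fun _ => (0 : ℝ)) b (g := g) continuous_const hg
    simpa using this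
  rw [← ofReal_integral_eq_lintegral_ofReal i1 (ae_of_all _ h0)]
  refine ENNReal.ofReal_le_ofReal ?_
  unfold EK
  rw [← integral_const_mul]
  refine setIntegral_mono_on i1 (i0.const_mul _) (K_meas D b) fun h hh => ?_
  have h1 : 1 ≤ Real.exp M * Real.exp (- W h) := by
    rw [← Real.exp_add]
    refine Real.one_le_exp ?_
    linarith [hM h hh]
  calc g h = g h * 1 := (mul_one _).symm
    _ ≤ g h * (Real.exp M * Real.exp (- W h)) := mul_le_mul_of_nonneg_left h1 (h0 h)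
    _ = Real.exp M * (g h * Real.exp (- W h)) := by ring

theorem ET_le_EK {D : Finset (ℤ × ℤ)} (b : ℤ × ℤ → ℝ) {W : (D → ℝ) → ℝ} (hW : Wok W) :
    ∃ c : ℝ, 0 ≤ c ∧ ∀ w : D → (D → ℝ) → ℝ, (∀ x, ContDiff ℝ ∞ (w x)) → ∀ s : ℝ, 1 ≤ s →
      ET D b w ≤ ENNReal.ofReal (c * EK D b W (fun h => ∑ x, gr (w x) h)) ∧
      E2 D b s w ≤ ENNReal.ofReal (c * EK D b W (fun h => ∑ x ∈ D, ∑ i,
        Us2 s (gl D b h x - gl D b h (x + st i)) *
          (g0 D (fun y => w y h) x - g0 D (fun y => w y h) (x + st i)) ^ 2)) := by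
  have hWc : Continuous W := hW.temp.1.continuous
  obtain ⟨M, hM⟩ := (wf_cpt D b).exists_bound_of_continuousOn hWc.continuousOn
  have hM' : ∀ h ∈ K D b, W h ≤ M := fun h hh => (le_abs_self _).trans (hM h hh)
  refine ⟨Real.exp M, (Real.exp_pos _).le, fun w hw s hs => ⟨?_, ?_⟩⟩
  · have h1 : ET D b w = ∫⁻ h in K D b, ENNReal.ofReal (∑ x, gr (w x) h) := by
      unfold ET Gr
      rw [← lintegral_finsetSum]
      · refine lintegral_congr fun h => ?_
        exact (ENNReal.ofReal_sum_of_nonneg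
          fun x _ => Finset.sum_nonneg fun y _ => sq_nonneg _).symm
      · intro x _
        exact ENNReal.measurable_ofReal.comp (wg_cgr (hw x)).measurable
    rw [h1]
    exact wh_gen b hWc hM' (continuous_finsetSum _ fun x _ => wg_cgr (hw x))
      fun h => Finset.sum_nonneg fun x _ => Finset.sum_nonneg fun y _ => sq_nonneg _
  · have hc : ∀ x (i : Fin 6), Continuous (fun h : D → ℝ =>
        Us2 s (gl D b h x - gl D b h (x + st i)) *
          (g0 D (fun y => w y h) x - g0 D (fun y => w y h) (x + st i)) ^ 2) :=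
      fun x i => wg_cpen b (fun y => (hw y).continuous) hs x i
    have hn : ∀ x (i : Fin 6) (h : D → ℝ), 0 ≤ Us2 s (gl D b h x - gl D b h (x + st i)) *
          (g0 D (fun y => w y h) x - g0 D (fun y => w y h) (x + st i)) ^ 2 :=
      fun x i h => mul_nonneg (Us2_nonneg hs _) (sq_nonneg _)
    have h1 : E2 D b s w = ∫⁻ h in K D b, ENNReal.ofReal (∑ x ∈ D, ∑ i,
        Us2 s (gl D b h x - gl D b h (x + st i)) *
          (g0 D (fun y => w y h) x - g0 D (fun y => w y h) (x + st i)) ^ 2) := by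
      unfold E2
      have e1 : ∀ h : D → ℝ, ENNReal.ofReal (∑ x ∈ D, ∑ i,
          Us2 s (gl D b h x - gl D b h (x + st i)) *
            (g0 D (fun y => w y h) x - g0 D (fun y => w y h) (x + st i)) ^ 2) =
          ∑ x ∈ D, ∑ i, ENNReal.ofReal (Us2 s (gl D b h x - gl D b h (x + st i)) *
            (g0 D (fun y => w y h) x - g0 D (fun y => w y h) (x + st i)) ^ 2) := by
        intro h
        rw [ENNReal.ofReal_sum_of_nonneg fun x _ => Finset.sum_nonneg fun i _ => hn x i h]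
        refine Finset.sum_congr rfl fun x _ => ?_
        rw [ENNReal.ofReal_sum_of_nonneg fun i _ => hn x i h]
      simp only [e1]
      rw [lintegral_finsetSum]
      · refine Finset.sum_congr rfl fun x _ => ?_
        rw [lintegral_finsetSum]
        intro i _
        exact ENNReal.measurable_ofReal.comp (hc x i).measurable
      · intro x _
        exact Finset.measurable_sum _ fun i _ =>
          ENNReal.measurable_ofReal.comp (hc x i).measurable
    rw [h1]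
    exact wh_gen b hWc hM' (continuous_finsetSum _ fun x _ =>
      continuous_finsetSum _ fun i _ => hc x i)
      fun h => Finset.sum_nonneg fun x _ => Finset.sum_nonneg fun i _ => hn x i h

/- END wh -/

/- MODULE wi
`sum_est` (Asm.lean) gives the bound of `∫_K |w_z - w_{z + st i}|` for `z ∈ D`; walk from `x` in
direction `0` until leaving `D` (at most `|D|` steps); `fs D s ≤ 1` for large `s`
(`fs D s → 0`, it is a constant times `(c / s)^(1/2)`). -/

private theorem wi_walk {D : Finset (ℤ × ℤ)} (h : D → ℝ) (x : D) :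
    |h x| ≤ ∑ y ∈ D, |g0 D h y - g0 D h (y + st 0)| := by
  obtain ⟨w, hw⟩ : ∃ w : ℕ → ℤ × ℤ, ∀ k : ℕ, w k = (x.1.1 + (k : ℤ), x.1.2) := ⟨_, fun _ => rfl⟩
  have hst : st 0 = (1, 0) := rfl
  have hsucc : ∀ k, w (k + 1) = w k + st 0 := by
    intro k
    rw [hw, hw, hst]
    ext
    · push_cast
      simp only [Prod.mk_add_mk]
      ring
    · simp
  have h0 : w 0 = x.1 := by
    rw [hw]
    ext <;> simp
  have hinj : Function.Injective w := by
    intro k l hkl
    rw [hw, hw] at hkl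
    have := congrArg Prod.fst hkl
    simp only at this
    omega
  have hex : ∃ k, w k ∉ D := by
    by_contra hc
    push Not at hc
    have h1 : ((Finset.range (D.card + 1)).image w).card = D.card + 1 := by
      rw [Finset.card_image_of_injective _ hinj, Finset.card_range]
    have h2 : (Finset.range (D.card + 1)).image w ⊆ D := by
      intro z hz
      obtain ⟨k, _, rfl⟩ := Finset.mem_image.1 hz
      exact hc k
    have := Finset.card_le_card h2
    omega
  classical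
  set N := Nat.find hex with hN
  have hN1 : w N ∉ D := Nat.find_spec hex
  have hN2 : ∀ k, k < N → w k ∈ D := fun k hk => not_not.1 (Nat.find_min hex hk)
  have h3 := dist_le_range_sum_dist (fun k => g0 D h (w k)) N
  simp only [Real.dist_eq] at h3
  have h4 : ∑ k ∈ Finset.range N, |g0 D h (w k) - g0 D h (w (k + 1))| ≤
      ∑ y ∈ D, |g0 D h y - g0 D h (y + st 0)| := by
    have h5 : ∑ k ∈ Finset.range N, |g0 D h (w k) - g0 D h (w (k + 1))| =
        ∑ y ∈ (Finset.range N).image w, |g0 D h y - g0 D h (y + st 0)| := by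
      rw [Finset.sum_image (fun a _ b _ hab => hinj hab)]
      exact Finset.sum_congr rfl fun k _ => by rw [hsucc]
    rw [h5]
    refine Finset.sum_le_sum_of_subset_of_nonneg ?_ (fun _ _ _ => abs_nonneg _)
    intro z hz
    obtain ⟨k, hk, rfl⟩ := Finset.mem_image.1 hz
    exact hN2 k (Finset.mem_range.1 hk)
  have h6 : g0 D h (w 0) = h x := by
    rw [h0]
    unfold g0 gl
    rw [dif_pos x.2]
  have h7 : g0 D h (w N) = 0 := by
    unfold g0 gl
    rw [dif_neg hN1]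
  rw [h6, h7, sub_zero] at h3
  exact h3.trans h4

private theorem wi_rt {t X : ℝ≥0∞} (h : t ^ 2 ≤ X) : t ≤ X ^ (1 / 2 : ℝ) := by
  have h1 : (t ^ 2) ^ (1 / 2 : ℝ) = t := by
    rw [← ENNReal.rpow_natCast, ← ENNReal.rpow_mul]
    norm_num
  calc t = (t ^ 2) ^ (1 / 2 : ℝ) := h1.symm
    _ ≤ _ := ENNReal.rpow_le_rpow h (by norm_num)

private theorem wi_fs (D : Finset (ℤ × ℤ)) {s : ℝ} (hs : 1 ≤ s) : fs D s ≤ fs D 1 := by
  unfold fs
  refine mul_le_mul' le_rfl (ENNReal.rpow_le_rpow (ENNReal.ofReal_le_ofReal ?_) (by norm_num))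
  exact div_le_div_of_nonneg_left (by positivity) one_pos hs

private theorem wi_fs1 (D : Finset (ℤ × ℤ)) : fs D 1 < ⊤ := by
  unfold fs
  exact ENNReal.mul_lt_top (ENNReal.mul_lt_top (by norm_num) (ENNReal.pow_lt_top (by norm_num)))
    (ENNReal.rpow_lt_top_of_nonneg (by norm_num) ENNReal.ofReal_ne_top)

theorem L1_le {D : Finset (ℤ × ℤ)} {b : ℤ × ℤ → ℝ} (hb : ∀ z, |b z| ≤ 1 / 2) :
    ∃ c : ℝ≥0∞, c < ⊤ ∧ ∃ s₀ : ℝ, 1 ≤ s₀ ∧ ∀ s, s₀ ≤ s → ∀ w : D → (D → ℝ) → ℝ,
      (∀ x, ContDiff ℝ 1 (w x)) → ∀ x,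
        ∫⁻ h in K D b, ENNReal.ofReal |w x h| ≤ c * (ET D b w + E2 D b s w) ^ (1 / 2 : ℝ) := by
  obtain ⟨C, hC, H⟩ := loc_exists
  set A : ℝ≥0∞ := 768 * C ^ 2 * Z D b + 1536 * (D.card : ℝ≥0∞) * fs D 1 ^ 2 with hA
  have hAt : A < ⊤ := by
    refine ENNReal.add_lt_top.2 ⟨ENNReal.mul_lt_top (ENNReal.mul_lt_top (by norm_num)
      (ENNReal.pow_lt_top hC)) (Z_lt_top D b), ENNReal.mul_lt_top (ENNReal.mul_lt_top (by norm_num)
      (ENNReal.natCast_lt_top _)) (ENNReal.pow_lt_top (wi_fs1 D))⟩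
  refine ⟨(D.card : ℝ≥0∞) * A ^ (1 / 2 : ℝ), ENNReal.mul_lt_top (ENNReal.natCast_lt_top _)
    (ENNReal.rpow_lt_top_of_nonneg (by norm_num) hAt.ne), 1, le_rfl, ?_⟩
  intro s hs w hw x
  have hse := sum_est H hb hw hs
  have h1 : 768 * C ^ 2 * Z D b * ET D b w +
        1536 * (D.card : ℝ≥0∞) * fs D s ^ 2 * (E2 D b s w + ET D b w) ≤
      A * (ET D b w + E2 D b s w) := by
    rw [hA, add_mul, add_comm (E2 D b s w)]
    refine add_le_add (mul_le_mul' le_rfl le_self_add) (mul_le_mul' (mul_le_mul' le_rfl ?_) le_rfl)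
    exact pow_le_pow_left' (wi_fs D hs) 2
  have h2 : ∀ y ∈ D, ∫⁻ h in K D b, ENNReal.ofReal
        |g0 D (fun z => w z h) y - g0 D (fun z => w z h) (y + st 0)| ≤
      A ^ (1 / 2 : ℝ) * (ET D b w + E2 D b s w) ^ (1 / 2 : ℝ) := by
    intro y hy
    rw [← ENNReal.mul_rpow_of_nonneg _ _ (by norm_num)]
    refine wi_rt (le_trans ?_ (hse.trans h1))
    refine le_trans ?_ (Finset.single_le_sum (f := fun y : ℤ × ℤ => ∑ i : Fin 6,
      (∫⁻ h in K D b, ENNReal.ofReal
        |g0 D (fun z => w z h) y - g0 D (fun z => w z h) (y + st i)|) ^ 2)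
      (fun _ _ => zero_le) hy)
    exact Finset.single_le_sum (f := fun i : Fin 6 => (∫⁻ h in K D b, ENNReal.ofReal
        |g0 D (fun z => w z h) y - g0 D (fun z => w z h) (y + st i)|) ^ 2)
      (fun _ _ => zero_le) (Finset.mem_univ 0)
  have hc : ∀ y, Continuous (fun h => g0 D (fun z => w z h) y) := fun y =>
    wg_cg0 (fun z => (hw z).continuous) y
  calc ∫⁻ h in K D b, ENNReal.ofReal |w x h|
      ≤ ∫⁻ h in K D b, ∑ y ∈ D, ENNReal.ofReal
        |g0 D (fun z => w z h) y - g0 D (fun z => w z h) (y + st 0)| := by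
        refine lintegral_mono fun h => ?_
        rw [← ENNReal.ofReal_sum_of_nonneg fun y _ => abs_nonneg _]
        exact ENNReal.ofReal_le_ofReal (wi_walk (fun z => w z h) x)
    _ = ∑ y ∈ D, ∫⁻ h in K D b, ENNReal.ofReal
        |g0 D (fun z => w z h) y - g0 D (fun z => w z h) (y + st 0)| := by
        rw [lintegral_finsetSum]
        intro y _
        exact ENNReal.measurable_ofReal.comp ((hc y).sub (hc _)).abs.measurable
    _ ≤ ∑ y ∈ D, A ^ (1 / 2 : ℝ) * (ET D b w + E2 D b s w) ^ (1 / 2 : ℝ) :=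
        Finset.sum_le_sum h2
    _ = _ := by
        rw [Finset.sum_const, nsmul_eq_mul, mul_assoc]

/- END wi -/

end Pool.Agent.Hgf
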